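import Mathlib

namespace Pool.Agent.Helper209.CX

namespace A01

theorem cx_hadamard_basis {F : Type*} [NormedAddCommGroup F] [InnerProductSpace ℂ F]
    [FiniteDimensional ℂ F] (N : ℕ) (b : OrthonormalBasis (Fin N) ℂ F) (f : Fin N → F) :
    ‖b.toBasis.det f‖ ≤ ∏ i, ‖f i‖ := by
  have h : Module.finrank ℂ F = Fintype.card (Fin N) := Module.finrank_eq_card_basis b.toBasis
  obtain ⟨g, hg⟩ : ∃ g, g = InnerProductSpace.gramSchmidtOrthonormalBasis h f := ⟨_, rfl⟩
  have h1 := AlternatingMap.eq_smul_basis_det g.toBasis b.toBasis.det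
  have h2 : b.toBasis.det f = b.toBasis.det g * g.toBasis.det f := by
    conv_lhs => rw [h1]
    rw [AlternatingMap.smul_apply, smul_eq_mul, OrthonormalBasis.coe_toBasis]
  have h3 : ‖b.toBasis.det g‖ = 1 := OrthonormalBasis.det_to_matrix_orthonormalBasis b g
  have h4 : g.toBasis.det f = ∏ i, inner ℂ (g i) (f i) := by
    rw [hg]
    exact InnerProductSpace.gramSchmidtOrthonormalBasis_det h f
  rw [h2, norm_mul, h3, one_mul, h4, norm_prod]
  refine Finset.prod_le_prod (fun i _ => norm_nonneg _) fun i _ => ?_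
  refine (norm_inner_le_norm _ _).trans ?_
  rw [g.orthonormal.1 i, one_mul]


theorem cx_gram_hadamard {E : Type*} [NormedAddCommGroup E] [InnerProductSpace ℂ E]
    (N : ℕ) (x y : Fin N → E) :
    ‖(Matrix.of fun i j => (inner ℂ (x i) (y j) : ℂ)).det‖ ≤ (∏ i, ‖x i‖) * ∏ i, ‖y i‖ := by
  classical
  by_cases hx : LinearIndependent ℂ x
  · have hfd : FiniteDimensional ℂ (Submodule.span ℂ (Set.range x)) :=
      FiniteDimensional.span_of_finite ℂ (Set.finite_range x)
    obtain ⟨F, hF⟩ : ∃ F, F = Submodule.span ℂ (Set.range x) := ⟨_, rfl⟩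
    rw [← hF] at hfd
    have hfr : Module.finrank ℂ F = Fintype.card (Fin N) := by
      rw [hF]
      exact finrank_span_eq_card hx
    have hxF : ∀ i, x i ∈ F := by
      intro i
      rw [hF]
      exact Submodule.subset_span ⟨i, rfl⟩
    obtain ⟨x', hx'⟩ : ∃ x' : Fin N → F, ∀ i, (x' i : E) = x i := ⟨fun i => ⟨x i, hxF i⟩, fun _ => rfl⟩
    obtain ⟨y', hy'⟩ : ∃ y' : Fin N → F, y' = fun j => F.orthogonalProjectionOnto (y j) := ⟨_, rfl⟩
    let b : OrthonormalBasis (Fin N) ℂ F := InnerProductSpace.gramSchmidtOrthonormalBasis hfr x'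
    have hin : ∀ i j, (inner ℂ (x i) (y j) : ℂ) = inner ℂ (x' i) (y' j) := by
      intro i j
      rw [hy', ← hx' i]
      exact (Submodule.inner_orthogonalProjectionOnto_eq_of_mem_left (x' i) (y j)).symm
    have hM : (Matrix.of fun i j => (inner ℂ (x i) (y j) : ℂ)) =
        (b.toBasis.toMatrix x').conjTranspose * b.toBasis.toMatrix y' := by
      ext i j
      rw [Matrix.of_apply, hin, Matrix.mul_apply, ← b.sum_inner_mul_inner]
      refine Finset.sum_congr rfl fun m _ => ?_
      rw [Matrix.conjTranspose_apply, Module.Basis.toMatrix_apply, Module.Basis.toMatrix_apply,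
        OrthonormalBasis.coe_toBasis_repr_apply, OrthonormalBasis.coe_toBasis_repr_apply,
        b.repr_apply_apply, b.repr_apply_apply]
      congr 1
      exact (inner_conj_symm _ _).symm
    rw [hM, Matrix.det_mul, Matrix.det_conjTranspose, norm_mul, norm_star]
    have h1 := cx_hadamard_basis N b x'
    have h2 := cx_hadamard_basis N b y'
    rw [Module.Basis.det_apply] at h1 h2
    have h3 : ∏ i, ‖x' i‖ = ∏ i, ‖x i‖ := by
      refine Finset.prod_congr rfl fun i _ => ?_
      rw [← hx' i]
      rfl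
    have h4 : ∏ i, ‖y' i‖ ≤ ∏ i, ‖y i‖ := by
      refine Finset.prod_le_prod (fun i _ => norm_nonneg _) fun i _ => ?_
      rw [hy']
      exact Submodule.norm_orthogonalProjectionOnto_apply_le F (y i)
    rw [h3] at h1
    exact mul_le_mul h1 (h2.trans h4) (norm_nonneg _) (Finset.prod_nonneg fun i _ => norm_nonneg _)
  · rw [Fintype.not_linearIndependent_iff] at hx
    obtain ⟨g, hg, i0, hi0⟩ := hx
    have h0 : (Matrix.of fun i j => (inner ℂ (x i) (y j) : ℂ)).det = 0 := by
      rw [← Matrix.exists_vecMul_eq_zero_iff]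
      refine ⟨fun i => star (g i), ?_, ?_⟩
      · intro h
        have := congrFun h i0
        simp at this
        exact hi0 this
      · funext j
        show ∑ i, star (g i) * (inner ℂ (x i) (y j) : ℂ) = 0
        have h1 : ∑ i, star (g i) * (inner ℂ (x i) (y j) : ℂ) = inner ℂ (∑ i, g i • x i) (y j) := by
          rw [sum_inner]
          refine Finset.sum_congr rfl fun i _ => ?_
          rw [inner_smul_left]
          rfl
        rw [h1, hg, inner_zero_left]
    rw [h0, norm_zero]
    positivity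

end A01
end Pool.Agent.Helper209.CX
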