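import Mathlib

namespace Pool.Agent.Helper209.CX

namespace A02
open MeasureTheory

lemma cx_inner994 {μ : Measure ℝ} {f g : ℝ → ℂ} (hf : MemLp f 2 μ) (hg : MemLp g 2 μ) :
    inner ℂ (hf.toLp f) (hg.toLp g) = ∫ ξ, (starRingEnd ℂ) (f ξ) * g ξ ∂μ := by
  rw [L2.inner_def]
  refine integral_congr_ae ?_
  filter_upwards [hf.coeFn_toLp, hg.coeFn_toLp] with ξ h1 h2
  rw [h1, h2, RCLike.inner_apply]
  ring

lemma cx_norm994 {μ : Measure ℝ} {f : ℝ → ℂ} (hf : MemLp f 2 μ) :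
    ‖hf.toLp f‖ ^ 2 = ∫ ξ, ‖f ξ‖ ^ 2 ∂μ := by
  have h1 := cx_inner994 hf hf
  rw [inner_self_eq_norm_sq_to_K] at h1
  have h2 : ∫ ξ, (starRingEnd ℂ) (f ξ) * f ξ ∂μ = ((∫ ξ, ‖f ξ‖ ^ 2 ∂μ : ℝ) : ℂ) := by
    rw [← integral_complex_ofReal]
    refine integral_congr_ae (ae_of_all _ fun ξ => ?_)
    show (starRingEnd ℂ) (f ξ) * f ξ = ((‖f ξ‖ ^ 2 : ℝ) : ℂ)
    rw [mul_comm, Complex.mul_conj, Complex.normSq_eq_norm_sq]
  rw [h2] at h1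
  have h3 : ((‖hf.toLp f‖ : ℝ) : ℂ) ^ 2 = ((∫ ξ, ‖f ξ‖ ^ 2 ∂μ : ℝ) : ℂ) := h1
  exact_mod_cast h3

lemma cx_exp994 (r : ℝ) : r ≤ Real.exp ((r ^ 2 - 1) / 2) := by
  have h1 : r ^ 2 ≤ Real.exp (r ^ 2 - 1) := by
    have := Real.add_one_le_exp (r ^ 2 - 1)
    linarith
  have h2 : Real.exp (r ^ 2 - 1) = Real.exp ((r ^ 2 - 1) / 2) ^ 2 := by
    rw [← Real.exp_nat_mul]
    congr 1
    push_cast
    ring
  rw [h2] at h1
  exact (abs_le_of_sq_le_sq' h1 (Real.exp_pos _).le).2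

theorem cx_det_bound
    (gh : ∀ (E : Type) [NormedAddCommGroup E] [InnerProductSpace ℂ E] (N : ℕ) (x y : Fin N → E),
      ‖(Matrix.of fun i j => (inner ℂ (x i) (y j) : ℂ)).det‖ ≤ (∏ i, ‖x i‖) * ∏ i, ‖y i‖)
    (N : ℕ) (μ : Measure ℝ) (T : Matrix (Fin N) (Fin N) ℂ) (X Y : Fin N → ℝ → ℂ)
    (hX : ∀ i, MemLp (X i) 2 μ) (hY : ∀ i, MemLp (Y i) 2 μ) (K : Matrix (Fin N) (Fin N) ℂ)
    (hK : ∀ i j, K i j = T i j + ∫ ξ, (starRingEnd ℂ) (X i ξ) * Y j ξ ∂μ) :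
    ‖(1 + K).det * Complex.exp (-K.trace)‖ ≤
      Real.exp ((∑ i, ∑ j, ‖T i j‖ ^ 2) / 2 + (∑ i, ∫ ξ, ‖X i ξ‖ ^ 2 ∂μ)
        + ∑ i, ∫ ξ, ‖Y i ξ‖ ^ 2 ∂μ) := by
  obtain ⟨x, hx⟩ : ∃ x : Fin N → WithLp 2 (EuclideanSpace ℂ (Fin N) × Lp ℂ 2 μ), x = fun i =>
    WithLp.toLp 2 (WithLp.toLp 2 (fun j => (starRingEnd ℂ) ((1 + T) i j)), (hX i).toLp (X i)) :=
    ⟨_, rfl⟩
  obtain ⟨y, hy⟩ : ∃ y : Fin N → WithLp 2 (EuclideanSpace ℂ (Fin N) × Lp ℂ 2 μ), y = fun j =>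
    WithLp.toLp 2 (EuclideanSpace.single j (1 : ℂ), (hY j).toLp (Y j)) := ⟨_, rfl⟩
  have hin : ∀ i j, inner ℂ (x i) (y j) = (1 + K) i j := by
    intro i j
    rw [hx, hy, WithLp.prod_inner_apply]
    show inner ℂ (WithLp.toLp 2 (fun j => (starRingEnd ℂ) ((1 + T) i j)) : EuclideanSpace ℂ (Fin N))
      (EuclideanSpace.single j (1 : ℂ)) + inner ℂ ((hX i).toLp (X i)) ((hY j).toLp (Y j)) = _
    rw [EuclideanSpace.inner_single_right, cx_inner994, Matrix.add_apply, hK]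
    show 1 * (starRingEnd ℂ) ((starRingEnd ℂ) ((1 + T) i j)) + _ = _
    rw [Complex.conj_conj, Matrix.add_apply]
    ring
  have hdet : ‖(1 + K).det‖ ≤ (∏ i, ‖x i‖) * ∏ i, ‖y i‖ := by
    have h1 := gh _ N x y
    have h2 : (Matrix.of fun i j => (inner ℂ (x i) (y j) : ℂ)) = 1 + K := by
      ext i j
      exact hin i j
    rwa [h2] at h1
  have hnx : ∀ i, (‖x i‖ ^ 2 - 1) / 2 = (T i i).re + (∑ j, ‖T i j‖ ^ 2) / 2 +
      (∫ ξ, ‖X i ξ‖ ^ 2 ∂μ) / 2 := by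
    intro i
    rw [hx, WithLp.prod_norm_sq_eq_of_L2]
    show (‖(WithLp.toLp 2 (fun j => (starRingEnd ℂ) ((1 + T) i j)) : EuclideanSpace ℂ (Fin N))‖ ^ 2 +
      ‖(hX i).toLp (X i)‖ ^ 2 - 1) / 2 = _
    rw [cx_norm994, EuclideanSpace.norm_sq_eq]
    have h1 : ∀ j, ‖(starRingEnd ℂ) ((1 + T) i j)‖ ^ 2 =
        (if i = j then 1 + 2 * (T i j).re else 0) + ‖T i j‖ ^ 2 := by
      intro j
      rw [RCLike.norm_conj, Matrix.add_apply, Matrix.one_apply]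
      split_ifs with h
      · rw [← Complex.normSq_eq_norm_sq, ← Complex.normSq_eq_norm_sq, Complex.normSq_apply,
          Complex.normSq_apply]
        simp only [Complex.add_re, Complex.add_im, Complex.one_re, Complex.one_im]
        ring
      · rw [zero_add, zero_add]
    have h2 : ∑ j, ‖(starRingEnd ℂ) ((1 + T) i j)‖ ^ 2 =
        1 + 2 * (T i i).re + ∑ j, ‖T i j‖ ^ 2 := by
      simp only [h1]
      rw [Finset.sum_add_distrib, Finset.sum_ite_eq]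
      simp
    show ((∑ j, ‖(starRingEnd ℂ) ((1 + T) i j)‖ ^ 2) + (∫ ξ, ‖X i ξ‖ ^ 2 ∂μ) - 1) / 2 = _
    rw [h2]
    ring
  have hny : ∀ i, (‖y i‖ ^ 2 - 1) / 2 = (∫ ξ, ‖Y i ξ‖ ^ 2 ∂μ) / 2 := by
    intro i
    rw [hy, WithLp.prod_norm_sq_eq_of_L2]
    show (‖(EuclideanSpace.single i (1 : ℂ) : EuclideanSpace ℂ (Fin N))‖ ^ 2 +
      ‖(hY i).toLp (Y i)‖ ^ 2 - 1) / 2 = _
    rw [cx_norm994]
    simp
  have hpx : ∏ i, ‖x i‖ ≤ Real.exp (∑ i, (‖x i‖ ^ 2 - 1) / 2) := by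
    rw [Real.exp_sum]
    exact Finset.prod_le_prod (fun i _ => norm_nonneg _) fun i _ => cx_exp994 _
  have hpy : ∏ i, ‖y i‖ ≤ Real.exp (∑ i, (‖y i‖ ^ 2 - 1) / 2) := by
    rw [Real.exp_sum]
    exact Finset.prod_le_prod (fun i _ => norm_nonneg _) fun i _ => cx_exp994 _
  have hcs : ∀ i, -(∫ ξ, (starRingEnd ℂ) (X i ξ) * Y i ξ ∂μ).re ≤
      (∫ ξ, ‖X i ξ‖ ^ 2 ∂μ) / 2 + (∫ ξ, ‖Y i ξ‖ ^ 2 ∂μ) / 2 := by
    intro i
    rw [← cx_inner994 (hX i) (hY i), ← cx_norm994 (hX i), ← cx_norm994 (hY i)]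
    have h1 := Complex.abs_re_le_norm (inner ℂ ((hX i).toLp (X i)) ((hY i).toLp (Y i)))
    have h2 := norm_inner_le_norm (𝕜 := ℂ) ((hX i).toLp (X i)) ((hY i).toLp (Y i))
    have h3 := neg_abs_le (inner ℂ ((hX i).toLp (X i)) ((hY i).toLp (Y i))).re
    nlinarith [sq_nonneg (‖(hX i).toLp (X i)‖ - ‖(hY i).toLp (Y i)‖)]
  have htr : (-K.trace).re = ∑ i, (-(T i i).re +
      -(∫ ξ, (starRingEnd ℂ) (X i ξ) * Y i ξ ∂μ).re) := by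
    rw [Complex.neg_re, Matrix.trace, Complex.re_sum, ← Finset.sum_neg_distrib]
    refine Finset.sum_congr rfl fun i _ => ?_
    rw [Matrix.diag_apply, hK, Complex.add_re]
    ring
  rw [norm_mul, Complex.norm_exp, htr]
  calc ‖(1 + K).det‖ * Real.exp (∑ i, (-(T i i).re +
      -(∫ ξ, (starRingEnd ℂ) (X i ξ) * Y i ξ ∂μ).re)) ≤
      (Real.exp (∑ i, (‖x i‖ ^ 2 - 1) / 2) * Real.exp (∑ i, (‖y i‖ ^ 2 - 1) / 2)) *
      Real.exp (∑ i, (-(T i i).re + -(∫ ξ, (starRingEnd ℂ) (X i ξ) * Y i ξ ∂μ).re)) := by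
        refine mul_le_mul_of_nonneg_right ?_ (Real.exp_pos _).le
        exact hdet.trans (mul_le_mul hpx hpy (Finset.prod_nonneg fun _ _ => norm_nonneg _)
          (Real.exp_pos _).le)
    _ = Real.exp (∑ i, ((‖x i‖ ^ 2 - 1) / 2 + (‖y i‖ ^ 2 - 1) / 2 + (-(T i i).re +
        -(∫ ξ, (starRingEnd ℂ) (X i ξ) * Y i ξ ∂μ).re))) := by
        rw [← Real.exp_add, ← Real.exp_add, ← Finset.sum_add_distrib, ← Finset.sum_add_distrib]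
    _ ≤ _ := by
        apply Real.exp_le_exp.2
        rw [Finset.sum_div, ← Finset.sum_add_distrib, ← Finset.sum_add_distrib]
        refine Finset.sum_le_sum fun i _ => ?_
        rw [hnx, hny]
        linarith [hcs i]

end A02
end Pool.Agent.Helper209.CX
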