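import Mathlib

namespace Pool.Agent.Helper209.CX

namespace A03

theorem cx14995_cs {N : ℕ} (a b : Fin N → ℂ) :
    ‖∑ j, a j * b j‖ ^ 2 ≤ (∑ j, ‖a j‖ ^ 2) * ∑ j, ‖b j‖ ^ 2 := by
  have h1 : ‖∑ j, a j * b j‖ ≤ ∑ j, ‖a j‖ * ‖b j‖ := by
    refine (norm_sum_le _ _).trans (le_of_eq ?_)
    exact Finset.sum_congr rfl fun j _ => norm_mul _ _
  calc ‖∑ j, a j * b j‖ ^ 2 ≤ (∑ j, ‖a j‖ * ‖b j‖) ^ 2 := by
        exact pow_le_pow_left₀ (norm_nonneg _) h1 2
    _ ≤ _ := Finset.sum_mul_sq_le_sq_mul_sq _ _ _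

theorem cx14995_mul {N : ℕ} (A B : Matrix (Fin N) (Fin N) ℂ) :
    ∑ i, ∑ j, ‖(A * B) i j‖ ^ 2 ≤ (∑ i, ∑ j, ‖A i j‖ ^ 2) * ∑ i, ∑ j, ‖B i j‖ ^ 2 := by
  have h1 : ∀ i j, ‖(A * B) i j‖ ^ 2 ≤ (∑ k, ‖A i k‖ ^ 2) * ∑ k, ‖B k j‖ ^ 2 := by
    intro i j
    rw [Matrix.mul_apply]
    exact cx14995_cs _ _
  calc ∑ i, ∑ j, ‖(A * B) i j‖ ^ 2
      ≤ ∑ i, ∑ j, (∑ k, ‖A i k‖ ^ 2) * ∑ k, ‖B k j‖ ^ 2 :=
        Finset.sum_le_sum fun i _ => Finset.sum_le_sum fun j _ => h1 i j
    _ = (∑ i, ∑ j, ‖A i j‖ ^ 2) * ∑ j, ∑ k, ‖B k j‖ ^ 2 := by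
        rw [Finset.sum_mul_sum]
    _ = _ := by
        congr 1
        exact Finset.sum_comm

theorem cx14995_inv {N : ℕ} (K : Matrix (Fin N) (Fin N) ℂ)
    (h : ∑ i, ∑ j, ‖K i j‖ ^ 2 ≤ 1 / 4) : (1 + K).det ≠ 0 := by
  intro h0
  obtain ⟨v, hv, hv2⟩ := Matrix.exists_mulVec_eq_zero_iff.mpr h0
  have h1 : ∀ i, v i = - ∑ j, K i j * v j := by
    intro i
    have h2 := congrFun hv2 i
    rw [Matrix.add_mulVec, Matrix.one_mulVec] at h2
    simp only [Pi.add_apply, Matrix.mulVec, dotProduct, Pi.zero_apply] at h2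
    exact eq_neg_of_add_eq_zero_left h2
  have h2 : ∑ i, ‖v i‖ ^ 2 ≤ (∑ i, ∑ j, ‖K i j‖ ^ 2) * ∑ j, ‖v j‖ ^ 2 := by
    rw [Finset.sum_mul]
    apply Finset.sum_le_sum
    intro i _
    rw [h1 i, norm_neg]
    have := cx14995_cs (fun j => K i j) v
    have e : (∑ j, ‖v j‖ ^ 2) = ∑ j, ‖v j‖ ^ 2 := rfl
    exact this
  have h3 : 0 ≤ ∑ i, ‖v i‖ ^ 2 := Finset.sum_nonneg fun i _ => sq_nonneg _
  have h4 : ∑ i, ‖v i‖ ^ 2 = 0 := by nlinarith
  apply hv
  funext i
  have h5 := (Finset.sum_eq_zero_iff_of_nonneg (fun i _ => sq_nonneg (‖v i‖))).mp h4 i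
    (Finset.mem_univ i)
  exact norm_eq_zero.mp (pow_eq_zero_iff (two_ne_zero) |>.mp h5)

theorem cx_det_lower
    (gh : ∀ (E : Type) [NormedAddCommGroup E] [InnerProductSpace ℂ E] (N : ℕ) (x y : Fin N → E),
      ‖(Matrix.of fun i j => (inner ℂ (x i) (y j) : ℂ)).det‖ ≤ (∏ i, ‖x i‖) * ∏ i, ‖y i‖)
    (N : ℕ) (K : Matrix (Fin N) (Fin N) ℂ) (h : ∑ i, ∑ j, ‖K i j‖ ^ 2 ≤ 1 / 4) :
    Real.exp (-(4 * ∑ i, ∑ j, ‖K i j‖ ^ 2)) ≤ ‖(1 + K).det * Complex.exp (-K.trace)‖ := by
  have hdet := cx14995_inv K h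
  have hu : IsUnit (1 + K).det := isUnit_iff_ne_zero.mpr hdet
  set B := (1 + K)⁻¹ with hB
  have hB1 : (1 + K) * B = 1 := Matrix.mul_nonsing_inv _ hu
  set M := K * B with hM
  have hBM : B = 1 - M := by
    have h1 : B + K * B = 1 := by
      rw [← hB1, Matrix.add_mul, Matrix.one_mul]
    rw [hM]
    exact eq_sub_of_add_eq h1
  have hMK : M = K - K * M := by
    have h1 : M = K * (1 - M) := by
      rw [← hBM]
    rw [Matrix.mul_sub, Matrix.mul_one] at h1
    exact h1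
  set s := ∑ i, ∑ j, ‖K i j‖ ^ 2 with hs
  set t := ∑ i, ∑ j, ‖M i j‖ ^ 2 with ht
  have hs0 : 0 ≤ s := Finset.sum_nonneg fun i _ => Finset.sum_nonneg fun j _ => sq_nonneg _
  have ht0 : 0 ≤ t := Finset.sum_nonneg fun i _ => Finset.sum_nonneg fun j _ => sq_nonneg _
  have hts : t ≤ 4 * s := by
    have h1 : t ≤ 2 * s + 2 * ∑ i, ∑ j, ‖(K * M) i j‖ ^ 2 := by
      rw [ht, hs, Finset.mul_sum, Finset.mul_sum, ← Finset.sum_add_distrib]
      apply Finset.sum_le_sum
      intro i _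
      rw [Finset.mul_sum, Finset.mul_sum, ← Finset.sum_add_distrib]
      apply Finset.sum_le_sum
      intro j _
      have h2 : M i j = K i j - (K * M) i j := by
        have := congrFun (congrFun hMK i) j
        rw [Matrix.sub_apply] at this
        exact this
      have h3 : ‖M i j‖ ≤ ‖K i j‖ + ‖(K * M) i j‖ := by
        rw [h2]
        exact norm_sub_le _ _
      have h4 := norm_nonneg (M i j)
      have h5 := norm_nonneg (K i j)
      have h6 := norm_nonneg ((K * M) i j)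
      nlinarith [sq_nonneg (‖K i j‖ - ‖(K * M) i j‖)]
    have h2 := cx14995_mul K M
    rw [← hs, ← ht] at h2
    nlinarith
  -- the determinant of B
  have hBdet : ‖B.det‖ ≤ Real.exp (-(M.trace).re + t / 2) := by
    let x : Fin N → EuclideanSpace ℂ (Fin N) := fun i => WithLp.toLp 2 (fun k => star (B i k))
    let y : Fin N → EuclideanSpace ℂ (Fin N) := fun j => EuclideanSpace.single j (1 : ℂ)
    have h1 := gh (EuclideanSpace ℂ (Fin N)) N x y
    have h2 : (Matrix.of fun i j => (inner ℂ (x i) (y j) : ℂ)) = B := by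
      ext i j
      simp only [Matrix.of_apply, x, y]
      rw [EuclideanSpace.inner_single_right]
      simp
    rw [h2] at h1
    have h3 : ∏ i, ‖y i‖ = 1 := by
      apply Finset.prod_eq_one
      intro i _
      simp [y]
    rw [h3, mul_one] at h1
    refine h1.trans ?_
    have h4 : ∀ i, ‖x i‖ ≤ Real.exp (-(M i i).re + (∑ j, ‖M i j‖ ^ 2) / 2) := by
      intro i
      have h5 : ‖x i‖ ^ 2 = ∑ k, ‖B i k‖ ^ 2 := by
        rw [EuclideanSpace.norm_sq_eq]
        apply Finset.sum_congr rfl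
        intro k _
        simp [x]
      have h6 : ∑ k, ‖B i k‖ ^ 2 = 1 - 2 * (M i i).re + ∑ j, ‖M i j‖ ^ 2 := by
        have h7 : ∀ k, ‖B i k‖ ^ 2 = (if i = k then 1 - 2 * (M i k).re else 0) + ‖M i k‖ ^ 2 := by
          intro k
          have h8 : B i k = (1 : Matrix (Fin N) (Fin N) ℂ) i k - M i k := by
            have := congrFun (congrFun hBM i) k
            rw [Matrix.sub_apply] at this
            exact this
          rw [h8, Matrix.one_apply]
          by_cases hik : i = k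
          · rw [if_pos hik, if_pos hik]
            rw [← Complex.normSq_eq_norm_sq, ← Complex.normSq_eq_norm_sq, Complex.normSq_apply,
              Complex.normSq_apply]
            simp only [Complex.sub_re, Complex.one_re, Complex.sub_im, Complex.one_im]
            ring
          · rw [if_neg hik, if_neg hik, zero_sub, norm_neg, zero_add]
        rw [Finset.sum_congr rfl fun k _ => h7 k, Finset.sum_add_distrib, Finset.sum_ite_eq]
        simp
      have h9 : ‖x i‖ ^ 2 ≤ Real.exp (-(M i i).re + (∑ j, ‖M i j‖ ^ 2) / 2) ^ 2 := by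
        rw [h5, h6, ← Real.exp_nat_mul]
        have h10 := Real.add_one_le_exp (((2 : ℕ) : ℝ) * (-(M i i).re + (∑ j, ‖M i j‖ ^ 2) / 2))
        refine le_trans (le_of_eq ?_) h10
        push_cast
        ring
      exact (sq_le_sq₀ (norm_nonneg _) (Real.exp_pos _).le).mp h9
    calc ∏ i, ‖x i‖ ≤ ∏ i, Real.exp (-(M i i).re + (∑ j, ‖M i j‖ ^ 2) / 2) :=
          Finset.prod_le_prod (fun i _ => norm_nonneg _) fun i _ => h4 i
      _ = Real.exp (-(M.trace).re + t / 2) := by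
          rw [← Real.exp_sum]
          congr 1
          rw [Finset.sum_add_distrib, Matrix.trace, Complex.re_sum, ht, Finset.sum_div,
            Finset.sum_neg_distrib]
          rfl
  have hprod : ‖(1 + K).det‖ * ‖B.det‖ = 1 := by
    rw [← norm_mul, ← Matrix.det_mul, hB1, Matrix.det_one, norm_one]
  have hlow : Real.exp ((M.trace).re - t / 2) ≤ ‖(1 + K).det‖ := by
    have h1 : 0 ≤ ‖(1 + K).det‖ := norm_nonneg _
    have h2 : 1 ≤ ‖(1 + K).det‖ * Real.exp (-(M.trace).re + t / 2) := by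
      rw [← hprod]
      exact mul_le_mul_of_nonneg_left hBdet h1
    have h3 : Real.exp ((M.trace).re - t / 2) * Real.exp (-(M.trace).re + t / 2) = 1 := by
      rw [← Real.exp_add]
      have : (M.trace).re - t / 2 + (-(M.trace).re + t / 2) = 0 := by ring
      rw [this, Real.exp_zero]
    have h4 := Real.exp_pos (-(M.trace).re + t / 2)
    rw [← h3] at h2
    exact le_of_mul_le_mul_right h2 h4
  have htr : M.trace = K.trace - (K * M).trace := by
    have h1 := congrArg Matrix.trace hMK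
    rw [Matrix.trace_sub] at h1
    exact h1
  have htr2 : ‖(K * M).trace‖ ≤ s + t / 4 := by
    have h1 : (K * M).trace = ∑ i, ∑ j, K i j * M j i := by
      rw [Matrix.trace]
      apply Finset.sum_congr rfl
      intro i _
      rw [Matrix.diag_apply, Matrix.mul_apply]
    rw [h1]
    have h2 : t = ∑ i, ∑ j, ‖M j i‖ ^ 2 := by
      rw [ht]
      exact Finset.sum_comm
    rw [h2, hs, Finset.sum_div, ← Finset.sum_add_distrib]
    refine (norm_sum_le _ _).trans ?_
    apply Finset.sum_le_sum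
    intro i _
    rw [Finset.sum_div, ← Finset.sum_add_distrib]
    refine (norm_sum_le _ _).trans ?_
    apply Finset.sum_le_sum
    intro j _
    rw [norm_mul]
    nlinarith [sq_nonneg (‖K i j‖ - ‖M j i‖ / 2)]
  rw [norm_mul, Complex.norm_exp]
  calc Real.exp (-(4 * s)) ≤ Real.exp ((M.trace).re - t / 2 + (-K.trace).re) := by
        apply Real.exp_le_exp.mpr
        rw [htr, Complex.sub_re, Complex.neg_re]
        have h1 : ((K * M).trace).re ≤ s + t / 4 := (Complex.re_le_norm _).trans htr2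
        nlinarith
    _ = Real.exp ((M.trace).re - t / 2) * Real.exp ((-K.trace).re) := Real.exp_add _ _
    _ ≤ ‖(1 + K).det‖ * Real.exp ((-K.trace).re) :=
        mul_le_mul_of_nonneg_right hlow (Real.exp_pos _).le

end A03
end Pool.Agent.Helper209.CX
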