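import Mathlib

namespace Pool.Agent.Helper209.CX

namespace A04
open MeasureTheory

theorem j14996_ne (k : ℂ) (hk : 0 < k.im) (ξ : ℝ) : k - ξ ≠ 0 ∧ k + ξ ≠ 0 := by
  constructor
  · intro h
    have := congrArg Complex.im h
    simp at this
    exact hk.ne' this
  · intro h
    have := congrArg Complex.im h
    simp at this
    exact hk.ne' this

theorem j14996_bound (k : ℂ) (hk : 0 < k.im) (ξ : ℝ) :
    1 + ξ ^ 2 ≤ (2 + (2 * k.re ^ 2 + 1) / k.im ^ 2) * ‖(ξ : ℂ) ^ 2 - k ^ 2‖ := by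
  set D : ℝ := 2 + (2 * k.re ^ 2 + 1) / k.im ^ 2 with hD
  have hb : 0 < k.im ^ 2 := by positivity
  have hD0 : 0 ≤ D := by positivity
  have hDb : D * k.im ^ 2 = 2 * k.im ^ 2 + (2 * k.re ^ 2 + 1) := by
    rw [hD]
    field_simp
  have h1 : 1 + ξ ^ 2 ≤ D * ‖(ξ : ℂ) - k‖ ^ 2 := by
    rw [Complex.sq_norm, Complex.normSq_apply]
    simp only [Complex.sub_re, Complex.ofReal_re, Complex.sub_im, Complex.ofReal_im]
    have h2 : 2 * (ξ - k.re) ^ 2 ≤ D * (ξ - k.re) ^ 2 := by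
      have : 2 ≤ D := by rw [hD]; have : 0 ≤ (2 * k.re ^ 2 + 1) / k.im ^ 2 := by positivity
                         linarith
      exact mul_le_mul_of_nonneg_right this (sq_nonneg _)
    have e1 : D * ((ξ - k.re) * (ξ - k.re) + (0 - k.im) * (0 - k.im)) =
        D * (ξ - k.re) ^ 2 + D * k.im ^ 2 := by ring
    rw [e1, hDb]
    nlinarith [sq_nonneg (ξ - 2 * k.re)]
  have h2 : 1 + ξ ^ 2 ≤ D * ‖(ξ : ℂ) + k‖ ^ 2 := by
    rw [Complex.sq_norm, Complex.normSq_apply]
    simp only [Complex.add_re, Complex.ofReal_re, Complex.add_im, Complex.ofReal_im]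
    have h2 : 2 * (ξ + k.re) ^ 2 ≤ D * (ξ + k.re) ^ 2 := by
      have : 2 ≤ D := by rw [hD]; have : 0 ≤ (2 * k.re ^ 2 + 1) / k.im ^ 2 := by positivity
                         linarith
      exact mul_le_mul_of_nonneg_right this (sq_nonneg _)
    have e1 : D * ((ξ + k.re) * (ξ + k.re) + (0 + k.im) * (0 + k.im)) =
        D * (ξ + k.re) ^ 2 + D * k.im ^ 2 := by ring
    rw [e1, hDb]
    nlinarith [sq_nonneg (ξ + 2 * k.re)]
  have h3 : (1 + ξ ^ 2) ^ 2 ≤ (D * ‖(ξ : ℂ) ^ 2 - k ^ 2‖) ^ 2 := by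
    have e2 : (ξ : ℂ) ^ 2 - k ^ 2 = ((ξ : ℂ) - k) * ((ξ : ℂ) + k) := by ring
    rw [e2, norm_mul]
    calc (1 + ξ ^ 2) ^ 2 = (1 + ξ ^ 2) * (1 + ξ ^ 2) := by ring
      _ ≤ (D * ‖(ξ : ℂ) - k‖ ^ 2) * (D * ‖(ξ : ℂ) + k‖ ^ 2) :=
        mul_le_mul h1 h2 (by positivity) (by positivity)
      _ = (D * (‖(ξ : ℂ) - k‖ * ‖(ξ : ℂ) + k‖)) ^ 2 := by ring
  exact (pow_le_pow_iff_left₀ (by positivity) (by positivity) two_ne_zero).1 h3

theorem j14996_integrable (k : ℂ) (hk : 0 < k.im) :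
    Integrable (fun ξ : ℝ => ((ξ : ℂ) ^ 2 - k ^ 2)⁻¹) := by
  have hne : ∀ ξ : ℝ, (ξ : ℂ) ^ 2 - k ^ 2 ≠ 0 := by
    intro ξ h
    have := j14996_bound k hk ξ
    rw [h, norm_zero, mul_zero] at this
    nlinarith [sq_nonneg ξ]
  have hc : Continuous (fun ξ : ℝ => ((ξ : ℂ) ^ 2 - k ^ 2)⁻¹) := by
    refine Continuous.inv₀ ?_ hne
    fun_prop
  have hb : 0 < k.im ^ 2 := by positivity
  refine Integrable.mono' (integrable_inv_one_add_sq.const_mul
    (2 + (2 * k.re ^ 2 + 1) / k.im ^ 2)) hc.aestronglyMeasurable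
    (Filter.Eventually.of_forall fun ξ => ?_)
  rw [norm_inv, ← div_eq_mul_inv, inv_eq_one_div, div_le_div_iff₀ (norm_pos_iff.2 (hne ξ))
    (by positivity), one_mul]
  exact j14996_bound k hk ξ

theorem j14996_ft (k : ℂ) (hk : 0 < k.im) (ξ : ℝ) :
    Integrable (fun v : ℝ => Complex.exp (-(Complex.I * ξ * v)) *
      Complex.exp (Complex.I * k * |v|)) ∧
    ∫ v : ℝ, Complex.exp (-(Complex.I * ξ * v)) * Complex.exp (Complex.I * k * |v|) =
      -(2 * Complex.I * k) * ((ξ : ℂ) ^ 2 - k ^ 2)⁻¹ := by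
  have hr1 : (Complex.I * (k - ξ)).re < 0 := by simp [hk]
  have hr2 : 0 < (-(Complex.I * (k + ξ))).re := by simp [hk]
  have e1 : Set.EqOn (fun v : ℝ => Complex.exp (Complex.I * (k - ξ) * v))
      (fun v : ℝ => Complex.exp (-(Complex.I * ξ * v)) *
      Complex.exp (Complex.I * k * |v|)) (Set.Ioi 0) := by
    intro v hv
    have hv' : |v| = v := abs_of_pos hv
    simp only
    rw [hv', ← Complex.exp_add]
    congr 1
    ring
  have e2 : Set.EqOn (fun v : ℝ => Complex.exp (-(Complex.I * (k + ξ)) * v))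
      (fun v : ℝ => Complex.exp (-(Complex.I * ξ * v)) *
      Complex.exp (Complex.I * k * |v|)) (Set.Iic 0) := by
    intro v hv
    have hv' : |v| = -v := abs_of_nonpos hv
    simp only
    rw [hv', ← Complex.exp_add]
    congr 1
    push_cast
    ring
  have i1 := (integrableOn_exp_mul_complex_Ioi hr1 0).congr_fun e1 measurableSet_Ioi
  have i2 := (integrableOn_exp_mul_complex_Iic hr2 0).congr_fun e2 measurableSet_Iic
  constructor
  · rw [← integrableOn_univ, ← Set.Iic_union_Ioi (a := (0:ℝ))]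
    exact i2.union i1
  · rw [← intervalIntegral.integral_Iic_add_Ioi i2 i1,
      ← setIntegral_congr_fun measurableSet_Ioi e1, ← setIntegral_congr_fun measurableSet_Iic e2,
      integral_exp_mul_complex_Ioi hr1, integral_exp_mul_complex_Iic hr2]
    obtain ⟨h1, h2⟩ := j14996_ne k hk ξ
    have h3 : (ξ : ℂ) ^ 2 - k ^ 2 ≠ 0 := by
      have : (ξ : ℂ) ^ 2 - k ^ 2 = -((k - ξ) * (k + ξ)) := by ring
      rw [this]
      exact neg_ne_zero.2 (mul_ne_zero h1 h2)
    rw [Complex.ofReal_zero, mul_zero, mul_zero, Complex.exp_zero]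
    have hI := Complex.I_ne_zero
    have e4 : (ξ : ℂ) ^ 2 - k ^ 2 = -((k - ξ) * (k + ξ)) := by ring
    rw [e4]
    field_simp
    rw [Complex.I_sq]
    ring

/-- Fourier representation of the one-dimensional free resolvent kernel. -/
theorem cx_fourier (k : ℂ) (hk : 0 < k.im) (x : ℝ) :
    Integrable (fun ξ : ℝ => ((ξ : ℂ) ^ 2 - k ^ 2)⁻¹) ∧
    ∫ ξ : ℝ, Complex.exp (Complex.I * ξ * x) * ((ξ : ℂ) ^ 2 - k ^ 2)⁻¹ =
      2 * Real.pi * (Complex.I / (2 * k) * Complex.exp (Complex.I * k * |x|)) := by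
  refine ⟨j14996_integrable k hk, ?_⟩
  set f : ℝ → ℂ := fun v => Complex.exp (Complex.I * k * |v|) with hf
  have hfc : Continuous f := by
    rw [hf]
    fun_prop
  have hfi : Integrable f := by
    have := (j14996_ft k hk 0).1
    refine this.congr (Filter.Eventually.of_forall fun v => ?_)
    simp [hf]
  have hF : ∀ w : ℝ, FourierTransform.fourier f w =
      -(2 * Complex.I * k) * (((2 * Real.pi * w : ℝ) : ℂ) ^ 2 - k ^ 2)⁻¹ := by
    intro w
    rw [Real.fourier_real_eq_integral_exp_smul, ← (j14996_ft k hk (2 * Real.pi * w)).2]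
    refine integral_congr_ae (Filter.Eventually.of_forall fun v => ?_)
    simp only [smul_eq_mul, hf]
    congr 2
    push_cast
    ring
  have hF' : FourierTransform.fourier f = fun w : ℝ =>
      -(2 * Complex.I * k) * (((2 * Real.pi * w : ℝ) : ℂ) ^ 2 - k ^ 2)⁻¹ := funext hF
  have h2pi : (2 * Real.pi) ≠ 0 := by positivity
  have hFi : Integrable (FourierTransform.fourier f) := by
    rw [hF']
    refine Integrable.const_mul ?_ _
    exact (j14996_integrable k hk).comp_mul_left' h2pi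
  have hinv := congrFun (hfc.fourierInv_fourier_eq hfi hFi) x
  rw [Real.fourierInv_eq'] at hinv
  have e1 : (∫ v : ℝ, Complex.exp (↑(2 * Real.pi * inner ℝ v x) * Complex.I) •
      FourierTransform.fourier f v) =
      ∫ v : ℝ, (fun ξ : ℝ => -(2 * Complex.I * k) *
        (Complex.exp (Complex.I * ξ * x) * ((ξ : ℂ) ^ 2 - k ^ 2)⁻¹)) (2 * Real.pi * v) := by
    refine integral_congr_ae (Filter.Eventually.of_forall fun v => ?_)
    simp only [hF, smul_eq_mul]
    have e3 : Complex.exp (↑(2 * Real.pi * inner ℝ v x) * Complex.I) =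
        Complex.exp (Complex.I * ((2 * Real.pi * v : ℝ) : ℂ) * x) := by
      congr 1
      have : inner ℝ v x = x * v := by simp [inner]
      rw [this]
      push_cast
      ring
    rw [e3]
    ring
  have e5 := Measure.integral_comp_mul_left (fun ξ : ℝ => -(2 * Complex.I * k) *
        (Complex.exp (Complex.I * ξ * x) * ((ξ : ℂ) ^ 2 - k ^ 2)⁻¹)) (2 * Real.pi)
  replace hinv : |(2 * Real.pi)⁻¹| • ∫ ξ : ℝ, -(2 * Complex.I * k) *
        (Complex.exp (Complex.I * ξ * x) * ((ξ : ℂ) ^ 2 - k ^ 2)⁻¹) = f x := by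
    rw [← hinv, e1]
    exact e5.symm
  rw [integral_const_mul] at hinv
  have hk0 : k ≠ 0 := by
    rintro rfl
    simp at hk
  have hpos : |(2 * Real.pi)⁻¹| = (2 * Real.pi)⁻¹ := abs_of_pos (by positivity)
  rw [hpos, Complex.real_smul] at hinv
  have hpi : (Real.pi : ℂ) ≠ 0 := by exact_mod_cast Real.pi_ne_zero
  have hI := Complex.I_ne_zero
  show _ = 2 * (Real.pi : ℂ) * (Complex.I / (2 * k) * f x)
  generalize (∫ ξ : ℝ, Complex.exp (Complex.I * ξ * x) * ((ξ : ℂ) ^ 2 - k ^ 2)⁻¹) = J at hinv ⊢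
  rw [← hinv]
  push_cast
  field_simp
  rw [Complex.I_sq]
  ring

end A04
end Pool.Agent.Helper209.CX
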