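import Mathlib

namespace Pool.Agent.Helper209.CX

namespace A05
open MeasureTheory

theorem cxI_abs (r : ℝ) (hr : -1 < r) :
    IntervalIntegrable (fun x : ℝ => |x| ^ r) volume (-3) 3 := by
  have h1 : IntervalIntegrable (fun x : ℝ => |x| ^ r) volume 0 3 := by
    have h2 := intervalIntegral.intervalIntegrable_rpow' (a := 0) (b := 3) hr
    refine h2.congr ?_
    intro x hx
    rw [Set.uIoc_of_le (by norm_num)] at hx
    show x ^ r = |x| ^ r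
    rw [abs_of_pos hx.1]
  have h3 : IntervalIntegrable (fun x : ℝ => |x| ^ r) volume (-3) 0 := by
    have h4 := ((IntervalIntegrable.iff_comp_neg (by simp)).mp h1).symm
    simpa using h4
  exact h3.trans h1

theorem cxI_g (s : ℝ) (hs : 0 < s) (hs2 : s < 1 / 2) :
    Integrable (fun u : ℝ => |u ^ 2 - 1| ^ (s - 1)) := by
  have hr : -1 < s - 1 := by linarith
  have hr0 : s - 1 < 0 := by linarith
  have hA := cxI_abs (s - 1) hr
  have hB : IntegrableOn (fun u : ℝ => |u - 1| ^ (s - 1)) (Set.Ioc (-2) 2) := by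
    have h1 := hA.comp_sub_right 1
    have h2 := (intervalIntegrable_iff_integrableOn_Ioc_of_le (by norm_num)).mp h1
    exact h2.mono_set (Set.Ioc_subset_Ioc (by norm_num) (by norm_num))
  have hC : IntegrableOn (fun u : ℝ => |u + 1| ^ (s - 1)) (Set.Ioc (-2) 2) := by
    have h1 := hA.comp_add_right 1
    have h2 := (intervalIntegrable_iff_integrableOn_Ioc_of_le (by norm_num)).mp h1
    exact h2.mono_set (Set.Ioc_subset_Ioc (by norm_num) (by norm_num))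
  have hD : Integrable (fun u : ℝ => (1 + ‖u‖ ^ 2) ^ (-(2 - 2 * s) / 2)) := by
    apply integrable_rpow_neg_one_add_norm_sq
    simp
    linarith
  have hE : Integrable (fun u : ℝ => (Set.Ioc (-2 : ℝ) 2).indicator
      (fun u => |u - 1| ^ (s - 1) + |u + 1| ^ (s - 1)) u +
      2 ^ (1 - s) * (1 + ‖u‖ ^ 2) ^ (-(2 - 2 * s) / 2)) :=
    ((hB.add hC).integrable_indicator measurableSet_Ioc).add (hD.const_mul _)
  refine hE.mono' ?_ ?_
  · apply Measurable.aestronglyMeasurable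
    fun_prop
  · refine Filter.Eventually.of_forall fun u => ?_
    rw [Real.norm_eq_abs, abs_of_nonneg (Real.rpow_nonneg (abs_nonneg _) _)]
    have hp1 : 0 ≤ |u - 1| ^ (s - 1) := Real.rpow_nonneg (abs_nonneg _) _
    have hp2 : 0 ≤ |u + 1| ^ (s - 1) := Real.rpow_nonneg (abs_nonneg _) _
    have hp3 : 0 ≤ (2 : ℝ) ^ (1 - s) * (1 + ‖u‖ ^ 2) ^ (-(2 - 2 * s) / 2) := by positivity
    by_cases hu : u ∈ Set.Ioc (-2 : ℝ) 2
    · rw [Set.indicator_of_mem hu]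
      have hfac : |u ^ 2 - 1| = |u - 1| * |u + 1| := by
        rw [← abs_mul]; congr 1; ring
      rw [hfac, Real.mul_rpow (abs_nonneg _) (abs_nonneg _)]
      rcases le_total 0 u with h0 | h0
      · have h1 : 1 ≤ |u + 1| := by rw [abs_of_nonneg (by linarith)]; linarith
        have h2 : |u + 1| ^ (s - 1) ≤ 1 := Real.rpow_le_one_of_one_le_of_nonpos h1 hr0.le
        nlinarith
      · have h1 : 1 ≤ |u - 1| := by rw [abs_of_nonpos (by linarith)]; linarith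
        have h2 : |u - 1| ^ (s - 1) ≤ 1 := Real.rpow_le_one_of_one_le_of_nonpos h1 hr0.le
        nlinarith
    · rw [Set.indicator_of_notMem hu, zero_add]
      have hu4 : 4 ≤ u ^ 2 := by
        rw [Set.mem_Ioc, not_and_or, not_lt, not_le] at hu
        rcases hu with h | h <;> nlinarith
      have h1 : (1 + ‖u‖ ^ 2) / 2 ≤ |u ^ 2 - 1| := by
        rw [Real.norm_eq_abs, sq_abs, abs_of_nonneg (by linarith)]
        linarith
      have h2 : |u ^ 2 - 1| ^ (s - 1) ≤ ((1 + ‖u‖ ^ 2) / 2) ^ (s - 1) :=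
        Real.rpow_le_rpow_of_nonpos (by positivity) h1 hr0.le
      refine h2.trans (le_of_eq ?_)
      rw [Real.div_rpow (by positivity) (by norm_num)]
      rw [show -(2 - 2 * s) / 2 = s - 1 by ring, show 1 - s = -(s - 1) by ring,
        Real.rpow_neg (by norm_num)]
      field_simp

theorem cx_Ibound (s : ℝ) (hs : 0 < s) (hs2 : s < 1 / 2) :
    ∃ C : ℝ, 0 < C ∧ ∀ k : ℂ, 0 < k.im →
      Integrable (fun ξ : ℝ => ‖(ξ : ℂ) ^ 2 - k ^ 2‖⁻¹) ∧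
      ∫ ξ : ℝ, ‖(ξ : ℂ) ^ 2 - k ^ 2‖⁻¹ ≤ C * ‖k‖ ^ (2 * s - 1) * (‖k‖ * k.im) ^ (-s) := by
  have hg := cxI_g s hs hs2
  have hg0 : 0 ≤ ∫ u : ℝ, |u ^ 2 - 1| ^ (s - 1) :=
    integral_nonneg fun u => Real.rpow_nonneg (abs_nonneg _) _
  refine ⟨(∫ u : ℝ, |u ^ 2 - 1| ^ (s - 1)) + 1, by linarith, ?_⟩
  intro k hk
  have hk0 : k ≠ 0 := by rintro rfl; simp at hk
  have hT : 0 < ‖k‖ := norm_pos_iff.mpr hk0
  obtain ⟨T, hTd⟩ : ∃ T, T = ‖k‖ := ⟨_, rfl⟩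
  rw [← hTd] at hT ⊢
  have hTy : 0 < T * k.im := mul_pos hT hk
  -- pointwise bounds
  have hb1 : ∀ ξ : ℝ, |ξ ^ 2 - T ^ 2| ≤ ‖(ξ : ℂ) ^ 2 - k ^ 2‖ := by
    intro ξ
    have h1 := abs_norm_sub_norm_le ((ξ : ℂ) ^ 2) (k ^ 2)
    rw [norm_pow, norm_pow, Complex.norm_real, Real.norm_eq_abs, sq_abs, ← hTd] at h1
    exact h1
  have hb2 : ∀ ξ : ℝ, T * k.im ≤ ‖(ξ : ℂ) ^ 2 - k ^ 2‖ := by
    intro ξ
    have h1 : ‖(ξ : ℂ) ^ 2 - k ^ 2‖ = ‖(ξ : ℂ) - k‖ * ‖(ξ : ℂ) + k‖ := by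
      rw [← norm_mul]; congr 1; ring
    have h2 : k.im ≤ ‖(ξ : ℂ) - k‖ := by
      have := Complex.abs_im_le_norm ((ξ : ℂ) - k)
      simp at this
      exact (le_abs_self _).trans this
    have h3 : k.im ≤ ‖(ξ : ℂ) + k‖ := by
      have := Complex.abs_im_le_norm ((ξ : ℂ) + k)
      simp at this
      exact (le_abs_self _).trans this
    have h4 : 2 * T ≤ ‖(ξ : ℂ) - k‖ + ‖(ξ : ℂ) + k‖ := by
      have h5 : ‖((ξ : ℂ) + k) - ((ξ : ℂ) - k)‖ ≤ ‖(ξ : ℂ) + k‖ + ‖(ξ : ℂ) - k‖ := norm_sub_le _ _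
      have h6 : ((ξ : ℂ) + k) - ((ξ : ℂ) - k) = 2 * k := by ring
      rw [h6, norm_mul, ← hTd] at h5
      simp at h5
      linarith
    rw [h1]
    rcases le_total ‖(ξ : ℂ) - k‖ ‖(ξ : ℂ) + k‖ with h | h
    · have h7 : T ≤ ‖(ξ : ℂ) + k‖ := by linarith
      calc T * k.im = k.im * T := mul_comm _ _
        _ ≤ ‖(ξ : ℂ) - k‖ * ‖(ξ : ℂ) + k‖ := mul_le_mul h2 h7 hT.le (norm_nonneg _)
    · have h7 : T ≤ ‖(ξ : ℂ) - k‖ := by linarith
      exact mul_le_mul h7 h3 hk.le (norm_nonneg _)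
  have hpt : ∀ ξ : ℝ, ξ ^ 2 ≠ T ^ 2 → ‖(ξ : ℂ) ^ 2 - k ^ 2‖⁻¹ ≤
      (T * k.im) ^ (-s) * |ξ ^ 2 - T ^ 2| ^ (s - 1) := by
    intro ξ hξ
    have hA : 0 < ‖(ξ : ℂ) ^ 2 - k ^ 2‖ := lt_of_lt_of_le hTy (hb2 ξ)
    have hd : 0 < |ξ ^ 2 - T ^ 2| := abs_pos.mpr (sub_ne_zero.mpr hξ)
    have h1 : ‖(ξ : ℂ) ^ 2 - k ^ 2‖⁻¹ =
        ‖(ξ : ℂ) ^ 2 - k ^ 2‖ ^ (-s) * ‖(ξ : ℂ) ^ 2 - k ^ 2‖ ^ (s - 1) := by
      rw [← Real.rpow_add hA, show -s + (s - 1) = -1 by ring, Real.rpow_neg_one]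
    rw [h1]
    apply mul_le_mul
    · exact Real.rpow_le_rpow_of_nonpos hTy (hb2 ξ) (by linarith)
    · exact Real.rpow_le_rpow_of_nonpos hd (hb1 ξ) (by linarith)
    · exact Real.rpow_nonneg (norm_nonneg _) _
    · exact Real.rpow_nonneg hTy.le _
  have hscale : ∀ u : ℝ, |(T * u) ^ 2 - T ^ 2| ^ (s - 1) =
      (T ^ 2) ^ (s - 1) * |u ^ 2 - 1| ^ (s - 1) := by
    intro u
    rw [← Real.mul_rpow (by positivity) (abs_nonneg _)]
    congr 1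
    rw [← abs_of_pos (show (0 : ℝ) < T ^ 2 by positivity), ← abs_mul,
      abs_of_pos (show (0 : ℝ) < T ^ 2 by positivity)]
    congr 1
    ring
  have hfint : Integrable (fun ξ : ℝ => |ξ ^ 2 - T ^ 2| ^ (s - 1)) := by
    rw [← integrable_comp_mul_left_iff _ hT.ne']
    have : (fun u : ℝ => |(T * u) ^ 2 - T ^ 2| ^ (s - 1)) =
        fun u => (T ^ 2) ^ (s - 1) * |u ^ 2 - 1| ^ (s - 1) := funext hscale
    rw [this]
    exact hg.const_mul _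
  have hfval : ∫ ξ : ℝ, |ξ ^ 2 - T ^ 2| ^ (s - 1) =
      T ^ (2 * s - 1) * ∫ u : ℝ, |u ^ 2 - 1| ^ (s - 1) := by
    have h1 := Measure.integral_comp_mul_left (fun ξ : ℝ => |ξ ^ 2 - T ^ 2| ^ (s - 1)) T
    have h2 : (fun u : ℝ => |(T * u) ^ 2 - T ^ 2| ^ (s - 1)) =
        fun u => (T ^ 2) ^ (s - 1) * |u ^ 2 - 1| ^ (s - 1) := funext hscale
    simp only [hscale] at h1
    rw [integral_const_mul, smul_eq_mul, abs_of_pos (inv_pos.mpr hT)] at h1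
    have h3 : ∫ ξ : ℝ, |ξ ^ 2 - T ^ 2| ^ (s - 1) =
        T * ((T ^ 2) ^ (s - 1) * ∫ u : ℝ, |u ^ 2 - 1| ^ (s - 1)) := by
      rw [h1, ← mul_assoc, mul_inv_cancel₀ hT.ne', one_mul]
    rw [h3, ← mul_assoc]
    congr 1
    rw [← Real.rpow_natCast T 2, ← Real.rpow_mul hT.le]
    nth_rewrite 1 [← Real.rpow_one T]
    rw [← Real.rpow_add hT]
    congr 1
    push_cast
    ring
  have hae : ∀ᵐ ξ : ℝ, ξ ^ 2 ≠ T ^ 2 := by
    have h1 : ({T, -T} : Set ℝ).Finite := by simp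
    have h2 : volume ({T, -T} : Set ℝ) = 0 := h1.measure_zero _
    rw [ae_iff]
    refine measure_mono_null ?_ h2
    intro ξ hξ
    simp only [Set.mem_ofPred_eq, not_not, ne_eq] at hξ
    rcases sq_eq_sq_iff_eq_or_eq_neg.mp hξ with h | h
    · left; exact h
    · right; exact h
  have hdom : ∀ᵐ ξ : ℝ, ‖(ξ : ℂ) ^ 2 - k ^ 2‖⁻¹ ≤
      (T * k.im) ^ (-s) * |ξ ^ 2 - T ^ 2| ^ (s - 1) := by
    filter_upwards [hae] with ξ hξ using hpt ξ hξ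
  have hmeas : AEStronglyMeasurable (fun ξ : ℝ => ‖(ξ : ℂ) ^ 2 - k ^ 2‖⁻¹) volume := by
    apply Measurable.aestronglyMeasurable
    fun_prop
  have hint : Integrable (fun ξ : ℝ => ‖(ξ : ℂ) ^ 2 - k ^ 2‖⁻¹) := by
    refine (hfint.const_mul ((T * k.im) ^ (-s))).mono' hmeas ?_
    filter_upwards [hdom] with ξ hξ
    rw [Real.norm_eq_abs, abs_of_nonneg (inv_nonneg.mpr (norm_nonneg _))]
    exact hξ
  refine ⟨hint, ?_⟩
  calc ∫ ξ : ℝ, ‖(ξ : ℂ) ^ 2 - k ^ 2‖⁻¹ ≤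
      ∫ ξ : ℝ, (T * k.im) ^ (-s) * |ξ ^ 2 - T ^ 2| ^ (s - 1) :=
        integral_mono_ae hint (hfint.const_mul _) hdom
    _ = (T * k.im) ^ (-s) * (T ^ (2 * s - 1) * ∫ u : ℝ, |u ^ 2 - 1| ^ (s - 1)) := by
        rw [integral_const_mul, hfval]
    _ ≤ ((∫ u : ℝ, |u ^ 2 - 1| ^ (s - 1)) + 1) * T ^ (2 * s - 1) * (T * k.im) ^ (-s) := by
        have h1 : 0 ≤ T ^ (2 * s - 1) := Real.rpow_nonneg hT.le _
        have h2 : 0 ≤ (T * k.im) ^ (-s) := Real.rpow_nonneg hTy.le _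
        have h3 : 0 ≤ T ^ (2 * s - 1) * (T * k.im) ^ (-s) := mul_nonneg h1 h2
        nlinarith

end A05
end Pool.Agent.Helper209.CX
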