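import Mathlib

namespace Pool.Agent.Helper209.CX

namespace A06
open MeasureTheory

theorem cx_inner {α : Type*} [MeasurableSpace α] {μ : Measure α} {f g : α → ℂ}
    (hf : MemLp f 2 μ) (hg : MemLp g 2 μ) :
    inner ℂ (hf.toLp f) (hg.toLp g) = ∫ x, (starRingEnd ℂ) (f x) * g x ∂μ := by
  rw [L2.inner_def]
  apply integral_congr_ae
  filter_upwards [hf.coeFn_toLp, hg.coeFn_toLp] with x hx1 hx2
  rw [hx1, hx2, RCLike.inner_apply']

theorem cx_bessel_gen {α : Type*} [MeasurableSpace α] (μ : Measure α) {ι : Type*} [Fintype ι]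
    [DecidableEq ι] (f : ι → α → ℂ) (hf : ∀ i, MemLp (f i) 2 μ)
    (ho : ∀ i j, ∫ x, (starRingEnd ℂ) (f i x) * f j x ∂μ = if i = j then 1 else 0)
    (h : α → ℂ) (hh : MemLp h 2 μ) :
    ∑ i, ‖∫ x, (starRingEnd ℂ) (f i x) * h x ∂μ‖ ^ 2 ≤ ∫ x, ‖h x‖ ^ 2 ∂μ := by
  have hon : Orthonormal ℂ (fun i => (hf i).toLp (f i)) := by
    rw [orthonormal_iff_ite]
    intro i j
    rw [cx_inner, ho]
  have h1 := hon.sum_inner_products_le (hh.toLp h) (s := Finset.univ)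
  have h2 : ‖hh.toLp h‖ ^ 2 = ∫ x, ‖h x‖ ^ 2 ∂μ := by
    have h3 := inner_self_eq_norm_sq_to_K (𝕜 := ℂ) (hh.toLp h)
    rw [cx_inner] at h3
    have h4 : ∫ x, (starRingEnd ℂ) (h x) * h x ∂μ = ((∫ x, ‖h x‖ ^ 2 ∂μ : ℝ) : ℂ) := by
      rw [← integral_complex_ofReal]
      congr 1
      funext x
      rw [Complex.conj_mul']
      push_cast
      rfl
    rw [h4] at h3
    have h5 : (((∫ x, ‖h x‖ ^ 2 ∂μ : ℝ)) : ℂ) = ((‖hh.toLp h‖ ^ 2 : ℝ) : ℂ) := by
      rw [h3]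
      push_cast
      rfl
    exact (Complex.ofReal_injective h5).symm
  rw [h2] at h1
  simp only [cx_inner] at h1
  exact h1

theorem cx_bessel (N : ℕ) (f : Fin N → ℝ → ℂ) (hf : ∀ i, MemLp (f i) 2 volume)
    (ho : ∀ i j, ∫ x, (starRingEnd ℂ) (f i x) * f j x = if i = j then 1 else 0)
    (h : ℝ → ℂ) (hh : MemLp h 2 volume) :
    ∑ i, ‖∫ x, (starRingEnd ℂ) (f i x) * h x‖ ^ 2 ≤ ∫ x, ‖h x‖ ^ 2 :=
  cx_bessel_gen volume f hf ho h hh

theorem cx_bessel_kernel (N : ℕ) (f : Fin N → ℝ → ℂ) (hf : ∀ i, MemLp (f i) 2 volume)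
    (ho : ∀ i j, ∫ x, (starRingEnd ℂ) (f i x) * f j x = if i = j then 1 else 0)
    (κ : ℝ × ℝ → ℂ) (hκ : MemLp κ 2 (volume : Measure (ℝ × ℝ))) :
    (∀ i l, Integrable (fun p : ℝ × ℝ => (starRingEnd ℂ) (f i p.1) * κ p * f l p.2)) ∧
    ∑ i, ∑ l, ‖∫ p : ℝ × ℝ, (starRingEnd ℂ) (f i p.1) * κ p * f l p.2‖ ^ 2 ≤
      ∫ p : ℝ × ℝ, ‖κ p‖ ^ 2 := by
  let F : Fin N × Fin N → ℝ × ℝ → ℂ := fun q p => f q.1 p.1 * (starRingEnd ℂ) (f q.2 p.2)
  have hF : ∀ q, MemLp (F q) 2 (volume : Measure (ℝ × ℝ)) := by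
    intro q
    have hm : AEStronglyMeasurable (F q) (volume : Measure (ℝ × ℝ)) := by
      have h1 : AEStronglyMeasurable (fun p : ℝ × ℝ => f q.1 p.1) (volume : Measure (ℝ × ℝ)) :=
        (hf q.1).1.comp_fst
      have h2 : AEStronglyMeasurable (fun p : ℝ × ℝ => f q.2 p.2) (volume : Measure (ℝ × ℝ)) :=
        (hf q.2).1.comp_snd
      exact h1.mul (Complex.continuous_conj.comp_aestronglyMeasurable h2)
    rw [memLp_two_iff_integrable_sq_norm hm]
    have h3 : (fun p : ℝ × ℝ => ‖F q p‖ ^ 2) = fun p => ‖f q.1 p.1‖ ^ 2 * ‖f q.2 p.2‖ ^ 2 := by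
      funext p
      simp only [F, norm_mul, RCLike.norm_conj, mul_pow]
    rw [h3]
    exact ((memLp_two_iff_integrable_sq_norm (hf q.1).1).mp (hf q.1)).mul_prod
      ((memLp_two_iff_integrable_sq_norm (hf q.2).1).mp (hf q.2))
  have hFo : ∀ q r, ∫ p, (starRingEnd ℂ) (F q p) * F r p = if q = r then 1 else 0 := by
    intro q r
    have h1 : (fun p : ℝ × ℝ => (starRingEnd ℂ) (F q p) * F r p) =
        fun p => ((starRingEnd ℂ) (f q.1 p.1) * f r.1 p.1) *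
          ((starRingEnd ℂ) (f r.2 p.2) * f q.2 p.2) := by
      funext p
      simp only [F, map_mul, Complex.conj_conj]
      ring
    rw [h1, Measure.volume_eq_prod, integral_prod_mul (fun x => (starRingEnd ℂ) (f q.1 x) * f r.1 x)
      (fun y => (starRingEnd ℂ) (f r.2 y) * f q.2 y), ho, ho]
    by_cases h2 : q.1 = r.1
    · by_cases h3 : q.2 = r.2
      · rw [if_pos h2, if_pos h3.symm, if_pos (Prod.ext h2 h3), one_mul]
      · rw [if_pos h2, if_neg (fun h => h3 h.symm), mul_zero, if_neg (fun h => h3 (by rw [h]))]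
    · rw [if_neg h2, zero_mul, if_neg (fun h => h2 (by rw [h]))]
  have hcomm : ∀ (i l : Fin N) (p : ℝ × ℝ), (starRingEnd ℂ) (f i p.1) * κ p * f l p.2 =
      (starRingEnd ℂ) (F (i, l) p) * κ p := by
    intro i l p
    simp only [F, map_mul, Complex.conj_conj]
    ring
  constructor
  · intro i l
    simp only [hcomm]
    have h1 : MemLp (fun p => (starRingEnd ℂ) (F (i, l) p)) 2 (volume : Measure (ℝ × ℝ)) :=
      (hF (i, l)).star
    exact h1.integrable_mul hκ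
  · have h1 := cx_bessel_gen volume F hF hFo κ hκ
    rw [Fintype.sum_prod_type] at h1
    simp only [hcomm]
    exact h1

end A06
end Pool.Agent.Helper209.CX
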