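import Mathlib

namespace Pool.Agent.Helper209.CX

namespace A07
open MeasureTheory

theorem cx_bilin
    (k : ℂ) (hk : 0 < k.im)
    (hI : Integrable (fun ξ : ℝ => ((ξ : ℂ) ^ 2 - k ^ 2)⁻¹))
    (hF : ∀ x : ℝ, ∫ ξ : ℝ, Complex.exp (Complex.I * ξ * x) * ((ξ : ℂ) ^ 2 - k ^ 2)⁻¹ =
      2 * Real.pi * (Complex.I / (2 * k) * Complex.exp (Complex.I * k * |x|)))
    (h1 h2 : ℝ → ℂ) (i1 : Integrable h1) (i2 : Integrable h2) :
    ∫ p : ℝ × ℝ, (starRingEnd ℂ) (h1 p.1) *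
        (Complex.I / (2 * k) * Complex.exp (Complex.I * k * |p.1 - p.2|)) * h2 p.2 =
      ∫ ξ : ℝ, (starRingEnd ℂ) (∫ x : ℝ, Complex.exp (-(Complex.I * ξ * x)) * h1 x) *
        (∫ x : ℝ, Complex.exp (-(Complex.I * ξ * x)) * h2 x) *
        ((2 * Real.pi : ℂ)⁻¹ * ((ξ : ℂ) ^ 2 - k ^ 2)⁻¹) := by
  have hpi : (2 * Real.pi : ℂ) ≠ 0 := by
    have := Real.pi_ne_zero
    simp [this]
  have ic : Integrable (fun x => (starRingEnd ℂ) (h1 x)) :=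
    (Complex.conjCLE : ℂ →L[ℝ] ℂ).integrable_comp i1
  have ip : Integrable (fun p : ℝ × ℝ => (starRingEnd ℂ) (h1 p.1) * h2 p.2) := ic.mul_prod i2
  have ig : Integrable (fun z : (ℝ × ℝ) × ℝ => ((starRingEnd ℂ) (h1 z.1.1) * h2 z.1.2) *
      ((z.2 : ℂ) ^ 2 - k ^ 2)⁻¹) (volume.prod volume) := ip.mul_prod hI
  have iF : Integrable (fun z : (ℝ × ℝ) × ℝ =>
      Complex.exp (Complex.I * z.2 * ((z.1.1 - z.1.2 : ℝ) : ℂ)) *
      (((starRingEnd ℂ) (h1 z.1.1) * h2 z.1.2) * ((z.2 : ℂ) ^ 2 - k ^ 2)⁻¹))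
      (volume.prod volume) := by
    refine ig.bdd_mul (c := 1) ?_ ?_
    · apply Continuous.aestronglyMeasurable
      fun_prop
    · refine Filter.Eventually.of_forall fun z => ?_
      rw [Complex.norm_exp]
      have : (Complex.I * (z.2 : ℂ) * ((z.1.1 - z.1.2 : ℝ) : ℂ)).re = 0 := by
        simp [Complex.mul_re, Complex.mul_im]
      rw [this, Real.exp_zero]
  have e1 : ∀ p : ℝ × ℝ, (starRingEnd ℂ) (h1 p.1) *
        (Complex.I / (2 * k) * Complex.exp (Complex.I * k * |p.1 - p.2|)) * h2 p.2 =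
      ∫ ξ : ℝ, (2 * Real.pi : ℂ)⁻¹ * (Complex.exp (Complex.I * ξ * ((p.1 - p.2 : ℝ) : ℂ)) *
      (((starRingEnd ℂ) (h1 p.1) * h2 p.2) * ((ξ : ℂ) ^ 2 - k ^ 2)⁻¹)) := by
    intro p
    have h3 := hF (p.1 - p.2)
    have h4 : (Complex.I / (2 * k) * Complex.exp (Complex.I * k * |p.1 - p.2|)) =
        (2 * Real.pi : ℂ)⁻¹ * ∫ ξ : ℝ, Complex.exp (Complex.I * ξ * ((p.1 - p.2 : ℝ) : ℂ)) *
          ((ξ : ℂ) ^ 2 - k ^ 2)⁻¹ := by
      rw [h3, ← mul_assoc, inv_mul_cancel₀ hpi, one_mul]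
    rw [h4, integral_const_mul]
    have h5 : ∫ ξ : ℝ, Complex.exp (Complex.I * ξ * ((p.1 - p.2 : ℝ) : ℂ)) *
      (((starRingEnd ℂ) (h1 p.1) * h2 p.2) * ((ξ : ℂ) ^ 2 - k ^ 2)⁻¹) =
      ((starRingEnd ℂ) (h1 p.1) * h2 p.2) *
        ∫ ξ : ℝ, Complex.exp (Complex.I * ξ * ((p.1 - p.2 : ℝ) : ℂ)) *
          ((ξ : ℂ) ^ 2 - k ^ 2)⁻¹ := by
      rw [← integral_const_mul]
      congr 1
      funext ξ
      ring
    rw [h5]
    ring
  have e2 : ∀ ξ : ℝ, (starRingEnd ℂ) (∫ x : ℝ, Complex.exp (-(Complex.I * ξ * x)) * h1 x) *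
        (∫ x : ℝ, Complex.exp (-(Complex.I * ξ * x)) * h2 x) *
        ((2 * Real.pi : ℂ)⁻¹ * ((ξ : ℂ) ^ 2 - k ^ 2)⁻¹) =
      ∫ p : ℝ × ℝ, (2 * Real.pi : ℂ)⁻¹ * (Complex.exp (Complex.I * ξ * ((p.1 - p.2 : ℝ) : ℂ)) *
      (((starRingEnd ℂ) (h1 p.1) * h2 p.2) * ((ξ : ℂ) ^ 2 - k ^ 2)⁻¹)) := by
    intro ξ
    have h3 : (starRingEnd ℂ) (∫ x : ℝ, Complex.exp (-(Complex.I * ξ * x)) * h1 x) =
        ∫ x : ℝ, Complex.exp (Complex.I * ξ * x) * (starRingEnd ℂ) (h1 x) := by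
      rw [← integral_conj]
      congr 1
      funext x
      rw [map_mul, ← Complex.exp_conj]
      congr 2
      simp
    rw [h3]
    have h4 := integral_prod_mul (μ := (volume : Measure ℝ)) (ν := (volume : Measure ℝ))
      (fun x : ℝ => Complex.exp (Complex.I * ξ * x) * (starRingEnd ℂ) (h1 x))
      (fun y : ℝ => Complex.exp (-(Complex.I * ξ * y)) * h2 y)
    rw [← h4, mul_comm, ← integral_const_mul]
    congr 1
    funext p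
    have h5 : Complex.exp (Complex.I * ξ * ((p.1 - p.2 : ℝ) : ℂ)) =
        Complex.exp (Complex.I * ξ * p.1) * Complex.exp (-(Complex.I * ξ * p.2)) := by
      rw [← Complex.exp_add]
      congr 1
      push_cast
      ring
    rw [h5]
    ring
  simp only [e1, e2]
  exact integral_integral_swap (f := fun (p : ℝ × ℝ) (ξ : ℝ) =>
    (2 * Real.pi : ℂ)⁻¹ * (Complex.exp (Complex.I * ξ * ((p.1 - p.2 : ℝ) : ℂ)) *
      (((starRingEnd ℂ) (h1 p.1) * h2 p.2) * ((ξ : ℂ) ^ 2 - k ^ 2)⁻¹))) (iF.const_mul _)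

end A07
end Pool.Agent.Helper209.CX
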