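import Mathlib

namespace Pool.Agent.Helper209.CX

namespace A08
open MeasureTheory

theorem cx_k_int (y : ℝ) (hy : 0 < y) : Integrable (fun t : ℝ => Real.exp (-(2 * y * |t|))) := by
  rw [← integrableOn_univ, ← Set.Iic_union_Ioi (a := (0:ℝ))]
  apply IntegrableOn.union
  · refine (integrableOn_exp_mul_Iic (a := 2 * y) (by positivity) 0).congr_fun ?_ measurableSet_Iic
    intro t ht
    have ht' : t ≤ 0 := ht
    simp only
    rw [abs_of_nonpos ht']
    congr 1; ring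
  · refine (integrableOn_exp_mul_Ioi (a := -(2 * y)) (by linarith) 0).congr_fun ?_ measurableSet_Ioi
    intro t ht
    have ht' : 0 < t := ht
    simp only
    rw [abs_of_pos ht']
    congr 1; ring

theorem cx_k_val (y : ℝ) (hy : 0 < y) : ∫ t : ℝ, Real.exp (-(2 * y * |t|)) = 1 / y := by
  have h := integral_comp_abs (f := fun t : ℝ => Real.exp (-(2 * y * t)))
  rw [h]
  have h2 : ∫ t in Set.Ioi (0:ℝ), Real.exp (-(2 * y * t)) =
      ∫ t in Set.Ioi (0:ℝ), Real.exp ((-(2 * y)) * t) := by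
    congr 1
    funext t
    congr 1; ring
  rw [h2, integral_exp_mul_Ioi (by linarith) 0]
  simp
  field_simp

theorem cx_rk (r : ℝ → ℝ) (hr : Integrable r) (y : ℝ) (hy : 0 < y) :
    Integrable (fun p : ℝ × ℝ => r p.2 * Real.exp (-(2 * y * |p.1 - p.2|))) ∧
    (∫ p : ℝ × ℝ, r p.2 * Real.exp (-(2 * y * |p.1 - p.2|))) = (1 / y) * ∫ x, r x := by
  have h1 : Integrable (fun p : ℝ × ℝ => r p.2 * Real.exp (-(2 * y * |p.1 - p.2|))) :=
    Integrable.convolution_integrand (ContinuousLinearMap.mul ℝ ℝ) (μ := volume) (ν := volume)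
      hr (cx_k_int y hy)
  refine ⟨h1, ?_⟩
  have h2 := integral_prod_symm _ h1
  change (∫ p : ℝ × ℝ, r p.2 * Real.exp (-(2 * y * |p.1 - p.2|))) = _ at h2
  rw [h2]
  simp only
  have h3 : ∀ u : ℝ, ∫ x : ℝ, r u * Real.exp (-(2 * y * |x - u|)) = r u * (1 / y) := by
    intro u
    rw [integral_const_mul]
    congr 1
    rw [integral_sub_right_eq_self (fun x : ℝ => Real.exp (-(2 * y * |x|))) u]
    exact cx_k_val y hy
  simp_rw [h3]
  rw [integral_mul_const]
  ring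

theorem cx_rk' (r : ℝ → ℝ) (hr : Integrable r) (y : ℝ) (hy : 0 < y) :
    Integrable (fun p : ℝ × ℝ => r p.1 * Real.exp (-(2 * y * |p.1 - p.2|))) ∧
    (∫ p : ℝ × ℝ, r p.1 * Real.exp (-(2 * y * |p.1 - p.2|))) = (1 / y) * ∫ x, r x := by
  obtain ⟨h1, h2⟩ := cx_rk r hr y hy
  have e : (fun p : ℝ × ℝ => r p.1 * Real.exp (-(2 * y * |p.1 - p.2|))) =
      (fun p : ℝ × ℝ => r p.2 * Real.exp (-(2 * y * |p.1 - p.2|))) ∘ Prod.swap := by
    funext p
    simp only [Function.comp_apply, Prod.fst_swap, Prod.snd_swap]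
    rw [abs_sub_comm]
  constructor
  · rw [e]
    exact h1.swap
  · have h3 := integral_prod_swap (μ := (volume : Measure ℝ)) (ν := (volume : Measure ℝ))
      (fun p : ℝ × ℝ => r p.2 * Real.exp (-(2 * y * |p.1 - p.2|)))
    rw [← h2]
    refine Eq.trans ?_ h3
    rw [e]
    rfl

theorem cx_hs (Q : ℝ → ℝ) (hQm : Measurable Q) (hQ0 : ∀ x, 0 ≤ Q x) (h y : ℝ) (hh : 0 < h)
    (hy : 0 < y) (hb : IntegrableOn Q {x | h < Q x})
    (ha : IntegrableOn (fun x => Q x ^ 2) {x | Q x ≤ h}) :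
    Integrable (fun p : ℝ × ℝ => Q p.1 * Real.exp (-(2 * y * |p.1 - p.2|)) * Q p.2) ∧
    (∫ p in {p : ℝ × ℝ | ¬ (h < Q p.1 ∧ h < Q p.2)},
        Q p.1 * Real.exp (-(2 * y * |p.1 - p.2|)) * Q p.2) ≤
      (1 / y) * (∫ x in {x | Q x ≤ h}, Q x ^ 2) + (2 * h / y) * ∫ x in {x | h < Q x}, Q x ∧
    (∫ p : ℝ × ℝ, Q p.1 * Real.exp (-(2 * y * |p.1 - p.2|)) * Q p.2) ≤
      (1 / y) * (∫ x in {x | Q x ≤ h}, Q x ^ 2) + (2 * h / y) * (∫ x in {x | h < Q x}, Q x)
        + (∫ x in {x | h < Q x}, Q x) ^ 2 := by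
  have hAm : MeasurableSet {x | Q x ≤ h} := measurableSet_le hQm measurable_const
  have hBm : MeasurableSet {x | h < Q x} := measurableSet_lt measurable_const hQm
  set r1 : ℝ → ℝ := Set.indicator {x | Q x ≤ h} (fun x => Q x ^ 2) with hr1
  set r2 : ℝ → ℝ := Set.indicator {x | h < Q x} Q with hr2
  have ir1 : Integrable r1 := (integrable_indicator_iff hAm).2 ha
  have ir2 : Integrable r2 := (integrable_indicator_iff hBm).2 hb
  have v1 : ∫ x, r1 x = ∫ x in {x | Q x ≤ h}, Q x ^ 2 := integral_indicator hAm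
  have v2 : ∫ x, r2 x = ∫ x in {x | h < Q x}, Q x := integral_indicator hBm
  have n1 : ∀ x, 0 ≤ r1 x := fun x => Set.indicator_nonneg (fun x _ => sq_nonneg _) x
  have n2 : ∀ x, 0 ≤ r2 x := fun x => Set.indicator_nonneg (fun x _ => hQ0 x) x
  obtain ⟨a1, b1⟩ := cx_rk r1 ir1 y hy
  obtain ⟨a2, b2⟩ := cx_rk' r1 ir1 y hy
  obtain ⟨a3, b3⟩ := cx_rk r2 ir2 y hy
  obtain ⟨a4, b4⟩ := cx_rk' r2 ir2 y hy
  set k : ℝ × ℝ → ℝ := fun p => Real.exp (-(2 * y * |p.1 - p.2|)) with hk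
  have hk0 : ∀ p, 0 ≤ k p := fun p => (Real.exp_pos _).le
  have hk1 : ∀ p, k p ≤ 1 := fun p => Real.exp_le_one_iff.2 (by
    have := abs_nonneg (p.1 - p.2)
    have : 0 ≤ 2 * y * |p.1 - p.2| := by positivity
    linarith)
  set g1 : ℝ × ℝ → ℝ := fun p => 1 / 2 * (r1 p.2 * k p) + 1 / 2 * (r1 p.1 * k p) +
    (h * (r2 p.2 * k p) + h * (r2 p.1 * k p)) with hg1
  have ig1 : Integrable g1 :=
    ((a1.const_mul (1/2)).add (a2.const_mul (1/2))).add ((a3.const_mul h).add (a4.const_mul h))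
  have vg1 : ∫ p, g1 p = (1 / y) * (∫ x, r1 x) + (2 * h / y) * ∫ x, r2 x := by
    have e1 : ∫ p, g1 p = (∫ p, 1 / 2 * (r1 p.2 * k p) + 1 / 2 * (r1 p.1 * k p)) +
        ∫ p, h * (r2 p.2 * k p) + h * (r2 p.1 * k p) :=
      integral_add ((a1.const_mul (1/2)).add (a2.const_mul (1/2)))
        ((a3.const_mul h).add (a4.const_mul h))
    have e2 : (∫ p : ℝ × ℝ, 1 / 2 * (r1 p.2 * k p) + 1 / 2 * (r1 p.1 * k p)) =
        (∫ p : ℝ × ℝ, 1 / 2 * (r1 p.2 * k p)) + ∫ p : ℝ × ℝ, 1 / 2 * (r1 p.1 * k p) :=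
      integral_add (a1.const_mul (1/2)) (a2.const_mul (1/2))
    have e3 : (∫ p : ℝ × ℝ, h * (r2 p.2 * k p) + h * (r2 p.1 * k p)) =
        (∫ p : ℝ × ℝ, h * (r2 p.2 * k p)) + ∫ p : ℝ × ℝ, h * (r2 p.1 * k p) :=
      integral_add (a3.const_mul h) (a4.const_mul h)
    rw [e1, e2, e3, integral_const_mul, integral_const_mul, integral_const_mul, integral_const_mul,
      b1, b2, b3, b4]
    ring
  have ng1 : ∀ p, 0 ≤ g1 p := by
    intro p
    have h1 := mul_nonneg (n1 p.2) (hk0 p)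
    have h2 := mul_nonneg (n1 p.1) (hk0 p)
    have h3 := mul_nonneg hh.le (mul_nonneg (n2 p.2) (hk0 p))
    have h4 := mul_nonneg hh.le (mul_nonneg (n2 p.1) (hk0 p))
    simp only [hg1]
    linarith
  set F : ℝ × ℝ → ℝ := fun p => Q p.1 * k p * Q p.2 with hF
  have nF : ∀ p, 0 ≤ F p := fun p => mul_nonneg (mul_nonneg (hQ0 _) (hk0 p)) (hQ0 _)
  have hle1 : ∀ p : ℝ × ℝ, ¬ (h < Q p.1 ∧ h < Q p.2) → F p ≤ g1 p := by
    intro p hp
    have h1 := mul_nonneg (n1 p.2) (hk0 p)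
    have h2 := mul_nonneg (n1 p.1) (hk0 p)
    have h3 := mul_nonneg hh.le (mul_nonneg (n2 p.2) (hk0 p))
    have h4 := mul_nonneg hh.le (mul_nonneg (n2 p.1) (hk0 p))
    have hkp := hk0 p
    by_cases hx : h < Q p.1
    · have hu : Q p.2 ≤ h := by
        by_contra hu
        exact hp ⟨hx, not_le.1 hu⟩
      have e1 : r2 p.1 = Q p.1 := Set.indicator_of_mem (show p.1 ∈ {x | h < Q x} from hx) _
      have h5 : F p ≤ h * (r2 p.1 * k p) := by
        rw [e1]
        simp only [hF]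
        calc Q p.1 * k p * Q p.2 ≤ Q p.1 * k p * h :=
              mul_le_mul_of_nonneg_left hu (mul_nonneg (hQ0 _) hkp)
          _ = _ := by ring
      simp only [hg1]
      linarith
    · have hx' : Q p.1 ≤ h := not_lt.1 hx
      by_cases hu : h < Q p.2
      · have e1 : r2 p.2 = Q p.2 := Set.indicator_of_mem (show p.2 ∈ {x | h < Q x} from hu) _
        have h5 : F p ≤ h * (r2 p.2 * k p) := by
          rw [e1]
          simp only [hF]
          calc Q p.1 * k p * Q p.2 = Q p.1 * (k p * Q p.2) := by ring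
            _ ≤ h * (k p * Q p.2) := mul_le_mul_of_nonneg_right hx' (mul_nonneg hkp (hQ0 _))
            _ = _ := by ring
        simp only [hg1]
        linarith
      · have hu' : Q p.2 ≤ h := not_lt.1 hu
        have e1 : r1 p.1 = Q p.1 ^ 2 := Set.indicator_of_mem (show p.1 ∈ {x | Q x ≤ h} from hx') _
        have e2 : r1 p.2 = Q p.2 ^ 2 := Set.indicator_of_mem (show p.2 ∈ {x | Q x ≤ h} from hu') _
        have h5 : F p ≤ 1 / 2 * (r1 p.2 * k p) + 1 / 2 * (r1 p.1 * k p) := by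
          rw [e1, e2]
          simp only [hF]
          have h6 : 0 ≤ (Q p.1 - Q p.2) ^ 2 * k p := mul_nonneg (sq_nonneg _) hkp
          nlinarith
        simp only [hg1]
        linarith
  have ig2 : Integrable (fun p : ℝ × ℝ => r2 p.1 * r2 p.2) := ir2.mul_prod ir2
  have vg2 : ∫ p : ℝ × ℝ, r2 p.1 * r2 p.2 = (∫ x, r2 x) ^ 2 := by
    have := integral_prod_mul (μ := (volume : Measure ℝ)) (ν := (volume : Measure ℝ)) r2 r2
    rw [pow_two]
    exact this
  have hle2 : ∀ p : ℝ × ℝ, F p ≤ g1 p + r2 p.1 * r2 p.2 := by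
    intro p
    by_cases hp : h < Q p.1 ∧ h < Q p.2
    · have e1 : r2 p.1 = Q p.1 := Set.indicator_of_mem (show p.1 ∈ {x | h < Q x} from hp.1) _
      have e2 : r2 p.2 = Q p.2 := Set.indicator_of_mem (show p.2 ∈ {x | h < Q x} from hp.2) _
      rw [e1, e2]
      have h1 : F p ≤ Q p.1 * Q p.2 := by
        simp only [hF]
        calc Q p.1 * k p * Q p.2 = k p * (Q p.1 * Q p.2) := by ring
          _ ≤ 1 * (Q p.1 * Q p.2) :=
            mul_le_mul_of_nonneg_right (hk1 p) (mul_nonneg (hQ0 _) (hQ0 _))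
          _ = _ := by ring
      have := ng1 p
      linarith
    · have h1 := hle1 p hp
      have h2 := mul_nonneg (n2 p.1) (n2 p.2)
      linarith
  have hFm : Measurable F := by
    simp only [hF, hk]
    have hc : Measurable fun p : ℝ × ℝ => Real.exp (-(2 * y * |p.1 - p.2|)) := by
      apply Continuous.measurable
      fun_prop
    exact ((hQm.comp measurable_fst).mul hc).mul (hQm.comp measurable_snd)
  have iF : Integrable F := by
    refine (ig1.add ig2).mono' hFm.aestronglyMeasurable ?_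
    refine Filter.Eventually.of_forall fun p => ?_
    rw [Real.norm_eq_abs, abs_of_nonneg (nF p)]
    exact hle2 p
  refine ⟨iF, ?_, ?_⟩
  · rw [← v1, ← v2, ← vg1]
    have hNm : MeasurableSet {p : ℝ × ℝ | ¬ (h < Q p.1 ∧ h < Q p.2)} := by
      apply MeasurableSet.compl
      exact (measurableSet_lt measurable_const (hQm.comp measurable_fst)).inter
        (measurableSet_lt measurable_const (hQm.comp measurable_snd))
    calc ∫ p in {p : ℝ × ℝ | ¬ (h < Q p.1 ∧ h < Q p.2)}, F p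
        ≤ ∫ p in {p : ℝ × ℝ | ¬ (h < Q p.1 ∧ h < Q p.2)}, g1 p := by
          apply setIntegral_mono_on iF.integrableOn ig1.integrableOn hNm
          intro p hp
          exact hle1 p hp
      _ ≤ ∫ p, g1 p := setIntegral_le_integral ig1 (Filter.Eventually.of_forall ng1)
  · rw [← v1, ← v2, ← vg1, ← vg2, ← integral_add ig1 ig2]
    exact integral_mono iF (ig1.add ig2) hle2

end A08
end Pool.Agent.Helper209.CX
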