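import Mathlib
open MeasureTheory ENNReal

namespace Pool.Agent.Helper209.CX

/-- kernel of `(-d²/dx² - k²)⁻¹`, `Im k > 0` -/
noncomputable def cxG (k : ℂ) (x : ℝ) : ℂ :=
  Complex.I / (2 * k) * Complex.exp (Complex.I * k * |x|)

/-- compressed Birman-Schwinger matrix -/
noncomputable def cxK (k : ℂ) (v1 v2 : ℝ → ℂ) {N : ℕ} (f : Fin N → ℝ → ℂ) :
    Matrix (Fin N) (Fin N) ℂ :=
  Matrix.of fun i l => ∫ p : ℝ × ℝ, (starRingEnd ℂ) (f i p.1) *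
    (v1 p.1 * cxG k (p.1 - p.2) * v2 p.2) * f l p.2

noncomputable def cxΓ (k : ℂ) (v1 : ℝ → ℂ) {N : ℕ} (f u : Fin N → ℝ → ℂ) :
    Matrix (Fin N) (Fin N) ℂ :=
  Matrix.of fun i l => ∫ p : ℝ × ℝ, (starRingEnd ℂ) (f i p.1) *
    (v1 p.1 * cxG k (p.1 - p.2)) * u l p.2

noncomputable def cxD (k : ℂ) (v1 v2 : ℝ → ℂ) {N : ℕ} (f : Fin N → ℝ → ℂ) : ℂ :=
  (1 + cxK k v1 v2 f).det * Complex.exp (-(cxK k v1 v2 f).trace)

end Pool.Agent.Helper209.CX
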