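import Mathlib
import Pool.Agent.Helper209.CX.Defs

namespace Pool.Agent.Helper209.CX

namespace A09a
open MeasureTheory ENNReal









theorem cx_Tpart
    (bessel : ∀ (N : ℕ) (f : Fin N → ℝ → ℂ) (_ : ∀ i, MemLp (f i) 2 volume)
      (_ : ∀ i j, ∫ x, (starRingEnd ℂ) (f i x) * f j x = if i = j then 1 else 0)
      (κ : ℝ × ℝ → ℂ) (_ : MemLp κ 2 (volume : Measure (ℝ × ℝ))),
      (∀ i l, Integrable (fun p : ℝ × ℝ => (starRingEnd ℂ) (f i p.1) * κ p * f l p.2)) ∧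
      ∑ i, ∑ l, ‖∫ p : ℝ × ℝ, (starRingEnd ℂ) (f i p.1) * κ p * f l p.2‖ ^ 2 ≤
        ∫ p : ℝ × ℝ, ‖κ p‖ ^ 2)
    (hs : ∀ (Q : ℝ → ℝ) (_ : Measurable Q) (_ : ∀ x, 0 ≤ Q x) (h y : ℝ) (_ : 0 < h)
      (_ : 0 < y) (_ : IntegrableOn Q {x | h < Q x})
      (_ : IntegrableOn (fun x => Q x ^ 2) {x | Q x ≤ h}),
      Integrable (fun p : ℝ × ℝ => Q p.1 * Real.exp (-(2 * y * |p.1 - p.2|)) * Q p.2) ∧
      (∫ p in {p : ℝ × ℝ | ¬ (h < Q p.1 ∧ h < Q p.2)},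
          Q p.1 * Real.exp (-(2 * y * |p.1 - p.2|)) * Q p.2) ≤
        (1 / y) * (∫ x in {x | Q x ≤ h}, Q x ^ 2) + (2 * h / y) * ∫ x in {x | h < Q x}, Q x ∧
      (∫ p : ℝ × ℝ, Q p.1 * Real.exp (-(2 * y * |p.1 - p.2|)) * Q p.2) ≤
        (1 / y) * (∫ x in {x | Q x ≤ h}, Q x ^ 2) + (2 * h / y) * (∫ x in {x | h < Q x}, Q x)
          + (∫ x in {x | h < Q x}, Q x) ^ 2)
    (Q : ℝ → ℝ) (hQm : Measurable Q) (hQ0 : ∀ x, 0 ≤ Q x)
    (v1 v2 : ℝ → ℂ) (hv1 : Measurable v1) (hv2 : Measurable v2)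
    (h1 : ∀ x, ‖v1 x‖ ^ 2 ≤ Q x) (h2 : ∀ x, ‖v2 x‖ ^ 2 ≤ Q x)
    (N : ℕ) (f : Fin N → ℝ → ℂ) (hf : ∀ i, MemLp (f i) 2 volume)
    (ho : ∀ i j, ∫ x, (starRingEnd ℂ) (f i x) * f j x = if i = j then 1 else 0)
    (k : ℂ) (hk : 0 < k.im) (h : ℝ) (hh : 0 < h) (hb : IntegrableOn Q {x | h < Q x})
    (ha : IntegrableOn (fun x => Q x ^ 2) {x | Q x ≤ h}) :
    MemLp (fun p : ℝ × ℝ => v1 p.1 * cxG k (p.1 - p.2) * v2 p.2) 2
      (volume : Measure (ℝ × ℝ)) ∧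
    (∑ i, ∑ l, ‖∫ p in {p : ℝ × ℝ | ¬ (h < Q p.1 ∧ h < Q p.2)}, (starRingEnd ℂ) (f i p.1) *
        (v1 p.1 * cxG k (p.1 - p.2) * v2 p.2) * f l p.2‖ ^ 2) ≤
      (1 / (4 * ‖k‖ ^ 2)) * ((1 / k.im) * (∫ x in {x | Q x ≤ h}, Q x ^ 2)
        + (2 * h / k.im) * ∫ x in {x | h < Q x}, Q x) ∧
    (∑ i, ∑ l, ‖cxK k v1 v2 f i l‖ ^ 2) ≤
      (1 / (4 * ‖k‖ ^ 2)) * ((1 / k.im) * (∫ x in {x | Q x ≤ h}, Q x ^ 2)
        + (2 * h / k.im) * (∫ x in {x | h < Q x}, Q x) + (∫ x in {x | h < Q x}, Q x) ^ 2) := by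
  have hk0 : k ≠ 0 := by
    rintro rfl
    simp at hk
  have hkn : 0 < ‖k‖ := norm_pos_iff.mpr hk0
  have hGn : ∀ x : ℝ, ‖cxG k x‖ ^ 2 = Real.exp (-(2 * k.im * |x|)) * (1 / (4 * ‖k‖ ^ 2)) := by
    intro x
    unfold cxG
    rw [norm_mul, norm_div, norm_mul, Complex.norm_I, Complex.norm_exp]
    have e1 : (Complex.I * k * ((|x| : ℝ) : ℂ)).re = -(k.im * |x|) := by
      rw [Complex.re_mul_ofReal]
      simp
    rw [e1, mul_pow, ← Real.exp_nat_mul]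
    have e2 : ((2 : ℕ) : ℝ) * (-(k.im * |x|)) = -(2 * k.im * |x|) := by push_cast; ring
    rw [e2]
    have e3 : ‖(2 : ℂ)‖ = 2 := by simp
    rw [e3]
    field_simp
    norm_num
  have hGm : Measurable (cxG k) := by
    unfold cxG
    fun_prop
  set κ : ℝ × ℝ → ℂ := fun p => v1 p.1 * cxG k (p.1 - p.2) * v2 p.2 with hκ
  have hκm : Measurable κ := by
    have h1 : Measurable (fun p : ℝ × ℝ => cxG k (p.1 - p.2)) :=
      hGm.comp (measurable_fst.sub measurable_snd)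
    exact ((hv1.comp measurable_fst).mul h1).mul (hv2.comp measurable_snd)
  set W : ℝ × ℝ → ℝ := fun p => Q p.1 * Real.exp (-(2 * k.im * |p.1 - p.2|)) * Q p.2 with hW
  set c : ℝ := 1 / (4 * ‖k‖ ^ 2) with hc
  have hc0 : 0 ≤ c := by positivity
  have hκb : ∀ p, ‖κ p‖ ^ 2 ≤ c * W p := by
    intro p
    have e1 : ‖κ p‖ ^ 2 = ‖v1 p.1‖ ^ 2 * ‖cxG k (p.1 - p.2)‖ ^ 2 * ‖v2 p.2‖ ^ 2 := by
      simp only [hκ, norm_mul, mul_pow]
    have e2 : c * W p = Q p.1 * ‖cxG k (p.1 - p.2)‖ ^ 2 * Q p.2 := by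
      rw [hGn]; simp only [hW]; ring
    rw [e1, e2]
    have := hQ0 p.1
    have := h1 p.1
    have := h2 p.2
    gcongr
  obtain ⟨hW1, hW2, hW3⟩ := hs Q hQm hQ0 h k.im hh hk hb ha
  have hcW : Integrable (fun p => c * W p) := hW1.const_mul c
  have hsq : Integrable (fun p => ‖κ p‖ ^ 2) (volume : Measure (ℝ × ℝ)) := by
    refine hcW.mono' (hκm.norm.pow_const 2).aestronglyMeasurable (Filter.Eventually.of_forall ?_)
    intro p
    rw [Real.norm_of_nonneg (by positivity)]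
    exact hκb p
  have hL2 : MemLp κ 2 (volume : Measure (ℝ × ℝ)) :=
    (memLp_two_iff_integrable_sq_norm hκm.aestronglyMeasurable).mpr hsq
  refine ⟨hL2, ?_, ?_⟩
  · set S : Set (ℝ × ℝ) := {p : ℝ × ℝ | ¬ (h < Q p.1 ∧ h < Q p.2)} with hS
    have hSm : MeasurableSet S := by
      apply MeasurableSet.compl
      apply MeasurableSet.inter
      · exact measurableSet_lt measurable_const (hQm.comp measurable_fst)
      · exact measurableSet_lt measurable_const (hQm.comp measurable_snd)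
    have hb1 := (bessel N f hf ho (S.indicator κ) (hL2.indicator hSm)).2
    have e1 : ∀ i l, ∫ p : ℝ × ℝ, (starRingEnd ℂ) (f i p.1) * (S.indicator κ p) * f l p.2 =
        ∫ p in S, (starRingEnd ℂ) (f i p.1) * (v1 p.1 * cxG k (p.1 - p.2) * v2 p.2) * f l p.2 := by
      intro i l
      rw [← integral_indicator hSm]
      refine integral_congr_ae (Filter.Eventually.of_forall ?_)
      intro p
      by_cases hp : p ∈ S
      · simp only [Set.indicator_of_mem hp, hκ]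
      · simp only [Set.indicator_of_notMem hp, mul_zero, zero_mul]
    simp only [e1] at hb1
    refine hb1.trans ?_
    have e2 : ∫ p : ℝ × ℝ, ‖S.indicator κ p‖ ^ 2 = ∫ p in S, ‖κ p‖ ^ 2 := by
      rw [← integral_indicator hSm]
      refine integral_congr_ae (Filter.Eventually.of_forall ?_)
      intro p
      by_cases hp : p ∈ S
      · simp only [Set.indicator_of_mem hp]
      · simp only [Set.indicator_of_notMem hp, norm_zero]
        norm_num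
    rw [e2]
    calc ∫ p in S, ‖κ p‖ ^ 2 ≤ ∫ p in S, c * W p :=
          integral_mono hsq.integrableOn hcW.integrableOn hκb
      _ = c * ∫ p in S, W p := integral_const_mul _ _
      _ ≤ _ := mul_le_mul_of_nonneg_left hW2 hc0
  · have hb2 := (bessel N f hf ho κ hL2).2
    have e3 : ∀ i l, cxK k v1 v2 f i l = ∫ p : ℝ × ℝ, (starRingEnd ℂ) (f i p.1) * κ p * f l p.2 := by
      intro i l
      rfl
    simp only [e3]
    refine hb2.trans ?_
    calc ∫ p : ℝ × ℝ, ‖κ p‖ ^ 2 ≤ ∫ p, c * W p := integral_mono hsq hcW hκb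
      _ = c * ∫ p, W p := integral_const_mul _ _
      _ ≤ _ := mul_le_mul_of_nonneg_left hW3 hc0

end A09a
end Pool.Agent.Helper209.CX
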