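import Mathlib
import Pool.Agent.Helper209.CX.Defs

namespace Pool.Agent.Helper209.CX

namespace A09b
open MeasureTheory ENNReal









/-- `h_i = 1_b w f_i` -/
noncomputable def cxXh (Q : ℝ → ℝ) (h : ℝ) (w g : ℝ → ℂ) : ℝ → ℂ :=
  Set.indicator {x | h < Q x} (fun x => w x * g x)

/-- Fourier transform -/
noncomputable def cxXH (Q : ℝ → ℝ) (h : ℝ) (w g : ℝ → ℂ) (ξ : ℝ) : ℂ :=
  ∫ x : ℝ, Complex.exp (-(Complex.I * ξ * x)) * cxXh Q h w g x

theorem cxX_exp_norm (ξ x : ℝ) : ‖Complex.exp (-(Complex.I * ξ * x))‖ = 1 := by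
  have : -(Complex.I * ξ * x) = ((-(ξ * x) : ℝ) : ℂ) * Complex.I := by push_cast; ring
  rw [this, Complex.norm_exp_ofReal_mul_I]

theorem cxX_exp_norm' (ξ x : ℝ) : ‖Complex.exp (Complex.I * ξ * x)‖ = 1 := by
  have : (Complex.I * ξ * x) = (((ξ * x) : ℝ) : ℂ) * Complex.I := by push_cast; ring
  rw [this, Complex.norm_exp_ofReal_mul_I]

theorem cxX_memLp (Q : ℝ → ℝ) (hQm : Measurable Q) (hQ0 : ∀ x, 0 ≤ Q x)
    (w : ℝ → ℂ) (hw : Measurable w) (hwQ : ∀ x, ‖w x‖ ^ 2 ≤ Q x)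
    (h : ℝ) (hb : IntegrableOn Q {x | h < Q x}) :
    MemLp (Set.indicator {x | h < Q x} w) 2 volume := by
  have hbm : MeasurableSet {x | h < Q x} := measurableSet_lt measurable_const hQm
  have hm : AEStronglyMeasurable (Set.indicator {x | h < Q x} w) volume :=
    (hw.indicator hbm).aestronglyMeasurable
  rw [memLp_two_iff_integrable_sq_norm hm]
  have hI : Integrable (Set.indicator {x | h < Q x} Q) := (integrable_indicator_iff hbm).2 hb
  refine hI.mono (hm.norm.pow 2) (Filter.Eventually.of_forall fun x => ?_)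
  by_cases hx : x ∈ {x | h < Q x}
  · rw [Set.indicator_of_mem hx, Set.indicator_of_mem hx, Real.norm_of_nonneg (by positivity),
      Real.norm_of_nonneg (hQ0 x)]
    exact hwQ x
  · rw [Set.indicator_of_notMem hx, Set.indicator_of_notMem hx]; simp

theorem cxX_int (Q : ℝ → ℝ) (hQm : Measurable Q) (hQ0 : ∀ x, 0 ≤ Q x)
    (w : ℝ → ℂ) (hw : Measurable w) (hwQ : ∀ x, ‖w x‖ ^ 2 ≤ Q x)
    (h : ℝ) (hb : IntegrableOn Q {x | h < Q x}) (g : ℝ → ℂ) (hg : MemLp g 2 volume) :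
    Integrable (cxXh Q h w g) := by
  have h1 := cxX_memLp Q hQm hQ0 w hw hwQ h hb
  have h2 : Integrable (Set.indicator {x | h < Q x} w * g) := h1.integrable_mul hg
  convert h2 using 1
  funext x
  simp only [cxXh, Pi.mul_apply]
  by_cases hx : x ∈ {x | h < Q x}
  · rw [Set.indicator_of_mem hx, Set.indicator_of_mem hx]
  · rw [Set.indicator_of_notMem hx, Set.indicator_of_notMem hx]; simp

theorem cxX_cont (Q : ℝ → ℝ) (h : ℝ) (w g : ℝ → ℂ) (hint : Integrable (cxXh Q h w g)) :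
    Continuous (cxXH Q h w g) := by
  unfold cxXH
  refine continuous_of_dominated (bound := fun x => ‖cxXh Q h w g x‖) ?_ ?_ hint.norm ?_
  · intro ξ
    refine AEStronglyMeasurable.mul ?_ hint.aestronglyMeasurable
    exact (by fun_prop : Continuous fun x : ℝ =>
      Complex.exp (-(Complex.I * ξ * x))).aestronglyMeasurable
  · intro ξ
    refine Filter.Eventually.of_forall fun x => ?_
    rw [norm_mul, cxX_exp_norm, one_mul]
  · refine Filter.Eventually.of_forall fun x => ?_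
    fun_prop

theorem cxX_bound
    (bessel : ∀ (N : ℕ) (f : Fin N → ℝ → ℂ) (_ : ∀ i, MemLp (f i) 2 volume)
      (_ : ∀ i j, ∫ x, (starRingEnd ℂ) (f i x) * f j x = if i = j then 1 else 0)
      (h : ℝ → ℂ) (_ : MemLp h 2 volume),
      ∑ i, ‖∫ x, (starRingEnd ℂ) (f i x) * h x‖ ^ 2 ≤ ∫ x, ‖h x‖ ^ 2)
    (Q : ℝ → ℝ) (hQm : Measurable Q) (hQ0 : ∀ x, 0 ≤ Q x)
    (w : ℝ → ℂ) (hw : Measurable w) (hwQ : ∀ x, ‖w x‖ ^ 2 ≤ Q x)
    (N : ℕ) (f : Fin N → ℝ → ℂ) (hf : ∀ i, MemLp (f i) 2 volume)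
    (ho : ∀ i j, ∫ x, (starRingEnd ℂ) (f i x) * f j x = if i = j then 1 else 0)
    (h : ℝ) (hb : IntegrableOn Q {x | h < Q x}) (ξ : ℝ) :
    ∑ i, ‖cxXH Q h w (f i) ξ‖ ^ 2 ≤ ∫ x in {x | h < Q x}, Q x := by
  have hbm : MeasurableSet {x | h < Q x} := measurableSet_lt measurable_const hQm
  set u : ℝ → ℂ := fun x => Complex.exp (Complex.I * ξ * x) *
    Set.indicator {x | h < Q x} (fun x => (starRingEnd ℂ) (w x)) x with hu
  have hcw : Measurable (fun x => (starRingEnd ℂ) (w x)) :=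
    Complex.continuous_conj.measurable.comp hw
  have hmem : MemLp (Set.indicator {x | h < Q x} (fun x => (starRingEnd ℂ) (w x))) 2 volume := by
    refine cxX_memLp Q hQm hQ0 _ hcw (fun x => ?_) h hb
    rw [RCLike.norm_conj]; exact hwQ x
  have hum : AEStronglyMeasurable u volume := by
    refine AEStronglyMeasurable.mul ?_ hmem.aestronglyMeasurable
    exact (by fun_prop : Continuous fun x : ℝ =>
      Complex.exp (Complex.I * ξ * x)).aestronglyMeasurable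
  have hun : ∀ x, ‖u x‖ = ‖Set.indicator {x | h < Q x} (fun x => (starRingEnd ℂ) (w x)) x‖ := by
    intro x
    simp only [hu]
    rw [norm_mul, cxX_exp_norm', one_mul]
  have humem : MemLp u 2 volume := by
    refine hmem.of_le hum (Filter.Eventually.of_forall fun x => ?_)
    rw [hun x]
  have hkey := bessel N f hf ho u humem
  have hEq : ∀ i, ‖cxXH Q h w (f i) ξ‖ = ‖∫ x, (starRingEnd ℂ) (f i x) * u x‖ := by
    intro i
    rw [← RCLike.norm_conj (cxXH Q h w (f i) ξ)]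
    congr 1
    unfold cxXH
    rw [← integral_conj]
    refine integral_congr_ae (Filter.Eventually.of_forall fun x => ?_)
    simp only [hu, cxXh]
    by_cases hx : x ∈ {x | h < Q x}
    · rw [Set.indicator_of_mem hx, Set.indicator_of_mem hx]
      rw [map_mul, map_mul, ← Complex.exp_conj]
      have : (starRingEnd ℂ) (-(Complex.I * ξ * x)) = Complex.I * ξ * x := by
        simp [Complex.conj_ofReal]
      rw [this]; ring
    · rw [Set.indicator_of_notMem hx, Set.indicator_of_notMem hx]; simp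
  calc ∑ i, ‖cxXH Q h w (f i) ξ‖ ^ 2 = ∑ i, ‖∫ x, (starRingEnd ℂ) (f i x) * u x‖ ^ 2 :=
        Finset.sum_congr rfl fun i _ => by rw [hEq i]
    _ ≤ ∫ x, ‖u x‖ ^ 2 := hkey
    _ ≤ ∫ x, Set.indicator {x | h < Q x} Q x := by
        refine integral_mono_of_nonneg (Filter.Eventually.of_forall fun x => by positivity)
          ((integrable_indicator_iff hbm).2 hb) (Filter.Eventually.of_forall fun x => ?_)
        simp only
        rw [hun x]
        by_cases hx : x ∈ {x | h < Q x}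
        · rw [Set.indicator_of_mem hx, Set.indicator_of_mem hx, RCLike.norm_conj]
          exact hwQ x
        · rw [Set.indicator_of_notMem hx, Set.indicator_of_notMem hx]; simp
    _ = ∫ x in {x | h < Q x}, Q x := integral_indicator hbm

theorem cxX_fin {N : ℕ} (μ : Measure ℝ) [IsFiniteMeasure μ] (Z : Fin N → ℝ → ℂ)
    (hZ : ∀ i, Measurable (Z i)) (C : ℝ) (hC : ∀ ξ, ∑ i, ‖Z i ξ‖ ^ 2 ≤ C) :
    (∀ i, MemLp (Z i) 2 μ) ∧ ∑ i, ∫ ξ, ‖Z i ξ‖ ^ 2 ∂μ ≤ μ.real Set.univ * C := by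
  have h1 : ∀ i, MemLp (Z i) 2 μ := by
    intro i
    refine MemLp.of_bound (hZ i).aestronglyMeasurable (Real.sqrt C)
      (Filter.Eventually.of_forall fun ξ => ?_)
    refine Real.le_sqrt_of_sq_le ?_
    refine le_trans ?_ (hC ξ)
    exact Finset.single_le_sum (f := fun i => ‖Z i ξ‖ ^ 2) (fun j _ => by positivity)
      (Finset.mem_univ i)
  refine ⟨h1, ?_⟩
  have h2 : ∀ i, Integrable (fun ξ => ‖Z i ξ‖ ^ 2) μ := fun i =>
    (memLp_two_iff_integrable_sq_norm (hZ i).aestronglyMeasurable).1 (h1 i)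
  rw [← integral_finset_sum _ fun i _ => h2 i]
  calc ∫ ξ, ∑ i, ‖Z i ξ‖ ^ 2 ∂μ ≤ ∫ ξ, C ∂μ :=
        integral_mono (integrable_finset_sum _ fun i _ => h2 i) (integrable_const C) hC
    _ = μ.real Set.univ * C := by rw [integral_const, smul_eq_mul]

theorem cx_Xpart
    (bessel : ∀ (N : ℕ) (f : Fin N → ℝ → ℂ) (_ : ∀ i, MemLp (f i) 2 volume)
      (_ : ∀ i j, ∫ x, (starRingEnd ℂ) (f i x) * f j x = if i = j then 1 else 0)
      (h : ℝ → ℂ) (_ : MemLp h 2 volume),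
      ∑ i, ‖∫ x, (starRingEnd ℂ) (f i x) * h x‖ ^ 2 ≤ ∫ x, ‖h x‖ ^ 2)
    (bilin : ∀ (k : ℂ) (_ : 0 < k.im) (h1 h2 : ℝ → ℂ) (_ : Integrable h1) (_ : Integrable h2),
      ∫ p : ℝ × ℝ, (starRingEnd ℂ) (h1 p.1) *
        (Complex.I / (2 * k) * Complex.exp (Complex.I * k * |p.1 - p.2|)) * h2 p.2 =
      ∫ ξ : ℝ, (starRingEnd ℂ) (∫ x : ℝ, Complex.exp (-(Complex.I * ξ * x)) * h1 x) *
        (∫ x : ℝ, Complex.exp (-(Complex.I * ξ * x)) * h2 x) *
        ((2 * Real.pi : ℂ)⁻¹ * ((ξ : ℂ) ^ 2 - k ^ 2)⁻¹))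
    (Q : ℝ → ℝ) (hQm : Measurable Q) (hQ0 : ∀ x, 0 ≤ Q x)
    (v1 v2 : ℝ → ℂ) (hv1 : Measurable v1) (hv2 : Measurable v2)
    (h1 : ∀ x, ‖v1 x‖ ^ 2 ≤ Q x) (h2 : ∀ x, ‖v2 x‖ ^ 2 ≤ Q x)
    (N : ℕ) (f : Fin N → ℝ → ℂ) (hf : ∀ i, MemLp (f i) 2 volume)
    (ho : ∀ i j, ∫ x, (starRingEnd ℂ) (f i x) * f j x = if i = j then 1 else 0)
    (k : ℂ) (hk : 0 < k.im) (h : ℝ) (hh : 0 < h) (hb : IntegrableOn Q {x | h < Q x})
    (hI : Integrable (fun ξ : ℝ => ‖(ξ : ℂ) ^ 2 - k ^ 2‖⁻¹)) :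
    ∃ (μ : Measure ℝ) (X Y : Fin N → ℝ → ℂ), (∀ i, MemLp (X i) 2 μ) ∧ (∀ i, MemLp (Y i) 2 μ) ∧
      (∀ i l, (∫ p in {p : ℝ × ℝ | h < Q p.1 ∧ h < Q p.2}, (starRingEnd ℂ) (f i p.1) *
        (v1 p.1 * cxG k (p.1 - p.2) * v2 p.2) * f l p.2) =
          ∫ ξ, (starRingEnd ℂ) (X i ξ) * Y l ξ ∂μ) ∧
      (∑ i, ∫ ξ, ‖X i ξ‖ ^ 2 ∂μ ≤
        (2 * Real.pi)⁻¹ * (∫ ξ : ℝ, ‖(ξ : ℂ) ^ 2 - k ^ 2‖⁻¹) * ∫ x in {x | h < Q x}, Q x) ∧
      (∑ i, ∫ ξ, ‖Y i ξ‖ ^ 2 ∂μ ≤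
        (2 * Real.pi)⁻¹ * (∫ ξ : ℝ, ‖(ξ : ℂ) ^ 2 - k ^ 2‖⁻¹) * ∫ x in {x | h < Q x}, Q x) := by
  have hbm : MeasurableSet {x | h < Q x} := measurableSet_lt measurable_const hQm
  have hcv : Measurable (fun x => (starRingEnd ℂ) (v1 x)) :=
    Complex.continuous_conj.measurable.comp hv1
  have hcQ : ∀ x, ‖(starRingEnd ℂ) (v1 x)‖ ^ 2 ≤ Q x := fun x => by
    rw [RCLike.norm_conj]; exact h1 x
  set w1 : ℝ → ℂ := fun x => (starRingEnd ℂ) (v1 x) with hw1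
  have hne : ∀ ξ : ℝ, (ξ : ℂ) ^ 2 - k ^ 2 ≠ 0 := by
    intro ξ h0
    have h0' : ((ξ : ℂ) - k) * (ξ + k) = 0 := by linear_combination h0
    rcases mul_eq_zero.1 h0' with h | h
    · have := congrArg Complex.im h
      simp at this
      exact hk.ne' this
    · have := congrArg Complex.im h
      simp at this
      exact hk.ne' this
  have hint1 : ∀ i, Integrable (cxXh Q h w1 (f i)) := fun i =>
    cxX_int Q hQm hQ0 w1 hcv hcQ h hb (f i) (hf i)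
  have hint2 : ∀ i, Integrable (cxXh Q h v2 (f i)) := fun i =>
    cxX_int Q hQm hQ0 v2 hv2 h2 h hb (f i) (hf i)
  set den : ℝ → ℝ := fun ξ => (2 * Real.pi)⁻¹ * ‖(ξ : ℂ) ^ 2 - k ^ 2‖⁻¹ with hden
  have hden0 : ∀ ξ, 0 ≤ den ξ := fun ξ => by
    simp only [hden]; positivity
  have hcont2 : Continuous (fun ξ : ℝ => (ξ : ℂ) ^ 2 - k ^ 2) := by fun_prop
  have hdenm : Measurable den := by
    have : Measurable (fun ξ : ℝ => ‖(ξ : ℂ) ^ 2 - k ^ 2‖⁻¹) := hcont2.measurable.norm.inv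
    exact this.const_mul _
  have hdenI : Integrable den := hI.const_mul _
  set μ : Measure ℝ := volume.withDensity (fun ξ => ENNReal.ofReal (den ξ)) with hμ
  have hμu : μ Set.univ = ENNReal.ofReal (∫ ξ, den ξ) := by
    rw [hμ, withDensity_apply _ MeasurableSet.univ, Measure.restrict_univ,
      ofReal_integral_eq_lintegral_ofReal hdenI (Filter.Eventually.of_forall hden0)]
  haveI : IsFiniteMeasure μ := ⟨by rw [hμu]; exact ENNReal.ofReal_lt_top⟩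
  have hμr : μ.real Set.univ = (2 * Real.pi)⁻¹ * ∫ ξ : ℝ, ‖(ξ : ℂ) ^ 2 - k ^ 2‖⁻¹ := by
    rw [measureReal_def, hμu, ENNReal.toReal_ofReal (integral_nonneg hden0)]
    simp only [hden]
    rw [integral_const_mul]
  have hX := cxX_fin μ (fun i => cxXH Q h w1 (f i))
    (fun i => (cxX_cont Q h w1 (f i) (hint1 i)).measurable) _
    (fun ξ => cxX_bound bessel Q hQm hQ0 w1 hcv hcQ N f hf ho h hb ξ)
  have hYm : ∀ i, Measurable (fun ξ : ℝ => cxXH Q h v2 (f i) ξ *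
      ((‖(ξ : ℂ) ^ 2 - k ^ 2‖ : ℂ) * ((ξ : ℂ) ^ 2 - k ^ 2)⁻¹)) := by
    intro i
    refine (cxX_cont Q h v2 (f i) (hint2 i)).measurable.mul ?_
    refine Measurable.mul ?_ hcont2.measurable.inv
    exact Complex.measurable_ofReal.comp hcont2.measurable.norm
  have hYn : ∀ i (ξ : ℝ), ‖cxXH Q h v2 (f i) ξ *
      ((‖(ξ : ℂ) ^ 2 - k ^ 2‖ : ℂ) * ((ξ : ℂ) ^ 2 - k ^ 2)⁻¹)‖ = ‖cxXH Q h v2 (f i) ξ‖ := by
    intro i ξ
    rw [norm_mul, norm_mul, norm_inv, Complex.norm_real, norm_norm,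
      mul_inv_cancel₀ (norm_ne_zero_iff.2 (hne ξ)), mul_one]
  have hY := cxX_fin μ (fun i ξ => cxXH Q h v2 (f i) ξ *
      ((‖(ξ : ℂ) ^ 2 - k ^ 2‖ : ℂ) * ((ξ : ℂ) ^ 2 - k ^ 2)⁻¹)) hYm _
    (fun ξ => by
      simp only [hYn]
      exact cxX_bound bessel Q hQm hQ0 v2 hv2 h2 N f hf ho h hb ξ)
  refine ⟨μ, fun i => cxXH Q h w1 (f i), fun i ξ => cxXH Q h v2 (f i) ξ *
      ((‖(ξ : ℂ) ^ 2 - k ^ 2‖ : ℂ) * ((ξ : ℂ) ^ 2 - k ^ 2)⁻¹), hX.1, hY.1, ?_, ?_, ?_⟩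
  · intro i l
    have hS : MeasurableSet {p : ℝ × ℝ | h < Q p.1 ∧ h < Q p.2} :=
      (measurableSet_lt measurable_const (hQm.comp measurable_fst)).inter
        (measurableSet_lt measurable_const (hQm.comp measurable_snd))
    rw [← integral_indicator hS]
    have hE : ∀ p : ℝ × ℝ, Set.indicator {p : ℝ × ℝ | h < Q p.1 ∧ h < Q p.2}
        (fun p => (starRingEnd ℂ) (f i p.1) *
          (v1 p.1 * cxG k (p.1 - p.2) * v2 p.2) * f l p.2) p =
        (starRingEnd ℂ) (cxXh Q h w1 (f i) p.1) *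
          (Complex.I / (2 * k) * Complex.exp (Complex.I * k * |p.1 - p.2|)) *
            cxXh Q h v2 (f l) p.2 := by
      intro p
      by_cases hp1 : p.1 ∈ {x | h < Q x}
      · by_cases hp2 : p.2 ∈ {x | h < Q x}
        · have hp : p ∈ {p : ℝ × ℝ | h < Q p.1 ∧ h < Q p.2} := ⟨hp1, hp2⟩
          rw [Set.indicator_of_mem hp]
          simp only [cxXh]
          rw [Set.indicator_of_mem hp1, Set.indicator_of_mem hp2]
          simp only [hw1, cxG, map_mul, Complex.conj_conj]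
          push_cast
          ring
        · have hp : p ∉ {p : ℝ × ℝ | h < Q p.1 ∧ h < Q p.2} := fun hq => hp2 hq.2
          rw [Set.indicator_of_notMem hp]
          simp only [cxXh]
          rw [Set.indicator_of_notMem hp2]
          simp
      · have hp : p ∉ {p : ℝ × ℝ | h < Q p.1 ∧ h < Q p.2} := fun hq => hp1 hq.1
        rw [Set.indicator_of_notMem hp]
        simp only [cxXh]
        rw [Set.indicator_of_notMem hp1]
        simp
    rw [integral_congr_ae (Filter.Eventually.of_forall hE)]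
    have hB := bilin k hk (cxXh Q h w1 (f i)) (cxXh Q h v2 (f l)) (hint1 i) (hint2 l)
    have hR := integral_withDensity_eq_integral_toReal_smul (μ := (volume : Measure ℝ))
      (f := fun ξ => ENNReal.ofReal (den ξ)) hdenm.ennreal_ofReal
      (Filter.Eventually.of_forall fun ξ => ENNReal.ofReal_lt_top)
      (fun ξ => (starRingEnd ℂ) (cxXH Q h w1 (f i) ξ) * (cxXH Q h v2 (f l) ξ *
      ((‖(ξ : ℂ) ^ 2 - k ^ 2‖ : ℂ) * ((ξ : ℂ) ^ 2 - k ^ 2)⁻¹)))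
    rw [← hμ] at hR
    rw [hR]
    refine hB.trans ?_
    refine integral_congr_ae (Filter.Eventually.of_forall fun ξ => ?_)
    simp only
    rw [ENNReal.toReal_ofReal (hden0 ξ)]
    simp only [hden, Complex.real_smul]
    have hn : (‖(ξ : ℂ) ^ 2 - k ^ 2‖ : ℂ) ≠ 0 := by
      exact_mod_cast norm_ne_zero_iff.2 (hne ξ)
    have h3 : (((2 * Real.pi)⁻¹ * ‖(ξ : ℂ) ^ 2 - k ^ 2‖⁻¹ : ℝ) : ℂ) =
        (2 * Real.pi : ℂ)⁻¹ * (‖(ξ : ℂ) ^ 2 - k ^ 2‖ : ℂ)⁻¹ := by push_cast; ring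
    rw [h3]
    show (starRingEnd ℂ) (cxXH Q h w1 (f i) ξ) * (cxXH Q h v2 (f l) ξ) *
        ((2 * Real.pi : ℂ)⁻¹ * ((ξ : ℂ) ^ 2 - k ^ 2)⁻¹) = _
    field_simp
  · rw [← hμr]; exact hX.2
  · have := hY.2
    simp only [hYn] at this
    simp only [hYn]
    rw [← hμr]; exact this

end A09b
end Pool.Agent.Helper209.CX
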