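import Mathlib
import Pool.Agent.Helper209.CX.Defs

namespace Pool.Agent.Helper209.CX

namespace A09c
open MeasureTheory ENNReal









theorem cx_logbound (s : ℝ) (hs : 0 < s) (hs2 : s < 1 / 2) (C0 : ℝ) (hC0 : 0 < C0)
    (hI : ∀ k : ℂ, 0 < k.im →
      Integrable (fun ξ : ℝ => ‖(ξ : ℂ) ^ 2 - k ^ 2‖⁻¹) ∧
      ∫ ξ : ℝ, ‖(ξ : ℂ) ^ 2 - k ^ 2‖⁻¹ ≤ C0 * ‖k‖ ^ (2 * s - 1) * (‖k‖ * k.im) ^ (-s))
    (detb : ∀ (N : ℕ) (μ : Measure ℝ) (T : Matrix (Fin N) (Fin N) ℂ) (X Y : Fin N → ℝ → ℂ)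
      (_ : ∀ i, MemLp (X i) 2 μ) (_ : ∀ i, MemLp (Y i) 2 μ) (K : Matrix (Fin N) (Fin N) ℂ)
      (_ : ∀ i j, K i j = T i j + ∫ ξ, (starRingEnd ℂ) (X i ξ) * Y j ξ ∂μ),
      ‖(1 + K).det * Complex.exp (-K.trace)‖ ≤
        Real.exp ((∑ i, ∑ j, ‖T i j‖ ^ 2) / 2 + (∑ i, ∫ ξ, ‖X i ξ‖ ^ 2 ∂μ)
          + ∑ i, ∫ ξ, ‖Y i ξ‖ ^ 2 ∂μ))
    (Q : ℝ → ℝ) (hQm : Measurable Q) (hQ0 : ∀ x, 0 ≤ Q x)
    (v1 v2 : ℝ → ℂ) (N : ℕ) (f : Fin N → ℝ → ℂ)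
    (k : ℂ) (hk : 0 < k.im) (h : ℝ) (hh : h = ‖k‖ * k.im) (hb : IntegrableOn Q {x | h < Q x})
    (ha : IntegrableOn (fun x => Q x ^ 2) {x | Q x ≤ h})
    (hint : ∀ i l, Integrable (fun p : ℝ × ℝ => (starRingEnd ℂ) (f i p.1) *
      (v1 p.1 * cxG k (p.1 - p.2) * v2 p.2) * f l p.2))
    (hT : (∑ i, ∑ l, ‖∫ p in {p : ℝ × ℝ | ¬ (h < Q p.1 ∧ h < Q p.2)}, (starRingEnd ℂ) (f i p.1) *
        (v1 p.1 * cxG k (p.1 - p.2) * v2 p.2) * f l p.2‖ ^ 2) ≤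
      (1 / (4 * ‖k‖ ^ 2)) * ((1 / k.im) * (∫ x in {x | Q x ≤ h}, Q x ^ 2)
        + (2 * h / k.im) * ∫ x in {x | h < Q x}, Q x))
    (hX : ∃ (μ : Measure ℝ) (X Y : Fin N → ℝ → ℂ),
      (∀ i, MemLp (X i) 2 μ) ∧ (∀ i, MemLp (Y i) 2 μ) ∧
      (∀ i l, (∫ p in {p : ℝ × ℝ | h < Q p.1 ∧ h < Q p.2}, (starRingEnd ℂ) (f i p.1) *
        (v1 p.1 * cxG k (p.1 - p.2) * v2 p.2) * f l p.2) =
          ∫ ξ, (starRingEnd ℂ) (X i ξ) * Y l ξ ∂μ) ∧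
      (∑ i, ∫ ξ, ‖X i ξ‖ ^ 2 ∂μ ≤
        (2 * Real.pi)⁻¹ * (∫ ξ : ℝ, ‖(ξ : ℂ) ^ 2 - k ^ 2‖⁻¹) * ∫ x in {x | h < Q x}, Q x) ∧
      (∑ i, ∫ ξ, ‖Y i ξ‖ ^ 2 ∂μ ≤
        (2 * Real.pi)⁻¹ * (∫ ξ : ℝ, ‖(ξ : ℂ) ^ 2 - k ^ 2‖⁻¹) * ∫ x in {x | h < Q x}, Q x)) :
    ‖cxD k v1 v2 f‖ ≤ Real.exp ((1 + C0) * ‖k‖ ^ (2 * s - 1) * (‖k‖ * k.im) ^ (-s) *
      ∫ x, Q x * min 1 (Q x / (‖k‖ * k.im))) := by
  obtain ⟨μ, X, Y, hX1, hY1, hXY, hXb, hYb⟩ := hX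
  have hS : MeasurableSet {p : ℝ × ℝ | h < Q p.1 ∧ h < Q p.2} :=
    (measurableSet_lt measurable_const (hQm.comp measurable_fst)).inter
      (measurableSet_lt measurable_const (hQm.comp measurable_snd))
  have hsplit : ∀ i l, cxK k v1 v2 f i l =
      (Matrix.of fun i l => ∫ p in {p : ℝ × ℝ | ¬ (h < Q p.1 ∧ h < Q p.2)},
        (starRingEnd ℂ) (f i p.1) * (v1 p.1 * cxG k (p.1 - p.2) * v2 p.2) * f l p.2 :
          Matrix (Fin N) (Fin N) ℂ) i l + ∫ ξ, (starRingEnd ℂ) (X i ξ) * Y l ξ ∂μ := by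
    intro i l
    rw [← hXY i l]
    have h1 := integral_add_compl hS (hint i l)
    have h2 : cxK k v1 v2 f i l = ∫ p : ℝ × ℝ, (starRingEnd ℂ) (f i p.1) *
      (v1 p.1 * cxG k (p.1 - p.2) * v2 p.2) * f l p.2 := rfl
    rw [h2, ← h1, add_comm]
    rfl
  have hdet := detb N μ _ X Y hX1 hY1 (cxK k v1 v2 f) hsplit
  have hD : ‖cxD k v1 v2 f‖ = ‖(1 + cxK k v1 v2 f).det * Complex.exp (-(cxK k v1 v2 f).trace)‖ := rfl
  rw [hD]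
  refine hdet.trans (Real.exp_le_exp.2 ?_)
  clear hdet hD hsplit
  have hyT : k.im ≤ ‖k‖ := (le_abs_self _).trans (Complex.abs_im_le_norm k)
  have hTp : 0 < ‖k‖ := hk.trans_le hyT
  have hhp : 0 < h := by rw [hh]; exact mul_pos hTp hk
  -- the integral
  have hms : MeasurableSet {x | Q x ≤ h} := measurableSet_le hQm measurable_const
  have hcompl : {x | Q x ≤ h}ᶜ = {x | h < Q x} := by
    ext x
    simp
  have hms' : MeasurableSet {x | h < Q x} := hcompl ▸ hms.compl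
  have e1 : Set.EqOn (fun x => Q x ^ 2 / h) (fun x => Q x * min 1 (Q x / h)) {x | Q x ≤ h} := by
    intro x hx
    have hx' : Q x ≤ h := hx
    have : Q x / h ≤ 1 := (div_le_one hhp).2 hx'
    simp only
    rw [min_eq_right this]
    ring
  have e2 : Set.EqOn (fun x => Q x) (fun x => Q x * min 1 (Q x / h)) {x | h < Q x} := by
    intro x hx
    have hx' : h < Q x := hx
    have : 1 ≤ Q x / h := (one_le_div hhp).2 hx'.le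
    simp only
    rw [min_eq_left this, mul_one]
  have i1 : IntegrableOn (fun x => Q x * min 1 (Q x / h)) {x | Q x ≤ h} :=
    IntegrableOn.congr_fun (ha.div_const h) e1 hms
  have i2 : IntegrableOn (fun x => Q x * min 1 (Q x / h)) {x | h < Q x} :=
    IntegrableOn.congr_fun hb e2 hms'
  have hint' : Integrable (fun x => Q x * min 1 (Q x / h)) := by
    rw [← integrableOn_univ]
    have : ({x | Q x ≤ h} ∪ {x | h < Q x} : Set ℝ) = Set.univ := by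
      ext x
      simp [le_or_gt]
    rw [← this]
    exact i1.union i2
  have hJ : ∫ x, Q x * min 1 (Q x / h) =
      (∫ x in {x | Q x ≤ h}, Q x ^ 2) / h + ∫ x in {x | h < Q x}, Q x := by
    rw [← integral_add_compl hms hint', hcompl, ← setIntegral_congr_fun hms e1,
      ← setIntegral_congr_fun hms' e2, integral_div]
  have hA0 : 0 ≤ ∫ x in {x | Q x ≤ h}, Q x ^ 2 := integral_nonneg fun x => sq_nonneg _
  have hB0 : 0 ≤ ∫ x in {x | h < Q x}, Q x := integral_nonneg fun x => hQ0 x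
  rw [← hh, hJ]
  have hIk := (hI k hk).2
  rw [← hh] at hIk
  have hI0 : 0 ≤ ∫ ξ : ℝ, ‖(ξ : ℂ) ^ 2 - k ^ 2‖⁻¹ := integral_nonneg fun ξ => by positivity
  -- 1 / T ≤ W
  have hW : 1 / ‖k‖ ≤ ‖k‖ ^ (2 * s - 1) * h ^ (-s) := by
    have w1 : h ≤ ‖k‖ * ‖k‖ := by rw [hh]; exact mul_le_mul_of_nonneg_left hyT hTp.le
    have w2 : (‖k‖ * ‖k‖) ^ (-s) ≤ h ^ (-s) :=
      Real.rpow_le_rpow_of_nonpos hhp w1 (by linarith)
    have w3 : ‖k‖ ^ (2 * s - 1) * (‖k‖ * ‖k‖) ^ (-s) = 1 / ‖k‖ := by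
      rw [Real.mul_rpow hTp.le hTp.le, ← Real.rpow_add hTp, ← Real.rpow_add hTp]
      have : 2 * s - 1 + (-s + -s) = -1 := by ring
      rw [this, Real.rpow_neg_one, one_div]
    rw [← w3]
    exact mul_le_mul_of_nonneg_left w2 (Real.rpow_nonneg hTp.le _)
  have hWC : C0 * ‖k‖ ^ (2 * s - 1) * h ^ (-s) = C0 * (‖k‖ ^ (2 * s - 1) * h ^ (-s)) := by ring
  have hWC2 : ∀ z : ℝ, (1 + C0) * ‖k‖ ^ (2 * s - 1) * h ^ (-s) * z =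
      (1 + C0) * (‖k‖ ^ (2 * s - 1) * h ^ (-s)) * z := fun z => by ring
  rw [hWC] at hIk
  rw [hWC2]
  generalize ‖k‖ ^ (2 * s - 1) * h ^ (-s) = W at hW hIk
  generalize (∫ x in {x | Q x ≤ h}, Q x ^ 2) = A at hA0 hT
  generalize (∫ x in {x | h < Q x}, Q x) = B at hB0 hT hXb hYb
  generalize (∫ ξ : ℝ, ‖(ξ : ℂ) ^ 2 - k ^ 2‖⁻¹) = I0 at hIk hI0 hXb hYb
  have hpi : (2 * Real.pi)⁻¹ ≤ 1 / 6 := by
    rw [inv_le_comm₀ (by positivity) (by norm_num)]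
    linarith [Real.pi_gt_three]
  have hpi0 : 0 < (2 * Real.pi)⁻¹ := by positivity
  have hWp : 0 < W := lt_of_lt_of_le (by positivity) hW
  have hXb' : (2 * Real.pi)⁻¹ * I0 * B ≤ 1 / 6 * (C0 * W) * B :=
    mul_le_mul_of_nonneg_right (mul_le_mul hpi hIk hI0 (by norm_num)) hB0
  have hT' : (1 / (4 * ‖k‖ ^ 2)) * ((1 / k.im) * A + (2 * h / k.im) * B) =
      (1 / 4) * (1 / ‖k‖) * (A / h) + (1 / 2) * (1 / ‖k‖) * B := by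
    rw [hh]
    have := hTp.ne'
    have := hk.ne'
    field_simp
    ring
  rw [hT'] at hT
  have hAh : 0 ≤ A / h := by positivity
  have t1 : 1 / ‖k‖ * (A / h) ≤ W * (A / h) := mul_le_mul_of_nonneg_right hW hAh
  have t2 : 1 / ‖k‖ * B ≤ W * B := mul_le_mul_of_nonneg_right hW hB0
  have t3 : 0 ≤ W * (A / h) := by positivity
  have t4 : 0 ≤ W * B := by positivity
  have t5 : 0 ≤ C0 * W * (A / h) := by positivity
  have t6 : 0 ≤ C0 * W * B := by positivity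
  have hT2 : (∑ i, ∑ j, ‖(Matrix.of fun i l => ∫ p in {p : ℝ × ℝ | ¬ (h < Q p.1 ∧ h < Q p.2)},
        (starRingEnd ℂ) (f i p.1) * (v1 p.1 * cxG k (p.1 - p.2) * v2 p.2) * f l p.2 :
          Matrix (Fin N) (Fin N) ℂ) i j‖ ^ 2) ≤
      (1 / 4) * (1 / ‖k‖) * (A / h) + (1 / 2) * (1 / ‖k‖) * B := hT
  have hfin : (1 + C0) * W * (A / h + B) = W * (A / h) + W * B + C0 * W * (A / h) + C0 * W * B := by
    ring
  rw [hfin]
  nlinarith [hT2, hXb, hYb, hXb', t1, t2, t3, t4, t5, t6]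

end A09c
end Pool.Agent.Helper209.CX
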