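import Mathlib

namespace Pool.Agent.Helper209.CX

namespace A10
open MeasureTheory

theorem cx_analytic {α : Type*} [MeasurableSpace α] (μ : Measure α) (φ : α → ℂ) (ρ : α → ℝ)
    (hρ : ∀ a, 0 ≤ ρ a) (hρm : Measurable ρ) (hφm : AEStronglyMeasurable φ μ)
    (hint : ∀ ε : ℝ, 0 < ε → Integrable (fun a => ‖φ a‖ * Real.exp (-(ε * ρ a))) μ) :
    DifferentiableOn ℂ (fun k : ℂ => ∫ a, φ a * Complex.exp (Complex.I * k * ρ a) ∂μ)
      {k : ℂ | 0 < k.im} := by
  intro k0 hk0
  have hk0' : 0 < k0.im := hk0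
  have hnorm : ∀ (k : ℂ) (a : α), ‖Complex.exp (Complex.I * k * ρ a)‖ = Real.exp (-(k.im * ρ a)) := by
    intro k a
    rw [Complex.norm_exp]
    congr 1
    simp
  have hexpm : ∀ k : ℂ, Measurable (fun a => Complex.exp (Complex.I * k * ρ a)) := by
    intro k
    exact Complex.measurable_exp.comp (measurable_const.mul (Complex.measurable_ofReal.comp hρm))
  have hs : {k : ℂ | k0.im / 2 < k.im} ∈ nhds k0 :=
    (isOpen_lt continuous_const Complex.continuous_im).mem_nhds (by
      show k0.im / 2 < k0.im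
      linarith)
  refine (HasDerivAt.differentiableAt (f' := ∫ a, φ a * (Complex.exp (Complex.I * k0 * ρ a) *
    (Complex.I * ρ a)) ∂μ) ?_).differentiableWithinAt
  refine (hasDerivAt_integral_of_dominated_loc_of_deriv_le
    (F' := fun k a => φ a * (Complex.exp (Complex.I * k * ρ a) * (Complex.I * ρ a)))
    (bound := fun a => 4 / k0.im * (‖φ a‖ * Real.exp (-(k0.im / 4 * ρ a)))) hs ?_ ?_ ?_ ?_ ?_ ?_).2
  · exact Filter.Eventually.of_forall fun k => hφm.mul (hexpm k).aestronglyMeasurable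
  · refine Integrable.mono' (hint k0.im hk0') (hφm.mul (hexpm k0).aestronglyMeasurable) ?_
    filter_upwards with a
    rw [norm_mul, hnorm]
  · exact hφm.mul (((hexpm k0).mul (measurable_const.mul
      (Complex.measurable_ofReal.comp hρm))).aestronglyMeasurable)
  · filter_upwards with a k hk
    have hk' : k0.im / 2 < k.im := hk
    rw [norm_mul, norm_mul, norm_mul, hnorm, Complex.norm_I, one_mul, Complex.norm_real,
      Real.norm_eq_abs, abs_of_nonneg (hρ a)]
    have h1 : ρ a ≤ 4 / k0.im * Real.exp (k0.im / 4 * ρ a) := by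
      have := Real.add_one_le_exp (k0.im / 4 * ρ a)
      have h2 : ρ a = 4 / k0.im * (k0.im / 4 * ρ a) := by field_simp
      calc ρ a = 4 / k0.im * (k0.im / 4 * ρ a) := h2
        _ ≤ 4 / k0.im * Real.exp (k0.im / 4 * ρ a) := by
          apply mul_le_mul_of_nonneg_left _ (by positivity)
          linarith
    have h3 : Real.exp (-(k.im * ρ a)) ≤ Real.exp (-(k0.im / 2 * ρ a)) := by
      apply Real.exp_le_exp.2
      nlinarith [hρ a]
    have h4 : Real.exp (-(k0.im / 2 * ρ a)) * Real.exp (k0.im / 4 * ρ a) =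
        Real.exp (-(k0.im / 4 * ρ a)) := by
      rw [← Real.exp_add]; congr 1; ring
    calc ‖φ a‖ * (Real.exp (-(k.im * ρ a)) * ρ a)
        ≤ ‖φ a‖ * (Real.exp (-(k0.im / 2 * ρ a)) * (4 / k0.im * Real.exp (k0.im / 4 * ρ a))) := by
          apply mul_le_mul_of_nonneg_left _ (norm_nonneg _)
          exact mul_le_mul h3 h1 (hρ a) (Real.exp_nonneg _)
      _ = 4 / k0.im * (‖φ a‖ * (Real.exp (-(k0.im / 2 * ρ a)) * Real.exp (k0.im / 4 * ρ a))) := by
          ring
      _ = 4 / k0.im * (‖φ a‖ * Real.exp (-(k0.im / 4 * ρ a))) := by rw [h4]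
  · exact (hint (k0.im / 4) (by positivity)).const_mul _
  · filter_upwards with a k hk
    have h1 : HasDerivAt (fun k : ℂ => Complex.I * k * ρ a) (Complex.I * ρ a) k := by
      have := ((hasDerivAt_id k).const_mul Complex.I).mul_const (ρ a : ℂ)
      simpa using this
    exact (h1.cexp).const_mul (φ a)

end A10
end Pool.Agent.Helper209.CX
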