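import Mathlib

namespace Pool.Agent.Helper209.CX

namespace A11
open MeasureTheory

/-- derivative of the exponential factor -/
theorem cx_resolvent_hE (c : ℂ) (t : ℝ) :
    HasDerivAt (fun s : ℝ => Complex.exp (c * s)) (c * Complex.exp (c * t)) t := by
  have h1 : HasDerivAt (fun s : ℝ => c * (s : ℂ)) c t := by
    simpa using (Complex.ofRealCLM.hasDerivAt (x := t)).const_mul c
  have h2 := h1.cexp
  rwa [mul_comm] at h2

theorem cx_resolvent_ibp (c : ℂ) (H h : ℝ → ℂ) (hh : ∀ a b : ℝ, IntervalIntegrable h volume a b)
    (hH : ∀ a b : ℝ, H b - H a = ∫ t in a..b, h t) (a b : ℝ) :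
    Complex.exp (c * b) * H b - Complex.exp (c * a) * H a =
      ∫ t in a..b, Complex.exp (c * t) * (h t + c * H t) := by
  have hHc : Continuous H := by
    have h1 : H = fun b => H 0 + ∫ t in (0 : ℝ)..b, h t := by
      funext b
      rw [← hH 0 b]
      ring
    rw [h1]
    exact continuous_const.add (intervalIntegral.continuous_primitive hh 0)
  have hEc : Continuous fun t : ℝ => Complex.exp (c * t) :=
    Complex.continuous_exp.comp (continuous_const.mul Complex.continuous_ofReal)
  have hi1 : ∀ a b : ℝ, IntervalIntegrable (fun t => Complex.exp (c * t) * h t) volume a b :=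
    fun a b => (hh a b).continuousOn_mul hEc.continuousOn
  have hi2 : ∀ a b : ℝ, IntervalIntegrable (fun t => Complex.exp (c * t) * (c * H t)) volume a b :=
    fun a b => (hEc.mul (continuous_const.mul hHc)).intervalIntegrable a b
  have hi3 : ∀ a b : ℝ, IntervalIntegrable (fun t => Complex.exp (c * t) * (h t + c * H t))
      volume a b := by
    intro a b
    have h1 := (hi1 a b).add (hi2 a b)
    refine h1.congr ?_
    intro t _
    show Complex.exp (c * t) * h t + Complex.exp (c * t) * (c * H t) = _
    ring
  set D : ℝ → ℂ := fun s => Complex.exp (c * s) * H s -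
    ∫ t in a..s, Complex.exp (c * t) * (h t + c * H t) with hD
  have hder : ∀ t : ℝ, HasDerivAt D 0 t := by
    intro t
    set K : ℝ := ‖c‖ * Real.exp (‖c‖ * (|t| + 1)) with hK
    have hK0 : 0 ≤ K := by positivity
    -- bounds for the exponential factor
    have hEb : ∀ r : ℝ, |r - t| ≤ 1 → ‖c * Complex.exp (c * r)‖ ≤ K := by
      intro r hr
      rw [norm_mul, hK]
      refine mul_le_mul_of_nonneg_left ?_ (norm_nonneg _)
      rw [Complex.norm_exp]
      refine Real.exp_le_exp.2 ?_
      calc (c * r).re ≤ ‖c * r‖ := Complex.re_le_norm _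
        _ = ‖c‖ * |r| := by rw [norm_mul, Complex.norm_real, Real.norm_eq_abs]
        _ ≤ ‖c‖ * (|t| + 1) := by
            refine mul_le_mul_of_nonneg_left ?_ (norm_nonneg _)
            have : |r| ≤ |r - t| + |t| := by
              calc |r| = |(r - t) + t| := by ring_nf
                _ ≤ _ := abs_add_le _ _
            linarith
    have hconv : Convex ℝ (Metric.closedBall t 1) := convex_closedBall t 1
    have hlip : ∀ r s : ℝ, |r - t| ≤ 1 → |s - t| ≤ 1 →
        ‖Complex.exp (c * s) - Complex.exp (c * r)‖ ≤ K * |s - r| := by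
      intro r s hr hs
      have h1 := hconv.norm_image_sub_le_of_norm_hasDerivWithin_le
        (f := fun s : ℝ => Complex.exp (c * s)) (f' := fun s : ℝ => c * Complex.exp (c * s)) (C := K)
        (fun x _ => (cx_resolvent_hE c x).hasDerivWithinAt)
        (fun x hx => hEb x (by rwa [Metric.mem_closedBall, Real.dist_eq] at hx))
        (x := r) (y := s) (by rwa [Metric.mem_closedBall, Real.dist_eq])
        (by rwa [Metric.mem_closedBall, Real.dist_eq])
      exact h1
    have hN : ∀ a b : ℝ, IntervalIntegrable (fun r => ‖h r‖) volume a b := fun a b => (hh a b).norm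
    have hNc : Continuous fun s => ∫ r in t..s, ‖h r‖ :=
      intervalIntegral.continuous_primitive hN t
    have hbound : ∀ s : ℝ, |s - t| ≤ 1 →
        ‖D s - D t‖ ≤ 2 * K * |∫ r in t..s, ‖h r‖| * |s - t| := by
      intro s hs
      have hsub : ∀ r ∈ Set.uIoc t s, |r - t| ≤ |s - t| ∧ |s - r| ≤ |s - t| := by
        intro r hr
        rcases le_total t s with hts | hts
        · rw [Set.uIoc_of_le hts] at hr
          rw [abs_of_nonneg (by linarith [hr.1] : 0 ≤ r - t), abs_of_nonneg (by linarith : 0 ≤ s - t),
            abs_of_nonneg (by linarith [hr.2] : 0 ≤ s - r)]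
          constructor <;> linarith [hr.1, hr.2]
        · rw [Set.uIoc_of_ge hts] at hr
          rw [abs_of_nonpos (by linarith [hr.2] : r - t ≤ 0), abs_of_nonpos (by linarith : s - t ≤ 0),
            abs_of_nonpos (by linarith [hr.1] : s - r ≤ 0)]
          constructor <;> linarith [hr.1, hr.2]
      -- decomposition
      have e1 : D s - D t = (∫ r in t..s, (Complex.exp (c * s) - Complex.exp (c * r)) * h r) +
          ∫ r in t..s, (c * Complex.exp (c * r)) * (H t - H r) := by
        have i1 : ∫ r in t..s, (Complex.exp (c * s) - Complex.exp (c * r)) * h r =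
            Complex.exp (c * s) * (H s - H t) - ∫ r in t..s, Complex.exp (c * r) * h r := by
          rw [hH t s, ← intervalIntegral.integral_const_mul, ← intervalIntegral.integral_sub
            ((hh t s).const_mul _) (hi1 t s)]
          refine intervalIntegral.integral_congr fun r _ => ?_
          show (Complex.exp (c * s) - Complex.exp (c * r)) * h r =
            Complex.exp (c * s) * h r - Complex.exp (c * r) * h r
          ring
        have i2 : ∫ r in t..s, (c * Complex.exp (c * r)) * (H t - H r) =
            (Complex.exp (c * s) - Complex.exp (c * t)) * H t -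
              ∫ r in t..s, Complex.exp (c * r) * (c * H r) := by
          have i3 : ∫ r in t..s, c * Complex.exp (c * r) =
              Complex.exp (c * s) - Complex.exp (c * t) :=
            intervalIntegral.integral_eq_sub_of_hasDerivAt (fun x _ => cx_resolvent_hE c x)
              ((continuous_const.mul hEc).intervalIntegrable _ _)
          have hi4 : IntervalIntegrable (fun r : ℝ => c * Complex.exp (c * r) * H t) volume t s :=
            ((continuous_const.mul hEc).mul continuous_const).intervalIntegrable _ _
          rw [← i3, ← intervalIntegral.integral_mul_const, ← intervalIntegral.integral_sub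
            hi4 (hi2 t s)]
          refine intervalIntegral.integral_congr fun r _ => ?_
          show (c * Complex.exp (c * r)) * (H t - H r) =
            c * Complex.exp (c * r) * H t - Complex.exp (c * r) * (c * H r)
          ring
        have i4 : (∫ r in a..s, Complex.exp (c * r) * (h r + c * H r)) -
            (∫ r in a..t, Complex.exp (c * r) * (h r + c * H r)) =
            (∫ r in t..s, Complex.exp (c * r) * h r) + ∫ r in t..s, Complex.exp (c * r) * (c * H r) := by
          rw [intervalIntegral.integral_interval_sub_left (hi3 a s) (hi3 a t),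
            ← intervalIntegral.integral_add (hi1 t s) (hi2 t s)]
          refine intervalIntegral.integral_congr fun r _ => ?_
          show Complex.exp (c * r) * (h r + c * H r) =
            Complex.exp (c * r) * h r + Complex.exp (c * r) * (c * H r)
          ring
        rw [i1, i2]
        show (Complex.exp (c * s) * H s - ∫ t in a..s, Complex.exp (c * t) * (h t + c * H t)) -
          (Complex.exp (c * t) * H t - ∫ r in a..t, Complex.exp (c * r) * (h r + c * H r)) = _
        linear_combination -i4
      have b1 : ‖∫ r in t..s, (Complex.exp (c * s) - Complex.exp (c * r)) * h r‖ ≤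
          K * |s - t| * |∫ r in t..s, ‖h r‖| := by
        have j1 : ‖∫ r in t..s, (Complex.exp (c * s) - Complex.exp (c * r)) * h r‖ ≤
            |∫ r in t..s, K * |s - t| * ‖h r‖| := by
          refine intervalIntegral.norm_integral_le_abs_of_norm_le ?_ ((hN t s).const_mul _)
          refine (ae_restrict_iff' measurableSet_uIoc).2 (Filter.Eventually.of_forall fun r hr => ?_)
          rw [norm_mul]
          refine mul_le_mul_of_nonneg_right ?_ (norm_nonneg _)
          obtain ⟨k1, k2⟩ := hsub r hr
          exact (hlip r s (k1.trans hs) hs).trans (mul_le_mul_of_nonneg_left k2 hK0)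
        rw [intervalIntegral.integral_const_mul, abs_mul, abs_of_nonneg (by positivity :
          0 ≤ K * |s - t|)] at j1
        exact j1
      have b2 : ‖∫ r in t..s, (c * Complex.exp (c * r)) * (H t - H r)‖ ≤
          K * |∫ r in t..s, ‖h r‖| * |s - t| := by
        refine intervalIntegral.norm_integral_le_of_norm_le_const fun r hr => ?_
        obtain ⟨k1, k2⟩ := hsub r hr
        rw [norm_mul]
        refine mul_le_mul (hEb r (k1.trans hs)) ?_ (norm_nonneg _) hK0
        rw [norm_sub_rev, hH t r]
        refine (intervalIntegral.norm_integral_le_abs_integral_norm).trans ?_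
        refine intervalIntegral.abs_integral_mono_interval ?_
          (Filter.Eventually.of_forall fun x => norm_nonneg _) (hN t s)
        intro y hy
        rcases le_total t s with hts | hts
        · rw [Set.uIoc_of_le hts] at hr ⊢
          rw [Set.uIoc_of_le hr.1.le] at hy
          exact ⟨hy.1, hy.2.trans hr.2⟩
        · rw [Set.uIoc_of_ge hts] at hr ⊢
          rw [Set.uIoc_of_ge hr.2] at hy
          exact ⟨lt_trans hr.1 hy.1, hy.2⟩
      rw [e1]
      refine (norm_add_le _ _).trans ?_
      linarith
    rw [hasDerivAt_iff_isLittleO]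
    rw [Asymptotics.isLittleO_iff]
    intro ε hε
    have hlim : Filter.Tendsto (fun s => 2 * K * |∫ r in t..s, ‖h r‖|) (nhds t) (nhds 0) := by
      have h1 : Continuous fun s => 2 * K * |∫ r in t..s, ‖h r‖| :=
        continuous_const.mul hNc.abs
      have h2 := h1.tendsto t
      rwa [intervalIntegral.integral_same, abs_zero, mul_zero] at h2
    have hev1 : ∀ᶠ s in nhds t, 2 * K * |∫ r in t..s, ‖h r‖| < ε := hlim.eventually_lt_const hε
    have hev2 : ∀ᶠ s in nhds t, |s - t| ≤ 1 := by
      have := Metric.closedBall_mem_nhds t one_pos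
      filter_upwards [this] with s hs
      rwa [Metric.mem_closedBall, Real.dist_eq] at hs
    filter_upwards [hev1, hev2] with s h1 h2
    rw [smul_zero, sub_zero, Real.norm_eq_abs]
    exact (hbound s h2).trans (mul_le_mul_of_nonneg_right h1.le (abs_nonneg _))
  have hconst := is_const_of_deriv_eq_zero (fun t => (hder t).differentiableAt)
    (fun t => (hder t).deriv) b a
  have h1 : Complex.exp (c * b) * H b - (∫ t in a..b, Complex.exp (c * t) * (h t + c * H t)) =
      Complex.exp (c * a) * H a - ∫ t in a..a, Complex.exp (c * t) * (h t + c * H t) := hconst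
  rw [intervalIntegral.integral_same, sub_zero] at h1
  linear_combination h1

/-- a limit at infinity of `e^{c t} f(t)` with `f` in `L²` is zero -/
theorem cx_resolvent_zero (f : ℝ → ℂ) (hf : MemLp f 2 volume) (δ : ℝ) (hδ : 0 < δ) (S : Set ℝ)
    (hS : volume S = ⊤) (hfS : ∀ t ∈ S, δ ≤ ‖f t‖) : False := by
  have h1 := hf.meas_ge_lt_top (ε := ⟨δ, hδ.le⟩) (by norm_num) (by norm_num)
    (fun h0 => hδ.ne' (congrArg NNReal.toReal h0))
  have h2 : S ⊆ {x | (⟨δ, hδ.le⟩ : NNReal) ≤ ‖f x‖₊} := by
    intro t ht
    show (⟨δ, hδ.le⟩ : NNReal) ≤ ‖f t‖₊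
    exact hfS t ht
  have h3 := (measure_mono (μ := volume) h2).trans_lt h1
  rw [hS] at h3
  exact lt_irrefl _ h3

theorem cx_resolvent (k : ℂ) (hk : 0 < k.im) (u g F : ℝ → ℂ)
    (hu : MemLp u 2 volume) (hg : MemLp g 2 volume)
    (hug : ∀ x y : ℝ, u y - u x = ∫ t in x..y, g t)
    (hF : ∀ x y : ℝ, g y - g x = - ∫ t in x..y, (F t + k ^ 2 * u t))
    (hFm : AEStronglyMeasurable F volume)
    (hFi : ∀ ε : ℝ, 0 < ε → Integrable (fun t => Real.exp (-(ε * |t|)) * ‖F t‖)) (x : ℝ) :
    Integrable (fun t : ℝ => (Complex.I / (2 * k) * Complex.exp (Complex.I * k * |x - t|)) * F t) ∧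
    u x = ∫ t : ℝ, (Complex.I / (2 * k) * Complex.exp (Complex.I * k * |x - t|)) * F t := by
  have hk0 : k ≠ 0 := by
    rintro rfl
    simp at hk
  have hgi : ∀ a b : ℝ, IntervalIntegrable g volume a b := fun a b =>
    ((hg.locallyIntegrable (by norm_num)).integrableOn_isCompact isCompact_uIcc).intervalIntegrable
  have hui : ∀ a b : ℝ, IntervalIntegrable u volume a b := fun a b =>
    ((hu.locallyIntegrable (by norm_num)).integrableOn_isCompact isCompact_uIcc).intervalIntegrable
  -- integrability of `e^{c t} F` on sets where the exponent is controlled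
  have hexpF : ∀ (c : ℂ) (ε C : ℝ) (s : Set ℝ), MeasurableSet s → 0 < ε →
      (∀ t ∈ s, c.re * t ≤ C - ε * |t|) →
      IntegrableOn (fun t : ℝ => Complex.exp (c * t) * F t) s := by
    intro c ε C s hs hε hC
    refine Integrable.mono' (g := fun t => Real.exp C * (Real.exp (-(ε * |t|)) * ‖F t‖))
      ((hFi ε hε).const_mul _).integrableOn ?_ ?_
    · refine ((Continuous.aestronglyMeasurable ?_).mul hFm).restrict
      exact Complex.continuous_exp.comp (continuous_const.mul Complex.continuous_ofReal)
    · refine (ae_restrict_iff' hs).2 (Filter.Eventually.of_forall fun t ht => ?_)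
      rw [norm_mul, Complex.norm_exp, ← mul_assoc, ← Real.exp_add]
      refine mul_le_mul_of_nonneg_right (Real.exp_le_exp.2 ?_) (norm_nonneg _)
      have h1 : (c * t).re = c.re * t := by simp
      rw [h1]
      linarith [hC t ht]
  have hFint : ∀ a b : ℝ, IntervalIntegrable F volume a b := by
    intro a b
    have h1 := hexpF 0 1 (|a| + |b|) (Set.uIcc a b) measurableSet_uIcc one_pos (by
      intro t ht
      have h2 : |t| ≤ |a| + |b| := by
        rcases le_total a b with hab | hab
        · rw [Set.uIcc_of_le hab] at ht
          rw [abs_le]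
          constructor
          · linarith [ht.1, neg_abs_le a, abs_nonneg b]
          · linarith [ht.2, le_abs_self b, abs_nonneg a]
        · rw [Set.uIcc_of_ge hab] at ht
          rw [abs_le]
          constructor
          · linarith [ht.1, neg_abs_le b, abs_nonneg a]
          · linarith [ht.2, le_abs_self a, abs_nonneg b]
      simp only [Complex.zero_re, zero_mul, one_mul]
      linarith)
    simp only [zero_mul, Complex.exp_zero, one_mul] at h1
    exact h1.intervalIntegrable
  -- the first order quantities
  have hW : ∀ c : ℂ, c ^ 2 = - k ^ 2 → ∀ a b : ℝ,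
      Complex.exp (c * b) * (g b - c * u b) - Complex.exp (c * a) * (g a - c * u a) =
        - ∫ t in a..b, Complex.exp (c * t) * F t := by
    intro c hc a b
    have hhi : ∀ a b : ℝ, IntervalIntegrable (fun t => -(F t + k ^ 2 * u t) - c * g t) volume a b :=
      fun a b => (((hFint a b).add ((hui a b).const_mul _)).neg).sub ((hgi a b).const_mul _)
    have hh1 : ∀ a b : ℝ, IntervalIntegrable (fun t => -(F t + k ^ 2 * u t)) volume a b :=
      fun a b => ((hFint a b).add ((hui a b).const_mul _)).neg
    have hh2 : ∀ a b : ℝ, IntervalIntegrable (fun t => c * g t) volume a b :=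
      fun a b => (hgi a b).const_mul _
    have h1 := cx_resolvent_ibp c (fun t => g t - c * u t)
      (fun t => -(F t + k ^ 2 * u t) - c * g t) hhi (by
        intro a b
        rw [intervalIntegral.integral_sub (hh1 a b) (hh2 a b),
          intervalIntegral.integral_neg, ← hF a b,
          intervalIntegral.integral_const_mul, ← hug a b]
        ring) a b
    rw [← intervalIntegral.integral_neg]
    refine h1.trans (intervalIntegral.integral_congr fun t _ => ?_)
    show Complex.exp (c * t) * (-(F t + k ^ 2 * u t) - c * g t + c * (g t - c * u t)) =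
      -(Complex.exp (c * t) * F t)
    linear_combination (-(Complex.exp (c * t) * u t)) * hc
  have hfL : ∀ c : ℂ, MemLp (fun t => g t - c * u t) 2 volume := fun c => hg.sub (hu.const_mul c)
  -- left half line
  have hleft : ∀ c : ℂ, c ^ 2 = - k ^ 2 → 0 < c.re →
      IntegrableOn (fun t : ℝ => Complex.exp (c * t) * F t) (Set.Iic x) ∧
      Complex.exp (c * x) * (g x - c * u x) = - ∫ t in Set.Iic x, Complex.exp (c * t) * F t := by
    intro c hc hcre
    have hint : IntegrableOn (fun t : ℝ => Complex.exp (c * t) * F t) (Set.Iic x) := by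
      refine hexpF c c.re (2 * c.re * |x|) (Set.Iic x) measurableSet_Iic hcre ?_
      intro t ht
      rw [Set.mem_Iic] at ht
      have h1 : t + |t| ≤ 2 * |x| := by
        rcases le_total t 0 with h | h
        · rw [abs_of_nonpos h]
          linarith [abs_nonneg x]
        · rw [abs_of_nonneg h]
          linarith [le_abs_self x]
      nlinarith
    refine ⟨hint, ?_⟩
    have ht := intervalIntegral_tendsto_integral_Iic x hint Filter.tendsto_id
    have h2 : Filter.Tendsto (fun a : ℝ => Complex.exp (c * a) * (g a - c * u a)) Filter.atBot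
        (nhds (Complex.exp (c * x) * (g x - c * u x) +
          ∫ t in Set.Iic x, Complex.exp (c * t) * F t)) := by
      have h3 := ht.const_add (Complex.exp (c * x) * (g x - c * u x))
      refine h3.congr fun a => ?_
      have := hW c hc a x
      simp only [id]
      linear_combination this
    set L := Complex.exp (c * x) * (g x - c * u x) +
          ∫ t in Set.Iic x, Complex.exp (c * t) * F t with hL
    have hL0 : L = 0 := by
      by_contra hne
      have hpos : 0 < ‖L‖ := norm_pos_iff.2 hne
      have h4 : ∀ᶠ a : ℝ in Filter.atBot, ‖L‖ / 2 < ‖Complex.exp (c * a) * (g a - c * u a)‖ :=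
        h2.norm.eventually_const_lt (by linarith)
      obtain ⟨T, hT⟩ := Filter.eventually_atBot.1 (h4.and (Filter.eventually_le_atBot 0))
      refine cx_resolvent_zero _ (hfL c) (‖L‖ / 2) (by linarith) (Set.Iic T)
        Real.volume_Iic fun t ht => ?_
      obtain ⟨h5, h6⟩ := hT t ht
      rw [norm_mul, Complex.norm_exp] at h5
      have h7 : (c * t).re = c.re * t := by simp
      rw [h7] at h5
      have h8 : Real.exp (c.re * t) ≤ 1 := Real.exp_le_one_iff.2 (by nlinarith)
      calc ‖L‖ / 2 ≤ Real.exp (c.re * t) * ‖g t - c * u t‖ := h5.le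
        _ ≤ 1 * ‖g t - c * u t‖ := mul_le_mul_of_nonneg_right h8 (norm_nonneg _)
        _ = _ := one_mul _
    linear_combination hL0
  -- right half line
  have hright : ∀ c : ℂ, c ^ 2 = - k ^ 2 → c.re < 0 →
      IntegrableOn (fun t : ℝ => Complex.exp (c * t) * F t) (Set.Ioi x) ∧
      Complex.exp (c * x) * (g x - c * u x) = ∫ t in Set.Ioi x, Complex.exp (c * t) * F t := by
    intro c hc hcre
    have hint : IntegrableOn (fun t : ℝ => Complex.exp (c * t) * F t) (Set.Ioi x) := by
      refine hexpF c (-c.re) (2 * (-c.re) * |x|) (Set.Ioi x) measurableSet_Ioi (by linarith) ?_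
      intro t ht
      rw [Set.mem_Ioi] at ht
      have h1 : |t| - t ≤ 2 * |x| := by
        rcases le_total t 0 with h | h
        · rw [abs_of_nonpos h]
          linarith [neg_abs_le x]
        · rw [abs_of_nonneg h]
          linarith [abs_nonneg x]
      nlinarith
    refine ⟨hint, ?_⟩
    have ht := intervalIntegral_tendsto_integral_Ioi x hint Filter.tendsto_id
    have h2 : Filter.Tendsto (fun a : ℝ => Complex.exp (c * a) * (g a - c * u a)) Filter.atTop
        (nhds (Complex.exp (c * x) * (g x - c * u x) -
          ∫ t in Set.Ioi x, Complex.exp (c * t) * F t)) := by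
      have h3 := ht.const_sub (Complex.exp (c * x) * (g x - c * u x))
      refine h3.congr fun a => ?_
      have := hW c hc x a
      simp only [id]
      linear_combination -this
    set L := Complex.exp (c * x) * (g x - c * u x) -
          ∫ t in Set.Ioi x, Complex.exp (c * t) * F t with hL
    have hL0 : L = 0 := by
      by_contra hne
      have hpos : 0 < ‖L‖ := norm_pos_iff.2 hne
      have h4 : ∀ᶠ a : ℝ in Filter.atTop, ‖L‖ / 2 < ‖Complex.exp (c * a) * (g a - c * u a)‖ :=
        h2.norm.eventually_const_lt (by linarith)
      obtain ⟨T, hT⟩ := Filter.eventually_atTop.1 (h4.and (Filter.eventually_ge_atTop 0))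
      refine cx_resolvent_zero _ (hfL c) (‖L‖ / 2) (by linarith) (Set.Ici T)
        Real.volume_Ici fun t ht => ?_
      obtain ⟨h5, h6⟩ := hT t ht
      rw [norm_mul, Complex.norm_exp] at h5
      have h7 : (c * t).re = c.re * t := by simp
      rw [h7] at h5
      have h8 : Real.exp (c.re * t) ≤ 1 := Real.exp_le_one_iff.2 (by nlinarith)
      calc ‖L‖ / 2 ≤ Real.exp (c.re * t) * ‖g t - c * u t‖ := h5.le
        _ ≤ 1 * ‖g t - c * u t‖ := mul_le_mul_of_nonneg_right h8 (norm_nonneg _)
        _ = _ := one_mul _
    linear_combination hL0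
  have hc1 : (-(Complex.I * k)) ^ 2 = - k ^ 2 := by
    rw [neg_sq, mul_pow, Complex.I_sq]; ring
  have hc2 : (Complex.I * k) ^ 2 = - k ^ 2 := by
    rw [mul_pow, Complex.I_sq]; ring
  obtain ⟨il, el⟩ := hleft (-(Complex.I * k)) hc1 (by simp; exact hk)
  obtain ⟨ir, er⟩ := hright (Complex.I * k) hc2 (by simp; exact hk)
  -- the kernel on the two half lines
  set Kf : ℝ → ℂ := fun t => (Complex.I / (2 * k) * Complex.exp (Complex.I * k * |x - t|)) * F t
    with hKf
  have kl : ∀ t ∈ Set.Iic x, Kf t = (Complex.I / (2 * k) * Complex.exp (Complex.I * k * x)) *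
      (Complex.exp (-(Complex.I * k) * t) * F t) := by
    intro t ht
    rw [Set.mem_Iic] at ht
    rw [hKf]
    simp only
    rw [abs_of_nonneg (by linarith : 0 ≤ x - t)]
    have : Complex.exp (Complex.I * k * ((x - t : ℝ) : ℂ)) =
        Complex.exp (Complex.I * k * x) * Complex.exp (-(Complex.I * k) * t) := by
      rw [← Complex.exp_add]
      congr 1
      push_cast
      ring
    rw [this]
    ring
  have kr : ∀ t ∈ Set.Ioi x, Kf t = (Complex.I / (2 * k) * Complex.exp (-(Complex.I * k) * x)) *
      (Complex.exp (Complex.I * k * t) * F t) := by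
    intro t ht
    rw [Set.mem_Ioi] at ht
    rw [hKf]
    simp only
    rw [abs_of_nonpos (by linarith : x - t ≤ 0)]
    have : Complex.exp (Complex.I * k * ((-(x - t) : ℝ) : ℂ)) =
        Complex.exp (-(Complex.I * k) * x) * Complex.exp (Complex.I * k * t) := by
      rw [← Complex.exp_add]
      congr 1
      push_cast
      ring
    rw [this]
    ring
  have il' : IntegrableOn Kf (Set.Iic x) :=
    (il.const_mul (Complex.I / (2 * k) * Complex.exp (Complex.I * k * x))).congr
      ((ae_restrict_iff' measurableSet_Iic).2 (Filter.Eventually.of_forall fun t ht => (kl t ht).symm))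
  have ir' : IntegrableOn Kf (Set.Ioi x) :=
    (ir.const_mul (Complex.I / (2 * k) * Complex.exp (-(Complex.I * k) * x))).congr
      ((ae_restrict_iff' measurableSet_Ioi).2 (Filter.Eventually.of_forall fun t ht => (kr t ht).symm))
  have iK : Integrable Kf := by
    rw [← integrableOn_univ, ← Set.Iic_union_Ioi (a := x)]
    exact il'.union ir'
  refine ⟨iK, ?_⟩
  have hsplit := integral_add_compl (μ := volume) (f := Kf) (measurableSet_Iic (a := x)) iK
  rw [Set.compl_Iic] at hsplit
  rw [← hsplit, setIntegral_congr_fun measurableSet_Iic kl,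
    setIntegral_congr_fun measurableSet_Ioi kr, integral_const_mul, integral_const_mul, ← er]
  have el' : ∫ t in Set.Iic x, Complex.exp (-(Complex.I * k) * t) * F t =
      - (Complex.exp (-(Complex.I * k) * x) * (g x - -(Complex.I * k) * u x)) := by
    rw [el, neg_neg]
  rw [el']
  have hE : Complex.exp (Complex.I * k * x) * Complex.exp (-(Complex.I * k) * x) = 1 := by
    rw [← Complex.exp_add]
    have : Complex.I * k * x + -(Complex.I * k) * x = 0 := by ring
    rw [this, Complex.exp_zero]
  have e1 : Complex.I / (2 * k) * Complex.exp (Complex.I * k * x) *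
      -(Complex.exp (-(Complex.I * k) * x) * (g x - -(Complex.I * k) * u x)) +
      Complex.I / (2 * k) * Complex.exp (-(Complex.I * k) * x) *
        (Complex.exp (Complex.I * k * x) * (g x - Complex.I * k * u x)) =
      (Complex.exp (Complex.I * k * x) * Complex.exp (-(Complex.I * k) * x)) *
        (Complex.I / (2 * k) * (-(2 * (Complex.I * k) * u x))) := by ring
  rw [e1, hE, one_mul]
  have e2 : Complex.I / (2 * k) * (-(2 * (Complex.I * k) * u x)) = - (Complex.I * Complex.I) * u x := by
    field_simp
  rw [e2, Complex.I_mul_I]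
  ring

end A11
end Pool.Agent.Helper209.CX
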