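import Mathlib

namespace Pool.Agent.Helper209.CX

namespace A12
open MeasureTheory

theorem cx_bounded_aux (f : ℝ → ℂ) (hf : MemLp f 2 volume) (x y : ℝ) (hxy : x ≤ y)
    (hy : y ≤ x + 1) : ∫ t in x..y, ‖f t‖ ≤ 1 / 2 + (∫ t, ‖f t‖ ^ 2) / 2 := by
  have hli : LocallyIntegrable f volume := hf.locallyIntegrable (by norm_num)
  have hii : IntervalIntegrable f volume x y := (hli.integrableOn_isCompact isCompact_uIcc).intervalIntegrable
  have hsq : Integrable (fun t => ‖f t‖ ^ 2) volume :=
    (memLp_two_iff_integrable_sq_norm hf.1).mp hf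
  have hsqi : IntervalIntegrable (fun t => ‖f t‖ ^ 2) volume x y := hsq.intervalIntegrable
  have h1 : ∫ t in x..y, ‖f t‖ ≤ ∫ t in x..y, ((1:ℝ) / 2 + ‖f t‖ ^ 2 / 2) := by
    apply intervalIntegral.integral_mono_on hxy hii.norm
    · exact (intervalIntegrable_const).add (hsqi.div_const 2)
    · intro t _
      nlinarith [sq_nonneg (‖f t‖ - 1)]
  have h2 : ∫ t in x..y, ((1:ℝ) / 2 + ‖f t‖ ^ 2 / 2) =
      (y - x) / 2 + (∫ t in x..y, ‖f t‖ ^ 2) / 2 := by
    rw [intervalIntegral.integral_add intervalIntegrable_const (hsqi.div_const 2),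
      intervalIntegral.integral_const, intervalIntegral.integral_div]
    simp only [smul_eq_mul]
    ring
  have h3 : ∫ t in x..y, ‖f t‖ ^ 2 ≤ ∫ t, ‖f t‖ ^ 2 := by
    rw [intervalIntegral.integral_of_le hxy]
    exact setIntegral_le_integral hsq (Filter.Eventually.of_forall (fun t => by positivity))
  linarith

theorem cx_bounded (u g : ℝ → ℂ) (hu : MemLp u 2 volume) (hg : MemLp g 2 volume)
    (hug : ∀ x y : ℝ, u y - u x = ∫ t in x..y, g t) :
    Continuous u ∧ ∃ M : ℝ, 0 ≤ M ∧ ∀ x, ‖u x‖ ≤ M := by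
  have hgl : LocallyIntegrable g volume := hg.locallyIntegrable (by norm_num)
  have hcont : Continuous u := by
    have h1 : u = fun y => u 0 + ∫ t in (0:ℝ)..y, g t := by
      funext y
      rw [← hug 0 y]; ring
    rw [h1]
    exact continuous_const.add
      (intervalIntegral.continuous_primitive (fun a b => (hgl.integrableOn_isCompact isCompact_uIcc).intervalIntegrable) 0)
  refine ⟨hcont, (1 / 2 + (∫ t, ‖u t‖ ^ 2) / 2) + (1 / 2 + (∫ t, ‖g t‖ ^ 2) / 2), ?_, ?_⟩
  · have h1 : 0 ≤ ∫ t, ‖u t‖ ^ 2 := integral_nonneg (fun t => by positivity)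
    have h2 : 0 ≤ ∫ t, ‖g t‖ ^ 2 := integral_nonneg (fun t => by positivity)
    positivity
  · intro x
    have h1 : ∀ y ∈ Set.Icc x (x + 1), ‖u x‖ ≤ ‖u y‖ + (1 / 2 + (∫ t, ‖g t‖ ^ 2) / 2) := by
      intro y hy
      have h2 : ‖u y - u x‖ ≤ 1 / 2 + (∫ t, ‖g t‖ ^ 2) / 2 := by
        rw [hug x y]
        exact (intervalIntegral.norm_integral_le_integral_norm hy.1).trans
          (cx_bounded_aux g hg x y hy.1 hy.2)
      have h3 : ‖u x‖ ≤ ‖u y‖ + ‖u y - u x‖ := by
        have : u x = u y - (u y - u x) := by ring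
        calc ‖u x‖ = ‖u y - (u y - u x)‖ := by rw [← this]
          _ ≤ _ := norm_sub_le _ _
      linarith
    have hx : x ≤ x + 1 := by linarith
    have h4 : ∫ _y in x..(x + 1), ‖u x‖ ≤
        ∫ y in x..(x + 1), (‖u y‖ + (1 / 2 + (∫ t, ‖g t‖ ^ 2) / 2)) := by
      apply intervalIntegral.integral_mono_on hx intervalIntegrable_const
      · exact (hcont.norm.intervalIntegrable _ _).add intervalIntegrable_const
      · exact h1
    rw [intervalIntegral.integral_const,
      intervalIntegral.integral_add (hcont.norm.intervalIntegrable _ _) intervalIntegrable_const,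
      intervalIntegral.integral_const] at h4
    simp only [smul_eq_mul, add_sub_cancel_left, one_mul] at h4
    have h5 := cx_bounded_aux u hu x (x + 1) hx le_rfl
    linarith

end A12
end Pool.Agent.Helper209.CX
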