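import Mathlib

namespace Pool.Agent.Helper209.CX

namespace A13
open MeasureTheory

theorem cx_onb_int {N : ℕ} (w : Fin N → ℝ → ℂ) (hw : ∀ i, MemLp (w i) 2 volume) (m n : Fin N) :
    Integrable (fun x => (starRingEnd ℂ) (w m x) * w n x) volume := by
  have h1 : MemLp (star (w m)) 2 volume := (hw m).star
  exact h1.integrable_mul (hw n)

theorem cx_onb_gen {N : ℕ} (w : Fin N → ℝ → ℂ) (hw : ∀ i, MemLp (w i) 2 volume)
    (c d : Fin N → ℂ) :
    ∫ x, (starRingEnd ℂ) (∑ m, c m * w m x) * (∑ m, d m * w m x) =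
      ∑ m, ∑ n, (starRingEnd ℂ) (c m) * d n * ∫ x, (starRingEnd ℂ) (w m x) * w n x := by
  have h1 : (fun x => (starRingEnd ℂ) (∑ m, c m * w m x) * (∑ m, d m * w m x)) =
      fun x => ∑ m, ∑ n, (starRingEnd ℂ) (c m) * d n * ((starRingEnd ℂ) (w m x) * w n x) := by
    funext x
    rw [map_sum, Finset.sum_mul_sum]
    refine Finset.sum_congr rfl fun m _ => Finset.sum_congr rfl fun n _ => ?_
    rw [map_mul]
    ring
  rw [h1, integral_finsetSum]
  · refine Finset.sum_congr rfl fun m _ => ?_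
    rw [integral_finsetSum]
    · refine Finset.sum_congr rfl fun n _ => ?_
      rw [integral_const_mul]
    · intro n _
      exact (cx_onb_int w hw m n).const_mul _
  · intro m _
    refine integrable_finsetSum _ fun n _ => ?_
    exact (cx_onb_int w hw m n).const_mul _

open scoped ComplexOrder MatrixOrder in
theorem cx_onb_pd {N : ℕ} (w : Fin N → ℝ → ℂ) (hw : ∀ i, MemLp (w i) 2 volume)
    (hli : ∀ c : Fin N → ℂ, (∀ᵐ x, ∑ i, c i * w i x = 0) → c = 0) :
    (Matrix.of fun i j => ∫ x, (starRingEnd ℂ) (w i x) * w j x :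
      Matrix (Fin N) (Fin N) ℂ).PosDef := by
  apply Matrix.PosDef.of_dotProduct_mulVec_pos
  · ext i j
    rw [Matrix.conjTranspose_apply, Matrix.of_apply, Matrix.of_apply]
    show (starRingEnd ℂ) (∫ x, (starRingEnd ℂ) (w j x) * w i x) = _
    rw [← integral_conj]
    congr 1
    funext x
    rw [map_mul, Complex.conj_conj, mul_comm]
  · intro c hc
    have h1 : star c ⬝ᵥ (Matrix.of (fun i j => ∫ x, (starRingEnd ℂ) (w i x) * w j x) :
        Matrix (Fin N) (Fin N) ℂ).mulVec c =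
        ∫ x, (starRingEnd ℂ) (∑ m, c m * w m x) * (∑ m, c m * w m x) := by
      rw [cx_onb_gen w hw c c]
      unfold dotProduct Matrix.mulVec dotProduct
      refine Finset.sum_congr rfl fun m _ => ?_
      rw [Finset.mul_sum]
      refine Finset.sum_congr rfl fun n _ => ?_
      show (starRingEnd ℂ) (c m) * ((∫ x, (starRingEnd ℂ) (w m x) * w n x) * c n) = _
      ring
    rw [h1]
    have h2 : ∀ x, (starRingEnd ℂ) (∑ m, c m * w m x) * (∑ m, c m * w m x) =
        ((‖∑ m, c m * w m x‖ ^ 2 : ℝ) : ℂ) := by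
      intro x
      rw [mul_comm, Complex.mul_conj, Complex.normSq_eq_norm_sq]
    simp only [h2]
    rw [integral_complex_ofReal]
    have hint : Integrable (fun x => ‖∑ m, c m * w m x‖ ^ 2) volume := by
      have h3 : MemLp (fun x => ∑ m, c m * w m x) 2 volume := by
        have := memLp_finsetSum (μ := volume) (p := 2) Finset.univ
          (f := fun m x => c m * w m x) (fun m _ => (hw m).const_mul (c m))
        simpa using this
      exact h3.integrable_norm_pow (by norm_num)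
    have h4 : 0 < ∫ x, ‖∑ m, c m * w m x‖ ^ 2 := by
      apply lt_of_le_of_ne (integral_nonneg fun x => by positivity)
      intro h5
      rw [eq_comm, integral_eq_zero_iff_of_nonneg (fun x => by positivity) hint] at h5
      apply hc
      apply hli
      filter_upwards [h5] with x hx
      have h6 : ‖∑ m, c m * w m x‖ ^ 2 = 0 := hx
      rw [sq_eq_zero_iff, norm_eq_zero] at h6
      exact h6
    exact_mod_cast h4

open scoped ComplexOrder MatrixOrder Matrix.Norms.L2Operator in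
theorem cx_onb_dec {N : ℕ} (G : Matrix (Fin N) (Fin N) ℂ) (hG : G.PosDef) :
    ∃ B : Matrix (Fin N) (Fin N) ℂ, G = Matrix.conjTranspose B * B ∧ IsUnit B := by
  obtain ⟨B, hB⟩ := CStarAlgebra.nonneg_iff_eq_star_mul_self.mp hG.posSemidef.nonneg
  refine ⟨B, hB, ?_⟩
  have h1 := hG.isUnit
  rw [hB, Matrix.isUnit_iff_isUnit_det, Matrix.det_mul] at h1
  rw [Matrix.isUnit_iff_isUnit_det]
  exact isUnit_of_mul_isUnit_right h1

theorem cx_onb (N : ℕ) (w : Fin N → ℝ → ℂ) (hw : ∀ i, MemLp (w i) 2 volume)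
    (hli : ∀ c : Fin N → ℂ, (∀ᵐ x, ∑ i, c i * w i x = 0) → c = 0) :
    ∃ C W : Matrix (Fin N) (Fin N) ℂ, C * W = 1 ∧ W * C = 1 ∧
      ∀ i j, ∫ x, (starRingEnd ℂ) (∑ m, C m i * w m x) * (∑ m, C m j * w m x) =
        if i = j then 1 else 0 := by
  obtain ⟨B, hB, hu⟩ := cx_onb_dec _ (cx_onb_pd w hw hli)
  rw [Matrix.isUnit_iff_isUnit_det] at hu
  refine ⟨B⁻¹, B, Matrix.nonsing_inv_mul B hu, Matrix.mul_nonsing_inv B hu, fun i j => ?_⟩
  rw [cx_onb_gen w hw (fun m => B⁻¹ m i) (fun m => B⁻¹ m j)]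
  have h1 : ∑ m, ∑ n, (starRingEnd ℂ) (B⁻¹ m i) * B⁻¹ n j *
      ∫ x, (starRingEnd ℂ) (w m x) * w n x =
      (Matrix.conjTranspose B⁻¹ * (Matrix.conjTranspose B * B) * B⁻¹) i j := by
    rw [← hB, Matrix.mul_apply]
    simp only [Matrix.mul_apply, Matrix.conjTranspose_apply, Matrix.of_apply, Finset.sum_mul]
    rw [Finset.sum_comm]
    refine Finset.sum_congr rfl fun n _ => Finset.sum_congr rfl fun m _ => ?_
    show (starRingEnd ℂ) (B⁻¹ m i) * B⁻¹ n j * _ = (starRingEnd ℂ) (B⁻¹ m i) * _ * B⁻¹ n j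
    ring
  rw [h1]
  have h2 : Matrix.conjTranspose B⁻¹ * (Matrix.conjTranspose B * B) * B⁻¹ = 1 := by
    have h3 : B * B⁻¹ = 1 := Matrix.mul_nonsing_inv B hu
    calc Matrix.conjTranspose B⁻¹ * (Matrix.conjTranspose B * B) * B⁻¹
        = (Matrix.conjTranspose B⁻¹ * Matrix.conjTranspose B) * (B * B⁻¹) := by
          simp only [Matrix.mul_assoc]
      _ = 1 := by
          rw [← Matrix.conjTranspose_mul, h3, Matrix.conjTranspose_one, Matrix.mul_one]
  rw [h2, Matrix.one_apply]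

end A13
end Pool.Agent.Helper209.CX
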