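import Mathlib
import Pool.Agent.Helper209.CX.Defs

namespace Pool.Agent.Helper209.CX

namespace A14
open MeasureTheory ENNReal









theorem cx_local (p : ℝ) (hp : 1 < p) (hp2 : p < 2) (Q : ℝ → ℝ) (hQm : Measurable Q)
    (hQ0 : ∀ x, 0 ≤ Q x) (hQ : Integrable (fun x => Q x ^ p)) (h : ℝ) (hh : 0 < h) :
    IntegrableOn Q {x | h < Q x} ∧ IntegrableOn (fun x => Q x ^ 2) {x | Q x ≤ h} ∧
    Integrable (fun x => Q x * min 1 (Q x / h)) ∧
    (∫ x, Q x * min 1 (Q x / h)) ≤ h ^ (1 - p) * ∫ x, Q x ^ p := by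
  have A : ∀ x, h < Q x → Q x ≤ h ^ (1 - p) * Q x ^ p := by
    intro x hx
    have hq : 0 < Q x := hh.trans hx
    have h1 : Q x ^ (1 - p) ≤ h ^ (1 - p) :=
      Real.rpow_le_rpow_of_nonpos hh hx.le (by linarith)
    calc Q x = Q x ^ (1 - p) * Q x ^ p := by
          rw [← Real.rpow_add hq]; simp
      _ ≤ h ^ (1 - p) * Q x ^ p := by gcongr
  have B : ∀ x, Q x ≤ h → Q x ^ 2 ≤ h ^ (2 - p) * Q x ^ p := by
    intro x hx
    rcases (hQ0 x).eq_or_lt with hq | hq
    · rw [← hq]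
      have : (0:ℝ) ^ p = 0 := Real.zero_rpow (by linarith)
      rw [this]; simp
    · have h1 : Q x ^ (2 - p) ≤ h ^ (2 - p) :=
        Real.rpow_le_rpow hq.le hx (by linarith)
      calc Q x ^ 2 = Q x ^ (2 - p) * Q x ^ p := by
            rw [← Real.rpow_add hq]; simp
        _ ≤ h ^ (2 - p) * Q x ^ p := by gcongr
  have C : ∀ x, Q x * min 1 (Q x / h) ≤ h ^ (1 - p) * Q x ^ p := by
    intro x
    by_cases hx : h < Q x
    · calc Q x * min 1 (Q x / h) ≤ Q x * 1 :=
            mul_le_mul_of_nonneg_left (min_le_left _ _) (hQ0 x)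
        _ = Q x := mul_one _
        _ ≤ _ := A x hx
    · push Not at hx
      calc Q x * min 1 (Q x / h) ≤ Q x * (Q x / h) :=
            mul_le_mul_of_nonneg_left (min_le_right _ _) (hQ0 x)
        _ = Q x ^ 2 * h⁻¹ := by field_simp
        _ ≤ (h ^ (2 - p) * Q x ^ p) * h⁻¹ := by
            have := B x hx
            gcongr
        _ = (h ^ (2 - p) * h ^ (-1 : ℝ)) * Q x ^ p := by
            rw [Real.rpow_neg_one]; ring
        _ = h ^ (1 - p) * Q x ^ p := by
            rw [← Real.rpow_add hh]; congr 2; ring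
  have hpos : ∀ x, 0 ≤ Q x * min 1 (Q x / h) := fun x =>
    mul_nonneg (hQ0 x) (le_min zero_le_one (div_nonneg (hQ0 x) hh.le))
  have hint : Integrable (fun x => Q x * min 1 (Q x / h)) := by
    refine (hQ.const_mul (h ^ (1 - p))).mono' ?_ (Filter.Eventually.of_forall fun x => ?_)
    · exact (hQm.mul (measurable_const.min (hQm.div_const h))).aestronglyMeasurable
    · rw [Real.norm_of_nonneg (hpos x)]; exact C x
  refine ⟨?_, ?_, hint, ?_⟩
  · refine ((hQ.const_mul (h ^ (1 - p))).integrableOn (s := {x | h < Q x})).mono'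
      hQm.aestronglyMeasurable ?_
    refine (ae_restrict_iff' (measurableSet_lt measurable_const hQm)).mpr
      (Filter.Eventually.of_forall fun x hx => ?_)
    rw [Real.norm_of_nonneg (hQ0 x)]; exact A x hx
  · refine ((hQ.const_mul (h ^ (2 - p))).integrableOn (s := {x | Q x ≤ h})).mono'
      (hQm.pow_const 2).aestronglyMeasurable ?_
    refine (ae_restrict_iff' (measurableSet_le hQm measurable_const)).mpr
      (Filter.Eventually.of_forall fun x hx => ?_)
    rw [Real.norm_of_nonneg (by positivity)]; exact B x hx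
  · rw [← integral_const_mul]
    exact integral_mono hint (hQ.const_mul _) C

theorem cx_exp_abs_integrable (ε : ℝ) (hε : 0 < ε) :
    Integrable (fun t : ℝ => Real.exp (-(ε * |t|))) := by
  rw [← integrableOn_univ, ← Set.Iic_union_Ioi (a := (0:ℝ))]
  refine IntegrableOn.union ?_ ?_
  · refine (integrableOn_exp_mul_Iic hε 0).congr_fun (fun t ht => ?_) measurableSet_Iic
    have ht' : t ≤ 0 := ht
    simp only [abs_of_nonpos ht']
    congr 1; ring
  · refine (exp_neg_integrableOn_Ioi 0 hε).congr_fun (fun t ht => ?_) measurableSet_Ioi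
    have ht' : 0 < t := ht
    simp only [abs_of_pos ht']
    congr 1; ring

theorem cx_prod_right (ε : ℝ) (hε : 0 < ε) (r : ℝ → ℝ) (hr : Integrable r) :
    Integrable (fun q : ℝ × ℝ => r q.2 * Real.exp (-(ε * |q.1 - q.2|))) := by
  have := Integrable.convolution_integrand (L := ContinuousLinearMap.mul ℝ ℝ)
    (μ := (volume : Measure ℝ)) (ν := (volume : Measure ℝ)) hr (cx_exp_abs_integrable ε hε)
  rw [Measure.volume_eq_prod]
  exact this

theorem cx_prod_left (ε : ℝ) (hε : 0 < ε) (r : ℝ → ℝ) (hr : Integrable r) :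
    Integrable (fun q : ℝ × ℝ => r q.1 * Real.exp (-(ε * |q.1 - q.2|))) := by
  have := (cx_prod_right ε hε r hr).swap
  refine this.congr (Filter.Eventually.of_forall fun q => ?_)
  simp only [Function.comp_apply, Prod.fst_swap, Prod.snd_swap, Prod.swap]
  rw [abs_sub_comm]

theorem cx_weight (p : ℝ) (hp : 1 < p) (Q : ℝ → ℝ) (hQm : Measurable Q)
    (hQ0 : ∀ x, 0 ≤ Q x) (hQ : Integrable (fun x => Q x ^ p))
    (v : ℝ → ℂ) (hv : Measurable v) (hvQ : ∀ x, ‖v x‖ ^ 2 ≤ Q x)
    (u : ℝ → ℂ) (hu : MemLp u 2 volume) (huc : Continuous u) (M : ℝ) (hM : ∀ x, ‖u x‖ ≤ M) :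
    MemLp (fun x => v x * u x) 2 volume ∧
    (∀ V : ℝ → ℂ, Measurable V → (∀ x, ‖V x‖ ≤ Q x) → ∀ ε : ℝ, 0 < ε →
      Integrable (fun t => Real.exp (-(ε * |t|)) * ‖V t * u t‖)) ∧
    (∀ ε : ℝ, 0 < ε → Integrable (fun t => Real.exp (-(ε * |t|)) * ‖u t‖)) ∧
    (∀ f : ℝ → ℂ, MemLp f 2 volume → ∀ ε : ℝ, 0 < ε → Integrable (fun q : ℝ × ℝ =>
      ‖(starRingEnd ℂ) (f q.1) * v q.1 * u q.2‖ * Real.exp (-(ε * |q.1 - q.2|)))) := by
  have hM0 : 0 ≤ M := (norm_nonneg _).trans (hM 0)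
  have Qp0 : ∀ x, 0 ≤ Q x ^ p := fun x => Real.rpow_nonneg (hQ0 x) p
  have Qle : ∀ x, Q x ≤ 1 + Q x ^ p := by
    intro x
    rcases le_total (Q x) 1 with hx | hx
    · linarith [Qp0 x]
    · have : Q x ^ (1:ℝ) ≤ Q x ^ p := Real.rpow_le_rpow_of_exponent_le hx hp.le
      rw [Real.rpow_one] at this
      linarith
  have hu2 : Integrable (fun x => ‖u x‖ ^ 2) :=
    (memLp_two_iff_integrable_sq_norm huc.aestronglyMeasurable).mp hu
  have um : Measurable u := huc.measurable
  have hexp := cx_exp_abs_integrable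
  have key : ∀ x y, ‖v x‖ ^ 2 * ‖u y‖ ^ 2 ≤ ‖u y‖ ^ 2 + M ^ 2 * Q x ^ p := by
    intro x y
    have h1 : ‖u y‖ ^ 2 ≤ M ^ 2 := pow_le_pow_left₀ (norm_nonneg _) (hM y) 2
    calc ‖v x‖ ^ 2 * ‖u y‖ ^ 2 ≤ (1 + Q x ^ p) * ‖u y‖ ^ 2 :=
          mul_le_mul_of_nonneg_right ((hvQ x).trans (Qle x)) (by positivity)
      _ = ‖u y‖ ^ 2 + ‖u y‖ ^ 2 * Q x ^ p := by ring
      _ ≤ ‖u y‖ ^ 2 + M ^ 2 * Q x ^ p := by
          have := mul_le_mul_of_nonneg_right h1 (Qp0 x)
          linarith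
  refine ⟨?_, ?_, ?_, ?_⟩
  · have hm : AEStronglyMeasurable (fun x => v x * u x) volume :=
      (hv.mul um).aestronglyMeasurable
    rw [memLp_two_iff_integrable_sq_norm hm]
    refine (hu2.add (hQ.const_mul (M ^ 2))).mono' ?_ (Filter.Eventually.of_forall fun x => ?_)
    · exact ((hv.mul um).norm.pow_const 2).aestronglyMeasurable
    · rw [Real.norm_of_nonneg (by positivity), norm_mul, mul_pow]
      exact key x x
  · intro V hV hVQ ε hε
    refine (((hexp ε hε).add hQ).const_mul M).mono' ?_ (Filter.Eventually.of_forall fun t => ?_)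
    · refine Measurable.aestronglyMeasurable ?_
      refine Measurable.mul ?_ (hV.mul um).norm
      fun_prop
    · rw [Real.norm_of_nonneg (by positivity), norm_mul]
      have e1 : Real.exp (-(ε * |t|)) ≤ 1 := by
        rw [Real.exp_le_one_iff]
        have := mul_nonneg hε.le (abs_nonneg t)
        linarith
      have e0 := Real.exp_pos (-(ε * |t|))
      have h1 : ‖V t‖ * ‖u t‖ ≤ (1 + Q t ^ p) * M :=
        mul_le_mul ((hVQ t).trans (Qle t)) (hM t) (norm_nonneg _)
          (by linarith [Qp0 t])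
      calc Real.exp (-(ε * |t|)) * (‖V t‖ * ‖u t‖)
          ≤ Real.exp (-(ε * |t|)) * ((1 + Q t ^ p) * M) :=
            mul_le_mul_of_nonneg_left h1 e0.le
        _ = M * (Real.exp (-(ε * |t|)) + Real.exp (-(ε * |t|)) * Q t ^ p) := by ring
        _ ≤ M * (Real.exp (-(ε * |t|)) + Q t ^ p) := by
            refine mul_le_mul_of_nonneg_left ?_ hM0
            have := mul_le_mul_of_nonneg_right e1 (Qp0 t)
            linarith
  · intro ε hε
    refine ((hexp ε hε).const_mul M).mono' ?_ (Filter.Eventually.of_forall fun t => ?_)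
    · refine Measurable.aestronglyMeasurable ?_
      refine Measurable.mul ?_ um.norm
      fun_prop
    · rw [Real.norm_of_nonneg (by positivity)]
      have := mul_le_mul_of_nonneg_left (hM t) (Real.exp_pos (-(ε * |t|))).le
      linarith
  · intro f hf ε hε
    have hf2 : Integrable (fun x => ‖f x‖ ^ 2) :=
      (memLp_two_iff_integrable_sq_norm hf.1).mp hf
    have I1 := cx_prod_left ε hε _ (hf2.add (hQ.const_mul (M ^ 2)))
    have I2 := cx_prod_right ε hε _ hu2
    refine (I1.add I2).mono' ?_ (Filter.Eventually.of_forall fun q => ?_)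
    · refine AEStronglyMeasurable.mul ?_ ?_
      · refine AEStronglyMeasurable.norm ?_
        refine AEStronglyMeasurable.mul (AEStronglyMeasurable.mul ?_ ?_) ?_
        · have : AEStronglyMeasurable (fun q : ℝ × ℝ => f q.1) (volume.prod volume) :=
            hf.1.comp_fst
          exact RCLike.continuous_conj.comp_aestronglyMeasurable this
        · exact (hv.comp measurable_fst).aestronglyMeasurable
        · exact (um.comp measurable_snd).aestronglyMeasurable
      · refine Measurable.aestronglyMeasurable ?_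
        fun_prop
    · rw [Real.norm_of_nonneg (by positivity)]
      simp only [Pi.add_apply, norm_mul, RCLike.norm_conj]
      have e0 := Real.exp_pos (-(ε * |q.1 - q.2|))
      have h1 := key q.1 q.2
      have h2 : ‖f q.1‖ * ‖v q.1‖ * ‖u q.2‖ ≤
          (‖f q.1‖ ^ 2 + ‖v q.1‖ ^ 2 * ‖u q.2‖ ^ 2) := by
        nlinarith [sq_nonneg (‖f q.1‖ - ‖v q.1‖ * ‖u q.2‖), sq_nonneg (‖f q.1‖),
          sq_nonneg (‖v q.1‖ * ‖u q.2‖), norm_nonneg (f q.1), norm_nonneg (v q.1)]
      have h3 : ‖f q.1‖ * ‖v q.1‖ * ‖u q.2‖ ≤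
          (‖f q.1‖ ^ 2 + M ^ 2 * Q q.1 ^ p) + ‖u q.2‖ ^ 2 := by linarith
      calc ‖f q.1‖ * ‖v q.1‖ * ‖u q.2‖ * Real.exp (-(ε * |q.1 - q.2|))
          ≤ ((‖f q.1‖ ^ 2 + M ^ 2 * Q q.1 ^ p) + ‖u q.2‖ ^ 2) *
              Real.exp (-(ε * |q.1 - q.2|)) := mul_le_mul_of_nonneg_right h3 e0.le
        _ = _ := by ring

end A14
end Pool.Agent.Helper209.CX
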