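import Mathlib
import Pool.Agent.Helper209.CX.Defs

namespace Pool.Agent.Helper209.CX

namespace A15
open MeasureTheory ENNReal









theorem cx_identity
    (resolvent : ∀ (k : ℂ) (_ : 0 < k.im) (u g F : ℝ → ℂ)
      (_ : MemLp u 2 volume) (_ : MemLp g 2 volume)
      (_ : ∀ x y : ℝ, u y - u x = ∫ t in x..y, g t)
      (_ : ∀ x y : ℝ, g y - g x = - ∫ t in x..y, (F t + k ^ 2 * u t))
      (_ : AEStronglyMeasurable F volume)
      (_ : ∀ ε : ℝ, 0 < ε → Integrable (fun t => Real.exp (-(ε * |t|)) * ‖F t‖)) (x : ℝ),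
      Integrable (fun t : ℝ => (Complex.I / (2 * k) * Complex.exp (Complex.I * k * |x - t|)) * F t) ∧
      u x = ∫ t : ℝ, (Complex.I / (2 * k) * Complex.exp (Complex.I * k * |x - t|)) * F t)
    (k : ℂ) (hk : 0 < k.im) (V v1 v2 : ℝ → ℂ) (hV : Measurable V) (hv1 : Measurable v1)
    (hv2 : Measurable v2) (hVv : ∀ x, V x = v2 x * v1 x)
    (N : ℕ) (u g : Fin N → ℝ → ℂ) (hu : ∀ j, MemLp (u j) 2 volume) (huc : ∀ j, Continuous (u j))
    (hg : ∀ j, MemLp (g j) 2 volume) (hug : ∀ j, ∀ x y : ℝ, u j y - u j x = ∫ t in x..y, g j t)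
    (A : Matrix (Fin N) (Fin N) ℂ)
    (heq : ∀ j, ∀ x y : ℝ, g j y - g j x = ∫ t in x..y, (V t * u j t - ∑ l, A l j * u l t))
    (hVu : ∀ j, ∀ ε : ℝ, 0 < ε → Integrable (fun t => Real.exp (-(ε * |t|)) * ‖V t * u j t‖))
    (huu : ∀ j, ∀ ε : ℝ, 0 < ε → Integrable (fun t => Real.exp (-(ε * |t|)) * ‖u j t‖))
    (f : Fin N → ℝ → ℂ) (hf : ∀ i, MemLp (f i) 2 volume)
    (ho : ∀ i j, ∫ x, (starRingEnd ℂ) (f i x) * f j x = if i = j then 1 else 0)
    (W : Matrix (Fin N) (Fin N) ℂ) (hW : ∀ j x, v1 x * u j x = ∑ m, f m x * W m j)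
    (hKint : ∀ i l, Integrable (fun p : ℝ × ℝ => (starRingEnd ℂ) (f i p.1) *
      (v1 p.1 * cxG k (p.1 - p.2) * v2 p.2) * f l p.2))
    (hΓint : ∀ i l, Integrable (fun p : ℝ × ℝ => (starRingEnd ℂ) (f i p.1) *
      (v1 p.1 * cxG k (p.1 - p.2)) * u l p.2)) :
    (1 + cxK k v1 v2 f) * W = cxΓ k v1 f u * (A - (k ^ 2) • (1 : Matrix (Fin N) (Fin N) ℂ)) := by
  classical
  ext i j
  obtain ⟨F, hF⟩ : ∃ F : ℝ → ℂ, F = fun t => ∑ l, A l j * u l t - k ^ 2 * u j t - V t * u j t := ⟨_, rfl⟩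
  have hFm : AEStronglyMeasurable F volume := by
    rw [hF]
    have h2 : AEStronglyMeasurable (fun t => ∑ l, A l j * u l t) (volume : Measure ℝ) :=
      Continuous.aestronglyMeasurable (continuous_finsetSum _ fun l _ => continuous_const.mul (huc l))
    have h3 : AEStronglyMeasurable (fun t => k ^ 2 * u j t) (volume : Measure ℝ) :=
      (continuous_const.mul (huc j)).aestronglyMeasurable
    have h4 : AEStronglyMeasurable (fun t => V t * u j t) (volume : Measure ℝ) :=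
      hV.aestronglyMeasurable.mul (huc j).aestronglyMeasurable
    exact (h2.sub h3).sub h4
  have key : ∀ ε : ℝ, 0 < ε → ∀ h : ℝ → ℂ, AEStronglyMeasurable h volume →
      Integrable (fun t => Real.exp (-(ε * |t|)) * ‖h t‖) →
      Integrable (fun t => ((Real.exp (-(ε*|t|)) : ℝ) : ℂ) * h t) := by
    intro ε hε h hm hi
    refine hi.mono ?_ ?_
    · exact (Continuous.aestronglyMeasurable (by fun_prop)).mul hm
    · filter_upwards with t
      rw [norm_mul, norm_mul, norm_norm, Complex.norm_real]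
  have hFe : ∀ ε : ℝ, 0 < ε → Integrable (fun t => Real.exp (-(ε * |t|)) * ‖F t‖) := by
    intro ε hε
    have hu' : ∀ l, Integrable (fun t => ((Real.exp (-(ε*|t|)) : ℝ) : ℂ) * u l t) :=
      fun l => key ε hε (u l) (huc l).aestronglyMeasurable (huu l ε hε)
    have hv' := key ε hε (fun t => V t * u j t)
      (hV.aestronglyMeasurable.mul (huc j).aestronglyMeasurable) (hVu j ε hε)
    have h1 : Integrable (fun t => ∑ l, A l j * (((Real.exp (-(ε*|t|)) : ℝ) : ℂ) * u l t)) :=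
      integrable_finsetSum _ fun l _ => (hu' l).const_mul _
    have h2 := ((h1.sub ((hu' j).const_mul (k^2))).sub hv').norm
    refine h2.congr ?_
    filter_upwards with t
    have e : (∑ l, A l j * (((Real.exp (-(ε*|t|)) : ℝ) : ℂ) * u l t)) -
        k^2 * (((Real.exp (-(ε*|t|)) : ℝ) : ℂ) * u j t) -
        ((Real.exp (-(ε*|t|)) : ℝ) : ℂ) * (V t * u j t) = ((Real.exp (-(ε*|t|)) : ℝ) : ℂ) * F t := by
      rw [hF]
      simp only
      rw [mul_sub, mul_sub, Finset.mul_sum]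
      congr 1
      congr 1
      · exact Finset.sum_congr rfl fun l _ => by ring
      · ring
    show ‖(∑ l, A l j * (((Real.exp (-(ε*|t|)) : ℝ) : ℂ) * u l t)) -
        k^2 * (((Real.exp (-(ε*|t|)) : ℝ) : ℂ) * u j t) -
        ((Real.exp (-(ε*|t|)) : ℝ) : ℂ) * (V t * u j t)‖ = Real.exp (-(ε * |t|)) * ‖F t‖
    rw [e, norm_mul, Complex.norm_real, Real.norm_of_nonneg (Real.exp_pos _).le]
  have hres : ∀ x : ℝ, Integrable (fun t : ℝ => cxG k (x - t) * F t) ∧
      u j x = ∫ t : ℝ, cxG k (x - t) * F t := by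
    intro x
    refine resolvent k hk (u j) (g j) F (hu j) (hg j) (hug j) ?_ hFm hFe x
    intro x y
    rw [heq j x y, ← intervalIntegral.integral_neg]
    congr 1
    funext t
    rw [hF]
    simp only
    ring
  -- the kernel function
  have hΦ : ∀ p : ℝ × ℝ, (starRingEnd ℂ) (f i p.1) * (v1 p.1 * cxG k (p.1 - p.2)) * F p.2 =
      (∑ l, ((starRingEnd ℂ) (f i p.1) * (v1 p.1 * cxG k (p.1 - p.2)) * u l p.2) *
        (A - (k ^ 2) • (1 : Matrix (Fin N) (Fin N) ℂ)) l j) -
      ∑ m, ((starRingEnd ℂ) (f i p.1) * (v1 p.1 * cxG k (p.1 - p.2) * v2 p.2) * f m p.2) * W m j := by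
    intro p
    have e1 : ∑ l, ((starRingEnd ℂ) (f i p.1) * (v1 p.1 * cxG k (p.1 - p.2)) * u l p.2) *
        (A - (k ^ 2) • (1 : Matrix (Fin N) (Fin N) ℂ)) l j =
        (starRingEnd ℂ) (f i p.1) * (v1 p.1 * cxG k (p.1 - p.2)) *
          (∑ l, A l j * u l p.2 - k ^ 2 * u j p.2) := by
      have e2 : ∀ l, ((starRingEnd ℂ) (f i p.1) * (v1 p.1 * cxG k (p.1 - p.2)) * u l p.2) *
        (A - (k ^ 2) • (1 : Matrix (Fin N) (Fin N) ℂ)) l j =
        (starRingEnd ℂ) (f i p.1) * (v1 p.1 * cxG k (p.1 - p.2)) * (A l j * u l p.2) -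
        (starRingEnd ℂ) (f i p.1) * (v1 p.1 * cxG k (p.1 - p.2)) * (if l = j then k ^ 2 * u l p.2 else 0) := by
        intro l
        rw [Matrix.sub_apply, Matrix.smul_apply, Matrix.one_apply, smul_eq_mul]
        split_ifs <;> ring
      rw [Finset.sum_congr rfl fun l _ => e2 l, Finset.sum_sub_distrib, ← Finset.mul_sum,
        ← Finset.mul_sum, Finset.sum_ite_eq' Finset.univ j]
      simp only [Finset.mem_univ, if_true]
      ring
    have e3 : ∑ m, ((starRingEnd ℂ) (f i p.1) * (v1 p.1 * cxG k (p.1 - p.2) * v2 p.2) * f m p.2) * W m j =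
        (starRingEnd ℂ) (f i p.1) * (v1 p.1 * cxG k (p.1 - p.2)) * (V p.2 * u j p.2) := by
      have e4 : V p.2 * u j p.2 = v2 p.2 * ∑ m, f m p.2 * W m j := by
        rw [hVv, mul_assoc, hW]
      rw [e4, Finset.mul_sum, Finset.mul_sum]
      exact Finset.sum_congr rfl fun m _ => by ring
    rw [e1, e3, hF]
    simp only
    ring
  have hI1 : ∀ l, Integrable (fun p : ℝ × ℝ => ((starRingEnd ℂ) (f i p.1) * (v1 p.1 * cxG k (p.1 - p.2)) * u l p.2) *
        (A - (k ^ 2) • (1 : Matrix (Fin N) (Fin N) ℂ)) l j) := fun l => (hΓint i l).mul_const _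
  have hI2 : ∀ m, Integrable (fun p : ℝ × ℝ => ((starRingEnd ℂ) (f i p.1) * (v1 p.1 * cxG k (p.1 - p.2) * v2 p.2) * f m p.2) * W m j) :=
    fun m => (hKint i m).mul_const _
  have hS1 := integrable_finsetSum (Finset.univ : Finset (Fin N)) fun l _ => hI1 l
  have hS2 := integrable_finsetSum (Finset.univ : Finset (Fin N)) fun m _ => hI2 m
  have hint : Integrable (fun p : ℝ × ℝ => (starRingEnd ℂ) (f i p.1) * (v1 p.1 * cxG k (p.1 - p.2)) * F p.2) := by
    refine (hS1.sub hS2).congr ?_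
    filter_upwards with p
    rw [hΦ p]
    rfl
  have hval : ∫ p : ℝ × ℝ, (starRingEnd ℂ) (f i p.1) * (v1 p.1 * cxG k (p.1 - p.2)) * F p.2 =
      (∑ l, cxΓ k v1 f u i l * (A - (k ^ 2) • (1 : Matrix (Fin N) (Fin N) ℂ)) l j) -
      ∑ m, cxK k v1 v2 f i m * W m j := by
    rw [integral_congr_ae (Filter.Eventually.of_forall hΦ)]
    rw [integral_sub hS1 hS2, integral_finsetSum _ fun l _ => hI1 l, integral_finsetSum _ fun m _ => hI2 m]
    congr 1
    · refine Finset.sum_congr rfl fun l _ => ?_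
      rw [integral_mul_const]
      rfl
    · refine Finset.sum_congr rfl fun m _ => ?_
      rw [integral_mul_const]
      rfl
  have hval2 : ∫ p : ℝ × ℝ, (starRingEnd ℂ) (f i p.1) * (v1 p.1 * cxG k (p.1 - p.2)) * F p.2 = W i j := by
    rw [Measure.volume_eq_prod] at hint ⊢
    rw [integral_prod _ hint]
    have e5 : ∀ x : ℝ, ∫ t : ℝ, (starRingEnd ℂ) (f i x) * (v1 x * cxG k (x - t)) * F t =
        ∑ m, ((starRingEnd ℂ) (f i x) * f m x) * W m j := by
      intro x
      have e6 : ∀ t : ℝ, (starRingEnd ℂ) (f i x) * (v1 x * cxG k (x - t)) * F t =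
          ((starRingEnd ℂ) (f i x) * v1 x) * (cxG k (x - t) * F t) := fun t => by ring
      rw [integral_congr_ae (Filter.Eventually.of_forall e6), integral_const_mul, ← (hres x).2,
        mul_assoc, hW, Finset.mul_sum]
      exact Finset.sum_congr rfl fun m _ => by ring
    rw [integral_congr_ae (Filter.Eventually.of_forall e5)]
    have hI3 : ∀ m, Integrable (fun x : ℝ => ((starRingEnd ℂ) (f i x) * f m x) * W m j) := by
      intro m
      apply Integrable.mul_const
      exact (hf i).star.integrable_mul (hf m)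
    rw [integral_finsetSum _ fun m _ => hI3 m]
    rw [Finset.sum_congr rfl fun m _ => integral_mul_const (W m j) (fun x => (starRingEnd ℂ) (f i x) * f m x)]
    rw [Finset.sum_congr rfl fun m _ => by rw [ho i m]]
    simp
  rw [hval2] at hval
  rw [Matrix.add_mul, Matrix.one_mul, Matrix.add_apply, Matrix.mul_apply, Matrix.mul_apply, hval]
  ring

end A15
end Pool.Agent.Helper209.CX
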