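import Mathlib

namespace Pool.Agent.Helper209.CX

namespace A16
open MeasureTheory

theorem cx_jensen_disc (c : ℂ) (R : ℝ) (hR : 0 < R) (f h : ℂ → ℂ)
    (hf : AnalyticOnNhd ℂ f (Metric.closedBall c R)) (hh : AnalyticOnNhd ℂ h (Metric.closedBall c R))
    (n : ℕ) (z : Fin n → ℂ) (hz : ∀ i, z i ∈ Metric.ball c R)
    (hfac : ∀ w ∈ Metric.closedBall c R, f w = h w * ∏ i, (w - z i)) (hfc : f c ≠ 0) :
    CircleIntegrable (fun w => Real.log ‖f w‖) c R ∧
    Real.log ‖f c‖ + ∑ i, Real.log (R / ‖c - z i‖) ≤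
      Real.circleAverage (fun w => Real.log ‖f w‖) c R := by
  have hRa : |R| = R := abs_of_pos hR
  have hfs : MeromorphicOn f (Metric.sphere c |R|) := by
    rw [hRa]
    exact (hf.mono Metric.sphere_subset_closedBall).meromorphicOn
  have hhs : MeromorphicOn h (Metric.sphere c |R|) := by
    rw [hRa]
    exact (hh.mono Metric.sphere_subset_closedBall).meromorphicOn
  refine ⟨hfs.circleIntegrable_log_norm, ?_⟩
  have hcc : c ∈ Metric.closedBall c R := Metric.mem_closedBall_self hR.le
  have hfc' := hfac c hcc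
  have hhc : h c ≠ 0 := by
    intro h0
    rw [h0, zero_mul] at hfc'
    exact hfc hfc'
  have hpc : ∏ i, (c - z i) ≠ 0 := by
    intro h0
    rw [h0, mul_zero] at hfc'
    exact hfc hfc'
  have hzc : ∀ i, c - z i ≠ 0 := fun i => (Finset.prod_ne_zero_iff.mp hpc) i (Finset.mem_univ i)
  -- codiscreteness of the nonvanishing set of `h`
  have hcod : h ⁻¹' {0}ᶜ ∈ Filter.codiscreteWithin (Metric.closedBall c R) :=
    AnalyticOnNhd.preimage_zero_mem_codiscreteWithin (x := c) hh hhc hcc
      ⟨⟨c, hcc⟩, (convex_closedBall c R).isPreconnected⟩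
  have hcod2 : h ⁻¹' {0}ᶜ ∈ Filter.codiscreteWithin (Metric.sphere c |R|) := by
    rw [hRa]
    exact Filter.codiscreteWithin_mono Metric.sphere_subset_closedBall hcod
  have hlog : (fun w => Real.log ‖f w‖) =ᶠ[Filter.codiscreteWithin (Metric.sphere c |R|)]
      (fun w => Real.log ‖h w‖ + ∑ i, Real.log ‖w - z i‖) := by
    filter_upwards [hcod2, Filter.self_mem_codiscreteWithin (Metric.sphere c |R|)] with w hw1 hw2
    rw [hRa] at hw2
    have hw3 : h w ≠ 0 := hw1
    have hne : ∀ i, w - z i ≠ 0 := by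
      intro i h0
      have h1 := hz i
      rw [sub_eq_zero] at h0
      rw [← h0, Metric.mem_ball] at h1
      rw [Metric.mem_sphere] at hw2
      linarith
    rw [hfac w (Metric.sphere_subset_closedBall hw2), norm_mul, norm_prod,
      Real.log_mul (norm_ne_zero_iff.mpr hw3)
        (Finset.prod_ne_zero_iff.mpr fun i _ => norm_ne_zero_iff.mpr (hne i)),
      Real.log_prod (fun i _ => norm_ne_zero_iff.mpr (hne i))]
  rw [Real.circleAverage_congr_codiscreteWithin hlog hR.ne']
  have hi1 : CircleIntegrable (fun w => Real.log ‖h w‖) c R := hhs.circleIntegrable_log_norm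
  have hi2 : ∀ i ∈ (Finset.univ : Finset (Fin n)),
      CircleIntegrable (fun w => Real.log ‖w - z i‖) c R :=
    fun i _ => circleIntegrable_log_norm_sub_const R
  have hi3 : CircleIntegrable (fun w => ∑ i, Real.log ‖w - z i‖) c R :=
    CircleIntegrable.fun_sum _ hi2
  rw [Real.circleAverage_fun_add hi1 hi3, Real.circleAverage_fun_sum hi2]
  have e1 : ∀ i, Real.circleAverage (fun w => Real.log ‖w - z i‖) c R = Real.log R := by
    intro i
    apply circleAverage_log_norm_sub_const_of_mem_closedBall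
    rw [hRa]
    exact Metric.ball_subset_closedBall (hz i)
  have e2 : Real.log ‖h c‖ ≤ Real.circleAverage (fun w => Real.log ‖h w‖) c R := by
    have hh' : AnalyticOnNhd ℂ h (Metric.closedBall c |R|) := by rw [hRa]; exact hh
    have hJ := AnalyticOnNhd.circleAverage_log_norm hR.ne' hh' hhc
    rw [hJ]
    have : 0 ≤ ∑ᶠ u, (MeromorphicOn.divisor h (Metric.closedBall c |R|) u : ℝ) *
        Real.log (R * ‖c - u‖⁻¹) := by
      apply finsum_nonneg
      intro u
      by_cases hu : u ∈ Metric.closedBall c |R|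
      · refine mul_nonneg (mod_cast MeromorphicOn.AnalyticOnNhd.divisor_nonneg hh' u) ?_
        by_cases hcu : c = u
        · subst hcu
          simp
        · apply Real.log_nonneg
          rw [hRa] at hu
          rw [Metric.mem_closedBall, dist_comm, dist_eq_norm] at hu
          have hpos : 0 < ‖c - u‖ := norm_pos_iff.mpr (sub_ne_zero.mpr hcu)
          rw [← div_eq_mul_inv, one_le_div hpos]
          exact hu
      · rw [Function.locallyFinsuppWithin.apply_eq_zero_of_notMem _ hu]
        simp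
    linarith
  have e3 : Real.log ‖f c‖ = Real.log ‖h c‖ + ∑ i, Real.log ‖c - z i‖ := by
    rw [hfc', norm_mul, norm_prod, Real.log_mul (norm_ne_zero_iff.mpr hhc)
        (Finset.prod_ne_zero_iff.mpr fun i _ => norm_ne_zero_iff.mpr (hzc i)),
      Real.log_prod (fun i _ => norm_ne_zero_iff.mpr (hzc i))]
  have e4 : ∀ i, Real.log (R / ‖c - z i‖) = Real.log R - Real.log ‖c - z i‖ := fun i =>
    Real.log_div hR.ne' (norm_ne_zero_iff.mpr (hzc i))
  simp only [e1, e4, Finset.sum_sub_distrib]
  rw [e3]
  linarith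

end A16
end Pool.Agent.Helper209.CX
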