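import Mathlib

namespace Pool.Agent.Helper209.CX

namespace A17
open MeasureTheory ENNReal

/-- the part of the circle near the bottom -/
def cxhN : Set ℝ := {θ | θ ∈ Set.Ioc (0:ℝ) (2 * Real.pi) ∧ Real.sin θ < -(1 / 2)}

theorem cxhN_meas : MeasurableSet cxhN := by
  have h2 : MeasurableSet {θ : ℝ | Real.sin θ < -(1 / 2)} :=
    (isOpen_lt Real.continuous_sin continuous_const).measurableSet
  exact measurableSet_Ioc.inter h2

theorem cxhN_gt {θ : ℝ} (h : θ ∈ cxhN) : Real.pi < θ := by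
  by_contra hcon
  push Not at hcon
  have h1 := Real.sin_nonneg_of_nonneg_of_le_pi h.1.1.le hcon
  have h2 := h.2
  linarith

theorem cxhN_inj (R : ℝ) (hR : 0 < R) : Set.InjOn (fun θ : ℝ => R * Real.cos θ) cxhN := by
  intro a ha b hb hab
  have h1 : Real.cos a = Real.cos b := mul_left_cancel₀ hR.ne' hab
  have ha1 := cxhN_gt ha
  have hb1 := cxhN_gt hb
  have h2 : Real.cos (2 * Real.pi - a) = Real.cos (2 * Real.pi - b) := by
    rw [Real.cos_two_pi_sub, Real.cos_two_pi_sub, h1]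
  have h3 := Real.injOn_cos ⟨by linarith [ha.1.2], by linarith⟩
    ⟨by linarith [hb.1.2], by linarith⟩ h2
  linarith

theorem cxh_cv (R : ℝ) (hR : 0 < R) (B : ℝ → ℝ≥0∞) :
    ∫⁻ θ in cxhN, ENNReal.ofReal R * B (R * Real.cos θ) ≤ 2 * ∫⁻ x, B x := by
  have h1 : ∀ θ ∈ cxhN, ENNReal.ofReal R * B (R * Real.cos θ) ≤
      2 * (ENNReal.ofReal |R * (-Real.sin θ)| * B (R * Real.cos θ)) := by
    intro θ hθ
    rw [← mul_assoc]
    have h2 : R ≤ 2 * |R * (-Real.sin θ)| := by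
      have h3 : 0 ≤ -Real.sin θ := by linarith [hθ.2]
      rw [abs_of_nonneg (mul_nonneg hR.le h3)]
      have h4 : 1 / 2 ≤ -Real.sin θ := by linarith [hθ.2]
      nlinarith
    have h5 : ENNReal.ofReal R ≤ 2 * ENNReal.ofReal |R * (-Real.sin θ)| := by
      calc ENNReal.ofReal R ≤ ENNReal.ofReal (2 * |R * (-Real.sin θ)|) :=
            ENNReal.ofReal_le_ofReal h2
        _ = 2 * ENNReal.ofReal |R * (-Real.sin θ)| := by
            rw [ENNReal.ofReal_mul (by norm_num), ENNReal.ofReal_ofNat]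
    gcongr
  calc ∫⁻ θ in cxhN, ENNReal.ofReal R * B (R * Real.cos θ)
      ≤ ∫⁻ θ in cxhN, 2 * (ENNReal.ofReal |R * (-Real.sin θ)| * B (R * Real.cos θ)) :=
        setLIntegral_mono' cxhN_meas h1
    _ = 2 * ∫⁻ θ in cxhN, ENNReal.ofReal |R * (-Real.sin θ)| * B (R * Real.cos θ) :=
        lintegral_const_mul' 2 _ (by norm_num)
    _ = 2 * ∫⁻ x in (fun θ : ℝ => R * Real.cos θ) '' cxhN, B x := by
        rw [lintegral_image_eq_lintegral_abs_deriv_mul cxhN_meas
          (fun θ _ => ((Real.hasDerivAt_cos θ).const_mul R).hasDerivWithinAt) (cxhN_inj R hR)]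
    _ ≤ 2 * ∫⁻ x, B x := by
        gcongr
        exact Measure.restrict_le_self

theorem cxh_int {G : ℝ → ℝ} {s : Set ℝ} (hG : IntegrableOn G s) {C : ℝ≥0∞} (hC : C ≠ ∞)
    (h : ∫⁻ θ in s, ENNReal.ofReal (G θ) ≤ C) : ∫ θ in s, G θ ≤ C.toReal := by
  have h1 : ∫ θ in s, G θ ≤ ∫ θ in s, max (G θ) 0 :=
    integral_mono hG hG.pos_part (fun θ => le_max_left _ _)
  have h2 : ∫ θ in s, max (G θ) 0 = (∫⁻ θ in s, ENNReal.ofReal (max (G θ) 0)).toReal :=
    integral_eq_lintegral_of_nonneg_ae (Filter.Eventually.of_forall fun θ => le_max_right _ _)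
      hG.pos_part.aestronglyMeasurable
  have h3 : ∀ θ, ENNReal.ofReal (max (G θ) 0) = ENNReal.ofReal (G θ) := by
    intro θ
    rcases le_total (G θ) 0 with h | h
    · rw [max_eq_right h, ENNReal.ofReal_zero, ENNReal.ofReal_of_nonpos h]
    · rw [max_eq_left h]
  simp_rw [h3] at h2
  rw [h2] at h1
  exact h1.trans (ENNReal.toReal_mono hC h)

theorem cxh_re (η R : ℝ) : (Complex.I * ((η : ℂ) + (R : ℂ))).re = 0 := by
  simp

theorem cxh_im (η R : ℝ) : (Complex.I * ((η : ℂ) + (R : ℂ))).im = η + R := by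
  simp

theorem cxh_mre (η R θ : ℝ) :
    (circleMap (Complex.I * ((η : ℂ) + (R : ℂ))) R θ).re = R * Real.cos θ := by
  unfold circleMap
  rw [Complex.add_re, Complex.re_ofReal_mul, Complex.exp_ofReal_mul_I_re, cxh_re, zero_add]

theorem cxh_mim (η R θ : ℝ) :
    (circleMap (Complex.I * ((η : ℂ) + (R : ℂ))) R θ).im = η + R + R * Real.sin θ := by
  unfold circleMap
  rw [Complex.add_im, Complex.im_ofReal_mul, Complex.exp_ofReal_mul_I_im, cxh_im]

theorem cxh_ball {η R : ℝ} {w : ℂ}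
    (hw : w ∈ Metric.closedBall (Complex.I * ((η : ℂ) + (R : ℂ))) R) : η ≤ w.im := by
  rw [Metric.mem_closedBall, dist_eq_norm] at hw
  have h1 := (Complex.abs_im_le_norm (w - Complex.I * ((η : ℂ) + (R : ℂ)))).trans hw
  rw [Complex.sub_im, cxh_im] at h1
  have := (abs_le.1 h1).1
  linarith

theorem cxh_nsq (η R : ℝ) (z : ℂ) : ‖Complex.I * ((η : ℂ) + (R : ℂ)) - z‖ ^ 2 =
    R ^ 2 - 2 * R * (z.im - η) + (z.re ^ 2 + (z.im - η) ^ 2) := by
  rw [← Complex.normSq_eq_norm_sq, Complex.normSq_apply, Complex.sub_re, Complex.sub_im, cxh_re,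
    cxh_im]
  ring

theorem cxh_log {η R : ℝ} (hR : 0 < R) {z : ℂ} (hz : z.im - η < R) :
    (z.im - η) - (z.re ^ 2 + (z.im - η) ^ 2) / (2 * R) ≤
      R * Real.log (R / ‖Complex.I * ((η : ℂ) + (R : ℂ)) - z‖) := by
  set c : ℂ := Complex.I * ((η : ℂ) + (R : ℂ)) with hc
  have hpos : 0 < ‖c - z‖ := by
    rw [norm_pos_iff]
    intro h0
    have h1 := congrArg Complex.im h0
    rw [Complex.sub_im, hc, cxh_im, Complex.zero_im] at h1
    linarith
  have h1 : Real.log (R / ‖c - z‖) = -(1 / 2) * Real.log (‖c - z‖ ^ 2 / R ^ 2) := by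
    rw [Real.log_div hR.ne' hpos.ne', Real.log_div (by positivity) (by positivity), Real.log_pow,
      Real.log_pow]
    push_cast
    ring
  have h2 : Real.log (‖c - z‖ ^ 2 / R ^ 2) ≤ ‖c - z‖ ^ 2 / R ^ 2 - 1 :=
    Real.log_le_sub_one_of_pos (by positivity)
  have h3 := cxh_nsq η R z
  rw [← hc] at h3
  rw [h3] at h2
  rw [h1, h3]
  have h4 : (R ^ 2 - 2 * R * (z.im - η) + (z.re ^ 2 + (z.im - η) ^ 2)) / R ^ 2 - 1 =
      (-(2 * R * (z.im - η)) + (z.re ^ 2 + (z.im - η) ^ 2)) / R ^ 2 := by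
    field_simp
    ring
  rw [h4] at h2
  have h5 : R * (-(1 / 2) * ((-(2 * R * (z.im - η)) + (z.re ^ 2 + (z.im - η) ^ 2)) / R ^ 2)) =
      (z.im - η) - (z.re ^ 2 + (z.im - η) ^ 2) / (2 * R) := by
    field_simp
    ring
  rw [← h5]
  have h6 := mul_le_mul_of_nonneg_left h2 (by positivity : (0:ℝ) ≤ R * (1 / 2))
  linarith

theorem cxh_lint {f : ℂ → ℂ} {η R ε R₁ : ℝ} {B : ℝ → ℝ≥0∞} (hη : 0 < η) (hε : 0 < ε)
    (hR : 0 < R) (hR1 : 2 * R₁ ≤ R)
    (hup : ∀ w : ℂ, η ≤ w.im → ENNReal.ofReal (Real.log ‖f w‖) ≤ B w.re)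
    (hfar : ∀ w : ℂ, R₁ ≤ ‖w‖ → ‖w‖ ≤ 8 * w.im → Real.log ‖f w‖ ≤ ε / ‖w‖) :
    ∫⁻ θ in Set.Ioc (0:ℝ) (2 * Real.pi),
      ENNReal.ofReal (R * Real.log ‖f (circleMap (Complex.I * ((η : ℂ) + (R : ℂ))) R θ)‖) ≤
      ENNReal.ofReal (2 * ε) * ENNReal.ofReal (2 * Real.pi) + 2 * ∫⁻ x, B x := by
  have hpt : ∀ θ ∈ Set.Ioc (0:ℝ) (2 * Real.pi),
      ENNReal.ofReal (R * Real.log ‖f (circleMap (Complex.I * ((η : ℂ) + (R : ℂ))) R θ)‖) ≤
      ENNReal.ofReal (2 * ε) +
        cxhN.indicator (fun θ => ENNReal.ofReal R * B (R * Real.cos θ)) θ := by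
    intro θ hθ
    have hre := cxh_mre η R θ
    have him := cxh_mim η R θ
    set w := circleMap (Complex.I * ((η : ℂ) + (R : ℂ))) R θ with hw
    by_cases hN : θ ∈ cxhN
    · rw [Set.indicator_of_mem hN, ENNReal.ofReal_mul hR.le]
      refine le_trans ?_ le_add_self
      have h1 : η ≤ w.im := by
        rw [him]
        have := Real.neg_one_le_sin θ
        nlinarith
      have h2 := hup w h1
      rw [hre] at h2
      gcongr
    · rw [Set.indicator_of_notMem hN, add_zero]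
      refine ENNReal.ofReal_le_ofReal ?_
      have hs : -(1 / 2) ≤ Real.sin θ := by
        by_contra hcon
        push Not at hcon
        exact hN ⟨hθ, hcon⟩
      have h1 : R / 2 ≤ w.im := by
        rw [him]
        nlinarith
      have h2 : w.im ≤ ‖w‖ := (le_abs_self _).trans (Complex.abs_im_le_norm w)
      have h3 : ‖w‖ ≤ 8 * w.im := by
        have h4 := Complex.norm_le_abs_re_add_abs_im w
        have h5 : |w.re| ≤ R := by
          rw [hre, abs_mul, abs_of_pos hR]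
          have := Real.abs_cos_le_one θ
          nlinarith
        have h6 : |w.im| = w.im := abs_of_nonneg (by linarith)
        rw [h6] at h4
        linarith
      have h4 := hfar w (by linarith) h3
      have hwpos : 0 < ‖w‖ := by linarith
      have h5 : ε / ‖w‖ ≤ 2 * ε / R := by
        rw [div_le_div_iff₀ hwpos hR]
        nlinarith
      calc R * Real.log ‖f w‖ ≤ R * (2 * ε / R) :=
            mul_le_mul_of_nonneg_left (h4.trans h5) hR.le
        _ = 2 * ε := by field_simp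
  refine (setLIntegral_mono' measurableSet_Ioc hpt).trans ?_
  rw [lintegral_add_left measurable_const]
  refine add_le_add (le_of_eq ?_) ?_
  · rw [lintegral_const, Measure.restrict_apply_univ, Real.volume_Ioc, sub_zero]
  · refine (setLIntegral_le_lintegral _ _).trans ?_
    rw [lintegral_indicator cxhN_meas]
    exact cxh_cv R hR B

theorem cx_halfplane
    (jensen : ∀ (c : ℂ) (R : ℝ) (_ : 0 < R) (f h : ℂ → ℂ)
      (_ : AnalyticOnNhd ℂ f (Metric.closedBall c R)) (_ : AnalyticOnNhd ℂ h (Metric.closedBall c R))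
      (n : ℕ) (z : Fin n → ℂ) (_ : ∀ i, z i ∈ Metric.ball c R)
      (_ : ∀ w ∈ Metric.closedBall c R, f w = h w * ∏ i, (w - z i)) (_ : f c ≠ 0),
      CircleIntegrable (fun w => Real.log ‖f w‖) c R ∧
      Real.log ‖f c‖ + ∑ i, Real.log (R / ‖c - z i‖) ≤
        Real.circleAverage (fun w => Real.log ‖f w‖) c R)
    (f h : ℂ → ℂ) (hf : DifferentiableOn ℂ f {z : ℂ | 0 < z.im})
    (hh : DifferentiableOn ℂ h {z : ℂ | 0 < z.im}) (n : ℕ) (z : Fin n → ℂ) (η : ℝ) (hη : 0 < η)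
    (hz : ∀ i, η < (z i).im) (hfac : ∀ w : ℂ, 0 < w.im → f w = h w * ∏ i, (w - z i))
    (B : ℝ → ℝ≥0∞) (hB : Measurable B)
    (hup : ∀ w : ℂ, η ≤ w.im → ENNReal.ofReal (Real.log ‖f w‖) ≤ B w.re)
    (hfar : ∀ ε : ℝ, 0 < ε → ∃ R₀ : ℝ, ∀ w : ℂ, R₀ ≤ ‖w‖ → ‖w‖ ≤ 8 * w.im →
      Real.log ‖f w‖ ≤ ε / ‖w‖)
    (hcen : ∀ ε : ℝ, 0 < ε → ∃ R₀ : ℝ, ∀ R : ℝ, R₀ ≤ R →
      f (Complex.I * (η + R)) ≠ 0 ∧ -(ε / R) ≤ Real.log ‖f (Complex.I * (η + R))‖) :
    ENNReal.ofReal (∑ i, ((z i).im - η)) ≤ ∫⁻ x, B x := by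
  classical
  by_cases htop : ∫⁻ x, B x = ∞
  · rw [htop]; exact le_top
  set b : ℝ := (∫⁻ x, B x).toReal with hb
  have hb0 : 0 ≤ b := ENNReal.toReal_nonneg
  rw [← ENNReal.ofReal_toReal htop]
  refine ENNReal.ofReal_le_ofReal ?_
  rw [← hb]
  refine le_of_forall_pos_le_add fun ε' hε' => ?_
  set ε : ℝ := ε' / 4 with hε
  have hε0 : 0 < ε := by positivity
  obtain ⟨R₁, hR₁⟩ := hfar ε hε0
  obtain ⟨R₂, hR₂⟩ := hcen ε hε0
  set u : Fin n → ℝ := fun i => (z i).im - η with hu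
  have hu0 : ∀ i, 0 < u i := fun i => by have := hz i; simp only [hu]; linarith
  set k : Fin n → ℝ := fun i => (z i).re ^ 2 + ((z i).im - η) ^ 2 with hk
  have hk0 : ∀ i, 0 ≤ k i := fun i => by simp only [hk]; positivity
  have hK0 : 0 ≤ ∑ i, k i := Finset.sum_nonneg fun i _ => hk0 i
  have hM0 : ∀ i, 0 ≤ k i / (2 * u i) + u i := fun i => by
    have h1 := hu0 i
    have h2 := hk0 i
    positivity
  have hMs : ∀ i, k i / (2 * u i) + u i ≤ ∑ i, (k i / (2 * u i) + u i) := fun i =>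
    Finset.single_le_sum (f := fun i => k i / (2 * u i) + u i) (fun i _ => hM0 i)
      (Finset.mem_univ i)
  have hM00 : 0 ≤ ∑ i, (k i / (2 * u i) + u i) := Finset.sum_nonneg fun i _ => hM0 i
  set R : ℝ := 1 + |2 * R₁| + |R₂| + (∑ i, k i) / (2 * ε) + ∑ i, (k i / (2 * u i) + u i) with hRdef
  have hq0 : 0 ≤ (∑ i, k i) / (2 * ε) := by positivity
  have a1 := le_abs_self (2 * R₁)
  have a2 := le_abs_self R₂
  have a3 := abs_nonneg (2 * R₁)
  have a4 := abs_nonneg R₂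
  have hR1 : 1 ≤ R := by rw [hRdef]; linarith
  have hR : 0 < R := by linarith
  have hRR1 : 2 * R₁ ≤ R := by rw [hRdef]; linarith
  have hRR2 : R₂ ≤ R := by rw [hRdef]; linarith
  have hRK : (∑ i, k i) / (2 * ε) ≤ R := by rw [hRdef]; linarith
  have hRi : ∀ i, k i / (2 * u i) + u i < R := fun i => by
    have := hMs i
    rw [hRdef]; linarith
  have hRui : ∀ i, u i < R := fun i => by
    have h1 := hRi i
    have h2 : 0 ≤ k i / (2 * u i) := by
      have h1 := hu0 i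
      have h2 := hk0 i
      positivity
    linarith
  have hRki : ∀ i, k i < 2 * R * u i := fun i => by
    have h1 : k i / (2 * u i) < R := by
      have := hRi i
      have := hu0 i
      linarith
    rw [div_lt_iff₀ (by have := hu0 i; positivity)] at h1
    linarith
  obtain ⟨hfc, hcl⟩ := hR₂ R hRR2
  set c : ℂ := Complex.I * ((η : ℂ) + (R : ℂ)) with hc
  have hsub : ∀ w ∈ Metric.closedBall c R, 0 < w.im := fun w hw =>
    lt_of_lt_of_le hη (cxh_ball hw)
  have hop : IsOpen {z : ℂ | 0 < z.im} := isOpen_lt continuous_const Complex.continuous_im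
  have hzb : ∀ i, z i ∈ Metric.ball c R := by
    intro i
    rw [Metric.mem_ball, dist_comm, dist_eq_norm]
    have h1 := cxh_nsq η R (z i)
    rw [← hc] at h1
    have h2 : ‖c - z i‖ ^ 2 < R ^ 2 := by
      rw [h1]
      have h3 := hRki i
      simp only [hk, hu] at h3
      linarith
    exact lt_of_pow_lt_pow_left₀ 2 hR.le h2
  obtain ⟨hci, hj⟩ := jensen c R hR f h ((hf.analyticOnNhd hop).mono hsub)
    ((hh.analyticOnNhd hop).mono hsub) n z hzb (fun w hw => hfac w (hsub w hw)) hfc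
  have hIoc : Set.Ioc (0:ℝ) (2 * Real.pi) = Set.Ioc 0 (2 * Real.pi) := rfl
  have h2pi : (0:ℝ) ≤ 2 * Real.pi := by positivity
  have hGi : IntegrableOn (fun θ => R * Real.log ‖f (circleMap c R θ)‖)
      (Set.Ioc (0:ℝ) (2 * Real.pi)) := by
    have h1 : IntervalIntegrable (fun θ => Real.log ‖f (circleMap c R θ)‖) volume 0
      (2 * Real.pi) := hci
    exact ((intervalIntegrable_iff_integrableOn_Ioc_of_le h2pi).1 h1).const_mul R
  have hlint := cxh_lint (f := f) (B := B) hη hε0 hR hRR1 hup hR₁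
  have hCne : ENNReal.ofReal (2 * ε) * ENNReal.ofReal (2 * Real.pi) + 2 * ∫⁻ x, B x ≠ ∞ := by
    refine ENNReal.add_ne_top.2 ⟨ENNReal.mul_ne_top ENNReal.ofReal_ne_top ENNReal.ofReal_ne_top,
      ENNReal.mul_ne_top (by norm_num) htop⟩
  have hint := cxh_int hGi hCne hlint
  have hCr : (ENNReal.ofReal (2 * ε) * ENNReal.ofReal (2 * Real.pi) + 2 * ∫⁻ x, B x).toReal =
      2 * ε * (2 * Real.pi) + 2 * b := by
    rw [ENNReal.toReal_add (ENNReal.mul_ne_top ENNReal.ofReal_ne_top ENNReal.ofReal_ne_top)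
      (ENNReal.mul_ne_top (by norm_num) htop), ENNReal.toReal_mul, ENNReal.toReal_mul,
      ENNReal.toReal_ofReal (by positivity), ENNReal.toReal_ofReal h2pi, ENNReal.toReal_ofNat]
  rw [hCr] at hint
  have hav : R * Real.circleAverage (fun w => Real.log ‖f w‖) c R =
      (2 * Real.pi)⁻¹ * ∫ θ in Set.Ioc (0:ℝ) (2 * Real.pi),
        R * Real.log ‖f (circleMap c R θ)‖ := by
    rw [Real.circleAverage_def, intervalIntegral.integral_of_le h2pi, integral_const_mul,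
      smul_eq_mul]
    ring
  have hsum : ∑ i, u i - (∑ i, k i) / (2 * R) ≤ R * ∑ i, Real.log (R / ‖c - z i‖) := by
    rw [Finset.mul_sum, Finset.sum_div, ← Finset.sum_sub_distrib]
    refine Finset.sum_le_sum fun i _ => ?_
    exact cxh_log hR (hRui i)
  have hj2 := mul_le_mul_of_nonneg_left hj hR.le
  rw [hav, mul_add] at hj2
  have hcl2 : -ε ≤ R * Real.log ‖f c‖ := by
    have h1 := mul_le_mul_of_nonneg_left hcl hR.le
    have h2 : R * -(ε / R) = -ε := by field_simp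
    linarith
  have hKR : (∑ i, k i) / (2 * R) ≤ ε := by
    rw [div_le_iff₀ (by positivity)] at hRK ⊢
    linarith
  have hpi1 : 1 ≤ Real.pi := by linarith [Real.pi_gt_three]
  have hpos : 0 < Real.pi := Real.pi_pos
  have hfinal : (2 * Real.pi)⁻¹ * ∫ θ in Set.Ioc (0:ℝ) (2 * Real.pi),
        R * Real.log ‖f (circleMap c R θ)‖ ≤ 2 * ε + b := by
    have h1 := mul_le_mul_of_nonneg_left hint (by positivity : (0:ℝ) ≤ (2 * Real.pi)⁻¹)
    refine h1.trans ?_
    have h2 : (2 * Real.pi)⁻¹ * (2 * ε * (2 * Real.pi) + 2 * b) = 2 * ε + b / Real.pi := by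
      field_simp
    rw [h2]
    have h3 : b / Real.pi ≤ b := div_le_self hb0 hpi1
    linarith
  have hS : ∑ i, u i ≤ b + 4 * ε := by linarith
  have h4 : 4 * ε = ε' := by rw [hε]; ring
  rw [h4] at hS
  exact hS

end A17
end Pool.Agent.Helper209.CX
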