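import Mathlib

namespace Pool.Agent.Helper209.CX

namespace A18
open MeasureTheory ENNReal

theorem cx_meas (s a τ : ℝ) :
    Measurable (fun x : ℝ => |x ^ 2 - τ ^ 2| ^ (s - 1 / 2) * |x| ^ (-s - a)) := by
  fun_prop

theorem cx_half (s a : ℝ) (hs : 0 < s) (hs2 : s < 1 / 2) (ha : s < a) (ha2 : a < 1 - s) :
    IntegrableOn (fun x : ℝ => |x ^ 2 - 1 ^ 2| ^ (s - 1 / 2) * |x| ^ (-s - a)) (Set.Ioi 0) := by
  have hmeas := cx_meas s a 1
  have hnn : ∀ x : ℝ, 0 ≤ |x ^ 2 - 1 ^ 2| ^ (s - 1 / 2) * |x| ^ (-s - a) := fun x =>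
    mul_nonneg (Real.rpow_nonneg (abs_nonneg _) _) (Real.rpow_nonneg (abs_nonneg _) _)
  have h1 : IntegrableOn (fun x : ℝ => |x ^ 2 - 1 ^ 2| ^ (s - 1 / 2) * |x| ^ (-s - a))
      (Set.Ioc 0 (1 / 2)) := by
    have hi : IntervalIntegrable (fun x : ℝ => x ^ (-s - a)) volume 0 (1 / 2) :=
      intervalIntegral.intervalIntegrable_rpow' (by linarith)
    rw [intervalIntegrable_iff_integrableOn_Ioc_of_le (by norm_num)] at hi
    refine Integrable.mono' (hi.const_mul ((3 / 4 : ℝ) ^ (s - 1 / 2)))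
      hmeas.aestronglyMeasurable ?_
    refine (ae_restrict_iff' measurableSet_Ioc).2 (ae_of_all _ fun x hx => ?_)
    rw [Real.norm_eq_abs, abs_of_nonneg (hnn x), abs_of_pos hx.1]
    refine mul_le_mul_of_nonneg_right ?_ (Real.rpow_nonneg hx.1.le _)
    refine Real.rpow_le_rpow_of_nonpos (by norm_num) ?_ (by linarith)
    rw [abs_of_nonpos (by nlinarith [hx.1, hx.2])]
    nlinarith [hx.1, hx.2]
  have hx0 : IntervalIntegrable (fun x : ℝ => x ^ (s - 1 / 2)) volume 0 1 :=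
    intervalIntegral.intervalIntegrable_rpow' (by linarith)
  have hx0' : IntervalIntegrable (fun x : ℝ => x ^ (s - 1 / 2)) volume 0 (1 / 2) :=
    intervalIntegral.intervalIntegrable_rpow' (by linarith)
  have h2 : IntegrableOn (fun x : ℝ => |x ^ 2 - 1 ^ 2| ^ (s - 1 / 2) * |x| ^ (-s - a))
      (Set.Ioc (1 / 2) 1) := by
    have hi := (hx0'.comp_sub_left 1).symm
    have hi' : IntervalIntegrable (fun x : ℝ => (1 - x) ^ (s - 1 / 2)) volume (1 / 2) 1 := by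
      convert hi using 1 <;> norm_num
    rw [intervalIntegrable_iff_integrableOn_Ioc_of_le (by norm_num)] at hi'
    refine Integrable.mono' (hi'.mul_const ((1 / 2 : ℝ) ^ (-s - a)))
      hmeas.aestronglyMeasurable ?_
    refine (ae_restrict_iff' measurableSet_Ioc).2 (ae_of_all _ fun x hx => ?_)
    have hxp : 0 < x := by linarith [hx.1]
    rw [Real.norm_eq_abs, abs_of_nonneg (hnn x), abs_of_pos hxp]
    refine mul_le_mul ?_ ?_ (Real.rpow_nonneg hxp.le _) (Real.rpow_nonneg (by linarith [hx.2]) _)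
    · rcases eq_or_lt_of_le hx.2 with h | h
      · rw [h]; norm_num
      · refine Real.rpow_le_rpow_of_nonpos (by linarith) ?_ (by linarith)
        rw [abs_of_nonpos (by nlinarith [hx.1, hx.2])]
        nlinarith [hx.1, hx.2]
    · exact Real.rpow_le_rpow_of_nonpos (by norm_num) hx.1.le (by linarith)
  have h3 : IntegrableOn (fun x : ℝ => |x ^ 2 - 1 ^ 2| ^ (s - 1 / 2) * |x| ^ (-s - a))
      (Set.Ioc 1 2) := by
    have hi := hx0.comp_sub_right 1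
    have hi' : IntervalIntegrable (fun x : ℝ => (x - 1) ^ (s - 1 / 2)) volume 1 2 := by
      convert hi using 1 <;> norm_num
    rw [intervalIntegrable_iff_integrableOn_Ioc_of_le (by norm_num)] at hi'
    refine Integrable.mono' (hi'.mul_const ((1 / 2 : ℝ) ^ (-s - a)))
      hmeas.aestronglyMeasurable ?_
    refine (ae_restrict_iff' measurableSet_Ioc).2 (ae_of_all _ fun x hx => ?_)
    have hxp : 0 < x := by linarith [hx.1]
    rw [Real.norm_eq_abs, abs_of_nonneg (hnn x), abs_of_pos hxp]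
    refine mul_le_mul ?_ ?_ (Real.rpow_nonneg hxp.le _) (Real.rpow_nonneg (by linarith [hx.1]) _)
    · refine Real.rpow_le_rpow_of_nonpos (by linarith [hx.1]) ?_ (by linarith)
      rw [abs_of_nonneg (by nlinarith [hx.1, hx.2])]
      nlinarith [hx.1, hx.2]
    · exact Real.rpow_le_rpow_of_nonpos (by norm_num) (by linarith [hx.1]) (by linarith)
  have h4 : IntegrableOn (fun x : ℝ => |x ^ 2 - 1 ^ 2| ^ (s - 1 / 2) * |x| ^ (-s - a))
      (Set.Ioi 2) := by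
    have hi : IntegrableOn (fun x : ℝ => x ^ (s - 1 - a)) (Set.Ioi 2) :=
      integrableOn_Ioi_rpow_of_lt (by linarith) (by norm_num)
    refine Integrable.mono' (hi.const_mul ((1 / 2 : ℝ) ^ (s - 1 / 2)))
      hmeas.aestronglyMeasurable ?_
    refine (ae_restrict_iff' measurableSet_Ioi).2 (ae_of_all _ fun x hx => ?_)
    have hx2 : (2 : ℝ) < x := hx
    have hxp : 0 < x := by linarith
    rw [Real.norm_eq_abs, abs_of_nonneg (hnn x), abs_of_pos hxp]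
    have e1 : |x ^ 2 - 1 ^ 2| ^ (s - 1 / 2) ≤ ((1 / 2) * x ^ 2) ^ (s - 1 / 2) := by
      refine Real.rpow_le_rpow_of_nonpos (by positivity) ?_ (by linarith)
      rw [abs_of_nonneg (by nlinarith)]
      nlinarith
    have e2 : ((1 / 2) * x ^ 2) ^ (s - 1 / 2) * x ^ (-s - a) =
        (1 / 2 : ℝ) ^ (s - 1 / 2) * x ^ (s - 1 - a) := by
      rw [Real.mul_rpow (by norm_num) (by positivity), mul_assoc]
      congr 1
      rw [← Real.rpow_natCast, ← Real.rpow_mul hxp.le, ← Real.rpow_add hxp]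
      congr 1
      push_cast
      ring
    rw [← e2]
    exact mul_le_mul_of_nonneg_right e1 (Real.rpow_nonneg hxp.le _)
  have hset : (Set.Ioi (0 : ℝ)) = ((Set.Ioc 0 (1 / 2) ∪ Set.Ioc (1 / 2) 1) ∪ Set.Ioc 1 2) ∪
      Set.Ioi 2 := by
    rw [Set.Ioc_union_Ioc_eq_Ioc (by norm_num) (by norm_num),
      Set.Ioc_union_Ioc_eq_Ioc (by norm_num) (by norm_num),
      Set.Ioc_union_Ioi_eq_Ioi (by norm_num)]
  rw [hset]
  exact ((h1.union h2).union h3).union h4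

theorem cx_fin (s a : ℝ) (hs : 0 < s) (hs2 : s < 1 / 2) (ha : s < a) (ha2 : a < 1 - s) :
    ∫⁻ x : ℝ, ENNReal.ofReal (|x ^ 2 - 1 ^ 2| ^ (s - 1 / 2) * |x| ^ (-s - a)) < ⊤ := by
  have hm : Measurable (fun x : ℝ =>
      ENNReal.ofReal (|x ^ 2 - 1 ^ 2| ^ (s - 1 / 2) * |x| ^ (-s - a))) :=
    (cx_meas s a 1).ennreal_ofReal
  have h1 : ∫⁻ x in Set.Ioi (0 : ℝ), ENNReal.ofReal
      (|x ^ 2 - 1 ^ 2| ^ (s - 1 / 2) * |x| ^ (-s - a)) < ⊤ :=
    (cx_half s a hs hs2 ha ha2).lintegral_lt_top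
  have h2 : ∫⁻ x in Set.Iio (0 : ℝ), ENNReal.ofReal
      (|x ^ 2 - 1 ^ 2| ^ (s - 1 / 2) * |x| ^ (-s - a)) < ⊤ := by
    have h3 := (Measure.measurePreserving_neg (volume : Measure ℝ)).setLIntegral_comp_preimage
      (s := Set.Ioi (0 : ℝ)) measurableSet_Ioi hm
    have h4 : (Neg.neg ⁻¹' Set.Ioi (0 : ℝ)) = Set.Iio 0 := by
      ext x; simp
    rw [h4] at h3
    simp only [neg_sq, even_two, Even.neg_pow, abs_neg] at h3
    rw [h3]
    exact h1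
  have h5 : ∫⁻ x in Set.Ici (0 : ℝ), ENNReal.ofReal
      (|x ^ 2 - 1 ^ 2| ^ (s - 1 / 2) * |x| ^ (-s - a)) < ⊤ := by
    rw [setLIntegral_congr Ioi_ae_eq_Ici.symm]
    exact h1
  rw [← lintegral_add_compl _ (measurableSet_Ici (a := (0 : ℝ))), Set.compl_Ici]
  exact ENNReal.add_lt_top.2 ⟨h5, h2⟩

theorem cx_scalar (s a : ℝ) (hs : 0 < s) (hs2 : s < 1 / 2) (ha : s < a) (ha2 : a < 1 - s) :
    ∃ C : ℝ, 0 < C ∧ ∀ τ : ℝ, 0 < τ →
      ∫⁻ x : ℝ, ENNReal.ofReal (|x ^ 2 - τ ^ 2| ^ (s - 1 / 2) * |x| ^ (-s - a)) ≤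
        ENNReal.ofReal (C * τ ^ (s - a)) := by
  have hfin := cx_fin s a hs hs2 ha ha2
  set I : ENNReal := ∫⁻ x : ℝ, ENNReal.ofReal
    (|x ^ 2 - 1 ^ 2| ^ (s - 1 / 2) * |x| ^ (-s - a)) with hI
  refine ⟨I.toReal + 1, by positivity, fun τ hτ => ?_⟩
  have hm : Measurable (fun x : ℝ =>
      ENNReal.ofReal (|x ^ 2 - τ ^ 2| ^ (s - 1 / 2) * |x| ^ (-s - a))) :=
    (cx_meas s a τ).ennreal_ofReal
  have hmap : ∫⁻ x : ℝ, ENNReal.ofReal (|(τ * x) ^ 2 - τ ^ 2| ^ (s - 1 / 2) *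
      |τ * x| ^ (-s - a)) = ENNReal.ofReal |τ⁻¹| *
      ∫⁻ x : ℝ, ENNReal.ofReal (|x ^ 2 - τ ^ 2| ^ (s - 1 / 2) * |x| ^ (-s - a)) := by
    rw [← lintegral_map (f := fun x : ℝ =>
      ENNReal.ofReal (|x ^ 2 - τ ^ 2| ^ (s - 1 / 2) * |x| ^ (-s - a))) hm
      (measurable_const_mul τ), Real.map_volume_mul_left hτ.ne', lintegral_smul_measure]
    rfl
  have hpt : ∀ x : ℝ, |(τ * x) ^ 2 - τ ^ 2| ^ (s - 1 / 2) * |τ * x| ^ (-s - a) =
      (τ ^ (s - a) * τ⁻¹) * (|x ^ 2 - 1 ^ 2| ^ (s - 1 / 2) * |x| ^ (-s - a)) := by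
    intro x
    have e1 : (τ * x) ^ 2 - τ ^ 2 = τ ^ 2 * (x ^ 2 - 1 ^ 2) := by ring
    rw [e1, abs_mul, abs_mul, abs_of_pos hτ, abs_of_pos (pow_pos hτ 2),
      Real.mul_rpow (pow_pos hτ 2).le (abs_nonneg _), Real.mul_rpow hτ.le (abs_nonneg _)]
    have e2 : (τ ^ 2) ^ (s - 1 / 2) = τ ^ (2 * s - 1) := by
      rw [← Real.rpow_natCast, ← Real.rpow_mul hτ.le]
      congr 1
      push_cast
      ring
    have e3 : τ ^ (s - a) * τ⁻¹ = τ ^ (2 * s - 1) * τ ^ (-s - a) := by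
      rw [← Real.rpow_add hτ, ← Real.rpow_neg_one, ← Real.rpow_add hτ]
      congr 1
      ring
    rw [e2, e3]
    ring
  simp_rw [hpt] at hmap
  have hc : 0 ≤ τ ^ (s - a) * τ⁻¹ := mul_nonneg (Real.rpow_nonneg hτ.le _) (inv_nonneg.2 hτ.le)
  simp_rw [ENNReal.ofReal_mul hc] at hmap
  rw [lintegral_const_mul _ (cx_meas s a 1).ennreal_ofReal, ← hI,
    abs_of_pos (inv_pos.2 hτ)] at hmap
  -- solve for the integral
  have hτi : ENNReal.ofReal τ * ENNReal.ofReal τ⁻¹ = 1 := by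
    rw [← ENNReal.ofReal_mul hτ.le, mul_inv_cancel₀ hτ.ne', ENNReal.ofReal_one]
  have hsol : ∫⁻ x : ℝ, ENNReal.ofReal (|x ^ 2 - τ ^ 2| ^ (s - 1 / 2) * |x| ^ (-s - a)) =
      ENNReal.ofReal τ * (ENNReal.ofReal (τ ^ (s - a) * τ⁻¹) * I) := by
    rw [hmap, ← mul_assoc, hτi, one_mul]
  rw [hsol, ← mul_assoc, ← ENNReal.ofReal_mul hτ.le]
  have e4 : τ * (τ ^ (s - a) * τ⁻¹) = τ ^ (s - a) := by
    field_simp
  rw [e4]
  have e5 : ENNReal.ofReal I.toReal = I := ENNReal.ofReal_toReal hfin.ne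
  have e6 : ENNReal.ofReal (τ ^ (s - a)) * I = ENNReal.ofReal (τ ^ (s - a) * I.toReal) := by
    rw [ENNReal.ofReal_mul (Real.rpow_nonneg hτ.le _), e5]
  rw [e6]
  refine ENNReal.ofReal_le_ofReal ?_
  have : 0 ≤ τ ^ (s - a) := Real.rpow_nonneg hτ.le _
  nlinarith

end A18
end Pool.Agent.Helper209.CX
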