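import Mathlib
import Pool.Agent.Helper209.CX.Defs

namespace Pool.Agent.Helper209.CX

namespace A19a
open MeasureTheory ENNReal









theorem cxb_slit {b : ℝ} (hb : 0 < b) {z : ℂ} (hz : 0 < z.im) :
    (b : ℂ) - z ^ 2 ∈ Complex.slitPlane := by
  rw [Complex.mem_slitPlane_iff]
  by_cases hx : z.re = 0
  · left
    simp only [Complex.sub_re, Complex.ofReal_re, pow_two, Complex.mul_re, hx]
    nlinarith
  · right
    simp only [Complex.sub_im, Complex.ofReal_im, pow_two, Complex.mul_im]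
    have : z.re * z.im ≠ 0 := mul_ne_zero hx hz.ne'
    intro h
    apply this
    linarith

theorem cxb_re {w : ℂ} (hw : w ∈ Complex.slitPlane) : 0 < (w ^ (1 / 2 : ℂ)).re := by
  have hw0 : w ≠ 0 := Complex.slitPlane_ne_zero hw
  rw [Complex.cpow_def_of_ne_zero hw0, Complex.exp_re]
  apply mul_pos (Real.exp_pos _)
  apply Real.cos_pos_of_mem_Ioo
  have h1 : (Complex.log w * (1 / 2)).im = w.arg / 2 := by
    rw [show (1 / 2 : ℂ) = ((1 / 2 : ℝ) : ℂ) by push_cast; ring, Complex.im_mul_ofReal,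
      Complex.log_im]
    ring
  rw [h1]
  have h2 := Complex.neg_pi_lt_arg w
  have h3 := Complex.arg_le_pi w
  have h4 : w.arg ≠ Real.pi := (Complex.mem_slitPlane_iff_arg.1 hw).1
  have h5 := lt_of_le_of_ne h3 h4
  constructor <;> linarith

theorem cxb_sq {w : ℂ} (hw : w ≠ 0) : (w ^ (1 / 2 : ℂ)) ^ 2 = w := by
  rw [pow_two, ← Complex.cpow_add _ _ hw]
  norm_num

theorem cxb_ineq {b x y p q : ℝ} (hb : 0 < b) (hy : 0 < y) (hq : 0 < q)
    (h1 : p ^ 2 - q ^ 2 = x ^ 2 - y ^ 2 - b) (h2 : p * q = x * y) : y ≤ q := by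
  by_contra hc
  push Not at hc
  have h3 : p ^ 2 * q ^ 2 = x ^ 2 * y ^ 2 := by
    rw [← mul_pow, ← mul_pow, h2]
  have h4 : x ^ 2 * (y ^ 2 - q ^ 2) + q ^ 2 * (y ^ 2 - q ^ 2) + b * q ^ 2 = 0 := by
    linear_combination -h3 + q ^ 2 * h1
  have h5 : 0 < y ^ 2 - q ^ 2 := by nlinarith
  have h6 : 0 < b * q ^ 2 := by positivity
  have h7 : 0 ≤ x ^ 2 * (y ^ 2 - q ^ 2) := by positivity
  have h8 : 0 ≤ q ^ 2 * (y ^ 2 - q ^ 2) := by positivity
  linarith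

theorem cx_branch (b : ℝ) (hb : 0 < b) : ∃ κ : ℂ → ℂ,
    DifferentiableOn ℂ κ {z : ℂ | 0 < z.im} ∧ ∀ z : ℂ, 0 < z.im →
      0 < (κ z).im ∧ (κ z) ^ 2 = z ^ 2 - b ∧ |z.re ^ 2 - b| ≤ ‖κ z‖ ^ 2 ∧
      |z.re| * z.im ≤ ‖κ z‖ * (κ z).im ∧ z.im ^ 2 ≤ ‖κ z‖ * (κ z).im ∧ z.im ≤ (κ z).im ∧
      ‖z‖ ^ 2 - b ≤ ‖κ z‖ ^ 2 ∧ ‖κ z‖ ^ 2 ≤ ‖z‖ ^ 2 + b := by
  refine ⟨fun z => Complex.I * ((b : ℂ) - z ^ 2) ^ (1 / 2 : ℂ), ?_, ?_⟩
  · intro z hz
    refine DifferentiableAt.differentiableWithinAt ?_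
    refine DifferentiableAt.const_mul ?_ _
    refine DifferentiableAt.cpow ?_ (differentiableAt_const _) (cxb_slit hb hz)
    fun_prop
  · intro z hz
    have hsl := cxb_slit hb hz
    have hw0 : (b : ℂ) - z ^ 2 ≠ 0 := Complex.slitPlane_ne_zero hsl
    have hre := cxb_re hsl
    have hsq := cxb_sq hw0
    show 0 < (Complex.I * ((b : ℂ) - z ^ 2) ^ (1 / 2 : ℂ)).im ∧ _
    have hqpos : 0 < (Complex.I * ((b : ℂ) - z ^ 2) ^ (1 / 2 : ℂ)).im := by
      simpa [Complex.mul_im] using hre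
    have hk2 : (Complex.I * ((b : ℂ) - z ^ 2) ^ (1 / 2 : ℂ)) ^ 2 = z ^ 2 - b := by
      rw [mul_pow, hsq, Complex.I_sq]; ring
    simp only
    generalize Complex.I * ((b : ℂ) - z ^ 2) ^ (1 / 2 : ℂ) = κ at hqpos hk2 ⊢
    have e1 : κ.re ^ 2 - κ.im ^ 2 = z.re ^ 2 - z.im ^ 2 - b := by
      have := congrArg Complex.re hk2
      simp only [pow_two, Complex.mul_re, Complex.sub_re, Complex.ofReal_re] at this
      linarith
    have e2 : κ.re * κ.im = z.re * z.im := by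
      have := congrArg Complex.im hk2
      simp only [pow_two, Complex.mul_im, Complex.sub_im, Complex.ofReal_im] at this
      linarith
    have e3 := cxb_ineq hb hz hqpos e1 e2
    have nk : ‖κ‖ ^ 2 = κ.re ^ 2 + κ.im ^ 2 := by
      rw [← Complex.normSq_eq_norm_sq, Complex.normSq_apply]; ring
    have hle : κ.im ≤ ‖κ‖ := (le_abs_self _).trans (Complex.abs_im_le_norm κ)
    have nk2 : ‖κ‖ ^ 2 = ‖z ^ 2 - (b : ℂ)‖ := by rw [← hk2, norm_pow]
    have nb : ‖(b : ℂ)‖ = b := by rw [Complex.norm_real, Real.norm_of_nonneg hb.le]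
    refine ⟨hqpos, hk2, ?_, ?_, ?_, e3, ?_, ?_⟩
    · apply abs_le_of_sq_le_sq _ (by positivity)
      rw [nk]
      have h3 : (κ.re ^ 2 + κ.im ^ 2) ^ 2 = (z.re ^ 2 - z.im ^ 2 - b) ^ 2 +
          4 * (z.re * z.im) ^ 2 := by rw [← e1, ← e2]; ring
      rw [h3]
      nlinarith [sq_nonneg (z.re * z.im), sq_nonneg (z.im ^ 2), mul_pos hb (mul_pos hz hz)]
    · have h4 : |z.re| * z.im = |κ.re| * κ.im := by
        rw [← abs_of_pos hz, ← abs_mul, ← e2, abs_mul, abs_of_pos hqpos]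
      rw [h4]
      exact mul_le_mul_of_nonneg_right (Complex.abs_re_le_norm κ) hqpos.le
    · nlinarith
    · rw [nk2]
      have := norm_sub_norm_le (z ^ 2) (b : ℂ)
      rw [norm_pow, nb] at this
      exact this
    · rw [nk2]
      have := norm_sub_le (z ^ 2) (b : ℂ)
      rw [norm_pow, nb] at this
      exact this

end A19a
end Pool.Agent.Helper209.CX
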