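import Mathlib
import Pool.Agent.Helper209.CX.Defs

namespace Pool.Agent.Helper209.CX

namespace A19b
open MeasureTheory ENNReal










theorem cx19_log_le {a : ℂ} {c : ℝ} (hc : 0 ≤ c) (h : ‖a‖ ≤ Real.exp c) : Real.log ‖a‖ ≤ c := by
  rcases eq_or_ne a 0 with rfl | ha
  · simpa using hc
  · have : 0 < ‖a‖ := norm_pos_iff.mpr ha
    calc Real.log ‖a‖ ≤ Real.log (Real.exp c) := Real.log_le_log this h
      _ = c := Real.log_exp c

theorem cx19_min_le {r a : ℝ} (hr : 0 ≤ r) (ha : 0 < a) (ha1 : a < 1) : min 1 r ≤ r ^ a := by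
  rcases le_or_gt 1 r with h | h
  · exact (min_le_left _ _).trans (Real.one_le_rpow h ha.le)
  · rcases hr.eq_or_lt with h0 | h0
    · rw [← h0, Real.zero_rpow ha.ne']; simp
    · refine (min_le_right _ _).trans ?_
      calc r = r ^ (1:ℝ) := (Real.rpow_one r).symm
        _ ≤ r ^ a := Real.rpow_le_rpow_of_exponent_ge h0 h.le ha1.le

theorem cx19_expo {s C0 T Y A y : ℝ} (Q : ℝ → ℝ) (hQ : ∀ x, 0 ≤ Q x)
    (hint : ∀ h : ℝ, 0 < h → Integrable (fun x => Q x * min 1 (Q x / h)))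
    (hs : 0 < s) (hs2 : s < 1 / 2) (hC0 : 0 < C0) (hA : 0 < A) (hy : 0 < y) (hT : 0 < T)
    (hTA : A ≤ T ^ 2) (hY : y ≤ Y) :
    C0 * T ^ (2 * s - 1) * Y ^ (-s) * (∫ x, Q x * min 1 (Q x / Y)) ≤
      C0 * A ^ (s - 1 / 2) * y ^ (-s) * ∫ x, Q x * min 1 (Q x / y) := by
  have hY0 : 0 < Y := hy.trans_le hY
  have e1 : T ^ (2 * s - 1) ≤ A ^ (s - 1 / 2) := by
    have : T ^ (2 * s - 1) = (T ^ 2) ^ (s - 1 / 2) := by
      rw [← Real.rpow_natCast, ← Real.rpow_mul hT.le]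
      congr 1; push_cast; ring
    rw [this]
    exact Real.rpow_le_rpow_of_nonpos hA hTA (by linarith)
  have e2 : Y ^ (-s) ≤ y ^ (-s) := Real.rpow_le_rpow_of_nonpos hy hY (by linarith)
  have e3 : (∫ x, Q x * min 1 (Q x / Y)) ≤ ∫ x, Q x * min 1 (Q x / y) := by
    apply integral_mono (hint Y hY0) (hint y hy)
    intro x
    have : Q x / Y ≤ Q x / y := div_le_div_of_nonneg_left (hQ x) hy hY
    exact mul_le_mul_of_nonneg_left (min_le_min le_rfl this) (hQ x)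
  have e4 : 0 ≤ ∫ x, Q x * min 1 (Q x / Y) := by
    apply integral_nonneg
    intro x
    exact mul_nonneg (hQ x) (le_min zero_le_one (div_nonneg (hQ x) hY0.le))
  have e5 : C0 * T ^ (2 * s - 1) * Y ^ (-s) ≤ C0 * A ^ (s - 1 / 2) * y ^ (-s) := by
    have a1 : 0 ≤ T ^ (2 * s - 1) := by positivity
    have a2 : 0 ≤ Y ^ (-s) := by positivity
    gcongr
  exact mul_le_mul e5 e3 e4 (by positivity)

theorem cx19_inner {s a C0 η τ Ca q : ℝ} (hs : 0 < s) (ha : 0 < a) (ha1 : a < 1) (hC0 : 0 < C0)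
    (hη : 0 < η) (hτ : 0 < τ) (hq : 0 ≤ q) (hCa : 0 < Ca)
    (hsc : ∫⁻ x : ℝ, ENNReal.ofReal (|x ^ 2 - τ ^ 2| ^ (s - 1 / 2) * |x| ^ (-s - a)) ≤
          ENNReal.ofReal (Ca * τ ^ (s - a))) :
    ∫⁻ x : ℝ, ENNReal.ofReal (C0 * |x ^ 2 - τ ^ 2| ^ (s - 1 / 2) * (|x| * η) ^ (-s)) *
      ENNReal.ofReal (q * min 1 (q / (|x| * η))) ≤
      ENNReal.ofReal (C0 * Ca * (τ / η) ^ s) * ENNReal.ofReal (q * (q / (τ * η)) ^ a) := by
  have hpt : ∀ x : ℝ, ENNReal.ofReal (C0 * |x ^ 2 - τ ^ 2| ^ (s - 1 / 2) * (|x| * η) ^ (-s)) *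
      ENNReal.ofReal (q * min 1 (q / (|x| * η))) ≤
      ENNReal.ofReal (C0 * (q * q ^ a) * η ^ (-s - a)) *
        ENNReal.ofReal (|x ^ 2 - τ ^ 2| ^ (s - 1 / 2) * |x| ^ (-s - a)) := by
    intro x
    rw [← ENNReal.ofReal_mul (by positivity), ← ENNReal.ofReal_mul (by positivity)]
    apply ENNReal.ofReal_le_ofReal
    rcases eq_or_ne x 0 with rfl | hx
    · have : (|(0:ℝ)| * η) ^ (-s) = 0 := by
        rw [abs_zero, zero_mul, Real.zero_rpow (by linarith)]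
      rw [this, mul_zero, zero_mul]
      positivity
    · have hx0 : 0 < |x| := abs_pos.mpr hx
      have h1 : (|x| * η) ^ (-s) = |x| ^ (-s) * η ^ (-s) := Real.mul_rpow hx0.le hη.le
      have h2 : min 1 (q / (|x| * η)) ≤ q ^ a * (|x| ^ (-a) * η ^ (-a)) := by
        refine (cx19_min_le (by positivity) ha ha1).trans (le_of_eq ?_)
        rw [Real.div_rpow hq (by positivity), Real.mul_rpow hx0.le hη.le,
          Real.rpow_neg hx0.le, Real.rpow_neg hη.le]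
        rw [div_eq_mul_inv, mul_inv]
      have h3 : |x| ^ (-s - a) = |x| ^ (-s) * |x| ^ (-a) := by
        rw [← Real.rpow_add hx0]; congr 1
      have h4 : η ^ (-s - a) = η ^ (-s) * η ^ (-a) := by
        rw [← Real.rpow_add hη]; congr 1
      rw [h1, h3, h4]
      have hW : 0 ≤ |x ^ 2 - τ ^ 2| ^ (s - 1 / 2) := by positivity
      calc C0 * |x ^ 2 - τ ^ 2| ^ (s - 1 / 2) * (|x| ^ (-s) * η ^ (-s)) * (q * min 1 (q / (|x| * η)))
          ≤ C0 * |x ^ 2 - τ ^ 2| ^ (s - 1 / 2) * (|x| ^ (-s) * η ^ (-s)) *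
            (q * (q ^ a * (|x| ^ (-a) * η ^ (-a)))) := by gcongr
        _ = _ := by ring
  refine (lintegral_mono hpt).trans ?_
  rw [lintegral_const_mul' _ _ ENNReal.ofReal_ne_top]
  refine (mul_le_mul_right hsc _).trans (le_of_eq ?_)
  rw [← ENNReal.ofReal_mul (by positivity), ← ENNReal.ofReal_mul (by positivity)]
  congr 1
  have h1 : η ^ (-s - a) = (η ^ s)⁻¹ * (η ^ a)⁻¹ := by
    rw [← Real.rpow_neg hη.le, ← Real.rpow_neg hη.le, ← Real.rpow_add hη]; congr 1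
  have h2 : τ ^ (s - a) = τ ^ s * (τ ^ a)⁻¹ := by
    rw [← Real.rpow_neg hτ.le, ← Real.rpow_add hτ]; congr 1
  rw [h1, h2, Real.div_rpow hτ.le hη.le, Real.div_rpow hq (by positivity), Real.mul_rpow hτ.le hη.le]
  rw [div_eq_mul_inv, div_eq_mul_inv, mul_inv]
  ring

theorem cx19_int {s a1 a2 C0 η τ Ca1 Ca2 : ℝ} (hs : 0 < s) (ha1 : 0 < a1) (ha1' : a1 < 1)
    (ha2 : 0 < a2) (ha2' : a2 < 1) (hC0 : 0 < C0)
    (hη : 0 < η) (hτ : 0 < τ) (hCa1 : 0 < Ca1) (hCa2 : 0 < Ca2)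
    (hsc1 : ∫⁻ x : ℝ, ENNReal.ofReal (|x ^ 2 - τ ^ 2| ^ (s - 1 / 2) * |x| ^ (-s - a1)) ≤
          ENNReal.ofReal (Ca1 * τ ^ (s - a1)))
    (hsc2 : ∫⁻ x : ℝ, ENNReal.ofReal (|x ^ 2 - τ ^ 2| ^ (s - 1 / 2) * |x| ^ (-s - a2)) ≤
          ENNReal.ofReal (Ca2 * τ ^ (s - a2)))
    (Q : ℝ → ℝ) (hQm : Measurable Q) (hQ : ∀ x, 0 ≤ Q x) :
    ∫⁻ x : ℝ, ENNReal.ofReal (C0 * |x ^ 2 - τ ^ 2| ^ (s - 1 / 2) * (|x| * η) ^ (-s)) *
      ∫⁻ v, ENNReal.ofReal (Q v * min 1 (Q v / (|x| * η))) ≤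
      ENNReal.ofReal (C0 * max Ca1 Ca2 * (τ / η) ^ s) *
        ∫⁻ v, ENNReal.ofReal (Q v * min ((Q v / (τ * η)) ^ a1) ((Q v / (τ * η)) ^ a2)) := by
  have e1 : ∀ x : ℝ, ENNReal.ofReal (C0 * |x ^ 2 - τ ^ 2| ^ (s - 1 / 2) * (|x| * η) ^ (-s)) *
      ∫⁻ v, ENNReal.ofReal (Q v * min 1 (Q v / (|x| * η))) =
      ∫⁻ v, ENNReal.ofReal (C0 * |x ^ 2 - τ ^ 2| ^ (s - 1 / 2) * (|x| * η) ^ (-s)) *
        ENNReal.ofReal (Q v * min 1 (Q v / (|x| * η))) := by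
    intro x
    rw [lintegral_const_mul' _ _ ENNReal.ofReal_ne_top]
  simp_rw [e1]
  rw [lintegral_lintegral_swap]
  swap
  · apply Measurable.aemeasurable
    unfold Function.uncurry
    have hQ1 : Measurable (fun p : ℝ × ℝ => Q p.2) := hQm.comp measurable_snd
    fun_prop
  rw [← lintegral_const_mul' _ _ ENNReal.ofReal_ne_top]
  apply lintegral_mono
  intro v
  have i1 := cx19_inner hs ha1 ha1' hC0 hη hτ (hQ v) hCa1 hsc1
  have i2 := cx19_inner hs ha2 ha2' hC0 hη hτ (hQ v) hCa2 hsc2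
  have hle1 : ENNReal.ofReal (C0 * Ca1 * (τ / η) ^ s) ≤ ENNReal.ofReal (C0 * max Ca1 Ca2 * (τ / η) ^ s) := by
    apply ENNReal.ofReal_le_ofReal
    have := le_max_left Ca1 Ca2
    gcongr
  have hle2 : ENNReal.ofReal (C0 * Ca2 * (τ / η) ^ s) ≤ ENNReal.ofReal (C0 * max Ca1 Ca2 * (τ / η) ^ s) := by
    apply ENNReal.ofReal_le_ofReal
    have := le_max_right Ca1 Ca2
    gcongr
  rcases min_choice ((Q v / (τ * η)) ^ a1) ((Q v / (τ * η)) ^ a2) with h | h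
  · simp only [h]
    exact i1.trans (mul_le_mul_left hle1 _)
  · simp only [h]
    exact i2.trans (mul_le_mul_left hle2 _)

theorem cx_count_b
    (halfplane : ∀ (f h : ℂ → ℂ) (_ : DifferentiableOn ℂ f {z : ℂ | 0 < z.im})
      (_ : DifferentiableOn ℂ h {z : ℂ | 0 < z.im}) (n : ℕ) (z : Fin n → ℂ) (η : ℝ) (_ : 0 < η)
      (_ : ∀ i, η < (z i).im) (_ : ∀ w : ℂ, 0 < w.im → f w = h w * ∏ i, (w - z i))
      (B : ℝ → ℝ≥0∞) (_ : Measurable B)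
      (_ : ∀ w : ℂ, η ≤ w.im → ENNReal.ofReal (Real.log ‖f w‖) ≤ B w.re)
      (_ : ∀ ε : ℝ, 0 < ε → ∃ R₀ : ℝ, ∀ w : ℂ, R₀ ≤ ‖w‖ → ‖w‖ ≤ 8 * w.im →
        Real.log ‖f w‖ ≤ ε / ‖w‖)
      (_ : ∀ ε : ℝ, 0 < ε → ∃ R₀ : ℝ, ∀ R : ℝ, R₀ ≤ R →
        f (Complex.I * (η + R)) ≠ 0 ∧ -(ε / R) ≤ Real.log ‖f (Complex.I * (η + R))‖),
      ENNReal.ofReal (∑ i, ((z i).im - η)) ≤ ∫⁻ x, B x)
    (branch : ∀ (b : ℝ) (_ : 0 < b), ∃ κ : ℂ → ℂ,
      DifferentiableOn ℂ κ {z : ℂ | 0 < z.im} ∧ ∀ z : ℂ, 0 < z.im →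
      0 < (κ z).im ∧ (κ z) ^ 2 = z ^ 2 - b ∧ |z.re ^ 2 - b| ≤ ‖κ z‖ ^ 2 ∧
      |z.re| * z.im ≤ ‖κ z‖ * (κ z).im ∧ z.im ^ 2 ≤ ‖κ z‖ * (κ z).im ∧ z.im ≤ (κ z).im ∧
      ‖z‖ ^ 2 - b ≤ ‖κ z‖ ^ 2 ∧ ‖κ z‖ ^ 2 ≤ ‖z‖ ^ 2 + b)
    (scalar : ∀ (s a : ℝ) (_ : 0 < s) (_ : s < 1 / 2) (_ : s < a) (_ : a < 1 - s),
      ∃ C : ℝ, 0 < C ∧ ∀ τ : ℝ, 0 < τ →
        ∫⁻ x : ℝ, ENNReal.ofReal (|x ^ 2 - τ ^ 2| ^ (s - 1 / 2) * |x| ^ (-s - a)) ≤
          ENNReal.ofReal (C * τ ^ (s - a)))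
    (s a1 a2 p C0 : ℝ) (hs : 0 < s) (hs2 : s < 1 / 2) (h1 : s < a1) (h1' : a1 < 1 - s)
    (h2 : s < a2) (h2' : a2 < 1 - s) (hp : 1 < p) (hp2 : p < 2) (hC0 : 0 < C0) :
    ∃ C : ℝ, 0 < C ∧ ∀ (Q : ℝ → ℝ) (_ : Measurable Q) (_ : ∀ x, 0 ≤ Q x)
      (_ : Integrable (fun x => Q x ^ p))
      (_ : ∀ h : ℝ, 0 < h → Integrable (fun x => Q x * min 1 (Q x / h)) ∧
        (∫ x, Q x * min 1 (Q x / h)) ≤ h ^ (1 - p) * ∫ x, Q x ^ p)
      (D gf : ℂ → ℂ) (_ : DifferentiableOn ℂ D {k : ℂ | 0 < k.im})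
      (_ : DifferentiableOn ℂ gf {k : ℂ | 0 < k.im}) (N : ℕ) (E : Fin N → ℂ)
      (_ : ∀ k : ℂ, 0 < k.im → D k = gf k * ∏ j, (k ^ 2 - E j))
      (_ : ∀ k : ℂ, 0 < k.im → ‖D k‖ ≤ Real.exp (C0 * ‖k‖ ^ (2 * s - 1) *
        (‖k‖ * k.im) ^ (-s) * ∫ x, Q x * min 1 (Q x / (‖k‖ * k.im))))
      (_ : ∃ C1 : ℝ, 0 < C1 ∧ ∀ k : ℂ, 1 ≤ k.im → C1 ≤ ‖k‖ →
        Real.exp (-(C1 / ‖k‖ ^ 2)) ≤ ‖D k‖)
      (b η : ℝ) (_ : 0 < b) (_ : 0 < η) (S : Finset (Fin N)) (z : Fin N → ℂ)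
      (_ : ∀ j ∈ S, z j ^ 2 = E j + b ∧ η < (z j).im),
      ENNReal.ofReal (∑ j ∈ S, ((z j).im - η)) ≤
        ENNReal.ofReal (C * (Real.sqrt b / η) ^ s) * ∫⁻ x, ENNReal.ofReal
          (Q x * min ((Q x / (Real.sqrt b * η)) ^ a1) ((Q x / (Real.sqrt b * η)) ^ a2)) := by
  obtain ⟨Ca1, hCa1, hsc1⟩ := scalar s a1 hs hs2 h1 h1'
  obtain ⟨Ca2, hCa2, hsc2⟩ := scalar s a2 hs hs2 h2 h2'
  have hm : 0 < max Ca1 Ca2 := lt_max_of_lt_left hCa1
  refine ⟨C0 * max Ca1 Ca2, by positivity, ?_⟩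
  intro Q hQm hQ hQp hQint D gf hD hgf N E hfac hup hlow b η hb hη S z hz
  obtain ⟨C1, hC1, hlow⟩ := hlow
  obtain ⟨κ, hκd, hκ⟩ := branch b hb
  have hτ : 0 < Real.sqrt b := Real.sqrt_pos.mpr hb
  have hτ2 : Real.sqrt b ^ 2 = b := Real.sq_sqrt hb.le
  have hint : ∀ h : ℝ, 0 < h → Integrable (fun x => Q x * min 1 (Q x / h)) := fun h hh => (hQint h hh).1
  have hmaps : Set.MapsTo κ {z : ℂ | 0 < z.im} {z : ℂ | 0 < z.im} := fun w hw => (hκ w hw).1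
  -- the functions
  set f : ℂ → ℂ := fun w => D (κ w) with hf
  set h : ℂ → ℂ := fun w => gf (κ w) * ((∏ j ∈ S, (w + z j)) * ∏ j ∈ Finset.univ \ S, (w ^ 2 - b - E j)) with hh
  have hfd : DifferentiableOn ℂ f {z : ℂ | 0 < z.im} := hD.comp hκd hmaps
  have hhd : DifferentiableOn ℂ h {z : ℂ | 0 < z.im} := by
    apply (hgf.comp hκd hmaps).mul
    apply DifferentiableOn.mul
    · apply DifferentiableOn.fun_finsetProd
      intro j _
      fun_prop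
    · apply DifferentiableOn.fun_finsetProd
      intro j _
      fun_prop
  have hfact : ∀ w : ℂ, 0 < w.im → f w = h w * ∏ i : Fin S.card, (w - z (S.equivFin.symm i)) := by
    intro w hw
    have e0 : ∏ i : Fin S.card, (w - z (S.equivFin.symm i)) = ∏ j ∈ S, (w - z j) := by
      rw [Equiv.prod_comp S.equivFin.symm (fun j : S => w - z j)]
      exact Finset.prod_coe_sort S (fun j => w - z j)
    have e1 := hfac (κ w) (hκ w hw).1
    have e2 : ∏ j, ((κ w) ^ 2 - E j) = (∏ j ∈ Finset.univ \ S, (w ^ 2 - b - E j)) * ∏ j ∈ S, ((w + z j) * (w - z j)) := by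
      rw [← Finset.prod_sdiff (Finset.subset_univ S)]
      congr 1
      · apply Finset.prod_congr rfl
        intro j _
        rw [(hκ w hw).2.1]
      · apply Finset.prod_congr rfl
        intro j hj
        rw [(hκ w hw).2.1]
        linear_combination (hz j hj).1
    rw [e0]
    simp only [hf, hh]
    rw [e1, e2, Finset.prod_mul_distrib]
    ring
  -- upper bound
  have hlogf : ∀ w : ℂ, 0 < w.im → ∀ A y : ℝ, 0 < A → 0 < y → A ≤ ‖κ w‖ ^ 2 → y ≤ ‖κ w‖ * (κ w).im →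
      Real.log ‖f w‖ ≤ C0 * A ^ (s - 1 / 2) * y ^ (-s) * ∫ x, Q x * min 1 (Q x / y) := by
    intro w hw A y hA hy hAT hyY
    have hκim := (hκ w hw).1
    have hT : 0 < ‖κ w‖ := by
      apply norm_pos_iff.mpr
      intro h0
      rw [h0] at hκim
      simp at hκim
    refine le_trans ?_ (cx19_expo Q hQ hint hs hs2 hC0 hA hy hT hAT hyY)
    apply cx19_log_le _ (hup (κ w) hκim)
    have : 0 ≤ ∫ x, Q x * min 1 (Q x / (‖κ w‖ * (κ w).im)) := by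
      apply integral_nonneg
      intro x
      exact mul_nonneg (hQ x) (le_min zero_le_one (div_nonneg (hQ x) (by positivity)))
    positivity
  set B0 : ℝ → ℝ≥0∞ := fun x => ENNReal.ofReal (C0 * |x ^ 2 - (Real.sqrt b) ^ 2| ^ (s - 1 / 2) * (|x| * η) ^ (-s)) *
      ∫⁻ v, ENNReal.ofReal (Q v * min 1 (Q v / (|x| * η))) with hB0
  have hB0m : Measurable B0 := by
    apply Measurable.mul
    · fun_prop
    · apply Measurable.lintegral_prod_right' (f := fun p : ℝ × ℝ => ENNReal.ofReal (Q p.2 * min 1 (Q p.2 / (|p.1| * η))))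
      have hQ1 : Measurable (fun p : ℝ × ℝ => Q p.2) := hQm.comp measurable_snd
      fun_prop
  set ex : Set ℝ := {0, Real.sqrt b, -Real.sqrt b} with hex
  have hexm : MeasurableSet ex := (Set.toFinite ex).measurableSet
  set B : ℝ → ℝ≥0∞ := ex.piecewise (fun _ => ⊤) B0 with hB
  have hBm : Measurable B := Measurable.piecewise hexm measurable_const hB0m
  have hBint : ∫⁻ x, B x = ∫⁻ x, B0 x := by
    apply lintegral_congr_ae
    have h0 : volume ex = 0 := (Set.toFinite ex).measure_zero _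
    have : ∀ᵐ x, x ∉ ex := measure_eq_zero_iff_ae_notMem.mp h0
    filter_upwards [this] with x hx
    exact Set.piecewise_eq_of_notMem _ _ _ hx
  have hBub : ∀ w : ℂ, η ≤ w.im → ENNReal.ofReal (Real.log ‖f w‖) ≤ B w.re := by
    intro w hw
    have hw0 : 0 < w.im := hη.trans_le hw
    by_cases hx : w.re ∈ ex
    · rw [hB, Set.piecewise_eq_of_mem _ _ _ hx]; exact le_top
    · rw [hB, Set.piecewise_eq_of_notMem _ _ _ hx]
      simp only [hex, Set.mem_insert_iff, Set.mem_singleton_iff, not_or] at hx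
      have hx0 : 0 < |w.re| := abs_pos.mpr hx.1
      have hxb : w.re ^ 2 - (Real.sqrt b) ^ 2 ≠ 0 := by
        intro h0
        have : (w.re - Real.sqrt b) * (w.re + Real.sqrt b) = 0 := by linear_combination h0
        rcases mul_eq_zero.mp this with h3 | h3
        · exact hx.2.1 (by linarith)
        · exact hx.2.2 (by linarith)
      have hxb' : 0 < |w.re ^ 2 - (Real.sqrt b) ^ 2| := abs_pos.mpr hxb
      have hκw := hκ w hw0
      have h3 := hlogf w hw0 (|w.re ^ 2 - (Real.sqrt b) ^ 2|) (|w.re| * η) hxb' (by positivity)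
        (by rw [hτ2]; exact hκw.2.2.1) ((mul_le_mul_of_nonneg_left hw hx0.le).trans hκw.2.2.2.1)
      simp only [hB0]
      rw [← ofReal_integral_eq_lintegral_ofReal (hint (|w.re| * η) (by positivity))
        (Filter.Eventually.of_forall (fun x => mul_nonneg (hQ x) (le_min zero_le_one (div_nonneg (hQ x) (by positivity)))))]
      rw [← ENNReal.ofReal_mul (by positivity)]
      exact ENNReal.ofReal_le_ofReal h3
  -- far
  have hfar : ∀ ε : ℝ, 0 < ε → ∃ R₀ : ℝ, ∀ w : ℂ, R₀ ≤ ‖w‖ → ‖w‖ ≤ 8 * w.im →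
        Real.log ‖f w‖ ≤ ε / ‖w‖ := by
    intro ε hε
    set I := ∫ x, Q x ^ p with hI
    have hI0 : 0 ≤ I := integral_nonneg (fun x => Real.rpow_nonneg (hQ x) p)
    set c := C0 * (1 / 2 : ℝ) ^ (s - 1 / 2) * (1 / 64 : ℝ) ^ (-s) * ((1 / 64 : ℝ) ^ (1 - p) * I) with hc
    have ht : Filter.Tendsto (fun x : ℝ => c * x ^ (-(2 * (p - 1)))) Filter.atTop (nhds (c * 0)) :=
      (tendsto_rpow_neg_atTop (by linarith : 0 < 2 * (p - 1))).const_mul c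
    rw [mul_zero] at ht
    have hev := ht.eventually (ge_mem_nhds hε)
    obtain ⟨R1, hR1⟩ := Filter.eventually_atTop.mp hev
    refine ⟨max R1 (max 1 (2 * b + 1)), fun w hwR hw8 => ?_⟩
    have b1 : R1 ≤ ‖w‖ := (le_max_left _ _).trans hwR
    have b2 : 1 ≤ ‖w‖ := ((le_max_left _ _).trans (le_max_right _ _)).trans hwR
    have b3 : 2 * b + 1 ≤ ‖w‖ := ((le_max_right _ _).trans (le_max_right _ _)).trans hwR
    have hw0 : 0 < ‖w‖ := by linarith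
    have hwim : 0 < w.im := by linarith
    have hκw := hκ w hwim
    have hA : ‖w‖ ^ 2 * (1 / 2) ≤ ‖κ w‖ ^ 2 := by
      refine le_trans ?_ hκw.2.2.2.2.2.2.1
      nlinarith
    have hy : ‖w‖ ^ 2 * (1 / 64) ≤ ‖κ w‖ * (κ w).im := by
      refine le_trans ?_ hκw.2.2.2.2.1
      nlinarith
    have hy0 : 0 < ‖w‖ ^ 2 * (1 / 64) := by positivity
    have h3 := hlogf w hwim (‖w‖ ^ 2 * (1 / 2)) (‖w‖ ^ 2 * (1 / 64)) (by positivity) hy0 hA hy
    have h4 := (hQint _ hy0).2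
    have h5 : Real.log ‖f w‖ ≤ C0 * (‖w‖ ^ 2 * (1 / 2)) ^ (s - 1 / 2) * (‖w‖ ^ 2 * (1 / 64)) ^ (-s) *
        ((‖w‖ ^ 2 * (1 / 64)) ^ (1 - p) * I) :=
      h3.trans (mul_le_mul_of_nonneg_left h4 (by positivity))
    have h6 : C0 * (‖w‖ ^ 2 * (1 / 2)) ^ (s - 1 / 2) * (‖w‖ ^ 2 * (1 / 64)) ^ (-s) *
        ((‖w‖ ^ 2 * (1 / 64)) ^ (1 - p) * I) = (c * ‖w‖ ^ (-(2 * (p - 1)))) / ‖w‖ := by
      have r0 : ∀ t : ℝ, (‖w‖ ^ 2) ^ t = ‖w‖ ^ (2 * t) := by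
        intro t
        rw [← Real.rpow_natCast, ← Real.rpow_mul hw0.le]; norm_num
      have r1 : (‖w‖ ^ 2 * (1 / 2)) ^ (s - 1 / 2) = ‖w‖ ^ (2 * (s - 1 / 2)) * (1 / 2) ^ (s - 1 / 2) := by
        rw [Real.mul_rpow (by positivity) (by norm_num), r0]
      have r2 : (‖w‖ ^ 2 * (1 / 64)) ^ (-s) = ‖w‖ ^ (2 * (-s)) * (1 / 64) ^ (-s) := by
        rw [Real.mul_rpow (by positivity) (by norm_num), r0]
      have r3 : (‖w‖ ^ 2 * (1 / 64)) ^ (1 - p) = ‖w‖ ^ (2 * (1 - p)) * (1 / 64) ^ (1 - p) := by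
        rw [Real.mul_rpow (by positivity) (by norm_num), r0]
      have r4 : ‖w‖ ^ (-(2 * (p - 1))) / ‖w‖ = ‖w‖ ^ (2 * (s - 1 / 2)) * ‖w‖ ^ (2 * (-s)) * ‖w‖ ^ (2 * (1 - p)) := by
        rw [← Real.rpow_add hw0, ← Real.rpow_add hw0, div_eq_mul_inv, ← Real.rpow_neg_one, ← Real.rpow_add hw0]
        congr 1; ring
      rw [r1, r2, r3, mul_div_assoc, r4, hc]
      ring
    rw [h6] at h5
    refine h5.trans ?_
    exact div_le_div_of_nonneg_right (hR1 _ b1) hw0.le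
  -- center
  have hcen : ∀ ε : ℝ, 0 < ε → ∃ R₀ : ℝ, ∀ R : ℝ, R₀ ≤ R →
        f (Complex.I * (η + R)) ≠ 0 ∧ -(ε / R) ≤ Real.log ‖f (Complex.I * (η + R))‖ := by
    intro ε hε
    refine ⟨1 + 2 * b + 2 * C1 ^ 2 + 2 * C1 / ε, fun R hR => ?_⟩
    have p1 : 0 < 2 * C1 / ε := by positivity
    have p2 : 0 < 2 * C1 ^ 2 := by positivity
    have hR1 : 1 ≤ R := by linarith
    have hRb : 2 * b ≤ R := by linarith
    have hRC : 2 * C1 ^ 2 ≤ R := by linarith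
    have hRε : 2 * C1 / ε ≤ R := by linarith
    have hR0 : 0 < R := by linarith
    have hRR : R ≤ R ^ 2 := by
      rw [pow_two]; exact le_mul_of_one_le_left hR0.le hR1
    set w : ℂ := Complex.I * (η + R) with hw
    have hwim' : w.im = η + R := by simp [hw]
    have hwn : ‖w‖ = η + R := by
      rw [hw, norm_mul, Complex.norm_I, one_mul, ← Complex.ofReal_add, Complex.norm_real,
        Real.norm_of_nonneg (by positivity)]
    have hwim : 0 < w.im := by rw [hwim']; positivity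
    have hκw := hκ w hwim
    have q1 : 1 ≤ (κ w).im := le_trans (by rw [hwim']; linarith) hκw.2.2.2.2.2.1
    have q2 : R ^ 2 / 2 ≤ ‖κ w‖ ^ 2 := by
      refine le_trans ?_ hκw.2.2.2.2.2.2.1
      rw [hwn]
      have : R ^ 2 ≤ (η + R) ^ 2 := pow_le_pow_left₀ hR0.le (by linarith) 2
      linarith
    have q3 : C1 ≤ ‖κ w‖ := by
      apply le_of_sq_le_sq _ (norm_nonneg _)
      refine le_trans ?_ q2
      linarith
    have q4 := hlow (κ w) q1 q3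
    have q5 : 0 < ‖D (κ w)‖ := (Real.exp_pos _).trans_le q4
    refine ⟨norm_pos_iff.mp q5, ?_⟩
    have q6 : -(C1 / ‖κ w‖ ^ 2) ≤ Real.log ‖f w‖ := by
      rw [← Real.log_exp (-(C1 / ‖κ w‖ ^ 2))]
      exact Real.log_le_log (Real.exp_pos _) q4
    refine le_trans ?_ q6
    rw [neg_le_neg_iff]
    have q7 : C1 / ‖κ w‖ ^ 2 ≤ C1 / (R ^ 2 / 2) := div_le_div_of_nonneg_left hC1.le (by positivity) q2
    refine q7.trans ?_
    rw [div_le_div_iff₀ (by positivity) hR0]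
    have q8 : 2 * C1 ≤ R * ε := by rwa [div_le_iff₀ hε] at hRε
    have q9 : (2 * C1) * R ≤ (R * ε) * R := mul_le_mul_of_nonneg_right q8 hR0.le
    linarith
  have hfin := halfplane f h hfd hhd S.card (fun i => z (S.equivFin.symm i)) η hη
    (fun i => (hz _ (S.equivFin.symm i).2).2) hfact B hBm hBub hfar hcen
  have hsum : ∑ i : Fin S.card, ((z (S.equivFin.symm i)).im - η) = ∑ j ∈ S, ((z j).im - η) := by
    rw [Equiv.sum_comp S.equivFin.symm (fun j : S => (z j).im - η)]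
    exact Finset.sum_coe_sort S (fun j => (z j).im - η)
  rw [hsum, hBint] at hfin
  exact hfin.trans (cx19_int hs (hs.trans h1) (by linarith) (hs.trans h2) (by linarith) hC0 hη hτ hCa1 hCa2
    (hsc1 _ hτ) (hsc2 _ hτ) Q hQm hQ)

end A19b
end Pool.Agent.Helper209.CX
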