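import Mathlib
import Pool.Agent.Helper209.CX.Defs

namespace Pool.Agent.Helper209.CX

namespace A19c
open MeasureTheory ENNReal









theorem cx_sqrt_exists (w : ℂ) : ∃ z : ℂ, z ^ 2 = w ∧ 0 ≤ z.im := by
  obtain ⟨z, hz⟩ := IsAlgClosed.exists_pow_nat_eq w (n := 2) (by norm_num)
  by_cases h : 0 ≤ z.im
  · exact ⟨z, hz, h⟩
  · refine ⟨-z, by rw [neg_sq, hz], ?_⟩
    rw [Complex.neg_im]
    linarith [not_le.mp h]

theorem cx_min_bound {y a1 a2 : ℝ} (hy : 0 ≤ y) (h1' : a1 < 1) (h2' : a2 < 1) :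
    min ((16 * y) ^ a1) ((16 * y) ^ a2) ≤ 16 * min (y ^ a1) (y ^ a2) := by
  have h : ∀ a : ℝ, a < 1 → (16 * y) ^ a ≤ 16 * y ^ a := by
    intro a ha
    rw [Real.mul_rpow (by norm_num) hy]
    refine mul_le_mul_of_nonneg_right ?_ (Real.rpow_nonneg hy a)
    calc (16 : ℝ) ^ a ≤ 16 ^ (1 : ℝ) := Real.rpow_le_rpow_of_exponent_le (by norm_num) ha.le
      _ = 16 := Real.rpow_one _
  rw [mul_min_of_nonneg _ _ (by norm_num : (0 : ℝ) ≤ 16)]
  exact min_le_min (h a1 h1') (h a2 h2')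

theorem cx_count
    (geom : ∀ (E z : ℂ) (b : ℝ) (_ : 0 < b) (_ : 4 * b ≤ ‖E‖) (_ : z ^ 2 = E + b) (_ : 0 ≤ z.im),
      (‖E‖ - E.re) / 2 ≤ 5 * z.im ^ 2)
    (s a1 a2 C : ℝ) (hs : 0 < s) (hs2 : s < 1 / 2) (h1 : 0 < a1) (h1' : a1 < 1)
    (h2 : 0 < a2) (h2' : a2 < 1) (hC : 0 < C) (Q : ℝ → ℝ) (hQm : Measurable Q) (hQ0 : ∀ x, 0 ≤ Q x)
    (N : ℕ) (E : Fin N → ℂ)
    (hcount : ∀ (b η : ℝ) (_ : 0 < b) (_ : 0 < η) (S : Finset (Fin N)) (z : Fin N → ℂ)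
      (_ : ∀ j ∈ S, z j ^ 2 = E j + b ∧ η < (z j).im),
      ENNReal.ofReal (∑ j ∈ S, ((z j).im - η)) ≤
        ENNReal.ofReal (C * (Real.sqrt b / η) ^ s) * ∫⁻ x, ENNReal.ofReal
          (Q x * min ((Q x / (Real.sqrt b * η)) ^ a1) ((Q x / (Real.sqrt b * η)) ^ a2)))
    (t κ : ℝ) (ht : 0 < t) (hκ : 0 < κ) (hκ1 : κ ≤ 1) :
    ENNReal.ofReal (κ * t * (Finset.univ.filter (fun j => t ≤ Real.sqrt ‖E j‖ ∧
        κ ≤ Real.sqrt ((1 - (E j).re / ‖E j‖) / 2))).card) ≤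
      ENNReal.ofReal (256 * C * κ ^ (-s)) * ∫⁻ x, ENNReal.ofReal
        (Q x * min ((Q x / (κ * t ^ 2)) ^ a1) ((Q x / (κ * t ^ 2)) ^ a2)) := by
  have hz : ∀ j, ∃ z : ℂ, z ^ 2 = E j + ((t ^ 2 / 4 : ℝ) : ℂ) ∧ 0 ≤ z.im :=
    fun j => cx_sqrt_exists _
  choose z hz1 hz2 using hz
  set S := Finset.univ.filter (fun j => t ≤ Real.sqrt ‖E j‖ ∧
        κ ≤ Real.sqrt ((1 - (E j).re / ‖E j‖) / 2)) with hS
  have hb : 0 < t ^ 2 / 4 := by positivity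
  have hη : 0 < κ * t / 8 := by positivity
  have hsqrtb : Real.sqrt (t ^ 2 / 4) = t / 2 := by
    rw [show t ^ 2 / 4 = (t / 2) ^ 2 by ring]
    exact Real.sqrt_sq (by positivity)
  have him : ∀ j ∈ S, 3 * (κ * t) / 8 ≤ (z j).im := by
    intro j hj
    rw [hS, Finset.mem_filter] at hj
    obtain ⟨-, hj1, hj2⟩ := hj
    have hE1 : t ^ 2 ≤ ‖E j‖ := by
      have := Real.le_sqrt' ht |>.mp hj1
      exact this
    have hE0 : 0 < ‖E j‖ := lt_of_lt_of_le (by positivity) hE1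
    have hE2 : κ ^ 2 ≤ (1 - (E j).re / ‖E j‖) / 2 := Real.le_sqrt' hκ |>.mp hj2
    have hE3 : κ ^ 2 * ‖E j‖ ≤ (‖E j‖ - (E j).re) / 2 := by
      have := mul_le_mul_of_nonneg_right hE2 hE0.le
      have e : (1 - (E j).re / ‖E j‖) / 2 * ‖E j‖ = (‖E j‖ - (E j).re) / 2 := by
        field_simp
      rwa [e] at this
    have hg := geom (E j) (z j) (t ^ 2 / 4) hb (by linarith) (hz1 j) (hz2 j)
    have h5 : κ ^ 2 * t ^ 2 ≤ 5 * (z j).im ^ 2 := by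
      have : κ ^ 2 * t ^ 2 ≤ κ ^ 2 * ‖E j‖ := mul_le_mul_of_nonneg_left hE1 (by positivity)
      linarith
    have h6 : (3 * (κ * t) / 8) ^ 2 ≤ (z j).im ^ 2 := by
      have h7 : 0 ≤ κ ^ 2 * t ^ 2 := by positivity
      nlinarith
    exact (pow_le_pow_iff_left₀ (by positivity) (hz2 j) two_ne_zero).mp h6
  have hc := hcount (t ^ 2 / 4) (κ * t / 8) hb hη S z (by
    intro j hj
    refine ⟨hz1 j, ?_⟩
    have h1 := him j hj
    have h2 : 0 < κ * t := by positivity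
    linarith)
  have hsum : κ * t * (S.card : ℝ) ≤ 4 * ∑ j ∈ S, ((z j).im - κ * t / 8) := by
    have h1 : ∑ j ∈ S, (κ * t / 4) ≤ ∑ j ∈ S, ((z j).im - κ * t / 8) := by
      refine Finset.sum_le_sum fun j hj => ?_
      have := him j hj
      linarith
    rw [Finset.sum_const, nsmul_eq_mul] at h1
    linarith
  have hr1 : (Real.sqrt (t ^ 2 / 4) / (κ * t / 8)) ^ s ≤ 4 * κ ^ (-s) := by
    rw [hsqrtb]
    have e : t / 2 / (κ * t / 8) = 4 * κ⁻¹ := by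
      field_simp
      norm_num
    rw [e, Real.mul_rpow (by norm_num) (by positivity), Real.inv_rpow hκ.le,
      ← Real.rpow_neg hκ.le]
    refine mul_le_mul_of_nonneg_right ?_ (by positivity)
    calc (4 : ℝ) ^ s ≤ 4 ^ (1 : ℝ) :=
          Real.rpow_le_rpow_of_exponent_le (by norm_num) (by linarith)
      _ = 4 := Real.rpow_one _
  have hint : ∫⁻ x, ENNReal.ofReal (Q x * min ((Q x / (Real.sqrt (t ^ 2 / 4) *
        (κ * t / 8))) ^ a1) ((Q x / (Real.sqrt (t ^ 2 / 4) * (κ * t / 8))) ^ a2)) ≤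
      ENNReal.ofReal 16 * ∫⁻ x, ENNReal.ofReal
        (Q x * min ((Q x / (κ * t ^ 2)) ^ a1) ((Q x / (κ * t ^ 2)) ^ a2)) := by
    rw [← lintegral_const_mul' _ _ ENNReal.ofReal_ne_top]
    refine lintegral_mono fun x => ?_
    rw [← ENNReal.ofReal_mul (by norm_num)]
    refine ENNReal.ofReal_le_ofReal ?_
    have e : Q x / (Real.sqrt (t ^ 2 / 4) * (κ * t / 8)) = 16 * (Q x / (κ * t ^ 2)) := by
      rw [hsqrtb]
      field_simp
      ring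
    rw [e]
    have h := cx_min_bound (y := Q x / (κ * t ^ 2)) (div_nonneg (hQ0 x) (by positivity)) h1' h2'
    have h2 := mul_le_mul_of_nonneg_left h (hQ0 x)
    refine h2.trans (le_of_eq ?_)
    ring
  calc ENNReal.ofReal (κ * t * (S.card : ℝ))
      ≤ ENNReal.ofReal (4 * ∑ j ∈ S, ((z j).im - κ * t / 8)) := ENNReal.ofReal_le_ofReal hsum
    _ = ENNReal.ofReal 4 * ENNReal.ofReal (∑ j ∈ S, ((z j).im - κ * t / 8)) :=
        ENNReal.ofReal_mul (by norm_num)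
    _ ≤ ENNReal.ofReal 4 * (ENNReal.ofReal (C * (4 * κ ^ (-s))) * (ENNReal.ofReal 16 *
          ∫⁻ x, ENNReal.ofReal
        (Q x * min ((Q x / (κ * t ^ 2)) ^ a1) ((Q x / (κ * t ^ 2)) ^ a2)))) := by
        refine mul_le_mul' le_rfl (hc.trans (mul_le_mul' ?_ hint))
        exact ENNReal.ofReal_le_ofReal (mul_le_mul_of_nonneg_left hr1 hC.le)
    _ = ENNReal.ofReal (256 * C * κ ^ (-s)) * ∫⁻ x, ENNReal.ofReal
        (Q x * min ((Q x / (κ * t ^ 2)) ^ a1) ((Q x / (κ * t ^ 2)) ^ a2)) := by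
        rw [← mul_assoc, ← mul_assoc, ← ENNReal.ofReal_mul (by norm_num),
          ← ENNReal.ofReal_mul (by positivity)]
        congr 2
        ring

end A19c
end Pool.Agent.Helper209.CX
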