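import Mathlib

namespace Pool.Agent.Helper209.CX

namespace A20

/-- Comparison of `Im √(E+b)` with `Im √E`. -/
theorem cx_geom (E z : ℂ) (b : ℝ) (hb : 0 < b) (hE : 4 * b ≤ ‖E‖) (hz : z ^ 2 = E + b) (hz0 : 0 ≤ z.im) :
    (‖E‖ - E.re) / 2 ≤ 5 * z.im ^ 2 := by
  have hre : z.re ^ 2 - z.im ^ 2 = E.re + b := by
    have := congrArg Complex.re hz
    simp [pow_two] at this
    nlinarith [this]
  have him : 2 * (z.re * z.im) = E.im := by
    have := congrArg Complex.im hz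
    simp [pow_two] at this
    nlinarith [this]
  have hR : ‖E‖ ^ 2 = E.re ^ 2 + E.im ^ 2 := by
    rw [Complex.sq_norm, Complex.normSq_apply]; ring
  have hS : ‖E + b‖ = z.re ^ 2 + z.im ^ 2 := by
    rw [← hz, norm_pow, Complex.sq_norm, Complex.normSq_apply]; ring
  have hRpos : 0 < ‖E‖ := by linarith
  have hu1 : E.re ≤ ‖E‖ := Complex.re_le_norm E
  have hu2 : -‖E‖ ≤ E.re := (abs_le.1 (Complex.abs_re_le_norm E)).1
  have hSle : ‖E + b‖ ≤ ‖E‖ + b := by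
    have h := norm_add_le E (b : ℂ)
    rwa [Complex.norm_real, Real.norm_eq_abs, abs_of_pos hb] at h
  have hSge : ‖E‖ - b ≤ ‖E + b‖ := by
    have h := norm_sub_le (E + b) (b : ℂ)
    rw [add_sub_cancel_right, Complex.norm_real, Real.norm_eq_abs, abs_of_pos hb] at h
    linarith
  have hy : 0 ≤ z.im ^ 2 := sq_nonneg _
  rcases le_or_gt (-‖E‖ / 2) E.re with hc | hc
  · -- y² * x² = v² / 4
    have h1 : (2 * z.im ^ 2) * (2 * z.re ^ 2) = (‖E‖ - E.re) * (‖E‖ + E.re) := by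
      have : (‖E‖ - E.re) * (‖E‖ + E.re) = E.im ^ 2 := by nlinarith
      rw [this, ← him]; ring
    have h2 : 2 * z.re ^ 2 ≤ 5 / 2 * ‖E‖ := by
      have : 2 * z.re ^ 2 = ‖E + b‖ + E.re + b := by rw [hS]; linarith
      rw [this]; linarith
    have h3 : (‖E‖ - E.re) * (‖E‖ / 2) ≤ (‖E‖ - E.re) * (‖E‖ + E.re) :=
      mul_le_mul_of_nonneg_left (by linarith) (by linarith)
    have h4 : (2 * z.im ^ 2) * (2 * z.re ^ 2) ≤ (2 * z.im ^ 2) * (5 / 2 * ‖E‖) :=
      mul_le_mul_of_nonneg_left h2 (by positivity)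
    have h5 : (‖E‖ - E.re) * ‖E‖ ≤ (10 * z.im ^ 2) * ‖E‖ := by nlinarith
    have h6 := le_of_mul_le_mul_right h5 hRpos
    linarith
  · have h1 : 2 * z.im ^ 2 = ‖E + b‖ - E.re - b := by rw [hS]; linarith
    linarith

end A20
end Pool.Agent.Helper209.CX
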