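import Mathlib

namespace Pool.Agent.Helper209.CX

namespace A21
open MeasureTheory ENNReal

theorem lay_P1 (b T : ℝ) (hb : -1 < b) (hT : 0 ≤ T) :
    ∫⁻ t in Set.Ioc 0 T, ENNReal.ofReal (t ^ b) = ENNReal.ofReal (T ^ (b + 1) / (b + 1)) := by
  rw [← ofReal_integral_eq_lintegral_ofReal]
  · congr 1
    rw [← intervalIntegral.integral_of_le hT, integral_rpow (Or.inl hb),
      Real.zero_rpow (by linarith), sub_zero]
  · exact (intervalIntegrable_iff_integrableOn_Ioc_of_le hT).1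
      (intervalIntegral.intervalIntegrable_rpow' hb)
  · filter_upwards [ae_restrict_mem measurableSet_Ioc] with t ht
    exact Real.rpow_nonneg ht.1.le _

theorem lay_P2 (b T : ℝ) (hb : b < -1) (hT : 0 < T) :
    ∫⁻ t in Set.Ioi T, ENNReal.ofReal (t ^ b) = ENNReal.ofReal (-T ^ (b + 1) / (b + 1)) := by
  rw [← ofReal_integral_eq_lintegral_ofReal]
  · congr 1
    exact integral_Ioi_rpow_of_lt hb hT
  · exact integrableOn_Ioi_rpow_of_lt hb hT
  · filter_upwards [ae_restrict_mem measurableSet_Ioi] with t ht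
    exact Real.rpow_nonneg (hT.trans ht).le _

theorem lay_pt (γ a A t : ℝ) (hA : 0 < A) (ht : 0 < t) :
    t ^ (2 * γ - 2) * (A / t ^ 2) ^ a = A ^ a * t ^ (2 * γ - 2 - 2 * a) := by
  rw [Real.div_rpow hA.le (sq_nonneg t), ← Real.rpow_natCast t 2, ← Real.rpow_mul ht.le,
    Real.rpow_sub ht (2 * γ - 2) (2 * a)]
  push_cast
  ring

theorem lay_inner (γ a1 a2 A : ℝ) (h1 : 0 < a1) (h1' : a1 < γ - 1 / 2) (h2 : γ - 1 / 2 < a2)
    (hA : 0 ≤ A) :
    ∫⁻ t in Set.Ioi (0:ℝ), ENNReal.ofReal (t ^ (2 * γ - 2) * min ((A / t ^ 2) ^ a1) ((A / t ^ 2) ^ a2)) ≤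
      ENNReal.ofReal ((1 / (2 * γ - 1 - 2 * a1) + 1 / (2 * a2 - 2 * γ + 1)) * A ^ (γ - 1 / 2)) := by
  rcases hA.eq_or_lt with h | hA
  · subst h
    have : ∀ t : ℝ, t ^ (2 * γ - 2) * min (((0:ℝ) / t ^ 2) ^ a1) (((0:ℝ) / t ^ 2) ^ a2) = 0 := by
      intro t
      rw [zero_div, Real.zero_rpow h1.ne', Real.zero_rpow (by linarith), min_self, mul_zero]
    simp only [this, ENNReal.ofReal_zero, lintegral_zero]
    exact zero_le
  · set T : ℝ := A ^ (1 / 2 : ℝ) with hTdef
    have hT : 0 < T := Real.rpow_pos_of_pos hA _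
    have hd1 : 0 < 2 * γ - 1 - 2 * a1 := by linarith
    have hd2 : 0 < 2 * a2 - 2 * γ + 1 := by linarith
    have hu : Set.Ioi (0:ℝ) = Set.Ioc 0 T ∪ Set.Ioi T := (Set.Ioc_union_Ioi_eq_Ioi hT.le).symm
    have e1 : ∫⁻ t in Set.Ioc 0 T, ENNReal.ofReal (t ^ (2 * γ - 2) * min ((A / t ^ 2) ^ a1) ((A / t ^ 2) ^ a2)) ≤
        ENNReal.ofReal (1 / (2 * γ - 1 - 2 * a1) * A ^ (γ - 1 / 2)) := by
      calc _ ≤ ∫⁻ t in Set.Ioc 0 T, ENNReal.ofReal (A ^ a1) * ENNReal.ofReal (t ^ (2 * γ - 2 - 2 * a1)) := by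
            refine setLIntegral_mono' measurableSet_Ioc fun t ht => ?_
            rw [← ENNReal.ofReal_mul (Real.rpow_nonneg hA.le _)]
            apply ENNReal.ofReal_le_ofReal
            rw [← lay_pt γ a1 A t hA ht.1]
            exact mul_le_mul_of_nonneg_left (min_le_left _ _) (Real.rpow_nonneg ht.1.le _)
        _ = ENNReal.ofReal (A ^ a1) * ENNReal.ofReal (T ^ (2 * γ - 2 - 2 * a1 + 1) / (2 * γ - 2 - 2 * a1 + 1)) := by
            rw [lintegral_const_mul' _ _ ENNReal.ofReal_ne_top, lay_P1 _ _ (by linarith) hT.le]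
        _ = ENNReal.ofReal (1 / (2 * γ - 1 - 2 * a1) * A ^ (γ - 1 / 2)) := by
            rw [← ENNReal.ofReal_mul (Real.rpow_nonneg hA.le _)]
            congr 1
            have e3 : 2 * γ - 2 - 2 * a1 + 1 = 2 * γ - 1 - 2 * a1 := by ring
            rw [e3, hTdef, ← Real.rpow_mul hA.le, mul_div_assoc', ← Real.rpow_add hA]
            have e4 : a1 + 1 / 2 * (2 * γ - 1 - 2 * a1) = γ - 1 / 2 := by ring
            rw [e4]
            ring
    have e2 : ∫⁻ t in Set.Ioi T, ENNReal.ofReal (t ^ (2 * γ - 2) * min ((A / t ^ 2) ^ a1) ((A / t ^ 2) ^ a2)) ≤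
        ENNReal.ofReal (1 / (2 * a2 - 2 * γ + 1) * A ^ (γ - 1 / 2)) := by
      calc _ ≤ ∫⁻ t in Set.Ioi T, ENNReal.ofReal (A ^ a2) * ENNReal.ofReal (t ^ (2 * γ - 2 - 2 * a2)) := by
            refine setLIntegral_mono' measurableSet_Ioi fun t ht => ?_
            have ht0 : 0 < t := hT.trans ht
            rw [← ENNReal.ofReal_mul (Real.rpow_nonneg hA.le _)]
            apply ENNReal.ofReal_le_ofReal
            rw [← lay_pt γ a2 A t hA ht0]
            exact mul_le_mul_of_nonneg_left (min_le_right _ _) (Real.rpow_nonneg ht0.le _)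
        _ = ENNReal.ofReal (A ^ a2) * ENNReal.ofReal (-T ^ (2 * γ - 2 - 2 * a2 + 1) / (2 * γ - 2 - 2 * a2 + 1)) := by
            rw [lintegral_const_mul' _ _ ENNReal.ofReal_ne_top, lay_P2 _ _ (by linarith) hT]
        _ = ENNReal.ofReal (1 / (2 * a2 - 2 * γ + 1) * A ^ (γ - 1 / 2)) := by
            rw [← ENNReal.ofReal_mul (Real.rpow_nonneg hA.le _)]
            congr 1
            have e3 : 2 * γ - 2 - 2 * a2 + 1 = -(2 * a2 - 2 * γ + 1) := by ring
            rw [e3, neg_div_neg_eq, hTdef, ← Real.rpow_mul hA.le, mul_div_assoc', ← Real.rpow_add hA]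
            have e4 : a2 + 1 / 2 * -(2 * a2 - 2 * γ + 1) = γ - 1 / 2 := by ring
            rw [e4]
            ring
    rw [hu]
    refine (lintegral_union_le _ _ _).trans ?_
    rw [add_mul, ENNReal.ofReal_add (by positivity) (by positivity)]
    exact add_le_add e1 e2

/-- weight -/
noncomputable def layw (γ σ s c : ℝ) (p : ℝ × ℝ) : ℝ :=
  p.1 ^ (γ + σ - 1) * p.2 ^ (2 * γ - 1) * ((p.1 * p.2)⁻¹ * (c * p.1 ^ (-s)))

theorem lay_dbl (γ σ s a1 a2 c : ℝ) (hγ : 1 / 2 < γ) (hs : 0 < s) (hsσ : s < σ - 1 / 2)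
    (h1 : 0 < a1) (h1' : a1 < γ - 1 / 2) (h2 : γ - 1 / 2 < a2) (hc : 0 < c) (q : ℝ) (hq : 0 ≤ q) :
    ∫⁻ p, ENNReal.ofReal (layw γ σ s c p) * ENNReal.ofReal
      (q * min ((q / (p.1 * p.2 ^ 2)) ^ a1) ((q / (p.1 * p.2 ^ 2)) ^ a2))
      ∂((volume.restrict (Set.Ioc (0:ℝ) 1)).prod (volume.restrict (Set.Ioi (0:ℝ)))) ≤
    ENNReal.ofReal (c * (1 / (2 * γ - 1 - 2 * a1) + 1 / (2 * a2 - 2 * γ + 1)) / (σ - s - 1 / 2) *
      q ^ (γ + 1 / 2)) := by
  set C1 : ℝ := 1 / (2 * γ - 1 - 2 * a1) + 1 / (2 * a2 - 2 * γ + 1) with hC1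
  have hd1 : 0 < 2 * γ - 1 - 2 * a1 := by linarith
  have hd2 : 0 < 2 * a2 - 2 * γ + 1 := by linarith
  have hC1p : 0 < C1 := by positivity
  have hd3 : 0 < σ - s - 1 / 2 := by linarith
  rw [lintegral_prod _ (by unfold layw; fun_prop)]
  calc _ ≤ ∫⁻ κ in Set.Ioc (0:ℝ) 1, ENNReal.ofReal (c * C1 * q ^ (γ + 1 / 2)) *
        ENNReal.ofReal (κ ^ (σ - s - 3 / 2)) := by
        refine setLIntegral_mono' measurableSet_Ioc fun κ hκ => ?_
        have hκ0 : 0 < κ := hκ.1
        have hin := lay_inner γ a1 a2 (q / κ) h1 h1' h2 (div_nonneg hq hκ0.le)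
        calc _ ≤ ∫⁻ t in Set.Ioi (0:ℝ), ENNReal.ofReal (c * κ ^ (γ + σ - 2 - s) * q) *
              ENNReal.ofReal (t ^ (2 * γ - 2) * min ((q / κ / t ^ 2) ^ a1) ((q / κ / t ^ 2) ^ a2)) := by
              refine setLIntegral_mono' measurableSet_Ioi fun t ht => ?_
              have ht0 : 0 < t := ht
              have hw : 0 ≤ layw γ σ s c (κ, t) := by
                unfold layw
                positivity
              rw [← ENNReal.ofReal_mul hw, ← ENNReal.ofReal_mul (by positivity)]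
              apply le_of_eq
              congr 1
              unfold layw
              have e1 : q / (κ * t ^ 2) = q / κ / t ^ 2 := by rw [div_div]
              simp only [e1]
              have e2 : κ ^ (γ + σ - 2 - s) = κ ^ (γ + σ - 1) * κ⁻¹ * κ ^ (-s) := by
                rw [← Real.rpow_neg_one κ, ← Real.rpow_add hκ0, ← Real.rpow_add hκ0]
                congr 1
                ring
              have e3 : t ^ (2 * γ - 2) = t ^ (2 * γ - 1) * t⁻¹ := by
                rw [← Real.rpow_neg_one t, ← Real.rpow_add ht0]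
                congr 1
                ring
              rw [e2, e3, mul_inv]
              ring
          _ = ENNReal.ofReal (c * κ ^ (γ + σ - 2 - s) * q) * ∫⁻ t in Set.Ioi (0:ℝ),
              ENNReal.ofReal (t ^ (2 * γ - 2) * min ((q / κ / t ^ 2) ^ a1) ((q / κ / t ^ 2) ^ a2)) := by
              rw [lintegral_const_mul' _ _ ENNReal.ofReal_ne_top]
          _ ≤ ENNReal.ofReal (c * κ ^ (γ + σ - 2 - s) * q) *
              ENNReal.ofReal (C1 * (q / κ) ^ (γ - 1 / 2)) := by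
              gcongr
          _ = _ := by
              rw [← ENNReal.ofReal_mul (by positivity), ← ENNReal.ofReal_mul (by positivity)]
              congr 1
              rcases hq.eq_or_lt with h0 | hq0
              · rw [← h0, Real.zero_rpow (by linarith)]
                ring
              · rw [Real.div_rpow hq hκ0.le]
                have e1 : q ^ (γ + 1 / 2) = q * q ^ (γ - 1 / 2) := by
                  conv_rhs => rw [← Real.rpow_one q]
                  rw [← Real.rpow_mul hq, ← Real.rpow_add hq0]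
                  congr 1
                  ring
                have e2 : κ ^ (σ - s - 3 / 2) = κ ^ (γ + σ - 2 - s) / κ ^ (γ - 1 / 2) := by
                  rw [← Real.rpow_sub hκ0]
                  congr 1
                  ring
                rw [e1, e2]
                ring
    _ = ENNReal.ofReal (c * C1 * q ^ (γ + 1 / 2)) * ENNReal.ofReal ((1:ℝ) ^ (σ - s - 3 / 2 + 1) / (σ - s - 3 / 2 + 1)) := by
        rw [lintegral_const_mul' _ _ ENNReal.ofReal_ne_top, lay_P1 _ _ (by linarith) zero_le_one]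
    _ = _ := by
        rw [← ENNReal.ofReal_mul (by positivity), Real.one_rpow]
        congr 1
        have : σ - s - 3 / 2 + 1 = σ - s - 1 / 2 := by ring
        rw [this]
        ring

theorem lay_one (γ σ θ r : ℝ) (hγ : 1 / 2 < γ) (hσ : 0 < σ) (hθ0 : 0 ≤ θ) (hθ1 : θ ≤ 1) (hr : 0 ≤ r) :
    ENNReal.ofReal (θ ^ (γ + σ) * r ^ (2 * γ)) = ENNReal.ofReal ((γ + σ) * (2 * γ)) *
      ∫⁻ p, ((if p.1 ≤ θ then ENNReal.ofReal (p.1 ^ (γ + σ - 1)) else 0) *
        (if p.2 ≤ r then ENNReal.ofReal (p.2 ^ (2 * γ - 1)) else 0))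
      ∂((volume.restrict (Set.Ioc (0:ℝ) 1)).prod (volume.restrict (Set.Ioi (0:ℝ)))) := by
  have m1 : Measurable fun κ : ℝ => (if κ ≤ θ then ENNReal.ofReal (κ ^ (γ + σ - 1)) else 0) :=
    Measurable.ite (measurableSet_Iic) (by fun_prop) measurable_const
  have m2 : Measurable fun t : ℝ => (if t ≤ r then ENNReal.ofReal (t ^ (2 * γ - 1)) else 0) :=
    Measurable.ite (measurableSet_Iic) (by fun_prop) measurable_const
  rw [lintegral_prod_mul m1.aemeasurable m2.aemeasurable]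
  have i1 : ∫⁻ κ in Set.Ioc (0:ℝ) 1, (if κ ≤ θ then ENNReal.ofReal (κ ^ (γ + σ - 1)) else 0) =
      ENNReal.ofReal (θ ^ (γ + σ) / (γ + σ)) := by
    have e : (fun κ : ℝ => (if κ ≤ θ then ENNReal.ofReal (κ ^ (γ + σ - 1)) else 0)) =
        (Set.Iic θ).indicator (fun κ => ENNReal.ofReal (κ ^ (γ + σ - 1))) := by
      funext κ
      by_cases h : κ ≤ θ
      · simp [h]
      · simp [h]
    rw [e, lintegral_indicator measurableSet_Iic, Measure.restrict_restrict measurableSet_Iic]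
    have e2 : Set.Iic θ ∩ Set.Ioc (0:ℝ) 1 = Set.Ioc 0 θ := by
      ext x
      simp only [Set.mem_inter_iff, Set.mem_Iic, Set.mem_Ioc]
      constructor
      · rintro ⟨h1, h2, h3⟩
        exact ⟨h2, h1⟩
      · rintro ⟨h1, h2⟩
        exact ⟨h2, h1, h2.trans hθ1⟩
    rw [e2, lay_P1 _ _ (by linarith) hθ0]
    congr 2 <;> ring_nf
  have i2 : ∫⁻ t in Set.Ioi (0:ℝ), (if t ≤ r then ENNReal.ofReal (t ^ (2 * γ - 1)) else 0) =
      ENNReal.ofReal (r ^ (2 * γ) / (2 * γ)) := by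
    have e : (fun t : ℝ => (if t ≤ r then ENNReal.ofReal (t ^ (2 * γ - 1)) else 0)) =
        (Set.Iic r).indicator (fun t => ENNReal.ofReal (t ^ (2 * γ - 1))) := by
      funext t
      by_cases h : t ≤ r
      · simp [h]
      · simp [h]
    rw [e, lintegral_indicator measurableSet_Iic, Measure.restrict_restrict measurableSet_Iic]
    have e2 : Set.Iic r ∩ Set.Ioi (0:ℝ) = Set.Ioc 0 r := by
      ext x
      simp only [Set.mem_inter_iff, Set.mem_Iic, Set.mem_Ioi, Set.mem_Ioc]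
      constructor
      · rintro ⟨h1, h2⟩
        exact ⟨h2, h1⟩
      · rintro ⟨h1, h2⟩
        exact ⟨h2, h1⟩
    rw [e2, lay_P1 _ _ (by linarith) hr]
    congr 2 <;> ring_nf
  rw [i1, i2, ← ENNReal.ofReal_mul (by positivity), ← ENNReal.ofReal_mul (by positivity)]
  congr 1
  have : 0 < γ + σ := by linarith
  have : 0 < γ := by linarith
  field_simp

theorem cx_layer (γ σ s a1 a2 c : ℝ) (hγ : 1 / 2 < γ) (hs : 0 < s) (hsσ : s < σ - 1 / 2)
    (h1 : 0 < a1) (h1' : a1 < γ - 1 / 2) (h2 : γ - 1 / 2 < a2) (hc : 0 < c) :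
    ∃ C' : ℝ, 0 < C' ∧ ∀ (Q : ℝ → ℝ) (_ : Measurable Q) (_ : ∀ x, 0 ≤ Q x)
      (N : ℕ) (r θ : Fin N → ℝ) (_ : ∀ j, 0 ≤ r j) (_ : ∀ j, 0 ≤ θ j ∧ θ j ≤ 1)
      (_ : ∀ t κ : ℝ, 0 < t → 0 < κ → κ ≤ 1 →
        ENNReal.ofReal (κ * t * (Finset.univ.filter (fun j => t ≤ r j ∧ κ ≤ θ j)).card) ≤
          ENNReal.ofReal (c * κ ^ (-s)) * ∫⁻ x, ENNReal.ofReal
            (Q x * min ((Q x / (κ * t ^ 2)) ^ a1) ((Q x / (κ * t ^ 2)) ^ a2))),
      ENNReal.ofReal (∑ j, θ j ^ (γ + σ) * r j ^ (2 * γ)) ≤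
        ENNReal.ofReal C' * ∫⁻ x, ENNReal.ofReal (Q x ^ (γ + 1 / 2)) := by
  set C1 : ℝ := 1 / (2 * γ - 1 - 2 * a1) + 1 / (2 * a2 - 2 * γ + 1) with hC1
  have hd1 : 0 < 2 * γ - 1 - 2 * a1 := by linarith
  have hd2 : 0 < 2 * a2 - 2 * γ + 1 := by linarith
  have hC1p : 0 < C1 := by positivity
  have hd3 : 0 < σ - s - 1 / 2 := by linarith
  have hσ : 0 < σ := by linarith
  have hγ0 : 0 < γ := by linarith
  refine ⟨(γ + σ) * (2 * γ) * (c * C1 / (σ - s - 1 / 2)), by positivity, ?_⟩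
  intro Q hQm hQ N r θ hr hθ hN
  set μ : Measure (ℝ × ℝ) := (volume.restrict (Set.Ioc (0:ℝ) 1)).prod (volume.restrict (Set.Ioi (0:ℝ))) with hμ
  rw [ENNReal.ofReal_sum_of_nonneg (fun j _ => mul_nonneg (Real.rpow_nonneg (hθ j).1 _)
    (Real.rpow_nonneg (hr j) _))]
  rw [Finset.sum_congr rfl (fun j _ => lay_one γ σ (θ j) (r j) hγ hσ (hθ j).1 (hθ j).2 (hr j))]
  rw [← Finset.mul_sum, ← lintegral_finsetSum]
  swap
  · intro j _
    refine Measurable.mul ?_ ?_
    · exact Measurable.ite (measurableSet_le measurable_fst measurable_const) (by fun_prop) measurable_const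
    · exact Measurable.ite (measurableSet_le measurable_snd measurable_const) (by fun_prop) measurable_const
  have key : ∫⁻ p, ∑ j, ((if p.1 ≤ θ j then ENNReal.ofReal (p.1 ^ (γ + σ - 1)) else 0) *
        (if p.2 ≤ r j then ENNReal.ofReal (p.2 ^ (2 * γ - 1)) else 0)) ∂μ ≤
      ENNReal.ofReal (c * C1 / (σ - s - 1 / 2)) * ∫⁻ x, ENNReal.ofReal (Q x ^ (γ + 1 / 2)) := by
    calc _ ≤ ∫⁻ p, (∫⁻ x, ENNReal.ofReal (layw γ σ s c p) * ENNReal.ofReal
        (Q x * min ((Q x / (p.1 * p.2 ^ 2)) ^ a1) ((Q x / (p.1 * p.2 ^ 2)) ^ a2))) ∂μ := by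
          have hμ' : μ = (volume.prod volume).restrict (Set.Ioc (0:ℝ) 1 ×ˢ Set.Ioi (0:ℝ)) := by
            rw [hμ, Measure.prod_restrict]
          rw [hμ']
          refine setLIntegral_mono' (measurableSet_Ioc.prod measurableSet_Ioi) fun p hp => ?_
          obtain ⟨hp1, hp2⟩ := hp
          have k0 : 0 < p.1 := hp1.1
          have t0 : 0 < p.2 := hp2
          have hcard := hN p.2 p.1 t0 k0 hp1.2
          rw [lintegral_const_mul' _ _ ENNReal.ofReal_ne_top]
          have e1 : ∑ j, ((if p.1 ≤ θ j then ENNReal.ofReal (p.1 ^ (γ + σ - 1)) else 0) *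
              (if p.2 ≤ r j then ENNReal.ofReal (p.2 ^ (2 * γ - 1)) else 0)) =
              ENNReal.ofReal (p.1 ^ (γ + σ - 1) * p.2 ^ (2 * γ - 1) *
                (Finset.univ.filter (fun j => p.2 ≤ r j ∧ p.1 ≤ θ j)).card) := by
            have e2 : ∀ j, ((if p.1 ≤ θ j then ENNReal.ofReal (p.1 ^ (γ + σ - 1)) else 0) *
              (if p.2 ≤ r j then ENNReal.ofReal (p.2 ^ (2 * γ - 1)) else 0)) =
              if (p.2 ≤ r j ∧ p.1 ≤ θ j) then
                ENNReal.ofReal (p.1 ^ (γ + σ - 1) * p.2 ^ (2 * γ - 1)) else 0 := by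
              intro j
              by_cases ha : p.1 ≤ θ j
              · by_cases hb : p.2 ≤ r j
                · simp only [ha, hb, if_true, and_self]
                  rw [ENNReal.ofReal_mul (by positivity)]
                · simp [hb]
              · simp [ha]
            rw [Finset.sum_congr rfl (fun j _ => e2 j), ← Finset.sum_filter, Finset.sum_const,
              nsmul_eq_mul, mul_comm, ENNReal.ofReal_mul
                (q := ((Finset.univ.filter (fun j => p.2 ≤ r j ∧ p.1 ≤ θ j)).card : ℝ)) (by positivity),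
              ENNReal.ofReal_natCast]
          rw [e1]
          have e3 : p.1 ^ (γ + σ - 1) * p.2 ^ (2 * γ - 1) *
                ((Finset.univ.filter (fun j => p.2 ≤ r j ∧ p.1 ≤ θ j)).card : ℝ) =
              (p.1 ^ (γ + σ - 1) * p.2 ^ (2 * γ - 1) * (p.1 * p.2)⁻¹) *
              (p.1 * p.2 * (Finset.univ.filter (fun j => p.2 ≤ r j ∧ p.1 ≤ θ j)).card) := by
            field_simp
          rw [e3, ENNReal.ofReal_mul (by positivity)]
          calc _ ≤ ENNReal.ofReal (p.1 ^ (γ + σ - 1) * p.2 ^ (2 * γ - 1) * (p.1 * p.2)⁻¹) *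
                (ENNReal.ofReal (c * p.1 ^ (-s)) * ∫⁻ x, ENNReal.ofReal
                (Q x * min ((Q x / (p.1 * p.2 ^ 2)) ^ a1) ((Q x / (p.1 * p.2 ^ 2)) ^ a2))) := by
                gcongr
            _ = _ := by
                rw [← mul_assoc, ← ENNReal.ofReal_mul (by positivity)]
                congr 2
                unfold layw
                ring
      _ = ∫⁻ x, (∫⁻ p, ENNReal.ofReal (layw γ σ s c p) * ENNReal.ofReal
        (Q x * min ((Q x / (p.1 * p.2 ^ 2)) ^ a1) ((Q x / (p.1 * p.2 ^ 2)) ^ a2)) ∂μ) := by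
          refine lintegral_lintegral_swap ?_
          refine Measurable.aemeasurable ?_
          unfold Function.uncurry layw
          fun_prop
      _ ≤ ∫⁻ x, ENNReal.ofReal (c * C1 / (σ - s - 1 / 2)) * ENNReal.ofReal (Q x ^ (γ + 1 / 2)) := by
          refine lintegral_mono fun x => ?_
          rw [← ENNReal.ofReal_mul (by positivity)]
          exact lay_dbl γ σ s a1 a2 c hγ hs hsσ h1 h1' h2 hc (Q x) (hQ x)
      _ = _ := by
          rw [lintegral_const_mul' _ _ ENNReal.ofReal_ne_top]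
  calc _ ≤ ENNReal.ofReal ((γ + σ) * (2 * γ)) * (ENNReal.ofReal (c * C1 / (σ - s - 1 / 2)) *
        ∫⁻ x, ENNReal.ofReal (Q x ^ (γ + 1 / 2))) := by
        gcongr
    _ = _ := by
        rw [← mul_assoc, ← ENNReal.ofReal_mul (by positivity)]

end A21
end Pool.Agent.Helper209.CX
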