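import Mathlib

namespace Pool.Agent.Helper209.CX

namespace A22
open MeasureTheory ENNReal

noncomputable def cxG (k : ℂ) (x : ℝ) : ℂ :=
  Complex.I / (2 * k) * Complex.exp (Complex.I * k * |x|)

/-- compressed Birman-Schwinger matrix -/
noncomputable def cxK (k : ℂ) (v1 v2 : ℝ → ℂ) {N : ℕ} (f : Fin N → ℝ → ℂ) :
    Matrix (Fin N) (Fin N) ℂ :=
  Matrix.of fun i l => ∫ p : ℝ × ℝ, (starRingEnd ℂ) (f i p.1) *
    (v1 p.1 * cxG k (p.1 - p.2) * v2 p.2) * f l p.2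

noncomputable def cxΓ (k : ℂ) (v1 : ℝ → ℂ) {N : ℕ} (f u : Fin N → ℝ → ℂ) :
    Matrix (Fin N) (Fin N) ℂ :=
  Matrix.of fun i l => ∫ p : ℝ × ℝ, (starRingEnd ℂ) (f i p.1) *
    (v1 p.1 * cxG k (p.1 - p.2)) * u l p.2

noncomputable def cxD (k : ℂ) (v1 v2 : ℝ → ℂ) {N : ℕ} (f : Fin N → ℝ → ℂ) : ℂ :=
  (1 + cxK k v1 v2 f).det * Complex.exp (-(cxK k v1 v2 f).trace)

theorem cx_eps_bound (p : ℝ) (hp : 1 < p) (a g : ℝ) (ha : 0 ≤ a) (hg : 0 ≤ g) :
    (a + g) ^ p ≤ 2 ^ p * (a ^ p + g ^ p) := by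
  have hp0 : 0 ≤ p := by linarith
  have h1 : a + g ≤ 2 * max a g := by
    have := le_max_left a g
    have := le_max_right a g
    linarith
  have h2 : (max a g) ^ p ≤ a ^ p + g ^ p := by
    rcases le_total a g with h | h
    · rw [max_eq_right h]
      have := Real.rpow_nonneg ha p
      linarith
    · rw [max_eq_left h]
      have := Real.rpow_nonneg hg p
      linarith
  calc (a + g) ^ p ≤ (2 * max a g) ^ p := Real.rpow_le_rpow (by positivity) h1 hp0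
    _ = 2 ^ p * (max a g) ^ p := Real.mul_rpow (by norm_num) (le_max_of_le_left ha)
    _ ≤ 2 ^ p * (a ^ p + g ^ p) := by
        apply mul_le_mul_of_nonneg_left h2
        positivity

theorem cx_eps (p : ℝ) (hp : 1 < p) (V : ℝ → ℂ) (hV : Measurable V)
    (hVp : Integrable (fun x => ‖V x‖ ^ p)) (δ : ℝ) (hδ : 0 < δ) :
    ∃ ε : ℝ, 0 < ε ∧ Integrable (fun x => (‖V x‖ + ε * Real.exp (-x ^ 2)) ^ p) ∧
      ∫ x, (‖V x‖ + ε * Real.exp (-x ^ 2)) ^ p ≤ (∫ x, ‖V x‖ ^ p) + δ := by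
  have hp0 : 0 ≤ p := by linarith
  have hg : Integrable (fun x : ℝ => (Real.exp (-x ^ 2)) ^ p) := by
    have h1 := integrable_exp_neg_mul_sq (b := p) (by linarith)
    refine h1.congr (Filter.Eventually.of_forall fun x => ?_)
    simp only
    rw [← Real.exp_mul]
    congr 1
    ring
  have hG : Integrable (fun x : ℝ => 2 ^ p * (‖V x‖ ^ p + (Real.exp (-x ^ 2)) ^ p)) :=
    (hVp.add hg).const_mul _
  have hmeas : ∀ ε : ℝ, AEStronglyMeasurable (fun x => (‖V x‖ + ε * Real.exp (-x ^ 2)) ^ p)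
      (volume : Measure ℝ) := by
    intro ε
    refine Measurable.aestronglyMeasurable ?_
    refine Measurable.pow_const ?_ p
    exact hV.norm.add (measurable_const.mul (by fun_prop))
  have hbd : ∀ ε : ℝ, 0 ≤ ε → ε ≤ 1 → ∀ x : ℝ, ‖(‖V x‖ + ε * Real.exp (-x ^ 2)) ^ p‖ ≤
      2 ^ p * (‖V x‖ ^ p + (Real.exp (-x ^ 2)) ^ p) := by
    intro ε h0 h1 x
    have hx : 0 ≤ ‖V x‖ + ε * Real.exp (-x ^ 2) := by positivity
    rw [Real.norm_of_nonneg (Real.rpow_nonneg hx p)]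
    refine le_trans ?_ (cx_eps_bound p hp ‖V x‖ (Real.exp (-x ^ 2)) (norm_nonneg _)
      (Real.exp_pos _).le)
    refine Real.rpow_le_rpow hx ?_ hp0
    have := Real.exp_pos (-x ^ 2)
    nlinarith
  have hlim : Filter.Tendsto (fun n : ℕ => ∫ x, (‖V x‖ + (1 / ((n : ℝ) + 1)) * Real.exp (-x ^ 2)) ^ p)
      Filter.atTop (nhds (∫ x, ‖V x‖ ^ p)) := by
    refine tendsto_integral_of_dominated_convergence
      (fun x : ℝ => 2 ^ p * (‖V x‖ ^ p + (Real.exp (-x ^ 2)) ^ p)) (fun n => hmeas _) hG ?_ ?_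
    · intro n
      refine Filter.Eventually.of_forall (hbd _ (by positivity) ?_)
      rw [div_le_one (by positivity)]
      have : (0:ℝ) ≤ n := by positivity
      linarith
    · refine Filter.Eventually.of_forall fun x => ?_
      have h1 : Filter.Tendsto (fun n : ℕ => ‖V x‖ + (1 / ((n : ℝ) + 1)) * Real.exp (-x ^ 2))
          Filter.atTop (nhds (‖V x‖ + 0 * Real.exp (-x ^ 2))) :=
        tendsto_const_nhds.add (tendsto_one_div_add_atTop_nhds_zero_nat.mul_const _)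
      rw [zero_mul, add_zero] at h1
      exact h1.rpow_const (Or.inr hp0)
  have h2 : ∀ᶠ n : ℕ in Filter.atTop,
      ∫ x, (‖V x‖ + (1 / ((n : ℝ) + 1)) * Real.exp (-x ^ 2)) ^ p < (∫ x, ‖V x‖ ^ p) + δ :=
    hlim.eventually (gt_mem_nhds (by linarith))
  obtain ⟨n, hn⟩ := h2.exists
  refine ⟨1 / ((n : ℝ) + 1), by positivity, ?_, hn.le⟩
  refine hG.mono' (hmeas _) (Filter.Eventually.of_forall (hbd _ (by positivity) ?_))
  rw [div_le_one (by positivity)]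
  have : (0:ℝ) ≤ n := by positivity
  linarith

theorem cx_dist (E : ℂ) (hE : E ≠ 0) (γ σ : ℝ) (hγ : 0 < γ) (hσ : 0 < σ) :
    ‖E‖ ^ (-σ) * (Metric.infDist E {z : ℂ | 0 ≤ z.re ∧ z.im = 0}) ^ (γ + σ) ≤
      2 ^ (γ + σ) * ((Real.sqrt ((1 - E.re / ‖E‖) / 2)) ^ (γ + σ) * (Real.sqrt ‖E‖) ^ (2 * γ)) := by
  set S : Set ℂ := {z : ℂ | 0 ≤ z.re ∧ z.im = 0} with hS
  set δ : ℝ := Metric.infDist E S with hδ
  have hE0 : 0 < ‖E‖ := norm_pos_iff.2 hE
  have hδ0 : 0 ≤ δ := Metric.infDist_nonneg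
  have h1 : δ ≤ ‖E‖ := by
    have : (0 : ℂ) ∈ S := by simp [hS]
    have h := Metric.infDist_le_dist_of_mem (x := E) this
    rwa [dist_zero_right] at h
  have h2 : 0 < E.re → δ ≤ |E.im| := by
    intro hre
    have : ((E.re : ℝ) : ℂ) ∈ S := by
      simp only [hS, Set.mem_ofPred_eq, Complex.ofReal_re, Complex.ofReal_im, and_true]
      exact hre.le
    have h := Metric.infDist_le_dist_of_mem (x := E) this
    rw [dist_eq_norm] at h
    have h3 : E - ((E.re : ℝ) : ℂ) = ((E.im : ℝ) : ℂ) * Complex.I := by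
      apply Complex.ext <;> simp
    rw [h3, norm_mul, Complex.norm_I, mul_one, Complex.norm_real, Real.norm_eq_abs] at h
    exact h
  have hsq : ‖E‖ ^ 2 = E.re ^ 2 + E.im ^ 2 := by
    rw [← Complex.normSq_eq_norm_sq, Complex.normSq_apply]
    ring
  have hre : E.re ≤ ‖E‖ := Complex.re_le_norm E
  have h3 : δ ^ 2 ≤ 2 * (‖E‖ - E.re) * ‖E‖ := by
    rcases le_or_gt E.re 0 with h | h
    · nlinarith
    · have h4 := h2 h
      have h5 : δ ^ 2 ≤ E.im ^ 2 := by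
        rw [← sq_abs E.im]
        exact pow_le_pow_left₀ hδ0 h4 2
      nlinarith
  set θ : ℝ := Real.sqrt ((1 - E.re / ‖E‖) / 2) with hθ
  have hθ0 : 0 ≤ θ := Real.sqrt_nonneg _
  have hθ2 : θ ^ 2 = (1 - E.re / ‖E‖) / 2 := by
    apply Real.sq_sqrt
    have : E.re / ‖E‖ ≤ 1 := (div_le_one hE0).2 hre
    linarith
  have h4 : δ ≤ 2 * θ * ‖E‖ := by
    apply le_of_sq_le_sq _ (by positivity)
    have h5 : (2 * θ * ‖E‖) ^ 2 = 2 * (‖E‖ - E.re) * ‖E‖ := by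
      rw [mul_pow, mul_pow, hθ2]
      field_simp
    rw [h5]
    exact h3
  have h5 : (Real.sqrt ‖E‖) ^ (2 * γ) = ‖E‖ ^ γ := by
    rw [Real.sqrt_eq_rpow, ← Real.rpow_mul hE0.le]
    congr 1
    ring
  have h6 : ‖E‖ ^ γ = ‖E‖ ^ (-σ) * ‖E‖ ^ (γ + σ) := by
    rw [← Real.rpow_add hE0]
    congr 1
    ring
  rw [h5, h6]
  calc ‖E‖ ^ (-σ) * δ ^ (γ + σ) ≤ ‖E‖ ^ (-σ) * (2 * θ * ‖E‖) ^ (γ + σ) := by
        apply mul_le_mul_of_nonneg_left _ (by positivity)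
        exact Real.rpow_le_rpow hδ0 h4 (by positivity)
    _ = 2 ^ (γ + σ) * (θ ^ (γ + σ) * (‖E‖ ^ (-σ) * ‖E‖ ^ (γ + σ))) := by
        rw [Real.mul_rpow (by positivity) hE0.le, Real.mul_rpow (by norm_num) hθ0]
        ring

end A22
end Pool.Agent.Helper209.CX
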