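import Mathlib
import Pool.Agent.Helper209.CX.Defs
import Pool.Agent.Helper209.CX.A10

namespace Pool.Agent.Helper209.CX
open MeasureTheory ENNReal

theorem norm_cxG (k : ℂ) (x : ℝ) :
    ‖cxG k x‖ = (2 * ‖k‖)⁻¹ * Real.exp (-(k.im * |x|)) := by
  unfold cxG
  rw [norm_mul, norm_div, Complex.norm_exp]
  simp only [Complex.norm_I, norm_mul, Complex.norm_ofNat, one_div]
  congr 2
  simp [Complex.mul_re, Complex.mul_im]

theorem diff_gen (φ : ℝ × ℝ → ℂ) (hm : AEStronglyMeasurable φ volume)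
    (hint : ∀ ε : ℝ, 0 < ε → Integrable (fun p : ℝ × ℝ => ‖φ p‖ * Real.exp (-(ε * |p.1 - p.2|)))) :
    DifferentiableOn ℂ (fun k : ℂ => ∫ p : ℝ × ℝ, φ p * cxG k (p.1 - p.2)) {k : ℂ | 0 < k.im} := by
  have h := A10.cx_analytic (volume : Measure (ℝ × ℝ)) φ (fun p => |p.1 - p.2|)
    (fun _ => abs_nonneg _) (by fun_prop) hm hint
  have h2 : DifferentiableOn ℂ (fun k : ℂ => Complex.I / (2 * k) *
      ∫ p : ℝ × ℝ, φ p * Complex.exp (Complex.I * k * ((|p.1 - p.2| : ℝ) : ℂ))) {k : ℂ | 0 < k.im} := by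
    refine DifferentiableOn.mul ?_ h
    intro k hk
    have hk0 : k ≠ 0 := by rintro rfl; simp at hk
    refine DifferentiableAt.differentiableWithinAt ?_
    fun_prop (disch := simp [hk0])
  refine h2.congr fun k hk => ?_
  rw [← integral_const_mul]
  refine integral_congr_ae (Filter.Eventually.of_forall fun p => ?_)
  simp only [cxG]
  ring

theorem matrix_det_diff {N : ℕ} (s : Set ℂ) (M : ℂ → Matrix (Fin N) (Fin N) ℂ)
    (h : ∀ i j, DifferentiableOn ℂ (fun k => M k i j) s) :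
    DifferentiableOn ℂ (fun k => (M k).det) s := by
  simp only [Matrix.det_apply']
  refine DifferentiableOn.fun_sum fun σ _ => ?_
  refine DifferentiableOn.const_mul ?_ _
  refine DifferentiableOn.fun_finsetProd fun i _ => h _ _

theorem matrix_trace_diff {N : ℕ} (s : Set ℂ) (M : ℂ → Matrix (Fin N) (Fin N) ℂ)
    (h : ∀ i j, DifferentiableOn ℂ (fun k => M k i j) s) :
    DifferentiableOn ℂ (fun k => (M k).trace) s := by
  simp only [Matrix.trace, Matrix.diag]
  exact DifferentiableOn.fun_sum fun i _ => h i i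

end Pool.Agent.Helper209.CX
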