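import Mathlib
import Pool.Agent.Helper209.CX.Defs
import Pool.Agent.Helper209.CX.B01
import Pool.Agent.Helper209.CX.A01
import Pool.Agent.Helper209.CX.A02
import Pool.Agent.Helper209.CX.A03
import Pool.Agent.Helper209.CX.A04
import Pool.Agent.Helper209.CX.A05
import Pool.Agent.Helper209.CX.A06
import Pool.Agent.Helper209.CX.A07
import Pool.Agent.Helper209.CX.A08
import Pool.Agent.Helper209.CX.A09a
import Pool.Agent.Helper209.CX.A09b
import Pool.Agent.Helper209.CX.A09c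
import Pool.Agent.Helper209.CX.A11
import Pool.Agent.Helper209.CX.A12
import Pool.Agent.Helper209.CX.A13
import Pool.Agent.Helper209.CX.A14
import Pool.Agent.Helper209.CX.A15

namespace Pool.Agent.Helper209.CX
open MeasureTheory ENNReal

theorem gh0 : ∀ (E : Type) [NormedAddCommGroup E] [InnerProductSpace ℂ E] (N : ℕ) (x y : Fin N → E),
      ‖(Matrix.of fun i j => (inner ℂ (x i) (y j) : ℂ)).det‖ ≤ (∏ i, ‖x i‖) * ∏ i, ‖y i‖ :=
  fun _ _ _ N x y => A01.cx_gram_hadamard N x y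

theorem bilin0 (k : ℂ) (hk : 0 < k.im) (h1 h2 : ℝ → ℂ) (i1 : Integrable h1) (i2 : Integrable h2) :
    ∫ p : ℝ × ℝ, (starRingEnd ℂ) (h1 p.1) *
        (Complex.I / (2 * k) * Complex.exp (Complex.I * k * |p.1 - p.2|)) * h2 p.2 =
      ∫ ξ : ℝ, (starRingEnd ℂ) (∫ x : ℝ, Complex.exp (-(Complex.I * ξ * x)) * h1 x) *
        (∫ x : ℝ, Complex.exp (-(Complex.I * ξ * x)) * h2 x) *
        ((2 * Real.pi : ℂ)⁻¹ * ((ξ : ℂ) ^ 2 - k ^ 2)⁻¹) :=
  A07.cx_bilin k hk (A04.cx_fourier k hk 0).1 (fun x => (A04.cx_fourier k hk x).2) h1 h2 i1 i2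

/-- the full data: analytic function `D`, factorisation, upper and lower bounds -/
theorem core1 (s p : ℝ) (hs : 0 < s) (hs2 : s < 1 / 2) (hp : 1 < p) (hp2 : p < 2) :
    ∃ C0 : ℝ, 0 < C0 ∧ ∀ (Q : ℝ → ℝ) (_ : Measurable Q) (_ : ∀ x, 0 < Q x)
      (_ : Integrable (fun x => Q x ^ p)) (V : ℝ → ℂ) (_ : Measurable V) (_ : ∀ x, ‖V x‖ ≤ Q x)
      (N : ℕ) (u g : Fin N → ℝ → ℂ) (_ : ∀ j, MemLp (u j) 2 volume) (_ : ∀ j, MemLp (g j) 2 volume)
      (_ : ∀ j, ∀ x y : ℝ, u j y - u j x = ∫ t in x..y, g j t)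
      (_ : LinearIndependent ℂ u)
      (A : Matrix (Fin N) (Fin N) ℂ)
      (_ : ∀ j, ∀ x y : ℝ, g j y - g j x = ∫ t in x..y, (V t * u j t - ∑ l, A l j * u l t)),
      ∃ (D gf : ℂ → ℂ), DifferentiableOn ℂ D {k : ℂ | 0 < k.im} ∧
        DifferentiableOn ℂ gf {k : ℂ | 0 < k.im} ∧
        (∀ k : ℂ, 0 < k.im → D k = gf k * (A - (k ^ 2) • (1 : Matrix (Fin N) (Fin N) ℂ)).det) ∧
        (∀ k : ℂ, 0 < k.im → ‖D k‖ ≤ Real.exp (C0 * ‖k‖ ^ (2 * s - 1) *
          (‖k‖ * k.im) ^ (-s) * ∫ x, Q x * min 1 (Q x / (‖k‖ * k.im)))) ∧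
        (∃ C1 : ℝ, 0 < C1 ∧ ∀ k : ℂ, 1 ≤ k.im → C1 ≤ ‖k‖ →
          Real.exp (-(C1 / ‖k‖ ^ 2)) ≤ ‖D k‖) := by
  obtain ⟨CI, hCI, hI⟩ := A05.cx_Ibound s hs hs2
  refine ⟨1 + CI, by positivity, ?_⟩
  intro Q hQm hQ0 hQ V hV hVQ N u g hu hg hug hli A heq
  have hQ0' : ∀ x, 0 ≤ Q x := fun x => (hQ0 x).le
  -- weights
  set v1 : ℝ → ℂ := fun x => ((Real.sqrt (Q x) : ℝ) : ℂ) with hv1def
  set v2 : ℝ → ℂ := fun x => V x / ((Real.sqrt (Q x) : ℝ) : ℂ) with hv2def
  have hv1 : Measurable v1 := by fun_prop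
  have hv2 : Measurable v2 := by fun_prop
  have hsq : ∀ x, 0 < Real.sqrt (Q x) := fun x => Real.sqrt_pos.2 (hQ0 x)
  have h1 : ∀ x, ‖v1 x‖ ^ 2 ≤ Q x := by
    intro x
    simp only [hv1def, Complex.norm_real, Real.norm_eq_abs, sq_abs, Real.sq_sqrt (hQ0' x)]
    exact le_rfl
  have h2 : ∀ x, ‖v2 x‖ ^ 2 ≤ Q x := by
    intro x
    simp only [hv2def, norm_div, Complex.norm_real, Real.norm_eq_abs, div_pow, sq_abs,
      Real.sq_sqrt (hQ0' x)]
    rw [div_le_iff₀ (hQ0 x)]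
    have := hVQ x
    nlinarith [norm_nonneg (V x), hQ0 x]
  have hVv : ∀ x, V x = v2 x * v1 x := by
    intro x
    simp only [hv1def, hv2def]
    have : ((Real.sqrt (Q x) : ℝ) : ℂ) ≠ 0 := by exact_mod_cast (hsq x).ne'
    field_simp
  -- bounded continuous
  have huc : ∀ j, Continuous (u j) := fun j => (A12.cx_bounded (u j) (g j) (hu j) (hg j) (hug j)).1
  have hub : ∀ j, ∃ M : ℝ, 0 ≤ M ∧ ∀ x, ‖u j x‖ ≤ M :=
    fun j => (A12.cx_bounded (u j) (g j) (hu j) (hg j) (hug j)).2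
  choose M hM0 hM using hub
  have hW1 := fun j => A14.cx_weight p hp Q hQm hQ0' hQ v1 hv1 h1 (u j) (hu j) (huc j) (M j) (hM j)
  set w : Fin N → ℝ → ℂ := fun j x => v1 x * u j x with hwdef
  have hw : ∀ j, MemLp (w j) 2 volume := fun j => (hW1 j).1
  -- linear independence
  have hwli : ∀ c : Fin N → ℂ, (∀ᵐ x, ∑ i, c i * w i x = 0) → c = 0 := by
    intro c hc
    have hc' : (fun x => ∑ i, c i * u i x) =ᵐ[volume] fun _ => (0 : ℂ) := by
      filter_upwards [hc] with x hx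
      have hx' : v1 x * ∑ i, c i * u i x = 0 := by
        rw [Finset.mul_sum]
        rw [← hx]
        refine Finset.sum_congr rfl fun i _ => ?_
        simp only [hwdef]; ring
      have hne : v1 x ≠ 0 := by
        simp only [hv1def]; exact_mod_cast (hsq x).ne'
      exact (mul_eq_zero.1 hx').resolve_left hne
    have hcont : Continuous (fun x => ∑ i, c i * u i x) :=
      continuous_finsetSum _ fun i _ => continuous_const.mul (huc i)
    have hall := (Continuous.ae_eq_iff_eq volume hcont continuous_const).1 hc'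
    rw [Fintype.linearIndependent_iff] at hli
    funext i
    refine hli c ?_ i
    funext x
    have := congrFun hall x
    simpa [Finset.sum_apply, smul_eq_mul] using this
  obtain ⟨C, W, hCW, hWC, hon⟩ := A13.cx_onb N w hw hwli
  set f : Fin N → ℝ → ℂ := fun i x => ∑ m, C m i * w m x with hfdef
  have hf : ∀ i, MemLp (f i) 2 volume := by
    intro i
    exact memLp_finsetSum _ fun m _ => (hw m).const_mul _
  have ho : ∀ i j, ∫ x, (starRingEnd ℂ) (f i x) * f j x = if i = j then 1 else 0 := hon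
  have hfW : ∀ j x, v1 x * u j x = ∑ m, f m x * W m j := by
    intro j x
    have : ∑ m, f m x * W m j = ∑ n, (C * W) n j * w n x := by
      simp only [hfdef, Matrix.mul_apply, Finset.sum_mul]
      rw [Finset.sum_comm]
      refine Finset.sum_congr rfl fun n _ => Finset.sum_congr rfl fun m _ => by ring
    rw [this, hCW]
    simp [Matrix.one_apply, hwdef]
  -- kernels
  have hloc := fun h hh => A14.cx_local p hp hp2 Q hQm hQ0' hQ h hh
  have hT := fun (k : ℂ) (hk : 0 < k.im) (h : ℝ) (hh : 0 < h) =>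
    A09a.cx_Tpart (fun N f hf ho κ hκ => A06.cx_bessel_kernel N f hf ho κ hκ)
      (fun Q a b h y c d e f => A08.cx_hs Q a b h y c d e f)
      Q hQm hQ0' v1 v2 hv1 hv2 h1 h2 N f hf ho k hk h hh (hloc h hh).1 (hloc h hh).2.1
  have hKint : ∀ k : ℂ, 0 < k.im → ∀ i l, Integrable (fun p : ℝ × ℝ => (starRingEnd ℂ) (f i p.1) *
      (v1 p.1 * cxG k (p.1 - p.2) * v2 p.2) * f l p.2) := by
    intro k hk i l
    exact (A06.cx_bessel_kernel N f hf ho _ (hT k hk 1 one_pos).1).1 i l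
  have hmf : ∀ i, AEStronglyMeasurable (f i) volume := fun i => (hf i).1
  -- differentiability of K
  have hKd : ∀ i l, DifferentiableOn ℂ (fun k => cxK k v1 v2 f i l) {k : ℂ | 0 < k.im} := by
    intro i l
    have hm : AEStronglyMeasurable (fun p : ℝ × ℝ =>
        (starRingEnd ℂ) (f i p.1) * (v1 p.1 * v2 p.2) * f l p.2) volume := by
      have a1 : AEStronglyMeasurable (fun p : ℝ × ℝ => f i p.1) volume := (hmf i).comp_fst
      have a2 : AEStronglyMeasurable (fun p : ℝ × ℝ => f l p.2) volume := (hmf l).comp_snd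
      have a3 : AEStronglyMeasurable (fun p : ℝ × ℝ => v1 p.1 * v2 p.2) volume := by
        fun_prop
      exact ((Complex.continuous_conj.comp_aestronglyMeasurable a1).mul a3).mul a2
    have := diff_gen _ hm ?_
    · refine this.congr fun k hk => ?_
      simp only [cxK, Matrix.of_apply]
      refine integral_congr_ae (Filter.Eventually.of_forall fun p => ?_)
      simp only; ring
    · intro ε hε
      have hk : 0 < (Complex.I * ε : ℂ).im := by simp [hε]
      have hi := (hKint (Complex.I * ε) hk i l).norm.const_mul (2 * ε)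
      refine hi.congr (Filter.Eventually.of_forall fun p => ?_)
      simp only [norm_mul, norm_cxG]
      simp [abs_of_pos hε]
      field_simp
  have hΓm : ∀ i l, AEStronglyMeasurable (fun p : ℝ × ℝ =>
        (starRingEnd ℂ) (f i p.1) * v1 p.1 * u l p.2) volume := by
    intro i l
    have a1 : AEStronglyMeasurable (fun p : ℝ × ℝ => f i p.1) volume := (hmf i).comp_fst
    have a2 : AEStronglyMeasurable (fun p : ℝ × ℝ => u l p.2) volume :=
      ((huc l).comp continuous_snd).aestronglyMeasurable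
    have a3 : AEStronglyMeasurable (fun p : ℝ × ℝ => v1 p.1) volume :=
      (hv1.comp measurable_fst).aestronglyMeasurable
    exact ((Complex.continuous_conj.comp_aestronglyMeasurable a1).mul a3).mul a2
  have hΓi : ∀ i l, ∀ ε : ℝ, 0 < ε → Integrable (fun q : ℝ × ℝ =>
      ‖(starRingEnd ℂ) (f i q.1) * v1 q.1 * u l q.2‖ * Real.exp (-(ε * |q.1 - q.2|))) :=
    fun i l ε hε => (hW1 l).2.2.2 (f i) (hf i) ε hε
  have hΓd : ∀ i l, DifferentiableOn ℂ (fun k => cxΓ k v1 f u i l) {k : ℂ | 0 < k.im} := by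
    intro i l
    refine (diff_gen _ (hΓm i l) (hΓi i l)).congr fun k hk => ?_
    simp only [cxΓ, Matrix.of_apply]
    refine integral_congr_ae (Filter.Eventually.of_forall fun p => ?_)
    simp only; ring
  have hΓint : ∀ k : ℂ, 0 < k.im → ∀ i l, Integrable (fun p : ℝ × ℝ => (starRingEnd ℂ) (f i p.1) *
      (v1 p.1 * cxG k (p.1 - p.2)) * u l p.2) := by
    intro k hk i l
    refine ((hΓi i l k.im hk).const_mul ((2 * ‖k‖)⁻¹)).mono' ?_ ?_
    · have hG : AEStronglyMeasurable (fun p : ℝ × ℝ => cxG k (p.1 - p.2)) volume := by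
        have : Continuous (fun x : ℝ => cxG k x) := by
          unfold cxG; fun_prop
        exact (this.comp (by fun_prop : Continuous fun p : ℝ × ℝ => p.1 - p.2)).aestronglyMeasurable
      refine ((hΓm i l).mul hG).congr (Filter.Eventually.of_forall fun p => ?_)
      simp only [Pi.mul_apply]; ring
    · refine Filter.Eventually.of_forall fun p => ?_
      simp only [norm_mul, norm_cxG]
      apply le_of_eq; ring
  -- identity
  have hid : ∀ k : ℂ, 0 < k.im → (1 + cxK k v1 v2 f) * W =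
      cxΓ k v1 f u * (A - (k ^ 2) • (1 : Matrix (Fin N) (Fin N) ℂ)) := by
    intro k hk
    refine A15.cx_identity (fun k a u g F b c d e f' g' x => A11.cx_resolvent k a u g F b c d e f' g' x)
      k hk V v1 v2 hV hv1 hv2 hVv N u g hu huc hg hug A heq ?_ ?_ f hf ho W hfW (hKint k hk)
      (hΓint k hk)
    · intro j ε hε
      exact (hW1 j).2.1 V hV hVQ ε hε
    · intro j ε hε
      exact (hW1 j).2.2.1 ε hε
  have hDd : DifferentiableOn ℂ (fun k => cxD k v1 v2 f) {k : ℂ | 0 < k.im} := by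
    unfold cxD
    refine DifferentiableOn.mul (matrix_det_diff _ _ ?_) ?_
    · intro i j
      simp only [Matrix.add_apply]
      exact (differentiableOn_const _).add (hKd i j)
    · exact ((matrix_trace_diff _ _ hKd).neg).cexp
  refine ⟨fun k => cxD k v1 v2 f, fun k => (cxΓ k v1 f u).det * C.det *
    Complex.exp (-(cxK k v1 v2 f).trace), hDd, ?_, ?_, ?_, ?_⟩
  · exact ((matrix_det_diff _ _ hΓd).mul_const _).mul (((matrix_trace_diff _ _ hKd).neg).cexp)
  · intro k hk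
    have h := congrArg Matrix.det (hid k hk)
    rw [Matrix.det_mul, Matrix.det_mul] at h
    have hdC : W.det * C.det = 1 := by rw [← Matrix.det_mul, hWC, Matrix.det_one]
    unfold cxD
    calc (1 + cxK k v1 v2 f).det * Complex.exp (-(cxK k v1 v2 f).trace)
        = ((1 + cxK k v1 v2 f).det * W.det) * C.det * Complex.exp (-(cxK k v1 v2 f).trace) := by
          rw [mul_assoc ((1 + cxK k v1 v2 f).det), hdC, mul_one]
      _ = _ := by rw [h]; ring
  · intro k hk
    have hh : 0 < ‖k‖ * k.im := by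
      have : k ≠ 0 := by rintro rfl; simp at hk
      positivity
    exact A09c.cx_logbound s hs hs2 CI hCI hI
      (fun N μ T X Y a b K c => A02.cx_det_bound gh0 N μ T X Y a b K c)
      Q hQm hQ0' v1 v2 N f k hk _ rfl (hloc _ hh).1 (hloc _ hh).2.1 (hKint k hk)
      (hT k hk _ hh).2.1
      (A09b.cx_Xpart (fun N f hf ho h hh => A06.cx_bessel N f hf ho h hh) bilin0 Q hQm hQ0' v1 v2
        hv1 hv2 h1 h2 N f hf ho k hk _ hh (hloc _ hh).1 (hI k hk).1)
  · -- lower bound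
    set a0 : ℝ := (∫ x in {x | Q x ≤ 1}, Q x ^ 2) with ha0
    set b0 : ℝ := (∫ x in {x | 1 < Q x}, Q x) with hb0
    have ha00 : 0 ≤ a0 := setIntegral_nonneg_ae (measurableSet_le hQm measurable_const)
      (Filter.Eventually.of_forall fun x _ => by positivity)
    have hb00 : 0 ≤ b0 := setIntegral_nonneg_ae (measurableSet_lt measurable_const hQm)
      (Filter.Eventually.of_forall fun x _ => hQ0' x)
    set c : ℝ := a0 + 2 * b0 + b0 ^ 2 with hc
    have hc0 : 0 ≤ c := by positivity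
    refine ⟨c + 1, by positivity, ?_⟩
    intro k hk1 hkC
    have hk : 0 < k.im := lt_of_lt_of_le one_pos hk1
    have hkn : 1 ≤ ‖k‖ := by linarith
    have hS : (∑ i, ∑ l, ‖cxK k v1 v2 f i l‖ ^ 2) ≤
        (1 / (4 * ‖k‖ ^ 2)) * ((1 / k.im) * a0 + (2 * 1 / k.im) * b0 + b0 ^ 2) :=
      (hT k hk 1 one_pos).2.2
    have hSle : (∑ i, ∑ l, ‖cxK k v1 v2 f i l‖ ^ 2) ≤ c / (4 * ‖k‖ ^ 2) := by
      have e1 : 1 / k.im * a0 ≤ a0 := by
        rw [one_div]
        exact mul_le_of_le_one_left ha00 (inv_le_one_of_one_le₀ hk1)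
      have e2 : 2 * 1 / k.im * b0 ≤ 2 * b0 := by
        have : 2 * 1 / k.im ≤ 2 := by
          rw [div_le_iff₀ hk]; linarith
        exact mul_le_mul_of_nonneg_right this hb00
      have e4 : (1 / k.im) * a0 + (2 * 1 / k.im) * b0 + b0 ^ 2 ≤ c := by linarith
      calc _ ≤ (1 / (4 * ‖k‖ ^ 2)) * ((1 / k.im) * a0 + (2 * 1 / k.im) * b0 + b0 ^ 2) := hS
        _ ≤ (1 / (4 * ‖k‖ ^ 2)) * c := mul_le_mul_of_nonneg_left e4 (by positivity)
        _ = c / (4 * ‖k‖ ^ 2) := by ring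
    have hk2 : c ≤ ‖k‖ ^ 2 := by nlinarith
    have hS4 : (∑ i, ∑ l, ‖cxK k v1 v2 f i l‖ ^ 2) ≤ 1 / 4 := by
      refine hSle.trans ?_
      rw [div_le_iff₀ (by positivity)]
      linarith
    have hlow := A03.cx_det_lower gh0 N (cxK k v1 v2 f) hS4
    refine le_trans ?_ hlow
    rw [Real.exp_le_exp]
    have : 4 * (∑ i, ∑ l, ‖cxK k v1 v2 f i l‖ ^ 2) ≤ (c + 1) / ‖k‖ ^ 2 := by
      have e3 : 4 * (c / (4 * ‖k‖ ^ 2)) = c / ‖k‖ ^ 2 := by
        field_simp
      calc 4 * (∑ i, ∑ l, ‖cxK k v1 v2 f i l‖ ^ 2) ≤ 4 * (c / (4 * ‖k‖ ^ 2)) := by linarith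
        _ = c / ‖k‖ ^ 2 := e3
        _ ≤ (c + 1) / ‖k‖ ^ 2 := by gcongr; linarith
    linarith

end Pool.Agent.Helper209.CX
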