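import Mathlib

namespace Pool.Agent.Helper209.CX

namespace K14
open MeasureTheory ENNReal

/-- eigenvalues listed with multiplicity -/
theorem d14_roots (N : ℕ) (A : Matrix (Fin N) (Fin N) ℂ) :
    ∃ E : Fin N → ℂ, A.charpoly.roots = Finset.univ.val.map E ∧
      ∀ z : ℂ, (A - z • (1 : Matrix (Fin N) (Fin N) ℂ)).det = (-1) ^ N * ∏ j, (z - E j) := by
  have hsp : A.charpoly.Splits := IsAlgClosed.splits _
  have hcard : A.charpoly.roots.card = N := by
    rw [← hsp.natDegree_eq_card_roots, Matrix.charpoly_natDegree_eq_dim, Fintype.card_fin]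
  have hl : A.charpoly.roots.toList.length = N := by rw [Multiset.length_toList, hcard]
  refine ⟨fun j => A.charpoly.roots.toList.get (Fin.cast hl.symm j), ?_, ?_⟩
  · rw [Fin.univ_val_map]
    conv_lhs => rw [← Multiset.coe_toList A.charpoly.roots]
    congr 1
    apply List.ext_getElem
    · simp [hl]
    · intro i h1 h2
      simp
  · intro z
    have h1 : (A - z • (1 : Matrix (Fin N) (Fin N) ℂ)) = -(Matrix.scalar (Fin N) z - A) := by
      rw [neg_sub, Matrix.scalar_apply, Matrix.smul_one_eq_diagonal]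
    rw [h1, Matrix.det_neg, Fintype.card_fin, ← Matrix.eval_charpoly,
      hsp.eval_eq_prod_roots_of_monic A.charpoly_monic]
    congr 1
    have h2 : A.charpoly.roots = Finset.univ.val.map
        (fun j : Fin N => A.charpoly.roots.toList.get (Fin.cast hl.symm j)) := by
      rw [Fin.univ_val_map]
      conv_lhs => rw [← Multiset.coe_toList A.charpoly.roots]
      congr 1
      apply List.ext_getElem
      · simp [hl]
      · intro i h1 h2
        simp
    conv_lhs => rw [h2]
    rw [Multiset.map_map]
    rfl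

theorem d14_scale (N : ℕ) (A : Matrix (Fin N) (Fin N) ℂ) (c : ℂ) (hc : c ≠ 0) :
    (c • A).charpoly.roots = A.charpoly.roots.map (fun z => c * z) := by
  have hsp : A.charpoly.Splits := IsAlgClosed.splits _
  have hcard : A.charpoly.roots.card = N := by
    rw [← hsp.natDegree_eq_card_roots, Matrix.charpoly_natDegree_eq_dim, Fintype.card_fin]
  have key : (c • A).charpoly =
      ((A.charpoly.roots.map (fun z => c * z)).map (fun a => Polynomial.X - Polynomial.C a)).prod := by
    apply Polynomial.funext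
    intro z
    rw [Matrix.eval_charpoly, Polynomial.eval_multiset_prod, Multiset.map_map, Multiset.map_map]
    have h1 : Matrix.scalar (Fin N) z - c • A = c • (Matrix.scalar (Fin N) (z / c) - A) := by
      rw [smul_sub]
      congr 1
      ext i j
      by_cases h : i = j
      · subst h
        simp [Matrix.scalar_apply]
        field_simp
      · simp [Matrix.scalar_apply, Matrix.diagonal_apply_ne _ h]
    rw [h1, Matrix.det_smul, Fintype.card_fin, ← Matrix.eval_charpoly,
      hsp.eval_eq_prod_roots_of_monic A.charpoly_monic]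
    have h2 : c ^ N = (A.charpoly.roots.map (fun _ => c)).prod := by
      rw [Multiset.map_const', Multiset.prod_replicate, hcard]
    rw [h2, ← Multiset.prod_map_mul]
    congr 1
    apply Multiset.map_congr rfl
    intro a _
    simp
    field_simp
  rw [key, Polynomial.roots_multiset_prod_X_sub_C]

theorem d14_conj (N : ℕ) (A C W : Matrix (Fin N) (Fin N) ℂ) (h1 : C * W = 1) (h2 : W * C = 1) :
    (W * A * C).charpoly = A.charpoly := by
  rw [Matrix.charpoly_mul_comm, ← Matrix.mul_assoc, h1, Matrix.one_mul]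

open scoped Pointwise in
theorem d14_infDist (c : ℝ) (hc : 0 < c) (E : ℂ) :
    Metric.infDist ((c : ℂ) * E) {z : ℂ | 0 ≤ z.re ∧ z.im = 0} =
      c * Metric.infDist E {z : ℂ | 0 ≤ z.re ∧ z.im = 0} := by
  have hs : (c • {z : ℂ | 0 ≤ z.re ∧ z.im = 0} : Set ℂ) = {z : ℂ | 0 ≤ z.re ∧ z.im = 0} := by
    ext z
    rw [Set.mem_smul_set]
    constructor
    · rintro ⟨y, ⟨hy1, hy2⟩, rfl⟩
      refine ⟨?_, ?_⟩
      · simp; positivity
      · simp [hy2]
    · rintro ⟨hz1, hz2⟩
      refine ⟨c⁻¹ • z, ⟨?_, ?_⟩, ?_⟩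
      · simp; positivity
      · simp [hz2]
      · rw [smul_smul, mul_inv_cancel₀ hc.ne', one_smul]
  have h := infDist_smul₀ (𝕜 := ℝ) hc.ne' {z : ℂ | 0 ≤ z.re ∧ z.im = 0} E
  rw [hs] at h
  rw [← Complex.real_smul, h, Real.norm_of_nonneg hc.le]

end K14
end Pool.Agent.Helper209.CX
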