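import Mathlib
import Pool.Agent.Helper209.CX.B02
import Pool.Agent.Helper209.CX.A16
import Pool.Agent.Helper209.CX.A17
import Pool.Agent.Helper209.CX.A18
import Pool.Agent.Helper209.CX.A19a
import Pool.Agent.Helper209.CX.A19b
import Pool.Agent.Helper209.CX.A19c
import Pool.Agent.Helper209.CX.A20
import Pool.Agent.Helper209.CX.A21
import Pool.Agent.Helper209.CX.A22
import Pool.Agent.Helper209.CX.K14

namespace Pool.Agent.Helper209.CX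
open MeasureTheory ENNReal

theorem halfplane0 (f h : ℂ → ℂ) (h1 : DifferentiableOn ℂ f {z : ℂ | 0 < z.im})
      (h2 : DifferentiableOn ℂ h {z : ℂ | 0 < z.im}) (n : ℕ) (z : Fin n → ℂ) (η : ℝ) (h3 : 0 < η)
      (h4 : ∀ i, η < (z i).im) (h5 : ∀ w : ℂ, 0 < w.im → f w = h w * ∏ i, (w - z i))
      (B : ℝ → ℝ≥0∞) (h6 : Measurable B)
      (h7 : ∀ w : ℂ, η ≤ w.im → ENNReal.ofReal (Real.log ‖f w‖) ≤ B w.re)
      (h8 : ∀ ε : ℝ, 0 < ε → ∃ R₀ : ℝ, ∀ w : ℂ, R₀ ≤ ‖w‖ → ‖w‖ ≤ 8 * w.im →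
        Real.log ‖f w‖ ≤ ε / ‖w‖)
      (h9 : ∀ ε : ℝ, 0 < ε → ∃ R₀ : ℝ, ∀ R : ℝ, R₀ ≤ R →
        f (Complex.I * (η + R)) ≠ 0 ∧ -(ε / R) ≤ Real.log ‖f (Complex.I * (η + R))‖) :
      ENNReal.ofReal (∑ i, ((z i).im - η)) ≤ ∫⁻ x, B x :=
  A17.cx_halfplane (fun c R hR f h a b n z d e g => A16.cx_jensen_disc c R hR f h a b n z d e g)
    f h h1 h2 n z η h3 h4 h5 B h6 h7 h8 h9

theorem final_Q (γ σ : ℝ) (hγ : 1 / 2 < γ) (hγ1 : γ < 1) (hσ : 1 / 2 < σ) :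
    ∃ C0 : ℝ, 0 < C0 ∧ ∀ (Q : ℝ → ℝ) (_ : Measurable Q) (_ : ∀ x, 0 < Q x)
      (_ : Integrable (fun x => Q x ^ (γ + 1 / 2))) (V : ℝ → ℂ) (_ : Measurable V)
      (_ : ∀ x, ‖V x‖ ≤ Q x)
      (N : ℕ) (u g : Fin N → ℝ → ℂ) (_ : ∀ j, MemLp (u j) 2 volume) (_ : ∀ j, MemLp (g j) 2 volume)
      (_ : ∀ j, ∀ x y : ℝ, u j y - u j x = ∫ t in x..y, g j t)
      (_ : LinearIndependent ℂ u)
      (A : Matrix (Fin N) (Fin N) ℂ)
      (_ : ∀ j, ∀ x y : ℝ, g j y - g j x = ∫ t in x..y, (V t * u j t - ∑ l, A l j * u l t)),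
      (A.charpoly.roots.map (fun E => ‖E‖ ^ (-σ) *
        (Metric.infDist E {z : ℂ | 0 ≤ z.re ∧ z.im = 0}) ^ (γ + σ))).sum ≤
        C0 * ∫ x, Q x ^ (γ + 1 / 2) := by
  set g0 : ℝ := γ - 1 / 2 with hg0
  have hg0p : 0 < g0 := by rw [hg0]; linarith
  have hg01 : g0 < 1 / 2 := by rw [hg0]; linarith
  set s : ℝ := min g0 (σ - 1 / 2) / 4 with hs
  have hs0 : 0 < s := by
    have : 0 < min g0 (σ - 1 / 2) := lt_min hg0p (by linarith)
    positivity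
  have hsg : s ≤ g0 / 4 := by
    rw [hs]; have := min_le_left g0 (σ - 1 / 2); linarith
  have hsσ : s < σ - 1 / 2 := by
    have h1 : s ≤ (σ - 1 / 2) / 4 := by
      rw [hs]; have := min_le_right g0 (σ - 1 / 2); linarith
    linarith
  have hs2 : s < 1 / 2 := by linarith
  set a1 : ℝ := g0 / 2 with ha1
  set a2 : ℝ := g0 + 1 / 8 with ha2
  have h1 : s < a1 := by linarith
  have h1' : a1 < 1 - s := by linarith
  have h2 : s < a2 := by linarith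
  have h2' : a2 < 1 - s := by linarith
  have hp : 1 < γ + 1 / 2 := by linarith
  have hp2 : γ + 1 / 2 < 2 := by linarith
  obtain ⟨C0, hC0, hcore⟩ := core1 s (γ + 1 / 2) hs0 hs2 hp hp2
  obtain ⟨C2, hC2, hcount⟩ := A19b.cx_count_b halfplane0 A19a.cx_branch A18.cx_scalar
    s a1 a2 (γ + 1 / 2) C0 hs0 hs2 h1 h1' h2 h2' hp hp2 hC0
  obtain ⟨C3, hC3, hlayer⟩ := A21.cx_layer γ σ s a1 a2 (256 * C2) hγ hs0 hsσ (by linarith)
    (by rw [ha1, ← hg0]; linarith) (by rw [ha2, ← hg0]; linarith) (by positivity)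
  refine ⟨2 ^ (γ + σ) * C3, by positivity, ?_⟩
  intro Q hQm hQ0 hQ V hV hVQ N u g hu hg hug hli A heq
  have hQ0' : ∀ x, 0 ≤ Q x := fun x => (hQ0 x).le
  obtain ⟨D, gf, hD, hgf, hfac, hup, hlow⟩ :=
    hcore Q hQm hQ0 hQ V hV hVQ N u g hu hg hug hli A heq
  obtain ⟨E, hEr, hEd⟩ := K14.d14_roots N A
  have hgf' : DifferentiableOn ℂ (fun k => gf k * (-1) ^ N) {k : ℂ | 0 < k.im} :=
    hgf.mul_const _
  have hfac' : ∀ k : ℂ, 0 < k.im → D k = (gf k * (-1) ^ N) * ∏ j, (k ^ 2 - E j) := by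
    intro k hk
    rw [hfac k hk, hEd]; ring
  have hcb := hcount Q hQm hQ0' hQ (fun h hh => by
    have := A14.cx_local (γ + 1 / 2) hp hp2 Q hQm hQ0' hQ h hh
    exact ⟨this.2.2.1, this.2.2.2⟩) D (fun k => gf k * (-1) ^ N) hD hgf' N E hfac' hup hlow
  have hN := hlayer Q hQm hQ0' N (fun j => Real.sqrt ‖E j‖)
    (fun j => Real.sqrt ((1 - (E j).re / ‖E j‖) / 2)) (fun j => Real.sqrt_nonneg _) (fun j => by
      refine ⟨Real.sqrt_nonneg _, ?_⟩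
      rw [Real.sqrt_le_one]
      have : -1 ≤ (E j).re / ‖E j‖ := by
        rcases eq_or_ne (E j) 0 with h0 | h0
        · simp [h0]
        · rw [le_div_iff₀ (norm_pos_iff.2 h0)]
          have := Complex.abs_re_le_norm (E j)
          have := neg_abs_le (E j).re
          linarith
      linarith)
    (fun t κ ht hκ hκ1 => A19c.cx_count A20.cx_geom s a1 a2 C2 hs0 hs2 (by linarith) (by linarith)
      (by linarith) (by linarith) hC2 Q hQm hQ0' N E hcb t κ ht hκ hκ1)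
  have hQp0 : ∀ x, 0 ≤ Q x ^ (γ + 1 / 2) := fun x => Real.rpow_nonneg (hQ0' x) _
  rw [← ofReal_integral_eq_lintegral_ofReal hQ (Filter.Eventually.of_forall hQp0),
    ← ENNReal.ofReal_mul hC3.le] at hN
  have hint0 : 0 ≤ ∫ x, Q x ^ (γ + 1 / 2) := integral_nonneg hQp0
  rw [ENNReal.ofReal_le_ofReal_iff (by positivity)] at hN
  rw [hEr, Multiset.map_map]
  change (∑ j, ‖E j‖ ^ (-σ) * (Metric.infDist (E j) {z : ℂ | 0 ≤ z.re ∧ z.im = 0}) ^ (γ + σ)) ≤ _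
  calc (∑ j, ‖E j‖ ^ (-σ) * (Metric.infDist (E j) {z : ℂ | 0 ≤ z.re ∧ z.im = 0}) ^ (γ + σ))
      ≤ ∑ j, 2 ^ (γ + σ) * ((Real.sqrt ((1 - (E j).re / ‖E j‖) / 2)) ^ (γ + σ) *
        (Real.sqrt ‖E j‖) ^ (2 * γ)) := by
        refine Finset.sum_le_sum fun j _ => ?_
        rcases eq_or_ne (E j) 0 with h0 | h0
        · rw [h0]
          have : Metric.infDist (0 : ℂ) {z : ℂ | 0 ≤ z.re ∧ z.im = 0} = 0 :=
            Metric.infDist_zero_of_mem (by simp)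
          rw [this, Real.zero_rpow (by linarith : γ + σ ≠ 0), mul_zero]
          positivity
        · exact A22.cx_dist (E j) h0 γ σ (by linarith) (by linarith)
    _ = 2 ^ (γ + σ) * ∑ j, (Real.sqrt ((1 - (E j).re / ‖E j‖) / 2)) ^ (γ + σ) *
        (Real.sqrt ‖E j‖) ^ (2 * γ) := by rw [Finset.mul_sum]
    _ ≤ 2 ^ (γ + σ) * (C3 * ∫ x, Q x ^ (γ + 1 / 2)) := by gcongr
    _ = _ := by ring

end Pool.Agent.Helper209.CX
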