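import Mathlib

namespace Pool.Agent.Helper209.CX
open MeasureTheory ENNReal FourierTransform

abbrev Ed (d : ℕ) := EuclideanSpace ℝ (Fin d)
noncomputable abbrev L2d (d : ℕ) := Lp ℂ 2 (volume : Measure (EuclideanSpace ℝ (Fin d)))

/-- `u ∈ H¹(ℝᵈ)`: `|ξ| û ∈ L²`. -/
def InH1 {d : ℕ} (u : L2d d) : Prop :=
  MemLp (fun ξ : Ed d => (‖ξ‖ : ℂ) * (𝓕 u : L2d d) ξ) 2 volume

/-- The Dirichlet form `∫ ∇u · conj ∇φ = ∫ (2π|ξ|)² û conj φ̂`. -/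
noncomputable def dirichlet {d : ℕ} (u φ : L2d d) : ℂ :=
  ∫ ξ : Ed d, (((2 * Real.pi * ‖ξ‖) ^ 2 : ℝ) : ℂ) * (𝓕 u : L2d d) ξ *
    (starRingEnd ℂ) ((𝓕 φ : L2d d) ξ)

/-- `u ∈ D(H)`, `H u = f`, for the m-sectorial operator `H = -h²Δ + V` of the form
`h² ∫∇u·conj∇φ + ∫ V u conj φ` on `H¹`. -/
def IsHu {d : ℕ} (h : ℝ) (V : Ed d → ℂ) (u f : L2d d) : Prop :=
  InH1 u ∧ ∀ φ : L2d d, InH1 φ →
    Integrable (fun x => V x * u x * (starRingEnd ℂ) (φ x)) volume ∧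
    ((h ^ 2 : ℝ) : ℂ) * dirichlet u φ + ∫ x, V x * u x * (starRingEnd ℂ) (φ x) =
      ∫ x, f x * (starRingEnd ℂ) (φ x)

end Pool.Agent.Helper209.CX
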