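import Mathlib
import Pool.Agent.Helper209.CX.DDefs
import Pool.Agent.Helper209.CX.B01

namespace Pool.Agent.Helper209.CX
open MeasureTheory ENNReal FourierTransform

theorem cs_int {α : Type*} [MeasurableSpace α] (μ : Measure α) (a b : α → ℂ)
    (ha : MemLp a 2 μ) (hb : MemLp b 2 μ) :
    Integrable (fun x => (starRingEnd ℂ) (a x) * b x) μ ∧
    ‖∫ x, (starRingEnd ℂ) (a x) * b x ∂μ‖ ^ 2 ≤ (∫ x, ‖a x‖ ^ 2 ∂μ) * ∫ x, ‖b x‖ ^ 2 ∂μ := by
  have hint : Integrable (fun x => (starRingEnd ℂ) (a x) * b x) μ := by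
    have h1 : MemLp (star a) 2 μ := ha.star
    exact h1.integrable_mul hb
  refine ⟨hint, ?_⟩
  have e1 : inner ℂ (ha.toLp a) (hb.toLp b) = ∫ x, (starRingEnd ℂ) (a x) * b x ∂μ := by
    rw [L2.inner_def]
    refine integral_congr_ae ?_
    filter_upwards [ha.coeFn_toLp, hb.coeFn_toLp] with x hx hy
    rw [hx, hy, RCLike.inner_apply, mul_comm]
  have e2 : ∀ (f : α → ℂ) (hf : MemLp f 2 μ), ‖hf.toLp f‖ ^ 2 = ∫ x, ‖f x‖ ^ 2 ∂μ := by
    intro f hf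
    have h1 : inner ℂ (hf.toLp f) (hf.toLp f) = ((∫ x, ‖f x‖ ^ 2 ∂μ : ℝ) : ℂ) := by
      rw [L2.inner_def, ← integral_complex_ofReal]
      refine integral_congr_ae ?_
      filter_upwards [hf.coeFn_toLp] with x hx
      rw [hx, RCLike.inner_apply]
      rw [mul_comm, ← Complex.normSq_eq_conj_mul_self, Complex.normSq_eq_norm_sq]
    have h2 := congrArg Complex.re h1
    rw [Complex.ofReal_re] at h2
    rw [← h2]
    exact (inner_self_eq_norm_sq (𝕜 := ℂ) (hf.toLp f)).symm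
  have h := norm_inner_le_norm (𝕜 := ℂ) (ha.toLp a) (hb.toLp b)
  rw [e1] at h
  calc ‖∫ x, (starRingEnd ℂ) (a x) * b x ∂μ‖ ^ 2 ≤ (‖ha.toLp a‖ * ‖hb.toLp b‖) ^ 2 := by
        gcongr
    _ = _ := by rw [mul_pow, e2, e2]

theorem matrix_mul_diff {N : ℕ} (s : Set ℂ) (M M' : ℂ → Matrix (Fin N) (Fin N) ℂ)
    (h : ∀ i j, DifferentiableOn ℂ (fun k => M k i j) s)
    (h' : ∀ i j, DifferentiableOn ℂ (fun k => M' k i j) s) :
    ∀ i j, DifferentiableOn ℂ (fun k => (M k * M' k) i j) s := by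
  intro i j
  simp only [Matrix.mul_apply]
  exact DifferentiableOn.fun_sum fun l _ => (h i l).mul (h' l j)

theorem matrix_pow_diff {N : ℕ} (s : Set ℂ) (M : ℂ → Matrix (Fin N) (Fin N) ℂ)
    (h : ∀ i j, DifferentiableOn ℂ (fun k => M k i j) s) (n : ℕ) :
    ∀ i j, DifferentiableOn ℂ (fun k => (M k ^ n) i j) s := by
  induction n with
  | zero => intro i j; simp only [pow_zero]; exact differentiableOn_const _
  | succ n ih =>
    intro i j
    simp only [pow_succ]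
    exact matrix_mul_diff s (fun k => M k ^ n) M ih h i j

theorem sqrt_memLp {d : ℕ} (Q : Ed d → ℝ) (hQm : Measurable Q) (hQ0 : ∀ x, 0 < Q x) (φ : L2d d)
    (h : Integrable (fun x => Q x * ‖φ x‖ ^ 2) volume) :
    MemLp (fun x => ((Real.sqrt (Q x) : ℝ) : ℂ) * φ x) 2 volume := by
  have hm : AEStronglyMeasurable (fun x => ((Real.sqrt (Q x) : ℝ) : ℂ) * φ x) volume := by
    refine AEStronglyMeasurable.mul ?_ (Lp.aestronglyMeasurable φ)
    exact (by fun_prop : Measurable fun x => ((Real.sqrt (Q x) : ℝ) : ℂ)).aestronglyMeasurable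
  rw [memLp_two_iff_integrable_sq_norm hm]
  refine h.congr (Filter.Eventually.of_forall fun x => ?_)
  simp only [norm_mul, Complex.norm_real, Real.norm_eq_abs, mul_pow, sq_abs,
    Real.sq_sqrt (hQ0 x).le]

theorem Qinner {d : ℕ} (Q : Ed d → ℝ) (hQm : Measurable Q) (hQ0 : ∀ x, 0 < Q x) (φ ψ : L2d d)
    (h : Integrable (fun x => Q x * ‖φ x‖ ^ 2) volume)
    (h' : Integrable (fun x => Q x * ‖ψ x‖ ^ 2) volume) :
    Integrable (fun x => (Q x : ℂ) * (starRingEnd ℂ) (φ x) * ψ x) volume ∧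
    ‖∫ x, (Q x : ℂ) * (starRingEnd ℂ) (φ x) * ψ x‖ ^ 2 ≤
      (∫ x, Q x * ‖φ x‖ ^ 2) * ∫ x, Q x * ‖ψ x‖ ^ 2 := by
  have h1 := cs_int volume _ _ (sqrt_memLp Q hQm hQ0 φ h) (sqrt_memLp Q hQm hQ0 ψ h')
  have e : ∀ x, (starRingEnd ℂ) (((Real.sqrt (Q x) : ℝ) : ℂ) * φ x) *
      (((Real.sqrt (Q x) : ℝ) : ℂ) * ψ x) = (Q x : ℂ) * (starRingEnd ℂ) (φ x) * ψ x := by
    intro x
    rw [map_mul, Complex.conj_ofReal]
    have : ((Real.sqrt (Q x) : ℝ) : ℂ) * ((Real.sqrt (Q x) : ℝ) : ℂ) = (Q x : ℂ) := by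
      rw [← Complex.ofReal_mul, Real.mul_self_sqrt (hQ0 x).le]
    rw [← this]; ring
  have e2 : ∀ (φ : L2d d) x, ‖((Real.sqrt (Q x) : ℝ) : ℂ) * φ x‖ ^ 2 = Q x * ‖φ x‖ ^ 2 := by
    intro φ x
    simp only [norm_mul, Complex.norm_real, Real.norm_eq_abs, mul_pow, sq_abs,
      Real.sq_sqrt (hQ0 x).le]
  simp only [e, e2] at h1
  exact h1

end Pool.Agent.Helper209.CX
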