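import Mathlib
import Pool.Agent.Helper209.CX.DDefs

namespace Pool.Agent.Helper209.CX

namespace K01
open MeasureTheory ENNReal FourierTransform


open scoped SchwartzMap ContDiff in
theorem d1_fourier (d : ℕ) (f : Ed d → ℂ) (h1 : Integrable f volume) (h2 : MemLp f 2 volume) :
    ((𝓕 (h2.toLp f) : L2d d) : Ed d → ℂ) =ᵐ[volume]
      fun ξ => ∫ x : Ed d, Complex.exp (-(2 * Real.pi * Complex.I * ((inner ℝ x ξ : ℝ) : ℂ))) * f x := by
  have hg : (fun ξ => ∫ x : Ed d,
      Complex.exp (-(2 * Real.pi * Complex.I * ((inner ℝ x ξ : ℝ) : ℂ))) * f x) = 𝓕 f := by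
    funext ξ
    rw [Real.fourier_eq']
    refine integral_congr_ae (Filter.Eventually.of_forall fun x => ?_)
    simp only [smul_eq_mul]
    congr 2
    push_cast
    ring
  rw [hg]
  have hcont : Continuous (𝓕 f) :=
    VectorFourier.fourierIntegral_continuous Real.continuous_fourierChar
      (L := innerₗ (Ed d)) continuous_inner h1
  have hlp : LocallyIntegrable ((𝓕 (h2.toLp f) : L2d d) : Ed d → ℂ) volume :=
    (Lp.memLp _).locallyIntegrable (by norm_num)
  refine ae_eq_of_integral_contDiff_smul_eq hlp hcont.locallyIntegrable ?_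
  intro g g_smooth g_cpt
  have hg₁ : HasCompactSupport (Complex.ofRealCLM ∘ g) := g_cpt.comp_left rfl
  have hg₂ : ContDiff ℝ ∞ (Complex.ofRealCLM ∘ g) := by fun_prop
  calc ∫ x, g x • ((𝓕 (h2.toLp f) : L2d d) : Ed d → ℂ) x
      = Lp.toTemperedDistribution (𝓕 (h2.toLp f) : L2d d) (hg₁.toSchwartzMap hg₂) := by
        rw [Lp.toTemperedDistribution_apply]
        simp
    _ = 𝓕 (Lp.toTemperedDistribution (h2.toLp f : L2d d)) (hg₁.toSchwartzMap hg₂) := by
        rw [Lp.fourier_toTemperedDistribution_eq]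
    _ = Lp.toTemperedDistribution (h2.toLp f : L2d d) (𝓕 (hg₁.toSchwartzMap hg₂)) := rfl
    _ = ∫ x, (𝓕 (hg₁.toSchwartzMap hg₂)) x • (h2.toLp f : Ed d → ℂ) x := by
        rw [Lp.toTemperedDistribution_apply]
    _ = ∫ x, (𝓕 (hg₁.toSchwartzMap hg₂)) x • f x := by
        apply integral_congr_ae
        filter_upwards [h2.coeFn_toLp] with x hx
        rw [hx]
    _ = ∫ x, (hg₁.toSchwartzMap hg₂) x • 𝓕 f x := by
        have := VectorFourier.integral_fourierIntegral_smul_eq_flip (L := innerₗ (Ed d))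
          Real.continuous_fourierChar continuous_inner
          (hg₁.toSchwartzMap hg₂).integrable (μ := volume) (ν := volume) h1
        simpa using! this
    _ = ∫ x, g x • 𝓕 f x := by simp

end K01
end Pool.Agent.Helper209.CX
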