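import Mathlib
import Pool.Agent.Helper209.CX.DDefs

namespace Pool.Agent.Helper209.CX

namespace K02
open MeasureTheory ENNReal FourierTransform


theorem cw_cs {α : Type*} [MeasurableSpace α] {μ : Measure α} (f g : α → ℂ) (ρ : α → ℝ)
    (hρ : ∀ x, 0 < ρ x) (hρm : Measurable ρ) (hf : AEStronglyMeasurable f μ)
    (hg : AEStronglyMeasurable g μ) (h1 : Integrable (fun x => ‖f x‖ ^ 2 / ρ x) μ)
    (h2 : Integrable (fun x => ρ x * ‖g x‖ ^ 2) μ) :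
    Integrable (fun x => f x * g x) μ ∧
    ‖∫ x, f x * g x ∂μ‖ ^ 2 ≤ (∫ x, ‖f x‖ ^ 2 / ρ x ∂μ) * ∫ x, ρ x * ‖g x‖ ^ 2 ∂μ := by
  have hs : Measurable fun x => √(ρ x) := hρm.sqrt
  have hu : AEStronglyMeasurable (fun x => ‖f x‖ / √(ρ x)) μ :=
    (hf.norm.aemeasurable.div hs.aemeasurable).aestronglyMeasurable
  have ht : AEStronglyMeasurable (fun x => √(ρ x) * ‖g x‖) μ :=
    (hs.aemeasurable.mul hg.norm.aemeasurable).aestronglyMeasurable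
  have e1 : ∀ x, (‖f x‖ / √(ρ x)) ^ 2 = ‖f x‖ ^ 2 / ρ x := fun x => by
    rw [div_pow, Real.sq_sqrt (hρ x).le]
  have e2 : ∀ x, (√(ρ x) * ‖g x‖) ^ 2 = ρ x * ‖g x‖ ^ 2 := fun x => by
    rw [mul_pow, Real.sq_sqrt (hρ x).le]
  have hu2 : MemLp (fun x => ‖f x‖ / √(ρ x)) 2 μ := by
    rw [memLp_two_iff_integrable_sq hu]; simpa only [e1] using h1
  have ht2 : MemLp (fun x => √(ρ x) * ‖g x‖) 2 μ := by
    rw [memLp_two_iff_integrable_sq ht]; simpa only [e2] using h2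
  have e3 : ∀ x, ‖f x‖ / √(ρ x) * (√(ρ x) * ‖g x‖) = ‖f x * g x‖ := fun x => by
    have : √(ρ x) ≠ 0 := (Real.sqrt_pos.2 (hρ x)).ne'
    rw [norm_mul]; field_simp
  have hint : Integrable (fun x => ‖f x * g x‖) μ := by
    have := hu2.integrable_mul ht2
    refine this.congr (Filter.Eventually.of_forall fun x => ?_)
    exact e3 x
  have hint2 : Integrable (fun x => f x * g x) μ := (integrable_norm_iff (hf.mul hg)).1 hint
  refine ⟨hint2, ?_⟩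
  have hH := integral_mul_le_Lp_mul_Lq_of_nonneg Real.HolderConjugate.two_two
    (μ := μ) (f := fun x => ‖f x‖ / √(ρ x)) (g := fun x => √(ρ x) * ‖g x‖)
    (Filter.Eventually.of_forall fun x => by positivity)
    (Filter.Eventually.of_forall fun x => by positivity) (by simpa using hu2) (by simpa using ht2)
  have e4 : ∀ x, (‖f x‖ / √(ρ x)) ^ (2 : ℝ) = ‖f x‖ ^ 2 / ρ x := fun x => by
    rw [← e1 x]; norm_cast
  have e5 : ∀ x, (√(ρ x) * ‖g x‖) ^ (2 : ℝ) = ρ x * ‖g x‖ ^ 2 := fun x => by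
    rw [← e2 x]; norm_cast
  simp only [e3, e4, e5] at hH
  have hn : ‖∫ x, f x * g x ∂μ‖ ≤ ∫ x, ‖f x * g x‖ ∂μ := norm_integral_le_integral_norm _
  have hA : 0 ≤ ∫ x, ‖f x‖ ^ 2 / ρ x ∂μ :=
    integral_nonneg fun x => div_nonneg (sq_nonneg _) (hρ x).le
  have hB : 0 ≤ ∫ x, ρ x * ‖g x‖ ^ 2 ∂μ :=
    integral_nonneg fun x => mul_nonneg (hρ x).le (sq_nonneg _)
  have h5 := hn.trans hH
  have h6 := pow_le_pow_left₀ (norm_nonneg _) h5 2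
  refine h6.trans (le_of_eq ?_)
  rw [mul_pow, ← Real.sqrt_eq_rpow, ← Real.sqrt_eq_rpow, Real.sq_sqrt hA, Real.sq_sqrt hB]

/-- dyadic level -/
noncomputable def cwk {d : ℕ} (Q : Ed d → ℝ) (x : Ed d) : ℤ := Int.clog 2 (Q x)

theorem cwk_le_iff {d : ℕ} (Q : Ed d → ℝ) (hQ0 : ∀ x, 0 < Q x) (x : Ed d) (m : ℤ) :
    cwk Q x ≤ m ↔ Q x ≤ (2 : ℝ) ^ m := by
  have := Int.le_zpow_iff_clog_le (b := 2) (R := ℝ) (by norm_num) (x := m) (hQ0 x)
  unfold cwk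
  rw [← this]; norm_num

theorem cwk_meas {d : ℕ} (Q : Ed d → ℝ) (hQm : Measurable Q) (hQ0 : ∀ x, 0 < Q x) :
    Measurable (cwk Q) := by
  apply measurable_of_Iic
  intro m
  have : cwk Q ⁻¹' Set.Iic m = {x | Q x ≤ (2 : ℝ) ^ m} := by
    ext x
    simp only [Set.mem_preimage, Set.mem_Iic, Set.mem_ofPred_eq]
    exact cwk_le_iff Q hQ0 x m
  rw [this]
  exact measurableSet_le hQm measurable_const

theorem cwk_self {d : ℕ} (Q : Ed d → ℝ) (hQ0 : ∀ x, 0 < Q x) (x : Ed d) :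
    Q x ≤ (2 : ℝ) ^ cwk Q x := (cwk_le_iff Q hQ0 x _).1 le_rfl

theorem cwk_lt {d : ℕ} (Q : Ed d → ℝ) (hQ0 : ∀ x, 0 < Q x) (x : Ed d) :
    (2 : ℝ) ^ cwk Q x < 2 * Q x := by
  by_contra h
  push Not at h
  have h1 : Q x ≤ (2 : ℝ) ^ (cwk Q x - 1) := by
    rw [zpow_sub_one₀ (by norm_num : (2 : ℝ) ≠ 0)]
    linarith
  have h2 := (cwk_le_iff Q hQ0 x _).2 h1
  omega

/-- the pieces -/
noncomputable def cwf {d : ℕ} (Q : Ed d → ℝ) (v : Ed d → ℂ) (m : ℤ) (w : L2d d) (x : Ed d) : ℂ :=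
  if cwk Q x = m then v x * w x else 0

theorem cw_geom (M : ℕ) (y : ℝ) :
    ∑ m ∈ Finset.Icc (-(M : ℤ)) M, (if (2 : ℝ) ^ m ≤ y then (2 : ℝ) ^ m else 0) ≤ 2 * max y 0 := by
  have key : ∀ n : ℕ, ∑ m ∈ Finset.Ico (-(M : ℤ)) (-(M : ℤ) + n),
      (if (2 : ℝ) ^ m ≤ y then (2 : ℝ) ^ m else 0) ≤ 2 * max y 0 ∧
      ∑ m ∈ Finset.Ico (-(M : ℤ)) (-(M : ℤ) + n),
      (if (2 : ℝ) ^ m ≤ y then (2 : ℝ) ^ m else 0) ≤ (2 : ℝ) ^ (-(M : ℤ) + n) := by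
    intro n
    induction n with
    | zero =>
      simp only [Nat.cast_zero, add_zero, Finset.Ico_self, Finset.sum_empty]
      exact ⟨by positivity, by positivity⟩
    | succ n ih =>
      have e : Finset.Ico (-(M : ℤ)) (-(M : ℤ) + (n + 1 : ℕ)) =
          insert (-(M : ℤ) + n) (Finset.Ico (-(M : ℤ)) (-(M : ℤ) + n)) := by
        ext k
        simp only [Finset.mem_Ico, Finset.mem_insert]
        push_cast
        omega
      rw [e, Finset.sum_insert (by simp)]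
      have e2 : (2 : ℝ) ^ (-(M : ℤ) + (n + 1 : ℕ)) = 2 * (2 : ℝ) ^ (-(M : ℤ) + n) := by
        have : (-(M : ℤ) + (n + 1 : ℕ)) = (-(M : ℤ) + n) + 1 := by push_cast; ring
        rw [this, zpow_add_one₀ (by norm_num : (2 : ℝ) ≠ 0)]; ring
      have hp : (0 : ℝ) < (2 : ℝ) ^ (-(M : ℤ) + n) := by positivity
      rw [e2]
      by_cases h : (2 : ℝ) ^ (-(M : ℤ) + n) ≤ y
      · rw [if_pos h]
        have : y ≤ max y 0 := le_max_left _ _
        constructor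
        · linarith [ih.2]
        · linarith [ih.2]
      · rw [if_neg h, zero_add]
        exact ⟨ih.1, by linarith [ih.2]⟩
  have e : Finset.Icc (-(M : ℤ)) M = Finset.Ico (-(M : ℤ)) (-(M : ℤ) + (2 * M + 1 : ℕ)) := by
    ext k
    simp only [Finset.mem_Ico, Finset.mem_Icc]
    push_cast
    omega
  rw [e]
  exact (key _).1

theorem cw_memI {d : ℕ} (Q : Ed d → ℝ) (hQ0 : ∀ x, 0 < Q x) (M : ℕ) (x : Ed d)
    (h : (2 : ℝ) ^ (-(M : ℤ)) < Q x ∧ Q x ≤ (2 : ℝ) ^ (M : ℤ)) :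
    cwk Q x ∈ Finset.Icc (-(M : ℤ)) M := by
  rw [Finset.mem_Icc]
  constructor
  · by_contra hlt
    push Not at hlt
    have := (cwk_le_iff Q hQ0 x (-(M : ℤ))).1 hlt.le
    linarith [h.1]
  · exact (cwk_le_iff Q hQ0 x _).2 h.2

theorem cw_v2 {d : ℕ} (Q : Ed d → ℝ) (v : Ed d → ℂ) (hv : Measurable v)
    (hvQ : ∀ x, ‖v x‖ ^ 2 ≤ Q x) (M : ℕ)
    (hvs : ∀ x, v x ≠ 0 → (2 : ℝ) ^ (-(M : ℤ)) < Q x ∧ Q x ≤ (2 : ℝ) ^ (M : ℤ))
    (hfin : volume {x | v x ≠ 0} < ⊤) :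
    (∀ x, ‖v x‖ ≤ (2 : ℝ) ^ M) ∧ MemLp v 2 volume := by
  have hb : ∀ x, ‖v x‖ ≤ (2 : ℝ) ^ M := by
    intro x
    by_cases h : v x = 0
    · rw [h, norm_zero]; positivity
    · have h1 := (hvQ x).trans (hvs x h).2
      rw [zpow_natCast] at h1
      have h2 : (1 : ℝ) ≤ (2 : ℝ) ^ M := one_le_pow₀ (by norm_num)
      have h3 : ‖v x‖ ^ 2 ≤ ((2 : ℝ) ^ M) ^ 2 := by nlinarith
      exact le_of_sq_le_sq h3 (by positivity)
  refine ⟨hb, ?_⟩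
  have hS : MeasurableSet {x | v x ≠ 0} := hv (measurableSet_singleton 0).compl
  have h1 : MemLp ({x | v x ≠ 0}.indicator (fun _ => (1 : ℝ))) 2 volume :=
    memLp_indicator_const 2 hS 1 (Or.inr hfin.ne)
  refine h1.of_le_mul (c := (2 : ℝ) ^ M) hv.aestronglyMeasurable
    (Filter.Eventually.of_forall fun x => ?_)
  by_cases h : v x = 0
  · rw [h, norm_zero]; positivity
  · rw [Set.indicator_of_mem (show x ∈ {x | v x ≠ 0} from h)]
    simpa using hb x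

theorem cwf_asm {d : ℕ} (Q : Ed d → ℝ) (hQm : Measurable Q) (hQ0 : ∀ x, 0 < Q x)
    (v : Ed d → ℂ) (hv : Measurable v) (m : ℤ) (w : L2d d) :
    AEStronglyMeasurable (cwf Q v m w) volume := by
  have hS : MeasurableSet {x | cwk Q x = m} :=
    (cwk_meas Q hQm hQ0) (measurableSet_singleton m)
  have h1 : AEStronglyMeasurable (fun x => v x * w x) volume :=
    hv.aestronglyMeasurable.mul (Lp.aestronglyMeasurable w)
  have h2 := h1.indicator hS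
  refine h2.congr (Filter.Eventually.of_forall fun x => ?_)
  simp [cwf, Set.indicator_apply]

theorem cwf_norm {d : ℕ} (Q : Ed d → ℝ) (v : Ed d → ℂ) (m : ℤ) (w : L2d d) (x : Ed d) :
    ‖cwf Q v m w x‖ ≤ ‖v x * w x‖ := by
  unfold cwf
  split_ifs with h
  · exact le_rfl
  · rw [norm_zero]; exact norm_nonneg _

theorem cwf_mem {d : ℕ} (Q : Ed d → ℝ) (hQm : Measurable Q) (hQ0 : ∀ x, 0 < Q x)
    (v : Ed d → ℂ) (hv : Measurable v) (C : ℝ) (hC : ∀ x, ‖v x‖ ≤ C) (m : ℤ) (w : L2d d) :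
    MemLp (cwf Q v m w) 2 volume := by
  refine (Lp.memLp w).of_le_mul (c := C) (cwf_asm Q hQm hQ0 v hv m w)
    (Filter.Eventually.of_forall fun x => ?_)
  refine (cwf_norm Q v m w x).trans ?_
  rw [norm_mul]
  exact mul_le_mul_of_nonneg_right (hC x) (norm_nonneg _)

theorem cwf_int {d : ℕ} (Q : Ed d → ℝ) (hQm : Measurable Q) (hQ0 : ∀ x, 0 < Q x)
    (v : Ed d → ℂ) (hv : Measurable v) (hv2 : MemLp v 2 volume) (m : ℤ) (w : L2d d) :
    Integrable (cwf Q v m w) volume := by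
  have h1 : Integrable (fun x => v x * w x) volume := hv2.integrable_mul (Lp.memLp w)
  exact h1.mono (cwf_asm Q hQm hQ0 v hv m w) (Filter.Eventually.of_forall (cwf_norm Q v m w))

/-- the character -/
noncomputable def cwe {d : ℕ} (ξ x : Ed d) : ℂ :=
  Complex.exp (-(2 * Real.pi * Complex.I * ((inner ℝ x ξ : ℝ) : ℂ)))

theorem cwe_norm {d : ℕ} (ξ x : Ed d) : ‖cwe ξ x‖ = 1 := by
  unfold cwe
  rw [Complex.norm_exp]
  simp

theorem cwe_cont {d : ℕ} (ξ : Ed d) : Continuous (cwe ξ) := by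
  unfold cwe
  fun_prop

/-- test function for Bessel -/
noncomputable def cwg {d : ℕ} (Q G : Ed d → ℝ) (v : Ed d → ℂ) (l0 : ℝ) (ξ x : Ed d) : ℂ :=
  if l0 < (2 : ℝ) ^ cwk Q x * G ξ then (starRingEnd ℂ) (cwe ξ x * v x) else 0

theorem cwg_norm {d : ℕ} (Q G : Ed d → ℝ) (v : Ed d → ℂ) (l0 : ℝ) (ξ x : Ed d) :
    ‖cwg Q G v l0 ξ x‖ ≤ ‖v x‖ := by
  unfold cwg
  split_ifs with h
  · rw [RCLike.norm_conj, norm_mul, cwe_norm, one_mul]
  · rw [norm_zero]; exact norm_nonneg _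

theorem cwg_meas {d : ℕ} (Q G : Ed d → ℝ) (hQm : Measurable Q) (hQ0 : ∀ x, 0 < Q x)
    (v : Ed d → ℂ) (hv : Measurable v) (l0 : ℝ) (ξ : Ed d) :
    Measurable (cwg Q G v l0 ξ) := by
  unfold cwg
  have hk := cwk_meas Q hQm hQ0
  refine Measurable.ite ?_ ?_ measurable_const
  · have h2 : Measurable fun x => (2 : ℝ) ^ cwk Q x * G ξ :=
      (Measurable.of_discrete (f := fun k : ℤ => (2 : ℝ) ^ k * G ξ)).comp hk
    exact measurableSet_lt measurable_const h2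
  · exact (Complex.continuous_conj.measurable).comp ((cwe_cont ξ).measurable.mul hv)

theorem cwg_mem {d : ℕ} (Q G : Ed d → ℝ) (hQm : Measurable Q) (hQ0 : ∀ x, 0 < Q x)
    (v : Ed d → ℂ) (hv : Measurable v) (hv2 : MemLp v 2 volume) (l0 : ℝ) (ξ : Ed d) :
    MemLp (cwg Q G v l0 ξ) 2 volume :=
  hv2.of_le (cwg_meas Q G hQm hQ0 v hv l0 ξ).aestronglyMeasurable
    (Filter.Eventually.of_forall (cwg_norm Q G v l0 ξ))

theorem cw_inner {d : ℕ} (Q G : Ed d → ℝ) (hQm : Measurable Q) (hQ0 : ∀ x, 0 < Q x)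
    (v : Ed d → ℂ) (hv : Measurable v) (hv2 : MemLp v 2 volume) (M : ℕ)
    (hvs : ∀ x, v x ≠ 0 → (2 : ℝ) ^ (-(M : ℤ)) < Q x ∧ Q x ≤ (2 : ℝ) ^ (M : ℤ))
    (l0 : ℝ) (ξ : Ed d) (w : L2d d) :
    ∑ m ∈ Finset.Icc (-(M : ℤ)) M, (if l0 < (2 : ℝ) ^ m * G ξ then
      ∫ x, cwe ξ x * cwf Q v m w x else 0) =
    inner ℂ ((cwg_mem Q G hQm hQ0 v hv hv2 l0 ξ).toLp _) w := by
  have hint : ∀ m : ℤ, Integrable (fun x => if l0 < (2 : ℝ) ^ m * G ξ then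
      cwe ξ x * cwf Q v m w x else 0) volume := by
    intro m
    split_ifs with h
    · refine (cwf_int Q hQm hQ0 v hv hv2 m w).mono
        ((cwe_cont ξ).aestronglyMeasurable.mul (cwf_asm Q hQm hQ0 v hv m w))
        (Filter.Eventually.of_forall fun x => ?_)
      rw [norm_mul, cwe_norm, one_mul]
    · exact integrable_zero _ _ _
  have e1 : ∀ m : ℤ, (if l0 < (2 : ℝ) ^ m * G ξ then
      ∫ x, cwe ξ x * cwf Q v m w x else 0) = ∫ x, (if l0 < (2 : ℝ) ^ m * G ξ then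
      cwe ξ x * cwf Q v m w x else 0) := by
    intro m
    split_ifs with h
    · rfl
    · simp
  rw [Finset.sum_congr rfl fun m _ => e1 m, ← integral_finsetSum _ fun m _ => hint m,
    L2.inner_def]
  refine integral_congr_ae ?_
  filter_upwards [(cwg_mem Q G hQm hQ0 v hv hv2 l0 ξ).coeFn_toLp] with x hx
  rw [hx]
  by_cases hv0 : v x = 0
  · have h1 : cwg Q G v l0 ξ x = 0 := by simp [cwg, hv0]
    rw [h1, inner_zero_left]
    refine Finset.sum_eq_zero fun m _ => ?_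
    simp [cwf, hv0]
  · rw [Finset.sum_eq_single_of_mem _ (cw_memI Q hQ0 M x (hvs x hv0))]
    · unfold cwg cwf
      rw [if_pos rfl]
      by_cases h : l0 < (2 : ℝ) ^ cwk Q x * G ξ
      · rw [if_pos h, if_pos h, RCLike.inner_apply]
        simp only [Complex.conj_conj]
        ring
      · rw [if_neg h, if_neg h, inner_zero_left]
    · intro m _ hm
      unfold cwf
      rw [if_neg (Ne.symm hm)]
      simp

theorem cw_l2norm {d : ℕ} (f : L2d d) :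
    Integrable (fun x => ‖f x‖ ^ 2) volume ∧ ‖f‖ ^ 2 = ∫ x, ‖f x‖ ^ 2 := by
  refine ⟨(memLp_two_iff_integrable_sq_norm (Lp.aestronglyMeasurable f)).1 (Lp.memLp f), ?_⟩
  have h1 : inner ℂ f f = ∫ x, inner ℂ (f x) (f x) := L2.inner_def f f
  rw [inner_self_eq_norm_sq_to_K] at h1
  have h2 : (∫ x, inner ℂ (f x) (f x)) = ((∫ x, ‖f x‖ ^ 2 : ℝ) : ℂ) := by
    rw [← integral_complex_ofReal]
    refine integral_congr_ae (Filter.Eventually.of_forall fun x => ?_)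
    simp only
    rw [inner_self_eq_norm_sq_to_K]
    norm_cast
  rw [h2] at h1
  have h3 : ((‖f‖ ^ 2 : ℝ) : ℂ) = ((∫ x, ‖f x‖ ^ 2 : ℝ) : ℂ) := by
    rw [← h1]; push_cast; rfl
  exact Complex.ofReal_injective h3

/-- the high part in Fourier space -/
noncomputable def cwH {d : ℕ} (G : Ed d → ℝ) (M : ℕ) (l0 : ℝ) (F : ℤ → L2d d) (ξ : Ed d) : ℂ :=
  ∑ m ∈ Finset.Icc (-(M : ℤ)) M, if l0 < (2 : ℝ) ^ m * G ξ then F m ξ else 0

theorem cwH_asm {d : ℕ} (G : Ed d → ℝ) (hGm : Measurable G) (M : ℕ) (l0 : ℝ) (F : ℤ → L2d d) :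
    AEStronglyMeasurable (cwH G M l0 F) volume := by
  unfold cwH
  have h : ∀ m ∈ Finset.Icc (-(M : ℤ)) M, AEStronglyMeasurable
      (fun ξ => if l0 < (2 : ℝ) ^ m * G ξ then F m ξ else 0) volume := by
    intro m _
    have hS : MeasurableSet {ξ | l0 < (2 : ℝ) ^ m * G ξ} :=
      measurableSet_lt measurable_const (measurable_const.mul hGm)
    have h2 := (Lp.aestronglyMeasurable (F m)).indicator hS
    refine h2.congr (Filter.Eventually.of_forall fun x => ?_)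
    simp [Set.indicator_apply]
  exact Finset.aestronglyMeasurable_fun_sum _ h

theorem cw_bessel
    (four : ∀ (d : ℕ) (f : Ed d → ℂ) (_ : Integrable f volume) (h2 : MemLp f 2 volume),
      ((𝓕 (h2.toLp f) : L2d d) : Ed d → ℂ) =ᵐ[volume]
      fun ξ => ∫ x : Ed d, Complex.exp (-(2 * Real.pi * Complex.I * ((inner ℝ x ξ : ℝ) : ℂ))) * f x)
    (d N : ℕ) (w : Fin N → L2d d) (hw : Orthonormal ℂ w) (Q G : Ed d → ℝ) (hQm : Measurable Q)
    (hQ0 : ∀ x, 0 < Q x) (hG0 : ∀ ξ, 0 < G ξ)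
    (v : Ed d → ℂ) (hv : Measurable v) (hvQ : ∀ x, ‖v x‖ ^ 2 ≤ Q x) (M : ℕ)
    (hvs : ∀ x, v x ≠ 0 → (2 : ℝ) ^ (-(M : ℤ)) < Q x ∧ Q x ≤ (2 : ℝ) ^ (M : ℤ))
    (hv2 : MemLp v 2 volume) (C : ℝ) (hC : ∀ x, ‖v x‖ ≤ C) (l0 : ℝ) :
    ∀ᵐ ξ : Ed d, ∑ j, ENNReal.ofReal (G ξ * ‖cwH G M l0
        (fun m => 𝓕 ((cwf_mem Q hQm hQ0 v hv C hC m (w j)).toLp _)) ξ‖ ^ 2) ≤
      ∫⁻ x, (if l0 < 2 * (Q x * G ξ) then ENNReal.ofReal (Q x * G ξ) else 0) := by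
  have hall : ∀ᵐ ξ : Ed d, ∀ (j : Fin N) (m : ℤ),
      (𝓕 ((cwf_mem Q hQm hQ0 v hv C hC m (w j)).toLp _) : L2d d) ξ =
      ∫ x : Ed d, cwe ξ x * cwf Q v m (w j) x := by
    rw [ae_all_iff]; intro j
    rw [ae_all_iff]; intro m
    exact four d _ (cwf_int Q hQm hQ0 v hv hv2 m (w j)) (cwf_mem Q hQm hQ0 v hv C hC m (w j))
  filter_upwards [hall] with ξ hξ
  set g : L2d d := (cwg_mem Q G hQm hQ0 v hv hv2 l0 ξ).toLp _ with hg
  have hH : ∀ j, cwH G M l0 (fun m => 𝓕 ((cwf_mem Q hQm hQ0 v hv C hC m (w j)).toLp _)) ξ =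
      inner ℂ g (w j) := by
    intro j
    rw [hg, ← cw_inner Q G hQm hQ0 v hv hv2 M hvs l0 ξ (w j)]
    unfold cwH
    refine Finset.sum_congr rfl fun m _ => ?_
    rw [hξ j m]
  have hb := hw.sum_inner_products_le g (s := Finset.univ)
  have h1 : ∑ j, ENNReal.ofReal (G ξ * ‖cwH G M l0
        (fun m => 𝓕 ((cwf_mem Q hQm hQ0 v hv C hC m (w j)).toLp _)) ξ‖ ^ 2) =
      ENNReal.ofReal (G ξ * ∑ j, ‖inner ℂ (w j) g‖ ^ 2) := by
    rw [Finset.mul_sum, ENNReal.ofReal_sum_of_nonneg]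
    · refine Finset.sum_congr rfl fun j _ => ?_
      rw [hH j, norm_inner_symm]
    · intro j _
      exact mul_nonneg (hG0 ξ).le (sq_nonneg _)
  rw [h1]
  obtain ⟨hgi, hgn⟩ := cw_l2norm g
  have h2 : ENNReal.ofReal (G ξ * ∑ j, ‖inner ℂ (w j) g‖ ^ 2) ≤
      ENNReal.ofReal (∫ x, G ξ * ‖g x‖ ^ 2) := by
    refine ENNReal.ofReal_le_ofReal ?_
    rw [integral_const_mul, ← hgn]
    exact mul_le_mul_of_nonneg_left hb (hG0 ξ).le
  refine h2.trans ?_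
  rw [ofReal_integral_eq_lintegral_ofReal (hgi.const_mul _)
    (Filter.Eventually.of_forall fun x => mul_nonneg (hG0 ξ).le (sq_nonneg _))]
  refine lintegral_mono_ae ?_
  filter_upwards [(cwg_mem Q G hQm hQ0 v hv hv2 l0 ξ).coeFn_toLp] with x hx
  rw [hg, hx]
  by_cases h : l0 < (2 : ℝ) ^ cwk Q x * G ξ
  · have h3 : l0 < 2 * (Q x * G ξ) := by
      have := mul_lt_mul_of_pos_right (cwk_lt Q hQ0 x) (hG0 ξ)
      linarith
    rw [if_pos h3]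
    refine ENNReal.ofReal_le_ofReal ?_
    have h4 : ‖cwg Q G v l0 ξ x‖ ^ 2 ≤ Q x :=
      (pow_le_pow_left₀ (norm_nonneg _) (cwg_norm Q G v l0 ξ x) 2).trans (hvQ x)
    rw [mul_comm]
    exact mul_le_mul_of_nonneg_right h4 (hG0 ξ).le
  · have h4 : cwg Q G v l0 ξ x = 0 := by
      unfold cwg; rw [if_neg h]
    rw [h4]
    simp

theorem cw_S
    (four : ∀ (d : ℕ) (f : Ed d → ℂ) (_ : Integrable f volume) (h2 : MemLp f 2 volume),
      ((𝓕 (h2.toLp f) : L2d d) : Ed d → ℂ) =ᵐ[volume]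
      fun ξ => ∫ x : Ed d, Complex.exp (-(2 * Real.pi * Complex.I * ((inner ℝ x ξ : ℝ) : ℂ))) * f x)
    (d N : ℕ) (w : Fin N → L2d d) (hw : Orthonormal ℂ w) (Q G : Ed d → ℝ) (hQm : Measurable Q)
    (hGm : Measurable G) (hQ0 : ∀ x, 0 < Q x) (hG0 : ∀ ξ, 0 < G ξ)
    (v : Ed d → ℂ) (hv : Measurable v) (hvQ : ∀ x, ‖v x‖ ^ 2 ≤ Q x) (M : ℕ)
    (hvs : ∀ x, v x ≠ 0 → (2 : ℝ) ^ (-(M : ℤ)) < Q x ∧ Q x ≤ (2 : ℝ) ^ (M : ℤ))
    (hv2 : MemLp v 2 volume) (C : ℝ) (hC : ∀ x, ‖v x‖ ≤ C) (l0 : ℝ)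
    (hI : ∫⁻ x, ∫⁻ ξ, (if l0 < 2 * (Q x * G ξ) then ENNReal.ofReal (Q x * G ξ) else 0) < ⊤) :
    (∀ j, Integrable (fun ξ => G ξ * ‖cwH G M l0
        (fun m => 𝓕 ((cwf_mem Q hQm hQ0 v hv C hC m (w j)).toLp _)) ξ‖ ^ 2) volume) ∧
    ENNReal.ofReal (∑ j, ∫ ξ, G ξ * ‖cwH G M l0
        (fun m => 𝓕 ((cwf_mem Q hQm hQ0 v hv C hC m (w j)).toLp _)) ξ‖ ^ 2) ≤
      ∫⁻ x, ∫⁻ ξ, (if l0 < 2 * (Q x * G ξ) then ENNReal.ofReal (Q x * G ξ) else 0) := by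
  have hsw : ∫⁻ x, ∫⁻ ξ, (if l0 < 2 * (Q x * G ξ) then ENNReal.ofReal (Q x * G ξ) else 0) =
      ∫⁻ ξ, ∫⁻ x, (if l0 < 2 * (Q x * G ξ) then ENNReal.ofReal (Q x * G ξ) else 0) := by
    refine lintegral_lintegral_swap (Measurable.aemeasurable ?_)
    have hQG : Measurable fun p : Ed d × Ed d => Q p.1 * G p.2 :=
      (hQm.comp measurable_fst).mul (hGm.comp measurable_snd)
    refine Measurable.ite ?_ hQG.ennreal_ofReal measurable_const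
    exact measurableSet_lt measurable_const (measurable_const.mul hQG)
  have hasm : ∀ j, AEMeasurable (fun ξ => G ξ * ‖cwH G M l0
        (fun m => 𝓕 ((cwf_mem Q hQm hQ0 v hv C hC m (w j)).toLp _)) ξ‖ ^ 2) volume := fun j =>
    hGm.aemeasurable.mul ((cwH_asm G hGm M l0 _).norm.aemeasurable.pow_const 2)
  have hnn : ∀ j, 0 ≤ᵐ[volume] (fun ξ => G ξ * ‖cwH G M l0
        (fun m => 𝓕 ((cwf_mem Q hQm hQ0 v hv C hC m (w j)).toLp _)) ξ‖ ^ 2) := fun j =>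
    Filter.Eventually.of_forall fun ξ => mul_nonneg (hG0 ξ).le (sq_nonneg _)
  have hsum : ∑ j, ∫⁻ ξ, ENNReal.ofReal (G ξ * ‖cwH G M l0
        (fun m => 𝓕 ((cwf_mem Q hQm hQ0 v hv C hC m (w j)).toLp _)) ξ‖ ^ 2) ≤
      ∫⁻ x, ∫⁻ ξ, (if l0 < 2 * (Q x * G ξ) then ENNReal.ofReal (Q x * G ξ) else 0) := by
    rw [← lintegral_finsetSum' _ fun j _ => (hasm j).ennreal_ofReal, hsw]
    exact lintegral_mono_ae (cw_bessel four d N w hw Q G hQm hQ0 hG0 v hv hvQ M hvs hv2 C hC l0)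
  have hint : ∀ j, Integrable (fun ξ => G ξ * ‖cwH G M l0
        (fun m => 𝓕 ((cwf_mem Q hQm hQ0 v hv C hC m (w j)).toLp _)) ξ‖ ^ 2) volume := by
    intro j
    refine (lintegral_ofReal_ne_top_iff_integrable (hasm j).aestronglyMeasurable (hnn j)).1 ?_
    have h1 : ∫⁻ ξ, ENNReal.ofReal (G ξ * ‖cwH G M l0
        (fun m => 𝓕 ((cwf_mem Q hQm hQ0 v hv C hC m (w j)).toLp _)) ξ‖ ^ 2) ≤
        ∑ j, ∫⁻ ξ, ENNReal.ofReal (G ξ * ‖cwH G M l0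
        (fun m => 𝓕 ((cwf_mem Q hQm hQ0 v hv C hC m (w j)).toLp _)) ξ‖ ^ 2) :=
      Finset.single_le_sum (f := fun j => ∫⁻ ξ, ENNReal.ofReal (G ξ * ‖cwH G M l0
        (fun m => 𝓕 ((cwf_mem Q hQm hQ0 v hv C hC m (w j)).toLp _)) ξ‖ ^ 2))
        (fun _ _ => zero_le) (Finset.mem_univ j)
    exact ((h1.trans hsum).trans_lt hI).ne
  refine ⟨hint, ?_⟩
  rw [ENNReal.ofReal_sum_of_nonneg fun j _ => integral_nonneg fun ξ =>
    mul_nonneg (hG0 ξ).le (sq_nonneg _)]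
  refine le_trans (le_of_eq ?_) hsum
  refine Finset.sum_congr rfl fun j _ => ?_
  exact ofReal_integral_eq_lintegral_ofReal (hint j) (hnn j)

/-- the low part -/
theorem cw_low {d : ℕ} (w : L2d d) (hw : ‖w‖ = 1) (Q G : Ed d → ℝ) (hQm : Measurable Q)
    (hGm : Measurable G) (hQ0 : ∀ x, 0 < Q x) (hG0 : ∀ ξ, 0 < G ξ)
    (v : Ed d → ℂ) (hv : Measurable v) (hvQ : ∀ x, ‖v x‖ ^ 2 ≤ Q x) (M : ℕ)
    (C : ℝ) (hC : ∀ x, ‖v x‖ ≤ C) (l0 : ℝ) (hl0 : 0 < l0) (φ : L2d d)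
    (hφ : Integrable (fun ξ => ‖φ ξ‖ ^ 2 / G ξ) volume) :
    ‖∑ m ∈ Finset.Icc (-(M : ℤ)) M, ∫ ξ, (if l0 < (2 : ℝ) ^ m * G ξ then 0 else
      (starRingEnd ℂ) (φ ξ)) * (𝓕 ((cwf_mem Q hQm hQ0 v hv C hC m w).toLp _) : L2d d) ξ‖ ^ 2 ≤
      2 * l0 * ∫ ξ, ‖φ ξ‖ ^ 2 / G ξ := by
  obtain ⟨hφi, -⟩ := cw_l2norm φ
  obtain ⟨hwi, hwn⟩ := cw_l2norm w
  have hφm : AEStronglyMeasurable (fun ξ => (starRingEnd ℂ) (φ ξ)) volume :=
    Complex.continuous_conj.comp_aestronglyMeasurable (Lp.aestronglyMeasurable φ)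
  have hS : ∀ m : ℤ, MeasurableSet {ξ | l0 < (2 : ℝ) ^ m * G ξ} := fun m =>
    measurableSet_lt measurable_const (measurable_const.mul hGm)
  have hK : ∀ m : ℤ, MeasurableSet {x | cwk Q x = m} := fun m =>
    (cwk_meas Q hQm hQ0) (measurableSet_singleton m)
  have hai : ∀ m : ℤ, Integrable (fun ξ => if l0 < (2 : ℝ) ^ m * G ξ then 0 else ‖φ ξ‖ ^ 2)
      volume := by
    intro m
    have := hφi.indicator (hS m).compl
    refine this.congr (Filter.Eventually.of_forall fun ξ => ?_)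
    by_cases h : l0 < (2 : ℝ) ^ m * G ξ <;> simp [Set.indicator_apply, h]
  have hbi : ∀ m : ℤ, Integrable (fun x => if cwk Q x = m then ‖w x‖ ^ 2 else 0) volume := by
    intro m
    have := hwi.indicator (hK m)
    refine this.congr (Filter.Eventually.of_forall fun ξ => ?_)
    simp [Set.indicator_apply]
  set a : ℤ → ℝ := fun m => ∫ ξ, if l0 < (2 : ℝ) ^ m * G ξ then 0 else ‖φ ξ‖ ^ 2 with ha
  set b : ℤ → ℝ := fun m => ∫ x, if cwk Q x = m then ‖w x‖ ^ 2 else 0 with hb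
  have ha0 : ∀ m, 0 ≤ a m := fun m => integral_nonneg fun ξ => by
    simp only [Pi.zero_apply]; split_ifs <;> positivity
  have hb0 : ∀ m, 0 ≤ b m := fun m => integral_nonneg fun ξ => by
    simp only [Pi.zero_apply]; split_ifs <;> positivity
  have hone : ∀ m : ℤ, ‖∫ ξ, (if l0 < (2 : ℝ) ^ m * G ξ then 0 else
      (starRingEnd ℂ) (φ ξ)) * (𝓕 ((cwf_mem Q hQm hQ0 v hv C hC m w).toLp _) : L2d d) ξ‖ ≤
      √((2 : ℝ) ^ m * a m) * √(b m) := by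
    intro m
    set F : L2d d := 𝓕 ((cwf_mem Q hQm hQ0 v hv C hC m w).toLp _) with hF
    obtain ⟨hFi, hFn⟩ := cw_l2norm F
    obtain ⟨hfi, hfn⟩ := cw_l2norm ((cwf_mem Q hQm hQ0 v hv C hC m w).toLp _)
    have h1 := (cw_cs (μ := volume) (fun ξ => if l0 < (2 : ℝ) ^ m * G ξ then 0 else
      (starRingEnd ℂ) (φ ξ)) F (fun _ => 1) (fun _ => one_pos) measurable_const ?_
      (Lp.aestronglyMeasurable F) ?_ (by simpa using hFi)).2
    · have e1 : ∫ ξ, ‖(if l0 < (2 : ℝ) ^ m * G ξ then 0 else (starRingEnd ℂ) (φ ξ) : ℂ)‖ ^ 2 / 1 =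
          a m := by
        refine integral_congr_ae (Filter.Eventually.of_forall fun ξ => ?_)
        by_cases h : l0 < (2 : ℝ) ^ m * G ξ <;> simp [h]
      have e2 : ∫ ξ, 1 * ‖F ξ‖ ^ 2 = ‖F‖ ^ 2 := by
        rw [hFn]; simp
      rw [e1, e2] at h1
      have e3 : ‖F‖ ^ 2 ≤ (2 : ℝ) ^ m * b m := by
        rw [hF, Lp.norm_fourier_eq, hfn, hb]
        simp only
        rw [← integral_const_mul]
        refine integral_mono_ae hfi ((hbi m).const_mul _) ?_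
        filter_upwards [(cwf_mem Q hQm hQ0 v hv C hC m w).coeFn_toLp] with x hx
        rw [hx]
        unfold cwf
        by_cases h : cwk Q x = m
        · rw [if_pos h, if_pos h, norm_mul, mul_pow]
          refine mul_le_mul_of_nonneg_right ?_ (sq_nonneg _)
          rw [← h]
          exact (hvQ x).trans (cwk_self Q hQ0 x)
        · rw [if_neg h, if_neg h]; simp
      have h2 : ‖∫ ξ, (if l0 < (2 : ℝ) ^ m * G ξ then 0 else (starRingEnd ℂ) (φ ξ)) * F ξ‖ ^ 2 ≤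
          (2 : ℝ) ^ m * a m * b m := by
        refine h1.trans ((mul_le_mul_of_nonneg_left e3 (ha0 m)).trans (le_of_eq ?_))
        ring
      rw [← Real.sqrt_mul (mul_nonneg (by positivity) (ha0 m))]
      exact Real.le_sqrt_of_sq_le h2
    · have := hφm.indicator (hS m).compl
      refine this.congr (Filter.Eventually.of_forall fun ξ => ?_)
      by_cases h : l0 < (2 : ℝ) ^ m * G ξ <;> simp [Set.indicator_apply, h]
    · refine (hai m).congr (Filter.Eventually.of_forall fun ξ => ?_)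
      by_cases h : l0 < (2 : ℝ) ^ m * G ξ <;> simp [h]
  have hsb : ∑ m ∈ Finset.Icc (-(M : ℤ)) M, b m ≤ 1 := by
    have : (1 : ℝ) = ∫ x, ‖w x‖ ^ 2 := by rw [← hwn, hw]; norm_num
    rw [this, hb]
    simp only
    rw [← integral_finsetSum _ fun m _ => hbi m]
    refine integral_mono (integrable_finsetSum _ fun m _ => hbi m) hwi fun x => ?_
    simp only
    rw [Finset.sum_ite_eq]
    split_ifs
    · exact le_rfl
    · exact sq_nonneg _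
  have hsa : ∑ m ∈ Finset.Icc (-(M : ℤ)) M, (2 : ℝ) ^ m * a m ≤
      2 * l0 * ∫ ξ, ‖φ ξ‖ ^ 2 / G ξ := by
    rw [ha]
    simp only
    simp_rw [← integral_const_mul]
    rw [← integral_finsetSum _ fun m _ => (hai m).const_mul _]
    refine integral_mono (integrable_finsetSum _ fun m _ => (hai m).const_mul _)
      (hφ.const_mul _) fun ξ => ?_
    simp only
    have hG := hG0 ξ
    have h1 := cw_geom M (l0 / G ξ)
    rw [max_eq_left (by positivity)] at h1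
    have h2 : ∑ m ∈ Finset.Icc (-(M : ℤ)) M, (2 : ℝ) ^ m *
        (if l0 < (2 : ℝ) ^ m * G ξ then 0 else ‖φ ξ‖ ^ 2) =
        (∑ m ∈ Finset.Icc (-(M : ℤ)) M, (if (2 : ℝ) ^ m ≤ l0 / G ξ then (2 : ℝ) ^ m else 0)) *
        ‖φ ξ‖ ^ 2 := by
      rw [Finset.sum_mul]
      refine Finset.sum_congr rfl fun m _ => ?_
      by_cases h : l0 < (2 : ℝ) ^ m * G ξ
      · have h3 : ¬ (2 : ℝ) ^ m ≤ l0 / G ξ := by
          rw [le_div_iff₀ hG]; exact not_le.2 h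
        rw [if_pos h, if_neg h3]; ring
      · have h3 : (2 : ℝ) ^ m ≤ l0 / G ξ := by
          rw [le_div_iff₀ hG]; exact not_lt.1 h
        rw [if_neg h, if_pos h3]
    rw [h2]
    refine (mul_le_mul_of_nonneg_right h1 (sq_nonneg _)).trans (le_of_eq ?_)
    ring
  have hX : 0 ≤ 2 * l0 * ∫ ξ, ‖φ ξ‖ ^ 2 / G ξ := by
    have : 0 ≤ ∫ ξ, ‖φ ξ‖ ^ 2 / G ξ :=
      integral_nonneg fun ξ => div_nonneg (sq_nonneg _) (hG0 ξ).le
    positivity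
  have h1 : ‖∑ m ∈ Finset.Icc (-(M : ℤ)) M, ∫ ξ, (if l0 < (2 : ℝ) ^ m * G ξ then 0 else
      (starRingEnd ℂ) (φ ξ)) * (𝓕 ((cwf_mem Q hQm hQ0 v hv C hC m w).toLp _) : L2d d) ξ‖ ≤
      √(2 * l0 * ∫ ξ, ‖φ ξ‖ ^ 2 / G ξ) := by
    refine (norm_sum_le _ _).trans ((Finset.sum_le_sum fun m _ => hone m).trans ?_)
    refine (Real.sum_sqrt_mul_sqrt_le _ (fun m => mul_nonneg (by positivity) (ha0 m))
      (fun m => hb0 m)).trans ?_
    have h2 : √(∑ m ∈ Finset.Icc (-(M : ℤ)) M, b m) ≤ 1 := by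
      have := Real.sqrt_le_sqrt hsb
      rwa [Real.sqrt_one] at this
    have h3 : √(∑ m ∈ Finset.Icc (-(M : ℤ)) M, (2 : ℝ) ^ m * a m) ≤
        √(2 * l0 * ∫ ξ, ‖φ ξ‖ ^ 2 / G ξ) := Real.sqrt_le_sqrt hsa
    calc _ ≤ √(∑ m ∈ Finset.Icc (-(M : ℤ)) M, (2 : ℝ) ^ m * a m) * 1 :=
          mul_le_mul_of_nonneg_left h2 (Real.sqrt_nonneg _)
      _ ≤ _ := by rw [mul_one]; exact h3
  have h2 := pow_le_pow_left₀ (norm_nonneg _) h1 2
  rwa [Real.sq_sqrt hX] at h2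

theorem cw_dec {d : ℕ} (w : L2d d) (Q G : Ed d → ℝ) (hQm : Measurable Q)
    (hGm : Measurable G) (hQ0 : ∀ x, 0 < Q x)
    (v : Ed d → ℂ) (hv : Measurable v) (M : ℕ)
    (hvs : ∀ x, v x ≠ 0 → (2 : ℝ) ^ (-(M : ℤ)) < Q x ∧ Q x ≤ (2 : ℝ) ^ (M : ℤ))
    (C : ℝ) (hC : ∀ x, ‖v x‖ ≤ C) (l0 : ℝ) (φ : L2d d) :
    ∫ x, v x * w x * (starRingEnd ℂ) (φ x) =
    (∑ m ∈ Finset.Icc (-(M : ℤ)) M, ∫ ξ, (if l0 < (2 : ℝ) ^ m * G ξ then 0 else
      (starRingEnd ℂ) ((𝓕 φ : L2d d) ξ)) *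
        (𝓕 ((cwf_mem Q hQm hQ0 v hv C hC m w).toLp _) : L2d d) ξ) +
    ∫ ξ, (starRingEnd ℂ) ((𝓕 φ : L2d d) ξ) * cwH G M l0
        (fun m => 𝓕 ((cwf_mem Q hQm hQ0 v hv C hC m w).toLp _)) ξ := by
  have hcm : ∀ ψ : L2d d, MemLp (fun ξ => (starRingEnd ℂ) (ψ ξ)) 2 volume := by
    intro ψ
    have h1 : AEStronglyMeasurable (fun ξ => (starRingEnd ℂ) (ψ ξ)) volume :=
      Complex.continuous_conj.comp_aestronglyMeasurable (Lp.aestronglyMeasurable ψ)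
    exact (Lp.memLp ψ).of_le h1 (Filter.Eventually.of_forall fun x => by rw [RCLike.norm_conj])
  have hS : ∀ m : ℤ, MeasurableSet {ξ | l0 < (2 : ℝ) ^ m * G ξ} := fun m =>
    measurableSet_lt measurable_const (measurable_const.mul hGm)
  -- step 1
  have s1 : ∫ x, v x * w x * (starRingEnd ℂ) (φ x) = ∑ m ∈ Finset.Icc (-(M : ℤ)) M,
      ∫ x, cwf Q v m w x * (starRingEnd ℂ) (φ x) := by
    have hfi : ∀ m : ℤ, Integrable (fun x => cwf Q v m w x * (starRingEnd ℂ) (φ x)) volume :=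
      fun m => (cwf_mem Q hQm hQ0 v hv C hC m w).integrable_mul (hcm φ)
    rw [← integral_finsetSum _ fun m _ => hfi m]
    refine integral_congr_ae (Filter.Eventually.of_forall fun x => ?_)
    simp only
    rw [← Finset.sum_mul]
    congr 1
    by_cases hv0 : v x = 0
    · rw [hv0, zero_mul]
      refine (Finset.sum_eq_zero fun m _ => ?_).symm
      simp [cwf, hv0]
    · unfold cwf
      rw [Finset.sum_ite_eq, if_pos (cw_memI Q hQ0 M x (hvs x hv0))]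
  rw [s1]
  -- step 3
  have hFi : ∀ m : ℤ, Integrable (fun ξ => (starRingEnd ℂ) ((𝓕 φ : L2d d) ξ) *
      (𝓕 ((cwf_mem Q hQm hQ0 v hv C hC m w).toLp _) : L2d d) ξ) volume := fun m =>
    (hcm (𝓕 φ)).integrable_mul (Lp.memLp _)
  have hF1 : ∀ m : ℤ, Integrable (fun ξ => (starRingEnd ℂ) ((𝓕 φ : L2d d) ξ) *
      (if l0 < (2 : ℝ) ^ m * G ξ then
      (𝓕 ((cwf_mem Q hQm hQ0 v hv C hC m w).toLp _) : L2d d) ξ else 0)) volume := by
    intro m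
    refine ((hFi m).indicator (hS m)).congr (Filter.Eventually.of_forall fun ξ => ?_)
    by_cases h : l0 < (2 : ℝ) ^ m * G ξ <;> simp [h]
  have hF2 : ∀ m : ℤ, Integrable (fun ξ => (if l0 < (2 : ℝ) ^ m * G ξ then 0 else
      (starRingEnd ℂ) ((𝓕 φ : L2d d) ξ)) *
      (𝓕 ((cwf_mem Q hQm hQ0 v hv C hC m w).toLp _) : L2d d) ξ) volume := by
    intro m
    refine ((hFi m).indicator (hS m).compl).congr (Filter.Eventually.of_forall fun ξ => ?_)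
    by_cases h : l0 < (2 : ℝ) ^ m * G ξ <;> simp [h]
  have s3 : ∫ ξ, (starRingEnd ℂ) ((𝓕 φ : L2d d) ξ) * cwH G M l0
        (fun m => 𝓕 ((cwf_mem Q hQm hQ0 v hv C hC m w).toLp _)) ξ =
      ∑ m ∈ Finset.Icc (-(M : ℤ)) M, ∫ ξ, (starRingEnd ℂ) ((𝓕 φ : L2d d) ξ) *
      (if l0 < (2 : ℝ) ^ m * G ξ then
      (𝓕 ((cwf_mem Q hQm hQ0 v hv C hC m w).toLp _) : L2d d) ξ else 0) := by
    rw [← integral_finsetSum _ fun m _ => hF1 m]
    refine integral_congr_ae (Filter.Eventually.of_forall fun ξ => ?_)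
    simp only
    unfold cwH
    rw [Finset.mul_sum]
  rw [s3, ← Finset.sum_add_distrib]
  refine Finset.sum_congr rfl fun m _ => ?_
  rw [← integral_add (hF2 m) (hF1 m)]
  have s2 : ∫ x, cwf Q v m w x * (starRingEnd ℂ) (φ x) =
      inner ℂ φ ((cwf_mem Q hQm hQ0 v hv C hC m w).toLp _) := by
    rw [L2.inner_def]
    refine integral_congr_ae ?_
    filter_upwards [(cwf_mem Q hQm hQ0 v hv C hC m w).coeFn_toLp] with x hx
    rw [hx, RCLike.inner_apply]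
  rw [s2, ← Lp.inner_fourier_eq, L2.inner_def]
  refine integral_congr_ae (Filter.Eventually.of_forall fun ξ => ?_)
  simp only
  rw [RCLike.inner_apply]
  by_cases h : l0 < (2 : ℝ) ^ m * G ξ
  · rw [if_pos h, if_pos h]; ring
  · rw [if_neg h, if_neg h]; ring

theorem d2_cw
    (four : ∀ (d : ℕ) (f : Ed d → ℂ) (_ : Integrable f volume) (h2 : MemLp f 2 volume),
      ((𝓕 (h2.toLp f) : L2d d) : Ed d → ℂ) =ᵐ[volume]
      fun ξ => ∫ x : Ed d, Complex.exp (-(2 * Real.pi * Complex.I * ((inner ℝ x ξ : ℝ) : ℂ))) * f x)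
    (d N : ℕ) (w : Fin N → L2d d) (hw : Orthonormal ℂ w) (Q G : Ed d → ℝ) (hQm : Measurable Q)
    (hGm : Measurable G) (hQ0 : ∀ x, 0 < Q x) (hG0 : ∀ ξ, 0 < G ξ)
    (v : Ed d → ℂ) (hv : Measurable v) (hvQ : ∀ x, ‖v x‖ ^ 2 ≤ Q x) (M : ℕ)
    (hvs : ∀ x, v x ≠ 0 → (2 : ℝ) ^ (-(M : ℤ)) < Q x ∧ Q x ≤ (2 : ℝ) ^ (M : ℤ))
    (hfin : volume {x | v x ≠ 0} < ⊤) (l0 : ℝ) (hl0 : 0 < l0)
    (hI : ∫⁻ x, ∫⁻ ξ, (if l0 < 2 * (Q x * G ξ) then ENNReal.ofReal (Q x * G ξ) else 0) < ⊤) :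
    ∃ S : Fin N → ℝ, (∀ j, 0 ≤ S j) ∧
      ENNReal.ofReal (∑ j, S j) ≤
        ∫⁻ x, ∫⁻ ξ, (if l0 < 2 * (Q x * G ξ) then ENNReal.ofReal (Q x * G ξ) else 0) ∧
      ∀ (j : Fin N) (φ : L2d d), Integrable (fun ξ => ‖(𝓕 φ : L2d d) ξ‖ ^ 2 / G ξ) volume →
        ‖∫ x, v x * (w j) x * (starRingEnd ℂ) (φ x)‖ ^ 2 ≤
          (4 * l0 + 2 * S j) * ∫ ξ, ‖(𝓕 φ : L2d d) ξ‖ ^ 2 / G ξ := by
  obtain ⟨hC, hv2⟩ := cw_v2 Q v hv hvQ M hvs hfin
  obtain ⟨hint, hsum⟩ := cw_S four d N w hw Q G hQm hGm hQ0 hG0 v hv hvQ M hvs hv2 _ hC l0 hI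
  refine ⟨_, fun j => integral_nonneg fun ξ => mul_nonneg (hG0 ξ).le (sq_nonneg _), hsum, ?_⟩
  intro j φ hφ
  have hlow := cw_low (w j) (hw.1 j) Q G hQm hGm hQ0 hG0 v hv hvQ M _ hC l0 hl0 (𝓕 φ) hφ
  have hφm : AEStronglyMeasurable (fun ξ => (starRingEnd ℂ) ((𝓕 φ : L2d d) ξ)) volume :=
    Complex.continuous_conj.comp_aestronglyMeasurable (Lp.aestronglyMeasurable _)
  have hhigh := (cw_cs (μ := volume) (fun ξ => (starRingEnd ℂ) ((𝓕 φ : L2d d) ξ))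
    (cwH G M l0 (fun m => 𝓕 ((cwf_mem Q hQm hQ0 v hv _ hC m (w j)).toLp _))) G hG0 hGm hφm
    (cwH_asm G hGm M l0 _) (by simpa only [RCLike.norm_conj] using hφ) (hint j)).2
  simp only [RCLike.norm_conj] at hhigh
  rw [cw_dec (w j) Q G hQm hGm hQ0 v hv M hvs _ hC l0 φ]
  refine (pow_le_pow_left₀ (norm_nonneg _) (norm_add_le _ _) 2).trans ?_
  refine le_trans (b := 2 * ‖_‖ ^ 2 + 2 * ‖_‖ ^ 2) (by
    exact (by
      have h : ∀ a b : ℝ, (a + b) ^ 2 ≤ 2 * a ^ 2 + 2 * b ^ 2 := fun a b => by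
        nlinarith [sq_nonneg (a - b)]
      exact h _ _)) ?_
  nlinarith [hlow, hhigh]

end K02
end Pool.Agent.Helper209.CX
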