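import Mathlib
import Pool.Agent.Helper209.CX.DDefs

namespace Pool.Agent.Helper209.CX

namespace K03
open MeasureTheory ENNReal FourierTransform



/-- `t ≤ 2^(p-1) t^p` if `1 < 2 t` -/
theorem d3f_pow (p t : ℝ) (hp : 1 < p) (ht : 1 < 2 * t) : t ≤ 2 ^ (p - 1) * t ^ p := by
  have ht0 : 0 < t := by linarith
  have h1 : (1 : ℝ) ≤ (2 * t) ^ (p - 1) := Real.one_le_rpow ht.le (by linarith)
  have h2 : (2 * t) ^ (p - 1) = 2 ^ (p - 1) * t ^ (p - 1) := Real.mul_rpow (by norm_num) ht0.le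
  have h3 : t ^ p = t ^ (p - 1) * t := by
    rw [← Real.rpow_add_one ht0.ne', sub_add_cancel]
  rw [h3, ← mul_assoc, ← h2]
  nlinarith

theorem d3f_J (d : ℕ) (p : ℝ) (hp : 1 < p) (Q G : Ed d → ℝ) (hQm : Measurable Q)
    (hQ0 : ∀ x, 0 < Q x) (hQ : Integrable (fun x => Q x ^ p) volume) (hGm : Measurable G)
    (hG0 : ∀ x, 0 < G x) (hG : Integrable (fun x => G x ^ p) volume) :
    ∫⁻ x, ∫⁻ ξ, (if (1:ℝ) < 2 * (Q x * G ξ) then ENNReal.ofReal (Q x * G ξ) else 0) < ⊤ := by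
  have h1 : ∀ x ξ, (if (1:ℝ) < 2 * (Q x * G ξ) then ENNReal.ofReal (Q x * G ξ) else 0) ≤
      (ENNReal.ofReal (2 ^ (p - 1)) * ENNReal.ofReal (Q x ^ p)) * ENNReal.ofReal (G ξ ^ p) := by
    intro x ξ
    split_ifs with h
    · rw [← ENNReal.ofReal_mul (by positivity), ← ENNReal.ofReal_mul
        (mul_nonneg (by positivity) (Real.rpow_nonneg (hQ0 x).le _))]
      refine ENNReal.ofReal_le_ofReal ((d3f_pow p _ hp h).trans (le_of_eq ?_))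
      rw [Real.mul_rpow (hQ0 x).le (hG0 ξ).le, mul_assoc]
    · exact bot_le
  calc ∫⁻ x, ∫⁻ ξ, (if (1:ℝ) < 2 * (Q x * G ξ) then ENNReal.ofReal (Q x * G ξ) else 0)
      ≤ ∫⁻ x, ∫⁻ ξ, (ENNReal.ofReal (2 ^ (p - 1)) * ENNReal.ofReal (Q x ^ p)) *
          ENNReal.ofReal (G ξ ^ p) := lintegral_mono fun x => lintegral_mono fun ξ => h1 x ξ
    _ = ∫⁻ x, (ENNReal.ofReal (2 ^ (p - 1)) * ENNReal.ofReal (Q x ^ p)) *
          ∫⁻ ξ, ENNReal.ofReal (G ξ ^ p) := by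
        refine lintegral_congr fun x => ?_
        exact lintegral_const_mul _ (by fun_prop)
    _ = (∫⁻ x, (ENNReal.ofReal (2 ^ (p - 1)) * ENNReal.ofReal (Q x ^ p))) *
          ∫⁻ ξ, ENNReal.ofReal (G ξ ^ p) := lintegral_mul_const _ (by fun_prop)
    _ = (ENNReal.ofReal (2 ^ (p - 1)) * ∫⁻ x, ENNReal.ofReal (Q x ^ p)) *
          ∫⁻ ξ, ENNReal.ofReal (G ξ ^ p) := by
        rw [lintegral_const_mul _ (by fun_prop)]
    _ < ⊤ := ENNReal.mul_lt_top (ENNReal.mul_lt_top ENNReal.ofReal_lt_top hQ.lintegral_lt_top)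
        hG.lintegral_lt_top

theorem d3f_Gint (d : ℕ) (p : ℝ) (hpd : (d : ℝ) / 2 < p) :
    Integrable (fun ξ : Ed d => (1 / (1 + ‖ξ‖ ^ 2)) ^ p) volume := by
  have h1 : Integrable (fun ξ : Ed d => ((1 : ℝ) + ‖ξ‖ ^ 2) ^ (-(2 * p) / 2)) volume := by
    apply integrable_rpow_neg_one_add_norm_sq
    rw [finrank_euclideanSpace_fin]
    linarith
  refine h1.congr (Filter.Eventually.of_forall fun ξ => ?_)
  show ((1 : ℝ) + ‖ξ‖ ^ 2) ^ (-(2 * p) / 2) = (1 / (1 + ‖ξ‖ ^ 2)) ^ p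
  have h2 : (0 : ℝ) < 1 + ‖ξ‖ ^ 2 := by positivity
  rw [one_div, Real.inv_rpow h2.le, ← Real.rpow_neg h2.le]
  congr 1
  ring

/-- form boundedness: `√Q φ ∈ L²` for `φ ∈ H¹`. -/
theorem d3_form
    (cw : ∀ (d N : ℕ) (w : Fin N → L2d d) (_ : Orthonormal ℂ w) (Q G : Ed d → ℝ) (_ : Measurable Q)
      (_ : Measurable G) (_ : ∀ x, 0 < Q x) (_ : ∀ ξ, 0 < G ξ)
      (v : Ed d → ℂ) (_ : Measurable v) (_ : ∀ x, ‖v x‖ ^ 2 ≤ Q x) (M : ℕ)
      (_ : ∀ x, v x ≠ 0 → (2 : ℝ) ^ (-(M : ℤ)) < Q x ∧ Q x ≤ (2 : ℝ) ^ (M : ℤ))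
      (_ : volume {x | v x ≠ 0} < ⊤) (l0 : ℝ) (_ : 0 < l0)
      (_ : ∫⁻ x, ∫⁻ ξ, (if l0 < 2 * (Q x * G ξ) then ENNReal.ofReal (Q x * G ξ) else 0) < ⊤),
      ∃ S : Fin N → ℝ, (∀ j, 0 ≤ S j) ∧
      ENNReal.ofReal (∑ j, S j) ≤
        ∫⁻ x, ∫⁻ ξ, (if l0 < 2 * (Q x * G ξ) then ENNReal.ofReal (Q x * G ξ) else 0) ∧
      ∀ (j : Fin N) (φ : L2d d), Integrable (fun ξ => ‖(𝓕 φ : L2d d) ξ‖ ^ 2 / G ξ) volume →
        ‖∫ x, v x * (w j) x * (starRingEnd ℂ) (φ x)‖ ^ 2 ≤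
          (4 * l0 + 2 * S j) * ∫ ξ, ‖(𝓕 φ : L2d d) ξ‖ ^ 2 / G ξ)
    (d : ℕ) (hd : 1 ≤ d) (p : ℝ) (hp : 1 < p) (hpd : (d : ℝ) / 2 < p)
    (Q : Ed d → ℝ) (hQm : Measurable Q) (hQ0 : ∀ x, 0 < Q x)
    (hQ : Integrable (fun x => Q x ^ p) volume) :
    ∃ C : ℝ, 0 < C ∧ ∀ φ : L2d d, InH1 φ →
      Integrable (fun x => Q x * ‖φ x‖ ^ 2) volume ∧
      ∫ x, Q x * ‖φ x‖ ^ 2 ≤ C * ∫ ξ : Ed d, (1 + ‖ξ‖ ^ 2) * ‖(𝓕 φ : L2d d) ξ‖ ^ 2 := by
  have hGm : Measurable (fun ξ : Ed d => 1 / (1 + ‖ξ‖ ^ 2)) := by fun_prop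
  have hG0 : ∀ ξ : Ed d, 0 < 1 / (1 + ‖ξ‖ ^ 2) := fun ξ => by positivity
  have hJ := d3f_J d p hp Q (fun ξ : Ed d => 1 / (1 + ‖ξ‖ ^ 2)) hQm hQ0 hQ hGm hG0
    (d3f_Gint d p hpd)
  obtain ⟨J, hJdef⟩ : ∃ J, J = ∫⁻ x : Ed d, ∫⁻ ξ : Ed d, (if (1:ℝ) < 2 * (Q x * (1 / (1 + ‖ξ‖ ^ 2)))
    then ENNReal.ofReal (Q x * (1 / (1 + ‖ξ‖ ^ 2))) else 0) := ⟨_, rfl⟩
  have hJ' : J < ⊤ := by rw [hJdef]; exact hJ
  refine ⟨4 + 2 * J.toReal, by positivity, fun φ hφ => ?_⟩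
  -- the energy
  have hX1 : Integrable (fun ξ : Ed d => ‖(𝓕 φ : L2d d) ξ‖ ^ 2) volume :=
    (memLp_two_iff_integrable_sq_norm (Lp.memLp (𝓕 φ : L2d d)).1).1 (Lp.memLp (𝓕 φ : L2d d))
  have hX2 : Integrable (fun ξ : Ed d => ‖ξ‖ ^ 2 * ‖(𝓕 φ : L2d d) ξ‖ ^ 2) volume := by
    have h1 := (memLp_two_iff_integrable_sq_norm hφ.1).1 hφ
    refine h1.congr (Filter.Eventually.of_forall fun ξ => ?_)
    show ‖(‖ξ‖ : ℂ) * (𝓕 φ : L2d d) ξ‖ ^ 2 = ‖ξ‖ ^ 2 * ‖(𝓕 φ : L2d d) ξ‖ ^ 2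
    rw [norm_mul, Complex.norm_real, norm_norm, mul_pow]
  have hX : Integrable (fun ξ : Ed d => (1 + ‖ξ‖ ^ 2) * ‖(𝓕 φ : L2d d) ξ‖ ^ 2) volume := by
    refine (hX1.add hX2).congr (Filter.Eventually.of_forall fun ξ => ?_)
    show ‖(𝓕 φ : L2d d) ξ‖ ^ 2 + ‖ξ‖ ^ 2 * ‖(𝓕 φ : L2d d) ξ‖ ^ 2 =
      (1 + ‖ξ‖ ^ 2) * ‖(𝓕 φ : L2d d) ξ‖ ^ 2
    ring
  have hXeq : (fun ξ : Ed d => ‖(𝓕 φ : L2d d) ξ‖ ^ 2 / (1 / (1 + ‖ξ‖ ^ 2))) =
      fun ξ => (1 + ‖ξ‖ ^ 2) * ‖(𝓕 φ : L2d d) ξ‖ ^ 2 := by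
    funext ξ
    rw [div_div_eq_mul_div, div_one, mul_comm]
  obtain ⟨X, hXdef⟩ : ∃ X : ℝ, X = ∫ ξ : Ed d, (1 + ‖ξ‖ ^ 2) * ‖(𝓕 φ : L2d d) ξ‖ ^ 2 := ⟨_, rfl⟩
  have hX0 : 0 ≤ X := by
    rw [hXdef]
    exact integral_nonneg fun ξ => by positivity
  rw [← hXdef]
  -- the truncated estimate
  let Ω : ℕ → Set (Ed d) := fun M => {x | (2 : ℝ) ^ (-(M : ℤ)) < Q x ∧ Q x ≤ (2 : ℝ) ^ (M : ℤ)}
  have hΩm : ∀ M, MeasurableSet (Ω M) := fun M =>
    (measurableSet_lt measurable_const hQm).inter (measurableSet_le hQm measurable_const)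
  have hmain : ∀ M, ∫⁻ x in Ω M, ENNReal.ofReal (Q x * ‖φ x‖ ^ 2) ≤
      ENNReal.ofReal ((4 + 2 * J.toReal) * X) := by
    intro M
    classical
    let v : Ed d → ℂ := (Ω M).indicator fun x => ((√(Q x) : ℝ) : ℂ)
    have hvm : Measurable v := Measurable.indicator (by fun_prop) (hΩm M)
    have hvn : ∀ x, ‖v x‖ ^ 2 = (Ω M).indicator Q x := by
      intro x
      by_cases hx : x ∈ Ω M
      · rw [show v x = ((√(Q x) : ℝ) : ℂ) from Set.indicator_of_mem hx _,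
          Set.indicator_of_mem hx, Complex.norm_real, Real.norm_of_nonneg (Real.sqrt_nonneg _),
          Real.sq_sqrt (hQ0 x).le]
      · rw [show v x = 0 from Set.indicator_of_notMem hx _, Set.indicator_of_notMem hx, norm_zero]
        norm_num
    have hvr : ∀ x, (starRingEnd ℂ) (v x) = v x := by
      intro x
      by_cases hx : x ∈ Ω M
      · rw [show v x = ((√(Q x) : ℝ) : ℂ) from Set.indicator_of_mem hx _, Complex.conj_ofReal]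
      · rw [show v x = 0 from Set.indicator_of_notMem hx _, map_zero]
    have hvsupp : ∀ x, v x ≠ 0 → x ∈ Ω M := fun x hx => by
      by_contra hcon
      exact hx (Set.indicator_of_notMem hcon _)
    have hvfin : volume {x | v x ≠ 0} < ⊤ := by
      have hc : (0 : ℝ) < ((2 : ℝ) ^ (-(M : ℤ))) ^ p := by positivity
      refine lt_of_le_of_lt (measure_mono ?_) (hQ.measure_norm_ge_lt_top hc)
      intro x hx
      show ((2 : ℝ) ^ (-(M : ℤ))) ^ p ≤ ‖Q x ^ p‖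
      rw [Real.norm_of_nonneg (Real.rpow_nonneg (hQ0 x).le _)]
      exact Real.rpow_le_rpow (by positivity) (hvsupp x hx).1.le (by linarith)
    have hgm : MemLp (fun x => v x * φ x) 2 volume := by
      refine MemLp.of_le_mul (c := √((2 : ℝ) ^ (M : ℤ))) (Lp.memLp φ)
        (hvm.aestronglyMeasurable.mul (Lp.memLp φ).1) (Filter.Eventually.of_forall fun x => ?_)
      rw [norm_mul]
      refine mul_le_mul_of_nonneg_right ?_ (norm_nonneg _)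
      apply Real.le_sqrt_of_sq_le
      rw [hvn]
      by_cases hx : x ∈ Ω M
      · rw [Set.indicator_of_mem hx]
        exact hx.2
      · rw [Set.indicator_of_notMem hx]
        positivity
    let g0 : L2d d := hgm.toLp
    have hg0 : g0 =ᵐ[volume] fun x => v x * φ x := hgm.coeFn_toLp
    -- its norm
    have hnorm : ∫⁻ x in Ω M, ENNReal.ofReal (Q x * ‖φ x‖ ^ 2) = ENNReal.ofReal (‖g0‖ ^ 2) := by
      have e1 : ∫⁻ x in Ω M, ENNReal.ofReal (Q x * ‖φ x‖ ^ 2) =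
          ∫⁻ x, ENNReal.ofReal (‖v x * φ x‖ ^ 2) := by
        rw [← lintegral_indicator (hΩm M)]
        refine lintegral_congr fun x => ?_
        rw [norm_mul, mul_pow, hvn]
        by_cases hx : x ∈ Ω M
        · rw [Set.indicator_of_mem hx, Set.indicator_of_mem hx]
        · rw [Set.indicator_of_notMem hx, Set.indicator_of_notMem hx, zero_mul, ENNReal.ofReal_zero]
      have hgi : Integrable (fun x => ‖v x * φ x‖ ^ 2) volume :=
        (memLp_two_iff_integrable_sq_norm hgm.1).1 hgm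
      rw [e1, ← ofReal_integral_eq_lintegral_ofReal hgi
        (Filter.Eventually.of_forall fun x => by positivity)]
      congr 1
      have e2 : inner ℂ g0 g0 = ∫ x, inner ℂ (g0 x) (g0 x) := L2.inner_def g0 g0
      have e3 : ∫ x, inner ℂ (g0 x) (g0 x) = ∫ x, ((‖v x * φ x‖ ^ 2 : ℝ) : ℂ) := by
        refine integral_congr_ae ?_
        filter_upwards [hg0] with x hx
        rw [hx, inner_self_eq_norm_sq_to_K]
        push_cast
        rfl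
      rw [e3, integral_complex_ofReal, inner_self_eq_norm_sq_to_K] at e2
      have e4 : ((‖g0‖ ^ 2 : ℝ) : ℂ) = ((∫ x, ‖v x * φ x‖ ^ 2 : ℝ) : ℂ) := by
        rw [← e2]
        push_cast
        rfl
      exact (Complex.ofReal_injective e4).symm
    rw [hnorm]
    refine ENNReal.ofReal_le_ofReal ?_
    by_cases ha : ‖g0‖ = 0
    · rw [ha]
      have : 0 ≤ (4 + 2 * J.toReal) * X := by positivity
      linarith
    have ha0 : 0 < ‖g0‖ := lt_of_le_of_ne (norm_nonneg _) (Ne.symm ha)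
    let w : L2d d := ((‖g0‖⁻¹ : ℝ) : ℂ) • g0
    have hw1 : ‖w‖ = 1 := by
      show ‖((‖g0‖⁻¹ : ℝ) : ℂ) • g0‖ = 1
      rw [norm_smul, Complex.norm_real, Real.norm_of_nonneg (inv_nonneg.2 ha0.le),
        inv_mul_cancel₀ ha]
    have horth : Orthonormal ℂ (fun _ : Fin 1 => w) := by
      refine ⟨fun _ => hw1, fun i j hij => absurd (Subsingleton.elim i j) hij⟩
    obtain ⟨S, hS0, hS1, hS2⟩ := cw d 1 (fun _ => w) horth Q (fun ξ : Ed d => 1 / (1 + ‖ξ‖ ^ 2))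
      hQm hGm hQ0 hG0 v hvm (fun x => by
        rw [hvn]
        exact Set.indicator_le_self' (fun x _ => (hQ0 x).le) x) M (fun x hx => hvsupp x hx) hvfin
      1 one_pos hJ
    have h1 := hS2 0 φ (by rw [hXeq]; exact hX)
    rw [hXeq, ← hXdef] at h1
    have h2 : ∫ x, v x * w x * (starRingEnd ℂ) (φ x) = inner ℂ g0 w := by
      rw [L2.inner_def]
      refine integral_congr_ae ?_
      filter_upwards [hg0] with x hx
      rw [hx, RCLike.inner_apply, map_mul, hvr]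
      ring
    have h3 : inner ℂ g0 w = (‖g0‖ : ℂ) := by
      show inner ℂ g0 (((‖g0‖⁻¹ : ℝ) : ℂ) • g0) = _
      rw [inner_smul_right, inner_self_eq_norm_sq_to_K]
      push_cast
      have : (‖g0‖ : ℂ) ≠ 0 := Complex.ofReal_ne_zero.2 ha
      show (‖g0‖ : ℂ)⁻¹ * (‖g0‖ : ℂ) ^ 2 = _
      field_simp
    have h2' : ∫ x, v x * (fun _ : Fin 1 => w) 0 x * (starRingEnd ℂ) (φ x) = inner ℂ g0 w := h2
    rw [h2', h3, Complex.norm_real, norm_norm] at h1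
    have h4 : S 0 ≤ J.toReal := by
      rw [Fin.sum_univ_one, ← hJdef] at hS1
      exact (ENNReal.ofReal_le_iff_le_toReal hJ'.ne).1 hS1
    refine h1.trans ?_
    refine mul_le_mul_of_nonneg_right ?_ hX0
    linarith
  -- monotone convergence
  have hdir : Directed (· ⊆ ·) Ω := by
    refine Monotone.directed_le (f := Ω) ?_
    intro M M' hMM x hx
    have hMM' : (M : ℤ) ≤ M' := by exact_mod_cast hMM
    exact ⟨lt_of_le_of_lt (zpow_le_zpow_right₀ (by norm_num) (by linarith)) hx.1,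
      hx.2.trans (zpow_le_zpow_right₀ (by norm_num) hMM')⟩
  have huniv : ⋃ M, Ω M = Set.univ := by
    refine Set.eq_univ_of_forall fun x => ?_
    rw [Set.mem_iUnion]
    obtain ⟨M1, hM1⟩ := pow_unbounded_of_one_lt (Q x) (one_lt_two : (1:ℝ) < 2)
    obtain ⟨M2, hM2⟩ := pow_unbounded_of_one_lt (Q x)⁻¹ (one_lt_two : (1:ℝ) < 2)
    refine ⟨max M1 M2, ?_, ?_⟩
    · rw [zpow_neg, zpow_natCast]
      have h1 : (Q x)⁻¹ < 2 ^ max M1 M2 :=
        hM2.trans_le (pow_le_pow_right₀ (by norm_num) (le_max_right _ _))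
      rw [inv_lt_comm₀ (hQ0 x) (by positivity)] at h1
      exact h1
    · rw [zpow_natCast]
      exact hM1.le.trans (pow_le_pow_right₀ (by norm_num) (le_max_left _ _))
  have htot : ∫⁻ x, ENNReal.ofReal (Q x * ‖φ x‖ ^ 2) ≤ ENNReal.ofReal ((4 + 2 * J.toReal) * X) := by
    rw [← setLIntegral_univ, ← huniv, setLIntegral_iUnion_of_directed _ hdir]
    exact iSup_le hmain
  have hmeas : AEStronglyMeasurable (fun x => Q x * ‖φ x‖ ^ 2) volume :=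
    hQm.aestronglyMeasurable.mul ((Lp.memLp φ).1.norm.pow 2)
  have hnn : ∀ x, 0 ≤ Q x * ‖φ x‖ ^ 2 := fun x => mul_nonneg (hQ0 x).le (sq_nonneg _)
  have hint : Integrable (fun x => Q x * ‖φ x‖ ^ 2) volume := by
    refine ⟨hmeas, ?_⟩
    rw [hasFiniteIntegral_iff_ofReal (Filter.Eventually.of_forall hnn)]
    exact lt_of_le_of_lt htot ENNReal.ofReal_lt_top
  refine ⟨hint, ?_⟩
  rw [← ofReal_integral_eq_lintegral_ofReal hint (Filter.Eventually.of_forall hnn)] at htot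
  exact (ENNReal.ofReal_le_ofReal_iff (by positivity)).1 htot

end K03
end Pool.Agent.Helper209.CX
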