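import Mathlib

namespace Pool.Agent.Helper209.CX

namespace K05
open MeasureTheory ENNReal


lemma d5_small (m : ℕ) (hm : 2 ≤ m) (z : ℂ) (hz : ‖z‖ ≤ 1 / 2) :
    ∃ w : ℂ, (1 + z) * Complex.exp (∑ i ∈ Finset.Ico 1 m, (-1 : ℂ) ^ i / i * z ^ i) =
      Complex.exp w ∧ ‖w‖ ≤ ‖z‖ ^ m := by
  obtain ⟨n, rfl⟩ : ∃ n, m = n + 1 := ⟨m - 1, by omega⟩
  have hS : (∑ i ∈ Finset.Ico 1 (n + 1), (-1 : ℂ) ^ i / i * z ^ i) = - Complex.logTaylor (n + 1) z := by
    unfold Complex.logTaylor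
    rw [Finset.range_eq_Ico, Finset.sum_eq_sum_Ico_succ_bot (by omega : 0 < n + 1)]
    have h0 : (-1 : ℂ) ^ (0 + 1) * z ^ 0 / ((0 : ℕ) : ℂ) = 0 := by simp
    rw [h0, zero_add, zero_add]
    rw [← Finset.sum_neg_distrib]
    apply Finset.sum_congr rfl
    intro i _
    rw [pow_succ]
    ring
  have h1 := Complex.norm_log_sub_logTaylor_le n (z := z) (by linarith)
  refine ⟨Complex.log (1 + z) - Complex.logTaylor (n + 1) z, ?_, ?_⟩
  · rw [hS, sub_eq_add_neg, Complex.exp_add, Complex.exp_log]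
    intro h
    have : z = -1 := by linear_combination h
    rw [this] at hz
    norm_num at hz
  · refine h1.trans ?_
    rw [div_le_iff₀ (by positivity)]
    have h2 : (1 - ‖z‖)⁻¹ ≤ 2 := by
      rw [inv_le_comm₀ (by linarith) (by norm_num)]
      linarith
    have h3 : (2 : ℝ) ≤ (n : ℝ) + 1 := by exact_mod_cast hm
    exact mul_le_mul_of_nonneg_left (h2.trans h3) (by positivity)

lemma d5_big (m : ℕ) (p : ℝ) (h2 : p ≤ m) (i : ℕ) (hi : (i : ℝ) ≤ p) (r : ℝ)
    (hr : 1 / 2 ≤ r) : r ^ i ≤ 2 ^ m * r ^ p := by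
  have hr0 : 0 < r := by linarith
  have e : r ^ i = r ^ ((i : ℝ) - p) * r ^ p := by
    rw [← Real.rpow_add hr0]
    simp
  rw [e]
  apply mul_le_mul_of_nonneg_right _ (by positivity)
  have a1 : r ^ ((i : ℝ) - p) ≤ (1/2 : ℝ) ^ ((i : ℝ) - p) :=
    Real.rpow_le_rpow_of_nonpos (by norm_num) hr (by linarith)
  refine a1.trans ?_
  have a2 : (1/2 : ℝ) ^ ((i : ℝ) - p) = 2 ^ (p - i) := by
    rw [one_div, Real.inv_rpow (by norm_num), ← Real.rpow_neg (by norm_num)]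
    congr 1
    ring
  rw [a2, ← Real.rpow_natCast]
  apply Real.rpow_le_rpow_of_exponent_le (by norm_num)
  have : (0 : ℝ) ≤ i := by positivity
  linarith

theorem d5_factor (m : ℕ) (hm : 2 ≤ m) (p1 p2 : ℝ) (h1 : (m : ℝ) - 1 ≤ p1) (h12 : p1 ≤ p2)
    (h2 : p2 ≤ m) : ∃ C : ℝ, 0 < C ∧ ∀ z : ℂ,
      ‖(1 + z) * Complex.exp (∑ i ∈ Finset.Ico 1 m, (-1 : ℂ) ^ i / i * z ^ i)‖ ≤
        Real.exp (C * min (‖z‖ ^ p1) (‖z‖ ^ p2)) ∧
      (‖z‖ ≤ 1 / 2 → Real.exp (-(C * min (‖z‖ ^ p1) (‖z‖ ^ p2))) ≤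
        ‖(1 + z) * Complex.exp (∑ i ∈ Finset.Ico 1 m, (-1 : ℂ) ^ i / i * z ^ i)‖) := by
  have hm' : (2 : ℝ) ≤ m := by exact_mod_cast hm
  have hC1 : (1 : ℝ) ≤ m * 2 ^ m := by
    have : (1 : ℝ) ≤ 2 ^ m := one_le_pow₀ (by norm_num)
    nlinarith
  refine ⟨m * 2 ^ m, by linarith, fun z => ?_⟩
  have hmin0 : 0 ≤ min (‖z‖ ^ p1) (‖z‖ ^ p2) := le_min (by positivity) (by positivity)
  have hcase : ‖z‖ ≤ 1 / 2 → ‖z‖ ^ m ≤ min (‖z‖ ^ p1) (‖z‖ ^ p2) := by
    intro hz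
    rw [← Real.rpow_natCast]
    apply le_min
    · exact Real.rpow_le_rpow_of_exponent_ge' (norm_nonneg _) (by linarith) (by linarith)
        (by linarith)
    · exact Real.rpow_le_rpow_of_exponent_ge' (norm_nonneg _) (by linarith) (by linarith)
        (by linarith)
  refine ⟨?_, ?_⟩
  · rcases le_total ‖z‖ (1/2) with hz | hz
    · obtain ⟨w, hw, hwn⟩ := d5_small m hm z hz
      rw [hw, Complex.norm_exp]
      apply Real.exp_le_exp.2
      have := (Complex.re_le_norm w).trans hwn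
      have := hcase hz
      nlinarith
    · have hbound : ∀ i ∈ Finset.Ico 1 m, ‖z‖ ^ i ≤ 2 ^ m * min (‖z‖ ^ p1) (‖z‖ ^ p2) := by
        intro i hi
        rw [Finset.mem_Ico] at hi
        have hi' : (i : ℝ) ≤ (m : ℝ) - 1 := by
          have : ((i + 1 : ℕ) : ℝ) ≤ m := by exact_mod_cast hi.2
          push_cast at this
          linarith
        rcases min_choice (‖z‖ ^ p1) (‖z‖ ^ p2) with h | h <;> rw [h]
        · exact d5_big m p1 (by linarith) i (by linarith) _ hz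
        · exact d5_big m p2 (by linarith) i (by linarith) _ hz
      rw [norm_mul, Complex.norm_exp]
      have b1 : ‖1 + z‖ ≤ Real.exp ‖z‖ := by
        refine (norm_add_le _ _).trans ?_
        rw [norm_one, add_comm]
        exact Real.add_one_le_exp _
      have b2 : (∑ i ∈ Finset.Ico 1 m, (-1 : ℂ) ^ i / i * z ^ i).re ≤
          ∑ i ∈ Finset.Ico 1 m, 2 ^ m * min (‖z‖ ^ p1) (‖z‖ ^ p2) := by
        refine (Complex.re_le_norm _).trans ((norm_sum_le _ _).trans ?_)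
        apply Finset.sum_le_sum
        intro i hi
        refine le_trans ?_ (hbound i hi)
        rw [Finset.mem_Ico] at hi
        rw [norm_mul, norm_div, norm_pow, norm_neg, norm_one, one_pow, norm_pow,
          Complex.norm_natCast]
        have : (1 : ℝ) / i ≤ 1 := by
          have hi0 : (0 : ℝ) < i := by exact_mod_cast hi.1
          rw [div_le_one hi0]
          exact_mod_cast hi.1
        exact mul_le_of_le_one_left (by positivity) this
      have b3 : ‖z‖ ≤ 2 ^ m * min (‖z‖ ^ p1) (‖z‖ ^ p2) := by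
        have := hbound 1 (by rw [Finset.mem_Ico]; omega)
        simpa using this
      calc ‖1 + z‖ * Real.exp (∑ i ∈ Finset.Ico 1 m, (-1 : ℂ) ^ i / i * z ^ i).re
          ≤ Real.exp ‖z‖ * Real.exp (∑ i ∈ Finset.Ico 1 m, 2 ^ m * min (‖z‖ ^ p1) (‖z‖ ^ p2)) :=
            mul_le_mul b1 (Real.exp_le_exp.2 b2) (Real.exp_pos _).le (Real.exp_pos _).le
        _ = Real.exp (‖z‖ + ∑ i ∈ Finset.Ico 1 m, 2 ^ m * min (‖z‖ ^ p1) (‖z‖ ^ p2)) :=
            (Real.exp_add _ _).symm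
        _ ≤ _ := by
            apply Real.exp_le_exp.2
            rw [Finset.sum_const, Nat.card_Ico, nsmul_eq_mul]
            have : ((m - 1 : ℕ) : ℝ) = m - 1 := by
              rw [Nat.cast_sub (by omega)]; simp
            rw [this]
            nlinarith
  · intro hz
    obtain ⟨w, hw, hwn⟩ := d5_small m hm z hz
    rw [hw, Complex.norm_exp]
    apply Real.exp_le_exp.2
    have h3 : -‖w‖ ≤ w.re := (abs_le.1 (Complex.abs_re_le_norm w)).1
    have := hcase hz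
    nlinarith

end K05
end Pool.Agent.Helper209.CX
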