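import Mathlib

namespace Pool.Agent.Helper209.CX

namespace K06
open MeasureTheory ENNReal


theorem j17402_I (s x : ℝ) (hs : -1 < s) (hx : 0 ≤ x) :
    ∫⁻ r in Set.Ioc 0 x, ENNReal.ofReal (r ^ s) = ENNReal.ofReal (x ^ (s + 1) / (s + 1)) := by
  have h1 : IntervalIntegrable (fun r : ℝ => r ^ s) volume 0 x :=
    intervalIntegral.intervalIntegrable_rpow' hs
  have h2 : IntegrableOn (fun r : ℝ => r ^ s) (Set.Ioc 0 x) volume :=
    (intervalIntegrable_iff_integrableOn_Ioc_of_le hx).1 h1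
  rw [← ofReal_integral_eq_lintegral_ofReal h2]
  · congr 1
    rw [← intervalIntegral.integral_of_le hx, integral_rpow (Or.inl hs)]
    rw [Real.zero_rpow (by linarith), sub_zero]
  · refine (ae_restrict_iff' measurableSet_Ioc).2 (Filter.Eventually.of_forall fun r hr => ?_)
    exact Real.rpow_nonneg hr.1.le _

/-- the density -/
noncomputable def j17402_rho (p1 p2 : ℝ) (r : ℝ) : ℝ := min (r ^ (p1 - 2)) (r ^ (p2 - 2))

theorem j17402_meas (p1 p2 : ℝ) : Measurable (j17402_rho p1 p2) := by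
  unfold j17402_rho
  exact (measurable_id.pow_const _).min (measurable_id.pow_const _)

theorem j17402_A (p1 p2 l : ℝ) (hp1 : 1 < p1) (hp12 : p1 < p2) (hl : 0 ≤ l) :
    ENNReal.ofReal (min (l ^ p1) (l ^ p2)) ≤ ENNReal.ofReal (p2 - 1) * (ENNReal.ofReal l *
      ∫⁻ r in Set.Ioi 0, (if r ≤ l then ENNReal.ofReal (j17402_rho p1 p2 r) else 0)) := by
  rcases hl.eq_or_lt with h0 | h0
  · rw [← h0, Real.zero_rpow (by linarith), Real.zero_rpow (by linarith)]
    simp
  have e1 : (fun r : ℝ => (if r ≤ l then ENNReal.ofReal (j17402_rho p1 p2 r) else 0)) =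
      (Set.Iic l).indicator (fun r => ENNReal.ofReal (j17402_rho p1 p2 r)) := by
    funext r
    simp [Set.indicator]
  have e2 : Set.Iic l ∩ Set.Ioi 0 = Set.Ioc 0 l := by
    ext r; simp [and_comm]
  rw [e1, setLIntegral_indicator measurableSet_Iic, e2]
  set m : ℝ := min (l ^ (p1 - 2)) (l ^ (p2 - 2)) * l ^ (-(p2 - 2)) with hm
  have hm0 : 0 ≤ m := by positivity
  have h1 : ∫⁻ r in Set.Ioc 0 l, ENNReal.ofReal (m * r ^ (p2 - 2)) ≤
      ∫⁻ r in Set.Ioc 0 l, ENNReal.ofReal (j17402_rho p1 p2 r) := by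
    refine setLIntegral_mono' measurableSet_Ioc fun r hr => ENNReal.ofReal_le_ofReal ?_
    have hr0 : 0 < r := hr.1
    have ht : m * r ^ (p2 - 2) = min (l ^ (p1 - 2)) (l ^ (p2 - 2)) * (r / l) ^ (p2 - 2) := by
      rw [hm, Real.div_rpow hr0.le hl, Real.rpow_neg hl]
      ring
    rw [ht]
    have ht0 : 0 < r / l := div_pos hr0 h0
    have ht1 : r / l ≤ 1 := (div_le_one h0).2 hr.2
    have hrl : r = l * (r / l) := by field_simp
    unfold j17402_rho
    refine le_min ?_ ?_
    · calc min (l ^ (p1 - 2)) (l ^ (p2 - 2)) * (r / l) ^ (p2 - 2) ≤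
          l ^ (p1 - 2) * (r / l) ^ (p1 - 2) := by
            refine mul_le_mul (min_le_left _ _) ?_ (by positivity) (by positivity)
            exact Real.rpow_le_rpow_of_exponent_ge ht0 ht1 (by linarith)
        _ = r ^ (p1 - 2) := by
            rw [← Real.mul_rpow hl ht0.le, ← hrl]
    · calc min (l ^ (p1 - 2)) (l ^ (p2 - 2)) * (r / l) ^ (p2 - 2) ≤
          l ^ (p2 - 2) * (r / l) ^ (p2 - 2) := by
            refine mul_le_mul (min_le_right _ _) le_rfl (by positivity) (by positivity)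
        _ = r ^ (p2 - 2) := by
            rw [← Real.mul_rpow hl ht0.le, ← hrl]
  have h2 : ∫⁻ r in Set.Ioc 0 l, ENNReal.ofReal (m * r ^ (p2 - 2)) =
      ENNReal.ofReal (m * (l ^ (p2 - 1) / (p2 - 1))) := by
    have e3 : (fun r : ℝ => ENNReal.ofReal (m * r ^ (p2 - 2))) =
        fun r => ENNReal.ofReal m * ENNReal.ofReal (r ^ (p2 - 2)) := by
      funext r
      rw [ENNReal.ofReal_mul hm0]
    rw [e3, lintegral_const_mul' _ _ ENNReal.ofReal_ne_top, j17402_I _ _ (by linarith) hl,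
      ← ENNReal.ofReal_mul hm0]
    have e4 : p2 - 2 + 1 = p2 - 1 := by ring
    rw [e4]
  rw [h2] at h1
  calc ENNReal.ofReal (min (l ^ p1) (l ^ p2)) =
      ENNReal.ofReal ((p2 - 1) * (l * (m * (l ^ (p2 - 1) / (p2 - 1))))) := by
        congr 1
        have hp : p2 - 1 ≠ 0 := by linarith
        have e5 : (p2 - 1) * (l * (m * (l ^ (p2 - 1) / (p2 - 1)))) =
            m * (l * l ^ (p2 - 1)) := by field_simp
        have e6 : l * l ^ (p2 - 1) = l ^ (p2 - 2) * l ^ (2 : ℝ) := by
          rw [← Real.rpow_add h0]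
          nth_rewrite 1 [← Real.rpow_one l]
          rw [← Real.rpow_add h0]
          congr 1
          ring
        rw [e5, e6, hm]
        have e7 : min (l ^ (p1 - 2)) (l ^ (p2 - 2)) * l ^ (-(p2 - 2)) *
            (l ^ (p2 - 2) * l ^ (2 : ℝ)) =
            min (l ^ (p1 - 2)) (l ^ (p2 - 2)) * l ^ (2 : ℝ) * (l ^ (-(p2 - 2)) * l ^ (p2 - 2)) := by
          ring
        rw [e7, ← Real.rpow_add h0 (-(p2 - 2)), neg_add_cancel, Real.rpow_zero, mul_one,
          min_mul_of_nonneg _ _ (by positivity), ← Real.rpow_add h0, ← Real.rpow_add h0]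
        congr 2 <;> ring
    _ = ENNReal.ofReal (p2 - 1) * (ENNReal.ofReal l *
        ENNReal.ofReal (m * (l ^ (p2 - 1) / (p2 - 1)))) := by
        rw [ENNReal.ofReal_mul (by linarith), ENNReal.ofReal_mul hl]
    _ ≤ _ := by gcongr

theorem j17402_B (p1 p2 x : ℝ) (hp1 : 1 < p1) (hp12 : p1 < p2) (hx : 0 ≤ x) :
    ENNReal.ofReal x * ∫⁻ r in Set.Ioi 0, (if r < x then ENNReal.ofReal (j17402_rho p1 p2 r) else 0)
      ≤ ENNReal.ofReal (min (x ^ p1) (x ^ p2) / (p1 - 1)) := by
  have e1 : (fun r : ℝ => (if r < x then ENNReal.ofReal (j17402_rho p1 p2 r) else 0)) =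
      (Set.Iio x).indicator (fun r => ENNReal.ofReal (j17402_rho p1 p2 r)) := by
    funext r
    simp [Set.indicator]
  have e2 : Set.Iio x ∩ Set.Ioi 0 ⊆ Set.Ioc 0 x := by
    intro r hr
    exact ⟨hr.2, le_of_lt hr.1⟩
  rw [e1, setLIntegral_indicator measurableSet_Iio]
  have key : ∀ p : ℝ, p1 ≤ p → (∀ r : ℝ, j17402_rho p1 p2 r ≤ r ^ (p - 2)) →
      ENNReal.ofReal x * ∫⁻ r in Set.Iio x ∩ Set.Ioi 0, ENNReal.ofReal (j17402_rho p1 p2 r) ≤
        ENNReal.ofReal (x ^ p / (p1 - 1)) := by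
    intro p hp hr
    have h1 : ∫⁻ r in Set.Iio x ∩ Set.Ioi 0, ENNReal.ofReal (j17402_rho p1 p2 r) ≤
        ∫⁻ r in Set.Ioc 0 x, ENNReal.ofReal (r ^ (p - 2)) :=
      lintegral_mono' (Measure.restrict_mono e2 le_rfl)
        (fun r => ENNReal.ofReal_le_ofReal (hr r))
    rw [j17402_I _ _ (by linarith) hx] at h1
    have e4 : p - 2 + 1 = p - 1 := by ring
    rw [e4] at h1
    calc ENNReal.ofReal x * ∫⁻ r in Set.Iio x ∩ Set.Ioi 0, ENNReal.ofReal (j17402_rho p1 p2 r) ≤
        ENNReal.ofReal x * ENNReal.ofReal (x ^ (p - 1) / (p - 1)) := by gcongr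
      _ = ENNReal.ofReal (x * (x ^ (p - 1) / (p - 1))) := by rw [ENNReal.ofReal_mul hx]
      _ ≤ ENNReal.ofReal (x ^ p / (p1 - 1)) := by
        apply ENNReal.ofReal_le_ofReal
        have e5 : x * (x ^ (p - 1) / (p - 1)) = x ^ p / (p - 1) := by
          rcases hx.eq_or_lt with h0 | h0
          · rw [← h0, Real.zero_rpow (by linarith : p ≠ 0)]; simp
          · rw [mul_div_assoc']
            congr 1
            nth_rewrite 1 [← Real.rpow_one x]
            rw [← Real.rpow_add h0]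
            congr 1
            ring
        rw [e5]
        have : 0 ≤ x ^ p := Real.rpow_nonneg hx _
        exact div_le_div_of_nonneg_left this (by linarith) (by linarith)
  have k1 := key p1 le_rfl (fun r => min_le_left _ _)
  have k2 := key p2 hp12.le (fun r => min_le_right _ _)
  rcases min_choice (x ^ p1) (x ^ p2) with h | h <;> rw [h] <;> assumption

theorem d6_sum (p1 p2 C1 c1 : ℝ) (hp1 : 1 < p1) (hp12 : p1 < p2) (hC1 : 0 < C1) (hc1 : 0 < c1) :
    ∃ C : ℝ, 0 < C ∧ ∀ (α : Type) [MeasurableSpace α] (μ : Measure α) [SFinite μ]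
      (F : α → ℝ) (_ : Measurable F) (_ : ∀ a, 0 ≤ F a) (N : ℕ) (l : Fin N → ℝ) (_ : ∀ j, 0 ≤ l j)
      (_ : ∀ r : ℝ, 0 < r →
        ENNReal.ofReal (∑ j ∈ Finset.univ.filter (fun j => r ≤ l j), l j) ≤
          ENNReal.ofReal C1 * ∫⁻ a, (if c1 * r < F a then ENNReal.ofReal (F a) else 0) ∂μ),
      ENNReal.ofReal (∑ j, min (l j ^ p1) (l j ^ p2)) ≤
        ENNReal.ofReal C * ∫⁻ a, ENNReal.ofReal (min (F a ^ p1) (F a ^ p2)) ∂μ := by
  set D : ℝ := c1 * (max (c1 ^ (-p1)) (c1 ^ (-p2)) / (p1 - 1)) with hD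
  have hp11 : 0 < p1 - 1 := by linarith
  have hp21 : 0 < p2 - 1 := by linarith
  have hD0 : 0 < D := by positivity
  refine ⟨(p2 - 1) * (C1 * D), by positivity, ?_⟩
  intro α _ μ _ F hF hF0 N l hl hr
  have hρ := j17402_meas p1 p2
  -- pointwise bound
  have hpt : ∀ a, ENNReal.ofReal (F a) * ∫⁻ r in Set.Ioi 0,
      (if c1 * r < F a then ENNReal.ofReal (j17402_rho p1 p2 r) else 0) ≤
        ENNReal.ofReal D * ENNReal.ofReal (min (F a ^ p1) (F a ^ p2)) := by
    intro a
    have e1 : ∀ r : ℝ, (c1 * r < F a) = (r < F a / c1) := by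
      intro r
      rw [lt_div_iff₀ hc1, mul_comm]
    simp_rw [e1]
    have hx : 0 ≤ F a / c1 := div_nonneg (hF0 a) hc1.le
    have h1 := j17402_B p1 p2 (F a / c1) hp1 hp12 hx
    have e2 : ENNReal.ofReal (F a) = ENNReal.ofReal c1 * ENNReal.ofReal (F a / c1) := by
      rw [← ENNReal.ofReal_mul hc1.le, mul_div_cancel₀ _ hc1.ne']
    rw [e2, mul_assoc]
    calc ENNReal.ofReal c1 * (ENNReal.ofReal (F a / c1) * ∫⁻ r in Set.Ioi 0,
          (if r < F a / c1 then ENNReal.ofReal (j17402_rho p1 p2 r) else 0)) ≤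
        ENNReal.ofReal c1 * ENNReal.ofReal (min ((F a / c1) ^ p1) ((F a / c1) ^ p2) / (p1 - 1)) := by
          gcongr
      _ = ENNReal.ofReal (c1 * (min ((F a / c1) ^ p1) ((F a / c1) ^ p2) / (p1 - 1))) := by
          rw [ENNReal.ofReal_mul hc1.le]
      _ ≤ ENNReal.ofReal (D * min (F a ^ p1) (F a ^ p2)) := by
          apply ENNReal.ofReal_le_ofReal
          have e3 : ∀ p : ℝ, (F a / c1) ^ p = c1 ^ (-p) * F a ^ p := by
            intro p
            rw [Real.div_rpow (hF0 a) hc1.le, Real.rpow_neg hc1.le]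
            ring
          have e4 : min ((F a / c1) ^ p1) ((F a / c1) ^ p2) ≤
              max (c1 ^ (-p1)) (c1 ^ (-p2)) * min (F a ^ p1) (F a ^ p2) := by
            rw [e3, e3]
            have n1 : 0 ≤ F a ^ p1 := Real.rpow_nonneg (hF0 a) _
            have n2 : 0 ≤ F a ^ p2 := Real.rpow_nonneg (hF0 a) _
            rcases min_choice (F a ^ p1) (F a ^ p2) with h | h <;> rw [h]
            · exact (min_le_left _ _).trans (mul_le_mul_of_nonneg_right (le_max_left _ _) n1)
            · exact (min_le_right _ _).trans (mul_le_mul_of_nonneg_right (le_max_right _ _) n2)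
          calc c1 * (min ((F a / c1) ^ p1) ((F a / c1) ^ p2) / (p1 - 1)) ≤
              c1 * ((max (c1 ^ (-p1)) (c1 ^ (-p2)) * min (F a ^ p1) (F a ^ p2)) / (p1 - 1)) := by
                gcongr
            _ = D * min (F a ^ p1) (F a ^ p2) := by
                rw [hD]; ring
      _ = _ := by rw [ENNReal.ofReal_mul hD0.le]
  -- the sum
  have hmr : Measurable fun r : ℝ => ENNReal.ofReal (j17402_rho p1 p2 r) :=
    ENNReal.measurable_ofReal.comp hρ
  have hsum : ENNReal.ofReal (∑ j, min (l j ^ p1) (l j ^ p2)) ≤ ENNReal.ofReal (p2 - 1) *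
      ∫⁻ r in Set.Ioi 0, ENNReal.ofReal (j17402_rho p1 p2 r) *
        ENNReal.ofReal (∑ j ∈ Finset.univ.filter (fun j => r ≤ l j), l j) := by
    have h1 : ENNReal.ofReal (∑ j, min (l j ^ p1) (l j ^ p2)) =
        ∑ j, ENNReal.ofReal (min (l j ^ p1) (l j ^ p2)) := by
      rw [ENNReal.ofReal_sum_of_nonneg]
      intro j _
      exact le_min (Real.rpow_nonneg (hl j) _) (Real.rpow_nonneg (hl j) _)
    rw [h1]
    calc ∑ j, ENNReal.ofReal (min (l j ^ p1) (l j ^ p2)) ≤
        ∑ j, ENNReal.ofReal (p2 - 1) * (ENNReal.ofReal (l j) *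
          ∫⁻ r in Set.Ioi 0, (if r ≤ l j then ENNReal.ofReal (j17402_rho p1 p2 r) else 0)) :=
          Finset.sum_le_sum fun j _ => j17402_A p1 p2 (l j) hp1 hp12 (hl j)
      _ = ENNReal.ofReal (p2 - 1) * ∑ j, ∫⁻ r in Set.Ioi 0, ENNReal.ofReal (l j) *
            (if r ≤ l j then ENNReal.ofReal (j17402_rho p1 p2 r) else 0) := by
          rw [Finset.mul_sum]
          refine Finset.sum_congr rfl fun j _ => ?_
          rw [lintegral_const_mul' _ _ ENNReal.ofReal_ne_top]
      _ = ENNReal.ofReal (p2 - 1) * ∫⁻ r in Set.Ioi 0, ∑ j, ENNReal.ofReal (l j) *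
            (if r ≤ l j then ENNReal.ofReal (j17402_rho p1 p2 r) else 0) := by
          rw [lintegral_finsetSum]
          intro j _
          exact (Measurable.ite measurableSet_Iic hmr measurable_const).const_mul _
      _ = _ := by
          congr 1
          refine lintegral_congr fun r => ?_
          rw [ENNReal.ofReal_sum_of_nonneg (fun j _ => hl j), Finset.mul_sum, Finset.sum_filter]
          refine Finset.sum_congr rfl fun j _ => ?_
          split_ifs
          · rw [mul_comm]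
          · rw [mul_zero]
  refine hsum.trans ?_
  calc ENNReal.ofReal (p2 - 1) * ∫⁻ r in Set.Ioi 0, ENNReal.ofReal (j17402_rho p1 p2 r) *
        ENNReal.ofReal (∑ j ∈ Finset.univ.filter (fun j => r ≤ l j), l j) ≤
      ENNReal.ofReal (p2 - 1) * ∫⁻ r in Set.Ioi 0, ENNReal.ofReal (j17402_rho p1 p2 r) *
        (ENNReal.ofReal C1 * ∫⁻ a, (if c1 * r < F a then ENNReal.ofReal (F a) else 0) ∂μ) := by
        refine mul_le_mul_right (setLIntegral_mono' measurableSet_Ioi fun r hr0 => ?_) _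
        exact mul_le_mul_right (hr r hr0) _
    _ = ENNReal.ofReal (p2 - 1) * (ENNReal.ofReal C1 * ∫⁻ r in Set.Ioi 0, ∫⁻ a,
          ENNReal.ofReal (j17402_rho p1 p2 r) *
            (if c1 * r < F a then ENNReal.ofReal (F a) else 0) ∂μ) := by
        congr 1
        rw [← lintegral_const_mul' _ _ ENNReal.ofReal_ne_top]
        refine lintegral_congr fun r => ?_
        rw [lintegral_const_mul' _ _ ENNReal.ofReal_ne_top]
        ring
    _ = ENNReal.ofReal (p2 - 1) * (ENNReal.ofReal C1 * ∫⁻ a, (∫⁻ r in Set.Ioi (0 : ℝ),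
          ENNReal.ofReal (j17402_rho p1 p2 r) *
            (if c1 * r < F a then ENNReal.ofReal (F a) else 0)) ∂μ) := by
        rw [lintegral_lintegral_swap]
        refine Measurable.aemeasurable ?_
        refine (hmr.comp measurable_fst).mul ?_
        refine Measurable.ite ?_ (ENNReal.measurable_ofReal.comp (hF.comp measurable_snd))
          measurable_const
        exact measurableSet_lt (measurable_fst.const_mul c1) (hF.comp measurable_snd)
    _ ≤ ENNReal.ofReal (p2 - 1) * (ENNReal.ofReal C1 * ∫⁻ a,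
          ENNReal.ofReal D * ENNReal.ofReal (min (F a ^ p1) (F a ^ p2)) ∂μ) := by
        refine mul_le_mul_right (mul_le_mul_right (lintegral_mono fun a => ?_) _) _
        refine le_trans (le_of_eq ?_) (hpt a)
        rw [← lintegral_const_mul' _ _ ENNReal.ofReal_ne_top]
        refine lintegral_congr fun r => ?_
        split_ifs
        · rw [mul_comm]
        · simp
    _ = _ := by
        rw [lintegral_const_mul' _ _ ENNReal.ofReal_ne_top, ENNReal.ofReal_mul hp21.le,
          ENNReal.ofReal_mul hC1.le]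
        ring

end K06
end Pool.Agent.Helper209.CX
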