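import Mathlib
import Pool.Agent.Helper209.CX.DDefs

namespace Pool.Agent.Helper209.CX

namespace K07
open MeasureTheory ENNReal FourierTransform


theorem d7_G_low (k : ℂ) (hk : 0 < k.im) (ρ : ℝ) (hρ : 0 ≤ ρ) :
    ‖k‖ / 2 * (k.im + |ρ - (|k.re|)|) ≤ ‖((ρ ^ 2 : ℝ) : ℂ) - k ^ 2‖ := by
  have hT : ‖k‖ ^ 2 = k.re ^ 2 + k.im ^ 2 := by
    rw [Complex.sq_norm, Complex.normSq_apply]
    ring
  have h0 : 0 ≤ ‖k‖ / 2 * (k.im + |ρ - (|k.re|)|) := by positivity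
  rw [← sq_le_sq₀ h0 (norm_nonneg _)]
  have h1 : ‖((ρ ^ 2 : ℝ) : ℂ) - k ^ 2‖ ^ 2 =
      ((ρ - |k.re|) ^ 2 + k.im ^ 2) * ((ρ + |k.re|) ^ 2 + k.im ^ 2) := by
    rw [Complex.sq_norm, Complex.normSq_apply]
    have e1 : (((ρ ^ 2 : ℝ) : ℂ) - k ^ 2).re = ρ ^ 2 - (k.re ^ 2 - k.im ^ 2) := by
      rw [Complex.sub_re, Complex.ofReal_re, pow_two k, Complex.mul_re]
      ring
    have e2 : (((ρ ^ 2 : ℝ) : ℂ) - k ^ 2).im = -(2 * k.re * k.im) := by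
      rw [Complex.sub_im, Complex.ofReal_im, pow_two k, Complex.mul_im]
      ring
    rw [e1, e2]
    have e3 : k.re ^ 2 = |k.re| ^ 2 := (sq_abs _).symm
    have e4 : (-(2 * k.re * k.im)) * (-(2 * k.re * k.im)) = 4 * |k.re| ^ 2 * k.im ^ 2 := by
      rw [← e3]
      ring
    rw [e4, e3]
    ring
  rw [h1, mul_pow, div_pow, hT]
  have h2 : (k.im + |ρ - (|k.re|)|) ^ 2 ≤ 2 * ((ρ - |k.re|) ^ 2 + k.im ^ 2) := by
    have := sq_abs (ρ - |k.re|)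
    nlinarith [sq_nonneg (k.im - |ρ - (|k.re|)|)]
  have h3 : k.re ^ 2 + k.im ^ 2 ≤ (ρ + |k.re|) ^ 2 + k.im ^ 2 := by
    have := sq_abs k.re
    nlinarith [abs_nonneg k.re, mul_nonneg hρ (abs_nonneg k.re), sq_nonneg ρ]
  have h4 : 0 ≤ (ρ - |k.re|) ^ 2 + k.im ^ 2 := by positivity
  have h5 : 0 ≤ k.re ^ 2 + k.im ^ 2 := by positivity
  calc (k.re ^ 2 + k.im ^ 2) / 2 ^ 2 * (k.im + |ρ - (|k.re|)|) ^ 2
      ≤ (k.re ^ 2 + k.im ^ 2) / 2 ^ 2 * (2 * ((ρ - |k.re|) ^ 2 + k.im ^ 2)) := by gcongr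
    _ ≤ ((ρ - |k.re|) ^ 2 + k.im ^ 2) * (k.re ^ 2 + k.im ^ 2) := by nlinarith [mul_nonneg h4 h5]
    _ ≤ _ := mul_le_mul_of_nonneg_left h3 h4

theorem d7_G_low2 (k : ℂ) (ρ : ℝ) (hρ : 2 * ‖k‖ ≤ ρ) :
    ρ ^ 2 / 2 ≤ ‖((ρ ^ 2 : ℝ) : ℂ) - k ^ 2‖ := by
  have h1 : ‖((ρ ^ 2 : ℝ) : ℂ)‖ - ‖k ^ 2‖ ≤ ‖((ρ ^ 2 : ℝ) : ℂ) - k ^ 2‖ := norm_sub_norm_le _ _
  have e1 : ‖((ρ ^ 2 : ℝ) : ℂ)‖ = ρ ^ 2 := by
    rw [Complex.norm_real, Real.norm_eq_abs, abs_of_nonneg (sq_nonneg ρ)]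
  rw [e1, norm_pow] at h1
  have h2 : ‖k‖ ^ 2 ≤ (ρ / 2) ^ 2 := pow_le_pow_left₀ (norm_nonneg _) (by linarith) 2
  nlinarith

/-- the one dimensional integral -/
theorem d7_G_one (p : ℝ) (hp : 1 < p) (a y : ℝ) (hy : 0 < y) :
    Integrable (fun r : ℝ => (y + |2 * Real.pi * r - a|) ^ (-p)) ∧
    ∫ r : ℝ, (y + |2 * Real.pi * r - a|) ^ (-p) =
      y ^ (-p) * (y / (2 * Real.pi) * ∫ s : ℝ, (1 + ‖s‖) ^ (-p)) := by
  have hg : Integrable (fun s : ℝ => (1 + ‖s‖) ^ (-p)) := by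
    refine integrable_one_add_norm ?_
    simpa using hp
  have hpi := Real.pi_pos
  have hR : 2 * Real.pi / y ≠ 0 := by positivity
  have h1 : (fun r : ℝ => (y + |2 * Real.pi * r - a|) ^ (-p)) =
      fun r : ℝ => y ^ (-p) * (fun s : ℝ => (fun s : ℝ => (1 + ‖s‖) ^ (-p)) (s - a / y))
        (2 * Real.pi / y * r) := by
    funext r
    show _ = y ^ (-p) * (1 + ‖2 * Real.pi / y * r - a / y‖) ^ (-p)
    rw [← Real.mul_rpow hy.le (by positivity)]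
    congr 1
    have e1 : 2 * Real.pi / y * r - a / y = (2 * Real.pi * r - a) / y := by
      field_simp
    rw [e1, Real.norm_eq_abs, abs_div, abs_of_pos hy]
    field_simp
  rw [h1]
  refine ⟨((hg.comp_sub_right (a / y)).comp_mul_left' hR).const_mul _, ?_⟩
  rw [integral_const_mul, Measure.integral_comp_mul_left
    (fun s : ℝ => (fun s : ℝ => (1 + ‖s‖) ^ (-p)) (s - a / y)) (2 * Real.pi / y),
    integral_sub_right_eq_self (fun s : ℝ => (1 + ‖s‖) ^ (-p)) (a / y)]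
  rw [smul_eq_mul, inv_div, abs_of_pos (by positivity)]

theorem d7_G (d : ℕ) (hd : 1 ≤ d) (p : ℝ) (hp : 1 < p) (hpd : (d : ℝ) / 2 < p) :
    ∃ C : ℝ, 0 < C ∧ ∀ k : ℂ, 0 < k.im →
      ∫⁻ ξ : Ed d, ENNReal.ofReal ((‖(((2 * Real.pi * ‖ξ‖) ^ 2 : ℝ) : ℂ) - k ^ 2‖⁻¹) ^ p) ≤
        ENNReal.ofReal (C * ‖k‖ ^ ((d : ℝ) - 2 * p) * (‖k‖ / k.im) ^ (p - 1)) := by
  have hpi := Real.pi_pos
  have hp0 : 0 < p := by linarith
  have h2pd : 0 < 2 * p - d := by linarith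
  obtain ⟨J, hJ⟩ : ∃ J : ℝ, J = ∫ s : ℝ, (1 + ‖s‖) ^ (-p) := ⟨_, rfl⟩
  have hJ0 : 0 ≤ J := by
    rw [hJ]
    exact integral_nonneg fun s => by positivity
  obtain ⟨C1, hC1⟩ : ∃ C1 : ℝ, C1 = (1 / Real.pi) ^ (d - 1) * (1 / 2) ^ (-p) *
      (1 / (2 * Real.pi)) * J := ⟨_, rfl⟩
  have hC1p : 0 ≤ C1 := by rw [hC1]; positivity
  obtain ⟨C2, hC2⟩ : ∃ C2 : ℝ, C2 = (2 * Real.pi ^ 2) ^ (-p) *
      ((1 / Real.pi) ^ ((d : ℝ) - 2 * p) / (2 * p - d)) := ⟨_, rfl⟩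
  have hC2p : 0 ≤ C2 := by rw [hC2]; positivity
  obtain ⟨V, hV⟩ : ∃ V : ℝ, V = (volume : Measure (Ed d)).real (Metric.ball 0 1) := ⟨_, rfl⟩
  have hV0 : 0 ≤ V := by rw [hV]; exact measureReal_nonneg
  refine ⟨d * (V * (C1 + C2)) + 1, by positivity, fun k hk => ?_⟩
  have hT : 0 < ‖k‖ := norm_pos_iff.2 (by rintro rfl; simp at hk)
  have hyT : k.im ≤ ‖k‖ := (le_abs_self _).trans (Complex.abs_im_le_norm k)
  have : Nonempty (Fin d) := ⟨⟨0, hd⟩⟩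
  obtain ⟨f, hf⟩ : ∃ f : ℝ → ℝ, f = fun r =>
      (‖(((2 * Real.pi * r) ^ 2 : ℝ) : ℂ) - k ^ 2‖⁻¹) ^ p := ⟨_, rfl⟩
  have hf0 : ∀ r, 0 ≤ f r := by
    intro r
    rw [hf]
    positivity
  have hfm : Measurable f := by
    rw [hf]
    fun_prop
  -- pointwise bounds
  have hb1 : ∀ r, 0 ≤ r → f r ≤ (‖k‖ / 2) ^ (-p) * (k.im + |2 * Real.pi * r - (|k.re|)|) ^ (-p) := by
    intro r hr
    have h1 := d7_G_low k hk (2 * Real.pi * r) (by positivity)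
    have h2 : 0 < ‖k‖ / 2 * (k.im + |2 * Real.pi * r - (|k.re|)|) := by positivity
    rw [hf, ← Real.mul_rpow (by positivity) (by positivity)]
    show (‖(((2 * Real.pi * r) ^ 2 : ℝ) : ℂ) - k ^ 2‖⁻¹) ^ p ≤ _
    rw [Real.inv_rpow (norm_nonneg _), ← Real.rpow_neg (norm_nonneg _)]
    exact Real.rpow_le_rpow_of_nonpos h2 h1 (by linarith)
  have hb2 : ∀ r, ‖k‖ / Real.pi < r → f r ≤ (2 * Real.pi ^ 2) ^ (-p) * r ^ (-(2 * p)) := by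
    intro r hr
    have hr0 : 0 < r := lt_trans (by positivity) hr
    have hr1 : 2 * ‖k‖ ≤ 2 * Real.pi * r := by
      rw [div_lt_iff₀ hpi] at hr
      linarith
    have h1 := d7_G_low2 k (2 * Real.pi * r) hr1
    have h2 : (2 * Real.pi * r) ^ 2 / 2 = (2 * Real.pi ^ 2) * r ^ 2 := by ring
    rw [h2] at h1
    have h3 : 0 < (2 * Real.pi ^ 2) * r ^ 2 := by positivity
    have h4 : r ^ (-(2 * p)) = (r ^ 2) ^ (-p) := by
      rw [← Real.rpow_natCast r 2, ← Real.rpow_mul hr0.le]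
      congr 1
      push_cast
      ring
    rw [hf, h4, ← Real.mul_rpow (by positivity) (by positivity)]
    show (‖(((2 * Real.pi * r) ^ 2 : ℝ) : ℂ) - k ^ 2‖⁻¹) ^ p ≤ _
    rw [Real.inv_rpow (norm_nonneg _), ← Real.rpow_neg (norm_nonneg _)]
    exact Real.rpow_le_rpow_of_nonpos h3 h1 (by linarith)
  obtain ⟨G1, hG1⟩ : ∃ G1 : ℝ → ℝ, G1 = fun r => ((‖k‖ / Real.pi) ^ (d - 1) * (‖k‖ / 2) ^ (-p)) *
      (k.im + |2 * Real.pi * r - (|k.re|)|) ^ (-p) := ⟨_, rfl⟩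
  obtain ⟨G2, hG2⟩ : ∃ G2 : ℝ → ℝ, G2 = (Set.Ioi (‖k‖ / Real.pi)).indicator
      (fun r => (2 * Real.pi ^ 2) ^ (-p) * r ^ ((d : ℝ) - 1 - 2 * p)) := ⟨_, rfl⟩
  have hG1p : ∀ r, 0 ≤ G1 r := by
    intro r
    rw [hG1]
    positivity
  have hG2p : ∀ r, 0 ≤ G2 r := by
    intro r
    rw [hG2]
    refine Set.indicator_nonneg (fun r hr => ?_) r
    have hr0 : 0 < r := lt_trans (by positivity) (Set.mem_Ioi.1 hr)
    positivity
  have hdom : ∀ r, 0 < r → r ^ (d - 1) * f r ≤ G1 r + G2 r := by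
    intro r hr
    rcases le_or_gt r (‖k‖ / Real.pi) with h | h
    · have h1 : r ^ (d - 1) ≤ (‖k‖ / Real.pi) ^ (d - 1) := pow_le_pow_left₀ hr.le h _
      have h2 := mul_le_mul h1 (hb1 r hr.le) (hf0 r) (by positivity)
      have h3 : G1 r = (‖k‖ / Real.pi) ^ (d - 1) *
          ((‖k‖ / 2) ^ (-p) * (k.im + |2 * Real.pi * r - (|k.re|)|) ^ (-p)) := by
        rw [hG1]
        ring
      linarith [hG2p r]
    · have h1 := mul_le_mul_of_nonneg_left (hb2 r h) (by positivity : 0 ≤ r ^ (d - 1))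
      have h2 : G2 r = r ^ (d - 1) * ((2 * Real.pi ^ 2) ^ (-p) * r ^ (-(2 * p))) := by
        rw [hG2, Set.indicator_of_mem (Set.mem_Ioi.2 h)]
        have h3 : r ^ ((d : ℝ) - 1 - 2 * p) = r ^ (d - 1) * r ^ (-(2 * p)) := by
          rw [← Real.rpow_natCast r (d - 1), ← Real.rpow_add hr]
          congr 1
          rw [Nat.cast_sub hd]
          push_cast
          ring
        rw [h3]
        ring
      linarith [hG1p r]
  obtain ⟨hI1, hI2⟩ := d7_G_one p hp (|k.re|) k.im hk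
  have hG1i : Integrable G1 := by
    rw [hG1]
    exact hI1.const_mul _
  have hexp : (d : ℝ) - 1 - 2 * p < -1 := by linarith
  have hG2on : IntegrableOn (fun r : ℝ => (2 * Real.pi ^ 2) ^ (-p) * r ^ ((d : ℝ) - 1 - 2 * p))
      (Set.Ioi (‖k‖ / Real.pi)) :=
    (integrableOn_Ioi_rpow_of_lt hexp (by positivity)).const_mul _
  have hG2i : Integrable G2 := by
    rw [hG2]
    exact hG2on.integrable_indicator measurableSet_Ioi
  have hG1v : ∫ r, G1 r = C1 * ‖k‖ ^ ((d : ℝ) - 2 * p) * (‖k‖ / k.im) ^ (p - 1) := by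
    rw [hG1, integral_const_mul, hI2, ← hJ, hC1]
    have e1 : (‖k‖ / Real.pi) ^ (d - 1) = ‖k‖ ^ ((d : ℝ) - 1) * (1 / Real.pi) ^ (d - 1) := by
      rw [div_eq_mul_one_div, mul_pow, ← Real.rpow_natCast ‖k‖ (d - 1), Nat.cast_sub hd]
      push_cast
      rfl
    have e2 : (‖k‖ / 2) ^ (-p) = ‖k‖ ^ (-p) * (1 / 2) ^ (-p) := by
      rw [div_eq_mul_one_div, Real.mul_rpow hT.le (by norm_num)]
    have e3 : (‖k‖ / k.im) ^ (p - 1) = ‖k‖ ^ (p - 1) * k.im ^ (1 - p) := by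
      rw [Real.div_rpow hT.le hk.le, div_eq_mul_inv, ← Real.rpow_neg hk.le]
      congr 2
      ring
    have e4 : k.im ^ (1 - p) = k.im ^ (-p) * k.im := by
      rw [show 1 - p = -p + 1 by ring, Real.rpow_add hk, Real.rpow_one]
    have e5 : ‖k‖ ^ ((d : ℝ) - 1) * ‖k‖ ^ (-p) = ‖k‖ ^ ((d : ℝ) - 2 * p) * ‖k‖ ^ (p - 1) := by
      rw [← Real.rpow_add hT, ← Real.rpow_add hT]
      congr 1
      ring
    rw [e1, e2, e3, e4]
    calc ‖k‖ ^ ((d : ℝ) - 1) * (1 / Real.pi) ^ (d - 1) * (‖k‖ ^ (-p) * (1 / 2) ^ (-p)) *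
          (k.im ^ (-p) * (k.im / (2 * Real.pi) * J))
        = (‖k‖ ^ ((d : ℝ) - 1) * ‖k‖ ^ (-p)) * ((1 / Real.pi) ^ (d - 1) * (1 / 2) ^ (-p) *
          (1 / (2 * Real.pi)) * J) * (k.im ^ (-p) * k.im) := by ring
      _ = _ := by
        rw [e5]
        ring
  have hG2v : ∫ r, G2 r = C2 * ‖k‖ ^ ((d : ℝ) - 2 * p) := by
    rw [hG2, integral_indicator measurableSet_Ioi, integral_const_mul,
      integral_Ioi_rpow_of_lt hexp (by positivity), hC2]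
    have e1 : (‖k‖ / Real.pi) ^ ((d : ℝ) - 1 - 2 * p + 1) =
        ‖k‖ ^ ((d : ℝ) - 2 * p) * (1 / Real.pi) ^ ((d : ℝ) - 2 * p) := by
      rw [show (d : ℝ) - 1 - 2 * p + 1 = (d : ℝ) - 2 * p by ring, div_eq_mul_one_div,
        Real.mul_rpow hT.le (by positivity)]
    rw [e1, show (d : ℝ) - 1 - 2 * p + 1 = -(2 * p - d) by ring]
    rw [div_neg, neg_div, neg_neg]
    ring
  have hone : (1 : ℝ) ≤ (‖k‖ / k.im) ^ (p - 1) :=
    Real.one_le_rpow (by rw [le_div_iff₀ hk]; linarith) (by linarith)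
  have hsmeas : AEStronglyMeasurable (fun r : ℝ => r ^ (d - 1) • f r)
      (volume.restrict (Set.Ioi (0 : ℝ))) := by
    refine Measurable.aestronglyMeasurable ?_
    simp only [smul_eq_mul]
    exact (measurable_id.pow_const _).mul hfm
  have hfin : Module.finrank ℝ (Ed d) = d := by simp
  have hon : IntegrableOn (fun r : ℝ => r ^ (d - 1) • f r) (Set.Ioi (0 : ℝ)) := by
    refine Integrable.mono' (g := fun r => G1 r + G2 r) (hG1i.add hG2i).integrableOn hsmeas ?_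
    refine (ae_restrict_iff' measurableSet_Ioi).2 (Filter.Eventually.of_forall fun r hr => ?_)
    have hr' : 0 < r := hr
    rw [smul_eq_mul, Real.norm_eq_abs, abs_of_nonneg (mul_nonneg (by positivity) (hf0 r))]
    exact hdom r hr'
  have hint : Integrable (fun ξ : Ed d => f ‖ξ‖) := by
    rw [integrable_fun_norm_addHaar (volume : Measure (Ed d)), hfin]
    exact hon
  have hval : ∫ ξ : Ed d, f ‖ξ‖ = d * (V * ∫ r in Set.Ioi (0 : ℝ), r ^ (d - 1) * f r) := by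
    rw [integral_fun_norm_addHaar (volume : Measure (Ed d)), hfin, ← hV, nsmul_eq_mul, smul_eq_mul]
    rfl
  have hle : ∫ r in Set.Ioi (0 : ℝ), r ^ (d - 1) * f r ≤
      (C1 + C2) * ‖k‖ ^ ((d : ℝ) - 2 * p) * (‖k‖ / k.im) ^ (p - 1) := by
    have h1 : ∫ r in Set.Ioi (0 : ℝ), r ^ (d - 1) * f r ≤ ∫ r in Set.Ioi (0 : ℝ), (G1 r + G2 r) :=
      setIntegral_mono_on hon (hG1i.add hG2i).integrableOn measurableSet_Ioi
        fun r hr => hdom r hr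
    have h2 : ∫ r in Set.Ioi (0 : ℝ), (G1 r + G2 r) ≤ ∫ r, (G1 r + G2 r) :=
      setIntegral_le_integral (hG1i.add hG2i)
        (Filter.Eventually.of_forall fun r => add_nonneg (hG1p r) (hG2p r))
    rw [integral_add hG1i hG2i, hG1v, hG2v] at h2
    have h3 : C2 * ‖k‖ ^ ((d : ℝ) - 2 * p) ≤
        C2 * ‖k‖ ^ ((d : ℝ) - 2 * p) * (‖k‖ / k.im) ^ (p - 1) :=
      le_mul_of_one_le_right (by positivity) hone
    calc _ ≤ _ := h1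
      _ ≤ _ := h2
      _ ≤ C1 * ‖k‖ ^ ((d : ℝ) - 2 * p) * (‖k‖ / k.im) ^ (p - 1) +
        C2 * ‖k‖ ^ ((d : ℝ) - 2 * p) * (‖k‖ / k.im) ^ (p - 1) := by linarith
      _ = _ := by ring
  have hlint : ∫⁻ ξ : Ed d, ENNReal.ofReal (f ‖ξ‖) = ENNReal.ofReal (∫ ξ : Ed d, f ‖ξ‖) :=
    (ofReal_integral_eq_lintegral_ofReal hint (Filter.Eventually.of_forall fun ξ => hf0 _)).symm
  have hgoal : ∫⁻ ξ : Ed d, ENNReal.ofReal ((‖(((2 * Real.pi * ‖ξ‖) ^ 2 : ℝ) : ℂ) - k ^ 2‖⁻¹) ^ p) =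
      ∫⁻ ξ : Ed d, ENNReal.ofReal (f ‖ξ‖) := by
    rw [hf]
  rw [hgoal, hlint, hval]
  refine ENNReal.ofReal_le_ofReal ?_
  have hX : 0 ≤ ‖k‖ ^ ((d : ℝ) - 2 * p) * (‖k‖ / k.im) ^ (p - 1) := by positivity
  have h1 : (d : ℝ) * (V * ∫ r in Set.Ioi (0 : ℝ), r ^ (d - 1) * f r) ≤
      d * (V * ((C1 + C2) * ‖k‖ ^ ((d : ℝ) - 2 * p) * (‖k‖ / k.im) ^ (p - 1))) := by
    gcongr
  refine h1.trans ?_
  have h2 : (d : ℝ) * (V * ((C1 + C2) * ‖k‖ ^ ((d : ℝ) - 2 * p) * (‖k‖ / k.im) ^ (p - 1))) =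
      (d * (V * (C1 + C2))) * (‖k‖ ^ ((d : ℝ) - 2 * p) * (‖k‖ / k.im) ^ (p - 1)) := by ring
  rw [h2, mul_assoc (_ + 1)]
  exact mul_le_mul_of_nonneg_right (by linarith) hX

end K07
end Pool.Agent.Helper209.CX
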