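import Mathlib
import Pool.Agent.Helper209.CX.DDefs

namespace Pool.Agent.Helper209.CX

namespace K08
open MeasureTheory ENNReal FourierTransform



theorem d8e_m_bound (k : ℂ) (hk : 0 < k.im) (s : ℝ) (hs : 0 ≤ s) :
    k.im ^ 2 ≤ ‖((s ^ 2 : ℝ) : ℂ) - k ^ 2‖ ∧ k.im * s ≤ ‖((s ^ 2 : ℝ) : ℂ) - k ^ 2‖ := by
  have e : ((s ^ 2 : ℝ) : ℂ) - k ^ 2 = ((s : ℂ) - k) * ((s : ℂ) + k) := by push_cast; ring
  rw [e, norm_mul]
  have h1 : k.im ≤ ‖(s : ℂ) - k‖ := by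
    have h := Complex.abs_im_le_norm ((s : ℂ) - k)
    rw [Complex.sub_im, Complex.ofReal_im, zero_sub, abs_neg, abs_of_pos hk] at h
    exact h
  have h2 : k.im ≤ ‖(s : ℂ) + k‖ := by
    have h := Complex.abs_im_le_norm ((s : ℂ) + k)
    rw [Complex.add_im, Complex.ofReal_im, zero_add, abs_of_pos hk] at h
    exact h
  have h3 : 2 * s ≤ ‖(s : ℂ) - k‖ + ‖(s : ℂ) + k‖ := by
    have h := norm_add_le ((s : ℂ) - k) ((s : ℂ) + k)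
    have e2 : ((s : ℂ) - k) + ((s : ℂ) + k) = ((2 * s : ℝ) : ℂ) := by push_cast; ring
    rw [e2, Complex.norm_real, Real.norm_eq_abs, abs_of_nonneg (by positivity)] at h
    exact h
  obtain ⟨p, hp⟩ : ∃ p, p = ‖(s : ℂ) - k‖ := ⟨_, rfl⟩
  obtain ⟨q, hq⟩ : ∃ q, q = ‖(s : ℂ) + k‖ := ⟨_, rfl⟩
  rw [← hp] at h1 h3 ⊢
  rw [← hq] at h2 h3 ⊢
  constructor
  · nlinarith
  · nlinarith [mul_nonneg (sub_nonneg.mpr h1) (hk.le.trans h2),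
      mul_nonneg (sub_nonneg.mpr h2) (hk.le.trans h1)]

theorem d8e_planch {d : ℕ} (f φ : L2d d) :
    Integrable (fun ξ => (𝓕 f : L2d d) ξ * (starRingEnd ℂ) ((𝓕 φ : L2d d) ξ)) volume ∧
    ∫ ξ, (𝓕 f : L2d d) ξ * (starRingEnd ℂ) ((𝓕 φ : L2d d) ξ) =
      ∫ x, f x * (starRingEnd ℂ) (φ x) := by
  have h1 := L2.integrable_inner (𝕜 := ℂ) (𝓕 φ : L2d d) (𝓕 f : L2d d)
  refine ⟨h1, ?_⟩
  have h2 := MeasureTheory.Lp.inner_fourier_eq φ f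
  rw [L2.inner_def, L2.inner_def] at h2
  exact h2

theorem d8e_conj {d : ℕ} {g : Ed d → ℂ} (h : MemLp g 2 volume) :
    MemLp (fun x => (starRingEnd ℂ) (g x)) 2 volume := by
  refine h.congr_norm ?_ (Filter.Eventually.of_forall fun x => ?_)
  · exact Complex.continuous_conj.comp_aestronglyMeasurable h.1
  · exact (RCLike.norm_conj _).symm

theorem d8e_intmul {d : ℕ} {g h : Ed d → ℂ} (hg : MemLp g 2 volume) (hh : MemLp h 2 volume) :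
    Integrable (fun x => g x * (starRingEnd ℂ) (h x)) volume :=
  MemLp.integrable_mul hg (d8e_conj hh)

theorem d8e_psi {d : ℕ} (k : ℂ) (hk : 0 < k.im) (m : Ed d → ℂ)
    (hm : ∀ ξ, m ξ = (((2 * Real.pi * ‖ξ‖) ^ 2 : ℝ) : ℂ) - k ^ 2) (hmm : Measurable m)
    (u f ψ : L2d d) (hu : InH1 u)
    (hψ : (fun ξ : Ed d => (𝓕 ψ : L2d d) ξ) =ᵐ[volume] fun ξ =>
      ((𝓕 f : L2d d) ξ - k ^ 2 * (𝓕 u : L2d d) ξ) * (m ξ)⁻¹ - (𝓕 u : L2d d) ξ) : InH1 ψ := by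
  have hg : MemLp (fun ξ => (𝓕 f : L2d d) ξ - k ^ 2 * (𝓕 u : L2d d) ξ) 2 volume :=
    (Lp.memLp _).sub ((Lp.memLp _).const_mul _)
  have h1 : MemLp (fun ξ : Ed d => ((‖ξ‖ : ℂ) * (m ξ)⁻¹) *
      ((𝓕 f : L2d d) ξ - k ^ 2 * (𝓕 u : L2d d) ξ)) 2 volume := by
    refine MemLp.of_le_mul (c := (k.im)⁻¹) hg ?_ (Filter.Eventually.of_forall fun ξ => ?_)
    · refine AEStronglyMeasurable.mul ?_ hg.1
      exact (Measurable.mul (by fun_prop) hmm.inv).aestronglyMeasurable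
    · rw [norm_mul, norm_mul, norm_inv, Complex.norm_real, norm_norm]
      apply mul_le_mul_of_nonneg_right _ (norm_nonneg _)
      have hb := d8e_m_bound k hk (2 * Real.pi * ‖ξ‖) (by positivity)
      rw [← hm] at hb
      have hm0 : 0 < ‖m ξ‖ := lt_of_lt_of_le (by positivity) hb.1
      rw [← div_eq_mul_inv, div_le_iff₀ hm0, ← div_eq_inv_mul, le_div_iff₀ hk]
      have hpi : 1 ≤ 2 * Real.pi := by linarith [Real.pi_gt_three]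
      have h3 : ‖ξ‖ * k.im ≤ k.im * (2 * Real.pi * ‖ξ‖) := by
        have h4 : 0 ≤ ‖ξ‖ * k.im := by positivity
        nlinarith
      exact h3.trans hb.2
  have h2 := h1.sub hu
  refine MemLp.ae_eq ?_ h2
  filter_upwards [hψ] with ξ hξ
  show ((‖ξ‖ : ℂ) * (m ξ)⁻¹) * ((𝓕 f : L2d d) ξ - k ^ 2 * (𝓕 u : L2d d) ξ) -
    (‖ξ‖ : ℂ) * (𝓕 u : L2d d) ξ = (‖ξ‖ : ℂ) * (𝓕 ψ : L2d d) ξ
  rw [hξ]; ring

theorem d8e_ident {d : ℕ} (k : ℂ) (hk : 0 < k.im) (m : Ed d → ℂ)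
    (hm : ∀ ξ, m ξ = (((2 * Real.pi * ‖ξ‖) ^ 2 : ℝ) : ℂ) - k ^ 2) (V : Ed d → ℂ)
    (u f ψ : L2d d) (hu : IsHu 1 V u f)
    (hψ : (fun ξ : Ed d => (𝓕 ψ : L2d d) ξ) =ᵐ[volume] fun ξ =>
      ((𝓕 f : L2d d) ξ - k ^ 2 * (𝓕 u : L2d d) ξ) * (m ξ)⁻¹ - (𝓕 u : L2d d) ξ)
    (φ : L2d d) (hφ : InH1 φ) :
    Integrable (fun ξ => m ξ * (𝓕 ψ : L2d d) ξ * (starRingEnd ℂ) ((𝓕 φ : L2d d) ξ)) volume ∧
    ∫ ξ, m ξ * (𝓕 ψ : L2d d) ξ * (starRingEnd ℂ) ((𝓕 φ : L2d d) ξ) =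
      ∫ x, V x * u x * (starRingEnd ℂ) (φ x) := by
  obtain ⟨hu1, hu2⟩ := hu
  obtain ⟨h3, h4⟩ := hu2 φ hφ
  obtain ⟨p1, p2⟩ := d8e_planch f φ
  have hI : Integrable (fun ξ : Ed d => (((2 * Real.pi * ‖ξ‖) ^ 2 : ℝ) : ℂ) * (𝓕 u : L2d d) ξ *
    (starRingEnd ℂ) ((𝓕 φ : L2d d) ξ)) volume := by
    have h5 := (d8e_intmul hu1 hφ).const_mul ((2 * Real.pi : ℝ) ^ 2 : ℂ)
    refine h5.congr (Filter.Eventually.of_forall fun ξ => ?_)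
    show ((2 * Real.pi : ℝ) ^ 2 : ℂ) * ((‖ξ‖ : ℂ) * (𝓕 u : L2d d) ξ *
      (starRingEnd ℂ) ((‖ξ‖ : ℂ) * (𝓕 φ : L2d d) ξ)) = _
    rw [map_mul, Complex.conj_ofReal]
    push_cast
    ring
  have hae : (fun ξ => (𝓕 f : L2d d) ξ * (starRingEnd ℂ) ((𝓕 φ : L2d d) ξ) -
      (((2 * Real.pi * ‖ξ‖) ^ 2 : ℝ) : ℂ) * (𝓕 u : L2d d) ξ *
        (starRingEnd ℂ) ((𝓕 φ : L2d d) ξ)) =ᵐ[volume]
      fun ξ => m ξ * (𝓕 ψ : L2d d) ξ * (starRingEnd ℂ) ((𝓕 φ : L2d d) ξ) := by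
    filter_upwards [hψ] with ξ hξ
    have hb := d8e_m_bound k hk (2 * Real.pi * ‖ξ‖) (by positivity)
    rw [← hm] at hb
    have hm0 : m ξ ≠ 0 := norm_pos_iff.mp (lt_of_lt_of_le (by positivity) hb.1)
    rw [hξ]
    have e1 : m ξ * (((𝓕 f : L2d d) ξ - k ^ 2 * (𝓕 u : L2d d) ξ) * (m ξ)⁻¹ - (𝓕 u : L2d d) ξ) =
        ((𝓕 f : L2d d) ξ - k ^ 2 * (𝓕 u : L2d d) ξ) - m ξ * (𝓕 u : L2d d) ξ := by
      field_simp
    rw [e1, hm ξ]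
    ring
  refine ⟨(p1.sub hI).congr hae, ?_⟩
  rw [← integral_congr_ae hae, integral_sub p1 hI, p2, ← h4]
  unfold dirichlet
  push_cast
  ring

theorem d8e_phi {d : ℕ} (m : Ed d → ℂ) (hmm : Measurable m)
    (ψ : L2d d) (hψ : InH1 ψ) : ∃ φ : L2d d, InH1 φ ∧
      (fun ξ : Ed d => (𝓕 φ : L2d d) ξ) =ᵐ[volume] fun ξ =>
        (𝓕 ψ : L2d d) ξ * (m ξ / (‖m ξ‖ : ℂ)) := by
  have hn : ∀ ξ, ‖m ξ / (‖m ξ‖ : ℂ)‖ ≤ 1 := by
    intro ξ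
    rw [norm_div, Complex.norm_real, norm_norm]
    exact div_self_le_one _
  have hmeas : AEStronglyMeasurable (fun ξ : Ed d => m ξ / (‖m ξ‖ : ℂ)) volume :=
    (hmm.div (Complex.measurable_ofReal.comp hmm.norm)).aestronglyMeasurable
  have h1 : MemLp (fun ξ => (𝓕 ψ : L2d d) ξ * (m ξ / (‖m ξ‖ : ℂ))) 2 volume := by
    refine MemLp.of_le_mul (c := 1) (Lp.memLp (𝓕 ψ : L2d d)) ?_
      (Filter.Eventually.of_forall fun ξ => ?_)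
    · exact (Lp.memLp (𝓕 ψ : L2d d)).1.mul hmeas
    · rw [norm_mul, mul_comm]
      exact mul_le_mul_of_nonneg_right (hn ξ) (norm_nonneg _)
  have h2 : (fun ξ : Ed d => (𝓕 (𝓕⁻ (h1.toLp _) : L2d d) : L2d d) ξ) =ᵐ[volume] fun ξ =>
        (𝓕 ψ : L2d d) ξ * (m ξ / (‖m ξ‖ : ℂ)) := by
    rw [FourierTransform.fourier_fourierInv_eq]
    exact h1.coeFn_toLp
  refine ⟨𝓕⁻ (h1.toLp _), ?_, h2⟩
  have h3 : MemLp (fun ξ : Ed d => ((‖ξ‖ : ℂ) * (𝓕 ψ : L2d d) ξ) * (m ξ / (‖m ξ‖ : ℂ)))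
      2 volume := by
    refine MemLp.of_le_mul (c := 1) hψ ?_ (Filter.Eventually.of_forall fun ξ => ?_)
    · exact hψ.1.mul hmeas
    · rw [norm_mul, mul_comm]
      exact mul_le_mul_of_nonneg_right (hn ξ) (norm_nonneg _)
  refine MemLp.ae_eq ?_ h3
  filter_upwards [h2] with ξ hξ
  rw [hξ]; ring

theorem d8e_X {d : ℕ} (k : ℂ) (hk : 0 < k.im) (m : Ed d → ℂ)
    (hm : ∀ ξ, m ξ = (((2 * Real.pi * ‖ξ‖) ^ 2 : ℝ) : ℂ) - k ^ 2) (hmm : Measurable m)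
    (V : Ed d → ℂ) (u f ψ : L2d d) (hu : IsHu 1 V u f)
    (hψ : (fun ξ : Ed d => (𝓕 ψ : L2d d) ξ) =ᵐ[volume] fun ξ =>
      ((𝓕 f : L2d d) ξ - k ^ 2 * (𝓕 u : L2d d) ξ) * (m ξ)⁻¹ - (𝓕 u : L2d d) ξ) :
    ∃ (φ : L2d d) (X : ℝ), 0 ≤ X ∧ InH1 φ ∧
      ∫ x, V x * u x * (starRingEnd ℂ) (φ x) = (X : ℂ) ∧
      Integrable (fun ξ => ‖(𝓕 φ : L2d d) ξ‖ ^ 2 / ‖m ξ‖⁻¹) volume ∧
      ∫ ξ, ‖(𝓕 φ : L2d d) ξ‖ ^ 2 / ‖m ξ‖⁻¹ = X ∧
      Integrable (fun ξ => ‖(𝓕 ψ : L2d d) ξ‖ ^ 2 / ‖m ξ‖⁻¹) volume ∧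
      ∫ ξ, ‖(𝓕 ψ : L2d d) ξ‖ ^ 2 / ‖m ξ‖⁻¹ = X := by
  have hψ1 := d8e_psi k hk m hm hmm u f ψ hu.1 hψ
  obtain ⟨φ, hφ, hφe⟩ := d8e_phi m hmm ψ hψ1
  obtain ⟨h1, h2⟩ := d8e_ident k hk m hm V u f ψ hu hψ φ hφ
  have hae : (fun ξ => m ξ * (𝓕 ψ : L2d d) ξ * (starRingEnd ℂ) ((𝓕 φ : L2d d) ξ)) =ᵐ[volume]
      fun ξ => ((‖(𝓕 ψ : L2d d) ξ‖ ^ 2 / ‖m ξ‖⁻¹ : ℝ) : ℂ) := by
    filter_upwards [hφe] with ξ hξ
    have hb := d8e_m_bound k hk (2 * Real.pi * ‖ξ‖) (by positivity)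
    rw [← hm] at hb
    have hm0 : 0 < ‖m ξ‖ := lt_of_lt_of_le (by positivity) hb.1
    have hm0' : (‖m ξ‖ : ℂ) ≠ 0 := by exact_mod_cast hm0.ne'
    rw [hξ, map_mul, map_div₀, Complex.conj_ofReal]
    have e1 : m ξ * (𝓕 ψ : L2d d) ξ * ((starRingEnd ℂ) ((𝓕 ψ : L2d d) ξ) *
        ((starRingEnd ℂ) (m ξ) / (‖m ξ‖ : ℂ))) =
        ((𝓕 ψ : L2d d) ξ * (starRingEnd ℂ) ((𝓕 ψ : L2d d) ξ)) *
          (m ξ * (starRingEnd ℂ) (m ξ)) / (‖m ξ‖ : ℂ) := by ring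
    rw [e1, Complex.mul_conj, Complex.mul_conj, Complex.normSq_eq_norm_sq,
      Complex.normSq_eq_norm_sq]
    rw [div_inv_eq_mul]
    push_cast
    field_simp
  have hφn : (fun ξ => ‖(𝓕 ψ : L2d d) ξ‖ ^ 2 / ‖m ξ‖⁻¹) =ᵐ[volume]
      fun ξ => ‖(𝓕 φ : L2d d) ξ‖ ^ 2 / ‖m ξ‖⁻¹ := by
    filter_upwards [hφe] with ξ hξ
    have hb := d8e_m_bound k hk (2 * Real.pi * ‖ξ‖) (by positivity)
    rw [← hm] at hb
    have hm0 : 0 < ‖m ξ‖ := lt_of_lt_of_le (by positivity) hb.1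
    rw [hξ, norm_mul, norm_div, Complex.norm_real, norm_norm, div_self hm0.ne', mul_one]
  have hIc : Integrable (fun ξ => ((‖(𝓕 ψ : L2d d) ξ‖ ^ 2 / ‖m ξ‖⁻¹ : ℝ) : ℂ)) volume :=
    h1.congr hae
  have hI : Integrable (fun ξ => ‖(𝓕 ψ : L2d d) ξ‖ ^ 2 / ‖m ξ‖⁻¹) volume := by
    have := hIc.re
    exact this
  refine ⟨φ, ∫ ξ, ‖(𝓕 ψ : L2d d) ξ‖ ^ 2 / ‖m ξ‖⁻¹, ?_, hφ, ?_, hI.congr hφn,
    (integral_congr_ae hφn).symm, hI, rfl⟩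
  · exact integral_nonneg fun ξ => by positivity
  · rw [← h2, integral_congr_ae hae, integral_complex_ofReal]

theorem d8e_trunc {d : ℕ} (Q : Ed d → ℝ) (hQm : Measurable Q) (hQ0 : ∀ x, 0 < Q x)
    (g : Ed d → ℂ) (hg : Integrable g volume) :
    Filter.Tendsto (fun M : ℕ => ∫ x, {x | (2 : ℝ) ^ (-(M : ℤ)) < Q x ∧
      Q x ≤ (2 : ℝ) ^ (M : ℤ)}.indicator g x) Filter.atTop (nhds (∫ x, g x)) := by
  have hms : ∀ M : ℕ, MeasurableSet {x | (2 : ℝ) ^ (-(M : ℤ)) < Q x ∧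
      Q x ≤ (2 : ℝ) ^ (M : ℤ)} := fun M =>
    (measurableSet_lt measurable_const hQm).inter (measurableSet_le hQm measurable_const)
  refine tendsto_integral_of_dominated_convergence (fun x => ‖g x‖)
    (fun M => hg.1.indicator (hms M)) hg.norm (fun M => Filter.Eventually.of_forall fun x => ?_)
    (Filter.Eventually.of_forall fun x => ?_)
  · exact norm_indicator_le_norm_self g x
  · refine tendsto_const_nhds.congr' ?_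
    have h1 : ∀ᶠ M : ℕ in Filter.atTop, Q x ≤ (2 : ℝ) ^ (M : ℤ) := by
      have h2 := (tendsto_pow_atTop_atTop_of_one_lt (one_lt_two (α := ℝ))).eventually_ge_atTop (Q x)
      filter_upwards [h2] with M hM
      rw [zpow_natCast]; exact hM
    have h3 : ∀ᶠ M : ℕ in Filter.atTop, (2 : ℝ) ^ (-(M : ℤ)) < Q x := by
      have h2 := (tendsto_pow_atTop_atTop_of_one_lt (one_lt_two (α := ℝ))).eventually_gt_atTop
        (Q x)⁻¹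
      filter_upwards [h2] with M hM
      rw [zpow_neg, zpow_natCast]
      exact inv_lt_of_inv_lt₀ (hQ0 x) hM
    filter_upwards [h1, h3] with M hM1 hM2
    rw [Set.indicator_of_mem]
    exact ⟨hM2, hM1⟩

theorem d8e_norm_ev {a : ℕ → ℂ} {l : ℂ} (h : Filter.Tendsto a Filter.atTop (nhds l)) :
    ∀ᶠ M in Filter.atTop, ‖l‖ / 2 ≤ ‖a M‖ := by
  rcases eq_or_lt_of_le (norm_nonneg l) with h0 | h0
  · refine Filter.Eventually.of_forall fun M => ?_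
    rw [← h0]; simp
  · exact (h.norm.eventually_const_lt (half_lt_self h0)).mono fun M hM => hM.le

/-- the final numerical inequality -/
theorem d8e_num (l X A B r S1 S2 : ℝ) (hr : 0 < r) (hX : 0 ≤ X) (hS1 : 0 ≤ S1) (hS2 : 0 ≤ S2)
    (hA : A = 4 * (r / 32) + 2 * S1) (hB : B = 4 * (r / 32) + 2 * S2) (hl : r ≤ l)
    (h1 : (l / 2) ^ 2 ≤ A * X) (h2 : (X / 2) ^ 2 ≤ B * X) : l ≤ 8 * (S1 + S2) := by
  have hA0 : 0 < A := by rw [hA]; positivity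
  have hB0 : 0 < B := by rw [hB]; positivity
  have hXB : X ≤ 4 * B := by
    rcases eq_or_lt_of_le hX with h | h
    · rw [← h]; positivity
    · have h3 : X * X ≤ (4 * B) * X := by nlinarith
      exact le_of_mul_le_mul_right h3 h
  have h4 : l ^ 2 ≤ 16 * (A * B) := by nlinarith
  have h5 : l ^ 2 ≤ (2 * (A + B)) ^ 2 := by nlinarith [sq_nonneg (A - B)]
  have h6 : l ≤ 2 * (A + B) := abs_le_of_sq_le_sq' h5 (by positivity) |>.2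
  linarith

/-- eigenvalue bound -/
theorem d8_eig
    (cw : ∀ (d N : ℕ) (w : Fin N → L2d d) (_ : Orthonormal ℂ w) (Q G : Ed d → ℝ) (_ : Measurable Q)
      (_ : Measurable G) (_ : ∀ x, 0 < Q x) (_ : ∀ ξ, 0 < G ξ)
      (v : Ed d → ℂ) (_ : Measurable v) (_ : ∀ x, ‖v x‖ ^ 2 ≤ Q x) (M : ℕ)
      (_ : ∀ x, v x ≠ 0 → (2 : ℝ) ^ (-(M : ℤ)) < Q x ∧ Q x ≤ (2 : ℝ) ^ (M : ℤ))
      (_ : volume {x | v x ≠ 0} < ⊤) (l0 : ℝ) (_ : 0 < l0)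
      (_ : ∫⁻ x, ∫⁻ ξ, (if l0 < 2 * (Q x * G ξ) then ENNReal.ofReal (Q x * G ξ) else 0) < ⊤),
      ∃ S : Fin N → ℝ, (∀ j, 0 ≤ S j) ∧
      ENNReal.ofReal (∑ j, S j) ≤
        ∫⁻ x, ∫⁻ ξ, (if l0 < 2 * (Q x * G ξ) then ENNReal.ofReal (Q x * G ξ) else 0) ∧
      ∀ (j : Fin N) (φ : L2d d), Integrable (fun ξ => ‖(𝓕 φ : L2d d) ξ‖ ^ 2 / G ξ) volume →
        ‖∫ x, v x * (w j) x * (starRingEnd ℂ) (φ x)‖ ^ 2 ≤
          (4 * l0 + 2 * S j) * ∫ ξ, ‖(𝓕 φ : L2d d) ξ‖ ^ 2 / G ξ)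
    (d : ℕ) (hd : 1 ≤ d) (Q : Ed d → ℝ) (hQm : Measurable Q) (hQ0 : ∀ x, 0 < Q x)
    (hQfin : ∀ c : ℝ, 0 < c → volume {x | c < Q x} < ⊤)
    (hform : ∀ φ : L2d d, InH1 φ → Integrable (fun x => Q x * ‖φ x‖ ^ 2) volume)
    (V : Ed d → ℂ) (hV : Measurable V) (hVQ : ∀ x, ‖V x‖ ≤ Q x)
    (k : ℂ) (hk : 0 < k.im)
    (hG : ∀ c : ℝ, 0 < c → ∫⁻ x : Ed d, ∫⁻ ξ : Ed d,
      (if c < Q x * ‖(((2 * Real.pi * ‖ξ‖) ^ 2 : ℝ) : ℂ) - k ^ 2‖⁻¹ then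
        ENNReal.ofReal (Q x * ‖(((2 * Real.pi * ‖ξ‖) ^ 2 : ℝ) : ℂ) - k ^ 2‖⁻¹) else 0) < ⊤)
    (N : ℕ) (u f ψ : Fin N → L2d d)
    (hu : ∀ j, IsHu 1 V (u j) (f j))
    (ho : ∀ i j, ∫ x, (Q x : ℂ) * (starRingEnd ℂ) (u i x) * u j x = if i = j then 1 else 0)
    (hψ : ∀ j, (fun ξ : Ed d => (𝓕 (ψ j) : L2d d) ξ) =ᵐ[volume] fun ξ =>
      ((𝓕 (f j) : L2d d) ξ - k ^ 2 * (𝓕 (u j) : L2d d) ξ) *
        ((((2 * Real.pi * ‖ξ‖) ^ 2 : ℝ) : ℂ) - k ^ 2)⁻¹ - (𝓕 (u j) : L2d d) ξ)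
    (r : ℝ) (hr : 0 < r) :
    ENNReal.ofReal (∑ j ∈ Finset.univ.filter (fun j =>
        r ≤ ‖∫ x, (Q x : ℂ) * (starRingEnd ℂ) (u j x) * ψ j x‖),
        ‖∫ x, (Q x : ℂ) * (starRingEnd ℂ) (u j x) * ψ j x‖) ≤
      64 * ∫⁻ x : Ed d, ∫⁻ ξ : Ed d,
      (if r / 64 < Q x * ‖(((2 * Real.pi * ‖ξ‖) ^ 2 : ℝ) : ℂ) - k ^ 2‖⁻¹ then
        ENNReal.ofReal (Q x * ‖(((2 * Real.pi * ‖ξ‖) ^ 2 : ℝ) : ℂ) - k ^ 2‖⁻¹) else 0) := by
  obtain ⟨m, hm'⟩ : ∃ m : Ed d → ℂ, m = fun ξ => (((2 * Real.pi * ‖ξ‖) ^ 2 : ℝ) : ℂ) - k ^ 2 :=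
    ⟨_, rfl⟩
  have hm : ∀ ξ, m ξ = (((2 * Real.pi * ‖ξ‖) ^ 2 : ℝ) : ℂ) - k ^ 2 := fun ξ => by rw [hm']
  have hmm : Measurable m := by
    rw [hm']; fun_prop
  have hmpos : ∀ ξ, 0 < ‖m ξ‖ := by
    intro ξ
    have hb := d8e_m_bound k hk (2 * Real.pi * ‖ξ‖) (by positivity)
    rw [← hm] at hb
    exact lt_of_lt_of_le (by positivity) hb.1
  simp only [← hm] at hG hψ ⊢
  -- the numbers `X_j` and the functions `φ_j`
  choose φ X hX0 hφ1 hφV hφI hφX hψI hψX using fun j =>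
    d8e_X k hk m hm hmm V (u j) (f j) (ψ j) (hu j) (hψ j)
  have hψ1 : ∀ j, InH1 (ψ j) := fun j => d8e_psi k hk m hm hmm (u j) (f j) (ψ j) (hu j).1 (hψ j)
  -- the square root of `Q`
  have hsm : Measurable fun x => ((√(Q x) : ℝ) : ℂ) := Complex.measurable_ofReal.comp hQm.sqrt
  have hsq : ∀ x, ((√(Q x) : ℝ) : ℂ) * ((√(Q x) : ℝ) : ℂ) = (Q x : ℂ) := by
    intro x
    rw [← Complex.ofReal_mul, Real.mul_self_sqrt (hQ0 x).le]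
  have hmem : ∀ φ : L2d d, InH1 φ → MemLp (fun x => ((√(Q x) : ℝ) : ℂ) * φ x) 2 volume := by
    intro φ hφ
    refine (memLp_two_iff_integrable_sq_norm
      (hsm.aestronglyMeasurable.mul (Lp.memLp φ).1)).mpr ?_
    refine (hform φ hφ).congr (Filter.Eventually.of_forall fun x => ?_)
    show Q x * ‖φ x‖ ^ 2 = ‖((√(Q x) : ℝ) : ℂ) * φ x‖ ^ 2
    rw [norm_mul, mul_pow, Complex.norm_real, Real.norm_eq_abs, sq_abs, Real.sq_sqrt (hQ0 x).le]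
  obtain ⟨w, hw⟩ : ∃ w : Fin N → L2d d, w = fun j => (hmem (u j) (hu j).1).toLp _ := ⟨_, rfl⟩
  have hwe : ∀ j, (w j : Ed d → ℂ) =ᵐ[volume] fun x => ((√(Q x) : ℝ) : ℂ) * u j x := by
    intro j
    rw [hw]
    exact (hmem (u j) (hu j).1).coeFn_toLp
  have hwo : Orthonormal ℂ w := by
    rw [orthonormal_iff_ite]
    intro i j
    rw [← ho i j, L2.inner_def]
    apply integral_congr_ae
    filter_upwards [hwe i, hwe j] with x hx hy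
    rw [RCLike.inner_apply, hx, hy, map_mul, Complex.conj_ofReal, ← hsq x]
    ring
  -- truncations
  obtain ⟨A, hA⟩ : ∃ A : ℕ → Set (Ed d), A = fun M : ℕ => {x | (2 : ℝ) ^ (-(M : ℤ)) < Q x ∧
      Q x ≤ (2 : ℝ) ^ (M : ℤ)} := ⟨_, rfl⟩
  have hAm : ∀ M, MeasurableSet (A M) := fun M => by
    rw [hA]
    exact (measurableSet_lt measurable_const hQm).inter (measurableSet_le hQm measurable_const)
  obtain ⟨v1, hv1⟩ : ∃ v1 : ℕ → Ed d → ℂ, v1 = fun M =>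
      (A M).indicator fun x => ((√(Q x) : ℝ) : ℂ) := ⟨_, rfl⟩
  obtain ⟨v2, hv2⟩ : ∃ v2 : ℕ → Ed d → ℂ, v2 = fun M =>
      (A M).indicator fun x => V x / ((√(Q x) : ℝ) : ℂ) := ⟨_, rfl⟩
  have hl1 : ∀ j, Filter.Tendsto (fun M => ∫ x, v1 M x * (w j) x * (starRingEnd ℂ) (ψ j x))
      Filter.atTop (nhds (∫ x, (Q x : ℂ) * u j x * (starRingEnd ℂ) (ψ j x))) := by
    intro j
    have hint : Integrable (fun x => (Q x : ℂ) * u j x * (starRingEnd ℂ) (ψ j x)) volume := by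
      refine (d8e_intmul (hmem (u j) (hu j).1) (hmem (ψ j) (hψ1 j))).congr
        (Filter.Eventually.of_forall fun x => ?_)
      show ((√(Q x) : ℝ) : ℂ) * u j x * (starRingEnd ℂ) (((√(Q x) : ℝ) : ℂ) * ψ j x) =
        (Q x : ℂ) * u j x * (starRingEnd ℂ) (ψ j x)
      rw [map_mul, Complex.conj_ofReal, ← hsq x]
      ring
    refine (d8e_trunc Q hQm hQ0 _ hint).congr fun M => ?_
    apply integral_congr_ae
    filter_upwards [hwe j] with x hx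
    rw [hv1, hx, hA]
    by_cases hxA : (2 : ℝ) ^ (-(M : ℤ)) < Q x ∧ Q x ≤ (2 : ℝ) ^ (M : ℤ)
    · rw [Set.indicator_of_mem (show x ∈ {x | (2 : ℝ) ^ (-(M : ℤ)) < Q x ∧
        Q x ≤ (2 : ℝ) ^ (M : ℤ)} from hxA)]
      simp only
      rw [Set.indicator_of_mem (show x ∈ {x | (2 : ℝ) ^ (-(M : ℤ)) < Q x ∧
        Q x ≤ (2 : ℝ) ^ (M : ℤ)} from hxA), ← hsq x]
      ring
    · rw [Set.indicator_of_notMem (show x ∉ {x | (2 : ℝ) ^ (-(M : ℤ)) < Q x ∧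
        Q x ≤ (2 : ℝ) ^ (M : ℤ)} from hxA)]
      simp only
      rw [Set.indicator_of_notMem (show x ∉ {x | (2 : ℝ) ^ (-(M : ℤ)) < Q x ∧
        Q x ≤ (2 : ℝ) ^ (M : ℤ)} from hxA)]
      ring
  have hl2 : ∀ j, Filter.Tendsto (fun M => ∫ x, v2 M x * (w j) x * (starRingEnd ℂ) (φ j x))
      Filter.atTop (nhds (∫ x, V x * u j x * (starRingEnd ℂ) (φ j x))) := by
    intro j
    have hint : Integrable (fun x => V x * u j x * (starRingEnd ℂ) (φ j x)) volume :=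
      ((hu j).2 (φ j) (hφ1 j)).1
    refine (d8e_trunc Q hQm hQ0 _ hint).congr fun M => ?_
    apply integral_congr_ae
    filter_upwards [hwe j] with x hx
    rw [hv2, hx, hA]
    have hs0 : ((√(Q x) : ℝ) : ℂ) ≠ 0 := by
      exact_mod_cast (Real.sqrt_pos.mpr (hQ0 x)).ne'
    by_cases hxA : (2 : ℝ) ^ (-(M : ℤ)) < Q x ∧ Q x ≤ (2 : ℝ) ^ (M : ℤ)
    · rw [Set.indicator_of_mem (show x ∈ {x | (2 : ℝ) ^ (-(M : ℤ)) < Q x ∧
        Q x ≤ (2 : ℝ) ^ (M : ℤ)} from hxA)]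
      simp only
      rw [Set.indicator_of_mem (show x ∈ {x | (2 : ℝ) ^ (-(M : ℤ)) < Q x ∧
        Q x ≤ (2 : ℝ) ^ (M : ℤ)} from hxA), ← mul_assoc, div_mul_cancel₀ _ hs0]
    · rw [Set.indicator_of_notMem (show x ∉ {x | (2 : ℝ) ^ (-(M : ℤ)) < Q x ∧
        Q x ≤ (2 : ℝ) ^ (M : ℤ)} from hxA)]
      simp only
      rw [Set.indicator_of_notMem (show x ∉ {x | (2 : ℝ) ^ (-(M : ℤ)) < Q x ∧
        Q x ≤ (2 : ℝ) ^ (M : ℤ)} from hxA)]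
      ring
  have hev : ∀ᶠ M in Filter.atTop, ∀ j,
      ‖∫ x, (Q x : ℂ) * u j x * (starRingEnd ℂ) (ψ j x)‖ / 2 ≤
        ‖∫ x, v1 M x * (w j) x * (starRingEnd ℂ) (ψ j x)‖ ∧
      ‖∫ x, V x * u j x * (starRingEnd ℂ) (φ j x)‖ / 2 ≤
        ‖∫ x, v2 M x * (w j) x * (starRingEnd ℂ) (φ j x)‖ := by
    rw [Filter.eventually_all]
    intro j
    exact (d8e_norm_ev (hl1 j)).and (d8e_norm_ev (hl2 j))
  obtain ⟨M, hM⟩ := hev.exists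
  have hfin := hG (r / 32 / 2) (by positivity)
  have hiff : ∀ (x ξ : Ed d), r / 32 < 2 * (Q x * ‖m ξ‖⁻¹) ↔ r / 32 / 2 < Q x * ‖m ξ‖⁻¹ := by
    intro x ξ
    constructor <;> intro h <;> linarith
  have hvol : volume (A M) < ⊤ := by
    refine lt_of_le_of_lt (measure_mono ?_) (hQfin ((2 : ℝ) ^ (-(M : ℤ))) (by positivity))
    intro x hx
    rw [hA] at hx
    exact hx.1
  have hGm : Measurable fun ξ => ‖m ξ‖⁻¹ := hmm.norm.inv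
  obtain ⟨S1, hS10, hS1s, hS1⟩ := cw d N w hwo Q (fun ξ => ‖m ξ‖⁻¹) hQm hGm hQ0
    (fun ξ => inv_pos.mpr (hmpos ξ)) (v1 M)
    (by rw [hv1]; exact hsm.indicator (hAm M))
    (by
      intro x
      rw [hv1]
      by_cases hx : x ∈ A M
      · simp only [Set.indicator_of_mem hx]
        rw [Complex.norm_real, Real.norm_eq_abs, sq_abs, Real.sq_sqrt (hQ0 x).le]
      · simp only [Set.indicator_of_notMem hx]
        rw [norm_zero]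
        have := hQ0 x
        nlinarith)
    M
    (by
      intro x hx
      have hxA : x ∈ A M := by
        by_contra hcon
        apply hx
        rw [hv1]
        exact Set.indicator_of_notMem hcon _
      rw [hA] at hxA
      exact hxA)
    (by
      refine lt_of_le_of_lt (measure_mono ?_) hvol
      intro x hx
      by_contra hcon
      apply hx
      rw [hv1]
      exact Set.indicator_of_notMem hcon _)
    (r / 32) (by positivity) (by simp only [hiff]; exact hfin)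
  obtain ⟨S2, hS20, hS2s, hS2⟩ := cw d N w hwo Q (fun ξ => ‖m ξ‖⁻¹) hQm hGm hQ0
    (fun ξ => inv_pos.mpr (hmpos ξ)) (v2 M)
    (by rw [hv2]; exact (hV.div hsm).indicator (hAm M))
    (by
      intro x
      rw [hv2]
      by_cases hx : x ∈ A M
      · simp only [Set.indicator_of_mem hx]
        rw [norm_div, Complex.norm_real, Real.norm_eq_abs, div_pow, sq_abs,
          Real.sq_sqrt (hQ0 x).le, div_le_iff₀ (hQ0 x)]
        have h1 := hVQ x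
        have h2 := norm_nonneg (V x)
        nlinarith
      · simp only [Set.indicator_of_notMem hx]
        rw [norm_zero]
        have := hQ0 x
        nlinarith)
    M
    (by
      intro x hx
      have hxA : x ∈ A M := by
        by_contra hcon
        apply hx
        rw [hv2]
        exact Set.indicator_of_notMem hcon _
      rw [hA] at hxA
      exact hxA)
    (by
      refine lt_of_le_of_lt (measure_mono ?_) hvol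
      intro x hx
      by_contra hcon
      apply hx
      rw [hv2]
      exact Set.indicator_of_notMem hcon _)
    (r / 32) (by positivity) (by simp only [hiff]; exact hfin)
  -- norms of `l_j`
  have hlj : ∀ j, ‖∫ x, (Q x : ℂ) * (starRingEnd ℂ) (u j x) * ψ j x‖ =
      ‖∫ x, (Q x : ℂ) * u j x * (starRingEnd ℂ) (ψ j x)‖ := by
    intro j
    rw [← RCLike.norm_conj, ← integral_conj]
    congr 1
    apply integral_congr_ae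
    refine Filter.Eventually.of_forall fun x => ?_
    show (starRingEnd ℂ) ((Q x : ℂ) * (starRingEnd ℂ) (u j x) * ψ j x) = _
    rw [map_mul, map_mul, Complex.conj_ofReal, Complex.conj_conj]
  have hbound : ∀ j, r ≤ ‖∫ x, (Q x : ℂ) * (starRingEnd ℂ) (u j x) * ψ j x‖ →
      ‖∫ x, (Q x : ℂ) * (starRingEnd ℂ) (u j x) * ψ j x‖ ≤ 8 * (S1 j + S2 j) := by
    intro j hj
    obtain ⟨hM1, hM2⟩ := hM j
    have g1 := hS1 j (ψ j) (hψI j)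
    have g2 := hS2 j (φ j) (hφI j)
    rw [hψX j] at g1
    rw [hφX j] at g2
    rw [hφV j, Complex.norm_real, Real.norm_eq_abs, abs_of_nonneg (hX0 j)] at hM2
    rw [← hlj j] at hM1
    refine d8e_num _ (X j) _ _ r (S1 j) (S2 j) hr (hX0 j) (hS10 j) (hS20 j) rfl rfl hj
      (le_trans ?_ g1) (le_trans ?_ g2)
    · exact pow_le_pow_left₀ (by positivity) hM1 2
    · exact pow_le_pow_left₀ (by have := hX0 j; positivity) hM2 2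
  obtain ⟨T, hT⟩ : ∃ T : ℝ≥0∞, T = ∫⁻ x : Ed d, ∫⁻ ξ : Ed d,
      (if r / 64 < Q x * ‖m ξ‖⁻¹ then ENNReal.ofReal (Q x * ‖m ξ‖⁻¹) else 0) := ⟨_, rfl⟩
  have hr64 : r / 32 / 2 = r / 64 := by ring
  simp only [hiff, hr64, ← hT] at hS1s hS2s
  rw [← hT]
  have hsum : ∑ j ∈ Finset.univ.filter (fun j =>
        r ≤ ‖∫ x, (Q x : ℂ) * (starRingEnd ℂ) (u j x) * ψ j x‖),
        ‖∫ x, (Q x : ℂ) * (starRingEnd ℂ) (u j x) * ψ j x‖ ≤ 8 * (∑ j, S1 j + ∑ j, S2 j) := by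
    calc _ ≤ ∑ j ∈ Finset.univ.filter (fun j =>
        r ≤ ‖∫ x, (Q x : ℂ) * (starRingEnd ℂ) (u j x) * ψ j x‖), 8 * (S1 j + S2 j) :=
          Finset.sum_le_sum fun j hj => hbound j (Finset.mem_filter.mp hj).2
      _ ≤ ∑ j, 8 * (S1 j + S2 j) := Finset.sum_le_sum_of_subset_of_nonneg (Finset.filter_subset _ _)
          fun j _ _ => by have := hS10 j; have := hS20 j; positivity
      _ = 8 * (∑ j, S1 j + ∑ j, S2 j) := by rw [← Finset.mul_sum, Finset.sum_add_distrib]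
  have hn1 : 0 ≤ ∑ j, S1 j := Finset.sum_nonneg fun j _ => hS10 j
  have hn2 : 0 ≤ ∑ j, S2 j := Finset.sum_nonneg fun j _ => hS20 j
  calc ENNReal.ofReal _ ≤ ENNReal.ofReal (8 * (∑ j, S1 j + ∑ j, S2 j)) := ENNReal.ofReal_le_ofReal hsum
    _ = 8 * (ENNReal.ofReal (∑ j, S1 j) + ENNReal.ofReal (∑ j, S2 j)) := by
        rw [ENNReal.ofReal_mul (by norm_num), ENNReal.ofReal_add hn1 hn2]
        norm_num
    _ ≤ 8 * (T + T) := by gcongr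
    _ = 16 * T := by ring
    _ ≤ 64 * T := by gcongr; norm_num

end K08
end Pool.Agent.Helper209.CX
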