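import Mathlib
import Pool.Agent.Helper209.CX.DDefs

namespace Pool.Agent.Helper209.CX

namespace K09
open MeasureTheory ENNReal FourierTransform




namespace D9

/-- the symbol of the Laplacian -/
noncomputable def lam {d : ℕ} (ξ : Ed d) : ℝ := (2 * Real.pi * ‖ξ‖) ^ 2

noncomputable def mm {d : ℕ} (k : ℂ) (ξ : Ed d) : ℂ := (((lam ξ : ℝ) : ℂ) - k ^ 2)⁻¹

theorem lam_nonneg {d : ℕ} (ξ : Ed d) : 0 ≤ lam ξ := by unfold lam; positivity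

theorem le_lam {d : ℕ} (ξ : Ed d) : ‖ξ‖ ^ 2 ≤ lam ξ := by
  unfold lam
  have hpi : (3 : ℝ) < Real.pi := Real.pi_gt_three
  have h := norm_nonneg ξ
  have : ‖ξ‖ ≤ 2 * Real.pi * ‖ξ‖ := by nlinarith
  exact pow_le_pow_left₀ h this 2

noncomputable def cc (k : ℂ) : ℝ := k.im ^ 2 / (k.im ^ 2 + ‖k‖ ^ 2 + 1)

theorem cc_pos {k : ℂ} (hk : 0 < k.im) : 0 < cc k := by unfold cc; positivity

theorem lower {k : ℂ} (hk : 0 < k.im) (s : ℝ) (hs : 0 ≤ s) :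
    cc k * (1 + s ^ 2) ≤ ‖((s ^ 2 : ℝ) : ℂ) - k ^ 2‖ := by
  have hb := hk
  have e : ((s ^ 2 : ℝ) : ℂ) - k ^ 2 = ((s : ℂ) - k) * ((s : ℂ) + k) := by
    push_cast; ring
  have h1 : k.im ≤ ‖(s : ℂ) - k‖ := by
    have := Complex.abs_im_le_norm ((s : ℂ) - k)
    simp at this
    rwa [abs_of_pos hb] at this
  have h2 : k.im ≤ ‖(s : ℂ) + k‖ := by
    have := Complex.abs_im_le_norm ((s : ℂ) + k)
    simp at this
    rwa [abs_of_pos hb] at this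
  have h3 : k.im ^ 2 ≤ ‖((s ^ 2 : ℝ) : ℂ) - k ^ 2‖ := by
    rw [e, norm_mul, sq]
    exact mul_le_mul h1 h2 hb.le (norm_nonneg _)
  have h4 : s ^ 2 - ‖k‖ ^ 2 ≤ ‖((s ^ 2 : ℝ) : ℂ) - k ^ 2‖ := by
    have := norm_sub_norm_le (((s ^ 2 : ℝ) : ℂ)) (k ^ 2)
    rw [norm_pow, Complex.norm_real, Real.norm_of_nonneg (by positivity)] at this
    exact this
  set N := ‖((s ^ 2 : ℝ) : ℂ) - k ^ 2‖ with hN
  have hD : 0 < k.im ^ 2 + ‖k‖ ^ 2 + 1 := by positivity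
  have hθ : cc k * (k.im ^ 2 + ‖k‖ ^ 2 + 1) = k.im ^ 2 := by
    unfold cc; field_simp
  have hθ0 : 0 < cc k := cc_pos hk
  have hθ1 : cc k ≤ 1 := by
    unfold cc
    rw [div_le_one hD]
    nlinarith [sq_nonneg ‖k‖]
  have h5 : cc k * (s ^ 2 - ‖k‖ ^ 2) ≤ cc k * N := mul_le_mul_of_nonneg_left h4 hθ0.le
  have h6 : (1 - cc k) * k.im ^ 2 ≤ (1 - cc k) * N :=
    mul_le_mul_of_nonneg_left h3 (by linarith)
  nlinarith

theorem lower' {d : ℕ} {k : ℂ} (hk : 0 < k.im) (ξ : Ed d) :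
    cc k * (1 + lam ξ) ≤ ‖((lam ξ : ℝ) : ℂ) - k ^ 2‖ := by
  unfold lam
  exact lower hk (2 * Real.pi * ‖ξ‖) (by positivity)

theorem ne_zero {d : ℕ} {k : ℂ} (hk : 0 < k.im) (ξ : Ed d) : ((lam ξ : ℝ) : ℂ) - k ^ 2 ≠ 0 := by
  have h := lower' hk ξ
  have h1 : 0 < cc k * (1 + lam ξ) := mul_pos (cc_pos hk) (by linarith [lam_nonneg ξ])
  exact norm_pos_iff.1 (lt_of_lt_of_le h1 h)

theorem mm_cont {d : ℕ} {k : ℂ} (hk : 0 < k.im) : Continuous (mm k : Ed d → ℂ) := by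
  unfold mm
  refine Continuous.inv₀ ?_ (fun ξ => ne_zero hk ξ)
  unfold lam
  fun_prop

/-- if `c (1+λ) ≤ |λ - k²|` then `|m_k| (1+λ) ≤ 1/c` -/
theorem mm_bound {d : ℕ} {k : ℂ} {c : ℝ} (hc : 0 < c) (ξ : Ed d)
    (h : c * (1 + lam ξ) ≤ ‖((lam ξ : ℝ) : ℂ) - k ^ 2‖) : ‖mm k ξ‖ * (1 + lam ξ) ≤ 1 / c := by
  unfold mm
  have h0 : 0 < 1 + lam ξ := by linarith [lam_nonneg ξ]
  have hp : 0 < c * (1 + lam ξ) := mul_pos hc h0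
  rw [norm_inv, inv_mul_eq_div, div_le_div_iff₀ (lt_of_lt_of_le hp h) hc]
  linarith

theorem exists_mult {d : ℕ} (g : L2d d) (m : Ed d → ℂ) (hm : Continuous m) (K : ℝ)
    (hK : ∀ ξ, ‖m ξ‖ ≤ K) :
    ∃ P : L2d d, (fun ξ : Ed d => (𝓕 P : L2d d) ξ) =ᵐ[volume] fun ξ => (𝓕 g : L2d d) ξ * m ξ := by
  have h1 : MemLp (fun ξ : Ed d => (𝓕 g : L2d d) ξ * m ξ) 2 volume := by
    refine MemLp.of_le_mul (c := K) (Lp.memLp (𝓕 g : L2d d)) ?_ ?_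
    · exact (Lp.aestronglyMeasurable (𝓕 g : L2d d)).mul hm.aestronglyMeasurable
    · refine Filter.Eventually.of_forall (fun ξ => ?_)
      rw [norm_mul, mul_comm]
      exact mul_le_mul_of_nonneg_right (hK ξ) (norm_nonneg _)
  refine ⟨𝓕⁻ (h1.toLp _), ?_⟩
  have : (𝓕 (𝓕⁻ (h1.toLp _) : L2d d) : L2d d) = h1.toLp _ := FourierTransform.fourier_fourierInv_eq _
  rw [this]
  exact h1.coeFn_toLp

theorem inH1_of_mult {d : ℕ} (g u : L2d d) (m : Ed d → ℂ) (K : ℝ)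
    (hu : (fun ξ : Ed d => (𝓕 u : L2d d) ξ) =ᵐ[volume] fun ξ => (𝓕 g : L2d d) ξ * m ξ)
    (hK : ∀ ξ, ‖ξ‖ * ‖m ξ‖ ≤ K) : InH1 u := by
  unfold InH1
  refine MemLp.of_le_mul (c := K) (Lp.memLp (𝓕 g : L2d d)) ?_ ?_
  · refine AEStronglyMeasurable.mul ?_ (Lp.aestronglyMeasurable (𝓕 u : L2d d))
    exact Continuous.aestronglyMeasurable (by fun_prop)
  · filter_upwards [hu] with ξ hξ
    rw [hξ]
    rw [norm_mul, norm_mul, Complex.norm_real, norm_norm]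
    calc ‖ξ‖ * (‖(𝓕 g : L2d d) ξ‖ * ‖m ξ‖) = (‖ξ‖ * ‖m ξ‖) * ‖(𝓕 g : L2d d) ξ‖ := by ring
      _ ≤ K * ‖(𝓕 g : L2d d) ξ‖ := mul_le_mul_of_nonneg_right (hK ξ) (norm_nonneg _)

theorem energy_of_mult {d : ℕ} (g u : L2d d) (m : Ed d → ℂ) (K : ℝ)
    (hu : (fun ξ : Ed d => (𝓕 u : L2d d) ξ) =ᵐ[volume] fun ξ => (𝓕 g : L2d d) ξ * m ξ)
    (hK : ∀ ξ, (1 + ‖ξ‖ ^ 2) * ‖m ξ‖ ^ 2 ≤ K) :
    ∫ ξ : Ed d, (1 + ‖ξ‖ ^ 2) * ‖(𝓕 u : L2d d) ξ‖ ^ 2 ≤ K * ∫ ξ : Ed d, ‖(𝓕 g : L2d d) ξ‖ ^ 2 := by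
  rw [← integral_const_mul]
  refine integral_mono_of_nonneg ?_ ?_ ?_
  · exact Filter.Eventually.of_forall (fun ξ => by positivity)
  · exact (Lp.memLp (𝓕 g : L2d d)).integrable_norm_pow (by norm_num) |>.const_mul K
  · filter_upwards [hu] with ξ hξ
    have hξ' : (𝓕 u : L2d d) ξ = (𝓕 g : L2d d) ξ * m ξ := hξ
    rw [hξ', norm_mul, mul_pow]
    calc (1 + ‖ξ‖ ^ 2) * (‖(𝓕 g : L2d d) ξ‖ ^ 2 * ‖m ξ‖ ^ 2)
        = ((1 + ‖ξ‖ ^ 2) * ‖m ξ‖ ^ 2) * ‖(𝓕 g : L2d d) ξ‖ ^ 2 := by ring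
      _ ≤ K * ‖(𝓕 g : L2d d) ξ‖ ^ 2 := mul_le_mul_of_nonneg_right (hK ξ) (by positivity)

/-- `|ξ| |m| ≤ K` from `(1+λ)|m| ≤ K` -/
theorem norm_mul_le {d : ℕ} (ξ : Ed d) {a K : ℝ} (ha : 0 ≤ a) (h : a * (1 + lam ξ) ≤ K) :
    ‖ξ‖ * a ≤ K := by
  have h1 : ‖ξ‖ ≤ 1 + lam ξ := by
    have := le_lam ξ
    nlinarith [sq_nonneg (‖ξ‖ - 1), norm_nonneg ξ]
  nlinarith

theorem norm_le {d : ℕ} (ξ : Ed d) {a K : ℝ} (ha : 0 ≤ a) (h : a * (1 + lam ξ) ≤ K) :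
    a ≤ K := by
  have h1 := lam_nonneg ξ
  nlinarith

theorem sq_le {d : ℕ} (ξ : Ed d) {a K : ℝ} (ha : 0 ≤ a) (h : a * (1 + lam ξ) ≤ K) :
    (1 + ‖ξ‖ ^ 2) * a ^ 2 ≤ K ^ 2 := by
  have h1 := lam_nonneg ξ
  have h2 := le_lam ξ
  have h3 : (1 + ‖ξ‖ ^ 2) ≤ (1 + lam ξ) ^ 2 := by nlinarith
  have h4 : (a * (1 + lam ξ)) ^ 2 ≤ K ^ 2 :=
    pow_le_pow_left₀ (mul_nonneg ha (by linarith)) h 2
  calc (1 + ‖ξ‖ ^ 2) * a ^ 2 ≤ (1 + lam ξ) ^ 2 * a ^ 2 :=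
        mul_le_mul_of_nonneg_right h3 (by positivity)
    _ = (a * (1 + lam ξ)) ^ 2 := by ring
    _ ≤ K ^ 2 := h4

end D9

open D9 in
/-- analyticity of `k ↦ ∫ b · R₀(k) g` -/
theorem d9_analytic (d : ℕ) (b : Ed d → ℂ) (C : ℝ) (hC : 0 < C)
    (hb : ∀ φ : L2d d, InH1 φ → Integrable (fun x => b x * φ x) volume ∧
      ‖∫ x, b x * φ x‖ ^ 2 ≤ C * ∫ ξ : Ed d, (1 + ‖ξ‖ ^ 2) * ‖(𝓕 φ : L2d d) ξ‖ ^ 2)
    (g : L2d d) (R : ℂ → L2d d)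
    (hR : ∀ k : ℂ, 0 < k.im → (fun ξ : Ed d => (𝓕 (R k) : L2d d) ξ) =ᵐ[volume] fun ξ =>
      (𝓕 g : L2d d) ξ * ((((2 * Real.pi * ‖ξ‖) ^ 2 : ℝ) : ℂ) - k ^ 2)⁻¹) :
    (∀ k : ℂ, 0 < k.im → InH1 (R k)) ∧
    DifferentiableOn ℂ (fun k : ℂ => ∫ x, b x * (R k) x) {k : ℂ | 0 < k.im} := by
  have hR' : ∀ k : ℂ, 0 < k.im → (fun ξ : Ed d => (𝓕 (R k) : L2d d) ξ) =ᵐ[volume] fun ξ =>
      (𝓕 g : L2d d) ξ * mm k ξ := hR
  have hH : ∀ k : ℂ, 0 < k.im → InH1 (R k) := by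
    intro k hk
    exact inH1_of_mult g (R k) (mm k) (1 / cc k) (hR' k hk)
      (fun ξ => norm_mul_le ξ (norm_nonneg _) (mm_bound (cc_pos hk) ξ (lower' hk ξ)))
  refine ⟨hH, ?_⟩
  intro k0 hk0
  have hk0' : 0 < k0.im := hk0
  apply DifferentiableAt.differentiableWithinAt
  set c0 := cc k0 with hc0
  have hc0pos : 0 < c0 := cc_pos hk0'
  set c := c0 / 2 with hc
  have hcpos : 0 < c := by positivity
  have hm0 : ∀ ξ : Ed d, ‖mm k0 ξ‖ * (1 + lam ξ) ≤ 1 / c := by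
    intro ξ
    refine mm_bound hcpos ξ (le_trans ?_ (lower' hk0' ξ))
    have := lam_nonneg ξ
    have h2 : c ≤ c0 := by rw [hc]; linarith
    exact mul_le_mul_of_nonneg_right h2 (by linarith)
  obtain ⟨P, hP⟩ := exists_mult g (fun ξ => 2 * k0 * (mm k0 ξ) ^ 2)
    (by have := mm_cont (d := d) hk0'; fun_prop) (‖2 * k0‖ * (1 / c) ^ 2)
    (fun ξ => by
      rw [norm_mul, norm_pow]
      exact mul_le_mul_of_nonneg_left
        (pow_le_pow_left₀ (norm_nonneg _) (norm_le ξ (norm_nonneg _) (hm0 ξ)) 2) (norm_nonneg _))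
  have hPH : InH1 P := by
    refine inH1_of_mult g P _ (‖2 * k0‖ * ((1 / c) * (1 / c))) hP (fun ξ => ?_)
    rw [norm_mul, norm_pow]
    have h1 := norm_mul_le ξ (norm_nonneg _) (hm0 ξ)
    have h2 := norm_le ξ (norm_nonneg _) (hm0 ξ)
    calc ‖ξ‖ * (‖2 * k0‖ * ‖mm k0 ξ‖ ^ 2) = ‖2 * k0‖ * ((‖ξ‖ * ‖mm k0 ξ‖) * ‖mm k0 ξ‖) := by ring
      _ ≤ ‖2 * k0‖ * ((1 / c) * (1 / c)) := by
          refine mul_le_mul_of_nonneg_left ?_ (norm_nonneg _)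
          exact mul_le_mul h1 h2 (norm_nonneg _) (by positivity)
  set G : ℝ := ∫ ξ : Ed d, ‖(𝓕 g : L2d d) ξ‖ ^ 2 with hG
  have hG0 : 0 ≤ G := integral_nonneg (fun ξ => by positivity)
  set K : ℝ := ‖2 * k0‖ * (2 * ‖k0‖ + 1) * (1 / c) ^ 3 + (1 / c) ^ 2 with hK
  have hK0 : 0 ≤ K := by positivity
  -- neighbourhood
  have hcont : ContinuousAt (fun k : ℂ => ‖k ^ 2 - k0 ^ 2‖) k0 := by fun_prop
  have hev1 : ∀ᶠ k in nhds k0, ‖k ^ 2 - k0 ^ 2‖ < c := by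
    have : ‖k0 ^ 2 - k0 ^ 2‖ < c := by simpa using hcpos
    exact hcont.eventually (gt_mem_nhds this)
  have hev2 : ∀ᶠ k in nhds k0, 0 < k.im :=
    (isOpen_lt continuous_const Complex.continuous_im).mem_nhds hk0'
  have hev3 : ∀ᶠ k in nhds k0, ‖k - k0‖ < 1 := by
    have : ContinuousAt (fun k : ℂ => ‖k - k0‖) k0 := by fun_prop
    refine this.eventually (gt_mem_nhds (by simp))
  have key : ∀ᶠ k in nhds k0, ‖(∫ x, b x * (R k) x) - (∫ x, b x * (R k0) x) -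
      (k - k0) * ∫ x, b x * P x‖ ≤ (Real.sqrt (C * (K ^ 2 * G))) * ‖k - k0‖ ^ 2 := by
    filter_upwards [hev1, hev2, hev3] with k h1 h2 h3
    have hmk : ∀ ξ : Ed d, ‖mm k ξ‖ * (1 + lam ξ) ≤ 1 / c := by
      intro ξ
      refine mm_bound hcpos ξ ?_
      have h4 := lower' hk0' ξ
      have h5 : ‖((lam ξ : ℝ) : ℂ) - k0 ^ 2‖ - ‖k ^ 2 - k0 ^ 2‖ ≤ ‖((lam ξ : ℝ) : ℂ) - k ^ 2‖ := by
        have e : ((lam ξ : ℝ) : ℂ) - k ^ 2 = (((lam ξ : ℝ) : ℂ) - k0 ^ 2) - (k ^ 2 - k0 ^ 2) := by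
          ring
        rw [e]
        exact norm_sub_norm_le _ _
      have h6 := lam_nonneg ξ
      have h7 : c * (1 + lam ξ) + c * (1 + lam ξ) = c0 * (1 + lam ξ) := by rw [hc]; ring
      have h8 : c ≤ c * (1 + lam ξ) := by nlinarith
      rw [← hc0] at h4
      linarith
    set Q : L2d d := R k - R k0 - (k - k0) • P with hQ
    have hFQ : (fun ξ : Ed d => (𝓕 Q : L2d d) ξ) =ᵐ[volume] fun ξ => (𝓕 g : L2d d) ξ *
        ((k - k0) ^ 2 * (2 * k0 * (k + k0) * (mm k ξ * (mm k0 ξ) ^ 2) + mm k ξ * mm k0 ξ)) := by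
      have e1 : (𝓕 Q : L2d d) = (𝓕 (R k) : L2d d) - (𝓕 (R k0) : L2d d) -
          (k - k0) • (𝓕 P : L2d d) := by
        change Lp.fourierTransformₗᵢ (Ed d) ℂ Q = Lp.fourierTransformₗᵢ (Ed d) ℂ (R k) -
          Lp.fourierTransformₗᵢ (Ed d) ℂ (R k0) - (k - k0) • Lp.fourierTransformₗᵢ (Ed d) ℂ P
        rw [hQ, map_sub, map_sub, map_smul]
      rw [e1]
      filter_upwards [Lp.coeFn_sub ((𝓕 (R k) : L2d d) - (𝓕 (R k0) : L2d d))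
        ((k - k0) • (𝓕 P : L2d d)), Lp.coeFn_sub (𝓕 (R k) : L2d d) (𝓕 (R k0) : L2d d),
        Lp.coeFn_smul (k - k0) (𝓕 P : L2d d), hR' k h2, hR' k0 hk0', hP] with ξ a1 a2 a3 a4 a5 a6
      rw [a1, Pi.sub_apply, a2, Pi.sub_apply, a3, Pi.smul_apply, smul_eq_mul]
      have a4' : (𝓕 (R k) : L2d d) ξ = (𝓕 g : L2d d) ξ * mm k ξ := a4
      have a5' : (𝓕 (R k0) : L2d d) ξ = (𝓕 g : L2d d) ξ * mm k0 ξ := a5
      have a6' : (𝓕 P : L2d d) ξ = (𝓕 g : L2d d) ξ * (2 * k0 * (mm k0 ξ) ^ 2) := a6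
      rw [a4', a5', a6']
      have b1 := ne_zero h2 ξ
      have b2 := ne_zero hk0' ξ
      unfold mm
      field_simp
      ring
    have hmult : ∀ ξ : Ed d, ‖(k - k0) ^ 2 * (2 * k0 * (k + k0) * (mm k ξ * (mm k0 ξ) ^ 2) +
        mm k ξ * mm k0 ξ)‖ * (1 + lam ξ) ≤ ‖k - k0‖ ^ 2 * K := by
      intro ξ
      have n1 := norm_le ξ (norm_nonneg _) (hm0 ξ)
      have n0 := hmk ξ
      have l0 := lam_nonneg ξ
      have hcinv : 0 ≤ 1 / c := by positivity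
      have s1 : ‖k + k0‖ ≤ 2 * ‖k0‖ + 1 := by
        have : k + k0 = (k - k0) + (k0 + k0) := by ring
        rw [this]
        calc ‖(k - k0) + (k0 + k0)‖ ≤ ‖k - k0‖ + ‖k0 + k0‖ := norm_add_le _ _
          _ ≤ ‖k - k0‖ + (‖k0‖ + ‖k0‖) := by gcongr; exact norm_add_le _ _
          _ ≤ 2 * ‖k0‖ + 1 := by linarith
      rw [norm_mul, norm_pow, mul_assoc]
      refine mul_le_mul_of_nonneg_left ?_ (by positivity)
      calc ‖2 * k0 * (k + k0) * (mm k ξ * mm k0 ξ ^ 2) + mm k ξ * mm k0 ξ‖ * (1 + lam ξ)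
          ≤ (‖2 * k0 * (k + k0) * (mm k ξ * mm k0 ξ ^ 2)‖ + ‖mm k ξ * mm k0 ξ‖) * (1 + lam ξ) :=
            mul_le_mul_of_nonneg_right (norm_add_le _ _) (by linarith)
        _ = ‖2 * k0‖ * ‖k + k0‖ * ((‖mm k ξ‖ * (1 + lam ξ)) * ‖mm k0 ξ‖ ^ 2) +
            (‖mm k ξ‖ * (1 + lam ξ)) * ‖mm k0 ξ‖ := by
            rw [norm_mul, norm_mul (2 * k0), norm_mul (mm k ξ), norm_pow, norm_mul (mm k ξ)]
            ring
        _ ≤ ‖2 * k0‖ * (2 * ‖k0‖ + 1) * ((1 / c) * (1 / c) ^ 2) + (1 / c) * (1 / c) := by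
            gcongr
        _ = K := by rw [hK]; ring
    have hQH : InH1 Q := inH1_of_mult g Q _ (‖k - k0‖ ^ 2 * K) hFQ
      (fun ξ => norm_mul_le ξ (norm_nonneg _) (hmult ξ))
    have hE := energy_of_mult g Q _ ((‖k - k0‖ ^ 2 * K) ^ 2) hFQ
      (fun ξ => sq_le ξ (norm_nonneg _) (hmult ξ))
    have hI := (hb Q hQH).2
    have hlin : ∫ x, b x * Q x = (∫ x, b x * (R k) x) - (∫ x, b x * (R k0) x) -
        (k - k0) * ∫ x, b x * P x := by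
      have i1 := (hb (R k) (hH k h2)).1
      have i2 := (hb (R k0) (hH k0 hk0')).1
      have i3 := (hb P hPH).1
      have i12 : Integrable (fun x => b x * (R k) x - b x * (R k0) x) volume := i1.sub i2
      rw [← integral_const_mul, ← integral_sub i1 i2, ← integral_sub i12
        (i3.const_mul (k - k0))]
      refine integral_congr_ae ?_
      filter_upwards [Lp.coeFn_sub (R k - R k0) ((k - k0) • P), Lp.coeFn_sub (R k) (R k0),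
        Lp.coeFn_smul (k - k0) P] with x a1 a2 a3
      rw [hQ, a1, Pi.sub_apply, a2, Pi.sub_apply, a3, Pi.smul_apply, smul_eq_mul]
      ring
    rw [← hlin]
    have hfin : ‖∫ x, b x * Q x‖ ^ 2 ≤ (Real.sqrt (C * (K ^ 2 * G)) * ‖k - k0‖ ^ 2) ^ 2 := by
      rw [mul_pow, Real.sq_sqrt (by positivity)]
      calc _ ≤ C * ∫ ξ : Ed d, (1 + ‖ξ‖ ^ 2) * ‖(𝓕 Q : L2d d) ξ‖ ^ 2 := hI
        _ ≤ C * ((‖k - k0‖ ^ 2 * K) ^ 2 * G) := mul_le_mul_of_nonneg_left hE hC.le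
        _ = C * (K ^ 2 * G) * (‖k - k0‖ ^ 2) ^ 2 := by ring
    exact (sq_le_sq₀ (norm_nonneg _) (by positivity)).1 hfin
  have hderiv : HasDerivAt (fun k : ℂ => ∫ x, b x * (R k) x) (∫ x, b x * P x) k0 := by
    rw [hasDerivAt_iff_isLittleO]
    have hO : (fun k : ℂ => (∫ x, b x * (R k) x) - (∫ x, b x * (R k0) x) -
        (k - k0) • ∫ x, b x * P x) =O[nhds k0] (fun k => ‖k - k0‖ ^ 2) := by
      refine Asymptotics.IsBigO.of_bound (Real.sqrt (C * (K ^ 2 * G))) ?_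
      filter_upwards [key] with k hk
      simpa [smul_eq_mul] using hk
    refine hO.trans_isLittleO ?_
    have : (fun k : ℂ => ‖k - k0‖ ^ 2) =o[nhds k0] (fun k : ℂ => ‖k - k0‖) := by
      have h1 : (fun k : ℂ => ‖k - k0‖ ^ 2) = fun k => ‖k - k0‖ * ‖k - k0‖ := by
        funext k; ring
      rw [h1]
      have h2 : (fun k : ℂ => ‖k - k0‖) =o[nhds k0] (fun _ : ℂ => (1 : ℝ)) := by
        rw [Asymptotics.isLittleO_one_iff]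
        have : ContinuousAt (fun k : ℂ => ‖k - k0‖) k0 := by fun_prop
        simpa [ContinuousAt] using this
      simpa using h2.mul_isBigO (Asymptotics.isBigO_refl (fun k : ℂ => ‖k - k0‖) (nhds k0))
    exact this.trans_isBigO (Asymptotics.isBigO_refl _ _).norm_left
  exact hderiv.differentiableAt

open D9 in
/-- existence of the free resolvent -/
theorem d9_exists (d : ℕ) (g : L2d d) : ∃ R : ℂ → L2d d,
    ∀ k : ℂ, 0 < k.im → (fun ξ : Ed d => (𝓕 (R k) : L2d d) ξ) =ᵐ[volume] fun ξ =>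
      (𝓕 g : L2d d) ξ * ((((2 * Real.pi * ‖ξ‖) ^ 2 : ℝ) : ℂ) - k ^ 2)⁻¹ := by
  classical
  have h : ∀ k : ℂ, ∃ P : L2d d, 0 < k.im → (fun ξ : Ed d => (𝓕 P : L2d d) ξ) =ᵐ[volume]
      fun ξ => (𝓕 g : L2d d) ξ * mm k ξ := by
    intro k
    by_cases hk : 0 < k.im
    · obtain ⟨P, hP⟩ := exists_mult g (mm k) (mm_cont hk) (1 / cc k)
        (fun ξ => norm_le ξ (norm_nonneg _) (mm_bound (cc_pos hk) ξ (lower' hk ξ)))
      exact ⟨P, fun _ => hP⟩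
    · exact ⟨0, fun h => absurd h hk⟩
  choose R hR using h
  exact ⟨R, hR⟩

end K09
end Pool.Agent.Helper209.CX
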