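import Mathlib
import Pool.Agent.Helper209.CX.DDefs

namespace Pool.Agent.Helper209.CX

namespace K15
open MeasureTheory ENNReal FourierTransform



theorem lin_coe {d N : ℕ} (c : Fin N → ℂ) (u : Fin N → L2d d) :
    ((∑ j, c j • u j : L2d d) : Ed d → ℂ) =ᵐ[volume] fun x => ∑ j, c j * u j x := by
  have h1 := Lp.coeFn_finsetSum Finset.univ (fun j => c j • u j)
  have h2 : ∀ᵐ x ∂(volume : Measure (Ed d)), ∀ j, (c j • u j : L2d d) x = c j * u j x := by
    rw [ae_all_iff]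
    intro j
    filter_upwards [Lp.coeFn_smul (c j) (u j)] with x hx
    rw [hx]; rfl
  filter_upwards [h1, h2] with x hx1 hx2
  rw [hx1, Finset.sum_apply]
  exact Finset.sum_congr rfl fun j _ => hx2 j

theorem lin_F {d N : ℕ} (c : Fin N → ℂ) (u : Fin N → L2d d) :
    𝓕 (∑ j, c j • u j : L2d d) = ∑ j, c j • (𝓕 (u j) : L2d d) := by
  show Lp.fourierTransformₗᵢ (Ed d) ℂ (∑ j, c j • u j) = _
  rw [map_sum]
  refine Finset.sum_congr rfl fun j _ => ?_
  rw [map_smul]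
  rfl

theorem inH1_lin {d N : ℕ} (c : Fin N → ℂ) (u : Fin N → L2d d) (hu : ∀ j, InH1 (u j)) :
    InH1 (∑ j, c j • u j) := by
  unfold InH1
  rw [lin_F]
  have h1 := lin_coe c (fun j => (𝓕 (u j) : L2d d))
  have h2 : MemLp (fun ξ : Ed d => ∑ j, c j * ((‖ξ‖ : ℂ) * (𝓕 (u j) : L2d d) ξ)) 2 volume :=
    memLp_finsetSum _ fun j _ => (hu j).const_mul (c j)
  refine h2.ae_eq ?_
  filter_upwards [h1] with ξ hξ
  rw [hξ, Finset.mul_sum]
  exact Finset.sum_congr rfl fun j _ => by ring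

theorem lin_conj {d : ℕ} (φ : Ed d → ℂ) (h : MemLp φ 2 volume) :
    MemLp (fun x => (starRingEnd ℂ) (φ x)) 2 volume := h.star

theorem lin_dint {d : ℕ} (u φ : L2d d) (hu : InH1 u) (hφ : InH1 φ) :
    Integrable (fun ξ : Ed d => (((2 * Real.pi * ‖ξ‖) ^ 2 : ℝ) : ℂ) * (𝓕 u : L2d d) ξ *
    (starRingEnd ℂ) ((𝓕 φ : L2d d) ξ)) volume := by
  have h1 := (hu.integrable_mul (lin_conj _ hφ)).const_mul (((2 * Real.pi) ^ 2 : ℝ) : ℂ)
  refine h1.congr (Filter.Eventually.of_forall fun ξ => ?_)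
  simp only [Pi.mul_apply, map_mul, Complex.conj_ofReal]
  push_cast
  ring

theorem lin_fint {d : ℕ} (f φ : L2d d) :
    Integrable (fun x : Ed d => f x * (starRingEnd ℂ) (φ x)) volume :=
  (Lp.memLp f).integrable_mul (lin_conj _ (Lp.memLp φ))

theorem lin_D {d N : ℕ} (c : Fin N → ℂ) (u : Fin N → L2d d) (φ : L2d d) (hu : ∀ j, InH1 (u j))
    (hφ : InH1 φ) : dirichlet (∑ j, c j • u j) φ = ∑ j, c j * dirichlet (u j) φ := by
  unfold dirichlet
  rw [lin_F]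
  have h1 := lin_coe c (fun j => (𝓕 (u j) : L2d d))
  have h2 : ∀ᵐ ξ ∂(volume : Measure (Ed d)), (((2 * Real.pi * ‖ξ‖) ^ 2 : ℝ) : ℂ) *
      (∑ j, c j • (𝓕 (u j) : L2d d) : L2d d) ξ * (starRingEnd ℂ) ((𝓕 φ : L2d d) ξ) =
      ∑ j, c j * ((((2 * Real.pi * ‖ξ‖) ^ 2 : ℝ) : ℂ) * (𝓕 (u j) : L2d d) ξ *
        (starRingEnd ℂ) ((𝓕 φ : L2d d) ξ)) := by
    filter_upwards [h1] with ξ hξ
    rw [hξ, Finset.mul_sum, Finset.sum_mul]
    exact Finset.sum_congr rfl fun j _ => by ring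
  rw [integral_congr_ae h2, integral_finsetSum _ fun j _ =>
    (lin_dint (u j) φ (hu j) hφ).const_mul (c j)]
  exact Finset.sum_congr rfl fun j _ => integral_const_mul _ _

theorem isHu_lin {d N : ℕ} (h : ℝ) (V : Ed d → ℂ) (c : Fin N → ℂ) (u f : Fin N → L2d d)
    (hu : ∀ j, IsHu h V (u j) (f j)) : IsHu h V (∑ j, c j • u j) (∑ j, c j • f j) := by
  refine ⟨inH1_lin c u fun j => (hu j).1, ?_⟩
  intro φ hφ
  have h1 := lin_coe c u
  have h2 := lin_coe c f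
  have e1 : (fun x => V x * (∑ j, c j • u j : L2d d) x * (starRingEnd ℂ) (φ x)) =ᵐ[volume]
      fun x => ∑ j, c j * (V x * u j x * (starRingEnd ℂ) (φ x)) := by
    filter_upwards [h1] with x hx
    rw [hx, Finset.mul_sum, Finset.sum_mul]
    exact Finset.sum_congr rfl fun j _ => by ring
  have e2 : (fun x => (∑ j, c j • f j : L2d d) x * (starRingEnd ℂ) (φ x)) =ᵐ[volume]
      fun x => ∑ j, c j * (f j x * (starRingEnd ℂ) (φ x)) := by
    filter_upwards [h2] with x hx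
    rw [hx, Finset.sum_mul]
    exact Finset.sum_congr rfl fun j _ => by ring
  have i1 : ∀ j, Integrable (fun x => c j * (V x * u j x * (starRingEnd ℂ) (φ x))) volume :=
    fun j => (((hu j).2 φ hφ).1).const_mul (c j)
  have i2 : ∀ j, Integrable (fun x => c j * (f j x * (starRingEnd ℂ) (φ x))) volume :=
    fun j => (lin_fint (f j) φ).const_mul (c j)
  refine ⟨(integrable_finsetSum _ fun j _ => i1 j).congr e1.symm, ?_⟩
  rw [integral_congr_ae e1, integral_congr_ae e2, integral_finsetSum _ fun j _ => i1 j,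
    integral_finsetSum _ fun j _ => i2 j, lin_D c u φ (fun j => (hu j).1) hφ, Finset.mul_sum,
    ← Finset.sum_add_distrib]
  refine Finset.sum_congr rfl fun j _ => ?_
  rw [integral_const_mul, integral_const_mul, ← ((hu j).2 φ hφ).2]
  ring

theorem int_lin {d N : ℕ} (b : Ed d → ℂ) (c : Fin N → ℂ) (u : Fin N → L2d d)
    (hb : ∀ j, Integrable (fun x => b x * u j x) volume) :
    Integrable (fun x => b x * (∑ j, c j • u j : L2d d) x) volume ∧
      ∫ x, b x * (∑ j, c j • u j : L2d d) x = ∑ j, c j * ∫ x, b x * u j x := by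
  have e1 : (fun x => b x * (∑ j, c j • u j : L2d d) x) =ᵐ[volume]
      fun x => ∑ j, c j * (b x * u j x) := by
    filter_upwards [lin_coe c u] with x hx
    rw [hx, Finset.mul_sum]
    exact Finset.sum_congr rfl fun j _ => by ring
  have i1 : ∀ j, Integrable (fun x => c j * (b x * u j x)) volume := fun j => (hb j).const_mul (c j)
  refine ⟨(integrable_finsetSum _ fun j _ => i1 j).congr e1.symm, ?_⟩
  rw [integral_congr_ae e1, integral_finsetSum _ fun j _ => i1 j]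
  exact Finset.sum_congr rfl fun j _ => integral_const_mul _ _

/-- scaling `h` to `1` -/
theorem isHu_scale {d : ℕ} (h : ℝ) (hh : 0 < h) (V : Ed d → ℂ) (u f : L2d d) (hu : IsHu h V u f) :
    IsHu 1 (fun x => V x / (h ^ 2 : ℝ)) u ((((h ^ 2 : ℝ) : ℂ)⁻¹) • f) := by
  refine ⟨hu.1, ?_⟩
  intro φ hφ
  obtain ⟨h1, h2⟩ := hu.2 φ hφ
  have hne : ((h ^ 2 : ℝ) : ℂ) ≠ 0 := by
    exact_mod_cast (by positivity : h ^ 2 ≠ 0)
  have e1 : (fun x => V x / ((h ^ 2 : ℝ) : ℂ) * u x * (starRingEnd ℂ) (φ x)) =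
      fun x => ((h ^ 2 : ℝ) : ℂ)⁻¹ * (V x * u x * (starRingEnd ℂ) (φ x)) := by
    funext x; rw [div_eq_mul_inv]; ring
  have e2 : (fun x => ((((h ^ 2 : ℝ) : ℂ)⁻¹) • f : L2d d) x * (starRingEnd ℂ) (φ x)) =ᵐ[volume]
      fun x => ((h ^ 2 : ℝ) : ℂ)⁻¹ * (f x * (starRingEnd ℂ) (φ x)) := by
    filter_upwards [Lp.coeFn_smul (((h ^ 2 : ℝ) : ℂ)⁻¹) f] with x hx
    rw [hx, Pi.smul_apply, smul_eq_mul]; ring
  refine ⟨?_, ?_⟩
  · rw [e1]; exact h1.const_mul _
  · rw [e1, integral_congr_ae e2, integral_const_mul, integral_const_mul, ← h2]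
    field_simp
    push_cast
    ring

/-- changing `V` on a null set -/
theorem isHu_congr {d : ℕ} (h : ℝ) (V V' : Ed d → ℂ) (hV : V =ᵐ[volume] V') (u f : L2d d)
    (hu : IsHu h V u f) : IsHu h V' u f := by
  refine ⟨hu.1, ?_⟩
  intro φ hφ
  obtain ⟨h1, h2⟩ := hu.2 φ hφ
  have e1 : (fun x => V x * u x * (starRingEnd ℂ) (φ x)) =ᵐ[volume]
      fun x => V' x * u x * (starRingEnd ℂ) (φ x) := by
    filter_upwards [hV] with x hx
    rw [hx]
  refine ⟨h1.congr e1, ?_⟩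
  rw [← integral_congr_ae e1]
  exact h2

end K15
end Pool.Agent.Helper209.CX
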