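import Mathlib
import Pool.Agent.Helper209.CX.DDefs
import Pool.Agent.Helper209.CX.C00
import Pool.Agent.Helper209.CX.K01
import Pool.Agent.Helper209.CX.K02
import Pool.Agent.Helper209.CX.K03
import Pool.Agent.Helper209.CX.K05
import Pool.Agent.Helper209.CX.K06
import Pool.Agent.Helper209.CX.K07
import Pool.Agent.Helper209.CX.K08
import Pool.Agent.Helper209.CX.K09
import Pool.Agent.Helper209.CX.K15
import Pool.Agent.Helper209.CX.K16
import Pool.Agent.Helper209.CX.K17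

namespace Pool.Agent.Helper209.CX
open MeasureTheory ENNReal FourierTransform

/-- the integral controlling `log |D(k)|` -/
noncomputable def Bk {d : ℕ} (Q : Ed d → ℝ) (p1 p2 : ℝ) (k : ℂ) : ℝ :=
  ∫ x, min (Q x ^ p1 * ‖k‖ ^ ((d : ℝ) - 2 * p1) * (‖k‖ / k.im) ^ (p1 - 1))
          (Q x ^ p2 * ‖k‖ ^ ((d : ℝ) - 2 * p2) * (‖k‖ / k.im) ^ (p2 - 1))

theorem Bk_nonneg {d : ℕ} (Q : Ed d → ℝ) (hQ0 : ∀ x, 0 < Q x) (p1 p2 : ℝ) (k : ℂ)
    (hk : 0 < k.im) : 0 ≤ Bk Q p1 p2 k := by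
  refine integral_nonneg fun x => ?_
  have := hQ0 x
  have : 0 ≤ ‖k‖ / k.im := by positivity
  simp only [Pi.zero_apply]
  refine le_min ?_ ?_ <;> positivity

theorem coreD
    (schur : ∀ (N m : ℕ) (K : Matrix (Fin N) (Fin N) ℂ),
      ∃ U ∈ Matrix.unitaryGroup (Fin N) ℂ,
      (1 + K).det * Complex.exp (∑ i ∈ Finset.Ico 1 m, (-1 : ℂ) ^ i / i * (K ^ i).trace) =
      ∏ j, ((1 + (star U * K * U) j j) *
        Complex.exp (∑ i ∈ Finset.Ico 1 m, (-1 : ℂ) ^ i / i * ((star U * K * U) j j) ^ i)))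
    (d18 : ∀ (d : ℕ) (_ : 1 ≤ d) (p1 p p2 : ℝ) (_ : 1 < p1) (_ : (d : ℝ) / 2 < p1)
      (_ : p1 < p) (_ : p < p2),
      ∃ C : ℝ, 0 < C ∧ ∀ (Q : Ed d → ℝ) (_ : Measurable Q) (_ : ∀ x, 0 < Q x)
      (_ : Integrable (fun x => Q x ^ p) volume) (k : ℂ) (_ : 0 < k.im) (N : ℕ) (l : Fin N → ℝ)
      (_ : ∀ j, 0 ≤ l j)
      (_ : ∀ r : ℝ, 0 < r →
        ENNReal.ofReal (∑ j ∈ Finset.univ.filter (fun j => r ≤ l j), l j) ≤
        64 * ∫⁻ x : Ed d, ∫⁻ ξ : Ed d,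
        (if r / 64 < Q x * ‖(((2 * Real.pi * ‖ξ‖) ^ 2 : ℝ) : ℂ) - k ^ 2‖⁻¹ then
          ENNReal.ofReal (Q x * ‖(((2 * Real.pi * ‖ξ‖) ^ 2 : ℝ) : ℂ) - k ^ 2‖⁻¹) else 0)),
      ∑ j, min (l j ^ p1) (l j ^ p2) ≤ C * ∫ x,
        min (Q x ^ p1 * ‖k‖ ^ ((d : ℝ) - 2 * p1) * (‖k‖ / k.im) ^ (p1 - 1))
          (Q x ^ p2 * ‖k‖ ^ ((d : ℝ) - 2 * p2) * (‖k‖ / k.im) ^ (p2 - 1)))
    (d19 : ∀ (d : ℕ) (_ : 1 ≤ d) (p : ℝ) (_ : 1 < p) (_ : (d : ℝ) / 2 < p)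
      (Q : Ed d → ℝ) (_ : Measurable Q) (_ : ∀ x, 0 < Q x)
      (_ : Integrable (fun x => Q x ^ p) volume),
      (∀ c : ℝ, 0 < c → volume {x | c < Q x} < ⊤) ∧
      ∀ (k : ℂ) (_ : 0 < k.im) (c : ℝ) (_ : 0 < c), ∫⁻ x : Ed d, ∫⁻ ξ : Ed d,
      (if c < Q x * ‖(((2 * Real.pi * ‖ξ‖) ^ 2 : ℝ) : ℂ) - k ^ 2‖⁻¹ then
        ENNReal.ofReal (Q x * ‖(((2 * Real.pi * ‖ξ‖) ^ 2 : ℝ) : ℂ) - k ^ 2‖⁻¹) else 0) < ⊤)
    (d : ℕ) (hd : 1 ≤ d) (m : ℕ) (hm : 2 ≤ m) (p1 p p2 : ℝ) (hm1 : (m : ℝ) - 1 ≤ p1)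
    (h1 : 1 < p1) (h1d : (d : ℝ) / 2 < p1) (h1p : p1 < p) (hp2 : p < p2) (h2m : p2 ≤ m) :
    ∃ C0 c0 : ℝ, 0 < C0 ∧ 0 < c0 ∧ ∀ (Q : Ed d → ℝ) (_ : Measurable Q) (_ : ∀ x, 0 < Q x)
      (_ : Integrable (fun x => Q x ^ p) volume) (V : Ed d → ℂ) (_ : Measurable V)
      (_ : ∀ x, ‖V x‖ ≤ Q x) (N : ℕ) (u : Fin N → L2d d) (_ : LinearIndependent ℂ u)
      (A : Matrix (Fin N) (Fin N) ℂ) (_ : ∀ j, IsHu 1 V (u j) (∑ l, A l j • u l)),
      ∃ (D gf : ℂ → ℂ), DifferentiableOn ℂ D {k : ℂ | 0 < k.im} ∧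
        DifferentiableOn ℂ gf {k : ℂ | 0 < k.im} ∧
        (∀ k : ℂ, 0 < k.im → D k = gf k * (A - (k ^ 2) • (1 : Matrix (Fin N) (Fin N) ℂ)).det) ∧
        (∀ k : ℂ, 0 < k.im → ‖D k‖ ≤ Real.exp (C0 * Bk Q p1 p2 k)) ∧
        (∀ k : ℂ, 0 < k.im → Bk Q p1 p2 k ≤ c0 →
          Real.exp (-(C0 * Bk Q p1 p2 k)) ≤ ‖D k‖) := by
  obtain ⟨CE, hCE, hfactor⟩ := K05.d5_factor m hm p1 p2 hm1 (h1p.trans hp2).le h2m
  obtain ⟨C7, hC7, hsum⟩ := d18 d hd p1 p p2 h1 h1d h1p hp2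
  refine ⟨CE * C7, (1 / 2 : ℝ) ^ p2 / C7, by positivity, by positivity, ?_⟩
  intro Q hQm hQ0 hQ V hV hVQ N u hli A hu
  have hp : 1 < p := h1.trans h1p
  have hpd : (d : ℝ) / 2 < p := h1d.trans h1p
  obtain ⟨Cf, hCf, hform'⟩ := K03.d3_form (K02.d2_cw K01.d1_fourier) d hd p hp hpd Q hQm hQ0 hQ
  have hform : ∀ φ : L2d d, InH1 φ → Integrable (fun x => Q x * ‖φ x‖ ^ 2) volume :=
    fun φ hφ => (hform' φ hφ).1
  obtain ⟨hQfin, hGfin⟩ := d19 d hd p hp hpd Q hQm hQ0 hQ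
  have hsq : ∀ x, 0 < Real.sqrt (Q x) := fun x => Real.sqrt_pos.2 (hQ0 x)
  -- orthonormalisation
  set w : Fin N → Ed d → ℂ := fun j x => ((Real.sqrt (Q x) : ℝ) : ℂ) * u j x with hwdef
  have hw : ∀ j, MemLp (w j) 2 volume := fun j =>
    sqrt_memLp Q hQm hQ0 (u j) (hform _ (hu j).1)
  have hwli : ∀ c : Fin N → ℂ, (∀ᵐ x, ∑ i, c i * w i x = 0) → c = 0 := by
    intro c hc
    have h0 : (∑ i, c i • u i : L2d d) = 0 := by
      rw [Lp.eq_zero_iff_ae_eq_zero]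
      filter_upwards [K15.lin_coe c u, hc] with x hx hx2
      rw [hx]
      have hx' : ((Real.sqrt (Q x) : ℝ) : ℂ) * ∑ i, c i * u i x = 0 := by
        rw [Finset.mul_sum, ← hx2]
        refine Finset.sum_congr rfl fun i _ => ?_
        simp only [hwdef]; ring
      have hne : ((Real.sqrt (Q x) : ℝ) : ℂ) ≠ 0 := by exact_mod_cast (hsq x).ne'
      exact (mul_eq_zero.1 hx').resolve_left hne
    rw [Fintype.linearIndependent_iff] at hli
    funext i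
    exact hli c h0 i
  obtain ⟨C, W, hCW, hWC, hon⟩ := K16.cx_onb N w hw hwli
  set u' : Fin N → L2d d := fun i => ∑ n, C n i • u n with hu'def
  set A' : Matrix (Fin N) (Fin N) ℂ := W * A * C with hA'def
  have hu' : ∀ j, IsHu 1 V (u' j) (∑ l, A' l j • u' l) := by
    intro j
    have h := K15.isHu_lin 1 V (fun n => C n j) u (fun n => ∑ l, A l n • u l) hu
    have e : (∑ n, C n j • ∑ l, A l n • u l : L2d d) = ∑ l, A' l j • u' l := by
      have e1 : (∑ n, C n j • ∑ l, A l n • u l : L2d d) = ∑ l, (A * C) l j • u l := by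
        simp only [Finset.smul_sum, Matrix.mul_apply, Finset.sum_smul, smul_smul]
        rw [Finset.sum_comm]
        refine Finset.sum_congr rfl fun l _ => Finset.sum_congr rfl fun n _ => by rw [mul_comm]
      have e2 : (∑ l, A' l j • u' l : L2d d) = ∑ n, (C * A') n j • u n := by
        simp only [hu'def, Finset.smul_sum, Matrix.mul_apply, Finset.sum_smul, smul_smul]
        rw [Finset.sum_comm]
        refine Finset.sum_congr rfl fun l _ => Finset.sum_congr rfl fun n _ => by rw [mul_comm]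
      have e3 : C * A' = A * C := by
        rw [hA'def, ← Matrix.mul_assoc, ← Matrix.mul_assoc, hCW, Matrix.one_mul]
      rw [e1, e2, e3]
    rw [e] at h
    exact h
  have hH' : ∀ j, InH1 (u' j) := fun j => (hu' j).1
  have ho' : ∀ i j, ∫ x, (Q x : ℂ) * (starRingEnd ℂ) (u' i x) * u' j x = if i = j then 1 else 0 := by
    intro i j
    rw [← hon i j]
    refine integral_congr_ae ?_
    filter_upwards [K15.lin_coe (fun n => C n i) u, K15.lin_coe (fun n => C n j) u] with x hx hy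
    simp only [hu'def]
    rw [hx, hy]
    have e : ∀ i, ∑ n, C n i * w n x = ((Real.sqrt (Q x) : ℝ) : ℂ) * ∑ n, C n i * u n x := by
      intro i
      rw [Finset.mul_sum]
      refine Finset.sum_congr rfl fun n _ => ?_
      simp only [hwdef]; ring
    rw [e, e, map_mul, Complex.conj_ofReal]
    have : ((Real.sqrt (Q x) : ℝ) : ℂ) * ((Real.sqrt (Q x) : ℝ) : ℂ) = (Q x : ℂ) := by
      rw [← Complex.ofReal_mul, Real.mul_self_sqrt (hQ0 x).le]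
    rw [← this]; ring
  -- resolvents
  choose R hR using fun l => K09.d9_exists d (u' l)
  have hbi : ∀ i, ∀ φ : L2d d, InH1 φ →
      Integrable (fun x => ((Q x : ℂ) * (starRingEnd ℂ) (u' i x)) * φ x) volume ∧
      ‖∫ x, ((Q x : ℂ) * (starRingEnd ℂ) (u' i x)) * φ x‖ ^ 2 ≤
        ((∫ x, Q x * ‖u' i x‖ ^ 2) * Cf + 1) *
          ∫ ξ : Ed d, (1 + ‖ξ‖ ^ 2) * ‖(𝓕 φ : L2d d) ξ‖ ^ 2 := by
    intro i φ hφ
    have h := Qinner Q hQm hQ0 (u' i) φ (hform _ (hH' i)) (hform _ hφ)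
    refine ⟨h.1, h.2.trans ?_⟩
    have h3 := (hform' φ hφ).2
    have h4 : 0 ≤ ∫ x, Q x * ‖u' i x‖ ^ 2 := integral_nonneg fun x => by
      have := hQ0 x
      simp only [Pi.zero_apply]; positivity
    have h5 : 0 ≤ ∫ ξ : Ed d, (1 + ‖ξ‖ ^ 2) * ‖(𝓕 φ : L2d d) ξ‖ ^ 2 := integral_nonneg fun x => by
      simp only [Pi.zero_apply]; positivity
    nlinarith [mul_le_mul_of_nonneg_left h3 h4]
  have hRd := fun i l => K09.d9_analytic d (fun x => (Q x : ℂ) * (starRingEnd ℂ) (u' i x))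
    ((∫ x, Q x * ‖u' i x‖ ^ 2) * Cf + 1) (by
      have h4 : 0 ≤ ∫ x, Q x * ‖u' i x‖ ^ 2 := integral_nonneg fun x => by
        have := hQ0 x
        simp only [Pi.zero_apply]; positivity
      positivity) (hbi i) (u' l) (R l) (hR l)
  set Γ : ℂ → Matrix (Fin N) (Fin N) ℂ := fun k =>
    Matrix.of fun i l => ∫ x, (Q x : ℂ) * (starRingEnd ℂ) (u' i x) * R l k x with hΓ
  set K : ℂ → Matrix (Fin N) (Fin N) ℂ := fun k =>
    Γ k * (A' - (k ^ 2) • (1 : Matrix (Fin N) (Fin N) ℂ)) - 1 with hK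
  have hΓd : ∀ i l, DifferentiableOn ℂ (fun k => Γ k i l) {k : ℂ | 0 < k.im} := by
    intro i l
    exact (hRd i l).2
  have hAd : ∀ i l, DifferentiableOn ℂ
      (fun k : ℂ => (A' - (k ^ 2) • (1 : Matrix (Fin N) (Fin N) ℂ)) i l) {k : ℂ | 0 < k.im} := by
    intro i l
    simp only [Matrix.sub_apply, Matrix.smul_apply, smul_eq_mul]
    fun_prop
  have hKd : ∀ i l, DifferentiableOn ℂ (fun k => K k i l) {k : ℂ | 0 < k.im} := by
    intro i l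
    simp only [hK, Matrix.sub_apply]
    exact (matrix_mul_diff _ _ _ hΓd hAd i l).sub (differentiableOn_const _)
  set ex : ℂ → ℂ := fun k =>
    Complex.exp (∑ i ∈ Finset.Ico 1 m, (-1 : ℂ) ^ i / i * (K k ^ i).trace) with hex
  have hexd : DifferentiableOn ℂ ex {k : ℂ | 0 < k.im} := by
    refine DifferentiableOn.cexp ?_
    refine DifferentiableOn.fun_sum fun i _ => ?_
    exact (matrix_trace_diff _ _ (matrix_pow_diff _ K hKd i)).const_mul _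
  have h1K : ∀ k, 1 + K k = Γ k * (A' - (k ^ 2) • (1 : Matrix (Fin N) (Fin N) ℂ)) := by
    intro k
    simp only [hK]; abel
  have hdetA : ∀ k : ℂ, (A' - (k ^ 2) • (1 : Matrix (Fin N) (Fin N) ℂ)).det =
      (A - (k ^ 2) • (1 : Matrix (Fin N) (Fin N) ℂ)).det := by
    intro k
    have e : A' - (k ^ 2) • (1 : Matrix (Fin N) (Fin N) ℂ) =
        W * (A - (k ^ 2) • (1 : Matrix (Fin N) (Fin N) ℂ)) * C := by
      rw [Matrix.mul_sub, Matrix.sub_mul, Matrix.mul_smul, Matrix.mul_one, Matrix.smul_mul, hWC]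
    rw [e, Matrix.det_mul, Matrix.det_mul]
    have : W.det * C.det = 1 := by rw [← Matrix.det_mul, hWC, Matrix.det_one]
    calc W.det * (A - (k ^ 2) • (1 : Matrix (Fin N) (Fin N) ℂ)).det * C.det
        = (W.det * C.det) * (A - (k ^ 2) • (1 : Matrix (Fin N) (Fin N) ℂ)).det := by ring
      _ = _ := by rw [this, one_mul]
  -- bounds
  have hbd : ∀ k : ℂ, 0 < k.im → ∃ l : Fin N → ℂ,
      (1 + K k).det * ex k = ∏ j, ((1 + l j) *
        Complex.exp (∑ i ∈ Finset.Ico 1 m, (-1 : ℂ) ^ i / i * (l j) ^ i)) ∧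
      ∑ j, min (‖l j‖ ^ p1) (‖l j‖ ^ p2) ≤ C7 * Bk Q p1 p2 k := by
    intro k hk
    obtain ⟨U, hU, hUe⟩ := schur N m (K k)
    obtain ⟨u2, f2, ψ, g1, g2, g3, g4⟩ := K17.schur_data (fun h V c u f hu => K15.isHu_lin h V c u f hu)
      Q hQm hQ0 hform V u' A' hu' ho' k hk (fun l => R l k)
      (fun l => (hRd l l).1 k hk) (fun l => hR l k hk) U hU (K k) rfl
    refine ⟨fun j => (star U * K k * U) j j, hUe, ?_⟩
    refine hsum Q hQm hQ0 hQ k hk N (fun j => ‖(star U * K k * U) j j‖) (fun j => norm_nonneg _) ?_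
    intro r hr
    have h8 := K08.d8_eig (K02.d2_cw K01.d1_fourier) d hd Q hQm hQ0 hQfin hform V hV hVQ k hk
      (fun c hc => hGfin k hk c hc) N u2 f2 ψ g1 g2 g3 r hr
    simp only [g4] at h8
    exact h8
  have hmin0 : ∀ z : ℂ, 0 ≤ min (‖z‖ ^ p1) (‖z‖ ^ p2) := fun z =>
    le_min (Real.rpow_nonneg (norm_nonneg _) _) (Real.rpow_nonneg (norm_nonneg _) _)
  refine ⟨fun k => (1 + K k).det * ex k, fun k => (Γ k).det * ex k, ?_, ?_, ?_, ?_, ?_⟩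
  · refine (matrix_det_diff _ _ ?_).mul hexd
    intro i j
    simp only [Matrix.add_apply]
    exact (differentiableOn_const _).add (hKd i j)
  · exact (matrix_det_diff _ _ hΓd).mul hexd
  · intro k hk
    simp only [h1K, Matrix.det_mul, hdetA]
    ring
  · intro k hk
    obtain ⟨l, hl1, hl2⟩ := hbd k hk
    simp only [hl1, norm_prod]
    calc ∏ j, ‖(1 + l j) * Complex.exp (∑ i ∈ Finset.Ico 1 m, (-1 : ℂ) ^ i / i * (l j) ^ i)‖
        ≤ ∏ j, Real.exp (CE * min (‖l j‖ ^ p1) (‖l j‖ ^ p2)) :=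
          Finset.prod_le_prod (fun _ _ => norm_nonneg _) fun j _ => (hfactor (l j)).1
      _ = Real.exp (CE * ∑ j, min (‖l j‖ ^ p1) (‖l j‖ ^ p2)) := by
          rw [Finset.mul_sum, Real.exp_sum]
      _ ≤ Real.exp (CE * C7 * Bk Q p1 p2 k) := by
          rw [Real.exp_le_exp, mul_assoc]
          exact mul_le_mul_of_nonneg_left hl2 hCE.le
  · intro k hk hc
    obtain ⟨l, hl1, hl2⟩ := hbd k hk
    have hsm : ∑ j, min (‖l j‖ ^ p1) (‖l j‖ ^ p2) ≤ (1 / 2 : ℝ) ^ p2 := by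
      refine hl2.trans ?_
      calc C7 * Bk Q p1 p2 k ≤ C7 * ((1 / 2 : ℝ) ^ p2 / C7) := by gcongr
        _ = _ := by field_simp
    have hle : ∀ j, ‖l j‖ ≤ 1 / 2 := by
      intro j
      by_contra hcon
      push Not at hcon
      have hj : min (‖l j‖ ^ p1) (‖l j‖ ^ p2) ≤ (1 / 2 : ℝ) ^ p2 :=
        (Finset.single_le_sum (f := fun j => min (‖l j‖ ^ p1) (‖l j‖ ^ p2))
          (fun i _ => hmin0 (l i)) (Finset.mem_univ j)).trans hsm
      have b1 : (1 / 2 : ℝ) ^ p2 < ‖l j‖ ^ p2 :=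
        Real.rpow_lt_rpow (by norm_num) hcon (by linarith)
      have b2 : (1 / 2 : ℝ) ^ p2 < ‖l j‖ ^ p1 := by
        have c1 : (1 / 2 : ℝ) ^ p2 ≤ (1 / 2 : ℝ) ^ p1 :=
          Real.rpow_le_rpow_of_exponent_ge (by norm_num) (by norm_num) (by linarith)
        have c2 : (1 / 2 : ℝ) ^ p1 < ‖l j‖ ^ p1 :=
          Real.rpow_lt_rpow (by norm_num) hcon (by linarith)
        linarith
      exact absurd hj (not_le.2 (lt_min b2 b1))
    simp only [hl1, norm_prod]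
    calc Real.exp (-(CE * C7 * Bk Q p1 p2 k))
        ≤ Real.exp (-(CE * ∑ j, min (‖l j‖ ^ p1) (‖l j‖ ^ p2))) := by
          rw [Real.exp_le_exp, mul_assoc]
          exact neg_le_neg (mul_le_mul_of_nonneg_left hl2 hCE.le)
      _ = ∏ j, Real.exp (-(CE * min (‖l j‖ ^ p1) (‖l j‖ ^ p2))) := by
          rw [← Real.exp_sum, Finset.sum_neg_distrib, Finset.mul_sum]
      _ ≤ ∏ j, ‖(1 + l j) * Complex.exp (∑ i ∈ Finset.Ico 1 m, (-1 : ℂ) ^ i / i * (l j) ^ i)‖ :=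
          Finset.prod_le_prod (fun _ _ => (Real.exp_pos _).le) fun j _ =>
            (hfactor (l j)).2 (hle j)

end Pool.Agent.Helper209.CX
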