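import Mathlib

namespace Pool.Agent.Helper209.CX

namespace K10
open MeasureTheory ENNReal

namespace CXK10

/-- the conformal map -/
noncomputable def K (α : ℝ) (z : ℂ) : ℂ := Complex.I * (-Complex.I * z) ^ ((1/α : ℝ) : ℂ)

lemma w_re (z : ℂ) : (-Complex.I * z).re = z.im := by simp

lemma w_norm (z : ℂ) : ‖-Complex.I * z‖ = ‖z‖ := by simp

lemma K_norm (α : ℝ) (z : ℂ) : ‖K α z‖ = ‖z‖ ^ (1/α) := by
  unfold K
  rw [norm_mul, Complex.norm_I, one_mul, Complex.norm_cpow_real, w_norm]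

lemma K_im (α : ℝ) (z : ℂ) :
    (K α z).im = ‖z‖ ^ (1/α) * Real.cos (Complex.arg (-Complex.I * z) * (1/α)) := by
  unfold K
  rw [Complex.I_mul_im, Complex.cpow_ofReal_re, w_norm]

lemma K_facts {α : ℝ} (hα : 1 ≤ α) {z : ℂ} (hz : 0 < z.im) :
    0 < (K α z).im ∧ 0 < ‖z‖ ∧ z.im / ‖z‖ ≤ (K α z).im / ‖K α z‖ ∧
    Real.cos (Real.pi / (2*α)) ≤ (K α z).im / ‖K α z‖ := by
  have hz0 : z ≠ 0 := by
    rintro rfl
    simp at hz
  have hn : 0 < ‖z‖ := norm_pos_iff.2 hz0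
  have hw0 : (-Complex.I * z) ≠ 0 := by
    simp [hz0]
  have hT : 0 < ‖z‖ ^ (1/α) := Real.rpow_pos_of_pos hn _
  set θ := Complex.arg (-Complex.I * z) with hθ
  have hθ2 : |θ| < Real.pi / 2 := by
    rw [hθ, Complex.abs_arg_lt_pi_div_two_iff]
    left
    rw [w_re]; exact hz
  have ha0 : 0 < α := by linarith
  have h1a : 0 < 1/α ∧ 1/α ≤ 1 := ⟨by positivity, by rw [div_le_one ha0]; exact hα⟩
  have hab : |θ * (1/α)| = |θ| * (1/α) := by rw [abs_mul, abs_of_pos h1a.1]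
  have hle : |θ * (1/α)| ≤ |θ| := by
    rw [hab]
    nlinarith [abs_nonneg θ]
  have hquot : (K α z).im / ‖K α z‖ = Real.cos (θ * (1/α)) := by
    rw [K_norm, K_im, ← hθ, mul_div_cancel_left₀ _ hT.ne']
  have hcos1 : Real.cos θ ≤ Real.cos (θ * (1/α)) := by
    rw [← Real.cos_abs θ, ← Real.cos_abs (θ * (1/α))]
    exact Real.cos_le_cos_of_nonneg_of_le_pi (abs_nonneg _) (by linarith [Real.pi_pos]) hle
  have hcos2 : Real.cos (Real.pi / (2*α)) ≤ Real.cos (θ * (1/α)) := by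
    rw [← Real.cos_abs (θ * (1/α))]
    refine Real.cos_le_cos_of_nonneg_of_le_pi (abs_nonneg _) ?_ ?_
    · rw [div_le_iff₀ (by positivity)]
      nlinarith [Real.pi_pos]
    · rw [hab]
      have : Real.pi / (2*α) = (Real.pi / 2) * (1/α) := by field_simp
      rw [this]
      exact mul_le_mul_of_nonneg_right hθ2.le h1a.1.le
  refine ⟨?_, hn, ?_, ?_⟩
  · rw [K_im]
    refine mul_pos hT (Real.cos_pos_of_mem_Ioo ?_)
    have := abs_lt.1 (lt_of_le_of_lt hle hθ2)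
    exact ⟨by linarith [this.1], this.2⟩
  · rw [hquot]
    refine le_trans (le_of_eq ?_) hcos1
    rw [hθ, Complex.cos_arg hw0, w_re, w_norm]
  · rw [hquot]; exact hcos2

lemma K_diff {α : ℝ} : DifferentiableOn ℂ (K α) {z : ℂ | 0 < z.im} := by
  intro z hz
  have hz : 0 < z.im := hz
  apply DifferentiableAt.differentiableWithinAt
  unfold K
  refine (DifferentiableAt.cpow ?_ (differentiableAt_const _) ?_).const_mul _
  · fun_prop
  · rw [Complex.mem_slitPlane_iff]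
    left
    rw [w_re]; exact hz

/-- the zero -/
lemma zero_pt {α κ t : ℝ} (hα : 1 ≤ α) (hα2 : (α - 1) * (Real.pi / 2) ≤ κ / 2) (hκ : 0 < κ)
    (hκ1 : κ ≤ 1) (ht : 0 < t)
    {E : ℂ} (h1 : t ≤ Real.sqrt ‖E‖) (h2 : κ ≤ Real.sqrt ((1 - E.re / ‖E‖) / 2)) :
    ∃ z : ℂ, t ^ α * (κ / 2) ≤ z.im ∧ K α z ^ 2 = E := by
  have hE : 0 < ‖E‖ := by
    have : 0 < Real.sqrt ‖E‖ := lt_of_lt_of_le ht h1
    exact Real.sqrt_pos.1 this
  have hE0 : E ≠ 0 := norm_pos_iff.1 hE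
  have hnE0 : -E ≠ 0 := neg_ne_zero.2 hE0
  set φ := Complex.arg (-E) with hφ
  have hφ1 : -Real.pi < φ := Complex.neg_pi_lt_arg _
  have hφ2 : φ ≤ Real.pi := Complex.arg_le_pi _
  have hcosφ : Real.cos φ = - E.re / ‖E‖ := by
    rw [hφ, Complex.cos_arg hnE0, norm_neg, Complex.neg_re]
  have hcosψ0 : 0 ≤ Real.cos (φ / 2) := Real.cos_nonneg_of_mem_Icc ⟨by linarith, by linarith⟩
  have hcosψ : κ ≤ Real.cos (φ / 2) := by
    have e : (1 - E.re / ‖E‖) / 2 = Real.cos (φ / 2) ^ 2 := by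
      rw [Real.cos_sq, mul_div_cancel₀ φ two_ne_zero, hcosφ]
      ring
    rw [e, Real.sqrt_sq hcosψ0] at h2
    exact h2
  have hlip : |Real.cos (φ / 2) - Real.cos (α * (φ / 2))| ≤ (α - 1) * (Real.pi / 2) := by
    refine (Real.abs_cos_sub_cos_le _ _).trans ?_
    have e : φ / 2 - α * (φ / 2) = - ((α - 1) * (φ / 2)) := by ring
    rw [e, abs_neg, abs_mul, abs_of_nonneg (by linarith : (0:ℝ) ≤ α - 1)]
    refine mul_le_mul_of_nonneg_left ?_ (by linarith)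
    rw [abs_le]
    constructor <;> linarith
  have hcosα : κ / 2 ≤ Real.cos (α * (φ / 2)) := by
    have := (abs_le.1 hlip).2
    linarith
  have habs : |α * (φ / 2)| < Real.pi := by
    have h3 : |φ / 2| ≤ Real.pi / 2 := by
      rw [abs_le]
      constructor <;> linarith
    rw [abs_mul, abs_of_pos (by linarith : (0:ℝ) < α)]
    have h4 : α * |φ / 2| ≤ α * (Real.pi / 2) := mul_le_mul_of_nonneg_left h3 (by linarith)
    have h5 := Real.pi_gt_three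
    nlinarith
  refine ⟨Complex.I * (-E) ^ ((α / 2 : ℝ) : ℂ), ?_, ?_⟩
  · rw [Complex.I_mul_im, Complex.cpow_ofReal_re, norm_neg]
    have e1 : ‖E‖ ^ (α / 2) = (Real.sqrt ‖E‖) ^ α := by
      rw [Real.sqrt_eq_rpow, ← Real.rpow_mul hE.le]
      congr 1; ring
    have e2 : φ * (α / 2) = α * (φ / 2) := by ring
    rw [e1, ← hφ, e2]
    have h3 : t ^ α ≤ (Real.sqrt ‖E‖) ^ α := Real.rpow_le_rpow ht.le h1 (by linarith)
    have h4 : 0 < t ^ α := Real.rpow_pos_of_pos ht _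
    exact mul_le_mul h3 hcosα (by positivity) (by positivity)
  · unfold K
    have e0 : -Complex.I * (Complex.I * (-E) ^ ((α / 2 : ℝ) : ℂ)) = (-E) ^ ((α / 2 : ℝ) : ℂ) := by
      rw [← mul_assoc]
      simp
    have him : (Complex.log (-E) * ((α / 2 : ℝ) : ℂ)).im = α * (φ / 2) := by
      rw [Complex.mul_im]
      simp [Complex.log_im, ← hφ]
      ring
    rw [e0, ← Complex.cpow_mul]
    · have e3 : (((α / 2 : ℝ) : ℂ) * ((1/α : ℝ) : ℂ)) = ((2 : ℕ) : ℂ)⁻¹ := by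
        have : α ≠ 0 := by linarith
        rw [← Complex.ofReal_mul]
        have : α / 2 * (1 / α) = (2:ℝ)⁻¹ := by field_simp
        rw [this]
        push_cast
        rfl
      rw [e3, mul_pow, Complex.cpow_nat_inv_pow _ (by norm_num), Complex.I_sq]
      ring
    · rw [him]
      exact (abs_lt.1 habs).1
    · rw [him]
      exact (abs_lt.1 habs).2.le


lemma factor_one {F : ℂ → ℂ} {U : Set ℂ} (hU : IsOpen U) (hF : DifferentiableOn ℂ F U) {a : ℂ}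
    (ha : a ∈ U) (h0 : F a = 0) :
    ∃ q : ℂ → ℂ, DifferentiableOn ℂ q U ∧ ∀ z, F z = q z * (z - a) := by
  refine ⟨dslope F a, (Complex.differentiableOn_dslope (hU.mem_nhds ha)).2 hF, fun z => ?_⟩
  have := sub_smul_dslope F a z
  rw [h0, sub_zero, smul_eq_mul] at this
  rw [← this]; ring

lemma factor_all {U : Set ℂ} (hU : IsOpen U) {N : ℕ} (F : Fin N → ℂ → ℂ)
    (hF : ∀ j, DifferentiableOn ℂ (F j) U) (g : ℂ → ℂ) (hg : DifferentiableOn ℂ g U)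
    (S : Finset (Fin N)) (zz : Fin N → ℂ) (hz : ∀ j ∈ S, zz j ∈ U ∧ F j (zz j) = 0) :
    ∃ h : ℂ → ℂ, DifferentiableOn ℂ h U ∧
      ∀ z, g z * ∏ j, F j z = h z * ∏ i : Fin S.card, (z - zz (S.equivFin.symm i : Fin N)) := by
  classical
  have hq : ∀ j, ∃ q : ℂ → ℂ, DifferentiableOn ℂ q U ∧ (j ∈ S → ∀ z, F j z = q z * (z - zz j)) := by
    intro j
    by_cases hj : j ∈ S
    · obtain ⟨q, hq1, hq2⟩ := factor_one hU (hF j) (hz j hj).1 (hz j hj).2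
      exact ⟨q, hq1, fun _ => hq2⟩
    · exact ⟨F j, hF j, fun h => absurd h hj⟩
  choose q hq1 hq2 using hq
  refine ⟨fun z => g z * ((∏ j ∈ S, q j z) * ∏ j ∈ Finset.univ \ S, F j z), ?_, fun z => ?_⟩
  · refine hg.mul (DifferentiableOn.mul ?_ ?_)
    · exact DifferentiableOn.fun_finsetProd fun j _ => hq1 j
    · exact DifferentiableOn.fun_finsetProd fun j _ => hF j
  · have e1 : ∏ i : Fin S.card, (z - zz (S.equivFin.symm i : Fin N)) = ∏ j ∈ S, (z - zz j) := by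
      rw [Equiv.prod_comp S.equivFin.symm (fun j : S => z - zz j)]
      exact Finset.prod_coe_sort S (fun j => z - zz j)
    have e2 : ∏ j, F j z = (∏ j ∈ Finset.univ \ S, F j z) * ∏ j ∈ S, F j z :=
      (Finset.prod_sdiff (Finset.subset_univ S)).symm
    have e3 : ∏ j ∈ S, F j z = (∏ j ∈ S, q j z) * ∏ j ∈ S, (z - zz j) := by
      rw [← Finset.prod_mul_distrib]
      exact Finset.prod_congr rfl fun j hj => hq2 j hj z
    rw [e1, e2, e3]
    ring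

lemma min_rpow_le {q p1 p p2 : ℝ} (hq : 0 ≤ q) (h0 : 0 < p1) (h1 : p1 < p) (h2 : p < p2) :
    min (q ^ p1) (q ^ p2) ≤ q ^ p := by
  rcases hq.eq_or_lt with rfl | hq
  · rw [Real.zero_rpow h0.ne', Real.zero_rpow (h0.trans h1).ne']
    exact min_le_left _ _
  · rcases le_total q 1 with h | h
    · exact (min_le_right _ _).trans (Real.rpow_le_rpow_of_exponent_ge hq h h2.le)
    · exact (min_le_left _ _).trans (Real.rpow_le_rpow_of_exponent_le h h1.le)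

lemma term_eq {Q T u d p : ℝ} (hQ : 0 ≤ Q) (hT : 0 < T) (hu : 0 < u) :
    Q ^ p * T ^ (d - 2 * p) * u ^ (p - 1) = (T ^ d * u⁻¹) * (Q * (u / T ^ 2)) ^ p := by
  rw [Real.mul_rpow hQ (by positivity), Real.div_rpow hu.le (by positivity), ← Real.rpow_natCast T 2,
    ← Real.rpow_mul hT.le, Real.rpow_sub hT, Real.rpow_sub hu, Real.rpow_one]
  push_cast
  field_simp

lemma min_bound {Q T u d p1 p p2 : ℝ} (h0 : 0 < p1) (h1 : p1 < p) (h2 : p < p2)
    (hQ : 0 ≤ Q) (hT : 0 < T) (hu : 0 < u) :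
    min (Q ^ p1 * T ^ (d - 2 * p1) * u ^ (p1 - 1)) (Q ^ p2 * T ^ (d - 2 * p2) * u ^ (p2 - 1)) ≤
      Q ^ p * (T ^ (d - 2 * p) * u ^ (p - 1)) := by
  rw [term_eq hQ hT hu, term_eq hQ hT hu, ← mul_assoc, term_eq (p := p) hQ hT hu,
    ← mul_min_of_nonneg _ _ (by positivity)]
  exact mul_le_mul_of_nonneg_left (min_rpow_le (by positivity) h0 h1 h2) (by positivity)

/-- half-line integral -/
lemma lint_half {r0 δ ε : ℝ} (hr : 0 < r0) (hδ : δ < 1) (hε : 1 < ε) :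
    ∫⁻ x in Set.Ioi (0:ℝ), ENNReal.ofReal (min ((|x| / r0) ^ (-ε)) ((|x| / r0) ^ (-δ))) ≤
      ENNReal.ofReal (r0 * (1 / (1 - δ) + 1 / (ε - 1))) := by
  have hsplit : Set.Ioi (0:ℝ) = Set.Ioc 0 r0 ∪ Set.Ioi r0 := (Set.Ioc_union_Ioi_eq_Ioi hr.le).symm
  rw [hsplit]
  refine (lintegral_union_le _ _ _).trans ?_
  have hA : ∫⁻ x in Set.Ioc (0:ℝ) r0, ENNReal.ofReal (min ((|x| / r0) ^ (-ε)) ((|x| / r0) ^ (-δ))) ≤
      ENNReal.ofReal (r0 * (1 / (1 - δ))) := by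
    have hint : IntegrableOn (fun x : ℝ => x ^ (-δ) * r0 ^ δ) (Set.Ioc 0 r0) := by
      have := (intervalIntegral.intervalIntegrable_rpow' (a := 0) (b := r0) (r := -δ) (by linarith)).mul_const
        (r0 ^ δ)
      rwa [intervalIntegrable_iff_integrableOn_Ioc_of_le hr.le] at this
    have hval : ∫ x in Set.Ioc (0:ℝ) r0, x ^ (-δ) * r0 ^ δ = r0 * (1 / (1 - δ)) := by
      rw [← intervalIntegral.integral_of_le hr.le, intervalIntegral.integral_mul_const,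
        integral_rpow (Or.inl (by linarith)), Real.zero_rpow (by linarith : -δ + 1 ≠ 0), sub_zero]
      have : r0 ^ (-δ + 1) * r0 ^ δ = r0 := by
        rw [← Real.rpow_add hr]
        have : -δ + 1 + δ = 1 := by ring
        rw [this, Real.rpow_one]
      have h1 : (-δ + 1) ≠ 0 := by linarith
      have h2 : 1 - δ ≠ 0 := by linarith
      have h3 : -δ + 1 = 1 - δ := by ring
      calc r0 ^ (-δ + 1) / (-δ + 1) * r0 ^ δ = (r0 ^ (-δ + 1) * r0 ^ δ) / (-δ + 1) := by ring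
        _ = r0 * (1 / (1 - δ)) := by rw [this, h3]; ring
    rw [← hval, ofReal_integral_eq_lintegral_ofReal hint]
    · refine setLIntegral_mono' measurableSet_Ioc ?_
      intro x hx
      refine ENNReal.ofReal_le_ofReal ((min_le_right _ _).trans (le_of_eq ?_))
      rw [abs_of_pos hx.1, Real.div_rpow hx.1.le hr.le, Real.rpow_neg hr.le δ]
      have : r0 ^ δ ≠ 0 := (Real.rpow_pos_of_pos hr _).ne'
      field_simp
    · filter_upwards [ae_restrict_mem measurableSet_Ioc] with x hx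
      have := hx.1
      positivity
  have hB : ∫⁻ x in Set.Ioi r0, ENNReal.ofReal (min ((|x| / r0) ^ (-ε)) ((|x| / r0) ^ (-δ))) ≤
      ENNReal.ofReal (r0 * (1 / (ε - 1))) := by
    have hint : IntegrableOn (fun x : ℝ => x ^ (-ε) * r0 ^ ε) (Set.Ioi r0) :=
      (integrableOn_Ioi_rpow_of_lt (by linarith) hr).mul_const _
    have hval : ∫ x in Set.Ioi r0, x ^ (-ε) * r0 ^ ε = r0 * (1 / (ε - 1)) := by
      rw [integral_mul_const, integral_Ioi_rpow_of_lt (by linarith) hr]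
      have : r0 ^ (-ε + 1) * r0 ^ ε = r0 := by
        rw [← Real.rpow_add hr]
        have : -ε + 1 + ε = 1 := by ring
        rw [this, Real.rpow_one]
      have h3 : -ε + 1 = -(ε - 1) := by ring
      calc -r0 ^ (-ε + 1) / (-ε + 1) * r0 ^ ε = (r0 ^ (-ε + 1) * r0 ^ ε) * (-1 / (-ε + 1)) := by ring
        _ = r0 * (1 / (ε - 1)) := by rw [this, h3, neg_div_neg_eq]
    rw [← hval, ofReal_integral_eq_lintegral_ofReal hint]
    · refine setLIntegral_mono' measurableSet_Ioi ?_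
      intro x hx
      have hx0 : 0 < x := lt_trans hr hx
      refine ENNReal.ofReal_le_ofReal ((min_le_left _ _).trans (le_of_eq ?_))
      rw [abs_of_pos hx0, Real.div_rpow hx0.le hr.le, Real.rpow_neg hr.le ε]
      have : r0 ^ ε ≠ 0 := (Real.rpow_pos_of_pos hr _).ne'
      field_simp
    · filter_upwards [ae_restrict_mem measurableSet_Ioi] with x hx
      have hx0 : 0 < x := lt_trans hr hx
      positivity
  refine (add_le_add hA hB).trans (le_of_eq ?_)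
  have h1 : 0 < 1 / (1 - δ) := by
    have : 0 < 1 - δ := by linarith
    positivity
  have h2 : 0 < 1 / (ε - 1) := by
    have : 0 < ε - 1 := by linarith
    positivity
  rw [← ENNReal.ofReal_add (by positivity) (by positivity)]
  congr 1
  ring

lemma lint_full {r0 δ ε : ℝ} (hr : 0 < r0) (hδ : δ < 1) (hε : 1 < ε) :
    ∫⁻ x : ℝ, ENNReal.ofReal (min ((|x| / r0) ^ (-ε)) ((|x| / r0) ^ (-δ))) ≤
      ENNReal.ofReal (r0 * (2 * (1 / (1 - δ) + 1 / (ε - 1)))) := by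
  have h := lint_half hr hδ hε
  have h1 : 0 < 1 / (1 - δ) := by
    have : 0 < 1 - δ := by linarith
    positivity
  have h2 : 0 < 1 / (ε - 1) := by
    have : 0 < ε - 1 := by linarith
    positivity
  have hneg : ∫⁻ x in Set.Iio (0:ℝ), ENNReal.ofReal (min ((|x| / r0) ^ (-ε)) ((|x| / r0) ^ (-δ)))
      = ∫⁻ x in Set.Ioi (0:ℝ), ENNReal.ofReal (min ((|x| / r0) ^ (-ε)) ((|x| / r0) ^ (-δ))) := by
    have := (Measure.measurePreserving_neg (volume : Measure ℝ)).setLIntegral_comp_preimage_emb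
      (Homeomorph.neg ℝ).measurableEmbedding
      (fun x => ENNReal.ofReal (min ((|x| / r0) ^ (-ε)) ((|x| / r0) ^ (-δ)))) (Set.Ioi 0)
    simpa [abs_neg] using this
  have huniv : (Set.univ : Set ℝ) = (Set.Iio 0 ∪ {0}) ∪ Set.Ioi 0 := by
    ext x
    simp only [Set.mem_univ, Set.mem_union, Set.mem_Iio, Set.mem_singleton_iff, Set.mem_Ioi, true_iff]
    rcases lt_trichotomy x 0 with h | h | h
    · exact Or.inl (Or.inl h)
    · exact Or.inl (Or.inr h)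
    · exact Or.inr h
  rw [← setLIntegral_univ, huniv]
  refine (lintegral_union_le _ _ _).trans ?_
  have h3 := lintegral_union_le (μ := (volume : Measure ℝ))
    (fun x => ENNReal.ofReal (min ((|x| / r0) ^ (-ε)) ((|x| / r0) ^ (-δ)))) (Set.Iio 0) {0}
  have h4 : ∫⁻ x in ({0} : Set ℝ), ENNReal.ofReal (min ((|x| / r0) ^ (-ε)) ((|x| / r0) ^ (-δ))) = 0 := by
    rw [Measure.restrict_singleton]
    simp
  rw [h4, add_zero, hneg] at h3
  refine (add_le_add (h3.trans h) h).trans (le_of_eq ?_)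
  rw [← ENNReal.ofReal_add (by positivity) (by positivity)]
  congr 1
  ring


lemma pw {r x η M ε δ p u : ℝ} (hη : 0 < η) (hM : 0 < M) (hx : 0 < |x|) (hxr : |x| ≤ r)
    (hδ0 : 0 ≤ δ) (hδ : δ ≤ ε) (hδ2 : ε - p + 1 ≤ δ) (_hp : 1 ≤ p) (hu : 0 < u) (huM : u ≤ M)
    (hur : u ≤ r / η) :
    r ^ (-ε) * u ^ (p - 1) ≤
      M ^ (p - 1) * (M * η) ^ (-ε) * min ((|x| / (M * η)) ^ (-ε)) ((|x| / (M * η)) ^ (-δ)) := by
  have hr : 0 < r := hx.trans_le hxr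
  have hr0 : 0 < M * η := by positivity
  set r0 := M * η with hr0d
  set v := r / r0 with hv
  have hv0 : 0 < v := by positivity
  have hxv : |x| / r0 ≤ v := div_le_div_of_nonneg_right hxr hr0.le
  have hx0 : 0 < |x| / r0 := by positivity
  have e1 : r ^ (-ε) = r0 ^ (-ε) * v ^ (-ε) := by
    rw [← Real.mul_rpow hr0.le hv0.le, hv]
    congr 1
    field_simp
  have a1 : v ^ (-ε) ≤ (|x| / r0) ^ (-ε) := Real.rpow_le_rpow_of_nonpos hx0 hxv (by linarith)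
  have a2 : v ^ (-δ) ≤ (|x| / r0) ^ (-δ) := Real.rpow_le_rpow_of_nonpos hx0 hxv (by linarith)
  have hMp : 0 < M ^ (p - 1) := by positivity
  have hrp : 0 < r0 ^ (-ε) := by positivity
  rw [mul_min_of_nonneg _ _ (by positivity)]
  refine le_min ?_ ?_
  · rw [e1]
    have h1 : u ^ (p - 1) ≤ M ^ (p - 1) := Real.rpow_le_rpow hu.le huM (by linarith)
    calc r0 ^ (-ε) * v ^ (-ε) * u ^ (p - 1) ≤ r0 ^ (-ε) * (|x| / r0) ^ (-ε) * M ^ (p - 1) := by
          gcongr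
      _ = _ := by ring
  · rw [e1]
    rcases le_total v 1 with h | h
    · have huv : u ≤ M * v := by
        refine hur.trans (le_of_eq ?_)
        rw [hv, hr0d]
        field_simp
      have h1 : u ^ (p - 1) ≤ M ^ (p - 1) * v ^ (p - 1) := by
        rw [← Real.mul_rpow hM.le hv0.le]
        exact Real.rpow_le_rpow hu.le huv (by linarith)
      have h2 : v ^ (-ε) * v ^ (p - 1) ≤ v ^ (-δ) := by
        rw [← Real.rpow_add hv0]
        exact Real.rpow_le_rpow_of_exponent_ge hv0 h (by linarith)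
      calc r0 ^ (-ε) * v ^ (-ε) * u ^ (p - 1)
          ≤ r0 ^ (-ε) * v ^ (-ε) * (M ^ (p - 1) * v ^ (p - 1)) := by gcongr
        _ = M ^ (p - 1) * r0 ^ (-ε) * (v ^ (-ε) * v ^ (p - 1)) := by ring
        _ ≤ M ^ (p - 1) * r0 ^ (-ε) * (|x| / r0) ^ (-δ) := by
          have := h2.trans a2
          gcongr
    · have h1 : u ^ (p - 1) ≤ M ^ (p - 1) := Real.rpow_le_rpow hu.le huM (by linarith)
      have h2 : v ^ (-ε) ≤ v ^ (-δ) := Real.rpow_le_rpow_of_exponent_le h (by linarith)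
      calc r0 ^ (-ε) * v ^ (-ε) * u ^ (p - 1) ≤ r0 ^ (-ε) * (|x| / r0) ^ (-δ) * M ^ (p - 1) := by
            have := h2.trans a2
            gcongr
        _ = _ := by ring

lemma alg {Q κ t ρ α p p2 d c ε : ℝ} (hQ : 0 ≤ Q) (hκ : 0 < κ) (ht : 0 < t) (hρ : 0 < ρ)
    (hρ1 : 2 * ρ ≤ 1) (hp2 : p - 1 ≤ p2) (hε : ε * α = 2 * p - d)
    (hε1 : 1 ≤ ε) (hc : 0 ≤ c) :
    Q ^ p * ((2 / (ρ * κ)) ^ (p - 1) * (t ^ α / (2 * ρ)) ^ (-ε)) * ((t ^ α / (2 * ρ)) * c) ≤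
      (c * (2 / ρ) ^ p2 * (t ^ α * κ) * t ^ d) * (Q / (κ * t ^ 2)) ^ p := by
  have hta : 0 < t ^ α := Real.rpow_pos_of_pos ht _
  have h2ρ : 0 < 2 * ρ := by positivity
  have h1 : (2 / (ρ * κ)) ^ (p - 1) = (2 / ρ) ^ (p - 1) * (κ / κ ^ p) := by
    have : 2 / (ρ * κ) = (2 / ρ) / κ := by field_simp
    rw [this, Real.div_rpow (by positivity) hκ.le, Real.rpow_sub hκ, Real.rpow_one]
    have := (Real.rpow_pos_of_pos hκ p).ne'
    field_simp
  have h2 : (t ^ α / (2 * ρ)) ^ (-ε) * (t ^ α / (2 * ρ)) = (t ^ α * t ^ d * t ^ (-2 * p)) * (2 * ρ) ^ (ε - 1) := by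
    have e1 : (t ^ α / (2 * ρ)) ^ (-ε) * (t ^ α / (2 * ρ)) = (t ^ α / (2 * ρ)) ^ (1 - ε) := by
      rw [show (1 - ε) = -ε + 1 by ring, Real.rpow_add (by positivity), Real.rpow_one]
    rw [e1, Real.div_rpow hta.le h2ρ.le, ← Real.rpow_mul ht.le, ← Real.rpow_add ht, ← Real.rpow_add ht]
    have e2 : α * (1 - ε) = α + d + -2 * p := by linarith
    have e3 : (ε - 1) = -(1 - ε) := by ring
    rw [e2, e3, Real.rpow_neg h2ρ.le, div_eq_mul_inv]
  have h4 : (Q / (κ * t ^ 2)) ^ p = Q ^ p * (κ ^ p)⁻¹ * t ^ (-2 * p) := by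
    rw [Real.div_rpow hQ (by positivity), Real.mul_rpow hκ.le (by positivity),
      ← Real.rpow_natCast t 2, ← Real.rpow_mul ht.le]
    have : -2 * p = -(((2:ℕ) : ℝ) * p) := by push_cast; ring
    rw [this, Real.rpow_neg ht.le]
    have h5 := (Real.rpow_pos_of_pos hκ p).ne'
    have h6 := (Real.rpow_pos_of_pos ht (((2:ℕ) : ℝ) * p)).ne'
    field_simp
  have h5 : (2 / ρ) ^ (p - 1) * (2 * ρ) ^ (ε - 1) ≤ (2 / ρ) ^ p2 := by
    have g1 : (2 * ρ) ^ (ε - 1) ≤ 1 := Real.rpow_le_one h2ρ.le hρ1 (by linarith)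
    have g2 : (1 : ℝ) ≤ 2 / ρ := by
      rw [le_div_iff₀ hρ]; linarith
    have g3 : (2 / ρ) ^ (p - 1) ≤ (2 / ρ) ^ p2 := Real.rpow_le_rpow_of_exponent_le g2 hp2
    calc (2 / ρ) ^ (p - 1) * (2 * ρ) ^ (ε - 1) ≤ (2 / ρ) ^ p2 * 1 := by gcongr
      _ = _ := mul_one _
  calc Q ^ p * ((2 / (ρ * κ)) ^ (p - 1) * (t ^ α / (2 * ρ)) ^ (-ε)) * ((t ^ α / (2 * ρ)) * c)
      = Q ^ p * (2 / (ρ * κ)) ^ (p - 1) * ((t ^ α / (2 * ρ)) ^ (-ε) * (t ^ α / (2 * ρ))) * c := by ring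
    _ = (c * (t ^ α * κ) * t ^ d * (Q ^ p * (κ ^ p)⁻¹ * t ^ (-2 * p))) *
          ((2 / ρ) ^ (p - 1) * (2 * ρ) ^ (ε - 1)) := by
        rw [h1, h2]; ring
    _ ≤ (c * (t ^ α * κ) * t ^ d * (Q ^ p * (κ ^ p)⁻¹ * t ^ (-2 * p))) * (2 / ρ) ^ p2 := by
        refine mul_le_mul_of_nonneg_left h5 ?_
        positivity
    _ = _ := by rw [h4]; ring

lemma log_le_of {x y : ℝ} (h0 : 0 ≤ x) (hy : 0 ≤ y) (h : x ≤ Real.exp y) : Real.log x ≤ y := by
  rcases h0.eq_or_lt with rfl | h0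
  · simpa using hy
  · exact (Real.log_le_iff_le_exp h0).2 h

lemma decay {ε C e : ℝ} (he : 1 < e) (hε : 0 < ε) :
    ∃ R₀ : ℝ, 1 ≤ R₀ ∧ ∀ r, R₀ ≤ r → C * r ^ (-e) ≤ ε / r := by
  have h1 : Filter.Tendsto (fun r : ℝ => C * r ^ (-(e - 1))) Filter.atTop (nhds (C * 0)) :=
    (tendsto_rpow_neg_atTop (by linarith)).const_mul C
  rw [mul_zero] at h1
  obtain ⟨R, hR⟩ := Filter.eventually_atTop.1 (h1.eventually (gt_mem_nhds hε))
  refine ⟨max R 1, le_max_right _ _, fun r hr => ?_⟩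
  have hr1 : 1 ≤ r := (le_max_right _ _).trans hr
  have hr0 : 0 < r := by linarith
  have h2 := (hR r ((le_max_left _ _).trans hr)).le
  have e1 : C * r ^ (-e) = (C * r ^ (-(e - 1))) / r := by
    have : -(e - 1) = -e + 1 := by ring
    rw [this, Real.rpow_add hr0, Real.rpow_one]
    field_simp
  rw [e1]
  exact div_le_div_of_nonneg_right h2 hr0.le

/-- the bound function -/
noncomputable def Bf {α : Type} [MeasurableSpace α] (μ : Measure α) (Q : α → ℝ)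
    (κ t ρ a p1 p2 ε1 ε2 δ C0 : ℝ) (x : ℝ) : ℝ≥0∞ :=
  if x = 0 then ⊤ else ENNReal.ofReal C0 * ∫⁻ b, ENNReal.ofReal
      (min (Q b ^ p1 * ((2 / (ρ * κ)) ^ (p1 - 1) * (t ^ a / (2 * ρ)) ^ (-ε1) *
          min ((|x| / (t ^ a / (2 * ρ))) ^ (-ε1)) ((|x| / (t ^ a / (2 * ρ))) ^ (-δ))))
        (Q b ^ p2 * ((2 / (ρ * κ)) ^ (p2 - 1) * (t ^ a / (2 * ρ)) ^ (-ε2) *
          min ((|x| / (t ^ a / (2 * ρ))) ^ (-ε2)) ((|x| / (t ^ a / (2 * ρ))) ^ (-δ))))) ∂μ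

/-- the integral of the bound function -/
lemma B_integral {α : Type} [MeasurableSpace α] (μ : Measure α) [SFinite μ]
    (Q : α → ℝ) (hQm : Measurable Q) (hQ : ∀ x, 0 ≤ Q x)
    {κ t ρ a p1 p2 d c ε1 ε2 δ C0 : ℝ} (hκ : 0 < κ) (ht : 0 < t) (hρ : 0 < ρ)
    (hρ1 : 2 * ρ ≤ 1) (hp1 : p1 - 1 ≤ p2) (hp2 : p2 - 1 ≤ p2)
    (hε1 : ε1 * a = 2 * p1 - d) (hε2 : ε2 * a = 2 * p2 - d)
    (h1ε1 : 1 < ε1) (h1ε2 : 1 < ε2) (hδ : δ < 1) (hc : 0 ≤ c)
    (hc1 : 2 * (1 / (1 - δ) + 1 / (ε1 - 1)) ≤ c) (hc2 : 2 * (1 / (1 - δ) + 1 / (ε2 - 1)) ≤ c)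
    (hC0 : 0 < C0) :
    Measurable (Bf μ Q κ t ρ a p1 p2 ε1 ε2 δ C0) ∧
    ∫⁻ x : ℝ, Bf μ Q κ t ρ a p1 p2 ε1 ε2 δ C0 x ≤
      ENNReal.ofReal (C0 * (c * (2 / ρ) ^ p2 * (t ^ a * κ) * t ^ d)) *
        ∫⁻ b, ENNReal.ofReal (min ((Q b / (κ * t ^ 2)) ^ p1) ((Q b / (κ * t ^ 2)) ^ p2)) ∂μ := by
  have hta : 0 < t ^ a := Real.rpow_pos_of_pos ht _
  have hr0 : 0 < t ^ a / (2 * ρ) := by positivity
  unfold Bf
  set r0 := t ^ a / (2 * ρ) with hr0d
  set Kc := c * (2 / ρ) ^ p2 * (t ^ a * κ) * t ^ d with hKc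
  have hKc0 : 0 ≤ Kc := by positivity
  set F : ℝ → α → ℝ≥0∞ := fun x b => ENNReal.ofReal
      (min (Q b ^ p1 * ((2 / (ρ * κ)) ^ (p1 - 1) * r0 ^ (-ε1) *
          min ((|x| / r0) ^ (-ε1)) ((|x| / r0) ^ (-δ))))
        (Q b ^ p2 * ((2 / (ρ * κ)) ^ (p2 - 1) * r0 ^ (-ε2) *
          min ((|x| / r0) ^ (-ε2)) ((|x| / r0) ^ (-δ))))) with hF
  have hFm : Measurable (Function.uncurry F) := by
    rw [hF]
    unfold Function.uncurry
    fun_prop
  have hmeas : Measurable (fun x : ℝ => ENNReal.ofReal C0 * ∫⁻ b, F x b ∂μ) :=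
    (Measurable.lintegral_prod_right' hFm).const_mul _
  refine ⟨Measurable.ite (measurableSet_singleton 0) measurable_const hmeas, ?_⟩
  have step1 : ∫⁻ x : ℝ, (if x = 0 then ⊤ else ENNReal.ofReal C0 * ∫⁻ b, F x b ∂μ) =
      ENNReal.ofReal C0 * ∫⁻ b, (∫⁻ x : ℝ, F x b) ∂μ := by
    have h1 : ∫⁻ x : ℝ, (if x = 0 then ⊤ else ENNReal.ofReal C0 * ∫⁻ b, F x b ∂μ) =
        ∫⁻ x : ℝ, ENNReal.ofReal C0 * ∫⁻ b, F x b ∂μ := by
      apply lintegral_congr_ae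
      have : ∀ᵐ x : ℝ, x ≠ 0 := by
        rw [ae_iff]
        simp
      filter_upwards [this] with x hx
      rw [if_neg hx]
    rw [h1, lintegral_const_mul' _ _ ENNReal.ofReal_ne_top,
      lintegral_lintegral_swap hFm.aemeasurable]
  have key : ∀ (q p ε : ℝ), 0 ≤ q → p - 1 ≤ p2 → ε * a = 2 * p - d → 1 < ε →
      2 * (1 / (1 - δ) + 1 / (ε - 1)) ≤ c →
      ∫⁻ x : ℝ, ENNReal.ofReal (q ^ p * ((2 / (ρ * κ)) ^ (p - 1) * r0 ^ (-ε) *
          min ((|x| / r0) ^ (-ε)) ((|x| / r0) ^ (-δ)))) ≤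
        ENNReal.ofReal (Kc * (q / (κ * t ^ 2)) ^ p) := by
    intro q p ε hq hp hε h1ε hcc
    have hX : 0 ≤ q ^ p * ((2 / (ρ * κ)) ^ (p - 1) * r0 ^ (-ε)) := by positivity
    have e1 : ∀ x : ℝ, ENNReal.ofReal (q ^ p * ((2 / (ρ * κ)) ^ (p - 1) * r0 ^ (-ε) *
          min ((|x| / r0) ^ (-ε)) ((|x| / r0) ^ (-δ)))) =
        ENNReal.ofReal (q ^ p * ((2 / (ρ * κ)) ^ (p - 1) * r0 ^ (-ε))) *
          ENNReal.ofReal (min ((|x| / r0) ^ (-ε)) ((|x| / r0) ^ (-δ))) := by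
      intro x
      rw [← ENNReal.ofReal_mul hX]
      congr 1
      ring
    simp_rw [e1]
    rw [lintegral_const_mul' _ _ ENNReal.ofReal_ne_top]
    have h2 := lint_full hr0 hδ h1ε
    have h3 : ENNReal.ofReal (r0 * (2 * (1 / (1 - δ) + 1 / (ε - 1)))) ≤ ENNReal.ofReal (r0 * c) :=
      ENNReal.ofReal_le_ofReal (mul_le_mul_of_nonneg_left hcc hr0.le)
    calc ENNReal.ofReal (q ^ p * ((2 / (ρ * κ)) ^ (p - 1) * r0 ^ (-ε))) *
          ∫⁻ x : ℝ, ENNReal.ofReal (min ((|x| / r0) ^ (-ε)) ((|x| / r0) ^ (-δ)))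
        ≤ ENNReal.ofReal (q ^ p * ((2 / (ρ * κ)) ^ (p - 1) * r0 ^ (-ε))) * ENNReal.ofReal (r0 * c) := by
          gcongr
          exact h2.trans h3
      _ = ENNReal.ofReal (q ^ p * ((2 / (ρ * κ)) ^ (p - 1) * r0 ^ (-ε)) * (r0 * c)) := by
          rw [← ENNReal.ofReal_mul hX]
      _ ≤ _ := by
          refine ENNReal.ofReal_le_ofReal ?_
          exact alg hq hκ ht hρ hρ1 hp hε h1ε.le hc
  have step2 : ∀ b, (∫⁻ x : ℝ, F x b) ≤ ENNReal.ofReal Kc *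
      ENNReal.ofReal (min ((Q b / (κ * t ^ 2)) ^ p1) ((Q b / (κ * t ^ 2)) ^ p2)) := by
    intro b
    rw [← ENNReal.ofReal_mul hKc0]
    rcases min_choice ((Q b / (κ * t ^ 2)) ^ p1) ((Q b / (κ * t ^ 2)) ^ p2) with h | h
    · rw [h]
      refine le_trans (lintegral_mono fun x => ?_) (key (Q b) p1 ε1 (hQ b) hp1 hε1 h1ε1 hc1)
      exact ENNReal.ofReal_le_ofReal (min_le_left _ _)
    · rw [h]
      refine le_trans (lintegral_mono fun x => ?_) (key (Q b) p2 ε2 (hQ b) hp2 hε2 h1ε2 hc2)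
      exact ENNReal.ofReal_le_ofReal (min_le_right _ _)
  show ∫⁻ x : ℝ, (if x = 0 then ⊤ else ENNReal.ofReal C0 * ∫⁻ b, F x b ∂μ) ≤ _
  rw [step1, ENNReal.ofReal_mul hC0.le, mul_assoc]
  gcongr
  calc ∫⁻ b, (∫⁻ x : ℝ, F x b) ∂μ ≤ ∫⁻ b, ENNReal.ofReal Kc *
      ENNReal.ofReal (min ((Q b / (κ * t ^ 2)) ^ p1) ((Q b / (κ * t ^ 2)) ^ p2)) ∂μ :=
        lintegral_mono step2
    _ = _ := lintegral_const_mul' _ _ ENNReal.ofReal_ne_top

lemma Bk_le {α : Type} [MeasurableSpace α] (μ : Measure α)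
    (Q : α → ℝ) (hQ : ∀ x, 0 ≤ Q x) {p1 p p2 d : ℝ} (h0 : 0 < p1) (h1 : p1 < p)
    (h2 : p < p2) (hint : Integrable (fun x => Q x ^ p) μ) {T u : ℝ} (hT : 0 < T) (hu : 0 < u) :
    (∫ x, min (Q x ^ p1 * T ^ (d - 2 * p1) * u ^ (p1 - 1))
      (Q x ^ p2 * T ^ (d - 2 * p2) * u ^ (p2 - 1)) ∂μ) ≤
      (∫ x, Q x ^ p ∂μ) * (T ^ (d - 2 * p) * u ^ (p - 1)) := by
  rw [← integral_mul_const]
  refine integral_mono_of_nonneg ?_ (hint.mul_const _) ?_
  · refine Filter.Eventually.of_forall fun x => ?_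
    have := hQ x
    show 0 ≤ min (Q x ^ p1 * T ^ (d - 2 * p1) * u ^ (p1 - 1))
      (Q x ^ p2 * T ^ (d - 2 * p2) * u ^ (p2 - 1))
    exact le_min (by positivity) (by positivity)
  · refine Filter.Eventually.of_forall fun x => ?_
    exact min_bound h0 h1 h2 (hQ x) hT hu

lemma ofReal_Bk_le {α : Type} [MeasurableSpace α] (μ : Measure α)
    (Q : α → ℝ) (hQm : Measurable Q) (hQ : ∀ x, 0 ≤ Q x) {p1 p2 d T u : ℝ} (hT : 0 < T)
    (hu : 0 < u) :
    ENNReal.ofReal (∫ x, min (Q x ^ p1 * T ^ (d - 2 * p1) * u ^ (p1 - 1))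
      (Q x ^ p2 * T ^ (d - 2 * p2) * u ^ (p2 - 1)) ∂μ) ≤
      ∫⁻ x, ENNReal.ofReal (min (Q x ^ p1 * T ^ (d - 2 * p1) * u ^ (p1 - 1))
      (Q x ^ p2 * T ^ (d - 2 * p2) * u ^ (p2 - 1))) ∂μ := by
  rw [integral_eq_lintegral_of_nonneg_ae]
  · exact ENNReal.ofReal_toReal_le
  · refine Filter.Eventually.of_forall fun x => ?_
    have := hQ x
    show 0 ≤ min (Q x ^ p1 * T ^ (d - 2 * p1) * u ^ (p1 - 1))
      (Q x ^ p2 * T ^ (d - 2 * p2) * u ^ (p2 - 1))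
    exact le_min (by positivity) (by positivity)
  · apply Measurable.aestronglyMeasurable
    fun_prop

end CXK10

open CXK10 in
/-- zero counting, dimension `d ≥ 2` -/
theorem d10_count
    (halfplane : ∀ (f h : ℂ → ℂ) (_ : DifferentiableOn ℂ f {z : ℂ | 0 < z.im})
      (_ : DifferentiableOn ℂ h {z : ℂ | 0 < z.im}) (n : ℕ) (z : Fin n → ℂ) (η : ℝ) (_ : 0 < η)
      (_ : ∀ i, η < (z i).im) (_ : ∀ w : ℂ, 0 < w.im → f w = h w * ∏ i, (w - z i))
      (B : ℝ → ℝ≥0∞) (_ : Measurable B)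
      (_ : ∀ w : ℂ, η ≤ w.im → ENNReal.ofReal (Real.log ‖f w‖) ≤ B w.re)
      (_ : ∀ ε : ℝ, 0 < ε → ∃ R₀ : ℝ, ∀ w : ℂ, R₀ ≤ ‖w‖ → ‖w‖ ≤ 8 * w.im →
        Real.log ‖f w‖ ≤ ε / ‖w‖)
      (_ : ∀ ε : ℝ, 0 < ε → ∃ R₀ : ℝ, ∀ R : ℝ, R₀ ≤ R →
        f (Complex.I * (η + R)) ≠ 0 ∧ -(ε / R) ≤ Real.log ‖f (Complex.I * (η + R))‖),
      ENNReal.ofReal (∑ i, ((z i).im - η)) ≤ ∫⁻ x, B x)
    (d : ℕ) (hd : 2 ≤ d) (p1 p2 p C0 c0 : ℝ) (h1 : ((d : ℝ) + 1) / 2 < p1) (h1p : p1 < p)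
    (hp2 : p < p2) (h2 : p2 < d) (hC0 : 0 < C0) (hc0 : 0 < c0) :
    ∃ C : ℝ, 0 < C ∧ ∀ (α : Type) [MeasurableSpace α] (μ : Measure α) [SFinite μ]
      (Q : α → ℝ) (_ : Measurable Q) (_ : ∀ x, 0 ≤ Q x) (_ : Integrable (fun x => Q x ^ p) μ)
      (D gf : ℂ → ℂ) (_ : DifferentiableOn ℂ D {k : ℂ | 0 < k.im})
      (_ : DifferentiableOn ℂ gf {k : ℂ | 0 < k.im}) (N : ℕ) (E : Fin N → ℂ)
      (_ : ∀ k : ℂ, 0 < k.im → D k = gf k * ∏ j, (k ^ 2 - E j))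
      (_ : ∀ k : ℂ, 0 < k.im → ‖D k‖ ≤ Real.exp (C0 * ∫ x,
        min (Q x ^ p1 * ‖k‖ ^ ((d : ℝ) - 2 * p1) * (‖k‖ / k.im) ^ (p1 - 1))
          (Q x ^ p2 * ‖k‖ ^ ((d : ℝ) - 2 * p2) * (‖k‖ / k.im) ^ (p2 - 1)) ∂μ))
      (_ : ∀ k : ℂ, 0 < k.im → (∫ x,
        min (Q x ^ p1 * ‖k‖ ^ ((d : ℝ) - 2 * p1) * (‖k‖ / k.im) ^ (p1 - 1))
          (Q x ^ p2 * ‖k‖ ^ ((d : ℝ) - 2 * p2) * (‖k‖ / k.im) ^ (p2 - 1)) ∂μ) ≤ c0 →
        Real.exp (-(C0 * ∫ x,
        min (Q x ^ p1 * ‖k‖ ^ ((d : ℝ) - 2 * p1) * (‖k‖ / k.im) ^ (p1 - 1))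
          (Q x ^ p2 * ‖k‖ ^ ((d : ℝ) - 2 * p2) * (‖k‖ / k.im) ^ (p2 - 1)) ∂μ)) ≤ ‖D k‖)
      (t κ : ℝ) (_ : 0 < t) (_ : 0 < κ) (_ : κ ≤ 1),
      ENNReal.ofReal ((Finset.univ.filter (fun j => t ≤ Real.sqrt ‖E j‖ ∧
        κ ≤ Real.sqrt ((1 - (E j).re / ‖E j‖) / 2))).card) ≤
      ENNReal.ofReal (C * t ^ d) * ∫⁻ x, ENNReal.ofReal
        (min ((Q x / (κ * t ^ 2)) ^ p1) ((Q x / (κ * t ^ 2)) ^ p2)) ∂μ := by
  classical
  have hd' : (2:ℝ) ≤ d := by exact_mod_cast hd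
  have hp1 : (3:ℝ)/2 < p1 := by linarith
  have hpi := Real.pi_pos
  have hpi3 := Real.pi_gt_three
  obtain ⟨ρ, hρ0, hρ1, hρ2⟩ : ∃ ρ : ℝ, 0 < ρ ∧ ρ * Real.pi ≤ 1 ∧ 2 * ρ ≤ 2*p1 - d - 1 := by
    refine ⟨min (1/Real.pi) ((2*p1-d-1)/2), lt_min (by positivity) (by linarith), ?_, ?_⟩
    · have := min_le_left (1/Real.pi) ((2*p1-d-1)/2)
      calc _ ≤ (1/Real.pi) * Real.pi := mul_le_mul_of_nonneg_right this hpi.le
        _ = 1 := by field_simp
    · linarith [min_le_right (1/Real.pi) ((2*p1-d-1)/2)]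
  have h2ρ : 2 * ρ ≤ 1 := by nlinarith
  set e0 : ℝ := (2*p1-d)/(1+ρ) - 1 with he0
  have he0pos : 0 < e0 := by
    rw [he0, sub_pos, lt_div_iff₀ (by linarith)]; linarith
  set δ : ℝ := max (1/2) (p2 - d + 1) with hδ
  have hδ1 : δ < 1 := max_lt (by norm_num) (by linarith)
  have hδ0 : 1/2 ≤ δ := le_max_left _ _
  have hδ2 : p2 - d + 1 ≤ δ := le_max_right _ _
  have h1δ : 0 < 1 - δ := by linarith
  set c : ℝ := 2 * (1 / (1 - δ) + 1 / e0) with hc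
  have hcpos : 0 < c := by positivity
  refine ⟨4 * C0 * c * (2/ρ)^p2, by positivity, ?_⟩
  intro α _ μ _ Q hQm hQ hQint D gf hD hgf N E hfac hup hlow t κ ht hκ hκ1
  set a : ℝ := 1 + ρ * κ with ha
  have hρκ : 0 < ρ * κ := by positivity
  have ha1 : 1 < a := by linarith
  have haρ : a ≤ 1 + ρ := by nlinarith
  have ha0 : 0 < a := by linarith
  have hαhyp : (a - 1) * (Real.pi / 2) ≤ κ / 2 := by
    have : (a - 1) * (Real.pi / 2) = (ρ * Real.pi) * κ / 2 := by rw [ha]; ring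
    rw [this]
    nlinarith
  -- exponents
  have hexp : ∀ q, p1 ≤ q → 1 + e0 ≤ (2 * q - d) / a ∧ (2 * q - d) / a * a = 2 * q - d := by
    intro q hq
    refine ⟨?_, by field_simp⟩
    have : 1 + e0 = (2*p1-d)/(1+ρ) := by rw [he0]; ring
    rw [this]
    have hpos : 0 < 2 * p1 - d := by linarith
    calc (2*p1-d)/(1+ρ) ≤ (2*p1-d)/a := by gcongr
      _ ≤ _ := by gcongr
  set ε1 := (2 * p1 - d) / a with hε1
  set ε2 := (2 * p2 - d) / a with hε2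
  obtain ⟨hε1a, hε1b⟩ := hexp p1 le_rfl
  obtain ⟨hε2a, hε2b⟩ := hexp p2 (by linarith)
  rw [← hε1] at hε1a hε1b
  rw [← hε2] at hε2a hε2b
  have h1ε1 : 1 < ε1 := by linarith
  have h1ε2 : 1 < ε2 := by linarith
  have hcc : ∀ ε, 1 + e0 ≤ ε → 2 * (1 / (1 - δ) + 1 / (ε - 1)) ≤ c := by
    intro ε hε
    rw [hc]
    have : 1 / (ε - 1) ≤ 1 / e0 := one_div_le_one_div_of_le he0pos (by linarith)
    linarith
  obtain ⟨hBm, hBint⟩ := B_integral μ Q hQm hQ (κ := κ) (t := t) (ρ := ρ) (a := a) (p1 := p1)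
    (p2 := p2) (d := (d:ℝ)) (c := c) (ε1 := ε1) (ε2 := ε2) (δ := δ) (C0 := C0) hκ ht hρ0 h2ρ
    (by linarith) (by linarith) hε1b hε2b h1ε1 h1ε2 hδ1 hcpos.le (hcc _ hε1a) (hcc _ hε2a) hC0
  set M : ℝ := 2 / (ρ * κ) with hM
  have hM0 : 0 < M := by positivity
  set η : ℝ := t ^ a * κ / 4 with hη
  have hta : 0 < t ^ a := Real.rpow_pos_of_pos ht _
  have hη0 : 0 < η := by positivity
  have hMη : M * η = t ^ a / (2 * ρ) := by
    rw [hM, hη]; field_simp; ring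
  -- the cosine bound
  have hcosM : 1 / M ≤ Real.cos (Real.pi / (2 * a)) := by
    have e1 : Real.cos (Real.pi / (2 * a)) = Real.sin ((Real.pi / 2) * ((a - 1) / a)) := by
      rw [← Real.cos_pi_div_two_sub]
      congr 1
      field_simp
      ring
    have h3 : 0 ≤ (a - 1) / a := div_nonneg (by linarith) ha0.le
    have h4 : (a - 1) / a ≤ 1 := by rw [div_le_one ha0]; linarith
    have e2 := Real.mul_le_sin (x := (Real.pi / 2) * ((a - 1) / a)) (by positivity) (by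
      nlinarith)
    have e3 : 2 / Real.pi * ((Real.pi / 2) * ((a - 1) / a)) = (a - 1) / a := by field_simp
    rw [e3] at e2
    rw [e1]
    refine le_trans ?_ e2
    have e4 : 1 / M = (a - 1) / 2 := by rw [hM, ha]; field_simp; ring
    rw [e4]
    have : a ≤ 2 := by linarith
    have h5 : 0 ≤ a - 1 := by linarith
    gcongr
  -- bound for u = ‖k‖ / Im k
  have hu : ∀ z : ℂ, 0 < z.im → 0 < (K a z).im ∧ 0 < ‖z‖ ∧ 0 < ‖K a z‖ ∧
      0 < ‖K a z‖ / (K a z).im ∧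
      ‖K a z‖ / (K a z).im ≤ ‖z‖ / z.im ∧ ‖K a z‖ / (K a z).im ≤ M ∧
      ∀ q : ℝ, ‖K a z‖ ^ ((d:ℝ) - 2 * q) = ‖z‖ ^ (-((2 * q - d) / a)) := by
    intro z hz
    obtain ⟨k1, k2, k3, k4⟩ := K_facts ha1.le hz
    have k5 : 0 < ‖K a z‖ := by rw [K_norm]; exact Real.rpow_pos_of_pos k2 _
    refine ⟨k1, k2, k5, by positivity, ?_, ?_, ?_⟩
    · have := one_div_le_one_div_of_le (by positivity) k3
      rwa [one_div_div, one_div_div] at this
    · have h6 := one_div_le_one_div_of_le (by positivity) (hcosM.trans k4)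
      rwa [one_div_div, one_div_one_div] at h6
    · intro q
      rw [K_norm, ← Real.rpow_mul k2.le]
      congr 1
      ring
  set S := Finset.univ.filter (fun j => t ≤ Real.sqrt ‖E j‖ ∧
        κ ≤ Real.sqrt ((1 - (E j).re / ‖E j‖) / 2)) with hS
  have hzz : ∀ j, ∃ z : ℂ, j ∈ S → t ^ a * (κ / 2) ≤ z.im ∧ K a z ^ 2 = E j := by
    intro j
    by_cases hj : j ∈ S
    · have hj' := (Finset.mem_filter.1 hj).2
      obtain ⟨z, hz⟩ := zero_pt ha1.le hαhyp hκ hκ1 ht hj'.1 hj'.2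
      exact ⟨z, fun _ => hz⟩
    · exact ⟨0, fun h => absurd h hj⟩
  choose zz hzz using hzz
  have hKm : Set.MapsTo (K a) {z : ℂ | 0 < z.im} {z : ℂ | 0 < z.im} := fun z hz => (hu z hz).1
  have hUo : IsOpen {z : ℂ | 0 < z.im} := isOpen_lt continuous_const Complex.continuous_im
  have hzim : ∀ j ∈ S, 2 * η ≤ (zz j).im := by
    intro j hj
    have := (hzz j hj).1
    rw [hη]
    linarith
  obtain ⟨h, hh1, hh2⟩ := factor_all hUo (fun j z => K a z ^ 2 - E j)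
    (fun j => (K_diff.pow 2).sub_const _) (fun z => gf (K a z)) (hgf.comp K_diff hKm) S zz
    (fun j hj => ⟨by
      show 0 < (zz j).im
      linarith [hzim j hj], by
      show K a (zz j) ^ 2 - E j = 0
      rw [(hzz j hj).2, sub_self]⟩)
  have hI0 : 0 ≤ ∫ x, Q x ^ p ∂μ := integral_nonneg fun x => Real.rpow_nonneg (hQ x) _
  obtain ⟨he1, -⟩ := hexp p h1p.le
  set e := (2 * p - d) / a with he
  have he1' : 1 < e := by linarith
  have hBk0 : ∀ k : ℂ, 0 < k.im → 0 ≤ ∫ x,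
        min (Q x ^ p1 * ‖k‖ ^ ((d : ℝ) - 2 * p1) * (‖k‖ / k.im) ^ (p1 - 1))
          (Q x ^ p2 * ‖k‖ ^ ((d : ℝ) - 2 * p2) * (‖k‖ / k.im) ^ (p2 - 1)) ∂μ := by
    intro k hk
    refine integral_nonneg fun x => ?_
    have := hQ x
    have hn : 0 ≤ ‖k‖ := norm_nonneg _
    show 0 ≤ min (Q x ^ p1 * ‖k‖ ^ ((d : ℝ) - 2 * p1) * (‖k‖ / k.im) ^ (p1 - 1))
          (Q x ^ p2 * ‖k‖ ^ ((d : ℝ) - 2 * p2) * (‖k‖ / k.im) ^ (p2 - 1))
    exact le_min (by positivity) (by positivity)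
  have hlog : ∀ w : ℂ, 0 < w.im → Real.log ‖D (K a w)‖ ≤ C0 * ∫ x,
        min (Q x ^ p1 * ‖K a w‖ ^ ((d : ℝ) - 2 * p1) * (‖K a w‖ / (K a w).im) ^ (p1 - 1))
          (Q x ^ p2 * ‖K a w‖ ^ ((d : ℝ) - 2 * p2) * (‖K a w‖ / (K a w).im) ^ (p2 - 1)) ∂μ := by
    intro w hw
    exact log_le_of (norm_nonneg _) (mul_nonneg hC0.le (hBk0 _ (hKm hw))) (hup _ (hKm hw))
  have hBkp : ∀ w : ℂ, 0 < w.im → ∫ x,
        min (Q x ^ p1 * ‖K a w‖ ^ ((d : ℝ) - 2 * p1) * (‖K a w‖ / (K a w).im) ^ (p1 - 1))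
          (Q x ^ p2 * ‖K a w‖ ^ ((d : ℝ) - 2 * p2) * (‖K a w‖ / (K a w).im) ^ (p2 - 1)) ∂μ ≤
        (∫ x, Q x ^ p ∂μ) * (‖w‖ ^ (-e) * (‖w‖ / w.im) ^ (p - 1)) := by
    intro w hw
    obtain ⟨u1, u2, u3, u4, u5, u6, u7⟩ := hu w hw
    refine (Bk_le μ Q hQ (by linarith) h1p hp2 hQint u3 u4).trans ?_
    rw [u7 p, ← he]
    gcongr
    linarith
  have hap := halfplane (fun z => D (K a z)) h (hD.comp K_diff hKm) hh1 S.card
    (fun i => zz (S.equivFin.symm i : Fin N)) η hη0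
    (by
      intro i
      have := hzim _ (S.equivFin.symm i).2
      show η < (zz (S.equivFin.symm i : Fin N)).im
      linarith)
    (by
      intro w hw
      show D (K a w) = _
      rw [hfac _ (hKm hw)]
      exact hh2 w)
    _ hBm
    (by
      intro w hw
      have hw0 : 0 < w.im := by linarith
      obtain ⟨u1, u2, u3, u4, u5, u6, u7⟩ := hu w hw0
      unfold Bf
      split_ifs with hre
      · exact le_top
      · have hx : 0 < |w.re| := abs_pos.2 hre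
        have hxr : |w.re| ≤ ‖w‖ := Complex.abs_re_le_norm w
        have hur : ‖K a w‖ / (K a w).im ≤ ‖w‖ / η := u5.trans (by gcongr)
        calc ENNReal.ofReal (Real.log ‖D (K a w)‖)
            ≤ ENNReal.ofReal (C0 * ∫ x,
        min (Q x ^ p1 * ‖K a w‖ ^ ((d : ℝ) - 2 * p1) * (‖K a w‖ / (K a w).im) ^ (p1 - 1))
          (Q x ^ p2 * ‖K a w‖ ^ ((d : ℝ) - 2 * p2) * (‖K a w‖ / (K a w).im) ^ (p2 - 1)) ∂μ) :=
              ENNReal.ofReal_le_ofReal (hlog w hw0)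
          _ = ENNReal.ofReal C0 * ENNReal.ofReal (∫ x,
        min (Q x ^ p1 * ‖K a w‖ ^ ((d : ℝ) - 2 * p1) * (‖K a w‖ / (K a w).im) ^ (p1 - 1))
          (Q x ^ p2 * ‖K a w‖ ^ ((d : ℝ) - 2 * p2) * (‖K a w‖ / (K a w).im) ^ (p2 - 1)) ∂μ) :=
              ENNReal.ofReal_mul hC0.le
          _ ≤ ENNReal.ofReal C0 * ∫⁻ x, ENNReal.ofReal (
        min (Q x ^ p1 * ‖K a w‖ ^ ((d : ℝ) - 2 * p1) * (‖K a w‖ / (K a w).im) ^ (p1 - 1))
          (Q x ^ p2 * ‖K a w‖ ^ ((d : ℝ) - 2 * p2) * (‖K a w‖ / (K a w).im) ^ (p2 - 1))) ∂μ := by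
              gcongr
              exact ofReal_Bk_le μ Q hQm hQ u3 u4
          _ ≤ _ := by
              refine mul_le_mul_right (lintegral_mono fun x => ENNReal.ofReal_le_ofReal
                (min_le_min ?_ ?_)) _
              · have hpw := pw (r := ‖w‖) (x := w.re) (p := p1) (ε := ε1) (δ := δ) hη0 hM0 hx hxr
                  (by linarith) (by linarith) (by
                    have : ε1 ≤ 2 * p1 - d := by
                      rw [hε1, div_le_iff₀ ha0]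
                      nlinarith
                    linarith) (by linarith) u4 u6 hur
                rw [hMη, hM] at hpw
                rw [u7 p1, ← hε1, mul_assoc]
                exact mul_le_mul_of_nonneg_left hpw (Real.rpow_nonneg (hQ x) _)
              · have hpw := pw (r := ‖w‖) (x := w.re) (p := p2) (ε := ε2) (δ := δ) hη0 hM0 hx hxr
                  (by linarith) (by linarith) (by
                    have : ε2 ≤ 2 * p2 - d := by
                      rw [hε2, div_le_iff₀ ha0]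
                      nlinarith
                    linarith) (by linarith) u4 u6 hur
                rw [hMη, hM] at hpw
                rw [u7 p2, ← hε2, mul_assoc]
                exact mul_le_mul_of_nonneg_left hpw (Real.rpow_nonneg (hQ x) _))
    (by
      intro ε hε
      obtain ⟨R₀, hR1, hR⟩ := decay (C := C0 * ((∫ x, Q x ^ p ∂μ) * 8 ^ (p - 1))) he1' hε
      refine ⟨R₀, fun w hw1 hw2 => ?_⟩
      have hn : 0 < ‖w‖ := by linarith
      have hw0 : 0 < w.im := by linarith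
      refine le_trans ?_ (hR _ hw1)
      refine (hlog w hw0).trans ?_
      have h8 : ‖w‖ / w.im ≤ 8 := by rw [div_le_iff₀ hw0]; exact hw2
      calc _ ≤ C0 * ((∫ x, Q x ^ p ∂μ) * (‖w‖ ^ (-e) * (‖w‖ / w.im) ^ (p - 1))) :=
            mul_le_mul_of_nonneg_left (hBkp w hw0) hC0.le
        _ ≤ C0 * ((∫ x, Q x ^ p ∂μ) * (‖w‖ ^ (-e) * 8 ^ (p - 1))) := by
            gcongr
            linarith
        _ = _ := by ring)
    (by
      intro ε hε
      obtain ⟨R₀, hR1, hR⟩ := decay (C := C0 * (∫ x, Q x ^ p ∂μ)) he1' hε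
      obtain ⟨R₁, hR1', hR'⟩ := decay (C := (∫ x, Q x ^ p ∂μ)) he1' hc0
      refine ⟨max R₀ R₁, fun R hRR => ?_⟩
      have hR0 : R₀ ≤ R := (le_max_left _ _).trans hRR
      have hR1 : R₁ ≤ R := (le_max_right _ _).trans hRR
      have hRpos : 1 ≤ R := hR1'.trans hR1
      have him : (Complex.I * ((η : ℂ) + (R : ℂ))).im = η + R := by simp
      have hnorm : ‖Complex.I * ((η : ℂ) + (R : ℂ))‖ = η + R := by
        rw [norm_mul, Complex.norm_I, one_mul, ← Complex.ofReal_add, Complex.norm_real,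
          Real.norm_eq_abs, abs_of_pos (by linarith)]
      have hw0 : 0 < (Complex.I * ((η : ℂ) + (R : ℂ))).im := by rw [him]; linarith
      have hb := hBkp _ hw0
      rw [hnorm, him, div_self (by linarith : η + R ≠ 0), Real.one_rpow, mul_one] at hb
      have hmono : (η + R) ^ (-e) ≤ R ^ (-e) :=
        Real.rpow_le_rpow_of_nonpos (by linarith) (by linarith) (by linarith)
      have hb2 := hb.trans (mul_le_mul_of_nonneg_left hmono hI0)
      have hsmall : (∫ x, Q x ^ p ∂μ) * R ^ (-e) ≤ c0 := by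
        refine (hR' R hR1).trans ?_
        rw [div_le_iff₀ (by linarith)]
        nlinarith
      have hl := hlow _ (hKm hw0) (hb2.trans hsmall)
      have hpos : 0 < ‖D (K a (Complex.I * ((η : ℂ) + (R : ℂ))))‖ := lt_of_lt_of_le (Real.exp_pos _) hl
      refine ⟨norm_pos_iff.1 hpos, ?_⟩
      have hl2 := (Real.le_log_iff_exp_le hpos).2 hl
      refine le_trans ?_ hl2
      rw [neg_le_neg_iff]
      refine le_trans ?_ (hR R hR0)
      calc _ ≤ C0 * ((∫ x, Q x ^ p ∂μ) * R ^ (-e)) := mul_le_mul_of_nonneg_left hb2 hC0.le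
        _ = _ := by ring)
  have hcard : (S.card : ℝ) * η ≤ ∑ i : Fin S.card, ((zz (S.equivFin.symm i : Fin N)).im - η) := by
    have : ∑ _i : Fin S.card, η ≤ ∑ i : Fin S.card, ((zz (S.equivFin.symm i : Fin N)).im - η) := by
      refine Finset.sum_le_sum fun i _ => ?_
      have := hzim _ (S.equivFin.symm i).2
      linarith
    simpa using this
  have hfin := (ENNReal.ofReal_le_ofReal hcard).trans (hap.trans hBint)
  rw [ENNReal.ofReal_mul (by positivity), Real.rpow_natCast] at hfin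
  have hconst : C0 * (c * (2 / ρ) ^ p2 * (t ^ a * κ) * t ^ d) =
      (4 * C0 * c * (2 / ρ) ^ p2 * t ^ d) * η := by
    rw [hη]; ring
  rw [hconst, ENNReal.ofReal_mul (by positivity : 0 ≤ 4 * C0 * c * (2 / ρ) ^ p2 * t ^ d),
    mul_assoc (ENNReal.ofReal _) (ENNReal.ofReal η), mul_comm (ENNReal.ofReal η), ← mul_assoc] at hfin
  have hη1 : ENNReal.ofReal η ≠ 0 := by
    rw [Ne, ENNReal.ofReal_eq_zero, not_le]; exact hη0
  exact (ENNReal.mul_le_mul_iff_left hη1 ENNReal.ofReal_ne_top).1 hfin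

end K10
end Pool.Agent.Helper209.CX
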