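import Mathlib

namespace Pool.Agent.Helper209.CX

namespace K11
open MeasureTheory ENNReal

theorem d11s_half (a : ℝ) (ha : 0 < a) (ha2 : a < 1) :
    ∫⁻ x in Set.Ioi (0:ℝ), ENNReal.ofReal (|x ^ 2 - 1| ^ (-(1 / 2) : ℝ) * |x| ^ (-a)) < ⊤ := by
  set F : ℝ → ℝ := fun x => |x ^ 2 - 1| ^ (-(1 / 2) : ℝ) * |x| ^ (-a) with hF
  have piece : ∀ (s : Set ℝ) (g : ℝ → ℝ), MeasurableSet s → IntegrableOn g s →
      (∀ x ∈ s, F x ≤ g x) → ∫⁻ x in s, ENNReal.ofReal (F x) < ⊤ := by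
    intro s g hs hg hle
    refine lt_of_le_of_lt (setLIntegral_mono' hs (fun x hx => ENNReal.ofReal_le_ofReal (hle x hx)))
      hg.setLIntegral_lt_top
  have h1 : ∫⁻ x in Set.Ioc (0:ℝ) (1/2), ENNReal.ofReal (F x) < ⊤ := by
    refine piece _ (fun x => (1/4 : ℝ) ^ (-(1 / 2) : ℝ) * x ^ (-a)) measurableSet_Ioc ?_ ?_
    · refine Integrable.const_mul ?_ _
      have := intervalIntegral.intervalIntegrable_rpow' (a := 0) (b := 1/2) (r := -a) (by linarith)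
      rwa [intervalIntegrable_iff_integrableOn_Ioc_of_le (by norm_num)] at this
    · intro x hx
      have hx0 : 0 < x := hx.1
      have hx1 : x ≤ 1/2 := hx.2
      have e1 : (1/4 : ℝ) ≤ |x ^ 2 - 1| := by
        rw [abs_of_nonpos (by nlinarith)]
        nlinarith
      simp only [hF]
      rw [abs_of_pos hx0]
      exact mul_le_mul_of_nonneg_right
        (Real.rpow_le_rpow_of_nonpos (by norm_num) e1 (by norm_num)) (Real.rpow_nonneg hx0.le _)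
  have h2 : ∫⁻ x in Set.Ioc (1/2:ℝ) 1, ENNReal.ofReal (F x) < ⊤ := by
    refine piece _ (fun x => (1/2 : ℝ) ^ (-a) * (1 - x) ^ (-(1 / 2) : ℝ)) measurableSet_Ioc ?_ ?_
    · refine Integrable.const_mul ?_ _
      have h0 := (intervalIntegral.intervalIntegrable_rpow' (a := 0) (b := 1/2) (r := -(1/2))
        (by norm_num)).comp_sub_left 1
      have h0' : IntervalIntegrable (fun x : ℝ => (1 - x) ^ (-(1 / 2) : ℝ)) volume (1/2) 1 := by
        have := h0.symm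
        norm_num at this ⊢
        exact this
      rwa [intervalIntegrable_iff_integrableOn_Ioc_of_le (by norm_num)] at h0'
    · intro x hx
      have hx0 : 1/2 < x := hx.1
      have hx1 : x ≤ 1 := hx.2
      have hxp : 0 < x := by linarith
      simp only [hF]
      rw [abs_of_pos hxp, mul_comm]
      have e2 : x ^ (-a) ≤ (1/2 : ℝ) ^ (-a) :=
        Real.rpow_le_rpow_of_nonpos (by norm_num) hx0.le (by linarith)
      refine mul_le_mul e2 ?_ (Real.rpow_nonneg (abs_nonneg _) _) (by positivity)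
      rcases eq_or_lt_of_le hx1 with rfl | hlt
      · norm_num
      · have e1 : 1 - x ≤ |x ^ 2 - 1| := by
          rw [abs_of_nonpos (by nlinarith)]
          nlinarith
        exact Real.rpow_le_rpow_of_nonpos (by linarith) e1 (by norm_num)
  have h3 : ∫⁻ x in Set.Ioc (1:ℝ) 2, ENNReal.ofReal (F x) < ⊤ := by
    refine piece _ (fun x => (x - 1) ^ (-(1 / 2) : ℝ)) measurableSet_Ioc ?_ ?_
    · have h0 := (intervalIntegral.intervalIntegrable_rpow' (a := 0) (b := 1) (r := -(1/2))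
        (by norm_num)).comp_sub_right 1
      have h0' : IntervalIntegrable (fun x : ℝ => (x - 1) ^ (-(1 / 2) : ℝ)) volume 1 2 := by
        norm_num at h0 ⊢
        exact h0
      rwa [intervalIntegrable_iff_integrableOn_Ioc_of_le (by norm_num)] at h0'
    · intro x hx
      have hx0 : 1 < x := hx.1
      have hx1 : x ≤ 2 := hx.2
      have hxp : 0 < x := by linarith
      simp only [hF]
      rw [abs_of_pos hxp]
      have e2 : x ^ (-a) ≤ 1 := Real.rpow_le_one_of_one_le_of_nonpos hx0.le (by linarith)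
      have e1 : x - 1 ≤ |x ^ 2 - 1| := by
        rw [abs_of_nonneg (by nlinarith)]
        nlinarith
      have e3 : |x ^ 2 - 1| ^ (-(1 / 2) : ℝ) ≤ (x - 1) ^ (-(1 / 2) : ℝ) :=
        Real.rpow_le_rpow_of_nonpos (by linarith) e1 (by norm_num)
      calc |x ^ 2 - 1| ^ (-(1 / 2) : ℝ) * x ^ (-a) ≤ (x - 1) ^ (-(1 / 2) : ℝ) * 1 :=
            mul_le_mul e3 e2 (Real.rpow_nonneg hxp.le _) (Real.rpow_nonneg (by linarith) _)
        _ = _ := mul_one _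
  have h4 : ∫⁻ x in Set.Ioi (2:ℝ), ENNReal.ofReal (F x) < ⊤ := by
    refine piece _ (fun x => (1/4 : ℝ) ^ (-(1 / 2) : ℝ) * x ^ (-1 - a)) measurableSet_Ioi ?_ ?_
    · exact (integrableOn_Ioi_rpow_of_lt (by linarith) (by norm_num)).const_mul _
    · intro x hx
      have hx0 : 2 < x := hx
      have hxp : 0 < x := by linarith
      simp only [hF]
      rw [abs_of_pos hxp]
      have e1 : (1/4) * x ^ 2 ≤ |x ^ 2 - 1| := by
        rw [abs_of_nonneg (by nlinarith)]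
        nlinarith
      have e3 : |x ^ 2 - 1| ^ (-(1 / 2) : ℝ) ≤ ((1/4) * x ^ 2) ^ (-(1 / 2) : ℝ) :=
        Real.rpow_le_rpow_of_nonpos (by positivity) e1 (by norm_num)
      have e4 : ((1/4) * x ^ 2) ^ (-(1 / 2) : ℝ) = (1/4 : ℝ) ^ (-(1 / 2) : ℝ) * x ^ (-1 : ℝ) := by
        rw [Real.mul_rpow (by norm_num) (by positivity)]
        congr 1
        rw [← Real.rpow_natCast, ← Real.rpow_mul hxp.le]
        norm_num
      have e5 : x ^ (-1 - a) = x ^ (-1 : ℝ) * x ^ (-a) := by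
        rw [← Real.rpow_add hxp]; ring_nf
      rw [e5, ← mul_assoc, ← e4]
      exact mul_le_mul_of_nonneg_right e3 (Real.rpow_nonneg hxp.le _)
  have hcov : Set.Ioi (0:ℝ) ⊆ ((Set.Ioc (0:ℝ) (1/2) ∪ Set.Ioc (1/2:ℝ) 1) ∪ Set.Ioc (1:ℝ) 2) ∪
      Set.Ioi 2 := by
    intro x hx
    have hx0 : (0:ℝ) < x := hx
    simp only [Set.mem_union, Set.mem_Ioc, Set.mem_Ioi]
    rcases le_or_gt x (1/2) with h | h
    · left; left; left; exact ⟨hx0, h⟩
    · rcases le_or_gt x 1 with h' | h'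
      · left; left; right; exact ⟨h, h'⟩
      · rcases le_or_gt x 2 with h'' | h''
        · left; right; exact ⟨h', h''⟩
        · right; exact h''
  refine lt_of_le_of_lt (lintegral_mono_set hcov) ?_
  refine lt_of_le_of_lt (lintegral_union_le _ _ _) (ENNReal.add_lt_top.2 ⟨?_, h4⟩)
  refine lt_of_le_of_lt (lintegral_union_le _ _ _) (ENNReal.add_lt_top.2 ⟨?_, h3⟩)
  exact lt_of_le_of_lt (lintegral_union_le _ _ _) (ENNReal.add_lt_top.2 ⟨h1, h2⟩)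

theorem d11s_full (a : ℝ) (ha : 0 < a) (ha2 : a < 1) :
    ∫⁻ x : ℝ, ENNReal.ofReal (|x ^ 2 - 1| ^ (-(1 / 2) : ℝ) * |x| ^ (-a)) < ⊤ := by
  set G : ℝ → ℝ≥0∞ := fun x => ENNReal.ofReal (|x ^ 2 - 1| ^ (-(1 / 2) : ℝ) * |x| ^ (-a)) with hG
  have h1 : ∫⁻ x in Set.Ioi (0:ℝ), G x < ⊤ := d11s_half a ha ha2
  have hev : ∀ x, G (-x) = G x := fun x => by simp [hG]
  have h2 : ∫⁻ x in Set.Iio (0:ℝ), G x = ∫⁻ x in Set.Ioi (0:ℝ), G x := by
    rw [← lintegral_indicator measurableSet_Iio, ← lintegral_indicator measurableSet_Ioi,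
      ← lintegral_neg_eq_self]
    refine lintegral_congr fun x => ?_
    by_cases hx : 0 < x
    · rw [Set.indicator_of_mem (show -x ∈ Set.Iio (0:ℝ) by simpa using hx),
        Set.indicator_of_mem (show x ∈ Set.Ioi (0:ℝ) from hx), hev]
    · rw [Set.indicator_of_notMem (show -x ∉ Set.Iio (0:ℝ) by simpa using hx),
        Set.indicator_of_notMem (show x ∉ Set.Ioi (0:ℝ) from hx)]
  have h3 : ∫⁻ x in ({0} : Set ℝ), G x = 0 := by
    rw [setLIntegral_measure_zero]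
    simp
  have hcov : (Set.univ : Set ℝ) ⊆ (Set.Iio (0:ℝ) ∪ {0}) ∪ Set.Ioi (0:ℝ) := by
    intro x _
    rcases lt_trichotomy x 0 with h | h | h
    · left; left; exact h
    · left; right; exact h
    · right; exact h
  rw [← setLIntegral_univ]
  refine lt_of_le_of_lt (lintegral_mono_set hcov) ?_
  refine lt_of_le_of_lt (lintegral_union_le _ _ _) (ENNReal.add_lt_top.2 ⟨?_, h1⟩)
  refine lt_of_le_of_lt (lintegral_union_le _ _ _) (ENNReal.add_lt_top.2 ⟨?_, ?_⟩)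
  · rw [h2]; exact h1
  · rw [h3]; simp

theorem d11_scalar (a : ℝ) (ha : 0 < a) (ha2 : a < 1) :
    ∃ C : ℝ, 0 < C ∧ ∀ τ : ℝ, 0 < τ →
      ∫⁻ x : ℝ, ENNReal.ofReal (|x ^ 2 - τ ^ 2| ^ (-(1 / 2) : ℝ) * |x| ^ (-a)) ≤
        ENNReal.ofReal (C * τ ^ (-a)) := by
  set I : ℝ≥0∞ := ∫⁻ x : ℝ, ENNReal.ofReal (|x ^ 2 - 1| ^ (-(1 / 2) : ℝ) * |x| ^ (-a)) with hI
  have hIf : I < ⊤ := d11s_full a ha ha2
  refine ⟨I.toReal + 1, by positivity, fun τ hτ => ?_⟩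
  have hm : Measurable (fun x : ℝ => ENNReal.ofReal (|x ^ 2 - τ ^ 2| ^ (-(1 / 2) : ℝ) * |x| ^ (-a))) := by
    fun_prop
  have h1 : ∫⁻ x : ℝ, ENNReal.ofReal (|x ^ 2 - τ ^ 2| ^ (-(1 / 2) : ℝ) * |x| ^ (-a)) =
      ENNReal.ofReal |τ| * ∫⁻ u : ℝ, ENNReal.ofReal (|(τ * u) ^ 2 - τ ^ 2| ^ (-(1 / 2) : ℝ) *
        |τ * u| ^ (-a)) := by
    conv_lhs => rw [← Real.smul_map_volume_mul_left (ne_of_gt hτ)]
    rw [lintegral_smul_measure, lintegral_map hm (by fun_prop)]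
    rfl
  have h2 : ∀ u : ℝ, |(τ * u) ^ 2 - τ ^ 2| ^ (-(1 / 2) : ℝ) * |τ * u| ^ (-a) =
      (τ⁻¹ * τ ^ (-a)) * (|u ^ 2 - 1| ^ (-(1 / 2) : ℝ) * |u| ^ (-a)) := by
    intro u
    have e1 : |(τ * u) ^ 2 - τ ^ 2| = τ ^ 2 * |u ^ 2 - 1| := by
      rw [show (τ * u) ^ 2 - τ ^ 2 = τ ^ 2 * (u ^ 2 - 1) by ring, abs_mul, abs_of_pos (by positivity)]
    have e2 : |τ * u| = τ * |u| := by rw [abs_mul, abs_of_pos hτ]
    rw [e1, e2, Real.mul_rpow (by positivity) (abs_nonneg _), Real.mul_rpow hτ.le (abs_nonneg _)]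
    have e3 : (τ ^ 2) ^ (-(1 / 2) : ℝ) = τ⁻¹ := by
      rw [← Real.rpow_natCast, ← Real.rpow_mul hτ.le, ← Real.rpow_neg_one]
      norm_num
    rw [e3]; ring
  rw [h1]
  simp only [h2]
  have h3 : ∀ u : ℝ, ENNReal.ofReal ((τ⁻¹ * τ ^ (-a)) * (|u ^ 2 - 1| ^ (-(1 / 2) : ℝ) * |u| ^ (-a))) =
      ENNReal.ofReal (τ⁻¹ * τ ^ (-a)) * ENNReal.ofReal (|u ^ 2 - 1| ^ (-(1 / 2) : ℝ) * |u| ^ (-a)) :=
    fun u => ENNReal.ofReal_mul (by positivity)
  simp only [h3]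
  rw [lintegral_const_mul' _ _ ENNReal.ofReal_ne_top, ← hI, ← mul_assoc,
    ← ENNReal.ofReal_mul (abs_nonneg _), abs_of_pos hτ]
  have h4 : τ * (τ⁻¹ * τ ^ (-a)) = τ ^ (-a) := by field_simp
  rw [h4]
  have h5 : I = ENNReal.ofReal I.toReal := (ENNReal.ofReal_toReal hIf.ne).symm
  rw [h5, ← ENNReal.ofReal_mul (by positivity)]
  apply ENNReal.ofReal_le_ofReal
  rw [ENNReal.toReal_ofReal ENNReal.toReal_nonneg, mul_comm]
  have : 0 < τ ^ (-a) := by positivity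
  nlinarith

theorem d11c_pow (T y q : ℝ) (hT : 0 < T) (hy : 0 < y) :
    T ^ (1 - 2 * q) * (T / y) ^ (q - 1) = T⁻¹ * (T * y) ^ (1 - q) := by
  rw [Real.div_rpow hT.le hy.le, Real.mul_rpow hT.le hy.le, ← Real.rpow_neg_one T,
    div_eq_mul_inv, ← Real.rpow_neg hy.le, ← mul_assoc, ← mul_assoc, ← Real.rpow_add hT,
    ← Real.rpow_add hT]
  congr 2 <;> ring

/-- the kernel -/
noncomputable def d11m (p1 p2 Q T y : ℝ) : ℝ :=
  min (Q ^ p1 * T ^ ((1 : ℝ) - 2 * p1) * (T / y) ^ (p1 - 1))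
    (Q ^ p2 * T ^ ((1 : ℝ) - 2 * p2) * (T / y) ^ (p2 - 1))

theorem d11m_eq (p1 p2 Q T y : ℝ) (hT : 0 < T) (hy : 0 < y) :
    d11m p1 p2 Q T y = min (Q ^ p1 * (T⁻¹ * (T * y) ^ (1 - p1))) (Q ^ p2 * (T⁻¹ * (T * y) ^ (1 - p2))) := by
  unfold d11m
  rw [mul_assoc, d11c_pow T y p1 hT hy, mul_assoc, d11c_pow T y p2 hT hy]

theorem d11m_nonneg (p1 p2 Q T y : ℝ) (hQ : 0 ≤ Q) (hT : 0 < T) (hy : 0 < y) :
    0 ≤ d11m p1 p2 Q T y := by
  unfold d11m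
  positivity

theorem d11c_min (s p1 p p2 : ℝ) (hs : 0 ≤ s) (h1 : 0 < p1) (h2 : p1 < p) (h3 : p < p2) :
    min (s ^ p1) (s ^ p2) ≤ s ^ p := by
  rcases le_or_gt s 1 with h | h
  · rcases eq_or_lt_of_le hs with h0 | h0
    · rw [← h0, Real.zero_rpow h1.ne', Real.zero_rpow (by linarith), Real.zero_rpow (by linarith)]
      simp
    · exact (min_le_right _ _).trans (Real.rpow_le_rpow_of_exponent_ge h0 h h3.le)
  · exact (min_le_left _ _).trans (Real.rpow_le_rpow_of_exponent_le h.le h2.le)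

theorem d11c_homog (Q s q : ℝ) (hQ : 0 ≤ Q) (hs : 0 < s) :
    Q ^ q * s ^ (1 - q) = s * (Q / s) ^ q := by
  rw [Real.div_rpow hQ hs.le, Real.rpow_sub hs, Real.rpow_one]
  have : 0 < s ^ q := by positivity
  field_simp

theorem d11m_le (p1 p p2 Q T y : ℝ) (hQ : 0 ≤ Q) (hT : 0 < T) (hy : 0 < y) (h1 : 0 < p1)
    (h2 : p1 < p) (h3 : p < p2) :
    d11m p1 p2 Q T y ≤ (T⁻¹ * (T * y) ^ (1 - p)) * Q ^ p := by
  rw [d11m_eq p1 p2 Q T y hT hy]
  have hTy : 0 < T * y := by positivity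
  have e : ∀ q : ℝ, Q ^ q * (T⁻¹ * (T * y) ^ (1 - q)) = (T⁻¹ * (T * y)) * (Q / (T * y)) ^ q := by
    intro q
    rw [mul_left_comm, d11c_homog Q (T * y) q hQ hTy]
    ring
  have e' : (T⁻¹ * (T * y) ^ (1 - p)) * Q ^ p = (T⁻¹ * (T * y)) * (Q / (T * y)) ^ p := by
    rw [← e p]; ring
  rw [e p1, e p2, e', ← mul_min_of_nonneg _ _ (by positivity)]
  exact mul_le_mul_of_nonneg_left (d11c_min _ p1 p p2 (by positivity) h1 h2 h3) (by positivity)

/-- weights on the line -/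
noncomputable def d11W (b q x : ℝ) : ℝ := |x ^ 2 - b| ^ (-(1 / 2) : ℝ) * |x| ^ (-(q - 1))

theorem d11W_nonneg (b q x : ℝ) : 0 ≤ d11W b q x := by
  unfold d11W
  positivity

theorem d11m_le2 (p1 p2 Q T y b x η : ℝ) (hQ : 0 ≤ Q) (hT : 0 < T) (hy : 0 < y) (h1 : 1 < p1)
    (h2 : 1 < p2) (hη : 0 < η) (hx : x ≠ 0) (hxb : x ^ 2 ≠ b) (hTb : |x ^ 2 - b| ≤ T ^ 2)
    (hTy : |x| * η ≤ T * y) :
    d11m p1 p2 Q T y ≤ min (Q ^ p1 * η ^ (1 - p1) * d11W b p1 x)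
      (Q ^ p2 * η ^ (1 - p2) * d11W b p2 x) := by
  rw [d11m_eq p1 p2 Q T y hT hy]
  have hx0 : 0 < |x| := abs_pos.2 hx
  have hb0 : 0 < |x ^ 2 - b| := abs_pos.2 (sub_ne_zero.2 hxb)
  have e1 : T⁻¹ ≤ |x ^ 2 - b| ^ (-(1 / 2) : ℝ) := by
    have h3 : (T ^ 2) ^ (-(1 / 2) : ℝ) = T⁻¹ := by
      rw [← Real.rpow_natCast, ← Real.rpow_mul hT.le, ← Real.rpow_neg_one]
      norm_num
    rw [← h3]
    exact Real.rpow_le_rpow_of_nonpos hb0 hTb (by norm_num)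
  have key : ∀ q : ℝ, 1 < q → Q ^ q * (T⁻¹ * (T * y) ^ (1 - q)) ≤ Q ^ q * η ^ (1 - q) * d11W b q x := by
    intro q hq
    have e2 : (T * y) ^ (1 - q) ≤ (|x| * η) ^ (1 - q) :=
      Real.rpow_le_rpow_of_nonpos (by positivity) hTy (by linarith)
    have e3 : (|x| * η) ^ (1 - q) = |x| ^ (-(q - 1)) * η ^ (1 - q) := by
      rw [Real.mul_rpow hx0.le hη.le]
      congr 2; ring
    have e4 : T⁻¹ * (T * y) ^ (1 - q) ≤ |x ^ 2 - b| ^ (-(1 / 2) : ℝ) *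
        (|x| ^ (-(q - 1)) * η ^ (1 - q)) := by
      rw [← e3]
      exact mul_le_mul e1 e2 (by positivity) (by positivity)
    calc Q ^ q * (T⁻¹ * (T * y) ^ (1 - q)) ≤ Q ^ q * (|x ^ 2 - b| ^ (-(1 / 2) : ℝ) *
        (|x| ^ (-(q - 1)) * η ^ (1 - q))) := mul_le_mul_of_nonneg_left e4 (by positivity)
      _ = Q ^ q * η ^ (1 - q) * d11W b q x := by unfold d11W; ring
  exact min_le_min (key p1 h1) (key p2 h2)

theorem d11W_meas (b q : ℝ) : Measurable (d11W b q) := by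
  unfold d11W
  fun_prop

theorem d11_ofReal_int_le {α : Type} [MeasurableSpace α] (μ : Measure α) (g : α → ℝ)
    (hg : ∀ x, 0 ≤ g x) : ENNReal.ofReal (∫ x, g x ∂μ) ≤ ∫⁻ x, ENNReal.ofReal (g x) ∂μ := by
  by_cases hi : Integrable g μ
  · rw [ofReal_integral_eq_lintegral_ofReal hi (Filter.Eventually.of_forall hg)]
  · rw [integral_undef hi]; simp

theorem d11_int_m_le {α : Type} [MeasurableSpace α] (μ : Measure α) (Q : α → ℝ)
    (hQ : ∀ x, 0 ≤ Q x) (p1 p p2 : ℝ) (h1 : 0 < p1) (h2 : p1 < p) (h3 : p < p2)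
    (hi : Integrable (fun x => Q x ^ p) μ) (T y : ℝ) (hT : 0 < T) (hy : 0 < y) :
    ∫ x, d11m p1 p2 (Q x) T y ∂μ ≤ (T⁻¹ * (T * y) ^ (1 - p)) * ∫ x, Q x ^ p ∂μ := by
  rw [← integral_const_mul]
  exact integral_mono_of_nonneg
    (Filter.Eventually.of_forall fun x => d11m_nonneg p1 p2 (Q x) T y (hQ x) hT hy)
    (hi.const_mul _) (Filter.Eventually.of_forall fun x => d11m_le p1 p p2 (Q x) T y (hQ x) hT hy h1 h2 h3)

/-- decay at infinity -/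
theorem d11_far {α : Type} [MeasurableSpace α] (μ : Measure α) (Q : α → ℝ)
    (hQ : ∀ x, 0 ≤ Q x) (p1 p p2 : ℝ) (h1 : 0 < p1) (h2 : p1 < p) (h3 : p < p2) (hp : 1 < p)
    (hi : Integrable (fun x => Q x ^ p) μ) (b T y r u : ℝ) (hT : 0 < T) (hy : 0 < y) (hr : 0 < r)
    (hb : 2 * b ≤ r ^ 2) (hru : r ≤ 8 * u) (hTr : r ^ 2 - b ≤ T ^ 2) (hTy : u ^ 2 ≤ T * y) :
    ∫ x, d11m p1 p2 (Q x) T y ∂μ ≤
      (2 * (64 : ℝ) ^ (p - 1) * ∫ x, Q x ^ p ∂μ) * (r⁻¹ * (r ^ 2) ^ (1 - p)) := by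
  have hM : 0 ≤ ∫ x, Q x ^ p ∂μ := integral_nonneg fun x => Real.rpow_nonneg (hQ x) _
  refine (d11_int_m_le μ Q hQ p1 p p2 h1 h2 h3 hi T y hT hy).trans ?_
  have e1 : r / 2 ≤ T := by
    have : (r / 2) ^ 2 ≤ T ^ 2 := by nlinarith
    exact le_of_sq_le_sq this hT.le
  have e2 : T⁻¹ ≤ 2 * r⁻¹ := by
    have : T⁻¹ ≤ (r / 2)⁻¹ := inv_anti₀ (by positivity) e1
    have e : (r / 2)⁻¹ = 2 * r⁻¹ := by field_simp
    rwa [e] at this
  have e3 : r ^ 2 / 64 ≤ T * y := by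
    have hu : r / 8 ≤ u := by linarith
    have : (r / 8) ^ 2 ≤ u ^ 2 := pow_le_pow_left₀ (by positivity) hu 2
    nlinarith
  have e4 : (T * y) ^ (1 - p) ≤ (64 : ℝ) ^ (p - 1) * (r ^ 2) ^ (1 - p) := by
    have h5 : (T * y) ^ (1 - p) ≤ (r ^ 2 / 64) ^ (1 - p) :=
      Real.rpow_le_rpow_of_nonpos (by positivity) e3 (by linarith)
    have h6 : (r ^ 2 / 64) ^ (1 - p) = (64 : ℝ) ^ (p - 1) * (r ^ 2) ^ (1 - p) := by
      rw [Real.div_rpow (by positivity) (by norm_num), div_eq_mul_inv, ← Real.rpow_neg (by norm_num),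
        mul_comm]
      congr 2; ring
    rwa [h6] at h5
  have e5 : T⁻¹ * (T * y) ^ (1 - p) ≤ (2 * r⁻¹) * ((64 : ℝ) ^ (p - 1) * (r ^ 2) ^ (1 - p)) :=
    mul_le_mul e2 e4 (by positivity) (by positivity)
  calc (T⁻¹ * (T * y) ^ (1 - p)) * ∫ x, Q x ^ p ∂μ
      ≤ ((2 * r⁻¹) * ((64 : ℝ) ^ (p - 1) * (r ^ 2) ^ (1 - p))) * ∫ x, Q x ^ p ∂μ :=
        mul_le_mul_of_nonneg_right e5 hM
    _ = _ := by ring

theorem d11_small (p c ε : ℝ) (hp : 1 < p) (hε : 0 < ε) :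
    ∃ R₀ : ℝ, ∀ r : ℝ, R₀ ≤ r → c * (r ^ 2) ^ (1 - p) ≤ ε := by
  have h1 : Filter.Tendsto (fun r : ℝ => (r ^ 2) ^ (-(p - 1))) Filter.atTop (nhds 0) :=
    (tendsto_rpow_neg_atTop (by linarith)).comp (Filter.tendsto_pow_atTop (by norm_num))
  have h2 : Filter.Tendsto (fun r : ℝ => c * (r ^ 2) ^ (-(p - 1))) Filter.atTop (nhds 0) := by
    simpa using h1.const_mul c
  obtain ⟨R₀, hR⟩ := Filter.eventually_atTop.1 (h2.eventually (gt_mem_nhds hε))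
  refine ⟨R₀, fun r hr => ?_⟩
  have := hR r hr
  have e : 1 - p = -(p - 1) := by ring
  rw [e]
  exact this.le

theorem d11_root (c : ℂ) : ∃ z : ℂ, z ^ 2 = c ∧ 0 ≤ z.im := by
  obtain ⟨z, hz⟩ := IsAlgClosed.exists_pow_nat_eq c (show 0 < 2 by norm_num)
  rcases le_total 0 z.im with h | h
  · exact ⟨z, hz, h⟩
  · exact ⟨-z, by rw [neg_sq]; exact hz, by simpa using h⟩

/-- zero counting, dimension `1` -/
theorem d11_count
    (halfplane : ∀ (f h : ℂ → ℂ) (_ : DifferentiableOn ℂ f {z : ℂ | 0 < z.im})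
      (_ : DifferentiableOn ℂ h {z : ℂ | 0 < z.im}) (n : ℕ) (z : Fin n → ℂ) (η : ℝ) (_ : 0 < η)
      (_ : ∀ i, η < (z i).im) (_ : ∀ w : ℂ, 0 < w.im → f w = h w * ∏ i, (w - z i))
      (B : ℝ → ℝ≥0∞) (_ : Measurable B)
      (_ : ∀ w : ℂ, η ≤ w.im → ENNReal.ofReal (Real.log ‖f w‖) ≤ B w.re)
      (_ : ∀ ε : ℝ, 0 < ε → ∃ R₀ : ℝ, ∀ w : ℂ, R₀ ≤ ‖w‖ → ‖w‖ ≤ 8 * w.im →
        Real.log ‖f w‖ ≤ ε / ‖w‖)
      (_ : ∀ ε : ℝ, 0 < ε → ∃ R₀ : ℝ, ∀ R : ℝ, R₀ ≤ R →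
        f (Complex.I * (η + R)) ≠ 0 ∧ -(ε / R) ≤ Real.log ‖f (Complex.I * (η + R))‖),
      ENNReal.ofReal (∑ i, ((z i).im - η)) ≤ ∫⁻ x, B x)
    (branch : ∀ (b : ℝ) (_ : 0 < b), ∃ κ : ℂ → ℂ,
      DifferentiableOn ℂ κ {z : ℂ | 0 < z.im} ∧ ∀ z : ℂ, 0 < z.im →
      0 < (κ z).im ∧ (κ z) ^ 2 = z ^ 2 - b ∧ |z.re ^ 2 - b| ≤ ‖κ z‖ ^ 2 ∧
      |z.re| * z.im ≤ ‖κ z‖ * (κ z).im ∧ z.im ^ 2 ≤ ‖κ z‖ * (κ z).im ∧ z.im ≤ (κ z).im ∧
      ‖z‖ ^ 2 - b ≤ ‖κ z‖ ^ 2 ∧ ‖κ z‖ ^ 2 ≤ ‖z‖ ^ 2 + b)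
    (geom : ∀ (E z : ℂ) (b : ℝ) (_ : 0 < b) (_ : 4 * b ≤ ‖E‖) (_ : z ^ 2 = E + b) (_ : 0 ≤ z.im),
      (‖E‖ - E.re) / 2 ≤ 5 * z.im ^ 2)
    (p1 p2 p C0 c0 : ℝ) (h1 : 1 < p1) (h1p : p1 < p)
    (hp2 : p < p2) (h2 : p2 < 2) (hC0 : 0 < C0) (hc0 : 0 < c0) :
    ∃ C : ℝ, 0 < C ∧ ∀ (α : Type) [MeasurableSpace α] (μ : Measure α) [SFinite μ]
      (Q : α → ℝ) (_ : Measurable Q) (_ : ∀ x, 0 ≤ Q x) (_ : Integrable (fun x => Q x ^ p) μ)
      (D gf : ℂ → ℂ) (_ : DifferentiableOn ℂ D {k : ℂ | 0 < k.im})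
      (_ : DifferentiableOn ℂ gf {k : ℂ | 0 < k.im}) (N : ℕ) (E : Fin N → ℂ)
      (_ : ∀ k : ℂ, 0 < k.im → D k = gf k * ∏ j, (k ^ 2 - E j))
      (_ : ∀ k : ℂ, 0 < k.im → ‖D k‖ ≤ Real.exp (C0 * ∫ x,
        min (Q x ^ p1 * ‖k‖ ^ ((1 : ℝ) - 2 * p1) * (‖k‖ / k.im) ^ (p1 - 1))
          (Q x ^ p2 * ‖k‖ ^ ((1 : ℝ) - 2 * p2) * (‖k‖ / k.im) ^ (p2 - 1)) ∂μ))
      (_ : ∀ k : ℂ, 0 < k.im → (∫ x,
        min (Q x ^ p1 * ‖k‖ ^ ((1 : ℝ) - 2 * p1) * (‖k‖ / k.im) ^ (p1 - 1))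
          (Q x ^ p2 * ‖k‖ ^ ((1 : ℝ) - 2 * p2) * (‖k‖ / k.im) ^ (p2 - 1)) ∂μ) ≤ c0 →
        Real.exp (-(C0 * ∫ x,
        min (Q x ^ p1 * ‖k‖ ^ ((1 : ℝ) - 2 * p1) * (‖k‖ / k.im) ^ (p1 - 1))
          (Q x ^ p2 * ‖k‖ ^ ((1 : ℝ) - 2 * p2) * (‖k‖ / k.im) ^ (p2 - 1)) ∂μ)) ≤ ‖D k‖)
      (t κ : ℝ) (_ : 0 < t) (_ : 0 < κ) (_ : κ ≤ 1),
      ENNReal.ofReal ((Finset.univ.filter (fun j => t ≤ Real.sqrt ‖E j‖ ∧
        κ ≤ Real.sqrt ((1 - (E j).re / ‖E j‖) / 2))).card) ≤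
      ENNReal.ofReal (C * t) * ∫⁻ x, ENNReal.ofReal
        (min ((Q x / (κ * t ^ 2)) ^ p1) ((Q x / (κ * t ^ 2)) ^ p2)) ∂μ := by
  obtain ⟨K1, hK1, hs1⟩ := d11_scalar (p1 - 1) (by linarith) (by linarith)
  obtain ⟨K2, hK2, hs2⟩ := d11_scalar (p2 - 1) (by linarith) (by linarith)
  set K : ℝ := max K1 K2 with hK
  have hK0 : 0 < K := lt_max_of_lt_left hK1
  refine ⟨64 * C0 * K, by positivity, ?_⟩
  intro α _ μ _ Q hQm hQ hQi D gf hD hgf N E hfac hup hlow t κ ht hκ hκ1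
  have hup' : ∀ k : ℂ, 0 < k.im → ‖D k‖ ≤ Real.exp (C0 * ∫ x, d11m p1 p2 (Q x) ‖k‖ k.im ∂μ) := hup
  have hlow' : ∀ k : ℂ, 0 < k.im → (∫ x, d11m p1 p2 (Q x) ‖k‖ k.im ∂μ) ≤ c0 →
      Real.exp (-(C0 * ∫ x, d11m p1 p2 (Q x) ‖k‖ k.im ∂μ)) ≤ ‖D k‖ := hlow
  clear hup hlow
  have h1' : 1 < p1 := h1
  have h2' : 1 < p2 := by linarith
  have hp1 : 1 < p := by linarith
  set b : ℝ := t ^ 2 / 4 with hb
  have hb0 : 0 < b := by positivity
  set η : ℝ := κ * t / 8 with hη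
  have hη0 : 0 < η := by positivity
  obtain ⟨κ0, hκd, hκp⟩ := branch b hb0
  -- the bound function
  let g : ℝ → α → ℝ := fun x a => C0 * min (Q a ^ p1 * η ^ (1 - p1) * d11W b p1 x)
    (Q a ^ p2 * η ^ (1 - p2) * d11W b p2 x)
  have hg0 : ∀ x a, 0 ≤ g x a := by
    intro x a
    have := d11W_nonneg b p1 x
    have := d11W_nonneg b p2 x
    have := hQ a
    positivity
  have hgm : Measurable (Function.uncurry g) := by
    have m1 : Measurable (fun q : ℝ × α => Q q.2) := hQm.comp measurable_snd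
    have m2 : Measurable (fun q : ℝ × α => d11W b p1 q.1) := (d11W_meas b p1).comp measurable_fst
    have m3 : Measurable (fun q : ℝ × α => d11W b p2 q.1) := (d11W_meas b p2).comp measurable_fst
    exact measurable_const.mul ((((m1.pow_const p1).mul_const _).mul m2).min
      (((m1.pow_const p2).mul_const _).mul m3))
  have hgm' : Measurable (Function.uncurry fun x a => ENNReal.ofReal (g x a)) :=
    ENNReal.measurable_ofReal.comp hgm
  classical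
  let Bf : ℝ → ℝ≥0∞ := fun x => if x = 0 ∨ x ^ 2 = b then ⊤ else ∫⁻ a, ENNReal.ofReal (g x a) ∂μ
  have hbad : MeasurableSet {x : ℝ | x = 0 ∨ x ^ 2 = b} :=
    (measurableSet_eq_fun measurable_id measurable_const).union
      (measurableSet_eq_fun (by fun_prop) measurable_const)
  have hBm : Measurable Bf :=
    Measurable.ite hbad measurable_const hgm'.lintegral_prod_right'
  -- roots
  choose zr hzr hzi using fun j => d11_root (E j + b)
  set S : Finset (Fin N) := Finset.univ.filter (fun j => t ≤ Real.sqrt ‖E j‖ ∧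
        κ ≤ Real.sqrt ((1 - (E j).re / ‖E j‖) / 2)) with hS
  have hgeo : ∀ j ∈ S, 3 * (κ * t) / 8 ≤ (zr j).im := by
    intro j hj
    rw [hS, Finset.mem_filter] at hj
    obtain ⟨_, hj1, hj2⟩ := hj
    have hE : t ^ 2 ≤ ‖E j‖ := by
      have := pow_le_pow_left₀ ht.le hj1 2
      rwa [Real.sq_sqrt (norm_nonneg _)] at this
    have hE0 : 0 < ‖E j‖ := lt_of_lt_of_le (by positivity) hE
    have hre : (E j).re ≤ ‖E j‖ := (le_abs_self _).trans (Complex.abs_re_le_norm _)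
    have h3 : 0 ≤ (1 - (E j).re / ‖E j‖) / 2 := by
      have : (E j).re / ‖E j‖ ≤ 1 := by rw [div_le_one hE0]; exact hre
      linarith
    have h4 : κ ^ 2 ≤ (1 - (E j).re / ‖E j‖) / 2 := by
      have := pow_le_pow_left₀ hκ.le hj2 2
      rwa [Real.sq_sqrt h3] at this
    have h5 : κ ^ 2 * ‖E j‖ ≤ (‖E j‖ - (E j).re) / 2 := by
      have h6 : (1 - (E j).re / ‖E j‖) / 2 * ‖E j‖ = (‖E j‖ - (E j).re) / 2 := by
        field_simp
      rw [← h6]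
      exact mul_le_mul_of_nonneg_right h4 hE0.le
    have h7 := geom (E j) (zr j) b hb0 (by rw [hb]; linarith) (hzr j) (hzi j)
    have h8 : κ ^ 2 * t ^ 2 ≤ κ ^ 2 * ‖E j‖ := mul_le_mul_of_nonneg_left hE (by positivity)
    have h9 : (3 * (κ * t) / 8) ^ 2 ≤ (zr j).im ^ 2 := by nlinarith
    exact le_of_sq_le_sq h9 (hzi j)
  let e : Fin S.card ≃ S := S.equivFin.symm
  have hprodS : ∀ w : ℂ, ∏ i : Fin S.card, (w - zr (e i)) = ∏ j ∈ S, (w - zr j) := by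
    intro w
    rw [← Finset.prod_coe_sort S (fun j => w - zr j)]
    exact Equiv.prod_comp e (fun j : S => w - zr j)
  have hmaps : Set.MapsTo κ0 {z : ℂ | 0 < z.im} {k : ℂ | 0 < k.im} := fun z hz => (hκp z hz).1
  have hdecay : ∀ ε : ℝ, 0 < ε → ∃ R₀ : ℝ, ∀ w : ℂ, 0 < w.im → R₀ ≤ ‖w‖ → ‖w‖ ≤ 8 * w.im →
      0 < ‖w‖ ∧ C0 * ∫ x, d11m p1 p2 (Q x) ‖κ0 w‖ (κ0 w).im ∂μ ≤ ε / ‖w‖ := by
    intro ε hε
    obtain ⟨R1, hR1⟩ := d11_small p (C0 * (2 * (64 : ℝ) ^ (p - 1) * ∫ x, Q x ^ p ∂μ)) ε hp1 hε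
    refine ⟨max R1 (max 1 (2 * b)), fun w hw hw1 hw2 => ?_⟩
    have hr1 : R1 ≤ ‖w‖ := (le_max_left _ _).trans hw1
    have hr2 : 1 ≤ ‖w‖ := ((le_max_left _ _).trans (le_max_right _ _)).trans hw1
    have hr3 : 2 * b ≤ ‖w‖ := ((le_max_right _ _).trans (le_max_right _ _)).trans hw1
    have hw0 : 0 < ‖w‖ := by linarith
    obtain ⟨q1, q2, q3, q4, q5, q6, q7, q8⟩ := hκp w hw
    have hT : 0 < ‖κ0 w‖ := by
      rw [norm_pos_iff]
      intro h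
      rw [h] at q1
      simp at q1
    have h1 := d11_far μ Q hQ p1 p p2 (by linarith) h1p hp2 hp1 hQi b ‖κ0 w‖ (κ0 w).im ‖w‖ w.im hT q1
      hw0 (by nlinarith) hw2 q7 q5
    refine ⟨hw0, ?_⟩
    calc C0 * ∫ x, d11m p1 p2 (Q x) ‖κ0 w‖ (κ0 w).im ∂μ
        ≤ C0 * ((2 * (64 : ℝ) ^ (p - 1) * ∫ x, Q x ^ p ∂μ) * (‖w‖⁻¹ * (‖w‖ ^ 2) ^ (1 - p))) :=
          mul_le_mul_of_nonneg_left h1 hC0.le
      _ = (C0 * (2 * (64 : ℝ) ^ (p - 1) * ∫ x, Q x ^ p ∂μ) * (‖w‖ ^ 2) ^ (1 - p)) / ‖w‖ := by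
          rw [div_eq_mul_inv]; ring
      _ ≤ ε / ‖w‖ := div_le_div_of_nonneg_right (hR1 _ hr1) hw0.le
  have hlogle : ∀ w : ℂ, 0 < w.im → Real.log ‖D (κ0 w)‖ ≤
      C0 * ∫ x, d11m p1 p2 (Q x) ‖κ0 w‖ (κ0 w).im ∂μ := by
    intro w hw
    have q1 := (hκp w hw).1
    have hT : 0 < ‖κ0 w‖ := by
      rw [norm_pos_iff]
      intro h
      rw [h] at q1
      simp at q1
    have hint : 0 ≤ ∫ x, d11m p1 p2 (Q x) ‖κ0 w‖ (κ0 w).im ∂μ :=
      integral_nonneg fun x => d11m_nonneg p1 p2 (Q x) _ _ (hQ x) hT q1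
    rcases eq_or_lt_of_le (norm_nonneg (D (κ0 w))) with h | h
    · rw [← h, Real.log_zero]; positivity
    · rw [Real.log_le_iff_le_exp h]
      exact hup' _ q1
  have hmain := halfplane (fun z => D (κ0 z))
    (fun w => gf (κ0 w) * (∏ j ∈ S, (w + zr j)) * ∏ j ∈ Sᶜ, (w ^ 2 - b - E j))
    (hD.comp hκd hmaps) ?_ S.card (fun i => zr (e i)) η hη0 ?_ ?_ Bf hBm ?_ ?_ ?_
  · -- conclusion
    have hI : ∫⁻ x, Bf x ≤ ENNReal.ofReal (16 * C0 * K * (κ * t ^ 2)) * ∫⁻ x, ENNReal.ofReal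
        (min ((Q x / (κ * t ^ 2)) ^ p1) ((Q x / (κ * t ^ 2)) ^ p2)) ∂μ := by
      have hbad0 : volume {x : ℝ | x = 0 ∨ x ^ 2 = b} = 0 := by
        have hsub : {x : ℝ | x = 0 ∨ x ^ 2 = b} ⊆ {0, Real.sqrt b, -Real.sqrt b} := by
          rintro x (hx | hx)
          · simp [hx]
          · have h9 : x ^ 2 = Real.sqrt b ^ 2 := by rw [Real.sq_sqrt hb0.le]; exact hx
            rcases sq_eq_sq_iff_eq_or_eq_neg.1 h9 with h | h <;> simp [h]
        exact measure_mono_null hsub ((Set.toFinite _).measure_zero _)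
      have hBae : ∀ᵐ x : ℝ, Bf x = ∫⁻ a, ENNReal.ofReal (g x a) ∂μ := by
        have : ∀ᵐ x : ℝ, x ∉ {x : ℝ | x = 0 ∨ x ^ 2 = b} := measure_eq_zero_iff_ae_notMem.1 hbad0
        filter_upwards [this] with x hx
        simp only [Bf]
        rw [if_neg hx]
      rw [lintegral_congr_ae hBae, lintegral_lintegral_swap hgm'.aemeasurable,
        ← lintegral_const_mul' _ _ ENNReal.ofReal_ne_top]
      refine lintegral_mono fun a => ?_
      -- the two scalar integrals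
      have hτb : b = (t / 2) ^ 2 := by rw [hb]; ring
      have hsc : ∀ (q Kq : ℝ), 1 < q → q < 2 → 0 < Kq → Kq ≤ K →
          (∫⁻ x : ℝ, ENNReal.ofReal (|x ^ 2 - (t / 2) ^ 2| ^ (-(1 / 2) : ℝ) * |x| ^ (-(q - 1))) ≤
            ENNReal.ofReal (Kq * (t / 2) ^ (-(q - 1)))) →
          ∫⁻ x : ℝ, ENNReal.ofReal (C0 * (Q a ^ q * η ^ (1 - q) * d11W b q x)) ≤
            ENNReal.ofReal (16 * C0 * K * (κ * t ^ 2) * (Q a / (κ * t ^ 2)) ^ q) := by
        intro q Kq hq hq2 hKq hKqK hs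
        have e1 : ∀ x : ℝ, ENNReal.ofReal (C0 * (Q a ^ q * η ^ (1 - q) * d11W b q x)) =
            ENNReal.ofReal (C0 * (Q a ^ q * η ^ (1 - q))) *
              ENNReal.ofReal (|x ^ 2 - (t / 2) ^ 2| ^ (-(1 / 2) : ℝ) * |x| ^ (-(q - 1))) := by
          intro x
          have hQa := hQ a
          rw [← ENNReal.ofReal_mul (by positivity)]
          congr 1
          unfold d11W
          rw [← hτb]; ring
        simp only [e1]
        rw [lintegral_const_mul' _ _ ENNReal.ofReal_ne_top]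
        have hQa := hQ a
        refine (mul_le_mul_of_nonneg_left hs zero_le).trans ?_
        rw [← ENNReal.ofReal_mul (by positivity)]
        apply ENNReal.ofReal_le_ofReal
        have e2 : η ^ (1 - q) * (t / 2) ^ (-(q - 1)) = (κ * t ^ 2 / 16) ^ (1 - q) := by
          rw [show -(q - 1) = 1 - q by ring, ← Real.mul_rpow hη0.le (by positivity)]
          congr 1
          rw [hη]; ring
        have e3 : (κ * t ^ 2 / 16) ^ (1 - q) ≤ 16 * (κ * t ^ 2) ^ (1 - q) := by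
          rw [Real.div_rpow (by positivity) (by norm_num), div_eq_mul_inv,
            ← Real.rpow_neg (by norm_num), mul_comm]
          have e4 : (16 : ℝ) ^ (-(1 - q)) ≤ 16 := by
            calc (16 : ℝ) ^ (-(1 - q)) ≤ (16 : ℝ) ^ (1 : ℝ) :=
                  Real.rpow_le_rpow_of_exponent_le (by norm_num) (by linarith)
              _ = 16 := Real.rpow_one _
          exact mul_le_mul_of_nonneg_right e4 (by positivity)
        have e5 : Q a ^ q * (κ * t ^ 2) ^ (1 - q) = (κ * t ^ 2) * (Q a / (κ * t ^ 2)) ^ q :=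
          d11c_homog _ _ _ hQa (by positivity)
        calc C0 * (Q a ^ q * η ^ (1 - q)) * (Kq * (t / 2) ^ (-(q - 1)))
            = (C0 * Kq) * (Q a ^ q * (η ^ (1 - q) * (t / 2) ^ (-(q - 1)))) := by ring
          _ ≤ (C0 * K) * (Q a ^ q * (16 * (κ * t ^ 2) ^ (1 - q))) := by
              rw [e2]
              exact mul_le_mul (mul_le_mul_of_nonneg_left hKqK hC0.le)
                (mul_le_mul_of_nonneg_left e3 (by positivity)) (by positivity) (by positivity)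
          _ = 16 * C0 * K * (Q a ^ q * (κ * t ^ 2) ^ (1 - q)) := by ring
          _ = _ := by rw [e5]; ring
      have hA := hsc p1 K1 h1' (by linarith) hK1 (le_max_left _ _) (hs1 (t / 2) (by positivity))
      have hB := hsc p2 K2 h2' h2 hK2 (le_max_right _ _) (hs2 (t / 2) (by positivity))
      have hQa := hQ a
      rw [← ENNReal.ofReal_mul (by positivity), mul_min_of_nonneg _ _ (by positivity)]
      rcases min_cases (16 * C0 * K * (κ * t ^ 2) * (Q a / (κ * t ^ 2)) ^ p1)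
        (16 * C0 * K * (κ * t ^ 2) * (Q a / (κ * t ^ 2)) ^ p2) with ⟨h, _⟩ | ⟨h, _⟩
      · rw [h]
        refine le_trans (lintegral_mono fun x => ENNReal.ofReal_le_ofReal ?_) hA
        exact mul_le_mul_of_nonneg_left (min_le_left _ _) hC0.le
      · rw [h]
        refine le_trans (lintegral_mono fun x => ENNReal.ofReal_le_ofReal ?_) hB
        exact mul_le_mul_of_nonneg_left (min_le_right _ _) hC0.le
    have hsum : ENNReal.ofReal (S.card * (κ * t / 4)) ≤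
        ENNReal.ofReal (∑ i : Fin S.card, ((zr (e i)).im - η)) := by
      apply ENNReal.ofReal_le_ofReal
      have h1 : ∑ _i : Fin S.card, (κ * t / 4) ≤ ∑ i : Fin S.card, ((zr (e i)).im - η) := by
        refine Finset.sum_le_sum fun i _ => ?_
        have := hgeo (e i) (e i).2
        rw [hη]
        linarith
      simpa using h1
    have h2 := (hsum.trans hmain).trans hI
    have h3 : ENNReal.ofReal (S.card : ℝ) = ENNReal.ofReal (4 / (κ * t)) *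
        ENNReal.ofReal (S.card * (κ * t / 4)) := by
      rw [← ENNReal.ofReal_mul (by positivity)]
      congr 1
      field_simp
    rw [h3]
    calc ENNReal.ofReal (4 / (κ * t)) * ENNReal.ofReal (S.card * (κ * t / 4))
        ≤ ENNReal.ofReal (4 / (κ * t)) * (ENNReal.ofReal (16 * C0 * K * (κ * t ^ 2)) *
          ∫⁻ x, ENNReal.ofReal (min ((Q x / (κ * t ^ 2)) ^ p1) ((Q x / (κ * t ^ 2)) ^ p2)) ∂μ) := by
          gcongr
      _ = _ := by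
          rw [← mul_assoc, ← ENNReal.ofReal_mul (by positivity)]
          congr 2
          field_simp
          ring
  · -- h differentiable
    have d1 : Differentiable ℂ (fun w : ℂ => ∏ j ∈ S, (w + zr j)) := by fun_prop
    have d2 : Differentiable ℂ (fun w : ℂ => ∏ j ∈ Sᶜ, (w ^ 2 - b - E j)) := by fun_prop
    exact ((hgf.comp hκd hmaps).mul d1.differentiableOn).mul d2.differentiableOn
  · -- im > η
    intro i
    have := hgeo (e i) (e i).2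
    have h1 : 0 < κ * t := by positivity
    rw [hη]
    linarith
  · -- factorisation
    intro w hw
    obtain ⟨q1, q2, _⟩ := hκp w hw
    rw [hprodS w, hfac (κ0 w) q1, q2, ← Finset.prod_mul_prod_compl S]
    have e1 : ∏ j ∈ S, (w ^ 2 - (b : ℂ) - E j) = (∏ j ∈ S, (w + zr j)) * ∏ j ∈ S, (w - zr j) := by
      rw [← Finset.prod_mul_distrib]
      refine Finset.prod_congr rfl fun j _ => ?_
      have := hzr j
      linear_combination this
    rw [e1]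
    ring
  · -- bound
    intro w hw
    have hw0 : 0 < w.im := lt_of_lt_of_le hη0 hw
    by_cases hx : w.re = 0 ∨ w.re ^ 2 = b
    · simp only [Bf, if_pos hx]
      exact le_top
    · simp only [Bf, if_neg hx]
      push Not at hx
      obtain ⟨q1, q2, q3, q4, q5, q6, q7, q8⟩ := hκp w hw0
      have hT : 0 < ‖κ0 w‖ := by
        rw [norm_pos_iff]
        intro h
        rw [h] at q1
        simp at q1
      have h1 : ENNReal.ofReal (Real.log ‖D (κ0 w)‖) ≤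
          ENNReal.ofReal (∫ x, C0 * d11m p1 p2 (Q x) ‖κ0 w‖ (κ0 w).im ∂μ) := by
        rw [integral_const_mul]
        exact ENNReal.ofReal_le_ofReal (hlogle w hw0)
      refine h1.trans ((d11_ofReal_int_le μ _ (fun x => mul_nonneg hC0.le
        (d11m_nonneg p1 p2 (Q x) _ _ (hQ x) hT q1))).trans ?_)
      refine lintegral_mono fun a => ENNReal.ofReal_le_ofReal ?_
      refine mul_le_mul_of_nonneg_left ?_ hC0.le
      refine d11m_le2 p1 p2 (Q a) ‖κ0 w‖ (κ0 w).im b w.re η (hQ a) hT q1 h1' h2' hη0 hx.1 hx.2 q3 ?_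
      exact (mul_le_mul_of_nonneg_left hw (abs_nonneg _)).trans q4
  · -- decay
    intro ε hε
    obtain ⟨R₀, hR⟩ := hdecay ε hε
    refine ⟨max R₀ 1, fun w hw1 hw2 => ?_⟩
    have hw3 : 1 ≤ ‖w‖ := (le_max_right _ _).trans hw1
    have hw4 : 0 < w.im := by linarith
    exact (hlogle w hw4).trans (hR w hw4 ((le_max_left _ _).trans hw1) hw2).2
  · -- center
    intro ε hε
    obtain ⟨R₀, hR⟩ := hdecay ε hε
    obtain ⟨R₁, hR1⟩ := hdecay (C0 * c0) (by positivity)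
    refine ⟨max (max R₀ R₁) 1, fun R hRR => ?_⟩
    have hRa : R₀ ≤ R := ((le_max_left _ _).trans (le_max_left _ _)).trans hRR
    have hRb : R₁ ≤ R := ((le_max_right _ _).trans (le_max_left _ _)).trans hRR
    have hRc : 1 ≤ R := (le_max_right _ _).trans hRR
    set w : ℂ := Complex.I * ((η : ℂ) + (R : ℂ)) with hw
    have hwim : w.im = η + R := by simp [hw]
    have hwn : ‖w‖ = η + R := by
      rw [hw, norm_mul, Complex.norm_I, one_mul, ← Complex.ofReal_add, Complex.norm_real,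
        Real.norm_eq_abs, abs_of_pos (by linarith)]
    have hw0 : 0 < w.im := by rw [hwim]; linarith
    have hle8 : ‖w‖ ≤ 8 * w.im := by rw [hwim, hwn]; linarith
    obtain ⟨hn0, hε1⟩ := hR w hw0 (by rw [hwn]; linarith) hle8
    obtain ⟨_, hε2⟩ := hR1 w hw0 (by rw [hwn]; linarith) hle8
    have q1 := (hκp w hw0).1
    have hsmall : ∫ x, d11m p1 p2 (Q x) ‖κ0 w‖ (κ0 w).im ∂μ ≤ c0 := by
      have h3 : C0 * c0 / ‖w‖ ≤ C0 * c0 := by
        apply div_le_self (by positivity)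
        rw [hwn]; linarith
      exact le_of_mul_le_mul_left (hε2.trans h3) hC0
    have h4 := hlow' (κ0 w) q1 hsmall
    have h5 : 0 < ‖D (κ0 w)‖ := lt_of_lt_of_le (Real.exp_pos _) h4
    refine ⟨norm_pos_iff.1 h5, ?_⟩
    have h6 : -(C0 * ∫ x, d11m p1 p2 (Q x) ‖κ0 w‖ (κ0 w).im ∂μ) ≤ Real.log ‖D (κ0 w)‖ := by
      rw [Real.le_log_iff_exp_le h5]
      exact h4
    have h7 : ε / ‖w‖ ≤ ε / R := by
      apply div_le_div_of_nonneg_left hε.le (by linarith)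
      rw [hwn]; linarith
    linarith

end K11
end Pool.Agent.Helper209.CX
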