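import Mathlib

namespace Pool.Agent.Helper209.CX

namespace K12
open MeasureTheory ENNReal

theorem d12_layer_pow (p a : ℝ) (hp : 0 < p) (ha : 0 ≤ a) :
    ∫⁻ x in Set.Ioc 0 a, ENNReal.ofReal (p * x ^ (p - 1)) = ENNReal.ofReal (a ^ p) := by
  have hint : IntegrableOn (fun x : ℝ => p * x ^ (p - 1)) (Set.Ioc 0 a) := by
    have h := (intervalIntegral.intervalIntegrable_rpow' (a := 0) (b := a) (r := p - 1)
      (by linarith)).const_mul p
    rw [intervalIntegrable_iff_integrableOn_Ioc_of_le ha] at h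
    exact h
  rw [← ofReal_integral_eq_lintegral_ofReal hint]
  · congr 1
    rw [← intervalIntegral.integral_of_le ha, intervalIntegral.integral_const_mul,
      integral_rpow (Or.inl (by linarith))]
    rw [sub_add_cancel, Real.zero_rpow hp.ne', sub_zero]
    field_simp
  · rw [Filter.EventuallyLE, ae_restrict_iff' measurableSet_Ioc]
    exact Filter.Eventually.of_forall
      (fun x hx => mul_nonneg hp.le (Real.rpow_nonneg hx.1.le _))

theorem d12_layer_tail (p a : ℝ) (hp : 0 < p) (ha : 0 < a) :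
    ∫⁻ x in Set.Ioi a, ENNReal.ofReal (p * x ^ (-p - 1)) = ENNReal.ofReal (a ^ (-p)) := by
  have hint : IntegrableOn (fun x : ℝ => p * x ^ (-p - 1)) (Set.Ioi a) :=
    (integrableOn_Ioi_rpow_of_lt (by linarith) ha).const_mul p
  rw [← ofReal_integral_eq_lintegral_ofReal hint]
  · congr 1
    rw [integral_const_mul, integral_Ioi_rpow_of_lt (by linarith) ha]
    rw [show -p - 1 + 1 = -p by ring]
    field_simp
  · rw [Filter.EventuallyLE, ae_restrict_iff' measurableSet_Ioi]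
    exact Filter.Eventually.of_forall
      (fun x hx => mul_nonneg hp.le (Real.rpow_nonneg (ha.trans hx).le _))

theorem d12_layer_pt (d : ℕ) (γ c q p t : ℝ) (hq : 0 ≤ q) (ht : 0 < t) :
    2 * γ * t ^ (2 * γ - 1) * (c * t ^ d * (q / t ^ 2) ^ p) =
      (2 * γ * c * q ^ p) * t ^ (2 * γ + d - 2 * p - 1) := by
  have e1 : (q / t ^ 2) ^ p = q ^ p * t ^ (-(2 * p)) := by
    rw [Real.div_rpow hq (by positivity), Real.rpow_neg ht.le, ← Real.rpow_natCast t 2,
      ← Real.rpow_mul ht.le]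
    push_cast
    rfl
  have e2 : t ^ (2 * γ + d - 2 * p - 1) = t ^ (2 * γ - 1) * t ^ d * t ^ (-(2 * p)) := by
    rw [← Real.rpow_natCast t d, ← Real.rpow_add ht, ← Real.rpow_add ht]
    congr 1
    ring
  rw [e1, e2]
  ring

theorem d12_layer_inner (d : ℕ) (γ p1 p2 c q : ℝ) (hγ : 0 < γ) (h1 : 0 < p1)
    (h1' : p1 < γ + d / 2) (h2 : γ + d / 2 < p2) (hc : 0 < c) (hq : 0 ≤ q) :
    ∫⁻ t in Set.Ioi (0 : ℝ), ENNReal.ofReal (2 * γ * t ^ (2 * γ - 1)) *
      (ENNReal.ofReal (c * t ^ d) *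
      ENNReal.ofReal (min ((q / t ^ 2) ^ p1) ((q / t ^ 2) ^ p2))) ≤
    ENNReal.ofReal (2 * γ * c * (1 / (2 * γ + d - 2 * p1) + 1 / (2 * p2 - 2 * γ - d)) *
      q ^ (γ + d / 2)) := by
  have hd0 : (0 : ℝ) ≤ d := Nat.cast_nonneg d
  have hp2 : 0 < p2 := by
    have : 0 < γ + d / 2 := by positivity
    linarith
  rcases hq.eq_or_lt with hq0 | hq0
  · subst hq0
    have h0 : ∀ t : ℝ, ENNReal.ofReal (2 * γ * t ^ (2 * γ - 1)) *
      (ENNReal.ofReal (c * t ^ d) *
      ENNReal.ofReal (min (((0 : ℝ) / t ^ 2) ^ p1) ((0 / t ^ 2) ^ p2))) = 0 := by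
      intro t
      rw [zero_div, Real.zero_rpow h1.ne', Real.zero_rpow hp2.ne', min_self, ENNReal.ofReal_zero,
        mul_zero, mul_zero]
    simp only [h0, lintegral_zero]
    exact bot_le
  set e1 : ℝ := 2 * γ + d - 2 * p1 with he1
  set e2 : ℝ := 2 * p2 - 2 * γ - d with he2
  have he1p : 0 < e1 := by rw [he1]; linarith
  have he2p : 0 < e2 := by rw [he2]; linarith
  set t0 : ℝ := q ^ ((1 : ℝ) / 2) with ht0
  have ht0p : 0 < t0 := Real.rpow_pos_of_pos hq0 _
  have hU : Set.Ioi (0 : ℝ) = Set.Ioc 0 t0 ∪ Set.Ioi t0 :=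
    (Set.Ioc_union_Ioi_eq_Ioi ht0p.le).symm
  rw [hU]
  refine (lintegral_union_le _ _ _).trans ?_
  have hA : ∫⁻ t in Set.Ioc (0 : ℝ) t0, ENNReal.ofReal (2 * γ * t ^ (2 * γ - 1)) *
      (ENNReal.ofReal (c * t ^ d) *
      ENNReal.ofReal (min ((q / t ^ 2) ^ p1) ((q / t ^ 2) ^ p2))) ≤
      ENNReal.ofReal (2 * γ * c * (1 / e1) * q ^ (γ + d / 2)) := by
    calc ∫⁻ t in Set.Ioc (0 : ℝ) t0, ENNReal.ofReal (2 * γ * t ^ (2 * γ - 1)) *
      (ENNReal.ofReal (c * t ^ d) *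
      ENNReal.ofReal (min ((q / t ^ 2) ^ p1) ((q / t ^ 2) ^ p2)))
        ≤ ∫⁻ t in Set.Ioc (0 : ℝ) t0, ENNReal.ofReal (2 * γ * c * q ^ p1 / e1) *
            ENNReal.ofReal (e1 * t ^ (e1 - 1)) := by
          refine setLIntegral_mono' measurableSet_Ioc fun t ht => ?_
          have ht' : 0 < t := ht.1
          rw [← ENNReal.ofReal_mul (by positivity), ← ENNReal.ofReal_mul (by positivity),
            ← ENNReal.ofReal_mul (by positivity)]
          apply ENNReal.ofReal_le_ofReal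
          calc 2 * γ * t ^ (2 * γ - 1) * (c * t ^ d * min ((q / t ^ 2) ^ p1) ((q / t ^ 2) ^ p2))
              ≤ 2 * γ * t ^ (2 * γ - 1) * (c * t ^ d * (q / t ^ 2) ^ p1) := by
                refine mul_le_mul_of_nonneg_left ?_ (by positivity)
                exact mul_le_mul_of_nonneg_left (min_le_left _ _) (by positivity)
            _ = (2 * γ * c * q ^ p1) * t ^ (2 * γ + d - 2 * p1 - 1) :=
                d12_layer_pt d γ c q p1 t hq ht'
            _ = 2 * γ * c * q ^ p1 / e1 * (e1 * t ^ (e1 - 1)) := by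
                rw [← he1]
                field_simp
      _ = ENNReal.ofReal (2 * γ * c * q ^ p1 / e1) * ENNReal.ofReal (t0 ^ e1) := by
          rw [lintegral_const_mul' _ _ ENNReal.ofReal_ne_top, d12_layer_pow e1 t0 he1p ht0p.le]
      _ = ENNReal.ofReal (2 * γ * c * (1 / e1) * q ^ (γ + d / 2)) := by
          rw [← ENNReal.ofReal_mul (by positivity)]
          congr 1
          have h3 : t0 ^ e1 = q ^ (e1 / 2) := by
            rw [ht0, ← Real.rpow_mul hq]
            congr 1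
            ring
          have h4 : q ^ (γ + (d : ℝ) / 2) = q ^ p1 * q ^ (e1 / 2) := by
            rw [← Real.rpow_add hq0]
            congr 1
            rw [he1]
            ring
          rw [h3, h4]
          field_simp
  have hB : ∫⁻ t in Set.Ioi t0, ENNReal.ofReal (2 * γ * t ^ (2 * γ - 1)) *
      (ENNReal.ofReal (c * t ^ d) *
      ENNReal.ofReal (min ((q / t ^ 2) ^ p1) ((q / t ^ 2) ^ p2))) ≤
      ENNReal.ofReal (2 * γ * c * (1 / e2) * q ^ (γ + d / 2)) := by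
    calc ∫⁻ t in Set.Ioi t0, ENNReal.ofReal (2 * γ * t ^ (2 * γ - 1)) *
      (ENNReal.ofReal (c * t ^ d) *
      ENNReal.ofReal (min ((q / t ^ 2) ^ p1) ((q / t ^ 2) ^ p2)))
        ≤ ∫⁻ t in Set.Ioi t0, ENNReal.ofReal (2 * γ * c * q ^ p2 / e2) *
            ENNReal.ofReal (e2 * t ^ (-e2 - 1)) := by
          refine setLIntegral_mono' measurableSet_Ioi fun t ht => ?_
          have ht' : 0 < t := ht0p.trans ht
          rw [← ENNReal.ofReal_mul (by positivity), ← ENNReal.ofReal_mul (by positivity),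
            ← ENNReal.ofReal_mul (by positivity)]
          apply ENNReal.ofReal_le_ofReal
          calc 2 * γ * t ^ (2 * γ - 1) * (c * t ^ d * min ((q / t ^ 2) ^ p1) ((q / t ^ 2) ^ p2))
              ≤ 2 * γ * t ^ (2 * γ - 1) * (c * t ^ d * (q / t ^ 2) ^ p2) := by
                refine mul_le_mul_of_nonneg_left ?_ (by positivity)
                exact mul_le_mul_of_nonneg_left (min_le_right _ _) (by positivity)
            _ = (2 * γ * c * q ^ p2) * t ^ (2 * γ + d - 2 * p2 - 1) :=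
                d12_layer_pt d γ c q p2 t hq ht'
            _ = 2 * γ * c * q ^ p2 / e2 * (e2 * t ^ (-e2 - 1)) := by
                rw [show 2 * γ + d - 2 * p2 - 1 = -e2 - 1 by rw [he2]; ring]
                field_simp
      _ = ENNReal.ofReal (2 * γ * c * q ^ p2 / e2) * ENNReal.ofReal (t0 ^ (-e2)) := by
          rw [lintegral_const_mul' _ _ ENNReal.ofReal_ne_top, d12_layer_tail e2 t0 he2p ht0p]
      _ = ENNReal.ofReal (2 * γ * c * (1 / e2) * q ^ (γ + d / 2)) := by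
          rw [← ENNReal.ofReal_mul (by positivity)]
          congr 1
          have h3 : t0 ^ (-e2) = q ^ (-e2 / 2) := by
            rw [ht0, ← Real.rpow_mul hq]
            congr 1
            ring
          have h4 : q ^ (γ + (d : ℝ) / 2) = q ^ p2 * q ^ (-e2 / 2) := by
            rw [← Real.rpow_add hq0]
            congr 1
            rw [he2]
            ring
          rw [h3, h4]
          field_simp
  refine (add_le_add hA hB).trans ?_
  rw [← ENNReal.ofReal_add (by positivity) (by positivity)]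
  apply ENNReal.ofReal_le_ofReal
  apply le_of_eq
  ring

theorem d12_layer_single (α' γ θ r : ℝ) (hα : 0 < α') (hγ : 0 < γ) (hr : 0 ≤ r) (hθ : 0 ≤ θ)
    (hθ1 : θ ≤ 1) :
    ENNReal.ofReal (θ ^ α' * r ^ (2 * γ)) =
      ∫⁻ p : ℝ × ℝ, (Set.Iic θ).indicator (fun κ => ENNReal.ofReal (α' * κ ^ (α' - 1))) p.1 *
        (Set.Iic r).indicator (fun t => ENNReal.ofReal (2 * γ * t ^ (2 * γ - 1))) p.2
        ∂((volume.restrict (Set.Ioc 0 1)).prod (volume.restrict (Set.Ioi 0))) := by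
  have hm1 : Measurable (fun κ : ℝ => ENNReal.ofReal (α' * κ ^ (α' - 1))) := by fun_prop
  have hm2 : Measurable (fun t : ℝ => ENNReal.ofReal (2 * γ * t ^ (2 * γ - 1))) := by fun_prop
  rw [lintegral_prod_mul (hm1.indicator measurableSet_Iic).aemeasurable
    (hm2.indicator measurableSet_Iic).aemeasurable,
    lintegral_indicator measurableSet_Iic, lintegral_indicator measurableSet_Iic,
    Measure.restrict_restrict measurableSet_Iic, Measure.restrict_restrict measurableSet_Iic]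
  have hs1 : Set.Iic θ ∩ Set.Ioc 0 1 = Set.Ioc 0 θ := by
    ext x
    simp only [Set.mem_inter_iff, Set.mem_Iic, Set.mem_Ioc]
    constructor
    · rintro ⟨a, b, _⟩
      exact ⟨b, a⟩
    · rintro ⟨a, b⟩
      exact ⟨b, a, b.trans hθ1⟩
  have hs2 : Set.Iic r ∩ Set.Ioi 0 = Set.Ioc 0 r := by
    ext x
    simp only [Set.mem_inter_iff, Set.mem_Iic, Set.mem_Ioi, Set.mem_Ioc]
    tauto
  rw [hs1, hs2, d12_layer_pow α' θ hα hθ, d12_layer_pow (2 * γ) r (by positivity) hr,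
    ENNReal.ofReal_mul (Real.rpow_nonneg hθ _)]

theorem d12_layer (d : ℕ) (hd : 1 ≤ d) (γ σ p1 p2 c : ℝ) (hγ : 0 < γ) (hσ : (d : ℝ) / 2 < σ)
    (h1 : 0 < p1) (h1' : p1 < γ + d / 2) (h2 : γ + d / 2 < p2) (hc : 0 < c) :
    ∃ C' : ℝ, 0 < C' ∧ ∀ (α : Type) [MeasurableSpace α] (μ : Measure α) [SFinite μ]
      (Q : α → ℝ) (_ : Measurable Q) (_ : ∀ x, 0 ≤ Q x)
      (N : ℕ) (r θ : Fin N → ℝ) (_ : ∀ j, 0 ≤ r j) (_ : ∀ j, 0 ≤ θ j ∧ θ j ≤ 1)
      (_ : ∀ t κ : ℝ, 0 < t → 0 < κ → κ ≤ 1 →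
        ENNReal.ofReal ((Finset.univ.filter (fun j => t ≤ r j ∧ κ ≤ θ j)).card) ≤
          ENNReal.ofReal (c * t ^ d) * ∫⁻ x, ENNReal.ofReal
            (min ((Q x / (κ * t ^ 2)) ^ p1) ((Q x / (κ * t ^ 2)) ^ p2)) ∂μ),
      ENNReal.ofReal (∑ j, θ j ^ (γ + σ) * r j ^ (2 * γ)) ≤
        ENNReal.ofReal C' * ∫⁻ x, ENNReal.ofReal (Q x ^ (γ + d / 2)) ∂μ := by
  have hd0 : (0 : ℝ) ≤ d := Nat.cast_nonneg d
  set α' : ℝ := γ + σ with hα'
  have hσ0 : 0 < σ := lt_of_le_of_lt (by positivity) hσ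
  have hα : 0 < α' := by positivity
  set e1 : ℝ := 2 * γ + d - 2 * p1 with he1
  set e2 : ℝ := 2 * p2 - 2 * γ - d with he2
  have he1p : 0 < e1 := by rw [he1]; linarith
  have he2p : 0 < e2 := by rw [he2]; linarith
  have hs : 0 < σ - d / 2 := by linarith
  set C1 : ℝ := 2 * γ * c * (1 / e1 + 1 / e2) with hC1
  have hC1p : 0 < C1 := by positivity
  refine ⟨C1 * (α' / (σ - d / 2)), by positivity, ?_⟩
  intro α _ μ _ Q hQm hQ N r θ hr hθ hN
  set ν : Measure (ℝ × ℝ) :=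
    (volume.restrict (Set.Ioc (0 : ℝ) 1)).prod (volume.restrict (Set.Ioi (0 : ℝ))) with hν
  set f : ℝ → ℝ≥0∞ := fun κ => ENNReal.ofReal (α' * κ ^ (α' - 1)) with hf
  set g : ℝ → ℝ≥0∞ := fun t => ENNReal.ofReal (2 * γ * t ^ (2 * γ - 1)) with hg
  have hfm : Measurable f := by rw [hf]; fun_prop
  have hgm : Measurable g := by rw [hg]; fun_prop
  have hm : Measurable (fun z : (ℝ × ℝ) × α => f z.1.1 * (g z.1.2 *
      (ENNReal.ofReal (c * z.1.2 ^ d) * ENNReal.ofReal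
        (min ((Q z.2 / (z.1.1 * z.1.2 ^ 2)) ^ p1) ((Q z.2 / (z.1.1 * z.1.2 ^ 2)) ^ p2))))) := by
    have hQ2 : Measurable (fun z : (ℝ × ℝ) × α => Q z.2) := hQm.comp measurable_snd
    have h3 : Measurable (fun z : (ℝ × ℝ) × α => Q z.2 / (z.1.1 * z.1.2 ^ 2)) :=
      hQ2.div (by fun_prop)
    have h4 : Measurable (fun z : (ℝ × ℝ) × α => f z.1.1) :=
      hfm.comp (measurable_fst.comp measurable_fst)
    have h5 : Measurable (fun z : (ℝ × ℝ) × α => g z.1.2) :=
      hgm.comp (measurable_snd.comp measurable_fst)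
    have h6 : Measurable (fun z : (ℝ × ℝ) × α => ENNReal.ofReal (c * z.1.2 ^ d)) := by fun_prop
    exact h4.mul (h5.mul (h6.mul ((h3.pow_const p1).min (h3.pow_const p2)).ennreal_ofReal))
  have step1 : ENNReal.ofReal (∑ j, θ j ^ α' * r j ^ (2 * γ)) =
      ∫⁻ p : ℝ × ℝ, ∑ j, ((Set.Iic (θ j)).indicator f p.1 * (Set.Iic (r j)).indicator g p.2) ∂ν := by
    rw [ENNReal.ofReal_sum_of_nonneg (fun j _ => mul_nonneg (Real.rpow_nonneg (hθ j).1 _)
      (Real.rpow_nonneg (hr j) _)), lintegral_finsetSum]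
    · refine Finset.sum_congr rfl fun j _ => ?_
      exact d12_layer_single α' γ (θ j) (r j) hα hγ (hr j) (hθ j).1 (hθ j).2
    · intro j _
      exact ((hfm.indicator measurableSet_Iic).comp measurable_fst).mul
        ((hgm.indicator measurableSet_Iic).comp measurable_snd)
  have step2 : ∫⁻ p : ℝ × ℝ, ∑ j, ((Set.Iic (θ j)).indicator f p.1 *
      (Set.Iic (r j)).indicator g p.2) ∂ν ≤
      ∫⁻ p : ℝ × ℝ, ∫⁻ x, f p.1 * (g p.2 *
      (ENNReal.ofReal (c * p.2 ^ d) * ENNReal.ofReal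
        (min ((Q x / (p.1 * p.2 ^ 2)) ^ p1) ((Q x / (p.1 * p.2 ^ 2)) ^ p2)))) ∂μ ∂ν := by
    rw [hν, Measure.prod_restrict]
    refine setLIntegral_mono' (measurableSet_Ioc.prod measurableSet_Ioi) ?_
    rintro ⟨κ, t⟩ ⟨hκ, ht⟩
    have hκ' : 0 < κ ∧ κ ≤ 1 := hκ
    have ht' : 0 < t := ht
    have hsum : ∑ j, ((Set.Iic (θ j)).indicator f κ * (Set.Iic (r j)).indicator g t) =
        ENNReal.ofReal ((Finset.univ.filter (fun j => t ≤ r j ∧ κ ≤ θ j)).card) * (f κ * g t) := by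
      rw [ENNReal.ofReal_natCast, ← nsmul_eq_mul, ← Finset.sum_const, Finset.sum_filter]
      refine Finset.sum_congr rfl fun j _ => ?_
      by_cases ha : t ≤ r j
      · by_cases hb : κ ≤ θ j
        · rw [if_pos ⟨ha, hb⟩, Set.indicator_of_mem (Set.mem_Iic.mpr hb),
            Set.indicator_of_mem (Set.mem_Iic.mpr ha)]
        · rw [if_neg (fun h => hb h.2),
            Set.indicator_of_notMem (show κ ∉ Set.Iic (θ j) from fun h => hb h), zero_mul]
      · rw [if_neg (fun h => ha h.1),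
          Set.indicator_of_notMem (show t ∉ Set.Iic (r j) from fun h => ha h), mul_zero]
    change ∑ j, ((Set.Iic (θ j)).indicator f κ * (Set.Iic (r j)).indicator g t) ≤
      ∫⁻ x, f κ * (g t * (ENNReal.ofReal (c * t ^ d) * ENNReal.ofReal
        (min ((Q x / (κ * t ^ 2)) ^ p1) ((Q x / (κ * t ^ 2)) ^ p2)))) ∂μ
    have hmx : Measurable (fun x : α => ENNReal.ofReal
        (min ((Q x / (κ * t ^ 2)) ^ p1) ((Q x / (κ * t ^ 2)) ^ p2))) :=
      (((hQm.div_const _).pow_const p1).min ((hQm.div_const _).pow_const p2)).ennreal_ofReal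
    rw [hsum, lintegral_const_mul' _ _ ENNReal.ofReal_ne_top,
      lintegral_const_mul' _ _ ENNReal.ofReal_ne_top,
      lintegral_const_mul' _ _ ENNReal.ofReal_ne_top]
    calc ENNReal.ofReal ((Finset.univ.filter (fun j => t ≤ r j ∧ κ ≤ θ j)).card) * (f κ * g t)
        ≤ (ENNReal.ofReal (c * t ^ d) * ∫⁻ x, ENNReal.ofReal
            (min ((Q x / (κ * t ^ 2)) ^ p1) ((Q x / (κ * t ^ 2)) ^ p2)) ∂μ) * (f κ * g t) :=
          mul_le_mul_left (hN t κ ht' hκ'.1 hκ'.2) _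
      _ = f κ * (g t * (ENNReal.ofReal (c * t ^ d) * ∫⁻ x, ENNReal.ofReal
            (min ((Q x / (κ * t ^ 2)) ^ p1) ((Q x / (κ * t ^ 2)) ^ p2)) ∂μ)) := by ring
  have step3 : ∫⁻ p : ℝ × ℝ, ∫⁻ x, f p.1 * (g p.2 *
      (ENNReal.ofReal (c * p.2 ^ d) * ENNReal.ofReal
        (min ((Q x / (p.1 * p.2 ^ 2)) ^ p1) ((Q x / (p.1 * p.2 ^ 2)) ^ p2)))) ∂μ ∂ν =
      ∫⁻ x, ∫⁻ p : ℝ × ℝ, f p.1 * (g p.2 *
      (ENNReal.ofReal (c * p.2 ^ d) * ENNReal.ofReal
        (min ((Q x / (p.1 * p.2 ^ 2)) ^ p1) ((Q x / (p.1 * p.2 ^ 2)) ^ p2)))) ∂ν ∂μ :=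
    lintegral_lintegral_swap hm.aemeasurable
  have step4 : ∀ x, ∫⁻ p : ℝ × ℝ, f p.1 * (g p.2 *
      (ENNReal.ofReal (c * p.2 ^ d) * ENNReal.ofReal
        (min ((Q x / (p.1 * p.2 ^ 2)) ^ p1) ((Q x / (p.1 * p.2 ^ 2)) ^ p2)))) ∂ν ≤
      ENNReal.ofReal (C1 * (α' / (σ - d / 2))) * ENNReal.ofReal (Q x ^ (γ + d / 2)) := by
    intro x
    have hmx : Measurable (fun p : ℝ × ℝ => f p.1 * (g p.2 *
      (ENNReal.ofReal (c * p.2 ^ d) * ENNReal.ofReal
        (min ((Q x / (p.1 * p.2 ^ 2)) ^ p1) ((Q x / (p.1 * p.2 ^ 2)) ^ p2))))) :=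
      hm.comp (measurable_id.prodMk measurable_const)
    rw [hν, lintegral_prod _ hmx.aemeasurable]
    calc ∫⁻ κ in Set.Ioc (0 : ℝ) 1, ∫⁻ t in Set.Ioi (0 : ℝ), f κ * (g t *
      (ENNReal.ofReal (c * t ^ d) * ENNReal.ofReal
        (min ((Q x / (κ * t ^ 2)) ^ p1) ((Q x / (κ * t ^ 2)) ^ p2))))
        ≤ ∫⁻ κ in Set.Ioc (0 : ℝ) 1, ENNReal.ofReal (C1 * (α' / (σ - d / 2)) *
            Q x ^ (γ + d / 2)) * ENNReal.ofReal ((σ - d / 2) * κ ^ ((σ - d / 2) - 1)) := by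
          refine setLIntegral_mono' measurableSet_Ioc fun κ hκ => ?_
          have hκ0 : 0 < κ := hκ.1
          rw [lintegral_const_mul' _ _ ENNReal.ofReal_ne_top]
          have h5 := d12_layer_inner d γ p1 p2 c (Q x / κ) hγ h1 h1' h2 hc
            (div_nonneg (hQ x) hκ0.le)
          simp only [div_div] at h5
          refine (mul_le_mul_right h5 _).trans ?_
          rw [← ENNReal.ofReal_mul (by positivity), ← ENNReal.ofReal_mul (by
            have := hQ x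
            positivity)]
          apply ENNReal.ofReal_le_ofReal
          apply le_of_eq
          have h6 : (Q x / κ) ^ (γ + (d : ℝ) / 2) = Q x ^ (γ + (d : ℝ) / 2) *
              κ ^ (-(γ + (d : ℝ) / 2)) := by
            rw [Real.div_rpow (hQ x) hκ0.le, Real.rpow_neg hκ0.le]
            rfl
          have h7 : κ ^ ((σ - (d : ℝ) / 2) - 1) = κ ^ (α' - 1) * κ ^ (-(γ + (d : ℝ) / 2)) := by
            rw [← Real.rpow_add hκ0]
            congr 1
            rw [hα']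
            ring
          rw [h6, h7]
          rw [← he1, ← he2, ← hC1]
          have h8 : α' / (σ - (d : ℝ) / 2) * (σ - (d : ℝ) / 2) = α' := div_mul_cancel₀ _ hs.ne'
          linear_combination (-(C1 * Q x ^ (γ + (d : ℝ) / 2) * κ ^ (α' - 1) *
            κ ^ (-(γ + (d : ℝ) / 2)))) * h8
      _ = ENNReal.ofReal (C1 * (α' / (σ - d / 2)) * Q x ^ (γ + d / 2)) * ENNReal.ofReal 1 := by
          rw [lintegral_const_mul' _ _ ENNReal.ofReal_ne_top, d12_layer_pow _ 1 hs zero_le_one,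
            Real.one_rpow]
      _ = ENNReal.ofReal (C1 * (α' / (σ - d / 2))) * ENNReal.ofReal (Q x ^ (γ + d / 2)) := by
          rw [ENNReal.ofReal_one, mul_one, ENNReal.ofReal_mul (by positivity)]
  rw [step1]
  refine step2.trans ?_
  rw [step3]
  refine (lintegral_mono step4).trans ?_
  rw [lintegral_const_mul' _ _ ENNReal.ofReal_ne_top]

end K12
end Pool.Agent.Helper209.CX
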