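import Mathlib
import Pool.Agent.Helper209.CX.DDefs

namespace Pool.Agent.Helper209.CX

namespace K18
open MeasureTheory ENNReal



theorem auxG_meas (d : ℕ) (k : ℂ) :
    Measurable (fun ξ : Ed d => ‖(((2 * Real.pi * ‖ξ‖) ^ 2 : ℝ) : ℂ) - k ^ 2‖⁻¹) := by
  have h : Continuous (fun ξ : Ed d => ‖(((2 * Real.pi * ‖ξ‖) ^ 2 : ℝ) : ℂ) - k ^ 2‖) := by
    fun_prop
  exact h.measurable.inv

theorem auxG_lint (d : ℕ) (k : ℂ) (q a : ℝ) (ha : 0 ≤ a) (q0 : 0 < q) :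
    ∫⁻ ξ : Ed d, ENNReal.ofReal ((a * ‖(((2 * Real.pi * ‖ξ‖) ^ 2 : ℝ) : ℂ) - k ^ 2‖⁻¹) ^ q) =
      ENNReal.ofReal (a ^ q) *
        ∫⁻ ξ : Ed d, ENNReal.ofReal ((‖(((2 * Real.pi * ‖ξ‖) ^ 2 : ℝ) : ℂ) - k ^ 2‖⁻¹) ^ q) := by
  rw [← lintegral_const_mul _ (((auxG_meas d k).pow_const q).ennreal_ofReal)]
  refine lintegral_congr fun ξ => ?_
  rw [Real.mul_rpow ha (inv_nonneg.mpr (norm_nonneg _)),
    ENNReal.ofReal_mul (Real.rpow_nonneg ha _)]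

theorem aux_min_le (a p1 p p2 : ℝ) (ha : 0 < a) (h1p : p1 < p) (hp2 : p < p2) :
    min (a ^ p1) (a ^ p2) ≤ a ^ p := by
  rcases le_total a 1 with h | h
  · exact (min_le_right _ _).trans (Real.rpow_le_rpow_of_exponent_ge ha h hp2.le)
  · exact (min_le_left _ _).trans (Real.rpow_le_rpow_of_exponent_le h h1p.le)

theorem aux_min_mul (u v X Y : ℝ) (hu : 0 ≤ u) (hv : 0 ≤ v) :
    min (u * X) (v * Y) ≤ max X Y * min u v := by
  rcases le_total u v with h | h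
  · rw [min_eq_left h]
    refine (min_le_left _ _).trans ?_
    rw [mul_comm]
    exact mul_le_mul_of_nonneg_right (le_max_left _ _) hu
  · rw [min_eq_right h]
    refine (min_le_right _ _).trans ?_
    rw [mul_comm]
    exact mul_le_mul_of_nonneg_right (le_max_right _ _) hv

theorem d18_sum
    (d6 : ∀ (p1 p2 C1 c1 : ℝ) (_ : 1 < p1) (_ : p1 < p2) (_ : 0 < C1) (_ : 0 < c1),
      ∃ C : ℝ, 0 < C ∧ ∀ (α : Type) [MeasurableSpace α] (μ : Measure α) [SFinite μ]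
      (F : α → ℝ) (_ : Measurable F) (_ : ∀ a, 0 ≤ F a) (N : ℕ) (l : Fin N → ℝ) (_ : ∀ j, 0 ≤ l j)
      (_ : ∀ r : ℝ, 0 < r →
        ENNReal.ofReal (∑ j ∈ Finset.univ.filter (fun j => r ≤ l j), l j) ≤
          ENNReal.ofReal C1 * ∫⁻ a, (if c1 * r < F a then ENNReal.ofReal (F a) else 0) ∂μ),
      ENNReal.ofReal (∑ j, min (l j ^ p1) (l j ^ p2)) ≤
        ENNReal.ofReal C * ∫⁻ a, ENNReal.ofReal (min (F a ^ p1) (F a ^ p2)) ∂μ)
    (d7 : ∀ (d : ℕ) (_ : 1 ≤ d) (p : ℝ) (_ : 1 < p) (_ : (d : ℝ) / 2 < p),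
      ∃ C : ℝ, 0 < C ∧ ∀ k : ℂ, 0 < k.im →
      ∫⁻ ξ : Ed d, ENNReal.ofReal ((‖(((2 * Real.pi * ‖ξ‖) ^ 2 : ℝ) : ℂ) - k ^ 2‖⁻¹) ^ p) ≤
        ENNReal.ofReal (C * ‖k‖ ^ ((d : ℝ) - 2 * p) * (‖k‖ / k.im) ^ (p - 1)))
    (d : ℕ) (hd : 1 ≤ d) (p1 p p2 : ℝ) (h1 : 1 < p1) (h1d : (d : ℝ) / 2 < p1)
    (h1p : p1 < p) (hp2 : p < p2) :
    ∃ C : ℝ, 0 < C ∧ ∀ (Q : Ed d → ℝ) (_ : Measurable Q) (_ : ∀ x, 0 < Q x)
      (_ : Integrable (fun x => Q x ^ p) volume) (k : ℂ) (_ : 0 < k.im) (N : ℕ) (l : Fin N → ℝ)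
      (_ : ∀ j, 0 ≤ l j)
      (_ : ∀ r : ℝ, 0 < r →
        ENNReal.ofReal (∑ j ∈ Finset.univ.filter (fun j => r ≤ l j), l j) ≤
        64 * ∫⁻ x : Ed d, ∫⁻ ξ : Ed d,
        (if r / 64 < Q x * ‖(((2 * Real.pi * ‖ξ‖) ^ 2 : ℝ) : ℂ) - k ^ 2‖⁻¹ then
          ENNReal.ofReal (Q x * ‖(((2 * Real.pi * ‖ξ‖) ^ 2 : ℝ) : ℂ) - k ^ 2‖⁻¹) else 0)),
      ∑ j, min (l j ^ p1) (l j ^ p2) ≤ C * ∫ x,
        min (Q x ^ p1 * ‖k‖ ^ ((d : ℝ) - 2 * p1) * (‖k‖ / k.im) ^ (p1 - 1))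
          (Q x ^ p2 * ‖k‖ ^ ((d : ℝ) - 2 * p2) * (‖k‖ / k.im) ^ (p2 - 1)) := by
  obtain ⟨C0, hC0, h6⟩ := d6 p1 p2 64 (1 / 64) h1 (h1p.trans hp2) (by norm_num) (by norm_num)
  obtain ⟨A1, hA1, h71⟩ := d7 d hd p1 h1 h1d
  obtain ⟨A2, hA2, h72⟩ := d7 d hd p2 (h1.trans (h1p.trans hp2)) (h1d.trans (h1p.trans hp2))
  have hM : 0 < max A1 A2 := lt_max_of_lt_left hA1
  refine ⟨C0 * max A1 A2, mul_pos hC0 hM, ?_⟩
  intro Q hQm hQ0 hQi k hk N l hl hyp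
  set G : Ed d → ℝ := fun ξ => ‖(((2 * Real.pi * ‖ξ‖) ^ 2 : ℝ) : ℂ) - k ^ 2‖⁻¹ with hG
  have hGm : Measurable G := auxG_meas d k
  have hG0 : ∀ ξ, 0 ≤ G ξ := fun ξ => inv_nonneg.mpr (norm_nonneg _)
  set K1 := ‖k‖ ^ ((d : ℝ) - 2 * p1) with hK1
  set K2 := ‖k‖ ^ ((d : ℝ) - 2 * p2) with hK2
  set L1 := (‖k‖ / k.im) ^ (p1 - 1) with hL1
  set L2 := (‖k‖ / k.im) ^ (p2 - 1) with hL2
  have hK10 : 0 ≤ K1 := Real.rpow_nonneg (norm_nonneg _) _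
  have hK20 : 0 ≤ K2 := Real.rpow_nonneg (norm_nonneg _) _
  have hL10 : 0 ≤ L1 := Real.rpow_nonneg (div_nonneg (norm_nonneg _) hk.le) _
  have hL20 : 0 ≤ L2 := Real.rpow_nonneg (div_nonneg (norm_nonneg _) hk.le) _
  have hQp : ∀ (q : ℝ) x, 0 ≤ Q x ^ q := fun q x => Real.rpow_nonneg (hQ0 x).le _
  set H : Ed d → ℝ := fun x => min (Q x ^ p1 * K1 * L1) (Q x ^ p2 * K2 * L2) with hH
  have hHm : Measurable H :=
    (((hQm.pow_const p1).mul_const K1).mul_const L1).min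
      (((hQm.pow_const p2).mul_const K2).mul_const L2)
  have hH0 : ∀ x, 0 ≤ H x := fun x =>
    le_min (mul_nonneg (mul_nonneg (hQp _ _) hK10) hL10)
      (mul_nonneg (mul_nonneg (hQp _ _) hK20) hL20)
  have hXm : 0 ≤ max (K1 * L1) (K2 * L2) := le_max_of_le_left (mul_nonneg hK10 hL10)
  have hHi : Integrable H volume := by
    refine Integrable.mono' (hQi.const_mul (max (K1 * L1) (K2 * L2)))
      hHm.aestronglyMeasurable (Filter.Eventually.of_forall fun x => ?_)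
    rw [Real.norm_eq_abs, abs_of_nonneg (hH0 x)]
    have e1 : H x = min (Q x ^ p1 * (K1 * L1)) (Q x ^ p2 * (K2 * L2)) := by
      rw [hH]; simp only [mul_assoc]
    rw [e1]
    refine (aux_min_mul _ _ _ _ (hQp _ _) (hQp _ _)).trans ?_
    exact mul_le_mul_of_nonneg_left (aux_min_le _ _ _ _ (hQ0 x) h1p hp2) hXm
  set F : Ed d × Ed d → ℝ := fun z => Q z.1 * G z.2 with hF
  have hFm : Measurable F := (hQm.comp measurable_fst).mul (hGm.comp measurable_snd)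
  have hF0 : ∀ z, 0 ≤ F z := fun z => mul_nonneg (hQ0 _).le (hG0 _)
  have key := h6 (Ed d × Ed d) ((volume : Measure (Ed d)).prod volume) F hFm hF0 N l hl
    (by
      intro r hr
      have h := hyp r hr
      have e1 : ENNReal.ofReal 64 = 64 := by norm_num
      rw [e1, lintegral_prod _ (Measurable.aemeasurable (Measurable.ite
        (measurableSet_lt measurable_const hFm) hFm.ennreal_ofReal measurable_const))]
      refine h.trans (le_of_eq ?_)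
      congr 1
      refine lintegral_congr fun x => lintegral_congr fun ξ => ?_
      have e2 : (1 / 64 : ℝ) * r = r / 64 := by ring
      rw [e2])
  have hstep : ∫⁻ z, ENNReal.ofReal (min (F z ^ p1) (F z ^ p2))
      ∂((volume : Measure (Ed d)).prod volume) ≤ ENNReal.ofReal (∫ x, max A1 A2 * H x) := by
    rw [lintegral_prod _ (((hFm.pow_const p1).min (hFm.pow_const p2)).ennreal_ofReal.aemeasurable),
      ofReal_integral_eq_lintegral_ofReal (hHi.const_mul _)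
        (Filter.Eventually.of_forall fun x => mul_nonneg hM.le (hH0 x))]
    refine lintegral_mono fun x => ?_
    have b1 : ∫⁻ ξ, ENNReal.ofReal (min (F (x, ξ) ^ p1) (F (x, ξ) ^ p2)) ≤
        ENNReal.ofReal (max A1 A2 * (Q x ^ p1 * K1 * L1)) := by
      calc ∫⁻ ξ, ENNReal.ofReal (min (F (x, ξ) ^ p1) (F (x, ξ) ^ p2))
          ≤ ∫⁻ ξ : Ed d, ENNReal.ofReal ((Q x * ‖(((2 * Real.pi * ‖ξ‖) ^ 2 : ℝ) : ℂ) - k ^ 2‖⁻¹) ^ p1) :=
            lintegral_mono fun ξ => ENNReal.ofReal_le_ofReal (min_le_left _ _)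
        _ = ENNReal.ofReal (Q x ^ p1) * ∫⁻ ξ : Ed d,
              ENNReal.ofReal ((‖(((2 * Real.pi * ‖ξ‖) ^ 2 : ℝ) : ℂ) - k ^ 2‖⁻¹) ^ p1) :=
            auxG_lint d k p1 (Q x) (hQ0 x).le (by linarith)
        _ ≤ ENNReal.ofReal (Q x ^ p1) * ENNReal.ofReal (A1 * K1 * L1) := by
            gcongr
            exact h71 k hk
        _ = ENNReal.ofReal (Q x ^ p1 * (A1 * K1 * L1)) := by
            rw [ENNReal.ofReal_mul (hQp _ _)]
        _ ≤ ENNReal.ofReal (max A1 A2 * (Q x ^ p1 * K1 * L1)) := by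
            apply ENNReal.ofReal_le_ofReal
            have : Q x ^ p1 * (A1 * K1 * L1) = A1 * (Q x ^ p1 * K1 * L1) := by ring
            rw [this]
            exact mul_le_mul_of_nonneg_right (le_max_left _ _)
              (mul_nonneg (mul_nonneg (hQp _ _) hK10) hL10)
    have b2 : ∫⁻ ξ, ENNReal.ofReal (min (F (x, ξ) ^ p1) (F (x, ξ) ^ p2)) ≤
        ENNReal.ofReal (max A1 A2 * (Q x ^ p2 * K2 * L2)) := by
      calc ∫⁻ ξ, ENNReal.ofReal (min (F (x, ξ) ^ p1) (F (x, ξ) ^ p2))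
          ≤ ∫⁻ ξ : Ed d, ENNReal.ofReal ((Q x * ‖(((2 * Real.pi * ‖ξ‖) ^ 2 : ℝ) : ℂ) - k ^ 2‖⁻¹) ^ p2) :=
            lintegral_mono fun ξ => ENNReal.ofReal_le_ofReal (min_le_right _ _)
        _ = ENNReal.ofReal (Q x ^ p2) * ∫⁻ ξ : Ed d,
              ENNReal.ofReal ((‖(((2 * Real.pi * ‖ξ‖) ^ 2 : ℝ) : ℂ) - k ^ 2‖⁻¹) ^ p2) :=
            auxG_lint d k p2 (Q x) (hQ0 x).le (by linarith)
        _ ≤ ENNReal.ofReal (Q x ^ p2) * ENNReal.ofReal (A2 * K2 * L2) := by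
            gcongr
            exact h72 k hk
        _ = ENNReal.ofReal (Q x ^ p2 * (A2 * K2 * L2)) := by
            rw [ENNReal.ofReal_mul (hQp _ _)]
        _ ≤ ENNReal.ofReal (max A1 A2 * (Q x ^ p2 * K2 * L2)) := by
            apply ENNReal.ofReal_le_ofReal
            have : Q x ^ p2 * (A2 * K2 * L2) = A2 * (Q x ^ p2 * K2 * L2) := by ring
            rw [this]
            exact mul_le_mul_of_nonneg_right (le_max_right _ _)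
              (mul_nonneg (mul_nonneg (hQp _ _) hK20) hL20)
    rcases le_total (Q x ^ p1 * K1 * L1) (Q x ^ p2 * K2 * L2) with h | h
    · have e : H x = Q x ^ p1 * K1 * L1 := min_eq_left h
      rw [e]; exact b1
    · have e : H x = Q x ^ p2 * K2 * L2 := min_eq_right h
      rw [e]; exact b2
  have hfin : ENNReal.ofReal (∑ j, min (l j ^ p1) (l j ^ p2)) ≤
      ENNReal.ofReal (C0 * (max A1 A2 * ∫ x, H x)) := by
    refine key.trans ?_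
    rw [ENNReal.ofReal_mul hC0.le, ← integral_const_mul]
    gcongr
  have hnn : 0 ≤ C0 * (max A1 A2 * ∫ x, H x) :=
    mul_nonneg hC0.le (mul_nonneg hM.le (integral_nonneg hH0))
  have := (ENNReal.ofReal_le_ofReal_iff hnn).mp hfin
  rw [mul_assoc]
  exact this

theorem d19_fin
    (d7 : ∀ (d : ℕ) (_ : 1 ≤ d) (p : ℝ) (_ : 1 < p) (_ : (d : ℝ) / 2 < p),
      ∃ C : ℝ, 0 < C ∧ ∀ k : ℂ, 0 < k.im →
      ∫⁻ ξ : Ed d, ENNReal.ofReal ((‖(((2 * Real.pi * ‖ξ‖) ^ 2 : ℝ) : ℂ) - k ^ 2‖⁻¹) ^ p) ≤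
        ENNReal.ofReal (C * ‖k‖ ^ ((d : ℝ) - 2 * p) * (‖k‖ / k.im) ^ (p - 1)))
    (d : ℕ) (hd : 1 ≤ d) (p : ℝ) (h1 : 1 < p) (h1d : (d : ℝ) / 2 < p)
    (Q : Ed d → ℝ) (hQm : Measurable Q) (hQ0 : ∀ x, 0 < Q x)
    (hQ : Integrable (fun x => Q x ^ p) volume) :
    (∀ c : ℝ, 0 < c → volume {x | c < Q x} < ⊤) ∧
    ∀ (k : ℂ) (_ : 0 < k.im) (c : ℝ) (_ : 0 < c), ∫⁻ x : Ed d, ∫⁻ ξ : Ed d,
      (if c < Q x * ‖(((2 * Real.pi * ‖ξ‖) ^ 2 : ℝ) : ℂ) - k ^ 2‖⁻¹ then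
        ENNReal.ofReal (Q x * ‖(((2 * Real.pi * ‖ξ‖) ^ 2 : ℝ) : ℂ) - k ^ 2‖⁻¹) else 0) < ⊤ := by
  have hp0 : 0 < p := by linarith
  constructor
  · intro c hc
    have h := hQ.measure_gt_lt_top (ε := c ^ p) (Real.rpow_pos_of_pos hc p)
    refine lt_of_le_of_lt (measure_mono ?_) h
    intro x hx
    exact Real.rpow_lt_rpow hc.le hx hp0
  · intro k hk c hc
    obtain ⟨A, hA, h7⟩ := d7 d hd p h1 h1d
    set G : Ed d → ℝ := fun ξ => ‖(((2 * Real.pi * ‖ξ‖) ^ 2 : ℝ) : ℂ) - k ^ 2‖⁻¹ with hG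
    have hG0 : ∀ ξ, 0 ≤ G ξ := fun ξ => inv_nonneg.mpr (norm_nonneg _)
    have hpt : ∀ t : ℝ, (if c < t then ENNReal.ofReal t else 0) ≤
        ENNReal.ofReal (c ^ (1 - p)) * ENNReal.ofReal (t ^ p) := by
      intro t
      split_ifs with h
      · have ht : 0 < t := hc.trans h
        rw [← ENNReal.ofReal_mul (Real.rpow_nonneg hc.le _)]
        apply ENNReal.ofReal_le_ofReal
        have e1 : t = t ^ (1 - p) * t ^ p := by
          rw [← Real.rpow_add ht, sub_add_cancel, Real.rpow_one]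
        calc t = t ^ (1 - p) * t ^ p := e1
          _ ≤ c ^ (1 - p) * t ^ p :=
            mul_le_mul_of_nonneg_right (Real.rpow_le_rpow_of_nonpos hc h.le (by linarith))
              (Real.rpow_nonneg ht.le _)
      · exact zero_le
    have hB : ∫⁻ ξ : Ed d, ENNReal.ofReal
        ((‖(((2 * Real.pi * ‖ξ‖) ^ 2 : ℝ) : ℂ) - k ^ 2‖⁻¹) ^ p) < ⊤ :=
      (h7 k hk).trans_lt ENNReal.ofReal_lt_top
    set I := ∫⁻ ξ : Ed d, ENNReal.ofReal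
        ((‖(((2 * Real.pi * ‖ξ‖) ^ 2 : ℝ) : ℂ) - k ^ 2‖⁻¹) ^ p) with hI
    have hin : ∀ x : Ed d, ∫⁻ ξ : Ed d,
      (if c < Q x * ‖(((2 * Real.pi * ‖ξ‖) ^ 2 : ℝ) : ℂ) - k ^ 2‖⁻¹ then
        ENNReal.ofReal (Q x * ‖(((2 * Real.pi * ‖ξ‖) ^ 2 : ℝ) : ℂ) - k ^ 2‖⁻¹) else 0) ≤
        ENNReal.ofReal (c ^ (1 - p)) * (ENNReal.ofReal (Q x ^ p) * I) := by
      intro x
      rw [hI, ← auxG_lint d k p (Q x) (hQ0 x).le hp0,
        ← lintegral_const_mul _ ((((auxG_meas d k).const_mul (Q x)).pow_const p).ennreal_ofReal)]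
      exact lintegral_mono fun ξ => hpt _
    calc _ ≤ ∫⁻ x : Ed d, ENNReal.ofReal (c ^ (1 - p)) * (ENNReal.ofReal (Q x ^ p) * I) :=
          lintegral_mono hin
      _ = ENNReal.ofReal (c ^ (1 - p)) * ((∫⁻ x : Ed d, ENNReal.ofReal (Q x ^ p)) * I) := by
          rw [lintegral_const_mul _ (((hQm.pow_const p).ennreal_ofReal).mul_const _),
            lintegral_mul_const _ ((hQm.pow_const p).ennreal_ofReal)]
      _ < ⊤ := by
          exact ENNReal.mul_lt_top ENNReal.ofReal_lt_top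
            (ENNReal.mul_lt_top hQ.lintegral_lt_top hB)

end K18
end Pool.Agent.Helper209.CX
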