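import Mathlib
import Pool.Agent.Helper209.CX.C01
import Pool.Agent.Helper209.CX.K10
import Pool.Agent.Helper209.CX.K11
import Pool.Agent.Helper209.CX.K12
import Pool.Agent.Helper209.CX.K14
import Pool.Agent.Helper209.CX.K18
import Pool.Agent.Helper209.CX.B03

namespace Pool.Agent.Helper209.CX
open MeasureTheory ENNReal FourierTransform

/-- zero counting in all dimensions -/
theorem countD (d : ℕ) (hd : 1 ≤ d) (p1 p2 p C0 c0 : ℝ) (h1 : ((d : ℝ) + 1) / 2 < p1) (h1p : p1 < p)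
    (hp2 : p < p2) (h2 : p2 < (d : ℝ) / 2 + 1) (hC0 : 0 < C0) (hc0 : 0 < c0) :
    ∃ C : ℝ, 0 < C ∧ ∀ (Q : Ed d → ℝ) (_ : Measurable Q) (_ : ∀ x, 0 < Q x)
      (_ : Integrable (fun x => Q x ^ p) volume)
      (D gf : ℂ → ℂ) (_ : DifferentiableOn ℂ D {k : ℂ | 0 < k.im})
      (_ : DifferentiableOn ℂ gf {k : ℂ | 0 < k.im}) (N : ℕ) (E : Fin N → ℂ)
      (_ : ∀ k : ℂ, 0 < k.im → D k = gf k * ∏ j, (k ^ 2 - E j))
      (_ : ∀ k : ℂ, 0 < k.im → ‖D k‖ ≤ Real.exp (C0 * Bk Q p1 p2 k))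
      (_ : ∀ k : ℂ, 0 < k.im → Bk Q p1 p2 k ≤ c0 → Real.exp (-(C0 * Bk Q p1 p2 k)) ≤ ‖D k‖)
      (t κ : ℝ) (_ : 0 < t) (_ : 0 < κ) (_ : κ ≤ 1),
      ENNReal.ofReal ((Finset.univ.filter (fun j => t ≤ Real.sqrt ‖E j‖ ∧
        κ ≤ Real.sqrt ((1 - (E j).re / ‖E j‖) / 2))).card) ≤
      ENNReal.ofReal (C * t ^ d) * ∫⁻ x, ENNReal.ofReal
        (min ((Q x / (κ * t ^ 2)) ^ p1) ((Q x / (κ * t ^ 2)) ^ p2)) := by
  rcases Nat.lt_or_ge d 2 with hd2 | hd2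
  · obtain rfl : d = 1 := by omega
    have h1' : 1 < p1 := by norm_num at h1; linarith
    have h2' : p2 < 2 := by norm_num at h2; linarith
    obtain ⟨C, hC, h⟩ := K11.d11_count halfplane0 A19a.cx_branch A20.cx_geom p1 p2 p C0 c0 h1' h1p
      hp2 h2' hC0 hc0
    refine ⟨C, hC, ?_⟩
    intro Q hQm hQ0 hQ D gf hD hgf N E hfac hup hlow t κ ht hκ hκ1
    have := h (Ed 1) volume Q hQm (fun x => (hQ0 x).le) hQ D gf hD hgf N E hfac
      (fun k hk => by simpa [Bk] using hup k hk) (fun k hk hc => by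
        have := hlow k hk (by simpa [Bk] using hc)
        simpa [Bk] using this) t κ ht hκ hκ1
    simpa [pow_one] using this
  · have h2' : p2 < d := by
      have : (2 : ℝ) ≤ d := by exact_mod_cast hd2
      linarith
    obtain ⟨C, hC, h⟩ := K10.d10_count halfplane0 d hd2 p1 p2 p C0 c0 h1 h1p hp2 h2' hC0 hc0
    refine ⟨C, hC, ?_⟩
    intro Q hQm hQ0 hQ D gf hD hgf N E hfac hup hlow t κ ht hκ hκ1
    exact h (Ed d) volume Q hQm (fun x => (hQ0 x).le) hQ D gf hD hgf N E hfac hup hlow t κ ht hκ hκ1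

theorem final_QD
    (schur : ∀ (N m : ℕ) (K : Matrix (Fin N) (Fin N) ℂ),
      ∃ U ∈ Matrix.unitaryGroup (Fin N) ℂ,
      (1 + K).det * Complex.exp (∑ i ∈ Finset.Ico 1 m, (-1 : ℂ) ^ i / i * (K ^ i).trace) =
      ∏ j, ((1 + (star U * K * U) j j) *
        Complex.exp (∑ i ∈ Finset.Ico 1 m, (-1 : ℂ) ^ i / i * ((star U * K * U) j j) ^ i)))
    (d : ℕ) (hd : 1 ≤ d) (γ σ : ℝ) (hγ : 1 / 2 < γ) (hγ1 : γ < 1) (hσ : (d : ℝ) / 2 < σ) :
    ∃ C0 : ℝ, 0 < C0 ∧ ∀ (Q : Ed d → ℝ) (_ : Measurable Q) (_ : ∀ x, 0 < Q x)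
      (_ : Integrable (fun x => Q x ^ (γ + d / 2)) volume) (V : Ed d → ℂ) (_ : Measurable V)
      (_ : ∀ x, ‖V x‖ ≤ Q x) (N : ℕ) (u : Fin N → L2d d) (_ : LinearIndependent ℂ u)
      (A : Matrix (Fin N) (Fin N) ℂ) (_ : ∀ j, IsHu 1 V (u j) (∑ l, A l j • u l)),
      (A.charpoly.roots.map (fun E => ‖E‖ ^ (-σ) *
        (Metric.infDist E {z : ℂ | 0 ≤ z.re ∧ z.im = 0}) ^ (γ + σ))).sum ≤
        C0 * ∫ x, Q x ^ (γ + d / 2) := by
  set p : ℝ := γ + d / 2 with hp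
  set p1 : ℝ := (p + ((d : ℝ) + 1) / 2) / 2 with hp1
  set p2 : ℝ := (p + ((d : ℝ) / 2 + 1)) / 2 with hp2
  set m : ℕ := (d + 1) / 2 + 1 with hm
  have hd1 : (1 : ℝ) ≤ d := by exact_mod_cast hd
  have hmle : ((m : ℕ) : ℝ) - 1 ≤ ((d : ℝ) + 1) / 2 := by
    have : (((d + 1) / 2 : ℕ) : ℝ) ≤ ((d + 1 : ℕ) : ℝ) / 2 := Nat.cast_div_le
    rw [hm]; push_cast at this ⊢; linarith
  have hmge : (d : ℝ) / 2 + 1 ≤ (m : ℝ) := by
    have : d ≤ 2 * ((d + 1) / 2) := by omega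
    have h2 : (d : ℝ) ≤ 2 * (((d + 1) / 2 : ℕ) : ℝ) := by exact_mod_cast this
    rw [hm]; push_cast at h2 ⊢; linarith
  have hm2 : 2 ≤ m := by omega
  have a1 : ((d : ℝ) + 1) / 2 < p := by rw [hp]; linarith
  have a2 : p < (d : ℝ) / 2 + 1 := by rw [hp]; linarith
  have b1 : ((d : ℝ) + 1) / 2 < p1 := by rw [hp1]; linarith
  have b2 : p1 < p := by rw [hp1]; linarith
  have b3 : p < p2 := by rw [hp2]; linarith
  have b4 : p2 < (d : ℝ) / 2 + 1 := by rw [hp2]; linarith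
  obtain ⟨C0, c0, hC0, hc0, hcore⟩ := coreD schur (K18.d18_sum K06.d6_sum K07.d7_G)
    (K18.d19_fin K07.d7_G) d hd m hm2 p1 p p2 (by linarith) (by linarith) (by linarith) b2 b3
    (by linarith)
  obtain ⟨C1, hC1, hcount⟩ := countD d hd p1 p2 p C0 c0 b1 b2 b3 b4 hC0 hc0
  obtain ⟨C3, hC3, hlayer⟩ := K12.d12_layer d hd γ σ p1 p2 C1 (by linarith) hσ (by linarith)
    b2 b3 hC1
  refine ⟨2 ^ (γ + σ) * C3, by positivity, ?_⟩
  intro Q hQm hQ0 hQ V hV hVQ N u hli A hu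
  have hQ0' : ∀ x, 0 ≤ Q x := fun x => (hQ0 x).le
  obtain ⟨D, gf, hD, hgf, hfac, hup, hlow⟩ := hcore Q hQm hQ0 hQ V hV hVQ N u hli A hu
  obtain ⟨E, hEr, hEd⟩ := K14.d14_roots N A
  have hgf' : DifferentiableOn ℂ (fun k => gf k * (-1) ^ N) {k : ℂ | 0 < k.im} :=
    hgf.mul_const _
  have hfac' : ∀ k : ℂ, 0 < k.im → D k = (gf k * (-1) ^ N) * ∏ j, (k ^ 2 - E j) := by
    intro k hk
    rw [hfac k hk, hEd]; ring
  have hcb := hcount Q hQm hQ0 hQ D (fun k => gf k * (-1) ^ N) hD hgf' N E hfac' hup hlow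
  have hN := hlayer (Ed d) volume Q hQm hQ0' N (fun j => Real.sqrt ‖E j‖)
    (fun j => Real.sqrt ((1 - (E j).re / ‖E j‖) / 2)) (fun j => Real.sqrt_nonneg _) (fun j => by
      refine ⟨Real.sqrt_nonneg _, ?_⟩
      rw [Real.sqrt_le_one]
      have : -1 ≤ (E j).re / ‖E j‖ := by
        rcases eq_or_ne (E j) 0 with h0 | h0
        · simp [h0]
        · rw [le_div_iff₀ (norm_pos_iff.2 h0)]
          have := Complex.abs_re_le_norm (E j)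
          have := neg_abs_le (E j).re
          linarith
      linarith)
    (fun t κ ht hκ hκ1 => hcb t κ ht hκ hκ1)
  have hQp0 : ∀ x, 0 ≤ Q x ^ p := fun x => Real.rpow_nonneg (hQ0' x) _
  rw [← ofReal_integral_eq_lintegral_ofReal hQ (Filter.Eventually.of_forall hQp0),
    ← ENNReal.ofReal_mul hC3.le] at hN
  have hint0 : 0 ≤ ∫ x, Q x ^ p := integral_nonneg hQp0
  rw [ENNReal.ofReal_le_ofReal_iff (by positivity)] at hN
  rw [hEr, Multiset.map_map]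
  change (∑ j, ‖E j‖ ^ (-σ) * (Metric.infDist (E j) {z : ℂ | 0 ≤ z.re ∧ z.im = 0}) ^ (γ + σ)) ≤ _
  have hσ0 : 0 < σ := by linarith
  calc (∑ j, ‖E j‖ ^ (-σ) * (Metric.infDist (E j) {z : ℂ | 0 ≤ z.re ∧ z.im = 0}) ^ (γ + σ))
      ≤ ∑ j, 2 ^ (γ + σ) * ((Real.sqrt ((1 - (E j).re / ‖E j‖) / 2)) ^ (γ + σ) *
        (Real.sqrt ‖E j‖) ^ (2 * γ)) := by
        refine Finset.sum_le_sum fun j _ => ?_
        rcases eq_or_ne (E j) 0 with h0 | h0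
        · rw [h0]
          have : Metric.infDist (0 : ℂ) {z : ℂ | 0 ≤ z.re ∧ z.im = 0} = 0 :=
            Metric.infDist_zero_of_mem (by simp)
          rw [this, Real.zero_rpow (by linarith : γ + σ ≠ 0), mul_zero]
          positivity
        · exact A22.cx_dist (E j) h0 γ σ (by linarith) (by linarith)
    _ = 2 ^ (γ + σ) * ∑ j, (Real.sqrt ((1 - (E j).re / ‖E j‖) / 2)) ^ (γ + σ) *
        (Real.sqrt ‖E j‖) ^ (2 * γ) := by rw [Finset.mul_sum]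
    _ ≤ 2 ^ (γ + σ) * (C3 * ∫ x, Q x ^ p) := by gcongr
    _ = _ := by ring

end Pool.Agent.Helper209.CX
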