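import Mathlib

namespace Pool.Agent.Helper209.CX

namespace K04
open MeasureTheory ENNReal

/-- Ordered Schur triangularisation: the diagonal entries with property `p` come first. -/
theorem d4_schur_aux (p : ℂ → Prop) : ∀ (n : ℕ) (W : Type) [NormedAddCommGroup W]
    [InnerProductSpace ℂ W] [FiniteDimensional ℂ W] (_ : Module.finrank ℂ W = n) (T : W →ₗ[ℂ] W),
    ∃ (b : Fin n → W) (N : ℕ), Orthonormal ℂ b ∧
      (∀ j k, k < j → inner ℂ (b j) (T (b k)) = 0) ∧
      (∀ k : Fin n, (k.val < N ↔ p (inner ℂ (b k) (T (b k))))) ∧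
      ∀ k, ∃ w : W, w ≠ 0 ∧ T w = (inner ℂ (b k) (T (b k)) : ℂ) • w := by
  classical
  intro n
  induction n with
  | zero =>
    intro W _ _ _ _ T
    exact ⟨fun i => i.elim0, 0, ⟨fun i => i.elim0, fun i => i.elim0⟩, fun j => j.elim0,
      fun k => k.elim0, fun k => k.elim0⟩
  | succ n ih =>
    intro W _ _ _ hW T
    have hnt : Nontrivial W := Module.nontrivial_of_finrank_pos (R := ℂ) (by omega)
    -- choice of the eigenvector
    obtain ⟨μ, v, hv1, hTv, hμ⟩ : ∃ (μ : ℂ) (v : W), ‖v‖ = 1 ∧ T v = μ • v ∧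
        (¬ p μ → ∀ (ν : ℂ) (w : W), w ≠ 0 → T w = ν • w → ¬ p ν) := by
      by_cases h : ∃ (ν : ℂ) (w : W), w ≠ 0 ∧ T w = ν • w ∧ p ν
      · obtain ⟨ν, w, hw, hTw, hp⟩ := h
        refine ⟨ν, ((‖w‖ : ℂ)⁻¹) • w, ?_, ?_, fun h => absurd hp h⟩
        · rw [norm_smul, norm_inv, Complex.norm_real, norm_norm, inv_mul_cancel₀ (norm_ne_zero_iff.2 hw)]
        · rw [map_smul, hTw, smul_comm]
      · push Not at h
        obtain ⟨ν, hν⟩ := Module.End.exists_eigenvalue T
        obtain ⟨w, hw⟩ := hν.exists_hasEigenvector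
        refine ⟨ν, ((‖w‖ : ℂ)⁻¹) • w, ?_, ?_, fun _ => fun ν' w' hw' hT' => h ν' w' hw' hT'⟩
        · rw [norm_smul, norm_inv, Complex.norm_real, norm_norm,
            inv_mul_cancel₀ (norm_ne_zero_iff.2 hw.2)]
        · rw [map_smul, hw.apply_eq_smul, smul_comm]
    have hv0 : v ≠ 0 := by
      intro h; rw [h, norm_zero] at hv1; exact zero_ne_one hv1
    have hvv : inner ℂ v v = (1 : ℂ) := by
      rw [inner_self_eq_norm_sq_to_K, hv1]; simp
    let W' : Submodule ℂ W := (ℂ ∙ v)ᗮ
    have hfin : Module.finrank ℂ W' = n := by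
      have : Fact (Module.finrank ℂ W = n + 1) := ⟨hW⟩
      exact Submodule.finrank_orthogonal_span_singleton hv0
    let T' : W' →ₗ[ℂ] W' := (W'.orthogonalProjectionOnto : W →L[ℂ] W').toLinearMap ∘ₗ T ∘ₗ W'.subtype
    obtain ⟨b', N', ho, htri, hord, heig⟩ := ih W' hfin T'
    have hperp : ∀ x : W', inner ℂ v (x : W) = (0 : ℂ) := fun x =>
      (Submodule.mem_orthogonal_singleton_iff_inner_right.1 x.2)
    have hinner : ∀ x y : W', inner ℂ x (T' y) = (inner ℂ (x : W) (T (y : W)) : ℂ) := by
      intro x y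
      show inner ℂ (x : W) ((W'.orthogonalProjectionOnto (T (y : W)) : W') : W) = _
      exact Submodule.inner_orthogonalProjectionOnto_eq_of_mem_left x (T (y : W))
    -- eigenvalues of the compression are eigenvalues of `T`
    have heig' : ∀ (ν : ℂ) (w : W'), w ≠ 0 → T' w = ν • w →
        ∃ w : W, w ≠ 0 ∧ T w = ν • w := by
      intro ν w hw hTw
      have hmem : T (w : W) - (T' w : W) ∈ W'ᗮ := by
        have := Submodule.sub_starProjection_mem_orthogonal (K := W') (T (w : W))
        exact this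
      have hmem' : T (w : W) - (T' w : W) ∈ (ℂ ∙ v) := by
        have h2 : W'ᗮ = (ℂ ∙ v) := Submodule.orthogonal_orthogonal _
        rwa [h2] at hmem
      obtain ⟨c, hc⟩ := Submodule.mem_span_singleton.1 hmem'
      have hTw' : T (w : W) = ν • (w : W) + c • v := by
        rw [hTw] at hc
        rw [hc]
        simp
      by_cases hνμ : ν = μ
      · exact ⟨v, hv0, by rw [hTv, hνμ]⟩
      · have hsub : ν - μ ≠ 0 := sub_ne_zero.2 hνμ
        refine ⟨(w : W) + (c / (ν - μ)) • v, ?_, ?_⟩
        · intro h0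
          have h1 : inner ℂ (w : W) ((w : W) + (c / (ν - μ)) • v) = (0 : ℂ) := by rw [h0, inner_zero_right]
          rw [inner_add_right, inner_smul_right, ← inner_conj_symm (w : W) v, hperp w, map_zero,
            mul_zero, add_zero, inner_self_eq_zero] at h1
          exact hw (Subtype.ext h1)
        · rw [map_add, map_smul, hTw', hTv, smul_add, add_assoc, smul_smul, smul_smul, ← add_smul]
          congr 2
          field_simp
          ring
    refine ⟨Matrix.vecCons v (fun i => (b' i : W)), if p μ then N' + 1 else 0, ?_, ?_, ?_, ?_⟩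
    · exact orthonormal_vecCons_iff.2 ⟨hv1, fun i => hperp (b' i), by
        have := ho.comp_linearIsometry W'.subtypeₗᵢ
        exact this⟩
    · intro j
      refine Fin.cases (fun k hk => absurd hk (Nat.not_lt_zero _)) (fun j k hk => ?_) j
      revert hk
      refine Fin.cases (fun _ => ?_) (fun k hk => ?_) k
      · show inner ℂ ((b' j : W)) (T v) = (0 : ℂ)
        rw [hTv, inner_smul_right, ← inner_conj_symm, hperp, map_zero, mul_zero]
      · show inner ℂ ((b' j : W)) (T (b' k : W)) = (0 : ℂ)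
        rw [← hinner]
        exact htri j k (Fin.succ_lt_succ_iff.1 hk)
    · intro k
      refine Fin.cases ?_ (fun k => ?_) k
      · show (0 < _ ↔ p (inner ℂ v (T v)))
        rw [hTv, inner_smul_right, hvv, mul_one]
        split_ifs with h <;> simp [h]
      · show (k.val + 1 < _ ↔ p (inner ℂ (b' k : W) (T (b' k : W))))
        rw [← hinner]
        split_ifs with h
        · rw [← hord k]; omega
        · obtain ⟨w, hw, hTw⟩ := heig k
          obtain ⟨w', hw', hTw'⟩ := heig' _ w hw hTw
          have := hμ h _ w' hw' hTw'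
          exact ⟨fun h0 => absurd h0 (Nat.not_lt_zero _), fun hp => absurd hp this⟩
    · intro k
      refine Fin.cases ?_ (fun k => ?_) k
      · refine ⟨v, hv0, ?_⟩
        show T v = (inner ℂ v (T v) : ℂ) • v
        rw [hTv, inner_smul_right, hvv, mul_one]
      · obtain ⟨w, hw, hTw⟩ := heig k
        show ∃ w : W, w ≠ 0 ∧ T w = (inner ℂ (b' k : W) (T (b' k : W)) : ℂ) • w
        rw [← hinner]
        exact heig' _ w hw hTw


theorem d4_tri_pow {G : Type} [Fintype G] [DecidableEq G] [LinearOrder G] (M : Matrix G G ℂ)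
    (hM : M.BlockTriangular id) (n : ℕ) :
    (M ^ n).BlockTriangular id ∧ ∀ x, (M ^ n) x x = (M x x) ^ n := by
  induction n with
  | zero =>
    refine ⟨by simpa using Matrix.blockTriangular_one, fun x => by simp⟩
  | succ n ih =>
    refine ⟨by rw [pow_succ]; exact ih.1.mul hM, fun x => ?_⟩
    rw [pow_succ, Matrix.mul_apply, Finset.sum_eq_single x, ih.2 x, pow_succ]
    · intro z _ hz
      rcases lt_trichotomy z x with h | h | h
      · rw [ih.1 (i := x) (j := z) h, zero_mul]
      · exact absurd h hz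
      · rw [hM (i := z) (j := x) h, mul_zero]
    · intro h; exact absurd (Finset.mem_univ x) h

theorem d4_schur (N m : ℕ) (K : Matrix (Fin N) (Fin N) ℂ) :
    ∃ U ∈ Matrix.unitaryGroup (Fin N) ℂ,
      (1 + K).det * Complex.exp (∑ i ∈ Finset.Ico 1 m, (-1 : ℂ) ^ i / i * (K ^ i).trace) =
      ∏ j, ((1 + (star U * K * U) j j) *
        Complex.exp (∑ i ∈ Finset.Ico 1 m, (-1 : ℂ) ^ i / i * ((star U * K * U) j j) ^ i)) := by
  obtain ⟨b, -, ho, htri, -, -⟩ := d4_schur_aux (fun _ => True) N
    (EuclideanSpace ℂ (Fin N)) (by simp) (Matrix.toEuclideanLin K)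
  let U : Matrix (Fin N) (Fin N) ℂ := fun x g => b g x
  have hUU : star U * U = 1 := by
    ext g g'
    rw [Matrix.mul_apply, Matrix.one_apply]
    have := orthonormal_iff_ite.1 ho g g'
    rw [← this, PiLp.inner_apply]
    exact Finset.sum_congr rfl fun x _ => mul_comm _ _
  have hUU' : U * star U = 1 := mul_eq_one_comm.1 hUU
  have hM : ∀ g g', (star U * K * U) g g' = inner ℂ (b g) (Matrix.toEuclideanLin K (b g')) := by
    intro g g'
    simp only [Matrix.mul_apply, PiLp.inner_apply, Matrix.toLpLin_apply]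
    simp only [Matrix.mulVec, dotProduct, Finset.sum_mul]
    rw [Finset.sum_comm]
    refine Finset.sum_congr rfl fun x _ => ?_
    show _ = (∑ y, K x y * (b g') y) * (starRingEnd ℂ) (b g x)
    rw [Finset.sum_mul]
    refine Finset.sum_congr rfl fun y _ => ?_
    show (starRingEnd ℂ) (b g x) * K x y * (b g' y) = _
    ring
  refine ⟨U, Matrix.mem_unitaryGroup_iff'.2 hUU, ?_⟩
  generalize hMM : star U * K * U = M at hM ⊢
  have hT : M.BlockTriangular id := by
    intro g g' h
    rw [hM]
    exact htri _ _ h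
  have hpow : ∀ i : ℕ, M ^ i = star U * K ^ i * U := by
    intro i
    induction i with
    | zero => simp [hUU]
    | succ i ih =>
      rw [pow_succ, ih, ← hMM, pow_succ]
      calc star U * K ^ i * U * (star U * K * U)
          = star U * K ^ i * (U * star U) * K * U := by simp only [Matrix.mul_assoc]
        _ = star U * (K ^ i * K) * U := by rw [hUU']; simp only [Matrix.mul_assoc, Matrix.one_mul]
  have htr : ∀ i : ℕ, (K ^ i).trace = ∑ j, (M j j) ^ i := by
    intro i
    have h1 : (M ^ i).trace = (K ^ i).trace := by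
      rw [hpow, Matrix.trace_mul_cycle, hUU', Matrix.one_mul]
    rw [← h1, Matrix.trace]
    exact Finset.sum_congr rfl fun j _ => (d4_tri_pow M hT i).2 j
  have hdet : (1 + K).det = ∏ j, (1 + M j j) := by
    have h1 : (1 + M) = star U * (1 + K) * U := by
      rw [Matrix.mul_add, Matrix.add_mul, Matrix.mul_one, hUU, hMM]
    have h2 : (1 + M).det = (1 + K).det := by
      rw [h1, Matrix.det_mul, Matrix.det_mul, mul_comm, ← mul_assoc, ← Matrix.det_mul, hUU',
        Matrix.det_one, one_mul]
    have h3 : (1 + M).BlockTriangular id := Matrix.blockTriangular_one.add hT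
    rw [← h2, Matrix.det_of_isUpperTriangular h3]
    exact Finset.prod_congr rfl fun j _ => by simp
  rw [Finset.prod_mul_distrib, ← Complex.exp_sum, ← hdet]
  congr 2
  rw [Finset.sum_comm]
  refine Finset.sum_congr rfl fun i _ => ?_
  rw [htr, Finset.mul_sum]

end K04
end Pool.Agent.Helper209.CX
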