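import Mathlib

namespace Pool.Agent.Helper209.CX

namespace K13
open MeasureTheory ENNReal

theorem d13_gauss (d : ℕ) (p : ℝ) (hp : 0 < p) :
    Integrable (fun x : EuclideanSpace ℝ (Fin d) => Real.exp (-‖x‖ ^ 2) ^ p) volume := by
  have h1 := GaussianFourier.integrable_cexp_neg_mul_sq_norm_add
    (V := EuclideanSpace ℝ (Fin d)) (b := (p:ℂ)) (by simpa using hp) 0 0
  have h2 := h1.norm
  refine h2.congr (Filter.Eventually.of_forall (fun x => ?_))
  simp only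
  rw [Complex.norm_exp, ← Real.exp_mul]
  congr 1
  simp only [zero_mul, add_zero]
  have : (-(p:ℂ) * (‖x‖:ℂ) ^ 2) = ((-p * ‖x‖ ^ 2 : ℝ) : ℂ) := by push_cast; ring
  rw [this, Complex.ofReal_re]
  ring

theorem d13_pow (a g p : ℝ) (ha : 0 ≤ a) (hg : 0 ≤ g) (hp : 0 < p) :
    (a + g) ^ p ≤ 2 ^ p * (a ^ p + g ^ p) := by
  rcases le_total a g with h | h
  · calc (a + g) ^ p ≤ (2 * g) ^ p := Real.rpow_le_rpow (by positivity) (by linarith) hp.le
      _ = 2 ^ p * g ^ p := Real.mul_rpow (by norm_num) hg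
      _ ≤ _ := by
        apply mul_le_mul_of_nonneg_left _ (by positivity)
        have := Real.rpow_nonneg ha p
        linarith
  · calc (a + g) ^ p ≤ (2 * a) ^ p := Real.rpow_le_rpow (by positivity) (by linarith) hp.le
      _ = 2 ^ p * a ^ p := Real.mul_rpow (by norm_num) ha
      _ ≤ _ := by
        apply mul_le_mul_of_nonneg_left _ (by positivity)
        have := Real.rpow_nonneg hg p
        linarith

theorem d13_eps (d : ℕ) (p : ℝ) (hp : 1 < p) (V : EuclideanSpace ℝ (Fin d) → ℂ) (hV : Measurable V)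
    (hVp : Integrable (fun x => ‖V x‖ ^ p) volume) (δ : ℝ) (hδ : 0 < δ) :
    ∃ ε : ℝ, 0 < ε ∧ Integrable (fun x => (‖V x‖ + ε * Real.exp (-‖x‖ ^ 2)) ^ p) volume ∧
      ∫ x, (‖V x‖ + ε * Real.exp (-‖x‖ ^ 2)) ^ p ≤ (∫ x, ‖V x‖ ^ p) + δ := by
  have hp0 : 0 < p := by linarith
  have hB : Integrable (fun x : EuclideanSpace ℝ (Fin d) =>
      2 ^ p * (‖V x‖ ^ p + Real.exp (-‖x‖ ^ 2) ^ p)) volume :=
    (hVp.add (d13_gauss d p hp0)).const_mul _
  have hmeas : ∀ ε : ℝ, AEStronglyMeasurable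
      (fun x : EuclideanSpace ℝ (Fin d) => (‖V x‖ + ε * Real.exp (-‖x‖ ^ 2)) ^ p) volume := by
    intro ε
    refine Measurable.aestronglyMeasurable ?_
    refine Measurable.pow_const ?_ p
    refine hV.norm.add (Measurable.const_mul ?_ ε)
    fun_prop
  have hbd : ∀ ε : ℝ, 0 < ε → ε ≤ 1 → ∀ x : EuclideanSpace ℝ (Fin d),
      ‖(‖V x‖ + ε * Real.exp (-‖x‖ ^ 2)) ^ p‖ ≤
        2 ^ p * (‖V x‖ ^ p + Real.exp (-‖x‖ ^ 2) ^ p) := by
    intro ε h0 h1 x
    have he : 0 < Real.exp (-‖x‖ ^ 2) := Real.exp_pos _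
    have hn : 0 ≤ ‖V x‖ := norm_nonneg _
    rw [Real.norm_of_nonneg (Real.rpow_nonneg (by positivity) _)]
    refine le_trans (Real.rpow_le_rpow (by positivity) ?_ hp0.le) (d13_pow _ _ p hn he.le hp0)
    nlinarith
  have hlim : Filter.Tendsto (fun n : ℕ => ∫ x : EuclideanSpace ℝ (Fin d),
      (‖V x‖ + (1 / ((n:ℝ) + 1)) * Real.exp (-‖x‖ ^ 2)) ^ p) Filter.atTop
      (nhds (∫ x : EuclideanSpace ℝ (Fin d), ‖V x‖ ^ p)) := by
    refine tendsto_integral_of_dominated_convergence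
      (fun x => 2 ^ p * (‖V x‖ ^ p + Real.exp (-‖x‖ ^ 2) ^ p)) (fun n => hmeas _) hB ?_ ?_
    · intro n
      refine Filter.Eventually.of_forall (fun x => hbd _ (by positivity) ?_ x)
      rw [div_le_one (by positivity)]
      have : (0:ℝ) ≤ n := Nat.cast_nonneg n
      linarith
    · refine Filter.Eventually.of_forall (fun x => ?_)
      have h1 : Filter.Tendsto (fun n : ℕ => ‖V x‖ + (1 / ((n:ℝ) + 1)) * Real.exp (-‖x‖ ^ 2))
          Filter.atTop (nhds (‖V x‖ + 0 * Real.exp (-‖x‖ ^ 2))) :=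
        tendsto_const_nhds.add (tendsto_one_div_add_atTop_nhds_zero_nat.mul_const _)
      have h2 := h1.rpow_const (p := p) (Or.inr hp0.le)
      simpa using h2
  obtain ⟨n, hn⟩ := (hlim.eventually (gt_mem_nhds
    (show (∫ x : EuclideanSpace ℝ (Fin d), ‖V x‖ ^ p) < (∫ x, ‖V x‖ ^ p) + δ by linarith))).exists
  have h01 : (1 / ((n:ℝ) + 1)) ≤ 1 := by
    rw [div_le_one (by positivity)]
    have : (0:ℝ) ≤ n := Nat.cast_nonneg n
    linarith
  have h00 : 0 < (1 / ((n:ℝ) + 1)) := by positivity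
  exact ⟨1 / ((n:ℝ) + 1), h00,
    hB.mono' (hmeas _) (Filter.Eventually.of_forall (hbd _ h00 h01)), hn.le⟩

end K13
end Pool.Agent.Helper209.CX
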