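import Mathlib
import Pool.Agent.Helper209.CX.C02
import Pool.Agent.Helper209.CX.K04
import Pool.Agent.Helper209.CX.K13

namespace Pool.Agent.Helper209.CX
open MeasureTheory ENNReal FourierTransform

theorem final_D (d : ℕ) (hd : 1 ≤ d) (γ σ : ℝ) (hγ : 1 / 2 < γ) (hγ1 : γ < 1)
    (hσ : (d : ℝ) / 2 < σ) :
    ∃ C : ℝ, 0 < C ∧ ∀ h : ℝ, 0 < h → ∀ V : Ed d → ℂ,
      MemLp V (ENNReal.ofReal (γ + d / 2)) volume →
      ∀ (N : ℕ) (u : Fin N → L2d d) (A : Matrix (Fin N) (Fin N) ℂ),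
        LinearIndependent ℂ u →
        (∀ j, IsHu h V (u j) (∑ l, A l j • u l)) →
        (A.charpoly.roots.map (fun E => ‖E‖ ^ (-σ) *
          (Metric.infDist E {z : ℂ | 0 ≤ z.re ∧ z.im = 0}) ^ (γ + σ))).sum ≤
          C * h ^ (-(d : ℝ)) * ∫ x, ‖V x‖ ^ (γ + d / 2) := by
  obtain ⟨C, hC, hfin⟩ := final_QD K04.d4_schur d hd γ σ hγ hγ1 hσ
  refine ⟨C, hC, ?_⟩
  intro h hh V hV N u A hli hu
  have hd1 : (1 : ℝ) ≤ d := by exact_mod_cast hd
  have hp : 1 < γ + d / 2 := by linarith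
  set p : ℝ := γ + d / 2 with hpdef
  have hp0 : 0 < p := by linarith
  -- measurable representative
  set V' : Ed d → ℂ := hV.1.aemeasurable.mk V with hV'
  have hV'm : Measurable V' := hV.1.aemeasurable.measurable_mk
  have hVV' : V =ᵐ[volume] V' := hV.1.aemeasurable.ae_eq_mk
  have hVp : Integrable (fun x => ‖V x‖ ^ p) volume := by
    have := hV.integrable_norm_rpow (by simpa using hp0) ENNReal.ofReal_ne_top
    rwa [ENNReal.toReal_ofReal hp0.le] at this
  set c : ℝ := (h ^ 2)⁻¹ with hc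
  have hc0 : 0 < c := by positivity
  set V1 : Ed d → ℂ := fun x => V' x / (h ^ 2 : ℝ) with hV1
  have hV1m : Measurable V1 := by fun_prop
  have hV1n : ∀ x, ‖V1 x‖ ^ p = c ^ p * ‖V' x‖ ^ p := by
    intro x
    simp only [hV1, norm_div, Complex.norm_real, Real.norm_eq_abs, abs_of_pos (by positivity : 0 < h ^ 2)]
    rw [div_eq_inv_mul, Real.mul_rpow (by positivity) (norm_nonneg _)]
  have hV'p : Integrable (fun x => ‖V' x‖ ^ p) volume := by
    refine hVp.congr ?_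
    filter_upwards [hVV'] with x hx
    rw [hx]
  have hV1p : Integrable (fun x => ‖V1 x‖ ^ p) volume := by
    refine (hV'p.const_mul (c ^ p)).congr (Filter.Eventually.of_forall fun x => ?_)
    simp only [hV1n]
  have hV1i : ∫ x, ‖V1 x‖ ^ p = c ^ p * ∫ x, ‖V x‖ ^ p := by
    rw [← integral_const_mul]
    refine integral_congr_ae ?_
    filter_upwards [hVV'] with x hx
    rw [hV1n, hx]
  have hu1 : ∀ j, IsHu 1 V1 (u j) (∑ l, ((c : ℂ) • A) l j • u l) := by
    intro j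
    have h1 := K15.isHu_congr h V V' hVV' (u j) _ (hu j)
    have h2 := K15.isHu_scale h hh V' (u j) _ h1
    have e : ((((h ^ 2 : ℝ) : ℂ)⁻¹) • ∑ l, A l j • u l : L2d d) = ∑ l, ((c : ℂ) • A) l j • u l := by
      rw [Finset.smul_sum]
      refine Finset.sum_congr rfl fun l _ => ?_
      rw [smul_smul, Matrix.smul_apply, smul_eq_mul, hc, Complex.ofReal_inv]
    rw [e] at h2
    exact h2
  set S : ℝ := (A.charpoly.roots.map (fun E => ‖E‖ ^ (-σ) *
      (Metric.infDist E {z : ℂ | 0 ≤ z.re ∧ z.im = 0}) ^ (γ + σ))).sum with hS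
  have hcC : (c : ℂ) ≠ 0 := by exact_mod_cast hc0.ne'
  have hscale : (((c : ℂ) • A).charpoly.roots.map (fun E => ‖E‖ ^ (-σ) *
      (Metric.infDist E {z : ℂ | 0 ≤ z.re ∧ z.im = 0}) ^ (γ + σ))).sum = c ^ γ * S := by
    rw [K14.d14_scale N A c hcC, Multiset.map_map, hS, ← Multiset.sum_map_mul_left]
    congr 1
    refine Multiset.map_congr rfl fun E _ => ?_
    simp only [Function.comp]
    rw [K14.d14_infDist c hc0 E, norm_mul, Complex.norm_real, Real.norm_eq_abs,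
      abs_of_pos hc0, Real.mul_rpow hc0.le (norm_nonneg _),
      Real.mul_rpow hc0.le Metric.infDist_nonneg]
    have : c ^ γ = c ^ (-σ) * c ^ (γ + σ) := by
      rw [← Real.rpow_add hc0]; congr 1; ring
    rw [this]; ring
  have key : ∀ δ' : ℝ, 0 < δ' → c ^ γ * S ≤ C * (c ^ p * (∫ x, ‖V x‖ ^ p) + δ') := by
    intro δ' hδ'
    obtain ⟨ε, hε, hint, hle⟩ := K13.d13_eps d p hp V1 hV1m hV1p δ' hδ'
    have := hfin (fun x => ‖V1 x‖ + ε * Real.exp (-‖x‖ ^ 2)) (by fun_prop)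
      (fun x => by positivity) hint V1 hV1m (fun x => by
        have : 0 < ε * Real.exp (-‖x‖ ^ 2) := by positivity
        linarith) N u hli ((c : ℂ) • A) hu1
    rw [hscale] at this
    refine this.trans ?_
    rw [← hV1i]
    exact mul_le_mul_of_nonneg_left hle hC.le
  have key2 : c ^ γ * S ≤ C * (c ^ p * (∫ x, ‖V x‖ ^ p)) := by
    refine le_of_forall_pos_le_add fun η hη => ?_
    have := key (η / C) (by positivity)
    rw [mul_add, mul_div_cancel₀ _ hC.ne'] at this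
    exact this
  have hcγ : 0 < c ^ γ := Real.rpow_pos_of_pos hc0 _
  have hcp : c ^ p = c ^ γ * h ^ (-(d : ℝ)) := by
    have : h ^ (-(d : ℝ)) = c ^ ((d : ℝ) / 2) := by
      rw [hc, ← Real.rpow_natCast h 2, ← Real.rpow_neg hh.le, ← Real.rpow_mul hh.le]
      congr 1; push_cast; ring
    rw [this, ← Real.rpow_add hc0]
  have : c ^ γ * S ≤ c ^ γ * (C * h ^ (-(d : ℝ)) * ∫ x, ‖V x‖ ^ p) := by
    refine key2.trans (le_of_eq ?_)
    rw [hcp]; ring
  exact le_of_mul_le_mul_left this hcγ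

end Pool.Agent.Helper209.CX
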