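import Mathlib
import Pool.Agent.Helper209.CX.DDefs

namespace Pool.Agent.Helper209.CX

namespace K17
open MeasureTheory ENNReal FourierTransform



def SchurQI {d : ℕ} (Q : Ed d → ℝ) (φ : L2d d) : Prop :=
  Integrable (fun x => Q x * ‖φ x‖ ^ 2) volume

noncomputable def SchurB {d : ℕ} (Q : Ed d → ℝ) (φ ψ : L2d d) : ℂ :=
  ∫ x, (Q x : ℂ) * (starRingEnd ℂ) (φ x) * ψ x

theorem schurQI_int {d : ℕ} {Q : Ed d → ℝ} (hQm : Measurable Q) (hQ0 : ∀ x, 0 < Q x)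
    {φ ψ : L2d d} (h1 : SchurQI Q φ) (h2 : SchurQI Q ψ) :
    Integrable (fun x => (Q x : ℂ) * (starRingEnd ℂ) (φ x) * ψ x) volume := by
  refine (Integrable.add h1 h2).mono' ?_ (Filter.Eventually.of_forall fun x => ?_)
  · exact ((Complex.measurable_ofReal.comp hQm).aestronglyMeasurable.mul
      (Complex.continuous_conj.comp_aestronglyMeasurable (Lp.aestronglyMeasurable φ))).mul
      (Lp.aestronglyMeasurable ψ)
  · have hq := hQ0 x
    simp only [norm_mul, Pi.add_apply, Complex.norm_real, Real.norm_eq_abs, abs_of_pos hq,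
      RCLike.norm_conj]
    nlinarith [mul_nonneg hq.le (sq_nonneg (‖φ x‖ - ‖ψ x‖)),
      mul_nonneg hq.le (sq_nonneg (‖φ x‖ + ‖ψ x‖))]

theorem schurQI_add {d : ℕ} {Q : Ed d → ℝ} (hQm : Measurable Q) (hQ0 : ∀ x, 0 < Q x)
    {φ ψ : L2d d} (h1 : SchurQI Q φ) (h2 : SchurQI Q ψ) : SchurQI Q (φ + ψ) := by
  unfold SchurQI at *
  refine ((h1.add h2).const_mul 2).mono' ?_ ?_
  · exact hQm.aestronglyMeasurable.mul ((Lp.aestronglyMeasurable (φ + ψ)).norm.pow 2)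
  · filter_upwards [Lp.coeFn_add φ ψ] with x hx
    rw [hx]
    have hq := hQ0 x
    simp only [norm_mul, Pi.add_apply, Real.norm_eq_abs, abs_of_pos hq, norm_pow, abs_norm]
    have h3 : ‖φ x + ψ x‖ ≤ ‖φ x‖ + ‖ψ x‖ := norm_add_le _ _
    have h4 : ‖φ x + ψ x‖ ^ 2 ≤ 2 * (‖φ x‖ ^ 2 + ‖ψ x‖ ^ 2) := by
      nlinarith [norm_nonneg (φ x + ψ x), sq_nonneg (‖φ x‖ - ‖ψ x‖), norm_nonneg (φ x),
        norm_nonneg (ψ x)]
    calc Q x * ‖φ x + ψ x‖ ^ 2 ≤ Q x * (2 * (‖φ x‖ ^ 2 + ‖ψ x‖ ^ 2)) :=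
          mul_le_mul_of_nonneg_left h4 hq.le
      _ = 2 * (Q x * ‖φ x‖ ^ 2 + Q x * ‖ψ x‖ ^ 2) := by ring

theorem schurQI_smul {d : ℕ} {Q : Ed d → ℝ} {φ : L2d d} (c : ℂ) (h1 : SchurQI Q φ) :
    SchurQI Q (c • φ) := by
  unfold SchurQI at *
  refine (h1.const_mul (‖c‖ ^ 2)).congr ?_
  filter_upwards [Lp.coeFn_smul c φ] with x hx
  rw [hx]
  simp only [Pi.smul_apply, smul_eq_mul, norm_mul, mul_pow]
  ring

theorem schurQI_zero {d : ℕ} {Q : Ed d → ℝ} : SchurQI Q (0 : L2d d) := by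
  unfold SchurQI
  refine (integrable_zero _ _ _).congr ?_
  filter_upwards [Lp.coeFn_zero ℂ 2 (volume : Measure (Ed d))] with x hx
  rw [hx]
  simp

theorem schurQI_sum {d : ℕ} {Q : Ed d → ℝ} (hQm : Measurable Q) (hQ0 : ∀ x, 0 < Q x)
    {ι : Type*} (s : Finset ι) (v : ι → L2d d) (hv : ∀ i, SchurQI Q (v i)) :
    SchurQI Q (∑ i ∈ s, v i) := by
  classical
  induction s using Finset.induction_on with
  | empty => simpa using schurQI_zero
  | insert a s ha ih => rw [Finset.sum_insert ha]; exact schurQI_add hQm hQ0 (hv a) ih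

theorem schurQI_sub {d : ℕ} {Q : Ed d → ℝ} (hQm : Measurable Q) (hQ0 : ∀ x, 0 < Q x)
    {φ ψ : L2d d} (h1 : SchurQI Q φ) (h2 : SchurQI Q ψ) : SchurQI Q (φ - ψ) := by
  have h : φ - ψ = φ + (-1 : ℂ) • ψ := by rw [neg_one_smul, sub_eq_add_neg]
  rw [h]
  exact schurQI_add hQm hQ0 h1 (schurQI_smul _ h2)

theorem schurB_add_right {d : ℕ} {Q : Ed d → ℝ} (hQm : Measurable Q) (hQ0 : ∀ x, 0 < Q x)
    {φ ψ₁ ψ₂ : L2d d} (h : SchurQI Q φ) (h1 : SchurQI Q ψ₁) (h2 : SchurQI Q ψ₂) :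
    SchurB Q φ (ψ₁ + ψ₂) = SchurB Q φ ψ₁ + SchurB Q φ ψ₂ := by
  unfold SchurB
  rw [← integral_add (schurQI_int hQm hQ0 h h1) (schurQI_int hQm hQ0 h h2)]
  refine integral_congr_ae ?_
  filter_upwards [Lp.coeFn_add ψ₁ ψ₂] with x hx
  rw [hx]
  simp only [Pi.add_apply]
  ring

theorem schurB_smul_right {d : ℕ} {Q : Ed d → ℝ} (c : ℂ) (φ ψ : L2d d) :
    SchurB Q φ (c • ψ) = c * SchurB Q φ ψ := by
  unfold SchurB
  rw [← integral_const_mul]
  refine integral_congr_ae ?_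
  filter_upwards [Lp.coeFn_smul c ψ] with x hx
  rw [hx]
  simp only [Pi.smul_apply, smul_eq_mul]
  ring

theorem schurB_zero_right {d : ℕ} {Q : Ed d → ℝ} (φ : L2d d) : SchurB Q φ 0 = 0 := by
  have h := schurB_smul_right (Q := Q) 0 φ 0
  rwa [zero_smul, zero_mul] at h

theorem schurB_sub_right {d : ℕ} {Q : Ed d → ℝ} (hQm : Measurable Q) (hQ0 : ∀ x, 0 < Q x)
    {φ ψ₁ ψ₂ : L2d d} (h : SchurQI Q φ) (h1 : SchurQI Q ψ₁) (h2 : SchurQI Q ψ₂) :
    SchurB Q φ (ψ₁ - ψ₂) = SchurB Q φ ψ₁ - SchurB Q φ ψ₂ := by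
  have h' : ψ₁ - ψ₂ = ψ₁ + (-1 : ℂ) • ψ₂ := by rw [neg_one_smul, sub_eq_add_neg]
  rw [h', schurB_add_right hQm hQ0 h h1 (schurQI_smul _ h2), schurB_smul_right]
  ring

theorem schurB_sum_right {d : ℕ} {Q : Ed d → ℝ} (hQm : Measurable Q) (hQ0 : ∀ x, 0 < Q x)
    {φ : L2d d} (h : SchurQI Q φ) {ι : Type*} (s : Finset ι) (v : ι → L2d d)
    (hv : ∀ i, SchurQI Q (v i)) :
    SchurB Q φ (∑ i ∈ s, v i) = ∑ i ∈ s, SchurB Q φ (v i) := by
  classical
  induction s using Finset.induction_on with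
  | empty => simpa using schurB_zero_right φ
  | insert a s ha ih =>
    rw [Finset.sum_insert ha, Finset.sum_insert ha,
      schurB_add_right hQm hQ0 h (hv a) (schurQI_sum hQm hQ0 s v hv), ih]

theorem schurB_lin_right {d : ℕ} {Q : Ed d → ℝ} (hQm : Measurable Q) (hQ0 : ∀ x, 0 < Q x)
    {φ : L2d d} (h : SchurQI Q φ) {ι : Type*} (s : Finset ι) (c : ι → ℂ) (v : ι → L2d d)
    (hv : ∀ i, SchurQI Q (v i)) :
    SchurB Q φ (∑ i ∈ s, c i • v i) = ∑ i ∈ s, c i * SchurB Q φ (v i) := by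
  rw [schurB_sum_right hQm hQ0 h s _ (fun i => schurQI_smul _ (hv i))]
  exact Finset.sum_congr rfl fun i _ => schurB_smul_right _ _ _

theorem schurB_conj {d : ℕ} {Q : Ed d → ℝ} (φ ψ : L2d d) :
    SchurB Q φ ψ = (starRingEnd ℂ) (SchurB Q ψ φ) := by
  unfold SchurB
  rw [← integral_conj]
  refine integral_congr_ae (Filter.Eventually.of_forall fun x => ?_)
  simp only [map_mul, Complex.conj_conj, Complex.conj_ofReal]
  ring

theorem schurB_lin_left {d : ℕ} {Q : Ed d → ℝ} (hQm : Measurable Q) (hQ0 : ∀ x, 0 < Q x)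
    {φ : L2d d} (h : SchurQI Q φ) {ι : Type*} (s : Finset ι) (c : ι → ℂ) (v : ι → L2d d)
    (hv : ∀ i, SchurQI Q (v i)) :
    SchurB Q (∑ i ∈ s, c i • v i) φ = ∑ i ∈ s, (starRingEnd ℂ) (c i) * SchurB Q (v i) φ := by
  rw [schurB_conj, schurB_lin_right hQm hQ0 h s c v hv, map_sum]
  refine Finset.sum_congr rfl fun i _ => ?_
  rw [map_mul, ← schurB_conj]

theorem schur_coeFn_lin {d : ℕ} {ι : Type*} (s : Finset ι) (c : ι → ℂ) (v : ι → L2d d) :
    (fun x => (∑ i ∈ s, c i • v i : L2d d) x) =ᵐ[volume] fun x => ∑ i ∈ s, c i * v i x := by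
  have h1 := Lp.coeFn_fun_finsetSum s (fun i => c i • v i)
  have h2 : ∀ᵐ x, ∀ i ∈ s, (c i • v i : L2d d) x = c i * v i x := by
    rw [Filter.eventually_all_finset]
    intro i _
    filter_upwards [Lp.coeFn_smul (c i) (v i)] with x hx
    rw [hx]
    rfl
  filter_upwards [h1, h2] with x hx1 hx2
  rw [hx1]
  exact Finset.sum_congr rfl hx2

theorem schur_data {d N : ℕ}
    (isHu_lin : ∀ (h : ℝ) (V : Ed d → ℂ) (c : Fin N → ℂ) (u f : Fin N → L2d d)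
      (_ : ∀ j, IsHu h V (u j) (f j)), IsHu h V (∑ j, c j • u j) (∑ j, c j • f j))
    (Q : Ed d → ℝ) (hQm : Measurable Q) (hQ0 : ∀ x, 0 < Q x)
    (hform : ∀ φ : L2d d, InH1 φ → Integrable (fun x => Q x * ‖φ x‖ ^ 2) volume)
    (V : Ed d → ℂ) (u : Fin N → L2d d) (A : Matrix (Fin N) (Fin N) ℂ)
    (hu : ∀ j, IsHu 1 V (u j) (∑ l, A l j • u l))
    (ho : ∀ i j, ∫ x, (Q x : ℂ) * (starRingEnd ℂ) (u i x) * u j x = if i = j then 1 else 0)
    (k : ℂ) (hk : 0 < k.im) (R : Fin N → L2d d) (hR1 : ∀ l, InH1 (R l))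
    (hR : ∀ l, (fun ξ : Ed d => (𝓕 (R l) : L2d d) ξ) =ᵐ[volume] fun ξ =>
      (𝓕 (u l) : L2d d) ξ * ((((2 * Real.pi * ‖ξ‖) ^ 2 : ℝ) : ℂ) - k ^ 2)⁻¹)
    (U : Matrix (Fin N) (Fin N) ℂ) (hU : U ∈ Matrix.unitaryGroup (Fin N) ℂ)
    (K : Matrix (Fin N) (Fin N) ℂ)
    (hK : K = (Matrix.of fun i l => ∫ x, (Q x : ℂ) * (starRingEnd ℂ) (u i x) * R l x) *
      (A - (k ^ 2) • (1 : Matrix (Fin N) (Fin N) ℂ)) - 1) :
    ∃ u' f' ψ : Fin N → L2d d, (∀ j, IsHu 1 V (u' j) (f' j)) ∧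
      (∀ i j, ∫ x, (Q x : ℂ) * (starRingEnd ℂ) (u' i x) * u' j x = if i = j then 1 else 0) ∧
      (∀ j, (fun ξ : Ed d => (𝓕 (ψ j) : L2d d) ξ) =ᵐ[volume] fun ξ =>
        ((𝓕 (f' j) : L2d d) ξ - k ^ 2 * (𝓕 (u' j) : L2d d) ξ) *
          ((((2 * Real.pi * ‖ξ‖) ^ 2 : ℝ) : ℂ) - k ^ 2)⁻¹ - (𝓕 (u' j) : L2d d) ξ) ∧
      (∀ j, ∫ x, (Q x : ℂ) * (starRingEnd ℂ) (u' j x) * ψ j x = (star U * K * U) j j) := by
  have hu1 : ∀ j, SchurQI Q (u j) := fun j => hform _ (hu j).1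
  have hR2 : ∀ l, SchurQI Q (R l) := fun l => hform _ (hR1 l)
  have hUU : ∀ i j, ∑ l, (starRingEnd ℂ) (U l i) * U l j = if i = j then 1 else 0 := by
    intro i j
    have h := congrFun (congrFun (Matrix.mem_unitaryGroup_iff'.1 hU) i) j
    rw [Matrix.mul_apply, Matrix.one_apply] at h
    exact h
  refine ⟨fun j => ∑ l, U l j • u l, fun j => ∑ l, U l j • ∑ n, A n l • u n,
    fun j => ∑ l, U l j • (∑ n, A n l • R n - k ^ 2 • R l - u l), ?_, ?_, ?_, ?_⟩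
  · intro j
    exact isHu_lin 1 V (fun l => U l j) u _ hu
  · intro i j
    have hq : SchurQI Q (∑ l, U l j • u l) :=
      schurQI_sum hQm hQ0 _ _ (fun l => schurQI_smul _ (hu1 l))
    change SchurB Q (∑ l, U l i • u l) (∑ l, U l j • u l) = _
    rw [schurB_lin_left hQm hQ0 hq _ _ _ hu1, ← hUU i j]
    refine Finset.sum_congr rfl fun l _ => ?_
    rw [schurB_lin_right hQm hQ0 (hu1 l) _ _ _ hu1]
    have h1 : ∀ m, SchurB Q (u l) (u m) = if l = m then 1 else 0 := fun m => ho l m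
    simp only [h1]
    simp
  · intro j
    have e1 : (𝓕 (∑ l, U l j • (∑ n, A n l • R n - k ^ 2 • R l - u l) : L2d d) : L2d d) =
        ∑ l, U l j • (∑ n, A n l • (𝓕 (R n) : L2d d) - k ^ 2 • (𝓕 (R l) : L2d d) -
          (𝓕 (u l) : L2d d)) := by
      have hsub : ∀ a b : L2d d, (𝓕 (a - b) : L2d d) = 𝓕 a - 𝓕 b := fun a b => by
        rw [sub_eq_add_neg, FourierTransform.fourier_add, FourierTransform.fourier_neg,
          ← sub_eq_add_neg]
      simp only [FourierTransform.fourier_sum, hsub, FourierTransform.fourier_smul]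
    have e2 : (𝓕 (∑ l, U l j • ∑ n, A n l • u n : L2d d) : L2d d) =
        ∑ l, U l j • ∑ n, A n l • (𝓕 (u n) : L2d d) := by
      simp only [FourierTransform.fourier_sum, FourierTransform.fourier_smul]
    have e3 : (𝓕 (∑ l, U l j • u l : L2d d) : L2d d) = ∑ l, U l j • (𝓕 (u l) : L2d d) := by
      simp only [FourierTransform.fourier_sum, FourierTransform.fourier_smul]
    beta_reduce
    rw [e1, e2, e3]
    have a1 := schur_coeFn_lin Finset.univ (fun l => U l j) (fun l =>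
      (∑ n, A n l • (𝓕 (R n) : L2d d) - k ^ 2 • (𝓕 (R l) : L2d d) - (𝓕 (u l) : L2d d)))
    have a2 := schur_coeFn_lin Finset.univ (fun l => U l j)
      (fun l => ∑ n, A n l • (𝓕 (u n) : L2d d))
    have a3 := schur_coeFn_lin Finset.univ (fun l => U l j) (fun l => (𝓕 (u l) : L2d d))
    have a4 : ∀ᵐ ξ : Ed d, ∀ l, (∑ n, A n l • (𝓕 (u n) : L2d d) : L2d d) ξ =
        ∑ n, A n l * (𝓕 (u n) : L2d d) ξ := by
      rw [ae_all_iff]
      intro l
      exact schur_coeFn_lin Finset.univ (fun n => A n l) (fun n => (𝓕 (u n) : L2d d))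
    have a5 : ∀ᵐ ξ : Ed d, ∀ l, (∑ n, A n l • (𝓕 (R n) : L2d d) - k ^ 2 • (𝓕 (R l) : L2d d) -
        (𝓕 (u l) : L2d d) : L2d d) ξ =
        ∑ n, A n l * (𝓕 (R n) : L2d d) ξ - k ^ 2 * (𝓕 (R l) : L2d d) ξ -
          (𝓕 (u l) : L2d d) ξ := by
      rw [ae_all_iff]
      intro l
      filter_upwards [schur_coeFn_lin Finset.univ (fun n => A n l)
          (fun n => (𝓕 (R n) : L2d d)),
        Lp.coeFn_sub (∑ n, A n l • (𝓕 (R n) : L2d d) - k ^ 2 • (𝓕 (R l) : L2d d))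
          (𝓕 (u l) : L2d d),
        Lp.coeFn_sub (∑ n, A n l • (𝓕 (R n) : L2d d)) (k ^ 2 • (𝓕 (R l) : L2d d)),
        Lp.coeFn_smul (k ^ 2) (𝓕 (R l) : L2d d)] with x h1 h2 h3 h4
      rw [h2, Pi.sub_apply, h3, Pi.sub_apply, h4, h1]
      rfl
    have a6 : ∀ᵐ ξ : Ed d, ∀ l, (𝓕 (R l) : L2d d) ξ =
      (𝓕 (u l) : L2d d) ξ * ((((2 * Real.pi * ‖ξ‖) ^ 2 : ℝ) : ℂ) - k ^ 2)⁻¹ := by
      rw [ae_all_iff]
      intro l
      exact hR l
    filter_upwards [a1, a2, a3, a4, a5, a6] with ξ h1 h2 h3 h4 h5 h6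
    rw [h1, h2, h3]
    simp only [h4, h5, h6]
    generalize ((((2 * Real.pi * ‖ξ‖) ^ 2 : ℝ) : ℂ) - k ^ 2)⁻¹ = r
    rw [Finset.mul_sum, ← Finset.sum_sub_distrib, Finset.sum_mul, ← Finset.sum_sub_distrib]
    refine Finset.sum_congr rfl fun l _ => ?_
    have h7 : ∑ n, A n l * ((𝓕 (u n) : L2d d) ξ * r) = (∑ n, A n l * (𝓕 (u n) : L2d d) ξ) * r := by
      rw [Finset.sum_mul]
      exact Finset.sum_congr rfl fun n _ => by ring
    rw [h7]
    ring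
  · intro j
    have hw : ∀ l, SchurQI Q (∑ n, A n l • R n - k ^ 2 • R l - u l) := fun l =>
      schurQI_sub hQm hQ0 (schurQI_sub hQm hQ0
        (schurQI_sum hQm hQ0 _ _ (fun n => schurQI_smul _ (hR2 n))) (schurQI_smul _ (hR2 l)))
        (hu1 l)
    have hq : SchurQI Q (∑ l, U l j • (∑ n, A n l • R n - k ^ 2 • R l - u l)) :=
      schurQI_sum hQm hQ0 _ _ (fun l => schurQI_smul _ (hw l))
    change SchurB Q (∑ l, U l j • u l)
      (∑ l, U l j • (∑ n, A n l • R n - k ^ 2 • R l - u l)) = _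
    rw [schurB_lin_left hQm hQ0 hq _ _ _ hu1]
    have hK2 : ∀ i l, K i l = SchurB Q (u i) (∑ n, A n l • R n - k ^ 2 • R l - u l) := by
      intro i l
      rw [schurB_sub_right hQm hQ0 (hu1 i) (schurQI_sub hQm hQ0
        (schurQI_sum hQm hQ0 _ _ (fun n => schurQI_smul _ (hR2 n))) (schurQI_smul _ (hR2 l)))
        (hu1 l), schurB_sub_right hQm hQ0 (hu1 i)
        (schurQI_sum hQm hQ0 _ _ (fun n => schurQI_smul _ (hR2 n))) (schurQI_smul _ (hR2 l)),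
        schurB_lin_right hQm hQ0 (hu1 i) _ _ _ hR2, schurB_smul_right]
      have h1 : SchurB Q (u i) (u l) = if i = l then 1 else 0 := ho i l
      rw [h1, hK, Matrix.sub_apply, Matrix.mul_apply, Matrix.one_apply]
      congr 1
      have h2 : ∀ n, (Matrix.of fun i l => ∫ x, (Q x : ℂ) * (starRingEnd ℂ) (u i x) * R l x) i n *
          (A - (k ^ 2) • (1 : Matrix (Fin N) (Fin N) ℂ)) n l =
          A n l * SchurB Q (u i) (R n) -
            (if n = l then k ^ 2 * SchurB Q (u i) (R n) else 0) := by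
        intro n
        rw [Matrix.sub_apply, Matrix.smul_apply, Matrix.one_apply, Matrix.of_apply]
        change SchurB Q (u i) (R n) * _ = _
        split_ifs <;> simp <;> ring
      rw [Finset.sum_congr rfl (fun n _ => h2 n), Finset.sum_sub_distrib]
      simp
    have h3 : ∀ i, SchurB Q (u i) (∑ l, U l j • (∑ n, A n l • R n - k ^ 2 • R l - u l)) =
        ∑ l, U l j * K i l := by
      intro i
      rw [schurB_lin_right hQm hQ0 (hu1 i) _ _ _ hw]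
      exact Finset.sum_congr rfl fun l _ => by rw [hK2]
    simp only [h3]
    rw [Matrix.mul_apply]
    simp only [Matrix.mul_apply, Matrix.star_apply, Finset.sum_mul, Finset.mul_sum]
    rw [Finset.sum_comm]
    refine Finset.sum_congr rfl fun l _ => Finset.sum_congr rfl fun i _ => ?_
    change (starRingEnd ℂ) (U i j) * _ = (starRingEnd ℂ) (U i j) * _ * _
    ring

end K17
end Pool.Agent.Helper209.CX
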