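import Mathlib

namespace Pool.Agent.Helper209.CX

namespace K30
open scoped ENNReal

/-- generalised eigenspace at `E` of the partially defined operator with graph `R` -/
def chainGen {X : Type*} [AddCommGroup X] [Module ℂ X] (R : X → X → Prop) (E : ℂ) (u : X) : Prop :=
  ∃ (n : ℕ) (c : ℕ → X), c 0 = u ∧ c n = 0 ∧ ∀ i < n, R (c i) (c (i + 1) + E • c i)

lemma j21039_chain_iff {X : Type*} [AddCommGroup X] [Module ℂ X] (R : Submodule ℂ (X × X))
    (E : ℂ) (u : X) :
    chainGen (fun a b => (a, b) ∈ R) E u ↔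
    ∃ (n : ℕ) (c : ℕ → X), c 0 = u ∧ (∀ i, n ≤ i → c i = 0) ∧
      ∀ i, (c i, c (i + 1) + E • c i) ∈ R := by
  constructor
  · rintro ⟨n, c, h0, hn, hc⟩
    refine ⟨n, fun i => if i < n then c i else 0, ?_, ?_, ?_⟩
    · by_cases h : 0 < n
      · simp [h, h0]
      · have hn0 : n = 0 := by omega
        subst hn0
        simp [← h0, hn]
    · intro i hi
      simp [not_lt.mpr hi]
    · intro i
      by_cases h : i < n
      · have h1 := hc i h
        by_cases h' : i + 1 < n
        · simp only [h, h', if_true]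
          exact h1
        · have hi : i + 1 = n := by omega
          have h2 : c (i + 1) = 0 := by rw [hi, hn]
          simp only at h1
          rw [h2] at h1
          simp only [h, h', if_true, if_false]
          exact h1
      · have h' : ¬ (i + 1 < n) := by omega
        simp only [h, h', if_false, smul_zero, add_zero]
        exact R.zero_mem
  · rintro ⟨n, c, h0, hn, hc⟩
    exact ⟨n, c, h0, hn n le_rfl, fun i _ => hc i⟩

theorem gen_submodule {X : Type*} [AddCommGroup X] [Module ℂ X] (R : Submodule ℂ (X × X)) (E : ℂ) :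
    ∃ G : Submodule ℂ X, ∀ u, u ∈ G ↔ chainGen (fun a b => (a, b) ∈ R) E u := by
  refine ⟨{ carrier := {u | chainGen (fun a b => (a, b) ∈ R) E u}
            add_mem' := ?_
            zero_mem' := ?_
            smul_mem' := ?_ }, fun u => Iff.rfl⟩
  · intro u v hu hv
    simp only [Set.mem_setOf_eq] at hu hv ⊢
    rw [j21039_chain_iff] at hu hv ⊢
    obtain ⟨n, c, h0, hn, hc⟩ := hu
    obtain ⟨m, d, k0, km, kd⟩ := hv
    refine ⟨max n m, fun i => c i + d i, by simp [h0, k0], ?_, ?_⟩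
    · intro i hi
      simp only
      rw [hn i ((le_max_left _ _).trans hi), km i ((le_max_right _ _).trans hi), add_zero]
    · intro i
      have h := R.add_mem (hc i) (kd i)
      rw [Prod.mk_add_mk] at h
      have h2 : c (i + 1) + E • c i + (d (i + 1) + E • d i) =
          c (i + 1) + d (i + 1) + E • (c i + d i) := by
        rw [smul_add]
        abel
      rw [h2] at h
      exact h
  · simp only [Set.mem_setOf_eq]
    rw [j21039_chain_iff]
    refine ⟨0, fun _ => 0, rfl, fun _ _ => rfl, fun i => ?_⟩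
    simp only [smul_zero, add_zero]
    exact R.zero_mem
  · intro a u hu
    simp only [Set.mem_setOf_eq] at hu ⊢
    rw [j21039_chain_iff] at hu ⊢
    obtain ⟨n, c, h0, hn, hc⟩ := hu
    refine ⟨n, fun i => a • c i, by simp [h0], fun i hi => by simp [hn i hi], ?_⟩
    intro i
    have h := R.smul_mem a (hc i)
    rw [Prod.smul_mk] at h
    have h2 : a • (c (i + 1) + E • c i) = a • c (i + 1) + E • a • c i := by
      rw [smul_add, smul_comm]
    rw [h2] at h
    exact h

/-- invariant subspaces -/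
def j21039_inv {X : Type*} [AddCommGroup X] [Module ℂ X] (R : Submodule ℂ (X × X))
    (Y : Submodule ℂ X) : Prop := ∀ y ∈ Y, ∃ z ∈ Y, (y, z) ∈ R

lemma j21039_uniq {X : Type*} [AddCommGroup X] [Module ℂ X] (R : Submodule ℂ (X × X))
    (hR : ∀ f : X, ((0 : X), f) ∈ R → f = 0) {y z z' : X} (h : (y, z) ∈ R) (h' : (y, z') ∈ R) :
    z = z' := by
  have h1 := R.sub_mem h h'
  rw [Prod.mk_sub_mk, sub_self] at h1
  exact sub_eq_zero.mp (hR _ h1)

lemma j21039_T {X : Type*} [AddCommGroup X] [Module ℂ X] (R : Submodule ℂ (X × X))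
    (hR : ∀ f : X, ((0 : X), f) ∈ R → f = 0) (Y : Submodule ℂ X) (hY : j21039_inv R Y) :
    ∃ T : Y →ₗ[ℂ] Y, ∀ y : Y, ((y : X), ((T y : Y) : X)) ∈ R := by
  choose f hf using hY
  refine ⟨{ toFun := fun y => ⟨f y y.2, (hf y y.2).1⟩
            map_add' := ?_
            map_smul' := ?_ }, fun y => (hf y y.2).2⟩
  · intro y y'
    apply Subtype.ext
    have h1 := R.add_mem (hf y y.2).2 (hf y' y'.2).2
    rw [Prod.mk_add_mk] at h1
    exact j21039_uniq R hR (hf (y + y' : Y) (y + y').2).2 h1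
  · intro a y
    apply Subtype.ext
    have h1 := R.smul_mem a (hf y y.2).2
    rw [Prod.smul_mk] at h1
    exact j21039_uniq R hR (hf (a • y : Y) (a • y).2).2 h1

lemma j21039_max {X : Type*} [AddCommGroup X] [Module ℂ X] (R : Submodule ℂ (X × X))
    (hR : ∀ f : X, ((0 : X), f) ∈ R → f = 0) (Y : Submodule ℂ X)
    (T : Module.End ℂ Y) (hT : ∀ y : Y, ((y : X), ((T y : Y) : X)) ∈ R) (E : ℂ) (y : Y)
    (hy : chainGen (fun a b => (a, b) ∈ R) E (y : X)) : y ∈ T.maxGenEigenspace E := by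
  rw [j21039_chain_iff] at hy
  obtain ⟨n, c, h0, hn, hc⟩ := hy
  have key : ∀ i, ((((T - E • (1 : Module.End ℂ Y)) ^ i) y : Y) : X) = c i := by
    intro i
    induction i with
    | zero => simp [h0]
    | succ i ih =>
      rw [pow_succ', Module.End.mul_apply]
      set z := ((T - E • (1 : Module.End ℂ Y)) ^ i) y with hz
      have h1 := hT z
      rw [ih] at h1
      have h2 := j21039_uniq R hR h1 (hc i)
      have h3 : (T - E • (1 : Module.End ℂ Y)) z = T z - E • z := by
        simp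
      rw [h3, Submodule.coe_sub, Submodule.coe_smul, h2, ih]
      abel
  rw [Module.End.mem_maxGenEigenspace]
  refine ⟨n, ?_⟩
  apply Subtype.ext
  rw [key n, hn n le_rfl]
  rfl

lemma j21039_count (s : Multiset ℂ) (w : ℂ → ℝ) (hw : ∀ E, 0 ≤ w E) (S : Finset ℂ) :
    ∑ E ∈ S, (s.count E : ℝ) * w E ≤ (s.map w).sum := by
  classical
  rw [Finset.sum_multiset_map_count]
  simp only [nsmul_eq_mul]
  calc ∑ E ∈ S, (s.count E : ℝ) * w E ≤ ∑ E ∈ S ∪ s.toFinset, (s.count E : ℝ) * w E :=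
        Finset.sum_le_sum_of_subset_of_nonneg Finset.subset_union_left
          fun E _ _ => mul_nonneg (Nat.cast_nonneg _) (hw E)
    _ = ∑ E ∈ s.toFinset, (s.count E : ℝ) * w E := by
        symm
        apply Finset.sum_subset Finset.subset_union_right
        intro E _ hE
        rw [Multiset.mem_toFinset] at hE
        rw [Multiset.count_eq_zero_of_notMem hE]
        simp

lemma j21039_roots {X : Type*} [AddCommGroup X] [Module ℂ X] (R : Submodule ℂ (X × X))
    (w : ℂ → ℝ) (B : ℝ)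
    (hB : ∀ (N : ℕ) (u : Fin N → X) (A : Matrix (Fin N) (Fin N) ℂ), LinearIndependent ℂ u →
      (∀ j, (u j, ∑ l, A l j • u l) ∈ R) → (A.charpoly.roots.map w).sum ≤ B)
    (Y : Submodule ℂ X) [FiniteDimensional ℂ Y]
    (T : Y →ₗ[ℂ] Y) (hT : ∀ y : Y, ((y : X), ((T y : Y) : X)) ∈ R) :
    (T.charpoly.roots.map w).sum ≤ B := by
  let b := Module.finBasis ℂ Y
  have h1 := hB (Module.finrank ℂ Y) (fun j => ((b j : Y) : X)) (LinearMap.toMatrix b b T)
    (b.linearIndependent.map' Y.subtype (Submodule.ker_subtype Y)) (by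
      intro j
      have h2 : ((T (b j) : Y) : X) = ∑ l, LinearMap.toMatrix b b T l j • ((b l : Y) : X) := by
        have h3 := congrArg (fun z : Y => (z : X)) (b.sum_repr (T (b j)))
        simp only [Submodule.coe_sum, Submodule.coe_smul] at h3
        rw [← h3]
        refine Finset.sum_congr rfl fun l _ => ?_
        rw [LinearMap.toMatrix_apply]
      rw [← h2]
      exact hT (b j))
  rw [LinearMap.charpoly_toMatrix] at h1
  exact h1

lemma j21039_sup {X : Type*} [AddCommGroup X] [Module ℂ X] (R : Submodule ℂ (X × X))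
    (Y Y' : Submodule ℂ X) (h : j21039_inv R Y) (h' : j21039_inv R Y') :
    j21039_inv R (Y ⊔ Y') := by
  intro y hy
  rw [Submodule.mem_sup] at hy
  obtain ⟨a, ha, b, hb, rfl⟩ := hy
  obtain ⟨c, hc, hac⟩ := h a ha
  obtain ⟨d, hd, hbd⟩ := h' b hb
  refine ⟨c + d, Submodule.add_mem_sup hc hd, ?_⟩
  have := R.add_mem hac hbd
  rwa [Prod.mk_add_mk] at this

lemma j21039_main {X : Type*} [AddCommGroup X] [Module ℂ X] (R : Submodule ℂ (X × X))
    (hR : ∀ f : X, ((0 : X), f) ∈ R → f = 0) (w : ℂ → ℝ) (hw : ∀ E, 0 ≤ w E) (B : ℝ)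
    (hB : ∀ (N : ℕ) (u : Fin N → X) (A : Matrix (Fin N) (Fin N) ℂ), LinearIndependent ℂ u →
      (∀ j, (u j, ∑ l, A l j • u l) ∈ R) → (A.charpoly.roots.map w).sum ≤ B)
    (S : Finset ℂ) (Yf : ℂ → Submodule ℂ X) (hfin : ∀ E ∈ S, FiniteDimensional ℂ (Yf E))
    (hinv : ∀ E ∈ S, j21039_inv R (Yf E))
    (hch : ∀ E ∈ S, ∀ y ∈ Yf E, chainGen (fun a b => (a, b) ∈ R) E y) :
    ∑ E ∈ S, (Module.finrank ℂ (Yf E) : ℝ) * w E ≤ B := by
  classical
  have hYinv : j21039_inv R (S.sup Yf) := by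
    apply Finset.sup_induction (p := fun Y => j21039_inv R Y)
    · intro y hy
      rw [Submodule.mem_bot] at hy
      subst hy
      exact ⟨0, Submodule.zero_mem _, R.zero_mem⟩
    · intro a ha b hb
      exact j21039_sup R a b ha hb
    · exact hinv
  haveI hYfin : FiniteDimensional ℂ (S.sup Yf : Submodule ℂ X) := by
    apply Finset.sup_induction (p := fun Y : Submodule ℂ X => FiniteDimensional ℂ Y)
    · infer_instance
    · intro a ha b hb
      haveI := ha
      haveI := hb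
      infer_instance
    · exact hfin
  obtain ⟨T, hT⟩ := j21039_T R hR _ hYinv
  have hle : ∀ E ∈ S, Module.finrank ℂ (Yf E) ≤ T.charpoly.roots.count E := by
    intro E hE
    have h1 : Yf E ≤ S.sup Yf := Finset.le_sup hE
    have h2 : (Yf E).comap (S.sup Yf).subtype ≤ Module.End.maxGenEigenspace T E := by
      intro y hy
      exact j21039_max R hR _ T hT E y (hch E hE _ hy)
    have h3 : Module.finrank ℂ ((Yf E).comap (S.sup Yf).subtype) = Module.finrank ℂ (Yf E) :=
      LinearEquiv.finrank_eq (Submodule.comapSubtypeEquivOfLe h1)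
    rw [← h3, Polynomial.count_roots, ← LinearMap.finrank_maxGenEigenspace_eq]
    exact Submodule.finrank_mono h2
  calc ∑ E ∈ S, (Module.finrank ℂ (Yf E) : ℝ) * w E
      ≤ ∑ E ∈ S, (T.charpoly.roots.count E : ℝ) * w E := by
        refine Finset.sum_le_sum fun E hE => ?_
        exact mul_le_mul_of_nonneg_right (by exact_mod_cast hle E hE) (hw E)
    _ ≤ (T.charpoly.roots.map w).sum := j21039_count _ w hw S
    _ ≤ B := j21039_roots R w B hB _ T hT

lemma j21039_shift {X : Type*} [AddCommGroup X] [Module ℂ X] (R : Submodule ℂ (X × X))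
    (E : ℂ) (n : ℕ) (c : ℕ → X) (hn : ∀ i, n ≤ i → c i = 0)
    (hc : ∀ i, (c i, c (i + 1) + E • c i) ∈ R) (i : ℕ) :
    chainGen (fun a b => (a, b) ∈ R) E (c i) := by
  rw [j21039_chain_iff]
  refine ⟨n, fun j => c (j + i), by simp, fun j hj => hn _ (by omega), fun j => ?_⟩
  have h1 := hc (j + i)
  have h2 : j + i + 1 = j + 1 + i := by ring
  rw [h2] at h1
  exact h1

lemma j21039_Z {X : Type*} [AddCommGroup X] [Module ℂ X] (R : Submodule ℂ (X × X))
    (E : ℂ) (G : Submodule ℂ X) (hG : ∀ u, u ∈ G ↔ chainGen (fun a b => (a, b) ∈ R) E u)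
    (u : X) (hu : u ∈ G) : ∃ Z : Submodule ℂ X, FiniteDimensional ℂ Z ∧ j21039_inv R Z ∧
      Z ≤ G ∧ u ∈ Z := by
  rw [hG, j21039_chain_iff] at hu
  obtain ⟨n, c, h0, hn, hc⟩ := hu
  refine ⟨Submodule.span ℂ (c '' Set.Iic n), ?_, ?_, ?_, ?_⟩
  · exact FiniteDimensional.span_of_finite ℂ ((Set.finite_Iic n).image c)
  · intro y hy
    induction hy using Submodule.span_induction with
    | mem x hx =>
      obtain ⟨i, hi, rfl⟩ := hx
      refine ⟨c (i + 1) + E • c i, ?_, hc i⟩
      refine Submodule.add_mem _ ?_ (Submodule.smul_mem _ _ (Submodule.subset_span ⟨i, hi, rfl⟩))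
      by_cases h : i + 1 ≤ n
      · exact Submodule.subset_span ⟨i + 1, h, rfl⟩
      · rw [hn (i + 1) (by omega)]
        exact Submodule.zero_mem _
    | zero => exact ⟨0, Submodule.zero_mem _, R.zero_mem⟩
    | add x y _ _ hx hy =>
      obtain ⟨z, hz, hxz⟩ := hx
      obtain ⟨z', hz', hyz'⟩ := hy
      refine ⟨z + z', Submodule.add_mem _ hz hz', ?_⟩
      have := R.add_mem hxz hyz'
      rwa [Prod.mk_add_mk] at this
    | smul a x _ hx =>
      obtain ⟨z, hz, hxz⟩ := hx
      refine ⟨a • z, Submodule.smul_mem _ _ hz, ?_⟩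
      have := R.smul_mem a hxz
      rwa [Prod.smul_mk] at this
  · rw [Submodule.span_le]
    rintro _ ⟨i, _, rfl⟩
    exact (hG _).mpr (j21039_shift R E n c hn hc i)
  · exact Submodule.subset_span ⟨0, Nat.zero_le n, h0⟩

lemma j21039_Ginv {X : Type*} [AddCommGroup X] [Module ℂ X] (R : Submodule ℂ (X × X))
    (E : ℂ) (G : Submodule ℂ X) (hG : ∀ u, u ∈ G ↔ chainGen (fun a b => (a, b) ∈ R) E u) :
    j21039_inv R G := by
  intro y hy
  have hy' := hy
  rw [hG, j21039_chain_iff] at hy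
  obtain ⟨n, c, h0, hn, hc⟩ := hy
  refine ⟨c 1 + E • y, G.add_mem ((hG _).mpr (j21039_shift R E n c hn hc 1))
    (G.smul_mem _ hy'), ?_⟩
  have h1 := hc 0
  rw [h0] at h1
  exact h1

/-- From the bound on finite-dimensional invariant subspaces to the sum over all eigenvalues with
algebraic multiplicity. -/
theorem gen_bound {X : Type*} [AddCommGroup X] [Module ℂ X] (R : Submodule ℂ (X × X))
    (hR : ∀ f : X, ((0 : X), f) ∈ R → f = 0) (w : ℂ → ℝ) (hw : ∀ E, 0 ≤ w E) (B : ℝ)
    (hB : ∀ (N : ℕ) (u : Fin N → X) (A : Matrix (Fin N) (Fin N) ℂ), LinearIndependent ℂ u →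
      (∀ j, (u j, ∑ l, A l j • u l) ∈ R) → (A.charpoly.roots.map w).sum ≤ B)
    (G : ℂ → Submodule ℂ X) (hG : ∀ E u, u ∈ G E ↔ chainGen (fun a b => (a, b) ∈ R) E u) :
    (∀ E, 0 < w E → Module.Finite ℂ (G E)) ∧
    ∑' E : ℂ, ((Module.finrank ℂ (G E) : ℕ) : ℝ≥0∞) * ENNReal.ofReal (w E) ≤ ENNReal.ofReal B := by
  classical
  have hfinG : ∀ E, 0 < w E → Module.Finite ℂ (G E) := by
    intro E hE
    let s : Set ℕ := {m | ∃ Y : Submodule ℂ X, FiniteDimensional ℂ Y ∧ j21039_inv R Y ∧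
      Y ≤ G E ∧ Module.finrank ℂ Y = m}
    have hbdd : BddAbove s := by
      refine ⟨⌊B / w E⌋₊, ?_⟩
      rintro m ⟨Y, hY1, hY2, hY3, rfl⟩
      have h1 := j21039_main R hR w hw B hB {E} (fun _ => Y) (fun _ _ => hY1) (fun _ _ => hY2)
        (by
          intro E' hE' y hy
          rw [Finset.mem_singleton] at hE'
          subst hE'
          exact (hG _ _).mp (hY3 hy))
      rw [Finset.sum_singleton] at h1
      apply Nat.le_floor
      rw [le_div_iff₀ hE]
      exact h1
    have hne : s.Nonempty := by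
      refine ⟨0, ⊥, inferInstance, ?_, bot_le, finrank_bot ℂ X⟩
      intro y hy
      rw [Submodule.mem_bot] at hy
      subst hy
      exact ⟨0, Submodule.zero_mem _, R.zero_mem⟩
    obtain ⟨Y, hY1, hY2, hY3, hY4⟩ := Nat.sSup_mem hne hbdd
    have hGY : G E = Y := by
      apply le_antisymm _ hY3
      intro u hu
      obtain ⟨Z, hZ1, hZ2, hZ3, hZ4⟩ := j21039_Z R E (G E) (hG E) u hu
      haveI := hY1
      haveI := hZ1
      have h1 : Module.finrank ℂ (Y ⊔ Z : Submodule ℂ X) ≤ Module.finrank ℂ Y := by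
        rw [hY4]
        exact le_csSup hbdd ⟨Y ⊔ Z, inferInstance, j21039_sup R Y Z hY2 hZ2, sup_le hY3 hZ3, rfl⟩
      have h2 : Y = Y ⊔ Z := Submodule.eq_of_le_of_finrank_le le_sup_left h1
      rw [h2]
      exact (le_sup_right : Z ≤ Y ⊔ Z) hZ4
    rw [hGY]
    exact hY1
  refine ⟨hfinG, ?_⟩
  rw [ENNReal.tsum_eq_iSup_sum]
  refine iSup_le fun S => ?_
  have h1 : ∑ E ∈ S, ((Module.finrank ℂ (G E) : ℕ) : ℝ≥0∞) * ENNReal.ofReal (w E) =
      ENNReal.ofReal (∑ E ∈ S, (Module.finrank ℂ (G E) : ℝ) * w E) := by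
    rw [ENNReal.ofReal_sum_of_nonneg fun E _ => mul_nonneg (Nat.cast_nonneg _) (hw E)]
    refine Finset.sum_congr rfl fun E _ => ?_
    rw [ENNReal.ofReal_mul (Nat.cast_nonneg _), ENNReal.ofReal_natCast]
  rw [h1]
  apply ENNReal.ofReal_le_ofReal
  have h2 : ∑ E ∈ S, (Module.finrank ℂ (G E) : ℝ) * w E =
      ∑ E ∈ S.filter (fun E => 0 < w E), (Module.finrank ℂ (G E) : ℝ) * w E := by
    rw [Finset.sum_filter]
    refine Finset.sum_congr rfl fun E _ => ?_
    split_ifs with h
    · rfl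
    · have : w E = 0 := le_antisymm (not_lt.mp h) (hw E)
      rw [this, mul_zero]
  rw [h2]
  refine j21039_main R hR w hw B hB _ G ?_ ?_ ?_
  · intro E hE
    exact hfinG E (Finset.mem_filter.mp hE).2
  · intro E _
    exact j21039_Ginv R E (G E) (hG E)
  · intro E _ y hy
    exact (hG E y).mp hy

end K30
end Pool.Agent.Helper209.CX
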