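import Mathlib
import Pool.Agent.Helper209.CX.DDefs

namespace Pool.Agent.Helper209.CX

namespace K31
open MeasureTheory ENNReal FourierTransform



theorem isHu_zero_F {d : ℕ} : (𝓕 (0 : L2d d) : L2d d) = 0 :=
  (Lp.fourierTransformₗᵢ (Ed d) ℂ).map_zero

theorem isHu_zero_Fadd {d : ℕ} (u v : L2d d) : (𝓕 (u + v) : L2d d) = 𝓕 u + 𝓕 v :=
  (Lp.fourierTransformₗᵢ (Ed d) ℂ).map_add u v

theorem isHu_zero_Fsmul {d : ℕ} (c : ℂ) (u : L2d d) : (𝓕 (c • u) : L2d d) = c • 𝓕 u :=
  (Lp.fourierTransformₗᵢ (Ed d) ℂ).map_smul c u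

theorem isHu_zero_int {d : ℕ} (u φ : L2d d) (hu : InH1 u) (hφ : InH1 φ) :
    Integrable (fun ξ : Ed d => (((2 * Real.pi * ‖ξ‖) ^ 2 : ℝ) : ℂ) * (𝓕 u : L2d d) ξ *
      (starRingEnd ℂ) ((𝓕 φ : L2d d) ξ)) volume := by
  have h1 := (MemLp.integrable_mul hu hφ.star).const_mul (((2 * Real.pi) ^ 2 : ℝ) : ℂ)
  refine h1.congr (Filter.Eventually.of_forall fun ξ => ?_)
  simp only [Pi.mul_apply, Pi.star_apply, star_mul', RCLike.star_def, Complex.conj_ofReal]
  push_cast
  ring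

theorem isHu_zero_int2 {d : ℕ} (f φ : L2d d) :
    Integrable (fun x : Ed d => f x * (starRingEnd ℂ) (φ x)) volume := by
  have h1 := MemLp.integrable_mul (Lp.memLp f) (Lp.memLp φ).star
  exact h1

theorem isHu_zero_V {d : ℕ} (V : Ed d → ℂ) (φ : L2d d) :
    (fun x => V x * (0 : L2d d) x * (starRingEnd ℂ) (φ x)) =ᵐ[volume] fun _ => 0 := by
  filter_upwards [Lp.coeFn_zero ℂ 2 (volume : Measure (Ed d))] with x hx
  rw [hx]
  simp

theorem isHu_zero_dir {d : ℕ} (φ : L2d d) : dirichlet 0 φ = 0 := by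
  unfold dirichlet
  rw [isHu_zero_F]
  have h1 : (fun ξ : Ed d => (((2 * Real.pi * ‖ξ‖) ^ 2 : ℝ) : ℂ) * (0 : L2d d) ξ *
      (starRingEnd ℂ) ((𝓕 φ : L2d d) ξ)) =ᵐ[volume] fun _ => 0 := by
    filter_upwards [Lp.coeFn_zero ℂ 2 (volume : Measure (Ed d))] with x hx
    rw [hx]
    simp
  rw [integral_congr_ae h1, integral_zero]

theorem isHu_zero_test {d : ℕ} (h : ℝ) (V : Ed d → ℂ) (f : L2d d) (hf : IsHu h V 0 f)
    (φ : L2d d) (hφ : InH1 φ) : inner ℂ φ f = 0 := by
  have h1 := (hf.2 φ hφ).2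
  rw [isHu_zero_dir, mul_zero, zero_add, integral_congr_ae (isHu_zero_V V φ), integral_zero] at h1
  rw [L2.inner_def, h1]
  refine integral_congr_ae (Filter.Eventually.of_forall fun x => ?_)
  simp only [RCLike.inner_apply]

theorem isHu_zero {d : ℕ} (h : ℝ) (V : Ed d → ℂ) (f : L2d d) (hf : IsHu h V 0 f) : f = 0 := by
  classical
  have key : ∀ M : ℕ, ∀ᵐ ξ ∂(volume : Measure (Ed d)), ξ ∈ Metric.closedBall (0 : Ed d) M →
      (𝓕 f : L2d d) ξ = 0 := by
    intro M
    have hmem : MemLp ((Metric.closedBall (0 : Ed d) M).indicator ((𝓕 f : L2d d) : Ed d → ℂ)) 2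
        volume := (Lp.memLp (𝓕 f : L2d d)).indicator measurableSet_closedBall
    set g : L2d d := hmem.toLp _ with hg
    have hgc : (g : Ed d → ℂ) =ᵐ[volume]
        (Metric.closedBall (0 : Ed d) M).indicator ((𝓕 f : L2d d) : Ed d → ℂ) := hmem.coeFn_toLp
    have hF : (𝓕 (𝓕⁻ g : L2d d) : L2d d) = g := FourierInvPair.fourier_fourierInv_eq g
    have hH1 : InH1 (𝓕⁻ g : L2d d) := by
      unfold InH1
      rw [hF]
      refine MemLp.of_le_mul (c := (M : ℝ)) (Lp.memLp g) ?_ ?_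
      · exact ((Complex.continuous_ofReal.comp continuous_norm).aestronglyMeasurable).mul
          (Lp.aestronglyMeasurable g)
      · filter_upwards [hgc] with ξ hξ
        rw [hξ]
        by_cases hM : ξ ∈ Metric.closedBall (0 : Ed d) M
        · rw [norm_mul, Complex.norm_real, norm_norm]
          rw [mem_closedBall_zero_iff] at hM
          exact mul_le_mul_of_nonneg_right hM (norm_nonneg _)
        · rw [Set.indicator_of_notMem hM, mul_zero, norm_zero, mul_zero]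
    have h1 := isHu_zero_test h V f hf _ hH1
    rw [← Lp.inner_fourier_eq, hF] at h1
    have h2 : inner ℂ g (𝓕 f : L2d d) = inner ℂ g g := by
      rw [L2.inner_def, L2.inner_def]
      refine integral_congr_ae ?_
      filter_upwards [hgc] with ξ hξ
      rw [hξ]
      by_cases hM : ξ ∈ Metric.closedBall (0 : Ed d) M
      · rw [Set.indicator_of_mem hM]
      · rw [Set.indicator_of_notMem hM, inner_zero_left, inner_zero_left]
    rw [h2, inner_self_eq_zero] at h1
    have h3 : (g : Ed d → ℂ) =ᵐ[volume] 0 := by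
      rw [h1]
      exact Lp.coeFn_zero _ _ _
    filter_upwards [hgc, h3] with ξ h4 h5 h6
    rw [h4, Set.indicator_of_mem h6] at h5
    exact h5
  have hall : ∀ᵐ ξ ∂(volume : Measure (Ed d)), (𝓕 f : L2d d) ξ = 0 := by
    rw [← ae_all_iff] at key
    filter_upwards [key] with ξ hξ
    obtain ⟨M, hM⟩ := exists_nat_ge ‖ξ‖
    exact hξ M (by rw [mem_closedBall_zero_iff]; exact hM)
  have h1 : (𝓕 f : L2d d) = 0 := (Lp.eq_zero_iff_ae_eq_zero).2 hall
  have h2 : (Lp.fourierTransformₗᵢ (Ed d) ℂ) f = 0 := h1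
  exact (Lp.fourierTransformₗᵢ (Ed d) ℂ).map_eq_zero_iff.1 h2

theorem isHu_add {d : ℕ} (h : ℝ) (V : Ed d → ℂ) (u v f g : L2d d) (hu : IsHu h V u f)
    (hv : IsHu h V v g) : IsHu h V (u + v) (f + g) := by
  have hF : ((𝓕 (u + v) : L2d d) : Ed d → ℂ) =ᵐ[volume]
      fun ξ => (𝓕 u : L2d d) ξ + (𝓕 v : L2d d) ξ := by
    rw [isHu_zero_Fadd]
    exact Lp.coeFn_add _ _
  refine ⟨?_, fun φ hφ => ?_⟩
  · have h1 := MemLp.add hu.1 hv.1
    refine h1.ae_eq ?_
    filter_upwards [hF] with ξ hξ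
    rw [hξ, Pi.add_apply, mul_add]
  · obtain ⟨i1, e1⟩ := hu.2 φ hφ
    obtain ⟨i2, e2⟩ := hv.2 φ hφ
    have hV : (fun x => V x * u x * (starRingEnd ℂ) (φ x) + V x * v x * (starRingEnd ℂ) (φ x))
        =ᵐ[volume] fun x => V x * (u + v : L2d d) x * (starRingEnd ℂ) (φ x) := by
      filter_upwards [Lp.coeFn_add u v] with x hx
      rw [hx, Pi.add_apply]
      ring
    refine ⟨(i1.add i2).congr hV, ?_⟩
    have hD : dirichlet (u + v) φ = dirichlet u φ + dirichlet v φ := by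
      unfold dirichlet
      rw [← integral_add (isHu_zero_int u φ hu.1 hφ) (isHu_zero_int v φ hv.1 hφ)]
      refine integral_congr_ae ?_
      filter_upwards [hF] with ξ hξ
      rw [hξ]
      ring
    have hR : ∫ x, (f + g : L2d d) x * (starRingEnd ℂ) (φ x) =
        (∫ x, f x * (starRingEnd ℂ) (φ x)) + ∫ x, g x * (starRingEnd ℂ) (φ x) := by
      rw [← integral_add (isHu_zero_int2 f φ) (isHu_zero_int2 g φ)]
      refine integral_congr_ae ?_
      filter_upwards [Lp.coeFn_add f g] with x hx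
      rw [hx, Pi.add_apply]
      ring
    rw [hD, hR, ← e1, ← e2, ← integral_congr_ae hV, integral_add i1 i2]
    ring

theorem isHu_smul {d : ℕ} (h : ℝ) (V : Ed d → ℂ) (c : ℂ) (u f : L2d d) (hu : IsHu h V u f) :
    IsHu h V (c • u) (c • f) := by
  have hF : ((𝓕 (c • u) : L2d d) : Ed d → ℂ) =ᵐ[volume] fun ξ => c * (𝓕 u : L2d d) ξ := by
    rw [isHu_zero_Fsmul]
    exact Lp.coeFn_smul _ _
  refine ⟨?_, fun φ hφ => ?_⟩
  · have h1 := MemLp.const_mul hu.1 c
    refine h1.ae_eq ?_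
    filter_upwards [hF] with ξ hξ
    rw [hξ]
    ring
  · obtain ⟨i1, e1⟩ := hu.2 φ hφ
    have hV : (fun x => c * (V x * u x * (starRingEnd ℂ) (φ x)))
        =ᵐ[volume] fun x => V x * (c • u : L2d d) x * (starRingEnd ℂ) (φ x) := by
      filter_upwards [Lp.coeFn_smul c u] with x hx
      rw [hx, Pi.smul_apply, smul_eq_mul]
      ring
    refine ⟨(i1.const_mul c).congr hV, ?_⟩
    have hD : dirichlet (c • u) φ = c * dirichlet u φ := by
      unfold dirichlet
      rw [← integral_const_mul]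
      refine integral_congr_ae ?_
      filter_upwards [hF] with ξ hξ
      rw [hξ]
      ring
    have hR : ∫ x, (c • f : L2d d) x * (starRingEnd ℂ) (φ x) =
        c * ∫ x, f x * (starRingEnd ℂ) (φ x) := by
      rw [← integral_const_mul]
      refine integral_congr_ae ?_
      filter_upwards [Lp.coeFn_smul c f] with x hx
      rw [hx, Pi.smul_apply, smul_eq_mul]
      ring
    rw [hD, hR, ← e1, ← integral_congr_ae hV, integral_const_mul]
    ring

theorem isHu_zero_zero {d : ℕ} (h : ℝ) (V : Ed d → ℂ) : IsHu h V 0 0 := by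
  refine ⟨?_, fun φ hφ => ⟨?_, ?_⟩⟩
  · unfold InH1
    rw [isHu_zero_F]
    have h1 : MemLp (fun _ : Ed d => (0 : ℂ)) 2 (volume : Measure (Ed d)) := MemLp.zero
    refine h1.ae_eq ?_
    filter_upwards [Lp.coeFn_zero ℂ 2 (volume : Measure (Ed d))] with x hx
    rw [hx]
    simp
  · exact (integrable_zero _ _ _).congr (isHu_zero_V V φ).symm
  · rw [isHu_zero_dir, mul_zero, zero_add, integral_congr_ae (isHu_zero_V V φ), integral_zero]
    symm
    have h1 : (fun x => (0 : L2d d) x * (starRingEnd ℂ) (φ x)) =ᵐ[volume] fun _ => 0 := by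
      filter_upwards [Lp.coeFn_zero ℂ 2 (volume : Measure (Ed d))] with x hx
      rw [hx]
      simp
    rw [integral_congr_ae h1, integral_zero]

end K31
end Pool.Agent.Helper209.CX
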